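import Pool.Agent.Lib.MP_7b255b_ntU.Q3

/-!
# A1: integrals over the arcs

JOB A1. `f` satisfies the first derivative test `FD C N z f`. `arc J j = -2 + 4 j / J`.
* `split2` (general): `f` continuous on `[a, b]`, `‖f‖ ≤ C`, centres `r1 ≤ r2`, `l ≥ 0`, `K ≥ 0` such that `‖∫ x in c..d, f x‖ ≤ K` for all `[c, d] ⊆ [a, b]` all points of which have distance `≥ l` from `r1` and `r2`. Then
  `‖∫ x in a..b, f x‖ ≤ 4 l C + 3 K`: divide `[a, b]` at the points `r1 - l, r1 + l, r2 - l, r2 + l` (clipped to `[a, b]`: `max a (min b _)`); the five (three if `r2 - l < r1 + l`) pieces are either good or of length `≤ 2 l`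
  around a centre. (A convenient way: first the lemma with one centre: `‖∫_a^b‖ ≤ 2 l C + 2 K`, the constant is not important: two centres give for example `4 l C + 4 K`, apply the lemma with one centre twice.)
* all arcs: if `1 ≤ w^4 N^2 |D|`: `l = w`, on the good intervals `|qv z x| ≥ √|D| w` (`roots`, first part), `K = C / (N √|D| w) ≤ C w` because `N √|D| w^2 ≥ 1`. If `1 ≤ w^3 N ‖z‖`: for `w ≥ 1` the trivial bound `4 C ≤ 4 C w`; for
  `w < 1` `l = w`, `|qv z x| ≥ ‖z‖ w^2 / 256` (second part), `K = 256 C / (N ‖z‖ w^2) ≤ 256 C w`.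
* `NJ`: if `|z 0| < ‖z‖/256` and `|qD z| ≤ ‖z‖^2/256` then `NJ = ∅` and every arc is `≤ 2 C / (N ‖z‖)` (`off`), the sum is `≤ 2 C J / (N ‖z‖)`. Otherwise `NJ = {j < J : |arc J j - r1| < 8/J or |arc J j - r2| < 8/J}`: at most
  `8` elements (the points `arc J j` have the distance `4/J`). For `j < J`, `j ∉ NJ` the points `x` of the arc have `|x - r_i| ≥ |arc J j - r_i| - 4/J ≥ |arc J j - r_i| / 2`, so the second part of `roots` and `FD.osc` give
  `‖∫‖ ≤ 256 C / (N ‖z‖) * (1 + 4 / |arc J j - r1|^2 + 4 / |arc J j - r2|^2)`, and `∑_{j : |arc J j - r| ≥ 8/J} 1 / |arc J j - r|^2 ≤ C J^2` (on each side of `r` the `k`-th point has the distance `≥ 4 k / J`; `∑ 1/k^2 ≤ 2`).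
* the last part: `|arc J j - qc z| ≤ |arc J j - r_i| + |r_i - qc z| ≤ 8/J + 256 ε` for some `i` (`roots`, third part).
-/

set_option autoImplicit false

namespace MPku

open Finset

theorem A1_split1 {f : ℝ → ℂ} {a b r l C K : ℝ} (hab : a ≤ b) (hl : 0 ≤ l) (hC : 0 ≤ C) (hK : 0 ≤ K)
    (hf : ContinuousOn f (Set.Icc a b)) (hb : ∀ x ∈ Set.Icc a b, ‖f x‖ ≤ C)
    (h : ∀ c d, a ≤ c → c ≤ d → d ≤ b → (∀ x ∈ Set.Icc c d, l ≤ |x - r|) → ‖∫ x in c..d, f x‖ ≤ K) :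
    ‖∫ x in a..b, f x‖ ≤ 2 * l * C + 2 * K := by
  obtain ⟨c, hc⟩ : ∃ c, c = max a (min b (r - l)) := ⟨_, rfl⟩
  obtain ⟨d, hd⟩ : ∃ d, d = max a (min b (r + l)) := ⟨_, rfl⟩
  have hac : a ≤ c := by rw [hc]; exact le_max_left _ _
  have hcd : c ≤ d := by
    rw [hc, hd]
    exact max_le_max le_rfl (min_le_min le_rfl (by linarith))
  have hdb : d ≤ b := by rw [hd]; exact max_le hab (min_le_left _ _)
  have hdc : d ≤ c + 2 * l := by
    rw [hd]
    refine max_le (by linarith) ?_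
    have h1 : min b (r + l) - 2 * l ≤ min b (r - l) := by
      refine le_min ?_ ?_
      · have := min_le_left b (r + l); linarith
      · have := min_le_right b (r + l); linarith
    have h2 : min b (r - l) ≤ c := by rw [hc]; exact le_max_right _ _
    linarith
  have int1 : IntervalIntegrable f MeasureTheory.volume a c := by
    apply ContinuousOn.intervalIntegrable
    rw [Set.uIcc_of_le hac]
    exact hf.mono (Set.Icc_subset_Icc le_rfl (hcd.trans hdb))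
  have int2 : IntervalIntegrable f MeasureTheory.volume c d := by
    apply ContinuousOn.intervalIntegrable
    rw [Set.uIcc_of_le hcd]
    exact hf.mono (Set.Icc_subset_Icc hac hdb)
  have int3 : IntervalIntegrable f MeasureTheory.volume d b := by
    apply ContinuousOn.intervalIntegrable
    rw [Set.uIcc_of_le hdb]
    exact hf.mono (Set.Icc_subset_Icc (hac.trans hcd) le_rfl)
  have e1 : (∫ x in a..b, f x) = (∫ x in a..c, f x) + (∫ x in c..d, f x) + ∫ x in d..b, f x := by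
    rw [intervalIntegral.integral_add_adjacent_intervals int1 int2,
      intervalIntegral.integral_add_adjacent_intervals (int1.trans int2) int3]
  have b1 : ‖∫ x in a..c, f x‖ ≤ K := by
    rcases eq_or_lt_of_le hac with h0 | h0
    · rw [← h0]; simpa using hK
    · refine h a c le_rfl hac (hcd.trans hdb) ?_
      intro x hx
      have h1 : c ≤ r - l := by
        rcases le_total a (min b (r - l)) with h2 | h2
        · rw [hc, max_eq_right h2]; exact min_le_right _ _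
        · rw [max_eq_left h2] at hc; linarith
      have := hx.2
      exact le_abs.mpr (Or.inr (by linarith))
  have b3 : ‖∫ x in d..b, f x‖ ≤ K := by
    rcases eq_or_lt_of_le hdb with h0 | h0
    · rw [h0]; simpa using hK
    · refine h d b (hac.trans hcd) hdb le_rfl ?_
      intro x hx
      have h1 : r + l ≤ d := by
        rcases le_total b (r + l) with h2 | h2
        · rw [min_eq_left h2] at hd
          have : b ≤ d := by rw [hd]; exact le_max_right _ _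
          linarith
        · rw [min_eq_right h2] at hd
          rw [hd]; exact le_max_right _ _
      have := hx.1
      exact le_abs.mpr (Or.inl (by linarith))
  have b2 : ‖∫ x in c..d, f x‖ ≤ C * (2 * l) := by
    have h1 : ‖∫ x in c..d, f x‖ ≤ C * |d - c| := by
      apply intervalIntegral.norm_integral_le_of_norm_le_const
      intro x hx
      rw [Set.uIoc_of_le hcd] at hx
      exact hb x ⟨hac.trans hx.1.le, hx.2.trans hdb⟩
    have h2 : |d - c| ≤ 2 * l := by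
      rw [abs_of_nonneg (by linarith)]; linarith
    exact h1.trans (mul_le_mul_of_nonneg_left h2 hC)
  rw [e1]
  have n1 := norm_add_le ((∫ x in a..c, f x) + (∫ x in c..d, f x)) (∫ x in d..b, f x)
  have n2 := norm_add_le (∫ x in a..c, f x) (∫ x in c..d, f x)
  linarith

theorem A1_split2 {f : ℝ → ℂ} {a b r1 r2 l C K : ℝ} (hab : a ≤ b) (hl : 0 ≤ l) (hC : 0 ≤ C) (hK : 0 ≤ K)
    (hf : ContinuousOn f (Set.Icc a b)) (hb : ∀ x ∈ Set.Icc a b, ‖f x‖ ≤ C)
    (h : ∀ c d, a ≤ c → c ≤ d → d ≤ b → (∀ x ∈ Set.Icc c d, l ≤ |x - r1| ∧ l ≤ |x - r2|) →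
      ‖∫ x in c..d, f x‖ ≤ K) :
    ‖∫ x in a..b, f x‖ ≤ 6 * l * C + 4 * K := by
  have h1 := A1_split1 (f := f) (a := a) (b := b) (r := r1) (l := l) (C := C) (K := 2 * l * C + 2 * K)
    hab hl hC (by positivity) hf hb (by
      intro c d hac hcd hdb hx
      refine A1_split1 (r := r2) hcd hl hC hK (hf.mono (Set.Icc_subset_Icc hac hdb))
        (fun x hx => hb x ⟨hac.trans hx.1, hx.2.trans hdb⟩) ?_
      intro c' d' h1 h2 h3 h4
      refine h c' d' (hac.trans h1) h2 (h3.trans hdb) ?_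
      intro x hx'
      exact ⟨hx x ⟨h1.trans hx'.1, hx'.2.trans h3⟩, h4 x hx'⟩)
  linarith

theorem A1_arc_mem {J j : ℕ} (hJ : 1 ≤ J) (hj : j ≤ J) : -2 ≤ arc J j ∧ arc J j ≤ 2 := by
  have hJ0 : (0 : ℝ) < J := by exact_mod_cast hJ
  have hj' : (j : ℝ) ≤ J := by exact_mod_cast hj
  unfold arc
  have h1 : 0 ≤ 4 * (j : ℝ) / J := by positivity
  have h2 : 4 * (j : ℝ) / J ≤ 4 := by
    rw [div_le_iff₀ hJ0]; linarith
  constructor <;> linarith

theorem A1_arc_succ {J j : ℕ} (hJ : 1 ≤ J) : arc J (j + 1) = arc J j + 4 / J := by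
  have hJ0 : (0 : ℝ) < J := by exact_mod_cast hJ
  unfold arc
  push_cast
  field_simp
  ring

theorem A1_arc_le {J j : ℕ} (hJ : 1 ≤ J) : arc J j ≤ arc J (j + 1) := by
  have hJ0 : (0 : ℝ) < J := by exact_mod_cast hJ
  rw [A1_arc_succ hJ]
  have : 0 ≤ 4 / (J : ℝ) := by positivity
  linarith

theorem A1_sub {J j : ℕ} (hJ : 1 ≤ J) (r : ℝ) :
    |arc J j - r| = 4 / J * |(j : ℝ) - J * (2 + r) / 4| := by
  have hJ0 : (0 : ℝ) < J := by exact_mod_cast hJ
  have h1 : arc J j - r = 4 / J * ((j : ℝ) - J * (2 + r) / 4) := by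
    unfold arc
    field_simp
    ring
  rw [h1, abs_mul, abs_of_pos (by positivity)]

theorem A1_card (S : Finset ℕ) (t : ℝ) (h : ∀ j ∈ S, |(j : ℝ) - t| < 2) : S.card ≤ 4 := by
  have h1 : S.card ≤ (Finset.Icc (⌊t - 2⌋ + 1) (⌊t - 2⌋ + 4)).card := by
    refine Finset.card_le_card_of_injOn (fun j : ℕ => (j : ℤ)) ?_ ?_
    · intro j hj
      have h2 := abs_lt.mp (h j (by simpa using hj))
      have h3 := Int.floor_le (t - 2)
      have h4 := Int.lt_floor_add_one (t - 2)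
      simp only [Finset.coe_Icc, Set.mem_Icc]
      constructor
      · have : (⌊t - 2⌋ : ℝ) < ((j : ℤ) : ℝ) := by push_cast; linarith [h2.1]
        have : ⌊t - 2⌋ < (j : ℤ) := by exact_mod_cast this
        omega
      · have : ((j : ℤ) : ℝ) < (⌊t - 2⌋ : ℝ) + 5 := by push_cast; linarith [h2.2]
        have : (j : ℤ) < ⌊t - 2⌋ + 5 := by exact_mod_cast this
        omega
    · intro x _ y _ hxy
      simpa using hxy
  simpa using h1

theorem A1_sumnat (S : Finset ℕ) (h : ∀ k ∈ S, 1 ≤ k) : ∑ k ∈ S, ((k : ℝ) ^ 2)⁻¹ ≤ 2 := by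
  have h1 : S ⊆ Finset.Ioo 0 (S.sup id + 1) := by
    intro k hk
    have h2 := Finset.le_sup (f := id) hk
    have h3 := h k hk
    simp only [id] at h2
    simp only [Finset.mem_Ioo]
    omega
  have h2 : ∑ k ∈ S, ((k : ℝ) ^ 2)⁻¹ ≤ ∑ k ∈ Finset.Ioo 0 (S.sup id + 1), ((k : ℝ) ^ 2)⁻¹ :=
    Finset.sum_le_sum_of_subset_of_nonneg h1 (fun _ _ _ => by positivity)
  have h3 := sum_Ioo_inv_sq_le (α := ℝ) 0 (S.sup id + 1)
  simp only [Nat.cast_zero, zero_add, div_one] at h3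
  exact h2.trans h3

theorem A1_sumside (S : Finset ℕ) (t : ℝ) (k : ℕ → ℕ) (hk : ∀ j ∈ S, 1 ≤ k j)
    (hi : ∀ i ∈ S, ∀ j ∈ S, k i = k j → i = j) (hle : ∀ j ∈ S, (k j : ℝ) ≤ |(j : ℝ) - t|) :
    ∑ j ∈ S, (|(j : ℝ) - t| ^ 2)⁻¹ ≤ 2 := by
  have h1 : ∑ j ∈ S, (|(j : ℝ) - t| ^ 2)⁻¹ ≤ ∑ j ∈ S, ((k j : ℝ) ^ 2)⁻¹ := by
    refine Finset.sum_le_sum ?_
    intro j hj
    have h2 : (1 : ℝ) ≤ k j := by exact_mod_cast hk j hj
    have h3 := hle j hj
    refine inv_anti₀ (by positivity) ?_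
    exact pow_le_pow_left₀ (by linarith) h3 2
  have h2 : ∑ j ∈ S, ((k j : ℝ) ^ 2)⁻¹ = ∑ i ∈ S.image k, ((i : ℝ) ^ 2)⁻¹ := by
    rw [Finset.sum_image]
    intro i hi' j hj' hij
    exact hi i (by simpa using hi') j (by simpa using hj') hij
  have h3 : ∑ i ∈ S.image k, ((i : ℝ) ^ 2)⁻¹ ≤ 2 := by
    refine A1_sumnat _ ?_
    intro i hi'
    obtain ⟨j, hj, rfl⟩ := Finset.mem_image.mp hi'
    exact hk j hj
  linarith

theorem A1_sum (S : Finset ℕ) (t : ℝ) (h : ∀ j ∈ S, 2 ≤ |(j : ℝ) - t|) :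
    ∑ j ∈ S, (|(j : ℝ) - t| ^ 2)⁻¹ ≤ 4 := by
  classical
  have hfl := Int.floor_le t
  have hfl' := Int.lt_floor_add_one t
  have hsplit : ∑ j ∈ S, (|(j : ℝ) - t| ^ 2)⁻¹ =
      ∑ j ∈ S.filter (fun j : ℕ => t < (j : ℝ)), (|(j : ℝ) - t| ^ 2)⁻¹ +
      ∑ j ∈ S.filter (fun j : ℕ => ¬ t < (j : ℝ)), (|(j : ℝ) - t| ^ 2)⁻¹ :=
    (Finset.sum_filter_add_sum_filter_not S _ _).symm
  have h1 : ∑ j ∈ S.filter (fun j : ℕ => t < (j : ℝ)), (|(j : ℝ) - t| ^ 2)⁻¹ ≤ 2 := by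
    refine A1_sumside _ t (fun j => ((j : ℤ) - ⌊t⌋ - 1).toNat) ?_ ?_ ?_
    · intro j hj
      obtain ⟨hjS, hjt⟩ := Finset.mem_filter.mp hj
      have h2 := h j hjS
      rw [abs_of_pos (by linarith)] at h2
      have h3 : (⌊t⌋ : ℝ) + 2 ≤ ((j : ℤ) : ℝ) := by push_cast; linarith
      have h4 : ⌊t⌋ + 2 ≤ (j : ℤ) := by exact_mod_cast h3
      show 1 ≤ ((j : ℤ) - ⌊t⌋ - 1).toNat
      omega
    · intro i hi j hj hij
      obtain ⟨hjS, hjt⟩ := Finset.mem_filter.mp hj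
      obtain ⟨hiS, hit⟩ := Finset.mem_filter.mp hi
      have h2 := h j hjS
      rw [abs_of_pos (by linarith)] at h2
      have h3 : (⌊t⌋ : ℝ) + 2 ≤ ((j : ℤ) : ℝ) := by push_cast; linarith
      have h4 : ⌊t⌋ + 2 ≤ (j : ℤ) := by exact_mod_cast h3
      have h5 := h i hiS
      rw [abs_of_pos (by linarith)] at h5
      have h6 : (⌊t⌋ : ℝ) + 2 ≤ ((i : ℤ) : ℝ) := by push_cast; linarith
      have h7 : ⌊t⌋ + 2 ≤ (i : ℤ) := by exact_mod_cast h6
      have h8 : ((i : ℤ) - ⌊t⌋ - 1).toNat = ((j : ℤ) - ⌊t⌋ - 1).toNat := hij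
      omega
    · intro j hj
      obtain ⟨hjS, hjt⟩ := Finset.mem_filter.mp hj
      have h2 := h j hjS
      rw [abs_of_pos (by linarith)] at h2 ⊢
      have h3 : (⌊t⌋ : ℝ) + 2 ≤ ((j : ℤ) : ℝ) := by push_cast; linarith
      have h4 : ⌊t⌋ + 2 ≤ (j : ℤ) := by exact_mod_cast h3
      have h5 : (((((j : ℤ) - ⌊t⌋ - 1).toNat : ℕ) : ℤ) : ℝ) = ((j : ℤ) : ℝ) - ⌊t⌋ - 1 := by
        rw [Int.toNat_of_nonneg (by omega)]
        push_cast
        ring
      have h6 : (((((j : ℤ) - ⌊t⌋ - 1).toNat : ℕ)) : ℝ) = (j : ℝ) - ⌊t⌋ - 1 := by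
        have := h5
        push_cast at this ⊢
        linarith
      show (((((j : ℤ) - ⌊t⌋ - 1).toNat : ℕ)) : ℝ) ≤ (j : ℝ) - t
      rw [h6]
      linarith
  have h2 : ∑ j ∈ S.filter (fun j : ℕ => ¬ t < (j : ℝ)), (|(j : ℝ) - t| ^ 2)⁻¹ ≤ 2 := by
    refine A1_sumside _ t (fun j => (⌊t⌋ - (j : ℤ)).toNat) ?_ ?_ ?_
    · intro j hj
      obtain ⟨hjS, hjt⟩ := Finset.mem_filter.mp hj
      have h2 := h j hjS
      rw [abs_of_nonpos (by linarith [not_lt.mp hjt])] at h2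
      have h3 : ((j : ℤ) : ℝ) + 1 < (⌊t⌋ : ℝ) := by push_cast; linarith
      have h4 : (j : ℤ) + 1 < ⌊t⌋ := by exact_mod_cast h3
      show 1 ≤ (⌊t⌋ - (j : ℤ)).toNat
      omega
    · intro i hi j hj hij
      obtain ⟨hjS, hjt⟩ := Finset.mem_filter.mp hj
      obtain ⟨hiS, hit⟩ := Finset.mem_filter.mp hi
      have h2 := h j hjS
      rw [abs_of_nonpos (by linarith [not_lt.mp hjt])] at h2
      have h3 : ((j : ℤ) : ℝ) + 1 < (⌊t⌋ : ℝ) := by push_cast; linarith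
      have h4 : (j : ℤ) + 1 < ⌊t⌋ := by exact_mod_cast h3
      have h5 := h i hiS
      rw [abs_of_nonpos (by linarith [not_lt.mp hit])] at h5
      have h6 : ((i : ℤ) : ℝ) + 1 < (⌊t⌋ : ℝ) := by push_cast; linarith
      have h7 : (i : ℤ) + 1 < ⌊t⌋ := by exact_mod_cast h6
      have h8 : (⌊t⌋ - (i : ℤ)).toNat = (⌊t⌋ - (j : ℤ)).toNat := hij
      omega
    · intro j hj
      obtain ⟨hjS, hjt⟩ := Finset.mem_filter.mp hj
      have h2 := h j hjS
      rw [abs_of_nonpos (by linarith [not_lt.mp hjt])] at h2 ⊢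
      have h3 : ((j : ℤ) : ℝ) + 1 < (⌊t⌋ : ℝ) := by push_cast; linarith
      have h4 : (j : ℤ) + 1 < ⌊t⌋ := by exact_mod_cast h3
      have h5 : ((((⌊t⌋ - (j : ℤ)).toNat : ℕ) : ℤ) : ℝ) = (⌊t⌋ : ℝ) - ((j : ℤ) : ℝ) := by
        rw [Int.toNat_of_nonneg (by omega)]
        push_cast
        ring
      have h6 : ((((⌊t⌋ - (j : ℤ)).toNat : ℕ)) : ℝ) = (⌊t⌋ : ℝ) - j := by
        have := h5
        push_cast at this ⊢
        linarith
      show ((((⌊t⌋ - (j : ℤ)).toNat : ℕ)) : ℝ) ≤ -((j : ℝ) - t)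
      rw [h6]
      linarith
  linarith

theorem A1_sumarc {J : ℕ} (hJ : 1 ≤ J) (r : ℝ) (S : Finset ℕ) (h : ∀ j ∈ S, 8 / (J : ℝ) ≤ |arc J j - r|) :
    ∑ j ∈ S, (|arc J j - r| ^ 2)⁻¹ ≤ (J : ℝ) ^ 2 / 4 := by
  have hJ0 : (0 : ℝ) < J := by exact_mod_cast hJ
  have h1 : ∀ j ∈ S, (|arc J j - r| ^ 2)⁻¹ = (J : ℝ) ^ 2 / 16 * (|(j : ℝ) - J * (2 + r) / 4| ^ 2)⁻¹ := by
    intro j _
    rw [A1_sub hJ, mul_pow, mul_inv]
    congr 1
    field_simp
    norm_num
  rw [Finset.sum_congr rfl h1, ← Finset.mul_sum]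
  have h2 : ∑ j ∈ S, (|(j : ℝ) - J * (2 + r) / 4| ^ 2)⁻¹ ≤ 4 := by
    refine A1_sum S _ ?_
    intro j hj
    have h3 := h j hj
    rw [A1_sub hJ] at h3
    have h4 : 4 / (J : ℝ) * 2 ≤ 4 / J * |(j : ℝ) - J * (2 + r) / 4| := by
      have : 4 / (J : ℝ) * 2 = 8 / J := by ring
      linarith
    exact le_of_mul_le_mul_left h4 (by positivity)
  have h5 : (J : ℝ) ^ 2 / 16 * ∑ j ∈ S, (|(j : ℝ) - J * (2 + r) / 4| ^ 2)⁻¹ ≤ (J : ℝ) ^ 2 / 16 * 4 :=
    mul_le_mul_of_nonneg_left h2 (by positivity)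
  linarith

theorem A1_cardarc {J : ℕ} (hJ : 1 ≤ J) (r : ℝ) (S : Finset ℕ) (h : ∀ j ∈ S, |arc J j - r| < 8 / (J : ℝ)) :
    S.card ≤ 4 := by
  have hJ0 : (0 : ℝ) < J := by exact_mod_cast hJ
  refine A1_card S (J * (2 + r) / 4) ?_
  intro j hj
  have h3 := h j hj
  rw [A1_sub hJ] at h3
  have h4 : 4 / (J : ℝ) * |(j : ℝ) - J * (2 + r) / 4| < 4 / J * 2 := by
    have : 4 / (J : ℝ) * 2 = 8 / J := by ring
    linarith
  exact lt_of_mul_lt_mul_left h4 (by positivity)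

theorem A1_mu {d1 d2 : ℝ} (h1 : 0 < d1) (h2 : 0 < d2) :
    ((min 1 (min d1 d2 / 2)) ^ 2)⁻¹ ≤ 1 + 4 * (d1 ^ 2)⁻¹ + 4 * (d2 ^ 2)⁻¹ := by
  have p1 : 0 ≤ (d1 ^ 2)⁻¹ := by positivity
  have p2 : 0 ≤ (d2 ^ 2)⁻¹ := by positivity
  rcases le_total 1 (min d1 d2 / 2) with h | h
  · rw [min_eq_left h]
    norm_num
    linarith
  · rw [min_eq_right h]
    rcases le_total d1 d2 with h3 | h3
    · rw [min_eq_left h3]
      have : ((d1 / 2) ^ 2)⁻¹ = 4 * (d1 ^ 2)⁻¹ := by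
        field_simp
        norm_num
      rw [this]; linarith
    · rw [min_eq_right h3]
      have : ((d2 / 2) ^ 2)⁻¹ = 4 * (d2 ^ 2)⁻¹ := by
        field_simp
        norm_num
      rw [this]; linarith

theorem A1_levels {C N : ℝ} {z : T3} {f : ℝ → ℂ} {J : ℕ} (hN : 1 ≤ N) (hJ : 1 ≤ J) (hz : z ≠ 0)
    (hF : FD C N z f) (hC : 0 ≤ C) (w : ℝ) (hw : 0 < w) (hlev : Lev N z w) (j : ℕ) (hj : j < J) :
    ‖∫ x in (arc J j)..(arc J (j + 1)), f x‖ ≤ 4000 * (C + 1) * w := by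
  have hN0 : 0 < N := by linarith
  have hz0 : 0 < ‖z‖ := norm_pos_iff.mpr hz
  obtain ⟨r1, r2, hr1, hr2, _⟩ := roots z
  have m1 := A1_arc_mem hJ hj.le
  have m2 := A1_arc_mem (j := j + 1) hJ hj
  have hle := A1_arc_le (j := j) hJ
  have hcont : ContinuousOn f (Set.Icc (arc J j) (arc J (j + 1))) :=
    hF.cont.mono (Set.Icc_subset_Icc m1.1 m2.2)
  have hbd : ∀ x ∈ Set.Icc (arc J j) (arc J (j + 1)), ‖f x‖ ≤ C :=
    fun x hx => hF.bd x ⟨m1.1.trans hx.1, hx.2.trans m2.2⟩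
  have hCw : 0 ≤ C * w := by positivity
  rcases hlev with h | h
  · rcases le_or_gt 1 w with hw1 | hw1
    · have h1 : ‖∫ x in (arc J j)..(arc J (j + 1)), f x‖ ≤ C * |arc J (j + 1) - arc J j| := by
        apply intervalIntegral.norm_integral_le_of_norm_le_const
        intro x hx
        rw [Set.uIoc_of_le hle] at hx
        exact hbd x ⟨hx.1.le, hx.2⟩
      have h2 : |arc J (j + 1) - arc J j| ≤ 4 := by
        rw [abs_of_nonneg (by linarith)]; linarith [m1.1, m2.2]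
      have h3 : C * |arc J (j + 1) - arc J j| ≤ C * 4 := mul_le_mul_of_nonneg_left h2 hC
      have h4 : C * 1 ≤ C * w := mul_le_mul_of_nonneg_left hw1 hC
      linarith
    · have h2 := A1_split2 (f := f) (a := arc J j) (b := arc J (j + 1)) (r1 := r1) (r2 := r2) (l := w)
        (C := C) (K := 256 * C * w) hle hw.le hC (by positivity) hcont hbd (by
          intro c d hac hcd hdb hx
          have h3 := hF.osc c d (‖z‖ * w ^ 2 / 256) (m1.1.trans hac) hcd (hdb.trans m2.2)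
            (by positivity) (by
              intro x hx'
              have h4 := hr2 x ⟨(m1.1.trans hac).trans hx'.1, hx'.2.trans (hdb.trans m2.2)⟩
              have h5 := hx x hx'
              have h6 : w ≤ min 1 (min |x - r1| |x - r2|) := le_min hw1.le (le_min h5.1 h5.2)
              have h7 : w ^ 2 ≤ (min 1 (min |x - r1| |x - r2|)) ^ 2 := pow_le_pow_left₀ hw.le h6 2
              calc ‖z‖ * w ^ 2 / 256 = ‖z‖ / 256 * w ^ 2 := by ring
                _ ≤ ‖z‖ / 256 * (min 1 (min |x - r1| |x - r2|)) ^ 2 :=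
                    mul_le_mul_of_nonneg_left h7 (by positivity)
                _ ≤ _ := h4)
          refine h3.trans ?_
          rw [div_le_iff₀ (by positivity)]
          have e1 : 256 * C * w * (N * (‖z‖ * w ^ 2 / 256)) = C * (w ^ 3 * (N * ‖z‖)) := by ring
          rw [e1]
          have := mul_le_mul_of_nonneg_left h hC
          linarith)
      have : 6 * w * C + 4 * (256 * C * w) = 1030 * (C * w) := by ring
      linarith
  · have hsq : Real.sqrt |qD z| ^ 2 = |qD z| := Real.sq_sqrt (abs_nonneg _)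
    obtain ⟨s, hs⟩ : ∃ s, s = Real.sqrt |qD z| := ⟨_, rfl⟩
    have hs0 : 0 ≤ s := by rw [hs]; exact Real.sqrt_nonneg _
    rw [← hs] at hsq
    have ht : 1 ≤ w ^ 2 * (N * s) := by
      by_contra hcon
      push Not at hcon
      have h0 : 0 ≤ w ^ 2 * (N * s) := by positivity
      have h1 : (w ^ 2 * (N * s)) ^ 2 = w ^ 4 * (N ^ 2 * |qD z|) := by
        rw [← hsq]; ring
      nlinarith
    have hspos : 0 < s := by
      rcases eq_or_lt_of_le hs0 with h1 | h1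
      · rw [← h1] at ht; norm_num at ht
      · exact h1
    have h2 := A1_split2 (f := f) (a := arc J j) (b := arc J (j + 1)) (r1 := r1) (r2 := r2) (l := w)
      (C := C) (K := C * w) hle hw.le hC (by positivity) hcont hbd (by
        intro c d hac hcd hdb hx
        have h3 := hF.osc c d (s * w) (m1.1.trans hac) hcd (hdb.trans m2.2)
          (by positivity) (by
            intro x hx'
            have h4 := hr1 x
            have h5 := hx x hx'
            rw [← hs] at h4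
            have h6 : w ≤ min |x - r1| |x - r2| := le_min h5.1 h5.2
            exact (mul_le_mul_of_nonneg_left h6 hs0).trans h4)
        refine h3.trans ?_
        rw [div_le_iff₀ (by positivity)]
        have e1 : C * w * (N * (s * w)) = C * (w ^ 2 * (N * s)) := by ring
        rw [e1]
        have := mul_le_mul_of_nonneg_left ht hC
        linarith)
    have : 6 * w * C + 4 * (C * w) = 10 * (C * w) := by ring
    linarith

theorem A1_far {C N : ℝ} {z : T3} {f : ℝ → ℂ} {J : ℕ} (hN : 1 ≤ N) (hJ : 1 ≤ J) (hz : z ≠ 0)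
    (hF : FD C N z f) (hC : 0 ≤ C) {r1 r2 : ℝ}
    (hr2 : ∀ x ∈ Set.Icc (-2 : ℝ) 2, ‖z‖ / 256 * (min 1 (min |x - r1| |x - r2|)) ^ 2 ≤ |qv z x|)
    (j : ℕ) (hj : j < J) (h1 : 8 / (J : ℝ) ≤ |arc J j - r1|) (h2 : 8 / (J : ℝ) ≤ |arc J j - r2|) :
    ‖∫ x in (arc J j)..(arc J (j + 1)), f x‖ ≤
      256 * C / (N * ‖z‖) * (1 + 4 * (|arc J j - r1| ^ 2)⁻¹ + 4 * (|arc J j - r2| ^ 2)⁻¹) := by
  have hN0 : 0 < N := by linarith
  have hJ0 : (0 : ℝ) < J := by exact_mod_cast hJ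
  have hz0 : 0 < ‖z‖ := norm_pos_iff.mpr hz
  have m1 := A1_arc_mem hJ hj.le
  have m2 := A1_arc_mem (j := j + 1) hJ hj
  have hle := A1_arc_le (j := j) hJ
  have hsucc := A1_arc_succ (j := j) hJ
  have h8 : 0 < 8 / (J : ℝ) := by positivity
  have h48 : 4 / (J : ℝ) = 8 / J / 2 := by ring
  obtain ⟨d1, hd1⟩ : ∃ d, d = |arc J j - r1| := ⟨_, rfl⟩
  obtain ⟨d2, hd2⟩ : ∃ d, d = |arc J j - r2| := ⟨_, rfl⟩
  rw [← hd1] at h1 ⊢
  rw [← hd2] at h2 ⊢
  have hd1p : 0 < d1 := by linarith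
  have hd2p : 0 < d2 := by linarith
  have hmp : 0 < min 1 (min d1 d2 / 2) := by
    refine lt_min one_pos ?_
    have := lt_min hd1p hd2p
    linarith
  have key := hF.osc (arc J j) (arc J (j + 1)) (‖z‖ / 256 * (min 1 (min d1 d2 / 2)) ^ 2) m1.1 hle m2.2
    (by positivity) (by
      intro x hx
      refine le_trans ?_ (hr2 x ⟨m1.1.trans hx.1, hx.2.trans m2.2⟩)
      refine mul_le_mul_of_nonneg_left ?_ (by positivity)
      refine pow_le_pow_left₀ hmp.le ?_ 2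
      refine min_le_min le_rfl ?_
      have hx1 := hx.1
      have hx2 := hx.2
      have hxa : |x - arc J j| ≤ 8 / J / 2 := by
        rw [abs_of_nonneg (by linarith)]; linarith
      refine le_min ?_ ?_
      · have t1 : d1 ≤ |x - arc J j| + |x - r1| := by
          have := abs_sub_le (arc J j) x r1
          rw [abs_sub_comm (arc J j) x] at this
          rw [hd1]; exact this
        have t2 := min_le_left d1 d2
        linarith
      · have t1 : d2 ≤ |x - arc J j| + |x - r2| := by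
          have := abs_sub_le (arc J j) x r2
          rw [abs_sub_comm (arc J j) x] at this
          rw [hd2]; exact this
        have t2 := min_le_right d1 d2
        linarith)
  have e1 : C / (N * (‖z‖ / 256 * (min 1 (min d1 d2 / 2)) ^ 2)) =
      256 * C / (N * ‖z‖) * ((min 1 (min d1 d2 / 2)) ^ 2)⁻¹ := by
    field_simp
  rw [e1] at key
  exact key.trans (mul_le_mul_of_nonneg_left (A1_mu hd1p hd2p) (by positivity))

theorem arcs_lemma (C : ℝ) : ∃ C' : ℝ, 1 ≤ C' ∧ ∀ (N : ℝ) (z : T3) (f : ℝ → ℂ) (J : ℕ), 1 ≤ N → 1 ≤ J → z ≠ 0 → FD C N z f →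
    ∃ NJ : Finset ℕ, NJ.card ≤ 8 ∧
      (∀ w : ℝ, 0 < w → Lev N z w → ∀ j < J, ‖∫ x in (arc J j)..(arc J (j + 1)), f x‖ ≤ C' * w) ∧
      (∑ j ∈ range J \ NJ, ‖∫ x in (arc J j)..(arc J (j + 1)), f x‖ ≤ C' * (J : ℝ) ^ 2 / (N * ‖z‖)) ∧
      (|z 0| < ‖z‖ / 256 → |qD z| ≤ ‖z‖ ^ 2 / 256 → NJ = ∅) ∧
      (∀ ε : ℝ, 0 ≤ ε → ‖z‖ / 256 ≤ |z 0| → |qD z| ≤ ε ^ 2 * ‖z‖ ^ 2 → ∀ j ∈ NJ, |arc J j - qc z| ≤ C' * (1 / J + ε)) := by
  classical
  refine ⟨4000 * (|C| + 1), by have := abs_nonneg C; linarith, ?_⟩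
  intro N z f J hN hJ hz hF
  have hC : 0 ≤ C := (norm_nonneg _).trans (hF.bd 0 ⟨by norm_num, by norm_num⟩)
  rw [abs_of_nonneg hC]
  have hN0 : 0 < N := by linarith
  have hJ0 : (0 : ℝ) < J := by exact_mod_cast hJ
  have hJ1 : (1 : ℝ) ≤ J := by exact_mod_cast hJ
  have hz0 : 0 < ‖z‖ := norm_pos_iff.mpr hz
  have hA := fun w hw hlev j hj => A1_levels (C := C) (N := N) (z := z) (f := f) (J := J) hN hJ hz hF hC w hw hlev j hj
  by_cases hcase : |z 0| < ‖z‖ / 256 ∧ |qD z| ≤ ‖z‖ ^ 2 / 256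
  · refine ⟨∅, by simp, hA, ?_, fun _ _ => rfl, fun ε _ _ _ j hj => absurd hj (Finset.notMem_empty j)⟩
    rw [Finset.sdiff_empty]
    have h1 : ∀ j ∈ range J, ‖∫ x in (arc J j)..(arc J (j + 1)), f x‖ ≤ 2 * C / (N * ‖z‖) := by
      intro j hj
      have hj' := Finset.mem_range.mp hj
      have m1 := A1_arc_mem hJ hj'.le
      have m2 := A1_arc_mem (j := j + 1) hJ hj'
      have h2 := hF.osc (arc J j) (arc J (j + 1)) (‖z‖ / 2) m1.1 (A1_arc_le hJ) m2.2 (by positivity)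
        (fun x hx => off hcase.1 hcase.2 ⟨m1.1.trans hx.1, hx.2.trans m2.2⟩)
      have e1 : C / (N * (‖z‖ / 2)) = 2 * C / (N * ‖z‖) := by field_simp
      rw [e1] at h2
      exact h2
    have h2 := Finset.sum_le_card_nsmul _ _ _ h1
    rw [Finset.card_range, nsmul_eq_mul] at h2
    refine h2.trans ?_
    rw [← mul_div_assoc]
    refine div_le_div_of_nonneg_right ?_ (by positivity)
    have h3 : C * (J : ℝ) ≤ C * (J : ℝ) ^ 2 := by
      refine mul_le_mul_of_nonneg_left ?_ hC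
      nlinarith
    have h4 : 0 ≤ C * (J : ℝ) ^ 2 := by positivity
    have h5 : 0 ≤ (J : ℝ) ^ 2 := by positivity
    nlinarith
  · obtain ⟨r1, r2, _, hr2, hr3⟩ := roots z
    refine ⟨(range J).filter (fun j => |arc J j - r1| < 8 / (J : ℝ) ∨ |arc J j - r2| < 8 / (J : ℝ)), ?_, hA, ?_, ?_, ?_⟩
    · rw [Finset.filter_or]
      refine (Finset.card_union_le _ _).trans ?_
      have c1 := A1_cardarc hJ r1 ((range J).filter (fun j => |arc J j - r1| < 8 / (J : ℝ)))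
        (fun j hj => (Finset.mem_filter.mp hj).2)
      have c2 := A1_cardarc hJ r2 ((range J).filter (fun j => |arc J j - r2| < 8 / (J : ℝ)))
        (fun j hj => (Finset.mem_filter.mp hj).2)
      omega
    · obtain ⟨S, hS⟩ : ∃ S, S = range J \ (range J).filter (fun j => |arc J j - r1| < 8 / (J : ℝ) ∨ |arc J j - r2| < 8 / (J : ℝ)) := ⟨_, rfl⟩
      rw [← hS]
      have hmem : ∀ j ∈ S, j < J ∧ 8 / (J : ℝ) ≤ |arc J j - r1| ∧ 8 / (J : ℝ) ≤ |arc J j - r2| := by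
        intro j hj
        rw [hS, Finset.mem_sdiff, Finset.mem_filter] at hj
        obtain ⟨a1, a2⟩ := hj
        have a3 : ¬ (|arc J j - r1| < 8 / (J : ℝ) ∨ |arc J j - r2| < 8 / (J : ℝ)) := fun h => a2 ⟨a1, h⟩
        push Not at a3
        exact ⟨Finset.mem_range.mp a1, a3.1, a3.2⟩
      have h1 : ∀ j ∈ S, ‖∫ x in (arc J j)..(arc J (j + 1)), f x‖ ≤
          256 * C / (N * ‖z‖) * (1 + 4 * (|arc J j - r1| ^ 2)⁻¹ + 4 * (|arc J j - r2| ^ 2)⁻¹) := by
        intro j hj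
        obtain ⟨a1, a2, a3⟩ := hmem j hj
        exact A1_far hN hJ hz hF hC hr2 j a1 a2 a3
      refine (Finset.sum_le_sum h1).trans ?_
      rw [← Finset.mul_sum, Finset.sum_add_distrib, Finset.sum_add_distrib, ← Finset.mul_sum, ← Finset.mul_sum]
      have s1 := A1_sumarc hJ r1 S (fun j hj => (hmem j hj).2.1)
      have s2 := A1_sumarc hJ r2 S (fun j hj => (hmem j hj).2.2)
      have s0 : ∑ _j ∈ S, (1 : ℝ) ≤ J := by
        rw [Finset.sum_const, nsmul_eq_mul, mul_one]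
        have : S.card ≤ J := by
          have h2 : S ⊆ range J := by rw [hS]; exact Finset.sdiff_subset
          have := Finset.card_le_card h2
          rwa [Finset.card_range] at this
        exact_mod_cast this
      have hJ2 : (J : ℝ) ≤ (J : ℝ) ^ 2 := by nlinarith
      have h3 : ∑ _j ∈ S, (1 : ℝ) + 4 * ∑ j ∈ S, (|arc J j - r1| ^ 2)⁻¹ + 4 * ∑ j ∈ S, (|arc J j - r2| ^ 2)⁻¹ ≤ 3 * (J : ℝ) ^ 2 := by
        linarith
      have h4 := mul_le_mul_of_nonneg_left h3 (show 0 ≤ 256 * C / (N * ‖z‖) by positivity)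
      refine h4.trans ?_
      rw [div_mul_eq_mul_div]
      refine div_le_div_of_nonneg_right ?_ (by positivity)
      have h5 : 0 ≤ (J : ℝ) ^ 2 := by positivity
      have h6 : 0 ≤ C * (J : ℝ) ^ 2 := by positivity
      nlinarith
    · intro h1 h2
      exact absurd ⟨h1, h2⟩ hcase
    · intro ε hε h0 hD j hj
      obtain ⟨a1, a2⟩ := (Finset.mem_filter.mp hj).2 |> fun h => (⟨h, trivial⟩ : _ ∧ True)
      obtain ⟨b1, b2⟩ := hr3 ε hε hz h0 hD
      have hinv : 8 / (J : ℝ) = 8 * (1 / J) := by ring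
      have hi0 : 0 ≤ 1 / (J : ℝ) := by positivity
      have hgoal : ∀ r : ℝ, |arc J j - r| < 8 / (J : ℝ) → |r - qc z| ≤ 256 * ε →
          |arc J j - qc z| ≤ 4000 * (C + 1) * (1 / J + ε) := by
        intro r h1 h2
        have h3 := abs_sub_le (arc J j) r (qc z)
        have h4 : 0 ≤ C * (1 / (J : ℝ) + ε) := by positivity
        nlinarith
      rcases a1 with h | h
      · exact hgoal r1 h b1
      · exact hgoal r2 h b2

end MPku
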