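import Pool.Agent.Lib.MP_7b255b_ntU.Mu

/-!
# Cb: one dyadic class of pairs

`Y^4 = N`, `y n` (`n ∈ B`) points of norm `≤ Cy` with `|n - m| ≤ C1 N ‖y n - y m‖`; the class of `(t, w)`: the pairs `n ≠ m` with `t ≤ ‖z‖ < 2 t`, `z = y n - y m`, and not `Lev N z (w / 2)`, that is `w^3 N ‖z‖ < 8` and
`w^4 N^2 |qD z| < 16`. `a = N t`; `a w ≤ C3 (Y M)^2`: all pairs of the class, at most `8 c1 a |B|`. `a w > C3 (Y M)^2`: `multi` with `ε = 16 / (w^4 a^2)`, `ρf = 1 / (Y^2 w)`.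
-/

set_option autoImplicit false

namespace MPku

open Finset
open scoped Classical

private theorem Cb_card (S : Finset ℕ) (u r : ℝ) (hr : 0 ≤ r)
    (h : ∀ j ∈ S, u ≤ (j : ℝ) ∧ (j : ℝ) ≤ u + r) : (S.card : ℝ) ≤ r + 1 := by
  rcases S.eq_empty_or_nonempty with h0 | h0
  · rw [h0, card_empty, Nat.cast_zero]
    linarith
  · have h1 : S ⊆ Icc (S.min' h0) (S.max' h0) := fun j hj =>
      mem_Icc.2 ⟨S.min'_le j hj, S.le_max' j hj⟩
    have h2 := card_le_card h1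
    rw [Nat.card_Icc] at h2
    have h3 : S.min' h0 ≤ S.max' h0 := S.min'_le _ (S.max'_mem h0)
    have h4 := (h _ (S.min'_mem h0)).1
    have h5 := (h _ (S.max'_mem h0)).2
    have h6 : S.card + S.min' h0 ≤ S.max' h0 + 1 := by omega
    have h7 := (Nat.cast_le (α := ℝ)).2 h6
    push_cast at h7
    linarith

private theorem Cb_flat (c1 N t : ℝ) (hc1 : 1 ≤ c1) (hN : 0 < N) (ht : 0 < t) (B : Finset ℕ) (y : ℕ → T3)
    (hB : ∀ n ∈ B, ∀ m ∈ B, |(n : ℝ) - m| ≤ c1 * (N * ‖y n - y m‖)) :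
    (((B ×ˢ B).filter fun q => q.1 ≠ q.2 ∧ ‖y q.1 - y q.2‖ < 2 * t).card : ℝ) ≤
      B.card * (8 * c1 * (N * t)) := by
  have hNt : 0 < N * t := mul_pos hN ht
  have hc0 : 0 < c1 := by linarith
  have hcN : 0 < c1 * (N * t) := mul_pos hc0 hNt
  rw [card_filter, sum_product]
  push_cast
  rw [← nsmul_eq_mul]
  refine sum_le_card_nsmul _ _ _ fun n hn => ?_
  have h1 : (∑ m ∈ B, (if n ≠ m ∧ ‖y n - y m‖ < 2 * t then (1 : ℝ) else 0)) =
      ((B.filter fun m => n ≠ m ∧ ‖y n - y m‖ < 2 * t).card : ℝ) := by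
    rw [card_filter]
    push_cast
    rfl
  rw [h1]
  rcases (B.filter fun m => n ≠ m ∧ ‖y n - y m‖ < 2 * t).eq_empty_or_nonempty with h0 | ⟨m₀, hm₀⟩
  · rw [h0, card_empty, Nat.cast_zero]
    linarith
  · have key : ∀ m ∈ B.filter (fun m => n ≠ m ∧ ‖y n - y m‖ < 2 * t),
        |(n : ℝ) - m| ≤ 2 * (c1 * (N * t)) := by
      intro m hm
      rw [mem_filter] at hm
      have h2 := hB n hn m hm.1
      have h3 : c1 * (N * ‖y n - y m‖) ≤ c1 * (N * (2 * t)) :=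
        mul_le_mul_of_nonneg_left (mul_le_mul_of_nonneg_left hm.2.2.le hN.le) hc0.le
      calc |(n : ℝ) - m| ≤ c1 * (N * ‖y n - y m‖) := h2
        _ ≤ c1 * (N * (2 * t)) := h3
        _ = 2 * (c1 * (N * t)) := by ring
    have h4 : (1 : ℝ) ≤ 2 * (c1 * (N * t)) := by
      refine le_trans ?_ (key m₀ hm₀)
      rw [mem_filter] at hm₀
      have h5 : ((n : ℤ) - (m₀ : ℤ)) ≠ 0 := by
        have := hm₀.2.1
        omega
      have h6 := Int.one_le_abs h5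
      have h7 : ((1 : ℤ) : ℝ) ≤ ((|(n : ℤ) - (m₀ : ℤ)| : ℤ) : ℝ) := Int.cast_le.2 h6
      push_cast at h7
      exact h7
    have h8 := Cb_card (B.filter fun m => n ≠ m ∧ ‖y n - y m‖ < 2 * t) ((n : ℝ) - 2 * (c1 * (N * t)))
      (4 * (c1 * (N * t))) (by linarith) fun j hj => by
        have h9 := abs_le.1 (key j hj)
        constructor <;> linarith [h9.1, h9.2]
    linarith

private theorem Cb_Rel_neg {t ε : ℝ} {z : T3} (h : Rel t ε z) : Rel t ε (-z) := by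
  have h1 : qD (-z) = qD z := by
    unfold qD
    simp only [Pi.neg_apply]
    ring
  unfold Rel at h ⊢
  rw [norm_neg, h1, Pi.neg_apply, abs_neg]
  exact h

/-- The numbers. -/
private theorem Cb_num (Y w a A cy : ℝ) (hY : 1 ≤ Y) (hw : 0 < w) (ha : 0 < a) (hA : 1 ≤ A) (hcy : 1 ≤ cy)
    (h3 : w ^ 3 * a < 8) (haw : (32 * A + 32 * cy) * Y ^ 2 < a * w) (hau : a ≤ 2 * cy * Y ^ 4) :
    Y * w ≤ 1 ∧ A * (16 / (w ^ 4 * a ^ 2)) ≤ (1 / (Y ^ 2 * w)) ^ 2 ∧ 1 / (Y ^ 2 * w) ≤ 1 / 16 := by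
  have hY0 : 0 < Y := by linarith
  have hY2 : 0 < Y ^ 2 := by positivity
  have haw0 : 0 < a * w := mul_pos ha hw
  refine ⟨?_, ?_, ?_⟩
  · have e1 : w ^ 2 * (a * w) < 8 := by
      have : w ^ 2 * (a * w) = w ^ 3 * a := by ring
      rw [this]
      exact h3
    have e2 : w ^ 2 * ((32 * A + 32 * cy) * Y ^ 2) ≤ w ^ 2 * (a * w) :=
      mul_le_mul_of_nonneg_left haw.le (by positivity)
    have e3 : w ^ 2 * (8 * Y ^ 2) ≤ w ^ 2 * ((32 * A + 32 * cy) * Y ^ 2) :=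
      mul_le_mul_of_nonneg_left (mul_le_mul_of_nonneg_right (by linarith) (by positivity)) (by positivity)
    have e4 : w ^ 2 * (8 * Y ^ 2) = 8 * (Y * w) ^ 2 := by ring
    rw [e4] at e3
    have e5 : (Y * w) ^ 2 ≤ 1 ^ 2 := by linarith
    exact le_of_pow_le_pow_left₀ two_ne_zero zero_le_one e5
  · have e1 : 16 * A * Y ^ 4 ≤ (a * w) ^ 2 := by
      have e2 : (32 * A * Y ^ 2) ^ 2 ≤ (a * w) ^ 2 := by
        refine pow_le_pow_left₀ (by positivity) (le_trans ?_ haw.le) 2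
        refine mul_le_mul_of_nonneg_right ?_ (by positivity)
        linarith
      have e3 : 16 * A * Y ^ 4 ≤ (32 * A * Y ^ 2) ^ 2 := by
        have e4 : (32 * A * Y ^ 2) ^ 2 = 1024 * A * A * Y ^ 4 := by ring
        rw [e4]
        refine mul_le_mul_of_nonneg_right ?_ (by positivity)
        refine le_trans ?_ (le_mul_of_one_le_right (by positivity) hA)
        linarith
      exact e3.trans e2
    have e6 : A * (16 / (w ^ 4 * a ^ 2)) = 16 * A / (w ^ 4 * a ^ 2) := by ring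
    have e7 : (1 / (Y ^ 2 * w)) ^ 2 = 1 / (Y ^ 4 * w ^ 2) := by
      rw [div_pow, one_pow, mul_pow, ← pow_mul]
    rw [e6, e7, div_le_div_iff₀ (by positivity) (by positivity), one_mul]
    have e8 : 16 * A * (Y ^ 4 * w ^ 2) = 16 * A * Y ^ 4 * w ^ 2 := by ring
    have e9 : w ^ 4 * a ^ 2 = (a * w) ^ 2 * w ^ 2 := by ring
    rw [e8, e9]
    exact mul_le_mul_of_nonneg_right e1 (by positivity)
  · have e1 : 16 ≤ Y ^ 2 * w := by
      have e2 : a * w ≤ 2 * cy * Y ^ 4 * w := mul_le_mul_of_nonneg_right hau hw.le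
      have e3 : 32 * cy * Y ^ 2 ≤ (32 * A + 32 * cy) * Y ^ 2 :=
        mul_le_mul_of_nonneg_right (by linarith) (by positivity)
      have e4 : 2 * cy * Y ^ 4 * w = 2 * cy * Y ^ 2 * (Y ^ 2 * w) := by ring
      have e5 : 2 * cy * Y ^ 2 * 16 ≤ 2 * cy * Y ^ 2 * (Y ^ 2 * w) := by
        rw [← e4]
        linarith
      exact le_of_mul_le_mul_left e5 (by positivity)
    exact one_div_le_one_div_of_le (by norm_num) e1

theorem class_cov (C1 Cy C' : ℝ) (K : ℕ) : ∃ C : ℝ, 1 ≤ C ∧ ∀ (Y M : ℝ) (N : ℕ) (B : Finset ℕ) (y : ℕ → T3) (J : ℕ)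
    (NJ : ℕ → ℕ → Finset ℕ) (wt : ℕ → ℕ → ℝ),
    1 ≤ Y → 1 ≤ M → Y ^ 4 = N → 256 * Y ≤ M ^ K → (∀ n ∈ B, N ≤ n ∧ n < 2 * N) → (∀ n ∈ B, ‖y n‖ ≤ Cy) →
    (∀ n ∈ B, ∀ m ∈ B, |(n : ℝ) - m| ≤ C1 * ((N : ℝ) * ‖y n - y m‖)) → Y ≤ J →
    (∀ n ∈ B, ∀ m ∈ B, n ≠ m → NJ n m ⊆ range J) →
    (∀ n ∈ B, ∀ m ∈ B, n ≠ m → |(y n - y m) 0| < ‖y n - y m‖ / 256 → |qD (y n - y m)| ≤ ‖y n - y m‖ ^ 2 / 256 → NJ n m = ∅) →
    (∀ n ∈ B, ∀ m ∈ B, n ≠ m → ∀ ε : ℝ, 0 ≤ ε → ‖y n - y m‖ / 256 ≤ |(y n - y m) 0| → |qD (y n - y m)| ≤ ε ^ 2 * ‖y n - y m‖ ^ 2 →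
      ∀ j ∈ NJ n m, |arc J j - qc (y n - y m)| ≤ C' * (1 / J + ε)) →
    (∀ n m, 0 ≤ wt n m) → (∀ n m, wt n m = wt m n) →
    ∀ (t w : ℝ), 0 < t → 0 < w →
    Cov J NJ wt (fun n m => n ∈ B ∧ m ∈ B ∧ n ≠ m ∧ t ≤ ‖y n - y m‖ ∧ ‖y n - y m‖ < 2 * t ∧ ¬Lev N (y n - y m) (w / 2) ∧
      (NJ n m).Nonempty ∧ wt n m ≤ w) (C * B.card * (Y * M) ^ 2) (C * B.card / Y) := by
  obtain ⟨c1, hc1⟩ : ∃ c1 : ℝ, c1 = max C1 1 := ⟨_, rfl⟩
  obtain ⟨cy, hcy⟩ : ∃ cy : ℝ, cy = max Cy 1 := ⟨_, rfl⟩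
  obtain ⟨c', hc'⟩ : ∃ c' : ℝ, c' = max C' 0 := ⟨_, rfl⟩
  have hc11 : 1 ≤ c1 := by
    rw [hc1]
    exact le_max_right _ _
  have hc12 : C1 ≤ c1 := by
    rw [hc1]
    exact le_max_left _ _
  have hcy1 : 1 ≤ cy := by
    rw [hcy]
    exact le_max_right _ _
  have hcy2 : Cy ≤ cy := by
    rw [hcy]
    exact le_max_left _ _
  have hc'1 : 0 ≤ c' := by
    rw [hc']
    exact le_max_right _ _
  have hc'2 : C' ≤ c' := by
    rw [hc']
    exact le_max_left _ _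
  obtain ⟨A, hA, hquad⟩ := quad_count3 c1
  obtain ⟨C3, hC3⟩ : ∃ C3 : ℝ, C3 = 32 * A + 32 * cy := ⟨_, rfl⟩
  have hC31 : 64 ≤ C3 := by
    rw [hC3]
    linarith
  obtain ⟨g, hg⟩ : ∃ g : ℝ, g = 40 ^ K * (26 + 12 * Real.sqrt (c' + 2)) := ⟨_, rfl⟩
  have hg0 : 0 ≤ g := by
    rw [hg]
    positivity
  have hcC : 1 ≤ c1 * C3 := one_le_mul_of_one_le_of_one_le hc11 (by linarith)
  refine ⟨8 * (c1 * C3) + g, by linarith, ?_⟩
  intro Y M N B y J NJ wt hY hM hYN hMK hBN hyC hsep hYJ hNJ hoff hnear hwt hwts t w ht hw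
  have hY0 : 0 < Y := by linarith
  have hM0 : 0 < M := by linarith
  have hNr : (1 : ℝ) ≤ N := by
    rw [← hYN]
    exact one_le_pow₀ hY
  have hN0 : (0 : ℝ) < N := by linarith
  obtain ⟨a, ha⟩ : ∃ a : ℝ, a = N * t := ⟨_, rfl⟩
  have ha0 : 0 < a := by
    rw [ha]
    exact mul_pos hN0 ht
  have hsep' : ∀ n ∈ B, ∀ m ∈ B, |(n : ℝ) - m| ≤ c1 * ((N : ℝ) * ‖y n - y m‖) := by
    intro n hn m hm
    refine (hsep n hn m hm).trans (mul_le_mul_of_nonneg_right hc12 ?_)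
    exact mul_nonneg hN0.le (norm_nonneg _)
  have hBc : (0 : ℝ) ≤ B.card := Nat.cast_nonneg _
  obtain ⟨G, hG⟩ : ∃ G : ℝ, G = 8 * (c1 * C3) + g := ⟨_, rfl⟩
  have hG0 : 0 ≤ G := by
    rw [hG]
    linarith
  rw [← hG]
  by_cases hau : a ≤ 2 * cy * Y ^ 4
  swap
  · refine (Cov.flat ∅ ?_ (le_of_eq sum_empty)).mono (fun _ _ h => h) (by positivity) (by positivity)
    rintro n m ⟨hn, hm, _, h1, _⟩
    refine absurd ?_ hau
    have h4 : ‖y n - y m‖ ≤ 2 * cy := by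
      have h5 := norm_sub_le (y n) (y m)
      have h6 := hyC n hn
      have h7 := hyC m hm
      linarith
    have h8 : (N : ℝ) * t ≤ N * (2 * cy) := mul_le_mul_of_nonneg_left (h1.trans h4) hN0.le
    rw [ha, hYN]
    linarith
  by_cases h3 : w ^ 3 * a < 8
  swap
  · refine (Cov.flat ∅ ?_ (le_of_eq sum_empty)).mono (fun _ _ h => h) (by positivity) (by positivity)
    rintro n m ⟨hn, hm, _, h1, _, h2, _⟩
    refine absurd (Or.inl ?_) h2
    rw [not_lt] at h3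
    have h4 : w ^ 3 * (N * t) ≤ w ^ 3 * (N * ‖y n - y m‖) :=
      mul_le_mul_of_nonneg_left (mul_le_mul_of_nonneg_left h1 hN0.le) (by positivity)
    rw [← ha] at h4
    have h5 : (w / 2) ^ 3 * (N * ‖y n - y m‖) = w ^ 3 * (N * ‖y n - y m‖) / 8 := by ring
    rw [h5]
    linarith
  by_cases hflat : a * w ≤ C3 * (Y * M) ^ 2
  · refine (Cov.flat (((B ×ˢ B).filter fun q => q.1 ≠ q.2 ∧ ‖y q.1 - y q.2‖ < 2 * t).filter fun q => wt q.1 q.2 ≤ w) ?_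
      (α := G * B.card * (Y * M) ^ 2) ?_).mono (fun _ _ h => h) le_rfl (by positivity)
    · rintro n m ⟨hn, hm, hnm, _, h2, _, _, h6⟩
      exact mem_filter.2 ⟨mem_filter.2 ⟨mem_product.2 ⟨hn, hm⟩, hnm, h2⟩, h6⟩
    · have h1 := sum_le_card_nsmul (((B ×ˢ B).filter fun q => q.1 ≠ q.2 ∧ ‖y q.1 - y q.2‖ < 2 * t).filter
        fun q => wt q.1 q.2 ≤ w) (fun q => wt q.1 q.2) w (fun q hq => (mem_filter.1 hq).2)
      rw [nsmul_eq_mul] at h1
      refine h1.trans ?_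
      have h4 := Cb_flat c1 N t hc11 hN0 ht B y hsep'
      rw [← ha] at h4
      have h5 : ((((B ×ˢ B).filter fun q => q.1 ≠ q.2 ∧ ‖y q.1 - y q.2‖ < 2 * t).filter fun q => wt q.1 q.2 ≤ w).card : ℝ) ≤
          (((B ×ˢ B).filter fun q => q.1 ≠ q.2 ∧ ‖y q.1 - y q.2‖ < 2 * t).card : ℝ) := by
        exact_mod_cast card_le_card (filter_subset _ _)
      have h6 := mul_le_mul_of_nonneg_right (h5.trans h4) hw.le
      refine h6.trans ?_
      have h7 : (B.card : ℝ) * (8 * c1 * a) * w = 8 * c1 * B.card * (a * w) := by ring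
      have h8 : 8 * c1 * B.card * (a * w) ≤ 8 * c1 * B.card * (C3 * (Y * M) ^ 2) :=
        mul_le_mul_of_nonneg_left hflat (by positivity)
      have h9 : 8 * c1 * B.card * (C3 * (Y * M) ^ 2) = 8 * (c1 * C3) * (B.card * (Y * M) ^ 2) := by ring
      have h10 : G * B.card * (Y * M) ^ 2 = G * (B.card * (Y * M) ^ 2) := by ring
      rw [h7, h10]
      refine h8.trans ?_
      rw [h9]
      refine mul_le_mul_of_nonneg_right ?_ (by positivity)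
      rw [hG]
      linarith
  rw [not_le] at hflat
  have hM2 : 1 ≤ M ^ 2 := one_le_pow₀ hM
  have hflat1 : (32 * A + 32 * cy) * Y ^ 2 < a * w := by
    refine lt_of_le_of_lt ?_ hflat
    rw [hC3, mul_pow, ← mul_assoc]
    exact le_mul_of_one_le_right (by positivity) hM2
  have hflat2 : 32 * A * (Y ^ 2 * M ^ 2) < a * w := by
    refine lt_of_le_of_lt ?_ hflat
    rw [hC3, mul_pow]
    refine mul_le_mul_of_nonneg_right ?_ (by positivity)
    linarith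
  obtain ⟨n1, n2, n3⟩ := Cb_num Y w a A cy hY hw ha0 hA hcy1 h3 hflat1 hau
  obtain ⟨ρ, hρ⟩ : ∃ ρ : ℝ, ρ = 1 / (Y ^ 2 * w) := ⟨_, rfl⟩
  obtain ⟨ε, hε⟩ : ∃ ε : ℝ, ε = 16 / (w ^ 4 * a ^ 2) := ⟨_, rfl⟩
  rw [← hρ] at n2 n3
  rw [← hε] at n2
  have hρ0 : 0 < ρ := by
    rw [hρ]
    positivity
  have hε0 : 0 < ε := by
    rw [hε]
    positivity
  have hερ : ε ≤ ρ ^ 2 := (le_mul_of_one_le_left hε0.le hA).trans n2
  have hsε : Real.sqrt ε ≤ ρ := by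
    rw [Real.sqrt_le_left hρ0.le]
    exact hερ
  have hε256 : ε ≤ 1 / 256 := by
    have h4 : ρ ^ 2 ≤ (1 / 16) ^ 2 := pow_le_pow_left₀ hρ0.le n3 2
    have h5 : ((1 : ℝ) / 16) ^ 2 = 1 / 256 := by norm_num
    rw [h5] at h4
    exact hερ.trans h4
  have hρw : ρ * w = 1 / Y ^ 2 := by
    rw [hρ]
    field_simp
  have hρY : 1 ≤ ρ * Y := by
    have h4 : ρ * (Y ^ 2 * w) = 1 := by
      rw [hρ]
      field_simp
    have h5 : Y ^ 2 * w ≤ Y := by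
      have h6 : Y ^ 2 * w = Y * (Y * w) := by ring
      rw [h6]
      have h7 : Y * (Y * w) ≤ Y * 1 := mul_le_mul_of_nonneg_left n1 hY0.le
      linarith
    rw [← h4]
    exact mul_le_mul_of_nonneg_left h5 hρ0.le
  have hJr : (0 : ℝ) < J := lt_of_lt_of_le hY0 hYJ
  have hJ0 : 0 < J := Nat.cast_pos.1 hJr
  have hρJ : 1 ≤ ρ * J := hρY.trans (mul_le_mul_of_nonneg_left hYJ hρ0.le)
  have hJρ : 1 / (J : ℝ) ≤ ρ := by
    rw [div_le_iff₀ hJr]
    exact hρJ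
  have hρM : 256 ≤ ρ * M ^ K := by
    calc (256 : ℝ) = 256 * 1 := by ring
      _ ≤ 256 * (ρ * Y) := mul_le_mul_of_nonneg_left hρY (by norm_num)
      _ = ρ * (256 * Y) := by ring
      _ ≤ ρ * M ^ K := mul_le_mul_of_nonneg_left hMK hρ0.le
  have hBY : (B.card : ℝ) ≤ Y ^ 4 := by
    rw [hYN]
    have h4 : B ⊆ Ico N (2 * N) := fun n hn => mem_Ico.2 (hBN n hn)
    have h5 := card_le_card h4
    rw [Nat.card_Ico] at h5
    have h6 : B.card ≤ N := by omega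
    exact_mod_cast h6
  have hcov := multi A c' hA hc'1 Y M w a t ε ρ hY hM hw ha0 hρ0 hρw hflat2 h3 B hBY y J hJ0 hρJ NJ wt hwt
    (fun V hV ρ' hρ' => by
      have h4 : A * ε ≤ ρ' ^ 2 := n2.trans (pow_le_pow_left₀ hρ0.le hρ' 2)
      have h5 := hquad N V y hNr (fun n hn m hm => hsep' n (hV hn) m (hV hm)) t ε ρ' ht hε0.le (lt_of_lt_of_le hρ0 hρ') h4
      refine h5.trans (le_of_eq ?_)
      have hρ'0 : 0 < ρ' := lt_of_lt_of_le hρ0 hρ'
      have h6 : (N : ℝ) * (ε * t / ρ' ^ 2) = 16 / (w ^ 4 * a * ρ' ^ 2) := by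
        rw [hε, ha]
        field_simp
      rw [h6])
    K B (fun s b => s ∈ B ∧ b ∈ B ∧ s ≠ b ∧ Rel t ε (y s - y b) ∧ wt s b ≤ w) 0 (Subset.refl B)
    (fun s b ⟨h4, h5, h6, h7, h8⟩ => by
      refine ⟨h5, h4, h6.symm, ?_, ?_⟩
      · have h9 := Cb_Rel_neg h7
        rw [neg_sub] at h9
        exact h9
      · rw [hwts]
        exact h8)
    (fun s b ⟨h4, h5, h6, h7, h8⟩ => by
      obtain ⟨r1, r2, r3, r4⟩ := h7
      have hz0 : 0 < ‖y s - y b‖ := lt_of_lt_of_le ht r1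
      have hz00 : 0 < |(y s - y b) 0| := lt_of_lt_of_le (by positivity) r4
      refine ⟨h4, h5, ⟨r1, r2, r3, r4⟩, ?_, h8, fun j hj => ⟨mem_range.1 (hNJ s h4 b h5 h6 hj), ?_⟩⟩
      · refine le_trans ?_ hρM
        rw [sub_zero]
        unfold qc
        rw [abs_neg, abs_div, div_le_iff₀ hz00]
        have h9 : |(y s - y b) 1| ≤ ‖y s - y b‖ := norm_le_pi_norm (y s - y b) 1
        linarith
      · have h9 : |qD (y s - y b)| ≤ Real.sqrt ε ^ 2 * ‖y s - y b‖ ^ 2 := by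
          rw [Real.sq_sqrt hε0.le]
          exact r3.trans (mul_le_mul_of_nonneg_left (pow_le_pow_left₀ ht.le r1 2) hε0.le)
        have h10 := hnear s h4 b h5 h6 (Real.sqrt ε) (Real.sqrt_nonneg _) r4 h9 j hj
        have h11 : C' * (1 / (J : ℝ) + Real.sqrt ε) ≤ c' * (2 * ρ) := by
          have h12 : C' * (1 / (J : ℝ) + Real.sqrt ε) ≤ c' * (1 / (J : ℝ) + Real.sqrt ε) :=
            mul_le_mul_of_nonneg_right hc'2 (by positivity)
          exact h12.trans (mul_le_mul_of_nonneg_left (by linarith) hc'1)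
        linarith)
  rw [← hg] at hcov
  refine hcov.mono ?_ ?_ ?_
  · rintro n m ⟨hn, hm, hnm, h1, h2, h4, h5, h6⟩
    have hz : |qD (y n - y m)| ≤ ε * t ^ 2 := by
      have h6 : ¬ 1 ≤ (w / 2) ^ 4 * ((N : ℝ) ^ 2 * |qD (y n - y m)|) := fun h => h4 (Or.inr h)
      rw [not_le] at h6
      have h7 : ε * t ^ 2 = 16 / (w ^ 4 * (N : ℝ) ^ 2) := by
        rw [hε, ha]
        field_simp
      rw [h7, le_div_iff₀ (by positivity)]
      have h8 : (w / 2) ^ 4 * ((N : ℝ) ^ 2 * |qD (y n - y m)|) = |qD (y n - y m)| * (w ^ 4 * (N : ℝ) ^ 2) / 16 := by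
        ring
      rw [h8] at h6
      linarith
    have ht2 : t ^ 2 ≤ ‖y n - y m‖ ^ 2 := pow_le_pow_left₀ ht.le h1 2
    have hz2 : |qD (y n - y m)| ≤ ε * ‖y n - y m‖ ^ 2 :=
      hz.trans (mul_le_mul_of_nonneg_left ht2 hε0.le)
    have hz3 : |qD (y n - y m)| ≤ ‖y n - y m‖ ^ 2 / 256 := by
      refine hz2.trans ?_
      have h6 : ε * ‖y n - y m‖ ^ 2 ≤ 1 / 256 * ‖y n - y m‖ ^ 2 :=
        mul_le_mul_of_nonneg_right hε256 (by positivity)
      linarith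
    have hz0 : ‖y n - y m‖ / 256 ≤ |(y n - y m) 0| := by
      by_contra h6
      rw [not_le] at h6
      rw [hoff n hn m hm hnm h6 hz3] at h5
      exact absurd h5 not_nonempty_empty
    exact ⟨hn, hm, hnm, ⟨h1, h2, hz, hz0⟩, h6⟩
  · calc g * B.card * Y ^ 2 ≤ G * B.card * Y ^ 2 := by
          refine mul_le_mul_of_nonneg_right (mul_le_mul_of_nonneg_right ?_ hBc) (by positivity)
          rw [hG]
          linarith
      _ ≤ G * B.card * (Y * M) ^ 2 := by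
          refine mul_le_mul_of_nonneg_left ?_ (by positivity)
          rw [mul_pow]
          exact le_mul_of_one_le_right (by positivity) hM2
  · refine div_le_div_of_nonneg_right (mul_le_mul_of_nonneg_right ?_ hBc) hY0.le
    rw [hG]
    linarith

end MPku
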