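import Pool.Agent.Lib.MP_7b255b_ntU.D

/-!
# Cv: coverings of sets of pairs

`Cov J NJ wt E α β`: the pairs `(n, m)` with `E n m` are in a set `P` of the total weight `≤ α`, or in sets `x.1`, for which the arcs `NJ n m` are in the set `x.2` and the sum of the
`√(4 |x.2| / J) √(weight of x.1)` is `≤ β`.
-/

set_option autoImplicit false

namespace MPku

open Finset
open scoped Classical

/-- The cost of a cell. -/
noncomputable def cst (J : ℕ) (wt : ℕ → ℕ → ℝ) (x : Finset (ℕ × ℕ) × Finset ℕ) : ℝ :=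
  Real.sqrt (4 * x.2.card / J) * Real.sqrt (∑ q ∈ x.1, wt q.1 q.2)

/-- Coverings of sets of pairs. -/
def Cov (J : ℕ) (NJ : ℕ → ℕ → Finset ℕ) (wt : ℕ → ℕ → ℝ) (E : ℕ → ℕ → Prop) (α β : ℝ) : Prop :=
  ∃ (P : Finset (ℕ × ℕ)) (L : List (Finset (ℕ × ℕ) × Finset ℕ)), ∑ q ∈ P, wt q.1 q.2 ≤ α ∧ (L.map (cst J wt)).sum ≤ β ∧
    ∀ n m, E n m → (n, m) ∈ P ∨ ∃ x ∈ L, (n, m) ∈ x.1 ∧ NJ n m ⊆ x.2

variable {J : ℕ} {NJ : ℕ → ℕ → Finset ℕ} {wt : ℕ → ℕ → ℝ} {E E' : ℕ → ℕ → Prop} {α α' β β' : ℝ}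

theorem cst_nonneg (x : Finset (ℕ × ℕ) × Finset ℕ) : 0 ≤ cst J wt x :=
  mul_nonneg (Real.sqrt_nonneg _) (Real.sqrt_nonneg _)

theorem Cov.mono (h : Cov J NJ wt E α β) (hE : ∀ n m, E' n m → E n m) (hα : α ≤ α') (hβ : β ≤ β') :
    Cov J NJ wt E' α' β' := by
  obtain ⟨P, L, h1, h2, h3⟩ := h
  exact ⟨P, L, h1.trans hα, h2.trans hβ, fun n m hnm => h3 n m (hE n m hnm)⟩

theorem Cov.flat (P : Finset (ℕ × ℕ)) (hE : ∀ n m, E n m → (n, m) ∈ P) (hP : ∑ q ∈ P, wt q.1 q.2 ≤ α) :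
    Cov J NJ wt E α 0 :=
  ⟨P, [], hP, le_of_eq rfl, fun n m h => Or.inl (hE n m h)⟩

theorem Cov.one (x : Finset (ℕ × ℕ) × Finset ℕ) (hE : ∀ n m, E n m → (n, m) ∈ x.1 ∧ NJ n m ⊆ x.2) (hβ : cst J wt x ≤ β) :
    Cov J NJ wt E 0 β := by
  refine ⟨∅, [x], ?_, ?_, fun n m h => Or.inr ⟨x, List.mem_singleton.2 rfl, hE n m h⟩⟩
  · rw [sum_empty]
  · rw [List.map_cons, List.map_nil, List.sum_cons, List.sum_nil, add_zero]
    exact hβ

theorem Cov.union (hwt : ∀ n m, 0 ≤ wt n m) (h : Cov J NJ wt E α β) (h' : Cov J NJ wt E' α' β') :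
    Cov J NJ wt (fun n m => E n m ∨ E' n m) (α + α') (β + β') := by
  obtain ⟨P, L, h1, h2, h3⟩ := h
  obtain ⟨P', L', h1', h2', h3'⟩ := h'
  refine ⟨P ∪ P', L ++ L', ?_, ?_, ?_⟩
  · have h4 : ∑ q ∈ P ∪ P', wt q.1 q.2 + ∑ q ∈ P ∩ P', wt q.1 q.2 = ∑ q ∈ P, wt q.1 q.2 + ∑ q ∈ P', wt q.1 q.2 :=
      sum_union_inter
    have h5 : 0 ≤ ∑ q ∈ P ∩ P', wt q.1 q.2 := sum_nonneg fun q _ => hwt q.1 q.2
    linarith
  · rw [List.map_append, List.sum_append]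
    exact add_le_add h2 h2'
  · rintro n m (h4 | h4)
    · rcases h3 n m h4 with h5 | ⟨x, hx, h5⟩
      · exact Or.inl (mem_union_left _ h5)
      · exact Or.inr ⟨x, List.mem_append_left _ hx, h5⟩
    · rcases h3' n m h4 with h5 | ⟨x, hx, h5⟩
      · exact Or.inl (mem_union_right _ h5)
      · exact Or.inr ⟨x, List.mem_append_right _ hx, h5⟩

theorem Cov.sum {ι : Type} (hwt : ∀ n m, 0 ≤ wt n m) (S : Finset ι) (F : ι → ℕ → ℕ → Prop) (a b : ι → ℝ)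
    (h : ∀ c ∈ S, Cov J NJ wt (F c) (a c) (b c)) : Cov J NJ wt (fun n m => ∃ c ∈ S, F c n m) (∑ c ∈ S, a c) (∑ c ∈ S, b c) := by
  induction S using Finset.induction_on with
  | empty =>
    rw [sum_empty, sum_empty]
    exact Cov.flat ∅ (fun n m ⟨c, hc, _⟩ => absurd hc (notMem_empty c)) (le_of_eq sum_empty)
  | insert c S hc ih =>
    rw [sum_insert hc, sum_insert hc]
    refine (Cov.union hwt (h c (mem_insert_self c S)) (ih fun c' hc' => h c' (mem_insert_of_mem hc'))).mono ?_ le_rfl le_rfl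
    rintro n m ⟨c', hc', h1⟩
    rcases mem_insert.1 hc' with rfl | h2
    · exact Or.inl h1
    · exact Or.inr ⟨c', h2, h1⟩

end MPku
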