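import Pool.Agent.Lib.MP_7b255b_nt.Defs

/-!
# D: definitions for the mean square of the sup norms of the K-types

Quadratic polynomials `qv z x = z 0 x^2 + 2 z 1 x + z 2` with the discriminant `qD z`; functions `f` on `[-2, 2]` satisfying a first derivative test relative to the quadratic polynomial `z`
(`FD`); the phases `En h n`; test functions and functionals with the scaling property (`TF`, `Scal`); homogeneous functions on the plane without the origin (`Hm`), their Fourier coefficients (`fc`);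
ladders (`Ladder`): families of functions on `G` satisfying the relations of the matrix coefficients `c_n η(π(g) e_n)`.
-/

set_option autoImplicit false

namespace MPku

open MPkt

/-- Triples of real numbers with the maximum norm: the quadratic polynomials. -/
abbrev T3 := Fin 3 → ℝ

/-- The value of the quadratic polynomial `z 0 x^2 + 2 z 1 x + z 2`. -/
def qv (z : T3) (x : ℝ) : ℝ := z 0 * x ^ 2 + 2 * z 1 * x + z 2

/-- The discriminant. -/
def qD (z : T3) : ℝ := z 1 ^ 2 - z 0 * z 2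

/-- The polar form of `qD`. -/
noncomputable def qP (z w : T3) : ℝ := z 1 * w 1 - (z 0 * w 2 + z 2 * w 0) / 2

/-- The centre `- z 1 / z 0` of the quadratic polynomial. -/
noncomputable def qc (z : T3) : ℝ := -(z 1 / z 0)

/-- First derivative test: the integral of `f` over an interval on which `|qv z| ≥ lam` is at most `C / (N lam)`. -/
structure FD (C N : ℝ) (z : T3) (f : ℝ → ℂ) : Prop where
  cont : ContinuousOn f (Set.Icc (-2) 2)
  bd : ∀ x ∈ Set.Icc (-2 : ℝ) 2, ‖f x‖ ≤ C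
  osc : ∀ a b lam : ℝ, -2 ≤ a → a ≤ b → b ≤ 2 → 0 < lam → (∀ x ∈ Set.Icc a b, lam ≤ |qv z x|) →
    ‖∫ x in a..b, f x‖ ≤ C / (N * lam)

/-- The points `-2 + 4 j / J` dividing `[-2, 2]` into `J` arcs. -/
noncomputable def arc (J j : ℕ) : ℝ := -2 + 4 * j / J

/-- The weight `w` is admissible for `z`. -/
def Lev (N : ℝ) (z : T3) (w : ℝ) : Prop := 1 ≤ w ^ 3 * (N * ‖z‖) ∨ 1 ≤ w ^ 4 * (N ^ 2 * |qD z|)

/-- The tangential class. -/
def Rel (t ε : ℝ) (z : T3) : Prop := t ≤ ‖z‖ ∧ ‖z‖ < 2 * t ∧ |qD z| ≤ ε * t ^ 2 ∧ ‖z‖ / 256 ≤ |z 0|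

/-- The cell of length `ρ` containing the centre of `z`. -/
noncomputable def cell (ρ : ℝ) (z : T3) : ℤ := ⌊qc z / ρ⌋

/-- The conjugate of the complex number `(a x + b) + i (c x + d)`. -/
noncomputable def zt (h : G) (x : ℝ) : ℂ := ((h 0 0 * x + h 0 1 : ℝ) : ℂ) - ((h 1 0 * x + h 1 1 : ℝ) : ℂ) * Complex.I

/-- The quadratic polynomial `(a x + b)^2 + (c x + d)^2`. -/
noncomputable def Qh (h : G) (x : ℝ) : ℝ := (h 0 0 * x + h 0 1) ^ 2 + (h 1 0 * x + h 1 1) ^ 2

/-- The phase functions. -/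
noncomputable def En (h : G) (n : ℕ) (x : ℝ) : ℂ := (zt h x / (‖zt h x‖ : ℂ)) ^ n

/-- The point of the three dimensional space which belongs to the phase function `En h n`. -/
noncomputable def yv (N : ℝ) (h : G) (n : ℕ) : T3 :=
  ![N / n * (h 0 0 ^ 2 + h 1 0 ^ 2), N / n * (h 0 0 * h 0 1 + h 1 0 * h 1 1), N / n * (h 0 1 ^ 2 + h 1 1 ^ 2)]

/-- The entries of `h` are at most `R` in absolute value. -/
def Ent (R : ℝ) (h : G) : Prop := ∀ i j, |h i j| ≤ R

/-- Continuously differentiable amplitudes bounded by `C` with their derivatives. -/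
structure Amp (C : ℝ) (A : ℝ → ℂ) : Prop where
  diff : ContDiff ℝ 1 A
  bd : ∀ x, ‖A x‖ ≤ C
  bd' : ∀ x, ‖deriv A x‖ ≤ C

/-- Test functions. -/
def TF (u : ℝ → ℂ) : Prop := ContDiff ℝ ((⊤ : ℕ∞) : WithTop ℕ∞) u ∧ HasCompactSupport u

/-- A linear functional on the test functions with the scaling property of an automorphic distribution. -/
structure Scal (T : (ℝ → ℂ) → ℂ) (C : ℝ) (K : ℕ) (σ : ℝ) : Prop where
  add : ∀ u v, TF u → TF v → T (u + v) = T u + T v
  smul : ∀ (c : ℂ) (u), TF u → T (c • u) = c * T u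
  sc : ∀ (w : ℝ → ℂ) (b lam x0 : ℝ), TF w → (∀ x, 1 < |x| → w x = 0) → (∀ k ≤ K, ∀ x, ‖iteratedDeriv k w x‖ ≤ b) →
    1 ≤ lam → |x0| ≤ 3 → ‖T fun x => w (lam * (x - x0))‖ ≤ C * lam ^ (-(1 + σ) / 2) * b

/-- The vectors `π(g) e_n` in a chart, cut off by `χ`. -/
noncomputable def vf (χ : ℝ → ℂ) (s : ℂ) (h : G) (n : ℕ) (x : ℝ) : ℂ :=
  χ x * ((Qh h x : ℝ) : ℂ) ^ (-(1 + s) / 2) * En h n x

/-- The action of the matrices on the plane. -/
noncomputable def act (g : G) (v : ℝ × ℝ) : ℝ × ℝ := (g 0 0 * v.1 + g 0 1 * v.2, g 1 0 * v.1 + g 1 1 * v.2)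

/-- The smooth functions on the plane without the origin which are homogeneous of degree `-1 - s`. -/
structure Hm (s : ℂ) (F : ℝ × ℝ → ℂ) : Prop where
  smooth : ContDiffOn ℝ ((⊤ : ℕ∞) : WithTop ℕ∞) F {v | v ≠ 0}
  hom : ∀ r : ℝ, 0 < r → ∀ v, v ≠ 0 → F (r • v) = (r : ℂ) ^ (-(1 + s)) * F v

/-- The points of the unit circle. -/
noncomputable def circ (θ : ℝ) : ℝ × ℝ := (Real.cos θ, Real.sin θ)

/-- The Fourier coefficients. -/
noncomputable def fc (F : ℝ × ℝ → ℂ) (n : ℤ) : ℂ :=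
  (2 * Real.pi : ℂ)⁻¹ * ∫ θ in (0 : ℝ)..(2 * Real.pi), F (circ θ) * Complex.exp (n * θ * Complex.I)

/-- The function with the restriction `e^{-inθ}` to the unit circle. -/
noncomputable def em (s : ℂ) (n : ℤ) (v : ℝ × ℝ) : ℂ :=
  ((Real.sqrt (v.1 ^ 2 + v.2 ^ 2) : ℝ) : ℂ) ^ (-(1 + s)) *
    (((v.1 : ℂ) - (v.2 : ℂ) * Complex.I) / ((Real.sqrt (v.1 ^ 2 + v.2 ^ 2) : ℝ) : ℂ)) ^ n

/-- A ladder with the parameter `s`: functions on `G` with the relations of the functions `c_n η(π(g) e_n)`. -/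
structure Ladder (s : ℂ) (φ : ℤ → G → ℂ) : Prop where
  rot : ∀ n g θ, φ n (g * kk θ) = Complex.exp ((n : ℂ) * θ * Complex.I) * φ n g
  lad : ∀ n g, HasDerivAt (fun t : ℝ => φ n (g * aa t))
    (((1 + s + n) * φ (n + 2) g + (1 + s - n) * φ (n - 2) g) / 4) 0
  bd : ∃ (C : ℝ) (k : ℕ), ∀ n g, ‖φ n g‖ ≤ C * (1 + |(n : ℝ)|) ^ k

/-- The functional on the homogeneous functions. -/
noncomputable def TT (φ : ℤ → G → ℂ) (g : G) (F : ℝ × ℝ → ℂ) : ℂ := ∑' n : ℤ, fc F n * φ n g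

/-- The homogeneous function with the values `w x` at `(x, 1)`, zero on the lower half plane. -/
noncomputable def Fw (s : ℂ) (w : ℝ → ℂ) (v : ℝ × ℝ) : ℂ :=
  open Classical in if 0 < v.2 then (v.2 : ℂ) ^ (-(1 + s)) * w (v.1 / v.2) else 0

section rep

variable {H : Type*} [NormedAddCommGroup H] [InnerProductSpace ℂ H] (π : URep H)

/-- The derivative of the representation in the direction of the matrix `X`. -/
noncomputable def dX (X : Fin 2 → Fin 2 → ℝ) (v : H) : H := fderiv ℝ (orb π v) e1 X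

/-- The matrices `diag(1/2, -1/2)` and `[[0, 1/2], [1/2, 0]]`. -/
noncomputable def mH : Fin 2 → Fin 2 → ℝ := ![![1 / 2, 0], ![0, -(1 / 2)]]

/-- The matrix `[[0, 1/2], [1/2, 0]]`. -/
noncomputable def mV : Fin 2 → Fin 2 → ℝ := ![![0, 1 / 2], ![1 / 2, 0]]

/-- The matrix `[[0, -1], [1, 0]]`. -/
noncomputable def mK : Fin 2 → Fin 2 → ℝ := ![![0, -1], ![1, 0]]

/-- The raising operator. -/
noncomputable def up (v : H) : H := (1 / 2 : ℂ) • (dX π mH v - Complex.I • dX π mV v)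

/-- The lowering operator. -/
noncomputable def dn (v : H) : H := (1 / 2 : ℂ) • (dX π mH v + Complex.I • dX π mV v)

/-- The weights of the smooth vectors. -/
def wts : Set ℤ := {n | ∃ v, Smooth π v ∧ IsWeight π n v ∧ v ≠ 0}

/-- The sup norm `p_aut` of an automorphic function. -/
noncomputable def paut (η : H → ℂ) (v : H) : ℝ := ⨆ g : G, ‖η (π.r g v)‖

end rep

end MPku
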