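import Pool.Agent.Lib.MP_7b255b_ntU.D

/-!
# F1: functionals with the scaling property are bounded by scaled Sobolev norms in L^1
-/

set_option autoImplicit false

namespace MPku

open Finset MeasureTheory

theorem TF.add {u v : ℝ → ℂ} (hu : TF u) (hv : TF v) : TF (u + v) := ⟨hu.1.add hv.1, hu.2.add hv.2⟩

theorem TF.smul (c : ℂ) {u : ℝ → ℂ} (hu : TF u) : TF (c • u) :=
  ⟨contDiff_const.smul hu.1, hu.2.mono (Function.support_const_smul_subset c u)⟩

private theorem F1_zero : TF (0 : ℝ → ℂ) := ⟨contDiff_const, HasCompactSupport.zero⟩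

theorem TF.sum {ι : Type*} (S : Finset ι) (u : ι → ℝ → ℂ) (hu : ∀ i ∈ S, TF (u i)) : TF (∑ i ∈ S, u i) := by
  classical
  induction S using Finset.induction_on with
  | empty =>
    rw [Finset.sum_empty]
    exact F1_zero
  | insert a S ha ih =>
    rw [Finset.sum_insert ha]
    exact (hu a (Finset.mem_insert_self a S)).add (ih fun i hi => hu i (Finset.mem_insert_of_mem hi))

theorem Scal.sum {T : (ℝ → ℂ) → ℂ} {C : ℝ} {K : ℕ} {σ : ℝ} (hT : Scal T C K σ) {ι : Type*} (S : Finset ι) (u : ι → ℝ → ℂ)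
    (hu : ∀ i ∈ S, TF (u i)) : T (∑ i ∈ S, u i) = ∑ i ∈ S, T (u i) := by
  classical
  induction S using Finset.induction_on with
  | empty =>
    rw [Finset.sum_empty, Finset.sum_empty]
    have h1 := hT.smul 0 0 F1_zero
    rwa [smul_zero, zero_mul] at h1
  | insert a S ha ih =>
    rw [Finset.sum_insert ha, Finset.sum_insert ha, hT.add _ _ (hu a (Finset.mem_insert_self a S))
      (TF.sum S u fun i hi => hu i (Finset.mem_insert_of_mem hi)), ih fun i hi => hu i (Finset.mem_insert_of_mem hi)]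

/-- The functions of the partition of unity. -/
private noncomputable def F1psi (x : ℝ) : ℂ :=
  ((Real.smoothTransition (x + 1) - Real.smoothTransition x : ℝ) : ℂ)

private theorem F1psi_smooth : ContDiff ℝ ((⊤ : ℕ∞) : WithTop ℕ∞) F1psi := by
  have h1 : ContDiff ℝ ((⊤ : ℕ∞) : WithTop ℕ∞) fun x : ℝ => Real.smoothTransition (x + 1) - Real.smoothTransition x :=
    (Real.smoothTransition.contDiff.comp (contDiff_id.add contDiff_const)).sub Real.smoothTransition.contDiff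
  exact Complex.ofRealCLM.contDiff.comp h1

private theorem F1psi_zero {x : ℝ} (hx : 1 ≤ |x|) : F1psi x = 0 := by
  unfold F1psi
  rcases le_abs.1 hx with h | h
  · rw [Real.smoothTransition.one_of_one_le h, Real.smoothTransition.one_of_one_le (by linarith), sub_self,
      Complex.ofReal_zero]
  · rw [Real.smoothTransition.zero_of_nonpos (by linarith), Real.smoothTransition.zero_of_nonpos (by linarith), sub_self,
      Complex.ofReal_zero]

private theorem F1psi_sum (m : ℕ) (x : ℝ) (hx : |x| ≤ m) : ∑ j ∈ range (2 * m + 1), F1psi (x + m - j) = 1 := by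
  have h1 : ∀ j ∈ range (2 * m + 1), F1psi (x + m - j) =
      (((fun i : ℕ => Real.smoothTransition (x + m + 1 - i)) j - (fun i : ℕ => Real.smoothTransition (x + m + 1 - i)) (j + 1) : ℝ) : ℂ) := by
    intro j _
    unfold F1psi
    congr 1
    push_cast
    congr 2 <;> ring
  rw [Finset.sum_congr rfl h1, ← Complex.ofReal_sum, Finset.sum_range_sub']
  obtain ⟨h2, h3⟩ := abs_le.1 hx
  push_cast
  rw [Real.smoothTransition.one_of_one_le (by linarith), Real.smoothTransition.zero_of_nonpos (by linarith)]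
  norm_num

private theorem F1_out {u : ℝ → ℂ} {R : ℝ} (h : ∀ x, R < |x| → u x = 0) (k : ℕ) (x : ℝ) (hx : R < |x|) :
    iteratedDeriv k u x = 0 := by
  have h1 : u =ᶠ[nhds x] fun _ => (0 : ℂ) := by
    filter_upwards [(isOpen_lt continuous_const continuous_abs).mem_nhds hx] with y hy
    exact h y hy
  rw [h1.iteratedDeriv_eq k, iteratedDeriv_const]
  split_ifs <;> rfl

private theorem F1_lt (i : ℕ) : (i : WithTop ℕ∞) < ((⊤ : ℕ∞) : WithTop ℕ∞) := WithTop.coe_lt_coe.2 (ENat.natCast_lt_top i)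

private theorem F1_cont {u : ℝ → ℂ} (hu : ContDiff ℝ ((⊤ : ℕ∞) : WithTop ℕ∞) u) (i : ℕ) : Continuous (iteratedDeriv i u) :=
  hu.continuous_iteratedDeriv i (F1_lt i).le

private theorem F1_diff {u : ℝ → ℂ} (hu : ContDiff ℝ ((⊤ : ℕ∞) : WithTop ℕ∞) u) (i : ℕ) : Differentiable ℝ (iteratedDeriv i u) :=
  hu.differentiable_iteratedDeriv i (F1_lt i)

private theorem F1_scale {u : ℝ → ℂ} (hu : ContDiff ℝ ((⊤ : ℕ∞) : WithTop ℕ∞) u) (c d : ℝ) (i : ℕ) :
    iteratedDeriv i (fun y => u (c * y + d)) = fun y => (c ^ i) • iteratedDeriv i u (c * y + d) := by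
  induction i with
  | zero =>
    funext y
    rw [iteratedDeriv_zero, iteratedDeriv_zero, pow_zero, one_smul]
  | succ i ih =>
    funext y
    rw [iteratedDeriv_succ, ih]
    have h1 : HasDerivAt (iteratedDeriv i u) (iteratedDeriv (i + 1) u (c * y + d)) (c * y + d) := by
      rw [iteratedDeriv_succ]
      exact (F1_diff hu i _).hasDerivAt
    have h2 : HasDerivAt (fun y : ℝ => c * y + d) c y := by
      have h3 := ((hasDerivAt_id y).const_mul c).add_const d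
      rwa [mul_one] at h3
    have h40 := HasDerivAt.scomp (h := fun y : ℝ => c * y + d) y h1 h2
    have h4 : HasDerivAt (fun y => iteratedDeriv i u (c * y + d)) (c • iteratedDeriv (i + 1) u (c * y + d)) y := h40
    have h5 : HasDerivAt (fun y => c ^ i • iteratedDeriv i u (c * y + d))
        (c ^ i • c • iteratedDeriv (i + 1) u (c * y + d)) y := h4.const_smul (c ^ i)
    rw [h5.deriv, smul_smul, pow_succ]

private theorem F1_sup {f : ℝ → ℂ} (hf : Differentiable ℝ f) (hf' : Continuous (deriv f)) (y : ℝ) (hy : |y| ≤ 1) :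
    ‖f y‖ ≤ (∫ x in (-1 : ℝ)..1, ‖f x‖) + ∫ x in (-1 : ℝ)..1, ‖deriv f x‖ := by
  obtain ⟨hy1, hy2⟩ := abs_le.1 hy
  have hA : ∀ z ∈ Set.Icc (-1 : ℝ) 1, ‖f y‖ ≤ ‖f z‖ + ∫ x in (-1 : ℝ)..1, ‖deriv f x‖ := by
    intro z hz
    have h1 : ∫ x in z..y, deriv f x = f y - f z :=
      intervalIntegral.integral_deriv_eq_sub (fun x _ => hf x) (hf'.intervalIntegrable _ _)
    have h2 : ‖f y - f z‖ ≤ ∫ x in Set.uIoc z y, ‖deriv f x‖ := by
      rw [← h1]
      exact intervalIntegral.norm_integral_le_integral_norm_uIoc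
    have h3 : ∫ x in Set.uIoc z y, ‖deriv f x‖ ≤ ∫ x in Set.Ioc (-1 : ℝ) 1, ‖deriv f x‖ := by
      refine setIntegral_mono_set ?_ (Filter.Eventually.of_forall fun x => norm_nonneg _) ?_
      · exact (hf'.norm.integrableOn_Icc (a := -1) (b := 1)).mono_set Set.Ioc_subset_Icc_self
      · refine Filter.Eventually.of_forall fun x hx => ?_
        have hx' : x ∈ Set.Ioc (min z y) (max z y) := hx
        exact ⟨lt_of_le_of_lt (le_min hz.1 hy1) hx'.1, hx'.2.trans (max_le hz.2 hy2)⟩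
    rw [intervalIntegral.integral_of_le (by norm_num : (-1 : ℝ) ≤ 1)]
    have h4 : ‖f y‖ ≤ ‖f z‖ + ‖f y - f z‖ := by
      have h5 := norm_add_le (f z) (f y - f z)
      rwa [add_sub_cancel] at h5
    linarith
  set A : ℝ := ∫ x in (-1 : ℝ)..1, ‖deriv f x‖ with hAdef
  have hA0 : 0 ≤ A := intervalIntegral.integral_nonneg (by norm_num) fun x _ => norm_nonneg _
  have h1 : ∫ _z in (-1 : ℝ)..1, ‖f y‖ ≤ ∫ z in (-1 : ℝ)..1, (‖f z‖ + A) := by
    refine intervalIntegral.integral_mono_on (by norm_num) ?_ ?_ hA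
    · exact intervalIntegrable_const
    · exact (hf.continuous.norm.add continuous_const).intervalIntegrable _ _
  have h2 : ∫ z in (-1 : ℝ)..1, (‖f z‖ + A) = (∫ z in (-1 : ℝ)..1, ‖f z‖) + 2 * A := by
    rw [intervalIntegral.integral_add (hf.continuous.norm.intervalIntegrable _ _) intervalIntegrable_const,
      intervalIntegral.integral_const, smul_eq_mul]
    norm_num
  have h3 : ∫ _z in (-1 : ℝ)..1, ‖f y‖ = 2 * ‖f y‖ := by
    rw [intervalIntegral.integral_const, smul_eq_mul]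
    norm_num
  rw [h2, h3] at h1
  have h4 : 0 ≤ ∫ z in (-1 : ℝ)..1, ‖f z‖ := intervalIntegral.integral_nonneg (by norm_num) fun x _ => norm_nonneg _
  linarith

/-- The integral of the derivative over the interval belonging to `x0`. -/
private noncomputable def F1J (u : ℝ → ℂ) (N : ℝ) (k : ℕ) (x0 : ℝ) : ℝ :=
  ∫ x in (N⁻¹ * (-1) + x0)..(N⁻¹ * 1 + x0), ‖iteratedDeriv k u x‖

private theorem F1J_nonneg {u : ℝ → ℂ} {N : ℝ} (hN : 1 ≤ N) (k : ℕ) (x0 : ℝ) : 0 ≤ F1J u N k x0 := by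
  have h1 : 0 < N⁻¹ := by positivity
  exact intervalIntegral.integral_nonneg (by linarith) fun x _ => norm_nonneg _

private theorem F1_int {u : ℝ → ℂ} (hu : ContDiff ℝ ((⊤ : ℕ∞) : WithTop ℕ∞) u) {N : ℝ} (hN : 1 ≤ N) (k : ℕ) (x0 : ℝ) :
    ∫ y in (-1 : ℝ)..1, ‖iteratedDeriv k (fun y => u (N⁻¹ * y + x0)) y‖ = N * ((N ^ k)⁻¹ * F1J u N k x0) := by
  have hN0 : 0 < N := by linarith
  have h1 : ∀ y : ℝ, ‖iteratedDeriv k (fun y => u (N⁻¹ * y + x0)) y‖ =
      (N ^ k)⁻¹ * ‖iteratedDeriv k u (N⁻¹ * y + x0)‖ := by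
    intro y
    rw [F1_scale hu, norm_smul, Real.norm_eq_abs, abs_of_pos (by positivity), inv_pow]
  simp only [h1]
  rw [intervalIntegral.integral_const_mul,
    intervalIntegral.integral_comp_mul_add (fun x => ‖iteratedDeriv k u x‖) (inv_ne_zero hN0.ne') x0, smul_eq_mul, inv_inv]
  unfold F1J
  ring

private theorem F1_piece {u : ℝ → ℂ} (hu : ContDiff ℝ ((⊤ : ℕ∞) : WithTop ℕ∞) u) {N : ℝ} (hN : 1 ≤ N) {K i : ℕ} (hi : i ≤ K)
    (x0 y : ℝ) (hy : |y| ≤ 1) :
    ‖iteratedDeriv i (fun y => u (N⁻¹ * y + x0)) y‖ ≤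
      2 * N * ∑ k ∈ range (K + 2), (N ^ k)⁻¹ * F1J u N k x0 := by
  have hN0 : 0 < N := by linarith
  have hv : ContDiff ℝ ((⊤ : ℕ∞) : WithTop ℕ∞) fun y : ℝ => u (N⁻¹ * y + x0) :=
    hu.comp ((contDiff_const.mul contDiff_id).add contDiff_const)
  have h1 := F1_sup (F1_diff hv i) (by
    rw [← iteratedDeriv_succ]
    exact F1_cont hv (i + 1)) y hy
  rw [← iteratedDeriv_succ, F1_int hu hN, F1_int hu hN] at h1
  have hnn : ∀ k ∈ range (K + 2), 0 ≤ (N ^ k)⁻¹ * F1J u N k x0 := fun k _ =>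
    mul_nonneg (by positivity) (F1J_nonneg hN k x0)
  have h2 : (N ^ i)⁻¹ * F1J u N i x0 ≤ ∑ k ∈ range (K + 2), (N ^ k)⁻¹ * F1J u N k x0 :=
    Finset.single_le_sum (f := fun k => (N ^ k)⁻¹ * F1J u N k x0) hnn (Finset.mem_range.2 (by omega))
  have h3 : (N ^ (i + 1))⁻¹ * F1J u N (i + 1) x0 ≤ ∑ k ∈ range (K + 2), (N ^ k)⁻¹ * F1J u N k x0 :=
    Finset.single_le_sum (f := fun k => (N ^ k)⁻¹ * F1J u N k x0) hnn (Finset.mem_range.2 (by omega))
  have h4 := mul_le_mul_of_nonneg_left h2 hN0.le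
  have h5 := mul_le_mul_of_nonneg_left h3 hN0.le
  linarith

private theorem F1_bound_psi (K : ℕ) : ∃ D : ℝ, 0 ≤ D ∧ ∀ i ≤ K, ∀ x, ‖iteratedDeriv i F1psi x‖ ≤ D := by
  have h1 : ∀ i : ℕ, ∃ D : ℝ, ∀ x, ‖iteratedDeriv i F1psi x‖ ≤ D := by
    intro i
    have h2 : HasCompactSupport (iteratedDeriv i F1psi) := by
      refine HasCompactSupport.intro (isCompact_Icc (a := (-1 : ℝ)) (b := 1)) fun x hx => ?_
      refine F1_out (R := 1) (fun x hx => F1psi_zero hx.le) i x ?_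
      by_contra h
      exact hx (abs_le.1 (not_lt.1 h))
    exact (F1_cont F1psi_smooth i).bounded_above_of_compact_support h2
  choose D hD using h1
  refine ⟨∑ i ∈ range (K + 1), |D i|, Finset.sum_nonneg fun i _ => abs_nonneg _, fun i hi x => ?_⟩
  refine (hD i x).trans ((le_abs_self _).trans ?_)
  exact Finset.single_le_sum (f := fun i => |D i|) (fun i _ => abs_nonneg _) (Finset.mem_range.2 (by omega))

private theorem F1_prod {u : ℝ → ℂ} (hu : ContDiff ℝ ((⊤ : ℕ∞) : WithTop ℕ∞) u) {N : ℝ} (hN : 1 ≤ N) {K : ℕ} {D : ℝ} (hD0 : 0 ≤ D)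
    (hD : ∀ i ≤ K, ∀ x, ‖iteratedDeriv i F1psi x‖ ≤ D) (x0 : ℝ) (k : ℕ) (hk : k ≤ K) (y : ℝ) :
    ‖iteratedDeriv k (fun y => F1psi y * u (N⁻¹ * y + x0)) y‖ ≤
      2 ^ K * D * (2 * N * ∑ k ∈ range (K + 2), (N ^ k)⁻¹ * F1J u N k x0) := by
  have hN0 : 0 < N := by linarith
  set B : ℝ := 2 * N * ∑ k ∈ range (K + 2), (N ^ k)⁻¹ * F1J u N k x0 with hB
  have hB0 : 0 ≤ B := by
    have h1 : 0 ≤ ∑ k ∈ range (K + 2), (N ^ k)⁻¹ * F1J u N k x0 := Finset.sum_nonneg fun k _ =>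
      mul_nonneg (by positivity) (F1J_nonneg hN k x0)
    positivity
  by_cases hy : |y| ≤ 1
  · have hv : ContDiff ℝ ((⊤ : ℕ∞) : WithTop ℕ∞) fun y : ℝ => u (N⁻¹ * y + x0) :=
      hu.comp ((contDiff_const.mul contDiff_id).add contDiff_const)
    have h1 := norm_iteratedFDeriv_mul_le F1psi_smooth hv y (n := k) (F1_lt k).le
    rw [norm_iteratedFDeriv_eq_norm_iteratedDeriv] at h1
    refine h1.trans ?_
    have h2 : ∀ i ∈ range (k + 1), (k.choose i : ℝ) * ‖iteratedFDeriv ℝ i F1psi y‖ *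
        ‖iteratedFDeriv ℝ (k - i) (fun y => u (N⁻¹ * y + x0)) y‖ ≤ (k.choose i : ℝ) * (D * B) := by
      intro i hi
      have hi' : i ≤ k := by
        have := Finset.mem_range.1 hi
        omega
      rw [norm_iteratedFDeriv_eq_norm_iteratedDeriv, norm_iteratedFDeriv_eq_norm_iteratedDeriv, mul_assoc]
      refine mul_le_mul_of_nonneg_left ?_ (Nat.cast_nonneg _)
      exact mul_le_mul (hD i (hi'.trans hk) y) (F1_piece hu hN ((Nat.sub_le k i).trans hk) x0 y hy) (norm_nonneg _) hD0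
    refine (Finset.sum_le_sum h2).trans ?_
    rw [← Finset.sum_mul]
    have h3 : ∑ i ∈ range (k + 1), (k.choose i : ℝ) = 2 ^ k := by
      rw [← Nat.cast_sum, Nat.sum_range_choose]
      push_cast
      rfl
    rw [h3, mul_assoc]
    refine mul_le_mul_of_nonneg_right ?_ (mul_nonneg hD0 hB0)
    exact pow_le_pow_right₀ (by norm_num) hk
  · have h1 : iteratedDeriv k (fun y => F1psi y * u (N⁻¹ * y + x0)) y = 0 := by
      refine F1_out (R := 1) (fun x hx => ?_) k y (not_le.1 hy)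
      rw [F1psi_zero hx.le, zero_mul]
    rw [h1, norm_zero]
    positivity

private theorem F1_le {u : ℝ → ℂ} (hu : ContDiff ℝ ((⊤ : ℕ∞) : WithTop ℕ∞) u) (h0 : ∀ x, 2 < |x| → u x = 0) (k : ℕ) {a b : ℝ}
    (hab : a ≤ b) : ∫ x in a..b, ‖iteratedDeriv k u x‖ ≤ ∫ x in (-2 : ℝ)..2, ‖iteratedDeriv k u x‖ := by
  have hz : ∀ x, x ∉ Set.Icc (-2 : ℝ) 2 → ‖iteratedDeriv k u x‖ = 0 := by
    intro x hx
    rw [F1_out h0 k x, norm_zero]
    by_contra h
    exact hx (abs_le.1 (not_lt.1 h))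
  have hc : HasCompactSupport fun x => ‖iteratedDeriv k u x‖ := HasCompactSupport.intro isCompact_Icc hz
  have hi : Integrable (fun x => ‖iteratedDeriv k u x‖) := (F1_cont hu k).norm.integrable_of_hasCompactSupport hc
  rw [intervalIntegral.integral_of_le hab, intervalIntegral.integral_of_le (by norm_num : (-2 : ℝ) ≤ 2),
    ← integral_Icc_eq_integral_Ioc (x := (-2 : ℝ)), setIntegral_eq_integral_of_forall_compl_eq_zero hz]
  exact setIntegral_le_integral hi (Filter.Eventually.of_forall fun x => norm_nonneg _)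

private theorem F1_sumJ {u : ℝ → ℂ} (hu : ContDiff ℝ ((⊤ : ℕ∞) : WithTop ℕ∞) u) (h0 : ∀ x, 2 < |x| → u x = 0) {N : ℝ} (hN : 1 ≤ N)
    (k m : ℕ) : ∑ j ∈ range (2 * m + 1), F1J u N k (((j : ℝ) - m) / N) ≤ 2 * ∫ x in (-2 : ℝ)..2, ‖iteratedDeriv k u x‖ := by
  have hN0 : 0 < N := by linarith
  let a : ℕ → ℝ := fun j => ((j : ℝ) - m - 1) / N
  have hii : ∀ s t : ℝ, IntervalIntegrable (fun x => ‖iteratedDeriv k u x‖) volume s t := fun s t =>
    (F1_cont hu k).norm.intervalIntegrable _ _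
  have h1 : ∀ j ∈ range (2 * m + 1), F1J u N k (((j : ℝ) - m) / N) =
      (∫ x in a j..a (j + 1), ‖iteratedDeriv k u x‖) + ∫ x in a (j + 1)..a (j + 1 + 1), ‖iteratedDeriv k u x‖ := by
    intro j _
    rw [intervalIntegral.integral_add_adjacent_intervals (hii _ _) (hii _ _)]
    unfold F1J
    have e1 : N⁻¹ * (-1) + ((j : ℝ) - m) / N = a j := by
      simp only [a]
      ring
    have e2 : N⁻¹ * 1 + ((j : ℝ) - m) / N = a (j + 1 + 1) := by
      simp only [a]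
      push_cast
      ring
    rw [e1, e2]
  have hmono : ∀ i j : ℕ, i ≤ j → a i ≤ a j := by
    intro i j hij
    have h2 : (i : ℝ) ≤ j := by exact_mod_cast hij
    exact div_le_div_of_nonneg_right (by linarith) hN0.le
  rw [Finset.sum_congr rfl h1, Finset.sum_add_distrib,
    intervalIntegral.sum_integral_adjacent_intervals (a := a) (fun j _ => hii _ _),
    intervalIntegral.sum_integral_adjacent_intervals (a := fun j => a (j + 1)) (fun j _ => hii _ _)]
  have h2 := F1_le hu h0 k (hmono 0 (2 * m + 1) (Nat.zero_le _))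
  have h3 := F1_le hu h0 k (hmono (0 + 1) (2 * m + 1 + 1) (by omega))
  linarith

theorem func_bound (K : ℕ) (σ C1 : ℝ) : ∃ C : ℝ, 1 ≤ C ∧ ∀ (T : (ℝ → ℂ) → ℂ) (N : ℝ) (u : ℝ → ℂ), Scal T C1 K σ → 1 ≤ N → TF u →
    (∀ x, 2 < |x| → u x = 0) →
    ‖T u‖ ≤ C * N ^ ((1 - σ) / 2) * ∑ k ∈ range (K + 2), (N ^ k)⁻¹ * ∫ x in (-2 : ℝ)..2, ‖iteratedDeriv k u x‖ := by
  obtain ⟨D, hD0, hD⟩ := F1_bound_psi K
  refine ⟨|C1| * (2 ^ K * D * 4) + 1, ?_, ?_⟩
  · have h1 : 0 ≤ |C1| * (2 ^ K * D * 4) := by positivity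
    linarith
  intro T N u hT hN hu h0
  have hN0 : 0 < N := by linarith
  obtain ⟨m, hm1, hm2⟩ : ∃ m : ℕ, 2 * N ≤ m ∧ (m : ℝ) ≤ 2 * N + 1 :=
    ⟨⌈2 * N⌉₊, Nat.le_ceil _, (Nat.ceil_lt_add_one (by linarith)).le⟩
  let w : ℕ → ℝ → ℂ := fun j y => F1psi y * u (N⁻¹ * y + ((j : ℝ) - m) / N)
  have hw1 : ∀ j x, 1 < |x| → w j x = 0 := by
    intro j x hx
    simp only [w]
    rw [F1psi_zero hx.le, zero_mul]
  have hwTF : ∀ j, TF (w j) := by
    intro j
    refine ⟨F1psi_smooth.mul (hu.1.comp ((contDiff_const.mul contDiff_id).add contDiff_const)), ?_⟩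
    refine HasCompactSupport.intro (isCompact_Icc (a := (-1 : ℝ)) (b := 1)) fun x hx => ?_
    refine hw1 j x ?_
    by_contra h
    exact hx (abs_le.1 (not_lt.1 h))
  let U : ℕ → ℝ → ℂ := fun j x => w j (N * (x - ((j : ℝ) - m) / N))
  have hUe : ∀ j x, U j x = F1psi (N * x + m - j) * u x := by
    intro j x
    simp only [U, w]
    have e1 : N * (x - ((j : ℝ) - m) / N) = N * x + m - j := by
      field_simp
      ring
    have e2 : N⁻¹ * (N * (x - ((j : ℝ) - m) / N)) + ((j : ℝ) - m) / N = x := by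
      rw [← mul_assoc, inv_mul_cancel₀ hN0.ne', one_mul, sub_add_cancel]
    rw [e2, e1]
  have hUTF : ∀ j ∈ range (2 * m + 1), TF (U j) := by
    intro j _
    have h1 : U j = fun x => F1psi (N * x + m - j) * u x := funext fun x => hUe j x
    rw [h1]
    refine ⟨(F1psi_smooth.comp (((contDiff_const.mul contDiff_id).add contDiff_const).sub contDiff_const)).mul hu.1, ?_⟩
    exact hu.2.mul_left
  have hsum : u = ∑ j ∈ range (2 * m + 1), U j := by
    funext x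
    rw [Finset.sum_apply]
    simp only [hUe]
    rw [← Finset.sum_mul]
    by_cases hx : |x| ≤ 2
    · have h1 : |N * x| ≤ m := by
        rw [abs_mul, abs_of_pos hN0]
        nlinarith
      rw [F1psi_sum m (N * x) h1, one_mul]
    · rw [h0 x (not_le.1 hx), mul_zero]
  have hTU : ∀ j ∈ range (2 * m + 1), ‖T (U j)‖ ≤ |C1| * N ^ (-(1 + σ) / 2) *
      (2 ^ K * D * (2 * N * ∑ k ∈ range (K + 2), (N ^ k)⁻¹ * F1J u N k (((j : ℝ) - m) / N))) := by
    intro j hj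
    have hj' : (j : ℝ) ≤ 2 * m := by
      have h1 := Finset.mem_range.1 hj
      have h2 : j ≤ 2 * m := by omega
      exact_mod_cast h2
    have hx0 : |((j : ℝ) - m) / N| ≤ 3 := by
      rw [abs_div, abs_of_pos hN0, div_le_iff₀ hN0]
      have h3 : |(j : ℝ) - m| ≤ m := abs_le.2 ⟨by linarith [(Nat.cast_nonneg j : (0 : ℝ) ≤ j)], by linarith⟩
      linarith
    have h1 := hT.sc (w j) (2 ^ K * D * (2 * N * ∑ k ∈ range (K + 2), (N ^ k)⁻¹ * F1J u N k (((j : ℝ) - m) / N)))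
      N (((j : ℝ) - m) / N) (hwTF j) (hw1 j) (fun k hk x => F1_prod hu.1 hN hD0 hD _ k hk x) hN hx0
    refine h1.trans ?_
    have h2 : 0 ≤ 2 ^ K * D * (2 * N * ∑ k ∈ range (K + 2), (N ^ k)⁻¹ * F1J u N k (((j : ℝ) - m) / N)) := by
      have h3 : 0 ≤ ∑ k ∈ range (K + 2), (N ^ k)⁻¹ * F1J u N k (((j : ℝ) - m) / N) := Finset.sum_nonneg fun k _ =>
        mul_nonneg (by positivity) (F1J_nonneg hN k _)
      positivity
    refine mul_le_mul_of_nonneg_right ?_ h2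
    exact mul_le_mul_of_nonneg_right (le_abs_self C1) (Real.rpow_nonneg hN0.le _)
  have hfin : ∑ j ∈ range (2 * m + 1), ∑ k ∈ range (K + 2), (N ^ k)⁻¹ * F1J u N k (((j : ℝ) - m) / N) ≤
      2 * ∑ k ∈ range (K + 2), (N ^ k)⁻¹ * ∫ x in (-2 : ℝ)..2, ‖iteratedDeriv k u x‖ := by
    rw [Finset.sum_comm, Finset.mul_sum]
    refine Finset.sum_le_sum fun k _ => ?_
    rw [← Finset.mul_sum]
    have h1 := F1_sumJ hu.1 h0 hN k m
    have h2 : 0 ≤ (N ^ k)⁻¹ := by positivity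
    calc (N ^ k)⁻¹ * ∑ j ∈ range (2 * m + 1), F1J u N k (((j : ℝ) - m) / N)
        ≤ (N ^ k)⁻¹ * (2 * ∫ x in (-2 : ℝ)..2, ‖iteratedDeriv k u x‖) := mul_le_mul_of_nonneg_left h1 h2
      _ = 2 * ((N ^ k)⁻¹ * ∫ x in (-2 : ℝ)..2, ‖iteratedDeriv k u x‖) := by ring
  have hS0 : 0 ≤ ∑ k ∈ range (K + 2), (N ^ k)⁻¹ * ∫ x in (-2 : ℝ)..2, ‖iteratedDeriv k u x‖ := by
    refine Finset.sum_nonneg fun k _ => mul_nonneg (by positivity) ?_
    exact intervalIntegral.integral_nonneg (by norm_num) fun x _ => norm_nonneg _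
  have hpow : N ^ (-(1 + σ) / 2) * N = N ^ ((1 - σ) / 2) := by
    have h1 : (1 - σ) / 2 = -(1 + σ) / 2 + 1 := by ring
    rw [h1, Real.rpow_add hN0, Real.rpow_one]
  have hR0 : 0 ≤ N ^ ((1 - σ) / 2) := Real.rpow_nonneg hN0.le _
  set S : ℝ := ∑ k ∈ range (K + 2), (N ^ k)⁻¹ * ∫ x in (-2 : ℝ)..2, ‖iteratedDeriv k u x‖ with hS
  calc ‖T u‖ = ‖∑ j ∈ range (2 * m + 1), T (U j)‖ := by
        rw [← hT.sum _ _ hUTF, ← hsum]
    _ ≤ ∑ j ∈ range (2 * m + 1), ‖T (U j)‖ := norm_sum_le _ _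
    _ ≤ ∑ j ∈ range (2 * m + 1), |C1| * N ^ (-(1 + σ) / 2) *
      (2 ^ K * D * (2 * N * ∑ k ∈ range (K + 2), (N ^ k)⁻¹ * F1J u N k (((j : ℝ) - m) / N))) := Finset.sum_le_sum hTU
    _ = (|C1| * (2 ^ K * D * 2)) * (N ^ (-(1 + σ) / 2) * N) *
        ∑ j ∈ range (2 * m + 1), ∑ k ∈ range (K + 2), (N ^ k)⁻¹ * F1J u N k (((j : ℝ) - m) / N) := by
        rw [← Finset.mul_sum, ← Finset.mul_sum, ← Finset.mul_sum]
        ring
    _ ≤ (|C1| * (2 ^ K * D * 2)) * N ^ ((1 - σ) / 2) * (2 * S) := by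
        rw [hpow]
        refine mul_le_mul_of_nonneg_left hfin ?_
        positivity
    _ = (|C1| * (2 ^ K * D * 4)) * N ^ ((1 - σ) / 2) * S := by ring
    _ ≤ (|C1| * (2 ^ K * D * 4) + 1) * N ^ ((1 - σ) / 2) * S := by
        refine mul_le_mul_of_nonneg_right (mul_le_mul_of_nonneg_right (by linarith) hR0) hS0

end MPku
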