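import Pool.Agent.Lib.MP_7b255b_ntU.Ph

/-!
# F2: the derivatives of the vectors in a chart

JOB F2. `vf χ s h n x = χ x * (Qh h x)^(-(1+s)/2) * En h n x`, `En' = i (n / Qh) En` (`En_deriv`).
* Recursion: if `iteratedDeriv k (vf χ s h n) x = N^k A_k x En h n x` then the same for `k + 1` with `A_{k+1} = N⁻¹ A_k' + i (n / N) (Qh)⁻¹ A_k`; `A_0 x = χ x * (Qh h x)^(-(1+s)/2)`.
* Uniform bounds by compactness: parameters `p = (h 0 0, h 0 1, h 1 0, h 1 1, ν, κ) ∈ ℝ^6` (for example `Fin 6 → ℝ` or a product), `ν = n / N ∈ [1, 2]`, `κ = 1 / N ∈ [0, 1]`. Define functions of `(x, p)` recursively: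
  `𝒜 0 (x, p) = χ x * (Q (x, p))^(-(1+s)/2)`, `𝒜 (k+1) = κ ∂_x 𝒜 k + i ν Q⁻¹ 𝒜 k`, `Q (x, p) = (a x + b)^2 + (c x + d)^2`. They are `C^∞` on the open set `U = {Q ≠ 0}` (induction; `∂_x 𝒜 k` is `fderiv (𝒜 k) (x,p) (1, 0)`, smooth on `U`).
  The set of the `(x, p)` with `x ∈ [-2, 2]`, entries at most `R`, `a d - b c = 1`, `ν ∈ [1, 2]`, `κ ∈ [0, 1]` is compact and contained in `U` (`Qh_pos`), so `𝒜 k` and `∂_x 𝒜 k` are bounded on it for `k ≤ K`.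
* `A_k x = 𝒜 k (x, p)` is `C^1` (even `C^∞`) in `x`; for `|x| > 2` it vanishes (`χ` and all its derivatives vanish there: by the recursion, or because `A_k = N^(-k) iteratedDeriv k (vf ..) / En`), and so does its derivative
  (open set), so the bounds hold for all `x`.
-/

set_option autoImplicit false

namespace MPku

open MPkt

private abbrev F2E := ℝ × (Fin 6 → ℝ)

private def F2Q (q : F2E) : ℝ := (q.2 0 * q.1 + q.2 1) ^ 2 + (q.2 2 * q.1 + q.2 3) ^ 2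

private noncomputable def F2A (χ : ℝ → ℂ) (s : ℂ) : ℕ → F2E → ℂ
  | 0 => fun q => χ q.1 * Complex.exp (((Real.log (F2Q q) : ℝ) : ℂ) * (-(1 + s) / 2))
  | k + 1 => fun q => ((q.2 5 : ℝ) : ℂ) * fderiv ℝ (F2A χ s k) q (1, 0) + Complex.I * ((q.2 4 : ℝ) : ℂ) * (((F2Q q)⁻¹ : ℝ) : ℂ) * F2A χ s k q

private def F2U : Set F2E := {q | F2Q q ≠ 0}

private theorem F2Q_smooth : ContDiff ℝ ((⊤ : ℕ∞) : WithTop ℕ∞) F2Q := by
  unfold F2Q
  fun_prop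

private theorem F2U_open : IsOpen F2U := isOpen_ne_fun F2Q_smooth.continuous continuous_const

private theorem F2A_smooth {χ : ℝ → ℂ} (hχ : TF χ) (s : ℂ) (k : ℕ) : ContDiffOn ℝ ((⊤ : ℕ∞) : WithTop ℕ∞) (F2A χ s k) F2U := by
  have hof : ContDiff ℝ ((⊤ : ℕ∞) : WithTop ℕ∞) fun x : ℝ => (x : ℂ) := Complex.ofRealCLM.contDiff
  induction k with
  | zero =>
    have h1 : ContDiffOn ℝ ((⊤ : ℕ∞) : WithTop ℕ∞) (fun q : F2E => ((Real.log (F2Q q) : ℝ) : ℂ) * (-(1 + s) / 2)) F2U :=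
      (hof.comp_contDiffOn (F2Q_smooth.contDiffOn.log fun q hq => hq)).mul contDiffOn_const
    have h2 : ContDiffOn ℝ ((⊤ : ℕ∞) : WithTop ℕ∞) (fun q : F2E => χ q.1) F2U := (hχ.1.comp contDiff_fst).contDiffOn
    exact h2.mul h1.cexp
  | succ k ih =>
    have h1 : ContDiffOn ℝ ((⊤ : ℕ∞) : WithTop ℕ∞) (fun q : F2E => fderiv ℝ (F2A χ s k) q (1, 0)) F2U :=
      (ih.fderiv_of_isOpen F2U_open (by simp)).clm_apply contDiffOn_const
    have h2 : ContDiff ℝ ((⊤ : ℕ∞) : WithTop ℕ∞) (fun q : F2E => ((q.2 5 : ℝ) : ℂ)) := hof.comp (by fun_prop)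
    have h3 : ContDiff ℝ ((⊤ : ℕ∞) : WithTop ℕ∞) (fun q : F2E => ((q.2 4 : ℝ) : ℂ)) := hof.comp (by fun_prop)
    have h4 : ContDiffOn ℝ ((⊤ : ℕ∞) : WithTop ℕ∞) (fun q : F2E => (((F2Q q)⁻¹ : ℝ) : ℂ)) F2U :=
      hof.comp_contDiffOn (F2Q_smooth.contDiffOn.inv fun q hq => hq)
    exact (h2.contDiffOn.mul h1).add (((contDiffOn_const.mul h3.contDiffOn).mul h4).mul ih)

private theorem F2A_zero {χ : ℝ → ℂ} (hs : ∀ x, 2 < |x| → χ x = 0) (s : ℂ) (k : ℕ) :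
    ∀ q : F2E, 2 < |q.1| → F2A χ s k q = 0 ∧ fderiv ℝ (F2A χ s k) q (1, 0) = 0 := by
  have hopen : IsOpen {q : F2E | 2 < |q.1|} := isOpen_lt continuous_const (continuous_fst.abs)
  have key : ∀ f : F2E → ℂ, (∀ q : F2E, 2 < |q.1| → f q = 0) → ∀ q : F2E, 2 < |q.1| → f q = 0 ∧ fderiv ℝ f q (1, 0) = 0 := by
    intro f hf q hq
    refine ⟨hf q hq, ?_⟩
    have h1 : f =ᶠ[nhds q] fun _ => (0 : ℂ) := by
      filter_upwards [hopen.mem_nhds hq] with r hr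
      exact hf r hr
    rw [h1.fderiv_eq]
    simp
  induction k with
  | zero =>
    refine key _ fun q hq => ?_
    unfold F2A
    rw [hs _ hq, zero_mul]
  | succ k ih =>
    refine key _ fun q hq => ?_
    unfold F2A
    rw [(ih q hq).1, (ih q hq).2, mul_zero, mul_zero, add_zero]

private def F2K (R : ℝ) : Set F2E := {q | q.1 ∈ Set.Icc (-2 : ℝ) 2 ∧ (q.2 0 ∈ Set.Icc (-R) R ∧ q.2 1 ∈ Set.Icc (-R) R ∧ q.2 2 ∈ Set.Icc (-R) R ∧
  q.2 3 ∈ Set.Icc (-R) R ∧ q.2 4 ∈ Set.Icc (1 : ℝ) 2 ∧ q.2 5 ∈ Set.Icc (0 : ℝ) 1) ∧ q.2 0 * q.2 3 - q.2 1 * q.2 2 = 1}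

private theorem F2K_compact (R : ℝ) : IsCompact (F2K R) := by
  let lo : Fin 6 → ℝ := ![-R, -R, -R, -R, 1, 0]
  let hi : Fin 6 → ℝ := ![R, R, R, R, 2, 1]
  have hbox : IsCompact (Set.Icc (-2 : ℝ) 2 ×ˢ Set.pi Set.univ fun i : Fin 6 => Set.Icc (lo i) (hi i)) :=
    isCompact_Icc.prod (isCompact_univ_pi fun i => isCompact_Icc)
  refine hbox.of_isClosed_subset ?_ ?_
  · have hset : F2K R = {q : F2E | q.1 ∈ Set.Icc (-2 : ℝ) 2} ∩ ({q : F2E | q.2 0 ∈ Set.Icc (-R) R} ∩ ({q : F2E | q.2 1 ∈ Set.Icc (-R) R} ∩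
        ({q : F2E | q.2 2 ∈ Set.Icc (-R) R} ∩ ({q : F2E | q.2 3 ∈ Set.Icc (-R) R} ∩ ({q : F2E | q.2 4 ∈ Set.Icc (1 : ℝ) 2} ∩
        {q : F2E | q.2 5 ∈ Set.Icc (0 : ℝ) 1}))))) ∩ {q : F2E | q.2 0 * q.2 3 - q.2 1 * q.2 2 = 1} := by
      ext q
      simp only [F2K, Set.mem_ofPred_eq, Set.mem_inter_iff]
      tauto
    rw [hset]
    refine ((isClosed_Icc.preimage continuous_fst).inter ?_).inter ?_
    · refine (isClosed_Icc.preimage (by fun_prop)).inter ((isClosed_Icc.preimage (by fun_prop)).inter ((isClosed_Icc.preimage (by fun_prop)).inter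
        ((isClosed_Icc.preimage (by fun_prop)).inter ((isClosed_Icc.preimage (by fun_prop)).inter (isClosed_Icc.preimage (by fun_prop))))))
    · exact isClosed_eq (by fun_prop) continuous_const
  · rintro q ⟨h0, ⟨h1, h2, h3, h4, h5, h6⟩, -⟩
    refine ⟨h0, fun i _ => ?_⟩
    fin_cases i
    · exact h1
    · exact h2
    · exact h3
    · exact h4
    · exact h5
    · exact h6

private theorem F2Q_ne {q : F2E} (h : q.2 0 * q.2 3 - q.2 1 * q.2 2 = 1) : q ∈ F2U := by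
  intro h0
  unfold F2Q at h0
  have h1 : q.2 0 * q.1 + q.2 1 = 0 := by nlinarith [sq_nonneg (q.2 0 * q.1 + q.2 1), sq_nonneg (q.2 2 * q.1 + q.2 3)]
  have h2 : q.2 2 * q.1 + q.2 3 = 0 := by nlinarith [sq_nonneg (q.2 0 * q.1 + q.2 1), sq_nonneg (q.2 2 * q.1 + q.2 3)]
  have h3 : (1 : ℝ) = 0 := by
    rw [← h]
    linear_combination (q.2 0) * h2 - (q.2 2) * h1
  exact one_ne_zero h3

private theorem F2A_bound {χ : ℝ → ℂ} (hχ : TF χ) (s : ℂ) (R : ℝ) (k : ℕ) : ∃ C : ℝ, 0 ≤ C ∧ ∀ q ∈ F2K R,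
    ‖F2A χ s k q‖ ≤ C ∧ ‖fderiv ℝ (F2A χ s k) q (1, 0)‖ ≤ C := by
  have hsub : F2K R ⊆ F2U := fun q hq => F2Q_ne hq.2.2
  have h1 : ContinuousOn (F2A χ s k) (F2K R) := (F2A_smooth hχ s k).continuousOn.mono hsub
  have h2 : ContinuousOn (fun q : F2E => fderiv ℝ (F2A χ s k) q (1, 0)) (F2K R) := by
    have h : ContDiffOn ℝ ((⊤ : ℕ∞) : WithTop ℕ∞) (fun q : F2E => fderiv ℝ (F2A χ s k) q (1, 0)) F2U :=
      ((F2A_smooth hχ s k).fderiv_of_isOpen F2U_open (by simp)).clm_apply contDiffOn_const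
    exact h.continuousOn.mono hsub
  obtain ⟨C1, hC1⟩ := (F2K_compact R).exists_bound_of_continuousOn h1
  obtain ⟨C2, hC2⟩ := (F2K_compact R).exists_bound_of_continuousOn h2
  exact ⟨max 0 (max C1 C2), le_max_left _ _, fun q hq => ⟨(hC1 q hq).trans ((le_max_left _ _).trans (le_max_right _ _)),
    (hC2 q hq).trans ((le_max_right _ _).trans (le_max_right _ _))⟩⟩

/-- The parameters of a matrix. -/
private noncomputable def F2p (h : G) (ν κ : ℝ) : Fin 6 → ℝ := ![h 0 0, h 0 1, h 1 0, h 1 1, ν, κ]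

private theorem F2p_det (h : G) (ν κ : ℝ) : F2p h ν κ 0 * F2p h ν κ 3 - F2p h ν κ 1 * F2p h ν κ 2 = 1 := det_eq h

private theorem F2p_Q (h : G) (ν κ x : ℝ) : F2Q (x, F2p h ν κ) = Qh h x := rfl

private theorem F2a_deriv {χ : ℝ → ℂ} (hχ : TF χ) (s : ℂ) (k : ℕ) (h : G) (ν κ x : ℝ) :
    HasDerivAt (fun x => F2A χ s k (x, F2p h ν κ)) (fderiv ℝ (F2A χ s k) (x, F2p h ν κ) (1, 0)) x := by
  have hq : (x, F2p h ν κ) ∈ F2U := F2Q_ne (F2p_det h ν κ)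
  have h1 : DifferentiableAt ℝ (F2A χ s k) (x, F2p h ν κ) :=
    ((F2A_smooth hχ s k).contDiffAt (F2U_open.mem_nhds hq)).differentiableAt (by simp)
  have h2 : HasDerivAt (fun x : ℝ => ((x, F2p h ν κ) : F2E)) (1, 0) x := (hasDerivAt_id x).prodMk (hasDerivAt_const x _)
  exact h1.hasFDerivAt.comp_hasDerivAt x h2

private theorem F2a_smooth {χ : ℝ → ℂ} (hχ : TF χ) (s : ℂ) (k : ℕ) (h : G) (ν κ : ℝ) :
    ContDiff ℝ ((⊤ : ℕ∞) : WithTop ℕ∞) (fun x => F2A χ s k (x, F2p h ν κ)) := by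
  have h1 : ContDiff ℝ ((⊤ : ℕ∞) : WithTop ℕ∞) (fun x : ℝ => ((x, F2p h ν κ) : F2E)) := by fun_prop
  rw [← contDiffOn_univ] at h1 ⊢
  exact (F2A_smooth hχ s k).comp h1 fun x _ => F2Q_ne (F2p_det h ν κ)

private theorem F2vf {χ : ℝ → ℂ} (s : ℂ) (h : G) (n : ℕ) (ν κ x : ℝ) : vf χ s h n x = F2A χ s 0 (x, F2p h ν κ) * En h n x := by
  unfold vf F2A
  have hq := Qh_pos h x
  rw [F2p_Q, Complex.cpow_def_of_ne_zero (by exact_mod_cast hq.ne'), Complex.ofReal_log hq.le]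

private theorem F2zt_ne (h : G) (x : ℝ) : zt h x ≠ 0 := by
  intro h0
  have h1 := zt_sq h x
  rw [h0, norm_zero] at h1
  have h2 := Qh_pos h x
  norm_num at h1
  linarith

private theorem F2En_smooth (h : G) (n : ℕ) : ContDiff ℝ ((⊤ : ℕ∞) : WithTop ℕ∞) (En h n) := by
  have hof : ContDiff ℝ ((⊤ : ℕ∞) : WithTop ℕ∞) fun x : ℝ => (x : ℂ) := Complex.ofRealCLM.contDiff
  have h1 : ContDiff ℝ ((⊤ : ℕ∞) : WithTop ℕ∞) (zt h) := by
    have ha : ContDiff ℝ ((⊤ : ℕ∞) : WithTop ℕ∞) fun x : ℝ => ((h 0 0 * x + h 0 1 : ℝ) : ℂ) := hof.comp (by fun_prop)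
    have hb : ContDiff ℝ ((⊤ : ℕ∞) : WithTop ℕ∞) fun x : ℝ => ((h 1 0 * x + h 1 1 : ℝ) : ℂ) := hof.comp (by fun_prop)
    exact ha.sub (hb.mul contDiff_const)
  have h2 : ContDiff ℝ ((⊤ : ℕ∞) : WithTop ℕ∞) fun x => ((‖zt h x‖ : ℝ) : ℂ) := hof.comp (h1.norm ℝ (F2zt_ne h))
  have h3 : ∀ x, ((‖zt h x‖ : ℝ) : ℂ) ≠ 0 := fun x => by
    exact_mod_cast (norm_pos_iff.2 (F2zt_ne h x)).ne'
  exact (h1.mul (h2.inv h3)).pow n

theorem vf_TF {χ : ℝ → ℂ} (hχ : TF χ) (s : ℂ) (h : G) (n : ℕ) : TF (vf χ s h n) := by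
  constructor
  · have h1 : vf χ s h n = fun x => F2A χ s 0 (x, F2p h 0 0) * En h n x := funext fun x => F2vf s h n 0 0 x
    rw [h1]
    exact (F2a_smooth hχ s 0 h 0 0).mul (F2En_smooth h n)
  · have h1 : vf χ s h n = χ * (fun x => ((Qh h x : ℝ) : ℂ) ^ (-(1 + s) / 2) * En h n x) := by
      funext x
      simp only [vf, Pi.mul_apply]
      ring
    rw [h1]
    exact hχ.2.mul_right

private theorem F2iter {χ : ℝ → ℂ} (hχ : TF χ) (s : ℂ) (N n : ℕ) (hN : 1 ≤ N) (h : G) (k : ℕ) : ∀ x,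
    iteratedDeriv k (vf χ s h n) x = (N : ℂ) ^ k * (F2A χ s k (x, F2p h (n / N) (1 / N)) * En h n x) := by
  have hN' : (N : ℂ) ≠ 0 := by exact_mod_cast (by omega : N ≠ 0)
  induction k with
  | zero =>
    intro x
    rw [iteratedDeriv_zero, pow_zero, one_mul]
    exact F2vf s h n _ _ x
  | succ k ih =>
    intro x
    rw [iteratedDeriv_succ, funext ih]
    have h1 := ((F2a_deriv hχ s k h (n / N) (1 / N) x).mul (En_deriv h n x)).const_mul ((N : ℂ) ^ k)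
    have h1' : deriv (fun x => (N : ℂ) ^ k * (F2A χ s k (x, F2p h (n / N) (1 / N)) * En h n x)) x = _ := h1.deriv
    rw [h1']
    have h2 : F2A χ s (k + 1) (x, F2p h (n / N) (1 / N)) = (((1 / N : ℝ)) : ℂ) * fderiv ℝ (F2A χ s k) (x, F2p h (n / N) (1 / N)) (1, 0) +
        Complex.I * (((n / N : ℝ)) : ℂ) * (((Qh h x)⁻¹ : ℝ) : ℂ) * F2A χ s k (x, F2p h (n / N) (1 / N)) := rfl
    rw [h2]
    push_cast
    field_simp
    ring

theorem amp_bound {χ : ℝ → ℂ} (hχ : TF χ) (hs : ∀ x, 2 < |x| → χ x = 0) (s : ℂ) (R : ℝ) (K : ℕ) : ∃ C0 : ℝ, 1 ≤ C0 ∧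
    ∀ (N n : ℕ) (h : G), 1 ≤ N → N ≤ n → n < 2 * N → Ent R h → ∀ k ≤ K, ∃ A : ℝ → ℂ, Amp C0 A ∧
      ∀ x, iteratedDeriv k (vf χ s h n) x = (N : ℂ) ^ k * (A x * En h n x) := by
  choose C hC0 hC using fun k => F2A_bound hχ s R k
  have hsum : ∀ k ≤ K, C k ≤ 1 + ∑ j ∈ Finset.range (K + 1), C j := fun k hk => by
    have := Finset.single_le_sum (f := C) (fun j _ => hC0 j) (Finset.mem_range.2 (Nat.lt_succ_of_le hk))
    linarith
  refine ⟨1 + ∑ j ∈ Finset.range (K + 1), C j, ?_, ?_⟩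
  · have := Finset.sum_nonneg (s := Finset.range (K + 1)) (f := C) fun j _ => hC0 j
    linarith
  intro N n h hN hNn hn2 hE k hk
  have hNr : (0 : ℝ) < N := by exact_mod_cast hN
  have hNn' : (N : ℝ) ≤ n := by exact_mod_cast hNn
  have hn2' : (n : ℝ) < 2 * N := by exact_mod_cast hn2
  have hmem : ∀ x ∈ Set.Icc (-2 : ℝ) 2, (x, F2p h (n / N) (1 / N)) ∈ F2K R := by
    intro x hx
    refine ⟨hx, ⟨abs_le.1 (hE 0 0), abs_le.1 (hE 0 1), abs_le.1 (hE 1 0), abs_le.1 (hE 1 1), ⟨?_, ?_⟩, ⟨?_, ?_⟩⟩, F2p_det h (n / N) (1 / N)⟩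
    · exact (one_le_div hNr).2 hNn'
    · exact (div_le_iff₀ hNr).2 hn2'.le
    · exact (by positivity : (0 : ℝ) ≤ 1 / N)
    · exact (div_le_one hNr).2 (by exact_mod_cast hN)
  have hall : ∀ x : ℝ, ‖F2A χ s k (x, F2p h (n / N) (1 / N))‖ ≤ 1 + ∑ j ∈ Finset.range (K + 1), C j ∧
      ‖fderiv ℝ (F2A χ s k) (x, F2p h (n / N) (1 / N)) (1, 0)‖ ≤ 1 + ∑ j ∈ Finset.range (K + 1), C j := by
    intro x
    by_cases hx : |x| ≤ 2
    · have h1 := hC k _ (hmem x (abs_le.1 hx))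
      exact ⟨h1.1.trans (hsum k hk), h1.2.trans (hsum k hk)⟩
    · have h1 := F2A_zero hs s k (x, F2p h (n / N) (1 / N)) (lt_of_not_ge hx)
      have h2 : (0 : ℝ) ≤ 1 + ∑ j ∈ Finset.range (K + 1), C j := by
        have := Finset.sum_nonneg (s := Finset.range (K + 1)) (f := C) fun j _ => hC0 j
        linarith
      rw [h1.1, h1.2, norm_zero]
      exact ⟨h2, h2⟩
  refine ⟨fun x => F2A χ s k (x, F2p h (n / N) (1 / N)), ⟨(F2a_smooth hχ s k h _ _).of_le (by exact_mod_cast le_top), fun x => (hall x).1,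
    fun x => ?_⟩, F2iter hχ s N n hN h k⟩
  rw [(F2a_deriv hχ s k h (n / N) (1 / N) x).deriv]
  exact (hall x).2

end MPku
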