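import Pool.Agent.Lib.MP_7b255b_ntU.D

/-!
# L0: from the L^1 norm to the L^2 norms on the arcs

JOB L0.
* `arc J 0 = -2`, `arc J J = 2`, `arc J (j+1) - arc J j = 4 / J`: `∫_{-2}^{2} ‖F‖ = ∑_{j < J} ∫_{arc j}^{arc (j+1)} ‖F‖` (`intervalIntegral.sum_integral_adjacent_intervals`).
* Cauchy-Schwarz on an arc: `∫_{a}^{b} ‖F‖ ≤ √(b - a) √(∫ ‖F‖^2)` (for continuous `F` on `[a, b]`: for example from `0 ≤ ∫ (‖F‖ - c)^2`, `c` the mean value).
* `√(g j + ∑ y c j) ≤ √(g j) + ∑_c √(y c j)` (`Real.sqrt_add_le..`, induction), and by Cauchy-Schwarz for sums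
  `∑_{j<J} √(4/J) √(g j) ≤ √4 √(∑ g j)`, `∑_{j ∈ S c} √(4/J) √(y c j) ≤ √(4 |S c| / J) √(∑_{j<J} y c j)`.
-/

set_option autoImplicit false

namespace MPku

open Finset

private theorem L0_arc_zero (J : ℕ) : arc J 0 = -2 := by
  unfold arc
  simp

private theorem L0_arc_top (J : ℕ) (hJ : 1 ≤ J) : arc J J = 2 := by
  unfold arc
  have h : (J : ℝ) ≠ 0 := by positivity
  field_simp
  norm_num

private theorem L0_arc_mono (J : ℕ) {i j : ℕ} (hij : i ≤ j) : arc J i ≤ arc J j := by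
  unfold arc
  have h : (i : ℝ) ≤ j := by exact_mod_cast hij
  have h2 : (0 : ℝ) ≤ J := Nat.cast_nonneg J
  have h3 : 4 * (i : ℝ) / J ≤ 4 * (j : ℝ) / J := div_le_div_of_nonneg_right (by linarith) h2
  linarith

private theorem L0_arc_sub (J j : ℕ) : arc J (j + 1) - arc J j = 4 / J := by
  unfold arc
  push_cast
  ring

private theorem L0_cs {f : ℝ → ℝ} {a b : ℝ} (hab : a < b) (hf : ContinuousOn f (Set.Icc a b)) :
    ∫ x in a..b, f x ≤ Real.sqrt (b - a) * Real.sqrt (∫ x in a..b, f x ^ 2) := by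
  have hf' : ContinuousOn f (Set.uIcc a b) := by rwa [Set.uIcc_of_le hab.le]
  have hi : IntervalIntegrable f MeasureTheory.volume a b := hf'.intervalIntegrable
  have hi2 : IntervalIntegrable (fun x => f x ^ 2) MeasureTheory.volume a b := (hf'.pow 2).intervalIntegrable
  set I : ℝ := ∫ x in a..b, f x with hI
  set Q : ℝ := ∫ x in a..b, f x ^ 2 with hQ
  have hba : 0 < b - a := sub_pos.2 hab
  have h1 : 0 ≤ ∫ x in a..b, (f x - I / (b - a)) ^ 2 :=
    intervalIntegral.integral_nonneg hab.le fun x _ => sq_nonneg _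
  have h2 : ∫ x in a..b, (f x - I / (b - a)) ^ 2 = Q - 2 * (I / (b - a)) * I + (I / (b - a)) ^ 2 * (b - a) := by
    have h3 : ∀ x, (f x - I / (b - a)) ^ 2 = (f x ^ 2 - 2 * (I / (b - a)) * f x) + (I / (b - a)) ^ 2 := by
      intro x
      ring
    simp only [h3]
    rw [intervalIntegral.integral_add (hi2.sub (hi.const_mul _)) intervalIntegrable_const,
      intervalIntegral.integral_sub hi2 (hi.const_mul _), intervalIntegral.integral_const_mul,
      intervalIntegral.integral_const, smul_eq_mul]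
    ring
  rw [h2] at h1
  have h4 : I ^ 2 ≤ (b - a) * Q := by
    have h5 : Q - 2 * (I / (b - a)) * I + (I / (b - a)) ^ 2 * (b - a) = Q - I ^ 2 / (b - a) := by
      field_simp
      ring
    rw [h5] at h1
    have h6 : I ^ 2 / (b - a) ≤ Q := by linarith
    rw [div_le_iff₀ hba] at h6
    linarith
  rw [← Real.sqrt_mul hba.le]
  exact Real.le_sqrt_of_sq_le h4

private theorem L0_sqrt_add {a b : ℝ} (ha : 0 ≤ a) (hb : 0 ≤ b) : Real.sqrt (a + b) ≤ Real.sqrt a + Real.sqrt b := by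
  rw [Real.sqrt_le_left (by positivity)]
  have h1 := Real.sq_sqrt ha
  have h2 := Real.sq_sqrt hb
  have h3 : 0 ≤ Real.sqrt a * Real.sqrt b := by positivity
  nlinarith

private theorem L0_sqrt_sum {ι : Type*} (S : Finset ι) (y : ι → ℝ) (hy : ∀ c, 0 ≤ y c) :
    Real.sqrt (∑ c ∈ S, y c) ≤ ∑ c ∈ S, Real.sqrt (y c) := by
  classical
  induction S using Finset.induction_on with
  | empty => simp
  | insert a S ha ih =>
    rw [Finset.sum_insert ha, Finset.sum_insert ha]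
    refine (L0_sqrt_add (hy a) (Finset.sum_nonneg fun c _ => hy c)).trans ?_
    linarith

theorem l1_split {ι : Type*} (J : ℕ) (hJ : 1 ≤ J) (F : ℝ → ℂ) (hF : ContinuousOn F (Set.Icc (-2) 2)) (S : Finset ι) (g : ℕ → ℝ)
    (y : ι → ℕ → ℝ) (near : ι → Finset ℕ) (hg : ∀ j, 0 ≤ g j) (hy : ∀ c j, 0 ≤ y c j) (hy0 : ∀ c j, j ∉ near c → y c j = 0)
    (h : ∀ j < J, ∫ x in (arc J j)..(arc J (j + 1)), ‖F x‖ ^ 2 ≤ g j + ∑ c ∈ S, y c j) :
    ∫ x in (-2 : ℝ)..2, ‖F x‖ ≤ 2 * Real.sqrt (∑ j ∈ range J, g j) +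
      ∑ c ∈ S, Real.sqrt (4 * (near c).card / J) * Real.sqrt (∑ j ∈ range J, y c j) := by
  classical
  have hJ0 : (0 : ℝ) < J := by exact_mod_cast hJ
  have hsub : ∀ j < J, Set.Icc (arc J j) (arc J (j + 1)) ⊆ Set.Icc (-2 : ℝ) 2 := by
    intro j hj x hx
    refine ⟨?_, ?_⟩
    · rw [← L0_arc_zero J]
      exact (L0_arc_mono J (Nat.zero_le j)).trans hx.1
    · rw [← L0_arc_top J hJ]
      exact hx.2.trans (L0_arc_mono J hj)
  have hcont : ∀ j < J, ContinuousOn (fun x => ‖F x‖) (Set.Icc (arc J j) (arc J (j + 1))) := fun j hj =>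
    (hF.mono (hsub j hj)).norm
  have hint : ∀ j < J, IntervalIntegrable (fun x => ‖F x‖) MeasureTheory.volume (arc J j) (arc J (j + 1)) := by
    intro j hj
    refine ContinuousOn.intervalIntegrable ?_
    rw [Set.uIcc_of_le (L0_arc_mono J (Nat.le_succ j))]
    exact hcont j hj
  have h1 : ∫ x in (-2 : ℝ)..2, ‖F x‖ = ∑ j ∈ range J, ∫ x in (arc J j)..(arc J (j + 1)), ‖F x‖ := by
    rw [intervalIntegral.sum_integral_adjacent_intervals (a := arc J) hint, L0_arc_zero, L0_arc_top J hJ]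
  have h2 : ∀ j ∈ range J, ∫ x in (arc J j)..(arc J (j + 1)), ‖F x‖ ≤
      Real.sqrt (4 / J) * Real.sqrt (g j) + ∑ c ∈ S, Real.sqrt (4 / J) * Real.sqrt (y c j) := by
    intro j hj
    have hj' : j < J := Finset.mem_range.1 hj
    have hlt : arc J j < arc J (j + 1) := by
      have h3 := L0_arc_sub J j
      have h4 : (0 : ℝ) < 4 / J := by positivity
      linarith
    refine (L0_cs hlt (hcont j hj')).trans ?_
    rw [L0_arc_sub, ← Finset.mul_sum, ← mul_add]
    refine mul_le_mul_of_nonneg_left ?_ (Real.sqrt_nonneg _)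
    refine (Real.sqrt_le_sqrt (h j hj')).trans ?_
    refine (L0_sqrt_add (hg j) (Finset.sum_nonneg fun c _ => hy c j)).trans ?_
    have h5 := L0_sqrt_sum S (fun c => y c j) (fun c => hy c j)
    linarith
  rw [h1]
  refine (Finset.sum_le_sum h2).trans ?_
  rw [Finset.sum_add_distrib, Finset.sum_comm]
  refine add_le_add ?_ ?_
  · refine (Real.sum_sqrt_mul_sqrt_le (range J) (f := fun _ => 4 / (J : ℝ)) (g := g) (fun _ => by positivity) hg).trans ?_
    refine mul_le_mul_of_nonneg_right (le_of_eq ?_) (Real.sqrt_nonneg _)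
    rw [Finset.sum_const, Finset.card_range, nsmul_eq_mul, mul_div_cancel₀ _ hJ0.ne']
    have h6 : (4 : ℝ) = 2 ^ 2 := by norm_num
    rw [h6, Real.sqrt_sq (by norm_num)]
  · refine Finset.sum_le_sum fun c _ => ?_
    have h3 : ∀ j ∈ range J, Real.sqrt (4 / J) * Real.sqrt (y c j) =
        Real.sqrt (if j ∈ near c then 4 / (J : ℝ) else 0) * Real.sqrt (y c j) := by
      intro j _
      by_cases hj : j ∈ near c
      · rw [if_pos hj]
      · rw [hy0 c j hj, Real.sqrt_zero, mul_zero, mul_zero]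
    rw [Finset.sum_congr rfl h3]
    refine (Real.sum_sqrt_mul_sqrt_le (range J) (f := fun j => if j ∈ near c then 4 / (J : ℝ) else 0) (g := y c) (fun j => ?_)
      (hy c)).trans ?_
    · split_ifs
      · positivity
      · exact le_rfl
    · refine mul_le_mul_of_nonneg_right (Real.sqrt_le_sqrt ?_) (Real.sqrt_nonneg _)
      rw [← Finset.sum_filter, Finset.sum_const, nsmul_eq_mul]
      have h4 : ((range J).filter fun j => j ∈ near c).card ≤ (near c).card :=
        Finset.card_le_card fun j hj => (Finset.mem_filter.1 hj).2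
      have h5 : (((range J).filter fun j => j ∈ near c).card : ℝ) ≤ (near c).card := by exact_mod_cast h4
      have h6 : (0 : ℝ) ≤ 4 / J := by positivity
      calc (((range J).filter fun j => j ∈ near c).card : ℝ) * (4 / J) ≤ (near c).card * (4 / J) :=
            mul_le_mul_of_nonneg_right h5 h6
        _ = 4 * (near c).card / J := by ring

/-- The square of the norm of a sum of functions. -/
theorem sq_norm_sum (B : Finset ℕ) (w : ℕ → ℝ → ℂ) (a b : ℝ) (hab : a ≤ b) (hw : ∀ n ∈ B, ContinuousOn (w n) (Set.Icc a b)) :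
    ∫ x in a..b, ‖∑ n ∈ B, w n x‖ ^ 2 ≤ ∑ n ∈ B, ∑ m ∈ B, ‖∫ x in a..b, w n x * star (w m x)‖ := by
  have hint : ∀ n ∈ B, ∀ m ∈ B, IntervalIntegrable (fun x => w n x * star (w m x)) MeasureTheory.volume a b := by
    intro n hn m hm
    refine ContinuousOn.intervalIntegrable ?_
    rw [Set.uIcc_of_le hab]
    exact (hw n hn).mul (continuous_star.comp_continuousOn (hw m hm))
  have h1 : ∀ x, ((‖∑ n ∈ B, w n x‖ ^ 2 : ℝ) : ℂ) = ∑ n ∈ B, ∑ m ∈ B, w n x * star (w m x) := by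
    intro x
    rw [← Finset.sum_mul_sum, ← star_sum]
    have h2 := RCLike.mul_conj (∑ n ∈ B, w n x)
    push_cast
    exact h2.symm
  have h2 : (((∫ x in a..b, ‖∑ n ∈ B, w n x‖ ^ 2 : ℝ)) : ℂ) = ∑ n ∈ B, ∑ m ∈ B, ∫ x in a..b, w n x * star (w m x) := by
    rw [← intervalIntegral.integral_ofReal]
    simp only [h1]
    rw [intervalIntegral.integral_finsetSum]
    · refine Finset.sum_congr rfl fun n hn => ?_
      rw [intervalIntegral.integral_finsetSum]
      exact fun m hm => hint n hn m hm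
    · intro n hn
      refine ContinuousOn.intervalIntegrable ?_
      rw [Set.uIcc_of_le hab]
      exact continuousOn_finsetSum B fun m hm => (hw n hn).mul (continuous_star.comp_continuousOn (hw m hm))
  calc ∫ x in a..b, ‖∑ n ∈ B, w n x‖ ^ 2 ≤ |∫ x in a..b, ‖∑ n ∈ B, w n x‖ ^ 2| := le_abs_self _
    _ = ‖(((∫ x in a..b, ‖∑ n ∈ B, w n x‖ ^ 2 : ℝ)) : ℂ)‖ := (Complex.norm_real _).symm
    _ = ‖∑ n ∈ B, ∑ m ∈ B, ∫ x in a..b, w n x * star (w m x)‖ := by rw [h2]
    _ ≤ ∑ n ∈ B, ‖∑ m ∈ B, ∫ x in a..b, w n x * star (w m x)‖ := norm_sum_le _ _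
    _ ≤ ∑ n ∈ B, ∑ m ∈ B, ‖∫ x in a..b, w n x * star (w m x)‖ := Finset.sum_le_sum fun n _ => norm_sum_le _ _

end MPku
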