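import Pool.Agent.Lib.MP_7b255b_ntU.L1a
import Pool.Agent.Lib.MP_7b255b_ntU.L0
import Pool.Agent.Lib.MP_7b255b_ntU.Cv

/-!
# Lq: from coverings of the pairs to the L^1 norm

The sum over the pairs `n ≠ m` is divided into the far arcs, the pairs in `P` and the pairs in the cells.
-/

set_option autoImplicit false

namespace MPku

open MPkt Finset
open scoped Classical

private theorem Lq_ite0 {p : Prop} [Decidable p] {a : ℝ} (h : 0 ≤ a) : 0 ≤ (if p then a else 0) := by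
  by_cases hp : p
  · rw [if_pos hp]
    exact h
  · rw [if_neg hp]

private theorem Lq_ite1 {p : Prop} [Decidable p] {a : ℝ} (h : 0 ≤ a) : 0 ≤ (if p then 0 else a) := by
  by_cases hp : p
  · rw [if_pos hp]
  · rw [if_neg hp]
    exact h

/-- The splitting of the sum over the pairs. -/
private theorem Lq_sp {ι : Type} (T : Finset ι) (B : Finset ℕ) (I : ℕ → ℕ → ℕ → ℝ) (hI : ∀ n m j, 0 ≤ I n m j)
    (NJ : ℕ → ℕ → Finset ℕ) (Pn : ℕ → ℕ → Prop) (Cd : ι → ℕ → ℕ → ℕ → Prop)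
    (halt : ∀ n ∈ B, ∀ m ∈ B, n ≠ m → ∀ j ∈ NJ n m, Pn n m ∨ ∃ x ∈ T, Cd x n m j) (j : ℕ) :
    ∑ n ∈ B, ∑ m ∈ B, I n m j ≤ (∑ n ∈ B, I n n j + ∑ n ∈ B, ∑ m ∈ B.erase n,
      ((if j ∈ NJ n m then 0 else I n m j) + (if Pn n m ∧ j ∈ NJ n m then I n m j else 0))) +
      ∑ x ∈ T, ∑ n ∈ B, ∑ m ∈ B.erase n, (if Cd x n m j then I n m j else 0) := by
  have hpt : ∀ n ∈ B, ∀ m ∈ B.erase n, I n m j ≤
      ((if j ∈ NJ n m then 0 else I n m j) + (if Pn n m ∧ j ∈ NJ n m then I n m j else 0)) +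
      ∑ x ∈ T, (if Cd x n m j then I n m j else 0) := by
    intro n hn m hm
    have hm' := mem_erase.1 hm
    have hnm : n ≠ m := fun h => hm'.1 h.symm
    have hnn : ∀ x ∈ T, 0 ≤ (if Cd x n m j then I n m j else 0) := by
      intro x _
      exact Lq_ite0 (hI n m j)
    have hs0 : 0 ≤ ∑ x ∈ T, (if Cd x n m j then I n m j else 0) := sum_nonneg hnn
    have h7 : 0 ≤ (if Pn n m ∧ j ∈ NJ n m then I n m j else 0) := by
      exact Lq_ite0 (hI n m j)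
    by_cases hj : j ∈ NJ n m
    · rw [if_pos hj, zero_add]
      rcases halt n hn m hm'.2 hnm j hj with h1 | ⟨x, hx, hc⟩
      · rw [if_pos (And.intro h1 hj)]
        linarith
      · have h6 : (if Cd x n m j then I n m j else 0) ≤ ∑ x ∈ T, (if Cd x n m j then I n m j else 0) :=
          single_le_sum hnn hx
        rw [if_pos hc] at h6
        linarith
    · rw [if_neg hj]
      linarith
  have h1 : ∑ n ∈ B, ∑ m ∈ B, I n m j = ∑ n ∈ B, I n n j + ∑ n ∈ B, ∑ m ∈ B.erase n, I n m j := by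
    rw [← sum_add_distrib]
    refine sum_congr rfl fun n hn => ?_
    rw [add_sum_erase B (fun m => I n m j) hn]
  have h2 : ∑ x ∈ T, ∑ n ∈ B, ∑ m ∈ B.erase n, (if Cd x n m j then I n m j else 0) =
      ∑ n ∈ B, ∑ m ∈ B.erase n, ∑ x ∈ T, (if Cd x n m j then I n m j else 0) := by
    rw [sum_comm]
    refine sum_congr rfl fun n _ => ?_
    rw [sum_comm]
  rw [h1, h2, add_assoc]
  refine add_le_add (le_refl (∑ n ∈ B, I n n j)) ?_
  rw [← sum_add_distrib]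
  refine sum_le_sum fun n hn => ?_
  rw [← sum_add_distrib]
  exact sum_le_sum fun m hm => hpt n hn m hm

/-- The far arcs. -/
private theorem Lq_far (N : ℕ) (hN : 1 ≤ N) (B : Finset ℕ) (hB : ∀ n ∈ B, N ≤ n ∧ n < 2 * N) (J : ℕ) (I : ℕ → ℕ → ℕ → ℝ)
    (NJ : ℕ → ℕ → Finset ℕ) (A : ℝ) (hA : 0 ≤ A)
    (hfar : ∀ n ∈ B, ∀ m ∈ B, n ≠ m → ∑ j ∈ range J \ NJ n m, I n m j ≤ A * (1 / |(n : ℝ) - m|)) :
    ∑ n ∈ B, ∑ m ∈ B.erase n, ∑ j ∈ range J, (if j ∈ NJ n m then 0 else I n m j) ≤ B.card * (A * (2 * (1 + Real.log N))) := by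
  have h1 : ∀ n ∈ B, ∑ m ∈ B.erase n, ∑ j ∈ range J, (if j ∈ NJ n m then 0 else I n m j) ≤ A * (2 * (1 + Real.log N)) := by
    intro n hn
    have h2 : ∀ m ∈ B.erase n, ∑ j ∈ range J, (if j ∈ NJ n m then 0 else I n m j) ≤ A * (1 / |(n : ℝ) - m|) := by
      intro m hm
      have hm' := mem_erase.1 hm
      have hnm : n ≠ m := fun h => hm'.1 h.symm
      have h3 : ∑ j ∈ range J, (if j ∈ NJ n m then 0 else I n m j) = ∑ j ∈ range J \ NJ n m, I n m j := by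
        rw [sdiff_eq_filter, sum_filter]
        refine sum_congr rfl fun j _ => ?_
        by_cases hj : j ∈ NJ n m
        · rw [if_pos hj, if_neg (not_not.2 hj)]
        · rw [if_neg hj, if_pos hj]
      rw [h3]
      exact hfar n hn m hm'.2 hnm
    refine (sum_le_sum h2).trans ?_
    rw [← mul_sum]
    exact mul_le_mul_of_nonneg_left (rec_sum N hN B hB n hn) hA
  have h5 := sum_le_card_nsmul B _ _ h1
  rw [nsmul_eq_mul] at h5
  exact h5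

/-- The pairs in a set. -/
private theorem Lq_set (A : ℝ) (hA : 0 ≤ A) (B : Finset ℕ) (J : ℕ) (I : ℕ → ℕ → ℕ → ℝ) (hI : ∀ n m j, 0 ≤ I n m j)
    (NJ : ℕ → ℕ → Finset ℕ) (wt : ℕ → ℕ → ℝ) (hwt : ∀ n m, 0 ≤ wt n m) (Q : Finset (ℕ × ℕ)) (Cd : ℕ → ℕ → ℕ → Prop)
    (h1 : ∀ n m j, Cd n m j → (n, m) ∈ Q ∧ j ∈ NJ n m)
    (hnear : ∀ n ∈ B, ∀ m ∈ B, n ≠ m → ∑ j ∈ NJ n m, I n m j ≤ A * wt n m) :
    ∑ n ∈ B, ∑ m ∈ B.erase n, ∑ j ∈ range J, (if Cd n m j then I n m j else 0) ≤ A * ∑ q ∈ Q, wt q.1 q.2 := by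
  have h3 : ∀ n ∈ B, ∀ m ∈ B.erase n, ∑ j ∈ range J, (if Cd n m j then I n m j else 0) ≤
      (if (n, m) ∈ Q then A * wt n m else 0) := by
    intro n hn m hm
    have hm' := mem_erase.1 hm
    have hnm : n ≠ m := fun h => hm'.1 h.symm
    by_cases hc : ∃ j, Cd n m j
    · obtain ⟨j0, hj0⟩ := hc
      rw [if_pos (h1 n m j0 hj0).1]
      refine le_trans ?_ (hnear n hn m hm'.2 hnm)
      rw [← sum_filter]
      refine sum_le_sum_of_subset_of_nonneg ?_ fun j _ _ => hI n m j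
      intro j hj
      exact (h1 n m j (mem_filter.1 hj).2).2
    · have h4 : ∑ j ∈ range J, (if Cd n m j then I n m j else 0) = 0 :=
        sum_eq_zero fun j _ => if_neg fun h => hc ⟨j, h⟩
      rw [h4]
      exact Lq_ite0 (mul_nonneg hA (hwt n m))
  refine (sum_le_sum fun n hn => sum_le_sum fun m hm => h3 n hn m hm).trans ?_
  have h4 : ∑ n ∈ B, ∑ m ∈ B.erase n, (if (n, m) ∈ Q then A * wt n m else 0) ≤
      ∑ n ∈ B, ∑ m ∈ B, (if (n, m) ∈ Q then A * wt n m else 0) :=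
    sum_le_sum fun n _ => sum_le_sum_of_subset_of_nonneg (erase_subset _ _) fun m _ _ =>
      Lq_ite0 (mul_nonneg hA (hwt n m))
  refine h4.trans ?_
  rw [← sum_product' B B (fun n m => (if (n, m) ∈ Q then A * wt n m else 0)), ← sum_filter, mul_sum]
  refine sum_le_sum_of_subset_of_nonneg ?_ fun q _ _ => mul_nonneg hA (hwt q.1 q.2)
  intro q hq
  exact (mem_filter.1 hq).2

theorem l1_cov (C1 Ca Cp : ℝ) (hCa : 1 ≤ Ca) (hC1 : 1 ≤ C1) (N : ℕ) (hN : 1 ≤ N) (Y : ℝ)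
    (J : ℕ) (hJ1 : 1 ≤ J) (hJ : (J : ℝ) ≤ 2 * Y) (B : Finset ℕ)
    (hB : ∀ n ∈ B, N ≤ n ∧ n < 2 * N) (y : ℕ → T3)
    (hsep : ∀ n ∈ B, ∀ m ∈ B, |(n : ℝ) - m| ≤ C1 * ((N : ℝ) * ‖y n - y m‖)) (F : ℝ → ℂ) (hF : ContinuousOn F (Set.Icc (-2) 2))
    (I : ℕ → ℕ → ℕ → ℝ) (hI : ∀ n m j, 0 ≤ I n m j)
    (hsq : ∀ j < J, ∫ x in (arc J j)..(arc J (j + 1)), ‖F x‖ ^ 2 ≤ ∑ n ∈ B, ∑ m ∈ B, I n m j)
    (hdiag : ∀ n ∈ B, ∑ j ∈ range J, I n n j ≤ 4 * Cp)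
    (NJ : ℕ → ℕ → Finset ℕ) (hcard : ∀ n ∈ B, ∀ m ∈ B, n ≠ m → (NJ n m).card ≤ 8)
    (hfar : ∀ n ∈ B, ∀ m ∈ B, n ≠ m → ∑ j ∈ range J \ NJ n m, I n m j ≤ Ca * (J : ℝ) ^ 2 / (N * ‖y n - y m‖))
    (hNJ : ∀ n ∈ B, ∀ m ∈ B, n ≠ m → NJ n m ⊆ range J) (wt : ℕ → ℕ → ℝ) (hwt : ∀ n m, 0 ≤ wt n m)
    (hlev : ∀ n ∈ B, ∀ m ∈ B, n ≠ m → ∀ j < J, I n m j ≤ Ca * wt n m) (α β : ℝ)
    (hcov : Cov J NJ wt (fun n m => n ∈ B ∧ m ∈ B ∧ n ≠ m ∧ (NJ n m).Nonempty) α β) :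
    ∫ x in (-2 : ℝ)..2, ‖F x‖ ≤
      2 * Real.sqrt (B.card * (4 * Cp) + B.card * (Ca * (4 * Y ^ 2) * C1 * (2 * (1 + Real.log N))) + 8 * Ca * α) + 3 * Ca * β := by
  obtain ⟨P, L, hP, hL, hal0⟩ := hcov
  have hCa0 : 0 ≤ Ca := by linarith
  -- sums over the near arcs
  have hnear : ∀ n ∈ B, ∀ m ∈ B, n ≠ m → ∑ j ∈ NJ n m, I n m j ≤ 8 * Ca * wt n m := by
    intro n hn m hm hnm
    have h1 : ∀ j ∈ NJ n m, I n m j ≤ Ca * wt n m := fun j hj =>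
      hlev n hn m hm hnm j (mem_range.1 (hNJ n hn m hm hnm hj))
    have h2 := sum_le_card_nsmul _ _ _ h1
    rw [nsmul_eq_mul] at h2
    have h3 : ((NJ n m).card : ℝ) ≤ 8 := by exact_mod_cast hcard n hn m hm hnm
    calc ∑ j ∈ NJ n m, I n m j ≤ (NJ n m).card * (Ca * wt n m) := h2
      _ ≤ 8 * (Ca * wt n m) := mul_le_mul_of_nonneg_right h3 (mul_nonneg hCa0 (hwt n m))
      _ = 8 * Ca * wt n m := by ring
  obtain ⟨Cd, hCd⟩ : ∃ Cd : Fin L.length → ℕ → ℕ → ℕ → Prop, ∀ x n m j, Cd x n m j ↔ ((n, m) ∈ (L[x.1]).1 ∧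
      NJ n m ⊆ (L[x.1]).2 ∧ j ∈ NJ n m) := ⟨_, fun _ _ _ _ => Iff.rfl⟩
  obtain ⟨Pn, hPn⟩ : ∃ Pn : ℕ → ℕ → Prop, ∀ n m, Pn n m ↔ (n, m) ∈ P := ⟨_, fun _ _ => Iff.rfl⟩
  have hal : ∀ n ∈ B, ∀ m ∈ B, n ≠ m → ∀ j ∈ NJ n m, Pn n m ∨ ∃ x ∈ (univ : Finset (Fin L.length)), Cd x n m j := by
    intro n hn m hm hnm j hj
    rcases hal0 n m ⟨hn, hm, hnm, ⟨j, hj⟩⟩ with h1 | ⟨x, hx, h1, h2⟩
    · exact Or.inl ((hPn n m).2 h1)
    · obtain ⟨i, hi, rfl⟩ := List.getElem_of_mem hx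
      refine Or.inr ⟨⟨i, hi⟩, mem_univ _, ?_⟩
      rw [hCd]
      exact ⟨h1, h2, hj⟩
  obtain ⟨g, hg⟩ : ∃ g : ℕ → ℝ, ∀ j, g j = ∑ n ∈ B, I n n j + ∑ n ∈ B, ∑ m ∈ B.erase n,
      ((if j ∈ NJ n m then 0 else I n m j) + (if Pn n m ∧ j ∈ NJ n m then I n m j else 0)) :=
    ⟨_, fun _ => rfl⟩
  obtain ⟨yy, hyy⟩ : ∃ yy : Fin L.length → ℕ → ℝ, ∀ x j, yy x j = ∑ n ∈ B, ∑ m ∈ B.erase n,
      (if Cd x n m j then I n m j else 0) := ⟨_, fun _ _ => rfl⟩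
  have hg0 : ∀ j, 0 ≤ g j := by
    intro j
    rw [hg]
    exact add_nonneg (sum_nonneg fun n _ => hI n n j) (sum_nonneg fun n _ => sum_nonneg fun m _ =>
      add_nonneg (Lq_ite1 (hI n m j)) (Lq_ite0 (hI n m j)))
  have hyy0 : ∀ x j, 0 ≤ yy x j := by
    intro x j
    rw [hyy]
    exact sum_nonneg fun n _ => sum_nonneg fun m _ => Lq_ite0 (hI n m j)
  have hyn : ∀ (x : Fin L.length) (j : ℕ), j ∉ (L[x.1]).2 → yy x j = 0 := by
    intro x j hj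
    rw [hyy]
    refine sum_eq_zero fun n _ => sum_eq_zero fun m _ => ?_
    rw [if_neg]
    rw [hCd]
    rintro ⟨_, h1, h2⟩
    exact hj (h1 h2)
  have hmain : ∀ j < J, ∫ x in (arc J j)..(arc J (j + 1)), ‖F x‖ ^ 2 ≤ g j + ∑ x ∈ (univ : Finset (Fin L.length)), yy x j := by
    intro j hj
    refine (hsq j hj).trans ?_
    have h1 := Lq_sp (univ : Finset (Fin L.length)) B I hI NJ Pn Cd hal j
    have h2 : ∑ x ∈ (univ : Finset (Fin L.length)), yy x j = ∑ x ∈ (univ : Finset (Fin L.length)), ∑ n ∈ B,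
        ∑ m ∈ B.erase n, (if Cd x n m j then I n m j else 0) :=
      sum_congr rfl fun x _ => hyy x j
    rw [hg, h2]
    exact h1
  have hsplit := l1_split J hJ1 F hF (univ : Finset (Fin L.length)) g yy (fun x => (L[x.1]).2) hg0 hyy0 hyn hmain
  -- the good part
  have hJ0 : (0 : ℝ) ≤ J := Nat.cast_nonneg _
  have hJsq : (J : ℝ) ^ 2 ≤ 4 * Y ^ 2 := by
    have h1 : (J : ℝ) ^ 2 ≤ (2 * Y) ^ 2 := pow_le_pow_left₀ hJ0 hJ 2
    have h2 : (2 * Y) ^ 2 = 4 * Y ^ 2 := by ring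
    linarith
  have hgood : ∑ j ∈ range J, g j ≤ B.card * (4 * Cp) + B.card * (Ca * (4 * Y ^ 2) * C1 * (2 * (1 + Real.log N))) +
      8 * Ca * α := by
    have e1 : ∑ j ∈ range J, g j = ∑ n ∈ B, ∑ j ∈ range J, I n n j + (∑ n ∈ B, ∑ m ∈ B.erase n, ∑ j ∈ range J,
        (if j ∈ NJ n m then 0 else I n m j) + ∑ n ∈ B, ∑ m ∈ B.erase n, ∑ j ∈ range J,
        (if Pn n m ∧ j ∈ NJ n m then I n m j else 0)) := by
      rw [sum_congr rfl fun j _ => hg j, sum_add_distrib, sum_comm, ← sum_add_distrib, add_right_inj, sum_comm]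
      refine sum_congr rfl fun n _ => ?_
      rw [sum_comm, ← sum_add_distrib]
      refine sum_congr rfl fun m _ => ?_
      rw [← sum_add_distrib]
    have e2 : ∑ n ∈ B, ∑ j ∈ range J, I n n j ≤ B.card * (4 * Cp) := by
      have h1 := sum_le_card_nsmul B _ _ hdiag
      rw [nsmul_eq_mul] at h1
      exact h1
    have e3 : ∑ n ∈ B, ∑ m ∈ B.erase n, ∑ j ∈ range J, (if j ∈ NJ n m then 0 else I n m j) ≤
        B.card * (Ca * (4 * Y ^ 2) * C1 * (2 * (1 + Real.log N))) := by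
      refine Lq_far N hN B hB J I NJ (Ca * (4 * Y ^ 2) * C1) (by positivity) fun n hn m hm hnm => ?_
      refine (hfar n hn m hm hnm).trans ?_
      have h4 := hsep n hn m hm
      have h5 : 0 < |(n : ℝ) - m| := abs_pos.2 (sub_ne_zero.2 (by exact_mod_cast hnm))
      have h6 : 0 < (N : ℝ) * ‖y n - y m‖ := by
        rcases lt_or_ge 0 ((N : ℝ) * ‖y n - y m‖) with h7 | h7
        · exact h7
        · have h8 : C1 * ((N : ℝ) * ‖y n - y m‖) ≤ 0 := mul_nonpos_of_nonneg_of_nonpos (by linarith) h7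
          linarith
      rw [mul_one_div, div_le_div_iff₀ h6 h5]
      calc Ca * (J : ℝ) ^ 2 * |(n : ℝ) - m| ≤ Ca * (4 * Y ^ 2) * |(n : ℝ) - m| :=
            mul_le_mul_of_nonneg_right (mul_le_mul_of_nonneg_left hJsq hCa0) h5.le
        _ ≤ Ca * (4 * Y ^ 2) * (C1 * ((N : ℝ) * ‖y n - y m‖)) := mul_le_mul_of_nonneg_left h4 (by positivity)
        _ = Ca * (4 * Y ^ 2) * C1 * ((N : ℝ) * ‖y n - y m‖) := by ring
    have e4 : ∑ n ∈ B, ∑ m ∈ B.erase n, ∑ j ∈ range J, (if Pn n m ∧ j ∈ NJ n m then I n m j else 0) ≤ 8 * Ca * α := by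
      have h1 := Lq_set (8 * Ca) (by linarith) B J I hI NJ wt hwt P (fun n m j => Pn n m ∧ j ∈ NJ n m)
        (fun n m j h => ⟨(hPn n m).1 h.1, h.2⟩) hnear
      have h0 : (0 : ℝ) ≤ 8 * Ca := by linarith
      refine le_trans (le_of_eq ?_) (h1.trans (mul_le_mul_of_nonneg_left hP h0))
      refine sum_congr rfl fun n _ => sum_congr rfl fun m _ => sum_congr rfl fun j _ => ?_
      by_cases hc : Pn n m ∧ j ∈ NJ n m
      · simp only [if_pos hc]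
      · simp only [if_neg hc]
    rw [e1]
    linarith
  -- the cells
  have hrich : ∑ x ∈ (univ : Finset (Fin L.length)), Real.sqrt (4 * ((L[x.1]).2).card / J) *
      Real.sqrt (∑ j ∈ range J, yy x j) ≤ 3 * Ca * β := by
    have h1 : ∀ x ∈ (univ : Finset (Fin L.length)), Real.sqrt (4 * ((L[x.1]).2).card / J) *
        Real.sqrt (∑ j ∈ range J, yy x j) ≤ 3 * Ca * cst J wt (L[x.1]) := by
      intro x _
      have h2 : ∑ j ∈ range J, yy x j ≤ 8 * Ca * ∑ q ∈ (L[x.1]).1, wt q.1 q.2 := by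
        rw [sum_congr rfl fun j _ => hyy x j]
        have h3 : ∑ j ∈ range J, ∑ n ∈ B, ∑ m ∈ B.erase n, (if Cd x n m j then I n m j else 0) =
            ∑ n ∈ B, ∑ m ∈ B.erase n, ∑ j ∈ range J, (if Cd x n m j then I n m j else 0) := by
          rw [sum_comm]
          refine sum_congr rfl fun n _ => ?_
          rw [sum_comm]
        rw [h3]
        refine Lq_set (8 * Ca) (by linarith) B J I hI NJ wt hwt (L[x.1]).1 (Cd x) (fun n m j h => ?_) hnear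
        rw [hCd] at h
        exact ⟨h.1, h.2.2⟩
      have hW : 0 ≤ ∑ q ∈ (L[x.1]).1, wt q.1 q.2 := sum_nonneg fun q _ => hwt q.1 q.2
      have h3 : Real.sqrt (∑ j ∈ range J, yy x j) ≤ 3 * Ca * Real.sqrt (∑ q ∈ (L[x.1]).1, wt q.1 q.2) := by
        refine Real.sqrt_le_iff.2 ⟨by positivity, h2.trans ?_⟩
        rw [mul_pow, mul_pow, Real.sq_sqrt hW]
        refine mul_le_mul_of_nonneg_right ?_ hW
        linarith [le_self_pow₀ hCa two_ne_zero]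
      unfold cst
      calc Real.sqrt (4 * ((L[x.1]).2).card / J) * Real.sqrt (∑ j ∈ range J, yy x j) ≤
          Real.sqrt (4 * ((L[x.1]).2).card / J) * (3 * Ca * Real.sqrt (∑ q ∈ (L[x.1]).1, wt q.1 q.2)) :=
            mul_le_mul_of_nonneg_left h3 (Real.sqrt_nonneg _)
        _ = _ := by ring
    refine (sum_le_sum h1).trans ?_
    rw [← mul_sum]
    refine mul_le_mul_of_nonneg_left ?_ (by linarith)
    refine le_trans (le_of_eq ?_) hL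
    exact Fin.sum_univ_fun_getElem L (cst J wt)
  have h1 : Real.sqrt (∑ j ∈ range J, g j) ≤ Real.sqrt (B.card * (4 * Cp) + B.card * (Ca * (4 * Y ^ 2) * C1 *
      (2 * (1 + Real.log N))) + 8 * Ca * α) := Real.sqrt_le_sqrt hgood
  linarith

end MPku
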