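import Pool.Agent.Lib.MP_7b255b_ntU.Ph

/-!
# O1: the first derivative test

`f x = A x * En h n x * conj (A' x * En h' m x)`, `z = yv N h n - yv N h' m`, `p = qv (yv N h n)`, `p' = qv (yv N h' m)`.
`E x = En h n x * conj (En h' m x)` satisfies `E' = - i N qv z / (p p') E`; integration by parts on an interval on which `|qv z| ≥ lam`.
-/

set_option autoImplicit false

namespace MPku

open MPkt

private theorem O1_qd (z : T3) (x : ℝ) : HasDerivAt (fun y => qv z y) (2 * z 0 * x + 2 * z 1) x := by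
  unfold qv
  have h := (((hasDerivAt_id x).pow 2).const_mul (z 0)).add (((hasDerivAt_id x).const_mul (2 * z 1)).add_const (z 2))
  have e : z 0 * (((2 : ℕ) : ℝ) * id x ^ (2 - 1) * 1) + 2 * z 1 * 1 = 2 * z 0 * x + 2 * z 1 := by
    simp only [id]
    norm_num
    ring
  rw [e] at h
  refine h.congr_of_eventuallyEq (Filter.Eventually.of_forall fun y => ?_)
  simp only [id, Pi.add_apply, Pi.pow_apply]
  ring

private theorem O1_qc (z : T3) : Continuous (fun y => qv z y) :=
  continuous_iff_continuousAt.2 fun x => (O1_qd z x).continuousAt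

private theorem O1_ne {z : T3} {lam x : ℝ} (hl : 0 < lam) (h : lam ≤ |qv z x|) : qv z x ≠ 0 := by
  intro h0
  rw [h0, abs_zero] at h
  linarith

private theorem O1_ci (z : T3) {c d lam : ℝ} (hcd : c ≤ d) (hl : 0 < lam) (h : ∀ x ∈ Set.Icc c d, lam ≤ |qv z x|) :
    IntervalIntegrable (fun x => |2 * z 0 * x + 2 * z 1| / (qv z x) ^ 2) MeasureTheory.volume c d := by
  apply ContinuousOn.intervalIntegrable
  rw [Set.uIcc_of_le hcd]
  apply ContinuousOn.div
  · fun_prop
  · exact ((O1_qc z).pow 2).continuousOn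
  · intro x hx
    exact pow_ne_zero 2 (O1_ne hl (h x hx))

private theorem O1_ci' (z : T3) {c d lam : ℝ} (hcd : c ≤ d) (hl : 0 < lam) (h : ∀ x ∈ Set.Icc c d, lam ≤ |qv z x|) :
    IntervalIntegrable (fun x => (2 * z 0 * x + 2 * z 1) / (qv z x) ^ 2) MeasureTheory.volume c d := by
  apply ContinuousOn.intervalIntegrable
  rw [Set.uIcc_of_le hcd]
  apply ContinuousOn.div
  · fun_prop
  · exact ((O1_qc z).pow 2).continuousOn
  · intro x hx
    exact pow_ne_zero 2 (O1_ne hl (h x hx))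

private theorem O1_ftc (z : T3) {c d lam : ℝ} (hcd : c ≤ d) (hl : 0 < lam) (h : ∀ x ∈ Set.Icc c d, lam ≤ |qv z x|) :
    ∫ x in c..d, (2 * z 0 * x + 2 * z 1) / (qv z x) ^ 2 = (qv z c)⁻¹ - (qv z d)⁻¹ := by
  have h1 : ∀ x ∈ Set.uIcc c d, HasDerivAt (fun y => -(qv z y)⁻¹) ((2 * z 0 * x + 2 * z 1) / (qv z x) ^ 2) x := by
    intro x hx
    rw [Set.uIcc_of_le hcd] at hx
    have h2 := ((O1_qd z x).inv (O1_ne hl (h x hx))).neg
    have e : -(-(2 * z 0 * x + 2 * z 1) / qv z x ^ 2) = (2 * z 0 * x + 2 * z 1) / (qv z x) ^ 2 := by ring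
    rw [e] at h2
    exact h2
  rw [intervalIntegral.integral_eq_sub_of_hasDerivAt h1 (O1_ci' z hcd hl h)]
  ring

private theorem O1_same (z : T3) {c d lam : ℝ} (hcd : c ≤ d) (hl : 0 < lam) (h : ∀ x ∈ Set.Icc c d, lam ≤ |qv z x|) :
    |(qv z c)⁻¹ - (qv z d)⁻¹| ≤ 1 / lam := by
  have hc := h c (Set.left_mem_Icc.2 hcd)
  have hd := h d (Set.right_mem_Icc.2 hcd)
  have hsame : 0 < qv z c * qv z d := by
    by_contra hn
    have hn' : qv z c * qv z d ≤ 0 := not_lt.1 hn
    have hc0 := O1_ne hl hc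
    have hd0 := O1_ne hl hd
    have hcont : ContinuousOn (fun y => qv z y) (Set.Icc c d) := (O1_qc z).continuousOn
    have : (0 : ℝ) ∈ (fun y => qv z y) '' Set.Icc c d := by
      rcases lt_or_gt_of_ne hc0 with h1 | h1
      · have h2 : 0 ≤ qv z d := by
          by_contra h3
          have := mul_pos_of_neg_of_neg h1 (not_le.1 h3)
          linarith
        exact intermediate_value_Icc hcd hcont ⟨h1.le, h2⟩
      · have h2 : qv z d ≤ 0 := by
          by_contra h3
          have := mul_pos h1 (not_le.1 h3)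
          linarith
        exact intermediate_value_Icc' hcd hcont ⟨h2, h1.le⟩
    obtain ⟨y, hy, hy0⟩ := this
    exact O1_ne hl (h y hy) hy0
  have key : ∀ u v : ℝ, lam ≤ u → lam ≤ v → |u⁻¹ - v⁻¹| ≤ 1 / lam := by
    intro u v hu hv
    have hu0 : 0 < u := lt_of_lt_of_le hl hu
    have hv0 : 0 < v := lt_of_lt_of_le hl hv
    have h1 : u⁻¹ ≤ 1 / lam := by
      rw [one_div]
      exact inv_anti₀ hl hu
    have h2 : v⁻¹ ≤ 1 / lam := by
      rw [one_div]
      exact inv_anti₀ hl hv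
    have h3 : 0 < u⁻¹ := inv_pos.2 hu0
    have h4 : 0 < v⁻¹ := inv_pos.2 hv0
    rw [abs_le]
    constructor <;> linarith
  rcases lt_or_gt_of_ne (O1_ne hl hc) with h1 | h1
  · have h2 : qv z d < 0 := by
      by_contra h3
      have := mul_nonpos_of_nonpos_of_nonneg h1.le (not_lt.1 h3)
      linarith
    have h3 := key (-qv z c) (-qv z d) (by rwa [abs_of_neg h1] at hc) (by rwa [abs_of_neg h2] at hd)
    rw [inv_neg, inv_neg] at h3
    have e : -(qv z c)⁻¹ - -(qv z d)⁻¹ = -((qv z c)⁻¹ - (qv z d)⁻¹) := by ring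
    rwa [e, abs_neg] at h3
  · have h2 : 0 < qv z d := by
      by_contra h3
      have := mul_nonpos_of_nonneg_of_nonpos h1.le (not_lt.1 h3)
      linarith
    exact key _ _ (by rwa [abs_of_pos h1] at hc) (by rwa [abs_of_pos h2] at hd)

private theorem O1_piece (z : T3) {c d lam : ℝ} (hcd : c ≤ d) (hl : 0 < lam) (h : ∀ x ∈ Set.Icc c d, lam ≤ |qv z x|)
    (hs : (0 ≤ 2 * z 0 * c + 2 * z 1 ∧ 0 ≤ 2 * z 0 * d + 2 * z 1) ∨
      (2 * z 0 * c + 2 * z 1 ≤ 0 ∧ 2 * z 0 * d + 2 * z 1 ≤ 0)) :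
    ∫ x in c..d, |2 * z 0 * x + 2 * z 1| / (qv z x) ^ 2 ≤ 1 / lam := by
  have hsame := O1_same z hcd hl h
  have hftc := O1_ftc z hcd hl h
  rcases hs with ⟨h1, h2⟩ | ⟨h1, h2⟩
  · have e : ∫ x in c..d, |2 * z 0 * x + 2 * z 1| / (qv z x) ^ 2 =
        ∫ x in c..d, (2 * z 0 * x + 2 * z 1) / (qv z x) ^ 2 := by
      apply intervalIntegral.integral_congr
      intro x hx
      rw [Set.uIcc_of_le hcd] at hx
      have h3 : 0 ≤ 2 * z 0 * x + 2 * z 1 := by
        rcases le_total 0 (z 0) with h4 | h4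
        · have := mul_le_mul_of_nonneg_left hx.1 h4
          linarith
        · have := mul_le_mul_of_nonpos_left hx.2 h4
          linarith
      simp only [abs_of_nonneg h3]
    rw [e, hftc]
    exact (le_abs_self _).trans hsame
  · have e : ∫ x in c..d, |2 * z 0 * x + 2 * z 1| / (qv z x) ^ 2 =
        ∫ x in c..d, -((2 * z 0 * x + 2 * z 1) / (qv z x) ^ 2) := by
      apply intervalIntegral.integral_congr
      intro x hx
      rw [Set.uIcc_of_le hcd] at hx
      have h3 : 2 * z 0 * x + 2 * z 1 ≤ 0 := by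
        rcases le_total 0 (z 0) with h4 | h4
        · have := mul_le_mul_of_nonneg_left hx.2 h4
          linarith
        · have := mul_le_mul_of_nonpos_left hx.1 h4
          linarith
      simp only [abs_of_nonpos h3]
      ring
    rw [e, intervalIntegral.integral_neg, hftc]
    exact (neg_le_abs _).trans hsame

theorem var_le (z : T3) (a b lam : ℝ) (hab : a ≤ b) (hl : 0 < lam) (h : ∀ x ∈ Set.Icc a b, lam ≤ |qv z x|) :
    ∫ x in a..b, |2 * z 0 * x + 2 * z 1| / (qv z x) ^ 2 ≤ 2 / lam := by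
  have hl1 : 0 < 1 / lam := by positivity
  have e2 : 2 / lam = 1 / lam + 1 / lam := by ring
  rcases le_total 0 (2 * z 0 * a + 2 * z 1) with ha | ha <;> rcases le_total 0 (2 * z 0 * b + 2 * z 1) with hb | hb
  · have := O1_piece z hab hl h (Or.inl ⟨ha, hb⟩)
    linarith
  · have hcont : ContinuousOn (fun y : ℝ => 2 * z 0 * y + 2 * z 1) (Set.Icc a b) := by fun_prop
    obtain ⟨c, hc, hc0⟩ := intermediate_value_Icc' hab hcont ⟨hb, ha⟩
    have hc0' : 2 * z 0 * c + 2 * z 1 = 0 := hc0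
    have i1 : ∀ x ∈ Set.Icc a c, lam ≤ |qv z x| := fun x hx => h x ⟨hx.1, hx.2.trans hc.2⟩
    have i2 : ∀ x ∈ Set.Icc c b, lam ≤ |qv z x| := fun x hx => h x ⟨hc.1.trans hx.1, hx.2⟩
    have p1 := O1_piece z hc.1 hl i1 (Or.inl ⟨ha, hc0'.ge⟩)
    have p2 := O1_piece z hc.2 hl i2 (Or.inr ⟨hc0'.le, hb⟩)
    rw [← intervalIntegral.integral_add_adjacent_intervals (O1_ci z hc.1 hl i1) (O1_ci z hc.2 hl i2), e2]
    exact add_le_add p1 p2
  · have hcont : ContinuousOn (fun y : ℝ => 2 * z 0 * y + 2 * z 1) (Set.Icc a b) := by fun_prop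
    obtain ⟨c, hc, hc0⟩ := intermediate_value_Icc hab hcont ⟨ha, hb⟩
    have hc0' : 2 * z 0 * c + 2 * z 1 = 0 := hc0
    have i1 : ∀ x ∈ Set.Icc a c, lam ≤ |qv z x| := fun x hx => h x ⟨hx.1, hx.2.trans hc.2⟩
    have i2 : ∀ x ∈ Set.Icc c b, lam ≤ |qv z x| := fun x hx => h x ⟨hc.1.trans hx.1, hx.2⟩
    have p1 := O1_piece z hc.1 hl i1 (Or.inr ⟨ha, hc0'.le⟩)
    have p2 := O1_piece z hc.2 hl i2 (Or.inl ⟨hc0'.ge, hb⟩)
    rw [← intervalIntegral.integral_add_adjacent_intervals (O1_ci z hc.1 hl i1) (O1_ci z hc.2 hl i2), e2]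
    exact add_le_add p1 p2
  · have := O1_piece z hab hl h (Or.inr ⟨ha, hb⟩)
    linarith

/-- Integration by parts. -/
private theorem O1_ibp (z : T3) (N a b lam M M1 : ℝ) (hN : 0 < N) (hab : a ≤ b) (hl : 0 < lam)
    (h : ∀ x ∈ Set.Icc a b, lam ≤ |qv z x|) (g g1 E : ℝ → ℂ) (r : ℝ → ℝ)
    (hg : ∀ x, HasDerivAt g (g1 x) x) (hg1 : Continuous g1)
    (hE : ∀ x, HasDerivAt E (-(Complex.I * ((N * qv z x * r x : ℝ) : ℂ)) * E x) x)
    (hr : Continuous r) (hM : ∀ x ∈ Set.Icc a b, ‖g x‖ ≤ M) (hM1 : ∀ x ∈ Set.Icc a b, ‖g1 x‖ ≤ M1)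
    (hE1 : ∀ x, ‖E x‖ = 1) :
    ‖∫ x in a..b, g x * (r x : ℂ) * E x‖ ≤ (4 * M + (b - a) * M1) / (N * lam) := by
  have hEc : Continuous E := continuous_iff_continuousAt.2 fun x => (hE x).continuousAt
  have hgc : Continuous g := continuous_iff_continuousAt.2 fun x => (hg x).continuousAt
  have hM0 : 0 ≤ M := (norm_nonneg _).trans (hM a (Set.left_mem_Icc.2 hab))
  have hM10 : 0 ≤ M1 := (norm_nonneg _).trans (hM1 a (Set.left_mem_Icc.2 hab))
  have hqc : Continuous (fun x => ((qv z x : ℝ) : ℂ)) := Complex.continuous_ofReal.comp (O1_qc z)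
  have hq0 : ∀ x ∈ Set.Icc a b, ((qv z x : ℝ) : ℂ) ≠ 0 := by
    intro x hx h0
    exact O1_ne hl (h x hx) (by exact_mod_cast h0)
  set W : ℝ → ℂ := fun x =>
    (g1 x * ((qv z x : ℝ) : ℂ) - g x * ((2 * z 0 * x + 2 * z 1 : ℝ) : ℂ)) / ((qv z x : ℝ) : ℂ) ^ 2 with hW
  have hWc : ContinuousOn (fun x => W x * E x) (Set.Icc a b) := by
    apply ContinuousOn.mul _ hEc.continuousOn
    apply ContinuousOn.div
    · apply Continuous.continuousOn
      exact (hg1.mul hqc).sub (hgc.mul (Complex.continuous_ofReal.comp (by fun_prop)))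
    · exact (hqc.pow 2).continuousOn
    · intro x hx
      exact pow_ne_zero 2 (hq0 x hx)
  have hWi : IntervalIntegrable (fun x => W x * E x) MeasureTheory.volume a b := by
    apply ContinuousOn.intervalIntegrable
    rwa [Set.uIcc_of_le hab]
  have hfc : Continuous (fun x => g x * (r x : ℂ) * E x) :=
    (hgc.mul (Complex.continuous_ofReal.comp hr)).mul hEc
  have hfi : IntervalIntegrable (fun x => g x * (r x : ℂ) * E x) MeasureTheory.volume a b :=
    hfc.intervalIntegrable a b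
  set P : ℝ → ℂ := fun x => (Complex.I / (N : ℂ)) * (g x / ((qv z x : ℝ) : ℂ) * E x) with hP
  have hNc : (N : ℂ) ≠ 0 := by exact_mod_cast hN.ne'
  have hPd : ∀ x ∈ Set.uIcc a b, HasDerivAt P
      (g x * (r x : ℂ) * E x + (Complex.I / (N : ℂ)) * (W x * E x)) x := by
    intro x hx
    rw [Set.uIcc_of_le hab] at hx
    have hq := (O1_qd z x).ofReal_comp
    have h1 := (((hg x).div hq (hq0 x hx)).mul (hE x)).const_mul (Complex.I / (N : ℂ))
    have e : Complex.I / (N : ℂ) * ((g1 x * ((qv z x : ℝ) : ℂ) - g x * ((2 * z 0 * x + 2 * z 1 : ℝ) : ℂ)) /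
        ((qv z x : ℝ) : ℂ) ^ 2 * E x + g x / ((qv z x : ℝ) : ℂ) *
          (-(Complex.I * ((N * qv z x * r x : ℝ) : ℂ)) * E x)) =
        g x * (r x : ℂ) * E x + (Complex.I / (N : ℂ)) * (W x * E x) := by
      have hqx := hq0 x hx
      have hI : Complex.I * Complex.I = -1 := Complex.I_mul_I
      have e1 : Complex.I / (N : ℂ) * (g x / ((qv z x : ℝ) : ℂ) *
          (-(Complex.I * ((N * qv z x * r x : ℝ) : ℂ)) * E x)) = g x * (r x : ℂ) * E x := by
        push_cast
        have e2 : Complex.I / (N : ℂ) * (g x / ((qv z x : ℝ) : ℂ) *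
            (-(Complex.I * ((N : ℂ) * ((qv z x : ℝ) : ℂ) * (r x : ℂ))) * E x)) =
            -(Complex.I * Complex.I) * ((N : ℂ) / (N : ℂ)) * (((qv z x : ℝ) : ℂ) / ((qv z x : ℝ) : ℂ)) *
              (g x * (r x : ℂ) * E x) := by
          ring
        rw [e2, hI, div_self hNc, div_self hqx]
        ring
      rw [mul_add, e1]
      simp only [hW]
      ring
    rw [← e]
    exact h1
  have hint := intervalIntegral.integral_eq_sub_of_hasDerivAt hPd (hfi.add (hWi.const_mul _))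
  rw [intervalIntegral.integral_add hfi (hWi.const_mul _), intervalIntegral.integral_const_mul] at hint
  have hf : ∫ x in a..b, g x * (r x : ℂ) * E x = P b - P a - (Complex.I / (N : ℂ)) * ∫ x in a..b, W x * E x := by
    rw [← hint]
    ring
  have hIN : ‖Complex.I / (N : ℂ)‖ = 1 / N := by
    rw [norm_div, Complex.norm_I, Complex.norm_real, Real.norm_of_nonneg hN.le]
  have hPn : ∀ x ∈ Set.Icc a b, ‖P x‖ ≤ 1 / N * (M / lam) := by
    intro x hx
    simp only [hP]
    rw [norm_mul, hIN, norm_mul, norm_div, hE1, mul_one, Complex.norm_real, Real.norm_eq_abs]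
    apply mul_le_mul_of_nonneg_left _ (by positivity)
    exact div_le_div₀ hM0 (hM x hx) hl (h x hx)
  have hWn : ‖∫ x in a..b, W x * E x‖ ≤ (b - a) * M1 / lam + M * (2 / lam) := by
    have hb1 : ‖∫ x in a..b, W x * E x‖ ≤
        ∫ x in a..b, (M1 / lam + M * (|2 * z 0 * x + 2 * z 1| / (qv z x) ^ 2)) := by
      apply intervalIntegral.norm_integral_le_of_norm_le hab
      · refine Filter.Eventually.of_forall fun x hx => ?_
        have hx' : x ∈ Set.Icc a b := ⟨hx.1.le, hx.2⟩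
        rw [norm_mul, hE1, mul_one]
        have hqp : 0 < |qv z x| := lt_of_lt_of_le hl (h x hx')
        have e1 : W x = g1 x / ((qv z x : ℝ) : ℂ) -
            g x * (((2 * z 0 * x + 2 * z 1 : ℝ) : ℂ) / ((qv z x : ℝ) : ℂ) ^ 2) := by
          simp only [hW]
          have hqx := hq0 x hx'
          field_simp
        rw [e1]
        refine (norm_sub_le _ _).trans ?_
        apply add_le_add
        · rw [norm_div, Complex.norm_real, Real.norm_eq_abs]
          exact div_le_div₀ hM10 (hM1 x hx') hl (h x hx')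
        · rw [norm_mul, norm_div, norm_pow, Complex.norm_real, Complex.norm_real, Real.norm_eq_abs,
            Real.norm_eq_abs, sq_abs]
          exact mul_le_mul_of_nonneg_right (hM x hx') (by positivity)
      · exact (intervalIntegrable_const).add ((O1_ci z hab hl h).const_mul _)
    refine hb1.trans ?_
    rw [intervalIntegral.integral_add intervalIntegrable_const ((O1_ci z hab hl h).const_mul _),
      intervalIntegral.integral_const, intervalIntegral.integral_const_mul, smul_eq_mul]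
    have := mul_le_mul_of_nonneg_left (var_le z a b lam hab hl h) hM0
    have e3 : (b - a) * (M1 / lam) = (b - a) * M1 / lam := by ring
    rw [e3]
    linarith
  rw [hf]
  have hPa := hPn a (Set.left_mem_Icc.2 hab)
  have hPb := hPn b (Set.right_mem_Icc.2 hab)
  have h3 : ‖(Complex.I / (N : ℂ)) * ∫ x in a..b, W x * E x‖ ≤ 1 / N * ((b - a) * M1 / lam + M * (2 / lam)) := by
    rw [norm_mul, hIN]
    exact mul_le_mul_of_nonneg_left hWn (by positivity)
  have h4 : ‖P b - P a - (Complex.I / (N : ℂ)) * ∫ x in a..b, W x * E x‖ ≤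
      ‖P b‖ + ‖P a‖ + ‖(Complex.I / (N : ℂ)) * ∫ x in a..b, W x * E x‖ :=
    (norm_sub_le _ _).trans (add_le_add (norm_sub_le _ _) le_rfl)
  refine h4.trans ((add_le_add (add_le_add hPb hPa) h3).trans (le_of_eq ?_))
  have hN0 := hN.ne'
  have hl0 := hl.ne'
  field_simp
  ring

private theorem O1_qdh (h : G) (x : ℝ) : HasDerivAt (fun y => Qh h y)
    (2 * (h 0 0 * x + h 0 1) * h 0 0 + 2 * (h 1 0 * x + h 1 1) * h 1 0) x := by
  unfold Qh
  have h1 := (((hasDerivAt_id x).const_mul (h 0 0)).add_const (h 0 1)).pow 2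
  have h2 := (((hasDerivAt_id x).const_mul (h 1 0)).add_const (h 1 1)).pow 2
  have h3 := h1.add h2
  have e : ((2 : ℕ) : ℝ) * (h 0 0 * id x + h 0 1) ^ (2 - 1) * (h 0 0 * 1) +
      ((2 : ℕ) : ℝ) * (h 1 0 * id x + h 1 1) ^ (2 - 1) * (h 1 0 * 1) =
      2 * (h 0 0 * x + h 0 1) * h 0 0 + 2 * (h 1 0 * x + h 1 1) * h 1 0 := by
    simp only [id]
    norm_num
  have h4 : HasDerivAt (fun y => (h 0 0 * y + h 0 1) ^ 2 + (h 1 0 * y + h 1 1) ^ 2)
    (((2 : ℕ) : ℝ) * (h 0 0 * id x + h 0 1) ^ (2 - 1) * (h 0 0 * 1) +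
      ((2 : ℕ) : ℝ) * (h 1 0 * id x + h 1 1) ^ (2 - 1) * (h 1 0 * 1)) x := h3
  rw [e] at h4
  exact h4

theorem pair_fd (R C0 : ℝ) : ∃ C : ℝ, 1 ≤ C ∧ ∀ (N : ℝ) (n m : ℕ) (h h' : G) (A A' : ℝ → ℂ), 1 ≤ N → N ≤ n → (n : ℝ) ≤ 2 * N →
    N ≤ m → (m : ℝ) ≤ 2 * N → Ent R h → Ent R h' → Amp C0 A → Amp C0 A' →
    FD C N (yv N h n - yv N h' m) fun x => (A x * En h n x) * star (A' x * En h' m x) := by
  refine ⟨1 + C0 ^ 2 + 20 * C0 ^ 2 * (30 * R ^ 2) ^ 2, ?_, ?_⟩
  · nlinarith [sq_nonneg C0, mul_nonneg (sq_nonneg C0) (sq_nonneg (30 * R ^ 2))]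
  intro N n m h h' A A' hN hNn hn2 hNm hm2 hR hR' hA hA'
  have hC0 : 0 ≤ C0 := (norm_nonneg _).trans (hA.bd 0)
  have hEd : ∀ x, HasDerivAt (En h n) (Complex.I * ((n : ℝ) / Qh h x : ℝ) * En h n x) x := En_deriv h n
  have hEd' : ∀ x, HasDerivAt (En h' m) (Complex.I * ((m : ℝ) / Qh h' x : ℝ) * En h' m x) x := En_deriv h' m
  have hEc : Continuous (En h n) := continuous_iff_continuousAt.2 fun x => (hEd x).continuousAt
  have hEc' : Continuous (En h' m) := continuous_iff_continuousAt.2 fun x => (hEd' x).continuousAt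
  have hAc : Continuous A := hA.diff.continuous
  have hAc' : Continuous A' := hA'.diff.continuous
  have hN0 : 0 < N := by linarith
  have hn0 : (0 : ℝ) < n := by linarith
  have hm0 : (0 : ℝ) < m := by linarith
  constructor
  · exact ((hAc.mul hEc).mul (continuous_star.comp (hAc'.mul hEc'))).continuousOn
  · intro x _
    rw [norm_mul, norm_star, norm_mul, norm_mul, En_norm, En_norm, mul_one, mul_one]
    have h1 : ‖A x‖ * ‖A' x‖ ≤ C0 * C0 := mul_le_mul (hA.bd x) (hA'.bd x) (norm_nonneg _) hC0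
    nlinarith [mul_nonneg (sq_nonneg C0) (sq_nonneg (30 * R ^ 2))]
  · intro a b lam ha hab hb hl hq
    set z := yv N h n - yv N h' m with hz
    set p : ℝ → ℝ := fun x => N / n * Qh h x with hp
    set p' : ℝ → ℝ := fun x => N / m * Qh h' x with hp'
    set d1 : ℝ → ℝ := fun x => N / n * (2 * (h 0 0 * x + h 0 1) * h 0 0 + 2 * (h 1 0 * x + h 1 1) * h 1 0) with hd1
    set d2 : ℝ → ℝ := fun x => N / m * (2 * (h' 0 0 * x + h' 0 1) * h' 0 0 + 2 * (h' 1 0 * x + h' 1 1) * h' 1 0)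
      with hd2
    have hpd : ∀ x, HasDerivAt p (d1 x) x := fun x => (O1_qdh h x).const_mul _
    have hpd' : ∀ x, HasDerivAt p' (d2 x) x := fun x => (O1_qdh h' x).const_mul _
    have hpc : Continuous p := continuous_iff_continuousAt.2 fun x => (hpd x).continuousAt
    have hpc' : Continuous p' := continuous_iff_continuousAt.2 fun x => (hpd' x).continuousAt
    have hd1c : Continuous d1 := by
      simp only [hd1]
      fun_prop
    have hd2c : Continuous d2 := by
      simp only [hd2]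
      fun_prop
    have hp0 : ∀ x, 0 < p x := fun x => mul_pos (div_pos hN0 hn0) (Qh_pos h x)
    have hp0' : ∀ x, 0 < p' x := fun x => mul_pos (div_pos hN0 hm0) (Qh_pos h' x)
    have hzq : ∀ x, qv z x = p x - p' x := by
      intro x
      have e : qv z x = qv (yv N h n) x - qv (yv N h' m) x := by
        simp only [hz, qv, Pi.sub_apply]
        ring
      rw [e, yv_qv, yv_qv]
    -- the amplitude
    set g : ℝ → ℂ := fun x => (A x * star (A' x)) * ((p x * p' x : ℝ) : ℂ) with hg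
    set g1 : ℝ → ℂ := fun x => (deriv A x * star (A' x) + A x * star (deriv A' x)) * ((p x * p' x : ℝ) : ℂ) +
      (A x * star (A' x)) * ((d1 x * p' x + p x * d2 x : ℝ) : ℂ) with hg1
    have hAd : ∀ x, HasDerivAt A (deriv A x) x := fun x =>
      (hA.diff.differentiable (by norm_num)).differentiableAt.hasDerivAt
    have hAd' : ∀ x, HasDerivAt A' (deriv A' x) x := fun x =>
      (hA'.diff.differentiable (by norm_num)).differentiableAt.hasDerivAt
    have hAdc : Continuous (deriv A) := hA.diff.continuous_deriv (by norm_num)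
    have hAdc' : Continuous (deriv A') := hA'.diff.continuous_deriv (by norm_num)
    have hgd : ∀ x, HasDerivAt g (g1 x) x := by
      intro x
      have h1 := ((hAd x).mul (hAd' x).star).mul (((hpd x).mul (hpd' x)).ofReal_comp)
      exact h1
    have hg1c : Continuous g1 := by
      simp only [hg1]
      have s1 : Continuous fun x => star (A' x) := continuous_star.comp hAc'
      have s2 : Continuous fun x => star (deriv A' x) := continuous_star.comp hAdc'
      have s3 : Continuous fun x => ((p x * p' x : ℝ) : ℂ) := Complex.continuous_ofReal.comp (hpc.mul hpc')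
      have s4 : Continuous fun x => ((d1 x * p' x + p x * d2 x : ℝ) : ℂ) :=
        Complex.continuous_ofReal.comp ((hd1c.mul hpc').add (hpc.mul hd2c))
      exact (((hAdc.mul s1).add (hAc.mul s2)).mul s3).add ((hAc.mul s1).mul s4)
    set E : ℝ → ℂ := fun x => En h n x * star (En h' m x) with hE
    set r : ℝ → ℝ := fun x => (p x * p' x)⁻¹ with hr
    have hrc : Continuous r := (hpc.mul hpc').inv₀ fun x => (mul_pos (hp0 x) (hp0' x)).ne'
    have hEE : ∀ x, HasDerivAt E (-(Complex.I * ((N * qv z x * r x : ℝ) : ℂ)) * E x) x := by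
      intro x
      have h1 := (hEd x).mul (hEd' x).star
      have hQ := Qh_pos h x
      have hQ' := Qh_pos h' x
      have e0 : N * qv z x * r x = (m : ℝ) / Qh h' x - (n : ℝ) / Qh h x := by
        rw [hzq x]
        simp only [hr, hp, hp']
        have hQ0 := hQ.ne'
        have hQ0' := hQ'.ne'
        have hn0' := hn0.ne'
        have hm0' := hm0.ne'
        have hNe := hN0.ne'
        field_simp
      have e : Complex.I * ((n : ℝ) / Qh h x : ℝ) * En h n x * star (En h' m x) +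
          En h n x * star (Complex.I * ((m : ℝ) / Qh h' x : ℝ) * En h' m x) =
          -(Complex.I * ((N * qv z x * r x : ℝ) : ℂ)) * E x := by
        rw [e0]
        simp only [hE]
        rw [star_mul', star_mul']
        have s1 : star Complex.I = -Complex.I := Complex.conj_I
        have s2 : star ((((m : ℝ) / Qh h' x : ℝ)) : ℂ) = (((m : ℝ) / Qh h' x : ℝ) : ℂ) := Complex.conj_ofReal _
        rw [s1, s2, Complex.ofReal_sub]
        ring
      have h2 : HasDerivAt E (Complex.I * ((n : ℝ) / Qh h x : ℝ) * En h n x * star (En h' m x) +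
          En h n x * star (Complex.I * ((m : ℝ) / Qh h' x : ℝ) * En h' m x)) x := h1
      rw [e] at h2
      exact h2
    have hE1 : ∀ x, ‖E x‖ = 1 := by
      intro x
      simp only [hE]
      rw [norm_mul, norm_star, En_norm, En_norm, mul_one]
    -- bounds
    have hNn1 : N / n ≤ 1 := (div_le_one hn0).2 hNn
    have hNm1 : N / m ≤ 1 := (div_le_one hm0).2 hNm
    have hR0 : 0 ≤ R := (abs_nonneg _).trans (hR 0 0)
    have hsub : ∀ x ∈ Set.Icc a b, x ∈ Set.Icc (-2 : ℝ) 2 := fun x hx => ⟨ha.trans hx.1, hx.2.trans hb⟩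
    have bQ : ∀ x ∈ Set.Icc a b, |p x| ≤ 30 * R ^ 2 := by
      intro x hx
      rw [abs_of_pos (hp0 x)]
      have h1 : p x ≤ 1 * Qh h x := mul_le_mul_of_nonneg_right hNn1 (Qh_pos h x).le
      have h2 := Qh_le hR (hsub x hx)
      nlinarith [sq_nonneg R]
    have bQ' : ∀ x ∈ Set.Icc a b, |p' x| ≤ 30 * R ^ 2 := by
      intro x hx
      rw [abs_of_pos (hp0' x)]
      have h1 : p' x ≤ 1 * Qh h' x := mul_le_mul_of_nonneg_right hNm1 (Qh_pos h' x).le
      have h2 := Qh_le hR' (hsub x hx)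
      nlinarith [sq_nonneg R]
    have lin : ∀ u v x : ℝ, |u| ≤ R → |v| ≤ R → x ∈ Set.Icc (-2 : ℝ) 2 → |2 * (u * x + v) * u| ≤ 6 * R ^ 2 := by
      intro u v x hu hv hx
      have hx2 : |x| ≤ 2 := abs_le.2 ⟨hx.1, hx.2⟩
      have h1 : |u * x + v| ≤ 3 * R := by
        refine (abs_add_le _ _).trans ?_
        rw [abs_mul]
        have := mul_le_mul hu hx2 (abs_nonneg _) hR0
        linarith
      rw [abs_mul, abs_mul, abs_two]
      have h2 := mul_le_mul h1 hu (abs_nonneg _) (by positivity)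
      nlinarith
    have bd1 : ∀ (k : ℕ) (w : G), N / k ≤ 1 → (0 : ℝ) < k → Ent R w → ∀ x ∈ Set.Icc a b,
        |N / k * (2 * (w 0 0 * x + w 0 1) * w 0 0 + 2 * (w 1 0 * x + w 1 1) * w 1 0)| ≤ 30 * R ^ 2 := by
      intro k w hk hk0 hw x hx
      rw [abs_mul, abs_of_pos (div_pos hN0 hk0)]
      have h1 := lin (w 0 0) (w 0 1) x (hw 0 0) (hw 0 1) (hsub x hx)
      have h2 := lin (w 1 0) (w 1 1) x (hw 1 0) (hw 1 1) (hsub x hx)
      have h3 : |2 * (w 0 0 * x + w 0 1) * w 0 0 + 2 * (w 1 0 * x + w 1 1) * w 1 0| ≤ 12 * R ^ 2 := by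
        refine (abs_add_le _ _).trans ?_
        linarith
      have h4 := mul_le_mul hk h3 (abs_nonneg _) zero_le_one
      nlinarith [sq_nonneg R]
    have bD : ∀ x ∈ Set.Icc a b, |d1 x| ≤ 30 * R ^ 2 := fun x hx => bd1 n h hNn1 hn0 hR x hx
    have bD' : ∀ x ∈ Set.Icc a b, |d2 x| ≤ 30 * R ^ 2 := fun x hx => bd1 m h' hNm1 hm0 hR' x hx
    set K := 30 * R ^ 2 with hK
    have hK0 : 0 ≤ K := by positivity
    have hAA : ∀ x, ‖A x * star (A' x)‖ ≤ C0 ^ 2 := by
      intro x
      rw [norm_mul, norm_star, sq]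
      exact mul_le_mul (hA.bd x) (hA'.bd x) (norm_nonneg _) hC0
    have hAA1 : ∀ x, ‖deriv A x * star (A' x) + A x * star (deriv A' x)‖ ≤ 2 * C0 ^ 2 := by
      intro x
      refine (norm_add_le _ _).trans ?_
      rw [norm_mul, norm_star, norm_mul, norm_star]
      have h1 := mul_le_mul (hA.bd' x) (hA'.bd x) (norm_nonneg _) hC0
      have h2 := mul_le_mul (hA.bd x) (hA'.bd' x) (norm_nonneg _) hC0
      nlinarith
    have hprod : ∀ u v : ℝ, |u| ≤ K → |v| ≤ K → |u * v| ≤ K ^ 2 := by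
      intro u v hu hv
      rw [abs_mul, sq]
      exact mul_le_mul hu hv (abs_nonneg _) hK0
    have hM : ∀ x ∈ Set.Icc a b, ‖g x‖ ≤ C0 ^ 2 * K ^ 2 := by
      intro x hx
      simp only [hg]
      rw [norm_mul, Complex.norm_real, Real.norm_eq_abs]
      exact mul_le_mul (hAA x) (hprod _ _ (bQ x hx) (bQ' x hx)) (abs_nonneg _) (by positivity)
    have hM1 : ∀ x ∈ Set.Icc a b, ‖g1 x‖ ≤ 4 * (C0 ^ 2 * K ^ 2) := by
      intro x hx
      simp only [hg1]
      refine (norm_add_le _ _).trans ?_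
      rw [norm_mul, norm_mul (A x * star (A' x)), Complex.norm_real, Complex.norm_real, Real.norm_eq_abs,
        Real.norm_eq_abs]
      have h1 := mul_le_mul (hAA1 x) (hprod _ _ (bQ x hx) (bQ' x hx)) (abs_nonneg _) (by positivity)
      have h2 : |d1 x * p' x + p x * d2 x| ≤ 2 * K ^ 2 := by
        refine (abs_add_le _ _).trans ?_
        have := hprod _ _ (bD x hx) (bQ' x hx)
        have := hprod _ _ (bQ x hx) (bD' x hx)
        linarith
      have h3 := mul_le_mul (hAA x) h2 (abs_nonneg _) (by positivity)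
      nlinarith
    have hmain := O1_ibp z N a b lam (C0 ^ 2 * K ^ 2) (4 * (C0 ^ 2 * K ^ 2)) hN0 hab hl hq g g1 E r hgd hg1c hEE hrc
      hM hM1 hE1
    have efun : ∀ x, (A x * En h n x) * star (A' x * En h' m x) = g x * (r x : ℂ) * E x := by
      intro x
      simp only [hg, hr, hE]
      have h0 : ((p x * p' x : ℝ) : ℂ) ≠ 0 := by
        exact_mod_cast (mul_pos (hp0 x) (hp0' x)).ne'
      rw [star_mul', Complex.ofReal_inv]
      have e1 : A x * star (A' x) * ((p x * p' x : ℝ) : ℂ) * (((p x * p' x : ℝ) : ℂ))⁻¹ = A x * star (A' x) :=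
        mul_inv_cancel_right₀ h0 _
      rw [e1]
      ring
    have eint : ∫ x in a..b, (A x * En h n x) * star (A' x * En h' m x) = ∫ x in a..b, g x * (r x : ℂ) * E x := by
      apply intervalIntegral.integral_congr
      intro x _
      exact efun x
    show ‖∫ x in a..b, (A x * En h n x) * star (A' x * En h' m x)‖ ≤ _
    rw [eint]
    refine hmain.trans ?_
    apply div_le_div_of_nonneg_right _ (by positivity)
    have hba : b - a ≤ 4 := by linarith
    have hpos : 0 ≤ C0 ^ 2 * K ^ 2 := by positivity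
    nlinarith [sq_nonneg C0]

end MPku
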