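import Pool.Agent.Lib.MP_7b255b_ntU.Cb
import Pool.Agent.Lib.MP_7b255b_ntU.Lq
import Pool.Agent.Lib.MP_7b255b_ntU.A1
import Pool.Agent.Lib.MP_7b255b_ntU.O1

/-!
# L1q: the L^1 norm of sums of phase functions

The pairs `n ≠ m` are divided into the dyadic classes of `(‖z‖, w)`, `z = y n - y m`; for every class `class_cov` gives a covering; `l1_cov` gives the L^1 norm.
-/

set_option autoImplicit false

namespace MPku

open MPkt Finset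
open scoped Classical

private theorem L1q_card (K0 L : ℝ) (hK0 : 1 ≤ K0) (hL : 1 ≤ L) :
    (((Icc (-⌈K0 * L⌉) ⌈K0 * L⌉ ×ˢ Icc (-⌈K0 * L⌉) ⌈K0 * L⌉ : Finset (ℤ × ℤ)).card : ℝ)) ≤ 25 * K0 ^ 2 * L ^ 2 := by
  have hKL : 1 ≤ K0 * L := one_le_mul_of_one_le_of_one_le hK0 hL
  have h0 : 0 ≤ ⌈K0 * L⌉ := Int.ceil_nonneg (by linarith)
  have h1 : ((Icc (-⌈K0 * L⌉) ⌈K0 * L⌉ : Finset ℤ).card : ℝ) ≤ 5 * (K0 * L) := by
    rw [Int.card_Icc]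
    have h2 : (((⌈K0 * L⌉ + 1 - -⌈K0 * L⌉).toNat : ℕ) : ℝ) = ((⌈K0 * L⌉ + 1 - -⌈K0 * L⌉ : ℤ) : ℝ) := by
      have h3 : (((⌈K0 * L⌉ + 1 - -⌈K0 * L⌉).toNat : ℕ) : ℤ) = ⌈K0 * L⌉ + 1 - -⌈K0 * L⌉ := Int.toNat_of_nonneg (by omega)
      exact_mod_cast h3
    rw [h2]
    push_cast
    have h4 : (⌈K0 * L⌉ : ℝ) < K0 * L + 1 := Int.ceil_lt_add_one _
    linarith
  rw [card_product]
  push_cast
  have h5 : (0 : ℝ) ≤ ((Icc (-⌈K0 * L⌉) ⌈K0 * L⌉ : Finset ℤ).card : ℝ) := Nat.cast_nonneg _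
  have h6 := mul_le_mul h1 h1 h5 (by positivity : (0 : ℝ) ≤ 5 * (K0 * L))
  have h7 : 5 * (K0 * L) * (5 * (K0 * L)) = 25 * K0 ^ 2 * L ^ 2 := by ring
  rw [h7] at h6
  exact h6

private theorem L1q_mem (K0 L : ℝ) (i j : ℤ) (hi : |(i : ℝ)| ≤ K0 * L) (hj : |(j : ℝ)| ≤ K0 * L) :
    (i, j) ∈ (Icc (-⌈K0 * L⌉) ⌈K0 * L⌉ ×ˢ Icc (-⌈K0 * L⌉) ⌈K0 * L⌉ : Finset (ℤ × ℤ)) := by
  have h1 : ∀ k : ℤ, |(k : ℝ)| ≤ K0 * L → -⌈K0 * L⌉ ≤ k ∧ k ≤ ⌈K0 * L⌉ := by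
    intro k hk
    have h2 : K0 * L ≤ (⌈K0 * L⌉ : ℝ) := Int.le_ceil _
    have h3 := abs_le.1 (hk.trans h2)
    constructor
    · have h4 := h3.1
      exact_mod_cast h4
    · exact_mod_cast h3.2
  rw [mem_product, mem_Icc, mem_Icc]
  exact ⟨h1 i hi, h1 j hj⟩

private theorem L1q_neg {N : ℝ} {z : T3} {w : ℝ} (h : Lev N (-z) w) : Lev N z w := by
  have h1 : qD (-z) = qD z := by
    unfold qD
    simp only [Pi.neg_apply]
    ring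
  unfold Lev at h ⊢
  rw [norm_neg, h1] at h
  exact h

private theorem L1q_num (C1 Ca K0 Cc Cp L b kc Y Z U V : ℝ) (hCa : 1 ≤ Ca) (hK0 : 1 ≤ K0) (hCc : 1 ≤ Cc) (hCp : 1 ≤ Cp)
    (hC1 : 1 ≤ C1) (hL : 1 ≤ L) (hb : 0 ≤ b) (hY : 1 ≤ Y) (hYZ : Y ≤ Z) (hZU : Z ≤ 256 * U) (hYV : 1 / Y ≤ V)
    (hk : kc ≤ 25 * K0 ^ 2 * L ^ 2) :
    2 * Real.sqrt (b * (4 * Cp) + b * (Ca * (4 * Y ^ 2) * C1 * (2 * L)) + 8 * Ca * (kc * (Cc * b * Z ^ 2))) +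
      3 * Ca * (kc * (Cc * b / Y)) ≤ 10000 * (K0 ^ 2 * Ca * Cc * Cp * C1) * L ^ 2 * (Real.sqrt b * U + b * V) := by
  have hLL : L ≤ L ^ 2 := le_self_pow₀ hL two_ne_zero
  have hL2 : 1 ≤ L ^ 2 := one_le_pow₀ hL
  have hK2 : 1 ≤ K0 ^ 2 := one_le_pow₀ hK0
  have hZ : 1 ≤ Z := hY.trans hYZ
  have hZ2 : 1 ≤ Z ^ 2 := one_le_pow₀ hZ
  have hYZ2 : Y ^ 2 ≤ Z ^ 2 := pow_le_pow_left₀ (by linarith) hYZ 2
  obtain ⟨D, hDd⟩ : ∃ D : ℝ, D = K0 ^ 2 * Ca * Cc * Cp * C1 := ⟨_, rfl⟩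
  rw [← hDd]
  have g1 : Cp ≤ D := by
    rw [hDd]
    calc Cp = 1 * 1 * 1 * Cp * 1 := by ring
      _ ≤ K0 ^ 2 * Ca * Cc * Cp * C1 := by gcongr
  have g2 : Ca * C1 ≤ D := by
    rw [hDd]
    calc Ca * C1 = 1 * Ca * 1 * 1 * C1 := by ring
      _ ≤ K0 ^ 2 * Ca * Cc * Cp * C1 := by gcongr
  have g3 : K0 ^ 2 * Ca * Cc ≤ D := by
    rw [hDd]
    calc K0 ^ 2 * Ca * Cc = K0 ^ 2 * Ca * Cc * 1 * 1 := by ring
      _ ≤ K0 ^ 2 * Ca * Cc * Cp * C1 := by gcongr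
  have hD1 : 1 ≤ D := hCp.trans g1
  have hV0 : 0 < 1 / Y := by positivity
  have f1 : b * (4 * Cp) ≤ 4 * D * L ^ 2 * (b * Z ^ 2) := by
    calc b * (4 * Cp) = 4 * Cp * 1 * (b * 1) := by ring
      _ ≤ 4 * D * L ^ 2 * (b * Z ^ 2) := by gcongr
  have f2 : b * (Ca * (4 * Y ^ 2) * C1 * (2 * L)) ≤ 8 * D * L ^ 2 * (b * Z ^ 2) := by
    calc b * (Ca * (4 * Y ^ 2) * C1 * (2 * L)) = 8 * (Ca * C1) * L * (b * Y ^ 2) := by ring
      _ ≤ 8 * D * L ^ 2 * (b * Z ^ 2) := by gcongr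
  have f3 : 8 * Ca * (kc * (Cc * b * Z ^ 2)) ≤ 200 * D * L ^ 2 * (b * Z ^ 2) := by
    calc 8 * Ca * (kc * (Cc * b * Z ^ 2)) ≤ 8 * Ca * (25 * K0 ^ 2 * L ^ 2 * (Cc * b * Z ^ 2)) := by gcongr
      _ = 200 * (K0 ^ 2 * Ca * Cc) * L ^ 2 * (b * Z ^ 2) := by ring
      _ ≤ 200 * D * L ^ 2 * (b * Z ^ 2) := by gcongr
  have hs1 : Real.sqrt (b * (4 * Cp) + b * (Ca * (4 * Y ^ 2) * C1 * (2 * L)) + 8 * Ca * (kc * (Cc * b * Z ^ 2))) ≤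
      15 * D * L * (Real.sqrt b * Z) := by
    refine Real.sqrt_le_iff.2 ⟨by positivity, ?_⟩
    have h1 : (15 * D * L * (Real.sqrt b * Z)) ^ 2 = 225 * D ^ 2 * L ^ 2 * (b * Z ^ 2) := by
      have h2 : Real.sqrt b ^ 2 = b := Real.sq_sqrt hb
      calc (15 * D * L * (Real.sqrt b * Z)) ^ 2 = 225 * D ^ 2 * L ^ 2 * (Real.sqrt b ^ 2 * Z ^ 2) := by ring
        _ = _ := by rw [h2]
    rw [h1]
    have h3 : 212 * D ≤ 225 * D ^ 2 := by linarith [le_self_pow₀ hD1 two_ne_zero]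
    have h4 : 212 * D * L ^ 2 * (b * Z ^ 2) ≤ 225 * D ^ 2 * L ^ 2 * (b * Z ^ 2) := by gcongr
    linarith
  have hs2 : 3 * Ca * (kc * (Cc * b / Y)) ≤ 75 * D * L ^ 2 * (b * V) := by
    calc 3 * Ca * (kc * (Cc * b / Y)) ≤ 3 * Ca * (25 * K0 ^ 2 * L ^ 2 * (Cc * b / Y)) := by gcongr
      _ = 75 * (K0 ^ 2 * Ca * Cc) * L ^ 2 * (b * (1 / Y)) := by ring
      _ ≤ 75 * D * L ^ 2 * (b * V) := by gcongr
  have hU0 : 0 ≤ U := by linarith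
  have h5 : 2 * (15 * D * L * (Real.sqrt b * Z)) ≤ 10000 * D * L ^ 2 * (Real.sqrt b * U) := by
    calc 2 * (15 * D * L * (Real.sqrt b * Z)) ≤ 2 * (15 * D * L ^ 2 * (Real.sqrt b * (256 * U))) := by gcongr
      _ = 7680 * D * L ^ 2 * (Real.sqrt b * U) := by ring
      _ ≤ 10000 * D * L ^ 2 * (Real.sqrt b * U) := by
        gcongr
        norm_num
  have h6 : 75 * D * L ^ 2 * (b * V) ≤ 10000 * D * L ^ 2 * (b * V) := by
    have h7 : 0 ≤ V := hV0.le.trans hYV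
    gcongr
    norm_num
  linarith

theorem l1_coreq (R C0 α : ℝ) (hα : 1 / 4 < α) : ∃ C : ℝ, 1 ≤ C ∧ ∀ (N : ℕ) (B : Finset ℕ) (h : ℕ → G) (A : ℕ → ℝ → ℂ), 1 ≤ N →
    (∀ n ∈ B, N ≤ n ∧ n < 2 * N) → (∀ n ∈ B, Ent R (h n)) → (∀ n ∈ B, Amp C0 (A n)) →
    ∫ x in (-2 : ℝ)..2, ‖∑ n ∈ B, A n x * En (h n) n x‖ ≤
      C * (1 + Real.log N) ^ 2 * (Real.sqrt B.card * (N : ℝ) ^ α + B.card * (N : ℝ) ^ (α - 1 / 2)) := by
  obtain ⟨K, hK⟩ : ∃ K : ℕ, K = ⌈1 / (α - 1 / 4)⌉₊ := ⟨_, rfl⟩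
  have hα0 : 0 < 1 / (α - 1 / 4) := one_div_pos.2 (by linarith)
  have hK1 : 1 ≤ K := by
    rw [hK]
    exact Nat.one_le_iff_ne_zero.2 (Nat.ceil_pos.2 hα0).ne'
  have hK1' : (1 : ℝ) ≤ K := by exact_mod_cast hK1
  have hKα : 1 / (K : ℝ) ≤ α - 1 / 4 := by
    have h1 : 1 / (α - 1 / 4) ≤ K := by
      rw [hK]
      exact Nat.le_ceil _
    rw [div_le_iff₀ (by linarith : (0 : ℝ) < α - 1 / 4)] at h1
    rw [div_le_iff₀ (by linarith : (0 : ℝ) < (K : ℝ))]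
    linarith
  obtain ⟨Cp, hCp, hpair⟩ := pair_fd R C0
  obtain ⟨C1, hC1, hsep⟩ := sep R
  obtain ⟨Ca, hCa, harcs⟩ := arcs_lemma Cp
  obtain ⟨Cy, hCyd⟩ : ∃ Cy : ℝ, Cy = 4 * R ^ 2 + C1 := ⟨_, rfl⟩
  have hCy : 0 < Cy := by nlinarith [sq_nonneg R]
  obtain ⟨K0, hK0, hlevel⟩ := level Cy hCy
  obtain ⟨Cc, hCc, hclass⟩ := class_cov C1 Cy Ca K
  refine ⟨10000 * (K0 ^ 2 * Ca * Cc * Cp * C1), ?_, ?_⟩
  · have h1 : 1 ≤ K0 ^ 2 := one_le_pow₀ hK0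
    have h2 : 1 ≤ K0 ^ 2 * Ca := one_le_mul_of_one_le_of_one_le h1 hCa
    have h3 : 1 ≤ K0 ^ 2 * Ca * Cc := one_le_mul_of_one_le_of_one_le h2 hCc
    have h4 : 1 ≤ K0 ^ 2 * Ca * Cc * Cp := one_le_mul_of_one_le_of_one_le h3 hCp
    have h5 : 1 ≤ K0 ^ 2 * Ca * Cc * Cp * C1 := one_le_mul_of_one_le_of_one_le h4 hC1
    nlinarith
  intro N B h A hN hB hh hA
  have hN' : (1 : ℝ) ≤ N := by exact_mod_cast hN
  obtain ⟨Y, hYd⟩ : ∃ Y : ℝ, Y = (N : ℝ) ^ (1 / 4 : ℝ) := ⟨_, rfl⟩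
  have hY : 1 ≤ Y := by
    rw [hYd]
    exact Real.one_le_rpow hN' (by norm_num)
  have hY4 : Y ^ 4 = (N : ℝ) := by
    rw [hYd, ← Real.rpow_natCast, ← Real.rpow_mul (by linarith)]
    norm_num
  obtain ⟨M, hMd⟩ : ∃ M : ℝ, M = 256 * (N : ℝ) ^ (1 / (K : ℝ)) := ⟨_, rfl⟩
  have hM : 1 ≤ M := by
    rw [hMd]
    have h1 := Real.one_le_rpow hN' (by positivity : 0 ≤ 1 / (K : ℝ))
    linarith
  have hMK : 256 * Y ≤ M ^ K := by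
    have h1 : M ^ K = 256 ^ K * (N : ℝ) := by
      rw [hMd, mul_pow, ← Real.rpow_natCast ((N : ℝ) ^ (1 / (K : ℝ))) K, ← Real.rpow_mul (by linarith)]
      rw [one_div_mul_cancel (by linarith : (K : ℝ) ≠ 0), Real.rpow_one]
    have h2 : (256 : ℝ) ≤ 256 ^ K := le_self_pow₀ (by norm_num) (by omega)
    have h3 : Y ≤ N := by
      rw [← hY4]
      exact le_self_pow₀ hY (by norm_num)
    rw [h1]
    exact mul_le_mul h2 h3 (by linarith) (by positivity)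
  have hYM : Y * M ≤ 256 * (N : ℝ) ^ α := by
    have h1 : Y * M = 256 * (N : ℝ) ^ (1 / 4 + 1 / (K : ℝ)) := by
      rw [hYd, hMd, Real.rpow_add (by linarith)]
      ring
    rw [h1]
    refine mul_le_mul_of_nonneg_left (Real.rpow_le_rpow_of_exponent_le hN' (by linarith)) (by norm_num)
  have hYV : 1 / Y ≤ (N : ℝ) ^ (α - 1 / 2) := by
    have h1 : 1 / Y = (N : ℝ) ^ (-(1 / 4) : ℝ) := by
      rw [hYd, Real.rpow_neg (by linarith), one_div]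
    rw [h1]
    exact Real.rpow_le_rpow_of_exponent_le hN' (by linarith)
  obtain ⟨J, hJd⟩ : ∃ J : ℕ, J = ⌈Y⌉₊ := ⟨_, rfl⟩
  have hJa : Y ≤ J := by
    rw [hJd]
    exact Nat.le_ceil _
  have hJb : (J : ℝ) ≤ 2 * Y := by
    have h1 : (J : ℝ) < Y + 1 := by
      rw [hJd]
      exact Nat.ceil_lt_add_one (by linarith)
    linarith
  have hJ1 : 1 ≤ J := by
    have h1 : (1 : ℝ) ≤ J := by linarith
    exact_mod_cast h1
  obtain ⟨y, hyd⟩ : ∃ y : ℕ → T3, y = fun n => yv (N : ℝ) (h n) n := ⟨_, rfl⟩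
  obtain ⟨w, hwd⟩ : ∃ w : ℕ → ℝ → ℂ, w = fun n x => A n x * En (h n) n x := ⟨_, rfl⟩
  have hBr : ∀ n ∈ B, (N : ℝ) ≤ n ∧ (n : ℝ) ≤ 2 * N := by
    intro n hn
    constructor
    · exact_mod_cast (hB n hn).1
    · exact_mod_cast (hB n hn).2.le
  have hfd : ∀ n ∈ B, ∀ m ∈ B, FD Cp N (y n - y m) (fun x => w n x * star (w m x)) := by
    intro n hn m hm
    rw [hyd, hwd]
    exact hpair N n m (h n) (h m) (A n) (A m) hN' (hBr n hn).1 (hBr n hn).2 (hBr m hm).1 (hBr m hm).2 (hh n hn) (hh m hm)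
      (hA n hn) (hA m hm)
  have hsepB : ∀ n ∈ B, ∀ m ∈ B, |(n : ℝ) - m| ≤ C1 * ((N : ℝ) * ‖y n - y m‖) := by
    intro n hn m hm
    rw [hyd]
    exact hsep N n m (h n) (h m) hN' (hBr n hn).1 (hBr n hn).2 (hBr m hm).1 (hBr m hm).2 (hh n hn) (hh m hm)
  have hy : ∀ n ∈ B, ‖y n‖ ≤ 2 * R ^ 2 := by
    intro n hn
    rw [hyd]
    exact yv_le (hh n hn) hN' (hBr n hn).1
  have hlow : ∀ n ∈ B, ∀ m ∈ B, n ≠ m → 1 / (C1 * N) ≤ ‖y n - y m‖ := by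
    intro n hn m hm hnm
    have h1 := hsepB n hn m hm
    have h2 : (1 : ℝ) ≤ |(n : ℝ) - m| := by
      have h3 : (1 : ℤ) ≤ |(n : ℤ) - m| := Int.one_le_abs (sub_ne_zero.2 (by exact_mod_cast hnm))
      exact_mod_cast h3
    rw [div_le_iff₀ (by positivity)]
    calc (1 : ℝ) ≤ C1 * ((N : ℝ) * ‖y n - y m‖) := h2.trans h1
      _ = ‖y n - y m‖ * (C1 * N) := by ring
  have hz0 : ∀ n ∈ B, ∀ m ∈ B, n ≠ m → y n - y m ≠ 0 := by
    intro n hn m hm hnm h0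
    have h1 := hlow n hn m hm hnm
    rw [h0, norm_zero] at h1
    have h2 : 0 < 1 / (C1 * N) := by positivity
    linarith
  -- arcs
  have key1 : ∀ n m, ∃ NJ : Finset ℕ, n ∈ B → m ∈ B → n ≠ m → NJ ⊆ range J ∧ NJ.card ≤ 8 ∧
      (∀ w' : ℝ, 0 < w' → Lev N (y n - y m) w' → ∀ j < J, ‖∫ x in (arc J j)..(arc J (j + 1)), w n x * star (w m x)‖ ≤ Ca * w') ∧
      (∑ j ∈ range J \ NJ, ‖∫ x in (arc J j)..(arc J (j + 1)), w n x * star (w m x)‖ ≤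
        Ca * (J : ℝ) ^ 2 / (N * ‖y n - y m‖)) ∧
      (|(y n - y m) 0| < ‖y n - y m‖ / 256 → |qD (y n - y m)| ≤ ‖y n - y m‖ ^ 2 / 256 → NJ = ∅) ∧
      (∀ ε : ℝ, 0 ≤ ε → ‖y n - y m‖ / 256 ≤ |(y n - y m) 0| → |qD (y n - y m)| ≤ ε ^ 2 * ‖y n - y m‖ ^ 2 →
        ∀ j ∈ NJ, |arc J j - qc (y n - y m)| ≤ Ca * (1 / J + ε)) := by
    intro n m
    by_cases hc : n ∈ B ∧ m ∈ B ∧ n ≠ m
    · obtain ⟨hn, hm, hnm⟩ := hc
      obtain ⟨NJ, h1, h2, h3, h4, h5⟩ := harcs N (y n - y m) (fun x => w n x * star (w m x)) J hN' hJ1 (hz0 n hn m hm hnm)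
        (hfd n hn m hm)
      refine ⟨NJ ∩ range J, fun _ _ _ => ⟨inter_subset_right, (card_le_card inter_subset_left).trans h1, h2, ?_, ?_, ?_⟩⟩
      · have h6 : range J \ (NJ ∩ range J) = range J \ NJ := by
          ext j
          simp only [mem_sdiff, mem_inter]
          tauto
        rw [h6]
        exact h3
      · intro ha hb
        rw [h4 ha hb, empty_inter]
      · intro ε he ha hb j hj
        exact h5 ε he ha hb j (mem_inter.1 hj).1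
    · exact ⟨∅, fun h1 h2 h3 => absurd ⟨h1, h2, h3⟩ hc⟩
  choose NJ hNJ using key1
  -- levels
  have key2 : ∀ n m, ∃ i j : ℤ, n ∈ B → m ∈ B → n ≠ m → |(i : ℝ)| ≤ K0 * (1 + Real.log N) ∧ |(j : ℝ)| ≤ K0 * (1 + Real.log N) ∧
      (2 : ℝ) ^ i ≤ ‖y n - y m‖ ∧ ‖y n - y m‖ < 2 ^ (i + 1) ∧ Lev N (y n - y m) (2 ^ j) ∧ ¬Lev N (y n - y m) (2 ^ (j - 1)) := by
    intro n m
    by_cases hc : n ∈ B ∧ m ∈ B ∧ n ≠ m
    · obtain ⟨hn, hm, hnm⟩ := hc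
      have h1 : 1 / (Cy * N) ≤ ‖y n - y m‖ := by
        refine le_trans ?_ (hlow n hn m hm hnm)
        refine one_div_le_one_div_of_le (by positivity) ?_
        refine mul_le_mul_of_nonneg_right ?_ (by linarith)
        rw [hCyd]
        nlinarith [sq_nonneg R]
      have h2 : ‖y n - y m‖ ≤ Cy := by
        refine (norm_sub_le _ _).trans ?_
        have h3 := hy n hn
        have h4 := hy m hm
        rw [hCyd]
        linarith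
      obtain ⟨i, j, h3⟩ := hlevel N (y n - y m) hN' (hz0 n hn m hm hnm) h1 h2
      exact ⟨i, j, fun _ _ _ => h3⟩
    · exact ⟨0, 0, fun h1 h2 h3 => absurd ⟨h1, h2, h3⟩ hc⟩
  choose ii jj hij using key2
  -- symmetric levels
  have hsym : ∀ n ∈ B, ∀ m ∈ B, n ≠ m → min n m ∈ B ∧ max n m ∈ B ∧ min n m ≠ max n m ∧
      (y (min n m) - y (max n m) = y n - y m ∨ y (min n m) - y (max n m) = -(y n - y m)) := by
    intro n hn m hm hnm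
    rcases lt_or_gt_of_ne hnm with h1 | h1
    · rw [min_eq_left h1.le, max_eq_right h1.le]
      exact ⟨hn, hm, hnm, Or.inl rfl⟩
    · rw [min_eq_right h1.le, max_eq_left h1.le]
      exact ⟨hm, hn, hnm.symm, Or.inr (neg_sub _ _).symm⟩
  have hij' : ∀ n ∈ B, ∀ m ∈ B, n ≠ m → |(ii (min n m) (max n m) : ℝ)| ≤ K0 * (1 + Real.log N) ∧
      |(jj (min n m) (max n m) : ℝ)| ≤ K0 * (1 + Real.log N) ∧ (2 : ℝ) ^ (ii (min n m) (max n m)) ≤ ‖y n - y m‖ ∧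
      ‖y n - y m‖ < 2 ^ (ii (min n m) (max n m) + 1) ∧ Lev N (y n - y m) (2 ^ (jj (min n m) (max n m))) ∧
      ¬Lev N (y n - y m) (2 ^ (jj (min n m) (max n m) - 1)) := by
    intro n hn m hm hnm
    obtain ⟨h1, h2, h3, h4⟩ := hsym n hn m hm hnm
    have h5 := hij _ _ h1 h2 h3
    rcases h4 with h4 | h4
    · rw [h4] at h5
      exact h5
    · rw [h4, norm_neg] at h5
      refine ⟨h5.1, h5.2.1, h5.2.2.1, h5.2.2.2.1, L1q_neg h5.2.2.2.2.1, fun h6 => h5.2.2.2.2.2 (L1q_neg ?_)⟩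
      rw [neg_neg]
      exact h6
  obtain ⟨wt, hwt⟩ : ∃ wt : ℕ → ℕ → ℝ, ∀ n m, wt n m = 2 ^ (jj (min n m) (max n m)) := ⟨_, fun _ _ => rfl⟩
  have hwt0 : ∀ n m, 0 ≤ wt n m := by
    intro n m
    rw [hwt]
    positivity
  have hwts : ∀ n m, wt n m = wt m n := by
    intro n m
    rw [hwt, hwt, min_comm, max_comm]
  obtain ⟨L, hL⟩ : ∃ L : ℝ, L = 1 + Real.log N := ⟨_, rfl⟩
  have hL1 : 1 ≤ L := by
    rw [hL]
    linarith [Real.log_nonneg hN']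
  obtain ⟨KK, hKK⟩ : ∃ KK : Finset (ℤ × ℤ), KK = Icc (-⌈K0 * L⌉) ⌈K0 * L⌉ ×ˢ Icc (-⌈K0 * L⌉) ⌈K0 * L⌉ := ⟨_, rfl⟩
  have hKcard : (KK.card : ℝ) ≤ 25 * K0 ^ 2 * L ^ 2 := by
    rw [hKK]
    exact L1q_card K0 L hK0 hL1
  have hyCy : ∀ n ∈ B, ‖y n‖ ≤ Cy := by
    intro n hn
    refine (hy n hn).trans ?_
    rw [hCyd]
    nlinarith [sq_nonneg R]
  -- the covering
  have hcov0 : Cov J NJ wt (fun n m => ∃ κ ∈ KK, n ∈ B ∧ m ∈ B ∧ n ≠ m ∧ (2 : ℝ) ^ κ.1 ≤ ‖y n - y m‖ ∧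
      ‖y n - y m‖ < 2 * (2 : ℝ) ^ κ.1 ∧ ¬Lev N (y n - y m) ((2 : ℝ) ^ κ.2 / 2) ∧ (NJ n m).Nonempty ∧ wt n m ≤ (2 : ℝ) ^ κ.2)
      (∑ κ ∈ KK, Cc * B.card * (Y * M) ^ 2) (∑ κ ∈ KK, Cc * B.card / Y) := by
    refine Cov.sum hwt0 KK _ _ _ fun κ _ => ?_
    exact hclass Y M N B y J NJ wt hY hM hY4 hMK hB hyCy hsepB hJa (fun n hn m hm hnm => (hNJ n m hn hm hnm).1)
      (fun n hn m hm hnm => (hNJ n m hn hm hnm).2.2.2.2.1) (fun n hn m hm hnm => (hNJ n m hn hm hnm).2.2.2.2.2)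
      hwt0 hwts (2 ^ κ.1) (2 ^ κ.2) (by positivity) (by positivity)
  have hcov : Cov J NJ wt (fun n m => n ∈ B ∧ m ∈ B ∧ n ≠ m ∧ (NJ n m).Nonempty) (KK.card * (Cc * B.card * (Y * M) ^ 2))
      (KK.card * (Cc * B.card / Y)) := by
    rw [sum_const, sum_const, nsmul_eq_mul, nsmul_eq_mul] at hcov0
    refine hcov0.mono ?_ le_rfl le_rfl
    rintro n m ⟨hn, hm, hnm, hne⟩
    obtain ⟨h1, h2, h3, h4, h5, h6⟩ := hij' n hn m hm hnm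
    refine ⟨(ii (min n m) (max n m), jj (min n m) (max n m)), ?_, hn, hm, hnm, h3, ?_, ?_, hne, ?_⟩
    · rw [hKK]
      refine L1q_mem K0 L _ _ ?_ ?_
      · rw [hL]
        exact h1
      · rw [hL]
        exact h2
    · refine lt_of_lt_of_eq h4 ?_
      rw [zpow_add₀ (by norm_num : (2 : ℝ) ≠ 0), zpow_one, mul_comm]
    · have h7 : (2 : ℝ) ^ (jj (min n m) (max n m)) / 2 = 2 ^ (jj (min n m) (max n m) - 1) := by
        rw [zpow_sub₀ (by norm_num : (2 : ℝ) ≠ 0), zpow_one]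
      change ¬Lev N (y n - y m) ((2 : ℝ) ^ (jj (min n m) (max n m)) / 2)
      rw [h7]
      exact h6
    · rw [hwt]
  have hwc : ∀ n ∈ B, ContinuousOn (w n) (Set.Icc (-2) 2) := by
    intro n hn
    rw [hwd]
    refine ContinuousOn.mul (hA n hn).diff.continuous.continuousOn ?_
    intro x _
    exact (En_deriv (h n) n x).continuousAt.continuousWithinAt
  have harc1 : ∀ j, arc J j ≤ arc J (j + 1) := by
    intro j
    unfold arc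
    have h1 : (0 : ℝ) < J := by exact_mod_cast hJ1
    push_cast
    have h2 : 4 * (j : ℝ) / J ≤ 4 * ((j : ℝ) + 1) / J := by
      gcongr
      linarith
    linarith
  have harc2 : ∀ j < J, Set.Icc (arc J j) (arc J (j + 1)) ⊆ Set.Icc (-2) 2 := by
    intro j hj x hx
    unfold arc at hx
    have h1 : (0 : ℝ) < J := by exact_mod_cast hJ1
    have h2 : ((j : ℝ) + 1) ≤ J := by exact_mod_cast hj
    have h3 : 0 ≤ 4 * (j : ℝ) / J := by positivity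
    have h4 : 4 * ((j : ℝ) + 1) / J ≤ 4 := by
      rw [div_le_iff₀ h1]
      linarith
    push_cast at hx
    constructor
    · linarith [hx.1]
    · linarith [hx.2]
  have harc3 : ∀ j, arc J (j + 1) - arc J j = 4 / J := by
    intro j
    unfold arc
    have h1 : (0 : ℝ) < J := by exact_mod_cast hJ1
    push_cast
    field_simp
    ring
  have hdiag : ∀ n ∈ B, ∑ j ∈ range J, ‖∫ x in (arc J j)..(arc J (j + 1)), w n x * star (w n x)‖ ≤ 4 * Cp := by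
    intro n hn
    have h1 : ∀ j ∈ range J, ‖∫ x in (arc J j)..(arc J (j + 1)), w n x * star (w n x)‖ ≤ Cp * (4 / J) := by
      intro j hj
      rw [mem_range] at hj
      have h2 := intervalIntegral.norm_integral_le_of_norm_le_const (a := arc J j) (b := arc J (j + 1))
        (f := fun x => w n x * star (w n x)) (C := Cp) (fun x hx => by
          rw [Set.uIoc_of_le (harc1 j)] at hx
          exact (hfd n hn n hn).bd x (harc2 j hj ⟨hx.1.le, hx.2⟩))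
      rw [harc3, abs_of_nonneg (by positivity)] at h2
      exact h2
    refine (sum_le_sum h1).trans ?_
    rw [sum_const, card_range, nsmul_eq_mul]
    have h2 : (0 : ℝ) < J := by exact_mod_cast hJ1
    have h3 : (J : ℝ) * (Cp * (4 / J)) = 4 * Cp := by
      field_simp
    exact h3.le
  have hlev : ∀ n ∈ B, ∀ m ∈ B, n ≠ m → ∀ j < J, ‖∫ x in (arc J j)..(arc J (j + 1)), w n x * star (w m x)‖ ≤ Ca * wt n m := by
    intro n hn m hm hnm j hj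
    rw [hwt]
    exact (hNJ n m hn hm hnm).2.2.1 _ (by positivity) (hij' n hn m hm hnm).2.2.2.2.1 j hj
  have hfin := l1_cov C1 Ca Cp hCa hC1 N hN Y J hJ1 hJb B hB y hsepB (fun x => ∑ n ∈ B, w n x)
    (continuousOn_finsetSum B hwc) (fun n m j => ‖∫ x in (arc J j)..(arc J (j + 1)), w n x * star (w m x)‖)
    (fun _ _ _ => norm_nonneg _) (fun j hj => sq_norm_sum B w _ _ (harc1 j) fun n hn => (hwc n hn).mono (harc2 j hj)) hdiag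
    NJ (fun n hn m hm hnm => (hNJ n m hn hm hnm).2.1) (fun n hn m hm hnm => (hNJ n m hn hm hnm).2.2.2.1)
    (fun n hn m hm hnm => (hNJ n m hn hm hnm).1) wt hwt0 hlev _ _ hcov
  have hnum := L1q_num C1 Ca K0 Cc Cp L B.card KK.card Y (Y * M) ((N : ℝ) ^ α) ((N : ℝ) ^ (α - 1 / 2)) hCa hK0 hCc hCp hC1 hL1
    (Nat.cast_nonneg _) hY (le_mul_of_one_le_right (by linarith) hM) hYM hYV hKcard
  rw [hL] at hnum
  rw [hwd] at hfin
  exact hfin.trans hnum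

end MPku
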