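import Pool.Agent.Lib.MP_7b255b_ntU.F1
import Pool.Agent.Lib.MP_7b255b_ntU.F2
import Pool.Agent.Lib.MP_7b255b_ntU.L1q

/-!
# F3: large values in a chart

JOB F3. `b n` = a complex number of modulus `≤ 1` with `b n * T (vf χ s (h n) n) = ‖T (vf χ s (h n) n)‖` (`b n = conj(T v) / ‖T v‖`), `u = ∑_{n ∈ B} b n • vf χ s (h n) n`: a test function vanishing for `|x| > 2`.
* `|B| lam ≤ ∑ ‖T v_n‖ = T u` (`Scal.sum`, `Scal.smul`), real, so `≤ ‖T u‖`. Apply `func_bound` with the real number `N`.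
* `iteratedDeriv k u = ∑ b n • iteratedDeriv k (v_n) = N^k ∑ (b n A_{n,k}) En (h n) n` (`iteratedDeriv_sum`-like; `amp_bound` with `K + 1` in place of `K`), and `x ↦ b n * A_{n,k} x` is `Amp C0`. So
  `(N^k)⁻¹ ∫_{-2}^{2} ‖iteratedDeriv k u‖ = ∫_{-2}^{2} ‖∑ (b n A_{n,k}) En‖ ≤` the bound of `l1_coreq`. Sum over `k < K + 2`.
* exponents: `N^((1-σ)/2) N^α = N^(-σ/2) N^(1/2 + α)`, `N^((1-σ)/2) N^(α - 1/2) = N^(-σ/2) N^α` (`Real.rpow_add`).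
-/

set_option autoImplicit false

namespace MPku

open MPkt Finset

theorem chart_large {χ : ℝ → ℂ} (hχ : TF χ) (hs : ∀ x, 2 < |x| → χ x = 0) (s : ℂ) (R : ℝ) (K : ℕ) (C1 α : ℝ) (hα : 1 / 4 < α) : ∃ C : ℝ, 1 ≤ C ∧
    ∀ (T : (ℝ → ℂ) → ℂ) (N : ℕ) (B : Finset ℕ) (h : ℕ → G) (lam : ℝ), Scal T C1 K s.re → 1 ≤ N → (∀ n ∈ B, N ≤ n ∧ n < 2 * N) →
      (∀ n ∈ B, Ent R (h n)) → (∀ n ∈ B, lam ≤ ‖T (vf χ s (h n) n)‖) →
      B.card * lam ≤ C * (1 + Real.log N) ^ 2 * (N : ℝ) ^ (-s.re / 2) *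
        (Real.sqrt B.card * (N : ℝ) ^ (1 / 2 + α) + B.card * (N : ℝ) ^ α) := by
  classical
  obtain ⟨CF, hCF, hF⟩ := func_bound K s.re C1
  obtain ⟨C0, hC0, hA⟩ := amp_bound hχ hs s R (K + 1)
  obtain ⟨CL, hCL, hL⟩ := l1_coreq R C0 α hα
  refine ⟨CF * ((K + 2 : ℕ) * CL), ?_, ?_⟩
  · have h1 : (1 : ℝ) ≤ ((K + 2 : ℕ) : ℝ) := by exact_mod_cast (by omega : 1 ≤ K + 2)
    exact one_le_mul_of_one_le_of_one_le hCF (one_le_mul_of_one_le_of_one_le h1 hCL)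
  intro T N B h lam hT hN hB hE hlam
  have hN1 : (1 : ℝ) ≤ N := by exact_mod_cast hN
  have hN0 : (0 : ℝ) < N := by linarith
  -- the signs
  obtain ⟨b, hb⟩ : ∃ b : ℕ → ℂ, ∀ n, ‖b n‖ ≤ 1 ∧ b n * T (vf χ s (h n) n) = ((‖T (vf χ s (h n) n)‖ : ℝ) : ℂ) := by
    refine ⟨fun n => (starRingEnd ℂ) (T (vf χ s (h n) n)) / ((‖T (vf χ s (h n) n)‖ : ℝ) : ℂ), fun n => ?_⟩
    by_cases h0 : T (vf χ s (h n) n) = 0
    · simp [h0]
    · have h1 : ‖T (vf χ s (h n) n)‖ ≠ 0 := norm_ne_zero_iff.2 h0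
      constructor
      · rw [norm_div, RCLike.norm_conj, Complex.norm_real, norm_norm, div_self h1]
      · rw [div_mul_eq_mul_div, mul_comm ((starRingEnd ℂ) _), Complex.mul_conj, Complex.normSq_eq_norm_sq, Complex.ofReal_pow,
          pow_two, mul_div_assoc, div_self (Complex.ofReal_ne_zero.2 h1), mul_one]
  have hv : ∀ n, TF (vf χ s (h n) n) := fun n => vf_TF hχ s (h n) n
  obtain ⟨u, hu⟩ : ∃ u : ℝ → ℂ, u = ∑ n ∈ B, b n • vf χ s (h n) n := ⟨_, rfl⟩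
  have huTF : TF u := by
    rw [hu]
    exact TF.sum B _ fun n _ => (hv n).smul (b n)
  have hu0 : ∀ x, 2 < |x| → u x = 0 := by
    intro x hx
    rw [hu, Finset.sum_apply]
    refine Finset.sum_eq_zero fun n _ => ?_
    show b n * (χ x * ((Qh (h n) x : ℝ) : ℂ) ^ (-(1 + s) / 2) * En (h n) n x) = 0
    rw [hs x hx, zero_mul, zero_mul, mul_zero]
  have hTu : ‖T u‖ = ∑ n ∈ B, ‖T (vf χ s (h n) n)‖ := by
    have h1 : T u = ((∑ n ∈ B, ‖T (vf χ s (h n) n)‖ : ℝ) : ℂ) := by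
      rw [hu, hT.sum B _ fun n _ => (hv n).smul (b n), Complex.ofReal_sum]
      refine Finset.sum_congr rfl fun n _ => ?_
      rw [hT.smul (b n) _ (hv n), (hb n).2]
    rw [h1, Complex.norm_real, Real.norm_of_nonneg (Finset.sum_nonneg fun n _ => norm_nonneg _)]
  have hlow : B.card * lam ≤ ‖T u‖ := by
    rw [hTu, ← nsmul_eq_mul]
    exact Finset.card_nsmul_le_sum B _ lam hlam
  obtain ⟨Z, hZ⟩ : ∃ Z : ℝ, Z = CL * (1 + Real.log N) ^ 2 *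
      (Real.sqrt B.card * (N : ℝ) ^ α + B.card * (N : ℝ) ^ (α - 1 / 2)) := ⟨_, rfl⟩
  have hterm : ∀ k ∈ range (K + 2), ((N : ℝ) ^ k)⁻¹ * ∫ x in (-2 : ℝ)..2, ‖iteratedDeriv k u x‖ ≤ Z := by
    intro k hk
    rw [Finset.mem_range] at hk
    have h1 : ∀ n, ∃ A : ℝ → ℂ, n ∈ B → (Amp C0 A ∧
        ∀ x, iteratedDeriv k (vf χ s (h n) n) x = (N : ℂ) ^ k * (A x * En (h n) n x)) := by
      intro n
      by_cases hn : n ∈ B
      · obtain ⟨A, hA1, hA2⟩ := hA N n (h n) hN (hB n hn).1 (hB n hn).2 (hE n hn) k (by omega)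
        exact ⟨A, fun _ => ⟨hA1, hA2⟩⟩
      · exact ⟨0, fun h => absurd h hn⟩
    choose A hA' using h1
    have hder : ∀ x, iteratedDeriv k u x = (N : ℂ) ^ k * ∑ n ∈ B, (b n * A n x) * En (h n) n x := by
      intro x
      have h2 : iteratedDeriv k u x = ∑ n ∈ B, b n * iteratedDeriv k (vf χ s (h n) n) x := by
        have h5 : ∀ n, ContDiffAt ℝ (k : ℕ) (b n • vf χ s (h n) n) x := fun n =>
          (((hv n).smul (b n)).1.of_le (by exact_mod_cast le_top)).contDiffAt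
        rw [hu, iteratedDeriv_sum fun n _ => h5 n]
        refine Finset.sum_congr rfl fun n _ => ?_
        rw [iteratedDeriv_const_smul_field, smul_eq_mul]
      rw [h2, Finset.mul_sum]
      refine Finset.sum_congr rfl fun n hn => ?_
      rw [(hA' n hn).2 x]
      ring
    have h3 : ∫ x in (-2 : ℝ)..2, ‖iteratedDeriv k u x‖ =
        (N : ℝ) ^ k * ∫ x in (-2 : ℝ)..2, ‖∑ n ∈ B, (b n * A n x) * En (h n) n x‖ := by
      rw [← intervalIntegral.integral_const_mul]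
      refine intervalIntegral.integral_congr fun x _ => ?_
      show ‖iteratedDeriv k u x‖ = (N : ℝ) ^ k * ‖∑ n ∈ B, (b n * A n x) * En (h n) n x‖
      rw [hder, norm_mul, norm_pow, Complex.norm_natCast]
    rw [h3, ← mul_assoc, inv_mul_cancel₀ (pow_ne_zero _ hN0.ne'), one_mul, hZ]
    refine hL N B h (fun n x => b n * A n x) hN hB hE fun n hn => ?_
    have hAn := (hA' n hn).1
    refine ⟨contDiff_const.mul hAn.diff, fun x => ?_, fun x => ?_⟩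
    · rw [norm_mul]
      calc ‖b n‖ * ‖A n x‖ ≤ 1 * C0 := mul_le_mul (hb n).1 (hAn.bd x) (norm_nonneg _) zero_le_one
        _ = C0 := one_mul _
    · have h4 : deriv (fun x => b n * A n x) x = b n * deriv (A n) x :=
        deriv_const_mul_field (b n)
      rw [h4, norm_mul]
      calc ‖b n‖ * ‖deriv (A n) x‖ ≤ 1 * C0 := mul_le_mul (hb n).1 (hAn.bd' x) (norm_nonneg _) zero_le_one
        _ = C0 := one_mul _
  have hsum : ∑ k ∈ range (K + 2), ((N : ℝ) ^ k)⁻¹ * ∫ x in (-2 : ℝ)..2, ‖iteratedDeriv k u x‖ ≤ (K + 2 : ℕ) * Z := by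
    have h1 := Finset.sum_le_card_nsmul (range (K + 2)) _ Z hterm
    rwa [Finset.card_range, nsmul_eq_mul] at h1
  have hmain := hF T N u hT hN1 huTF hu0
  have hP0 : 0 ≤ CF * (N : ℝ) ^ ((1 - s.re) / 2) := mul_nonneg (by linarith) (Real.rpow_nonneg hN0.le _)
  have e1 : (N : ℝ) ^ ((1 - s.re) / 2) * (N : ℝ) ^ α = (N : ℝ) ^ (-s.re / 2) * (N : ℝ) ^ (1 / 2 + α) := by
    rw [← Real.rpow_add hN0, ← Real.rpow_add hN0]
    congr 1
    ring
  have e2 : (N : ℝ) ^ ((1 - s.re) / 2) * (N : ℝ) ^ (α - 1 / 2) = (N : ℝ) ^ (-s.re / 2) * (N : ℝ) ^ α := by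
    rw [← Real.rpow_add hN0, ← Real.rpow_add hN0]
    congr 1
    ring
  calc B.card * lam ≤ ‖T u‖ := hlow
    _ ≤ CF * (N : ℝ) ^ ((1 - s.re) / 2) * ((K + 2 : ℕ) * Z) := hmain.trans (mul_le_mul_of_nonneg_left hsum hP0)
    _ = CF * ((K + 2 : ℕ) * CL) * (1 + Real.log N) ^ 2 * (Real.sqrt B.card * ((N : ℝ) ^ ((1 - s.re) / 2) * (N : ℝ) ^ α) +
        B.card * ((N : ℝ) ^ ((1 - s.re) / 2) * (N : ℝ) ^ (α - 1 / 2))) := by
      rw [hZ]
      ring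
    _ = _ := by
      rw [e1, e2]
      ring

end MPku
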