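import Pool.Agent.Lib.MP_7b255b_ntU.P0

/-!
# Fo0: homogeneous functions

JOB Fo0.
* `Hm_act`: `F ∘ act g` is smooth on `v ≠ 0` (`act g` maps this set to itself, linear) and homogeneous (`act_smul`).
* `Hm_em`: `em s n v = |v|^(-(1+s)) * ((v.1 - i v.2)/|v|)^n`, `|v| = √(v.1^2 + v.2^2)`, smooth for `v ≠ 0` (`v.1^2 + v.2^2 > 0`; complex power of a positive real number: `Complex.ofReal_cpow`/`exp(-(1+s) log |v|)`; `zpow` of a nonzero smooth
  function). `em_circ`: `em s n (circ θ) = exp(-(n θ I))` (`cos θ - i sin θ = exp(-iθ)`).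
* `Hm_Fw`: on the open upper half plane `Fw s w v = v.2^(-(1+s)) w(v.1/v.2)` is smooth; near a point `v ≠ 0` with `v.2 ≤ 0`: if `v.2 < 0` it is `0` near `v`; if `v.2 = 0`, `v.1 ≠ 0`, then `|v'.1 / v'.2|` is larger than the support
  radius of `w` for `v'` near `v` with `v'.2 > 0`, so it is `0` near `v`.
* `Fw_scale`: `lam > 0`: with `g = [[lam^(1/2), -x0 lam^(1/2)], [0, lam^(-1/2)]]`, `act g v = (lam^(1/2) (v.1 - x0 v.2), lam^(-1/2) v.2)`, `Fw s w (act g v) = (lam^(-1/2) v.2)^(-(1+s)) w (lam (v.1 / v.2 - x0))`.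
* `Fw_vf`: `act h v = v.2 • act h (v.1/v.2, 1)` for `v.2 > 0`, `|act h (x, 1)|^2 = Qh h x`, `(act h (x,1)).1 - i (act h (x,1)).2 = zt h x`; homogeneity of `em`; `(√Q)^(-(1+s)) = Q^(-(1+s)/2)`.
-/

set_option autoImplicit false

namespace MPku

open MPkt

/-- The complex power of a positive smooth function. -/
private theorem Fo0_cpow {E : Type*} [NormedAddCommGroup E] [NormedSpace ℝ E] {f : E → ℝ} {x : E}
    (hf : ContDiffAt ℝ ((⊤ : ℕ∞) : WithTop ℕ∞) f x) (hx : 0 < f x) (c : ℂ) :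
    ContDiffAt ℝ ((⊤ : ℕ∞) : WithTop ℕ∞) (fun y => ((f y : ℝ) : ℂ) ^ c) x := by
  have h1 : ContDiffAt ℝ ((⊤ : ℕ∞) : WithTop ℕ∞) (fun y => Complex.exp (((Real.log (f y) : ℝ) : ℂ) * c)) x := by
    have h2 : ContDiffAt ℝ ((⊤ : ℕ∞) : WithTop ℕ∞) (fun y => ((Real.log (f y) : ℝ) : ℂ)) x :=
      (Complex.ofRealCLM.contDiff.contDiffAt).comp x (hf.log hx.ne')
    exact (h2.mul contDiffAt_const).cexp
  refine h1.congr_of_eventuallyEq ?_
  have h3 : ∀ᶠ y in nhds x, 0 < f y := hf.continuousAt.eventually (lt_mem_nhds hx)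
  filter_upwards [h3] with y hy
  rw [Complex.cpow_def_of_ne_zero (Complex.ofReal_ne_zero.2 hy.ne'), ← Complex.ofReal_log hy.le]

private theorem Fo0_zpow {E : Type*} [NormedAddCommGroup E] [NormedSpace ℝ E] {f : E → ℂ} {x : E}
    (hf : ContDiffAt ℝ ((⊤ : ℕ∞) : WithTop ℕ∞) f x) (hx : f x ≠ 0) (n : ℤ) :
    ContDiffAt ℝ ((⊤ : ℕ∞) : WithTop ℕ∞) (fun y => f y ^ n) x := by
  cases n with
  | ofNat n =>
    simp only [Int.ofNat_eq_natCast, zpow_natCast]
    exact hf.pow n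
  | negSucc n =>
    simp only [zpow_negSucc]
    exact (hf.pow (n + 1)).inv (pow_ne_zero _ hx)

private theorem Fo0_sq {v : ℝ × ℝ} (hv : v ≠ 0) : 0 < v.1 ^ 2 + v.2 ^ 2 := by
  by_contra h
  have h1 : v.1 ^ 2 = 0 := by nlinarith [sq_nonneg v.1, sq_nonneg v.2]
  have h2 : v.2 ^ 2 = 0 := by nlinarith [sq_nonneg v.1, sq_nonneg v.2]
  exact hv (Prod.ext (pow_eq_zero_iff (by norm_num) |>.1 h1) (pow_eq_zero_iff (by norm_num) |>.1 h2))

private theorem Fo0_ne {v : ℝ × ℝ} (hv : v ≠ 0) : (v.1 : ℂ) - (v.2 : ℂ) * Complex.I ≠ 0 := by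
  intro h
  have h1 := congrArg Complex.re h
  have h2 := congrArg Complex.im h
  simp at h1 h2
  exact hv (Prod.ext h1 h2)

private theorem Fo0_fst : ContDiff ℝ ((⊤ : ℕ∞) : WithTop ℕ∞) (fun v : ℝ × ℝ => (v.1 : ℂ)) :=
  Complex.ofRealCLM.contDiff.comp contDiff_fst

private theorem Fo0_snd : ContDiff ℝ ((⊤ : ℕ∞) : WithTop ℕ∞) (fun v : ℝ × ℝ => (v.2 : ℂ)) :=
  Complex.ofRealCLM.contDiff.comp contDiff_snd

private theorem Fo0_mul_cpow {r x : ℝ} (hr : 0 < r) (hx : 0 < x) (c : ℂ) :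
    ((r * x : ℝ) : ℂ) ^ c = (r : ℂ) ^ c * (x : ℂ) ^ c := by
  rw [Complex.ofReal_mul, Complex.mul_cpow_ofReal_nonneg hr.le hx.le]

private theorem Fo0_sqrt_cpow {q : ℝ} (hq : 0 < q) (c : ℂ) :
    ((Real.sqrt q : ℝ) : ℂ) ^ c = (q : ℂ) ^ (c / 2) := by
  have h1 := Real.sqrt_pos.2 hq
  rw [Complex.cpow_def_of_ne_zero (Complex.ofReal_ne_zero.2 h1.ne'),
    Complex.cpow_def_of_ne_zero (Complex.ofReal_ne_zero.2 hq.ne'), ← Complex.ofReal_log h1.le,
    ← Complex.ofReal_log hq.le, Real.log_sqrt hq.le]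
  push_cast
  ring_nf

private theorem Fo0_circ_ne (θ : ℝ) : circ θ ≠ 0 := by
  intro h
  have h1 : Real.cos θ = 0 := congrArg Prod.fst h
  have h2 : Real.sin θ = 0 := congrArg Prod.snd h
  have h3 := Real.sin_sq_add_cos_sq θ
  rw [h1, h2] at h3
  norm_num at h3

private theorem Fo0_circ_smooth : ContDiff ℝ ((⊤ : ℕ∞) : WithTop ℕ∞) circ :=
  Real.contDiff_cos.prodMk Real.contDiff_sin

private theorem Fo0_circ_add (θ : ℝ) : circ (θ + 2 * Real.pi) = circ θ := by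
  unfold circ
  rw [Real.cos_add_two_pi, Real.sin_add_two_pi]

private theorem Fo0_deriv {f : ℝ → ℂ} {x : ℝ} (hf : ContDiffAt ℝ ((⊤ : ℕ∞) : WithTop ℕ∞) f x) :
    ContDiffAt ℝ ((⊤ : ℕ∞) : WithTop ℕ∞) (deriv f) x := by
  have h1 : ContDiffAt ℝ ((⊤ : ℕ∞) : WithTop ℕ∞) (fderiv ℝ f) x := hf.fderiv_right (by exact le_of_eq rfl)
  have h2 : deriv f = fun y => fderiv ℝ f y 1 := by
    funext y
    exact fderiv_apply_one_eq_deriv.symm
  rw [h2]
  exact h1.clm_apply contDiffAt_const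

/-- The iterated derivatives in the second variable are smooth functions of both variables. -/
private theorem Fo0_joint {Φ : ℝ × ℝ → ℂ} (hΦ : ContDiff ℝ ((⊤ : ℕ∞) : WithTop ℕ∞) Φ) (k : ℕ) :
    ∃ D : ℝ × ℝ → ℂ, ContDiff ℝ ((⊤ : ℕ∞) : WithTop ℕ∞) D ∧
      ∀ t θ : ℝ, iteratedDeriv k (fun θ => Φ (t, θ)) θ = D (t, θ) := by
  induction k with
  | zero =>
    refine ⟨Φ, hΦ, fun t θ => ?_⟩
    rw [iteratedDeriv_zero]
  | succ k ih =>
    obtain ⟨D, hD, hD2⟩ := ih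
    refine ⟨fun z => fderiv ℝ D z (0, 1), ?_, fun t θ => ?_⟩
    · have h1 : ContDiff ℝ ((⊤ : ℕ∞) : WithTop ℕ∞) (fderiv ℝ D) := hD.fderiv_right (by exact le_of_eq rfl)
      exact h1.clm_apply contDiff_const
    · rw [iteratedDeriv_succ]
      have h1 : iteratedDeriv k (fun θ => Φ (t, θ)) = fun θ => D (t, θ) := funext fun θ => hD2 t θ
      rw [h1]
      have h2 : HasFDerivAt D (fderiv ℝ D (t, θ)) (t, θ) :=
        ((hD.differentiable (by exact WithTop.coe_ne_zero.2 (by exact ENat.top_ne_zero))) (t, θ)).hasFDerivAt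
      have h3 : HasDerivAt (fun θ : ℝ => ((t, θ) : ℝ × ℝ)) (0, 1) θ :=
        (hasDerivAt_const θ t).prodMk (hasDerivAt_id θ)
      exact (h2.comp_hasDerivAt θ h3).deriv

/-- The derivatives of `sin^c w(cot)`. -/
private theorem Fo0_coef (s : ℂ) (k : ℕ) : ∃ a : ℕ → ℝ → ℂ,
    (∀ j, ∀ θ : ℝ, 0 < Real.sin θ → ContDiffAt ℝ ((⊤ : ℕ∞) : WithTop ℕ∞) (a j) θ) ∧
    ∀ w : ℝ → ℂ, ContDiff ℝ ((⊤ : ℕ∞) : WithTop ℕ∞) w → ∀ θ : ℝ, 0 < Real.sin θ →
      iteratedDeriv k (fun θ => Fw s w (circ θ)) θ =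
        ∑ j ∈ Finset.range (k + 1), a j θ * iteratedDeriv j w (Real.cos θ / Real.sin θ) := by
  classical
  induction k with
  | zero =>
    refine ⟨fun _ θ => ((Real.sin θ : ℝ) : ℂ) ^ (-(1 + s)), fun j θ hθ =>
      Fo0_cpow Real.contDiff_sin.contDiffAt hθ _, fun w hw θ hθ => ?_⟩
    rw [iteratedDeriv_zero, Finset.sum_range_one, iteratedDeriv_zero]
    unfold Fw circ
    simp only []
    rw [if_pos hθ]
  | succ k ih =>
    obtain ⟨a, ha1, ha2⟩ := ih
    refine ⟨fun j θ => (if j < k + 1 then deriv (a j) θ else 0) +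
      (if 1 ≤ j then a (j - 1) θ * ((-(1 / Real.sin θ ^ 2) : ℝ) : ℂ) else 0), ?_, ?_⟩
    · intro j θ hθ
      have h1 : ContDiffAt ℝ ((⊤ : ℕ∞) : WithTop ℕ∞) (deriv (a j)) θ := by
        have h2 := (ha1 j θ hθ)
        exact Fo0_deriv h2
      have h3 : ContDiffAt ℝ ((⊤ : ℕ∞) : WithTop ℕ∞) (fun θ : ℝ => ((-(1 / Real.sin θ ^ 2) : ℝ) : ℂ)) θ := by
        refine (Complex.ofRealCLM.contDiff.contDiffAt).comp θ ?_
        exact (contDiffAt_const.div (Real.contDiff_sin.contDiffAt.pow 2) (pow_ne_zero _ hθ.ne')).neg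
      refine ContDiffAt.add ?_ ?_
      · split_ifs
        · exact h1
        · exact contDiffAt_const
      · split_ifs
        · exact (ha1 (j - 1) θ hθ).mul h3
        · exact contDiffAt_const
    · intro w hw θ hθ
      rw [iteratedDeriv_succ]
      have h1 : ∀ᶠ u in nhds θ, 0 < Real.sin u :=
        (Real.continuous_sin.tendsto θ).eventually (lt_mem_nhds hθ)
      have h2 : iteratedDeriv k (fun θ => Fw s w (circ θ)) =ᶠ[nhds θ]
          fun θ => ∑ j ∈ Finset.range (k + 1), a j θ * iteratedDeriv j w (Real.cos θ / Real.sin θ) := by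
        filter_upwards [h1] with u hu
        exact ha2 w hw u hu
      rw [h2.deriv_eq]
      have h3 : HasDerivAt (fun θ : ℝ => Real.cos θ / Real.sin θ) (-(1 / Real.sin θ ^ 2)) θ := by
        have h4 := (Real.hasDerivAt_cos θ).div (Real.hasDerivAt_sin θ) hθ.ne'
        have h5 : (-Real.sin θ * Real.sin θ - Real.cos θ * Real.cos θ) / Real.sin θ ^ 2 =
            -(1 / Real.sin θ ^ 2) := by
          rw [← neg_div]
          congr 1
          have h6 := Real.sin_sq_add_cos_sq θ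
          linear_combination -h6
        rw [h5] at h4
        exact h4
      have h7 : ∀ j, HasDerivAt (fun θ : ℝ => iteratedDeriv j w (Real.cos θ / Real.sin θ))
          (((-(1 / Real.sin θ ^ 2) : ℝ) : ℂ) * iteratedDeriv (j + 1) w (Real.cos θ / Real.sin θ)) θ := by
        intro j
        have h8 : HasDerivAt (iteratedDeriv j w) (iteratedDeriv (j + 1) w (Real.cos θ / Real.sin θ))
            (Real.cos θ / Real.sin θ) := by
          rw [iteratedDeriv_succ]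
          refine DifferentiableAt.hasDerivAt ?_
          exact (hw.differentiable_iteratedDeriv j (WithTop.coe_lt_coe.2 (ENat.coe_lt_top j))) _
        have h9 := HasDerivAt.scomp θ h8 h3
        rw [Complex.real_smul] at h9
        exact h9
      have h10 : ∀ j, HasDerivAt (a j) (deriv (a j) θ) θ := fun j =>
        ((ha1 j θ hθ).differentiableAt (by exact WithTop.coe_ne_zero.2 (by exact ENat.top_ne_zero))).hasDerivAt
      have h11 := HasDerivAt.fun_sum fun j (_ : j ∈ Finset.range (k + 1)) => (h10 j).mul (h7 j)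
      have h12 := h11.deriv
      refine Eq.trans h12 ?_
      rw [Finset.sum_add_distrib]
      have h13 : ∑ j ∈ Finset.range (k + 1 + 1), ((if j < k + 1 then deriv (a j) θ else 0) +
          (if 1 ≤ j then a (j - 1) θ * ((-(1 / Real.sin θ ^ 2) : ℝ) : ℂ) else 0)) *
          iteratedDeriv j w (Real.cos θ / Real.sin θ) =
          ∑ j ∈ Finset.range (k + 1 + 1), (if j < k + 1 then deriv (a j) θ else 0) *
            iteratedDeriv j w (Real.cos θ / Real.sin θ) +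
          ∑ j ∈ Finset.range (k + 1 + 1), (if 1 ≤ j then a (j - 1) θ * ((-(1 / Real.sin θ ^ 2) : ℝ) : ℂ) else 0) *
            iteratedDeriv j w (Real.cos θ / Real.sin θ) := by
        rw [← Finset.sum_add_distrib]
        exact Finset.sum_congr rfl fun j _ => add_mul _ _ _
      rw [h13, Finset.sum_range_succ (fun j => (if j < k + 1 then deriv (a j) θ else 0) *
            iteratedDeriv j w (Real.cos θ / Real.sin θ)), if_neg (lt_irrefl _), zero_mul, add_zero,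
        Finset.sum_range_succ' (fun j => (if 1 ≤ j then a (j - 1) θ * ((-(1 / Real.sin θ ^ 2) : ℝ) : ℂ) else 0) *
            iteratedDeriv j w (Real.cos θ / Real.sin θ)), if_neg (by norm_num), zero_mul, add_zero]
      refine congrArg₂ (· + ·) (Finset.sum_congr rfl fun j hj => ?_) (Finset.sum_congr rfl fun j _ => ?_)
      · rw [if_pos (Finset.mem_range.1 hj)]
      · rw [if_pos (Nat.le_add_left 1 j), Nat.add_sub_cancel]
        ring

theorem Hm_act {s : ℂ} {F : ℝ × ℝ → ℂ} (hF : Hm s F) (g : G) : Hm s fun v => F (act g v) := by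

  refine ⟨hF.smooth.comp (act_contDiff g).contDiffOn fun v hv => act_ne g hv, fun r hr v hv => ?_⟩
  rw [act_smul, hF.hom r hr _ (act_ne g hv)]

theorem Hm_add {s : ℂ} {F F' : ℝ × ℝ → ℂ} (hF : Hm s F) (hF' : Hm s F') : Hm s fun v => F v + F' v := by

  refine ⟨hF.smooth.add hF'.smooth, fun r hr v hv => ?_⟩
  rw [hF.hom r hr v hv, hF'.hom r hr v hv, mul_add]

theorem Hm_smul {s : ℂ} {F : ℝ × ℝ → ℂ} (hF : Hm s F) (c : ℂ) : Hm s fun v => c * F v := by

  refine ⟨contDiffOn_const.mul hF.smooth, fun r hr v hv => ?_⟩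
  rw [hF.hom r hr v hv, mul_left_comm]

theorem Hm_em (s : ℂ) (n : ℤ) : Hm s (em s n) := by

  refine ⟨fun v hv => ?_, fun r hr v hv => ?_⟩
  · have h0 := Fo0_sq hv
    have h1 : ContDiffAt ℝ ((⊤ : ℕ∞) : WithTop ℕ∞) (fun v : ℝ × ℝ => Real.sqrt (v.1 ^ 2 + v.2 ^ 2)) v :=
      ((contDiff_fst.pow 2).add (contDiff_snd.pow 2)).contDiffAt.sqrt h0.ne'
    have h2 : ContDiffAt ℝ ((⊤ : ℕ∞) : WithTop ℕ∞)
        (fun v : ℝ × ℝ => ((Real.sqrt (v.1 ^ 2 + v.2 ^ 2) : ℝ) : ℂ) ^ (-(1 + s))) v :=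
      Fo0_cpow h1 (Real.sqrt_pos.2 h0) _
    have h3 : ContDiffAt ℝ ((⊤ : ℕ∞) : WithTop ℕ∞)
        (fun v : ℝ × ℝ => ((Real.sqrt (v.1 ^ 2 + v.2 ^ 2) : ℝ) : ℂ)) v :=
      (Complex.ofRealCLM.contDiff.contDiffAt).comp v h1
    have h4 : ((Real.sqrt (v.1 ^ 2 + v.2 ^ 2) : ℝ) : ℂ) ≠ 0 :=
      Complex.ofReal_ne_zero.2 (Real.sqrt_pos.2 h0).ne'
    have h5 : ContDiffAt ℝ ((⊤ : ℕ∞) : WithTop ℕ∞) (fun v : ℝ × ℝ =>
        ((v.1 : ℂ) - (v.2 : ℂ) * Complex.I) / ((Real.sqrt (v.1 ^ 2 + v.2 ^ 2) : ℝ) : ℂ)) v := by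
      simp only [div_eq_mul_inv]
      exact ((Fo0_fst.sub (Fo0_snd.mul contDiff_const)).contDiffAt).mul (h3.inv h4)
    have h6 := Fo0_zpow h5 (div_ne_zero (Fo0_ne hv) h4) n
    exact (h2.mul h6).contDiffWithinAt
  · have h0 := Fo0_sq hv
    have h1 : Real.sqrt ((r • v).1 ^ 2 + (r • v).2 ^ 2) = r * Real.sqrt (v.1 ^ 2 + v.2 ^ 2) := by
      have h2 : (r • v).1 ^ 2 + (r • v).2 ^ 2 = r ^ 2 * (v.1 ^ 2 + v.2 ^ 2) := by
        rw [Prod.smul_fst, Prod.smul_snd, smul_eq_mul, smul_eq_mul]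
        ring
      rw [h2, Real.sqrt_mul (sq_nonneg r), Real.sqrt_sq hr.le]
    have h3 : (((r • v).1 : ℝ) : ℂ) - (((r • v).2 : ℝ) : ℂ) * Complex.I =
        (r : ℂ) * ((v.1 : ℂ) - (v.2 : ℂ) * Complex.I) := by
      rw [Prod.smul_fst, Prod.smul_snd, smul_eq_mul, smul_eq_mul]
      push_cast
      ring
    unfold em
    rw [h1, h3, Fo0_mul_cpow hr (Real.sqrt_pos.2 h0), Complex.ofReal_mul,
      mul_div_mul_left _ _ (Complex.ofReal_ne_zero.2 hr.ne'), mul_assoc]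

theorem em_circ (s : ℂ) (n : ℤ) (θ : ℝ) : em s n (circ θ) = Complex.exp (-(n * θ * Complex.I)) := by

  unfold em circ
  rw [Real.cos_sq_add_sin_sq, Real.sqrt_one, Complex.ofReal_one, Complex.one_cpow, one_mul, div_one]
  have h1 : ((Real.cos θ : ℝ) : ℂ) - ((Real.sin θ : ℝ) : ℂ) * Complex.I = Complex.exp (-(θ * Complex.I)) := by
    rw [← neg_mul, Complex.exp_mul_I, Complex.cos_neg, Complex.sin_neg, Complex.ofReal_cos, Complex.ofReal_sin]
    ring
  rw [h1, ← Complex.exp_int_mul]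
  ring_nf

theorem Hm_Fw (s : ℂ) {w : ℝ → ℂ} (hw : TF w) : Hm s (Fw s w) := by

  classical
  refine ⟨fun v hv => ?_, fun r hr v hv => ?_⟩
  · refine ContDiffAt.contDiffWithinAt ?_
    rcases lt_trichotomy v.2 0 with h | h | h
    · have h1 : ∀ᶠ u in nhds v, u.2 < 0 := (continuous_snd.tendsto v).eventually (gt_mem_nhds h)
      refine (contDiffAt_const (c := (0 : ℂ))).congr_of_eventuallyEq ?_
      filter_upwards [h1] with u hu
      unfold Fw
      rw [if_neg (not_lt.2 hu.le)]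
    · obtain ⟨R, hR⟩ : ∃ R : ℝ, ∀ x, R < |x| → w x = 0 := by
        obtain ⟨R, hR⟩ := hw.2.isBounded.subset_closedBall 0
        refine ⟨R, fun x hx => ?_⟩
        by_contra h2
        have h3 := hR (subset_tsupport w h2)
        rw [Metric.mem_closedBall, dist_zero_right, Real.norm_eq_abs] at h3
        exact absurd hx (not_lt.2 h3)
      have h1 : v.1 ≠ 0 := fun h2 => hv (Prod.ext h2 h)
      have h2 : ∀ᶠ u in nhds v, R * |u.2| < |u.1| := by
        have h3 : IsOpen {u : ℝ × ℝ | R * |u.2| < |u.1|} :=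
          isOpen_lt (continuous_const.mul continuous_snd.abs) continuous_fst.abs
        refine h3.mem_nhds ?_
        change R * |v.2| < |v.1|
        rw [h, abs_zero, mul_zero]
        exact abs_pos.2 h1
      refine (contDiffAt_const (c := (0 : ℂ))).congr_of_eventuallyEq ?_
      filter_upwards [h2] with u hu
      unfold Fw
      split_ifs with h3
      · rw [hR (u.1 / u.2), mul_zero]
        rw [abs_div, lt_div_iff₀ (abs_pos.2 h3.ne')]
        exact hu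
      · rfl
    · have h1 : ∀ᶠ u in nhds v, 0 < u.2 := (continuous_snd.tendsto v).eventually (lt_mem_nhds h)
      have h2 : ContDiffAt ℝ ((⊤ : ℕ∞) : WithTop ℕ∞)
          (fun u : ℝ × ℝ => (u.2 : ℂ) ^ (-(1 + s)) * w (u.1 / u.2)) v := by
        refine (Fo0_cpow contDiff_snd.contDiffAt h _).mul ?_
        exact hw.1.contDiffAt.comp v (contDiff_fst.contDiffAt.div contDiff_snd.contDiffAt h.ne')
      refine h2.congr_of_eventuallyEq ?_
      filter_upwards [h1] with u hu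
      unfold Fw
      rw [if_pos hu]
  · unfold Fw
    by_cases h : 0 < v.2
    · have h1 : 0 < (r • v).2 := by
        rw [Prod.smul_snd, smul_eq_mul]
        exact mul_pos hr h
      rw [if_pos h, if_pos h1, Prod.smul_snd, Prod.smul_fst, smul_eq_mul, smul_eq_mul, Fo0_mul_cpow hr h,
        mul_div_mul_left _ _ hr.ne', mul_assoc]
    · have h1 : ¬ 0 < (r • v).2 := by
        rw [Prod.smul_snd, smul_eq_mul, not_lt]
        exact mul_nonpos_of_nonneg_of_nonpos hr.le (not_lt.1 h)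
      rw [if_neg h, if_neg h1, mul_zero]

theorem Fw_scale (s : ℂ) (w : ℝ → ℂ) {lam : ℝ} (hl : 0 < lam) (x0 : ℝ) : ∃ g : G, ∀ v,
    Fw s (fun x => w (lam * (x - x0))) v = (lam : ℂ) ^ (-(1 + s) / 2) * Fw s w (act g v) := by

  classical
  have hs : 0 < Real.sqrt lam := Real.sqrt_pos.2 hl
  refine ⟨⟨!![Real.sqrt lam, -(x0 * Real.sqrt lam); 0, (Real.sqrt lam)⁻¹], by
    rw [Matrix.det_fin_two_of, mul_zero, sub_zero, mul_inv_cancel₀ hs.ne']⟩, fun v => ?_⟩
  have h1 : act (⟨!![Real.sqrt lam, -(x0 * Real.sqrt lam); 0, (Real.sqrt lam)⁻¹], by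
    rw [Matrix.det_fin_two_of, mul_zero, sub_zero, mul_inv_cancel₀ hs.ne']⟩ : G) v =
      (Real.sqrt lam * v.1 + -(x0 * Real.sqrt lam) * v.2, 0 * v.1 + (Real.sqrt lam)⁻¹ * v.2) := rfl
  rw [h1]
  unfold Fw
  by_cases h : 0 < v.2
  · have h2 : 0 < 0 * v.1 + (Real.sqrt lam)⁻¹ * v.2 := by
      rw [zero_mul, zero_add]
      exact mul_pos (inv_pos.2 hs) h
    rw [if_pos h]
    simp only []
    rw [if_pos h2, zero_mul, zero_add, Fo0_mul_cpow (inv_pos.2 hs) h]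
    have h3 : (Real.sqrt lam * v.1 + -(x0 * Real.sqrt lam) * v.2) / ((Real.sqrt lam)⁻¹ * v.2) =
        lam * (v.1 / v.2 - x0) := by
      have h4 := Real.mul_self_sqrt hl.le
      field_simp
      rw [sq, h4]
      ring
    rw [h3]
    have h5 : (lam : ℂ) ^ (-(1 + s) / 2) * ((((Real.sqrt lam)⁻¹ : ℝ) : ℂ) ^ (-(1 + s))) = 1 := by
      have h6 : ((((Real.sqrt lam)⁻¹ : ℝ) : ℂ) ^ (-(1 + s))) = (((Real.sqrt lam : ℝ) : ℂ) ^ (-(1 + s)))⁻¹ := by
        have h7 : ((Real.sqrt lam * (Real.sqrt lam)⁻¹ : ℝ) : ℂ) ^ (-(1 + s)) = 1 := by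
          rw [mul_inv_cancel₀ hs.ne', Complex.ofReal_one, Complex.one_cpow]
        rw [Fo0_mul_cpow hs (inv_pos.2 hs)] at h7
        exact eq_inv_of_mul_eq_one_right h7
      rw [h6, Fo0_sqrt_cpow hl]
      refine mul_inv_cancel₀ ?_
      rw [Complex.cpow_def_of_ne_zero (Complex.ofReal_ne_zero.2 hl.ne')]
      exact Complex.exp_ne_zero _
    linear_combination (-((v.2 : ℂ) ^ (-(1 + s)) * w (lam * (v.1 / v.2 - x0)))) * h5
  · have h2 : ¬ 0 < 0 * v.1 + (Real.sqrt lam)⁻¹ * v.2 := by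
      rw [zero_mul, zero_add, not_lt]
      exact mul_nonpos_of_nonneg_of_nonpos (inv_pos.2 hs).le (not_lt.1 h)
    rw [if_neg h, if_neg h2, mul_zero]

theorem Fw_vf (χ : ℝ → ℂ) (s : ℂ) (h : G) (n : ℕ) {v : ℝ × ℝ} (hv : v ≠ 0) :
    Fw s (vf χ s h n) v = cut χ v * em s n (act h v) := by

  classical
  unfold Fw cut
  by_cases hp : 0 < v.2
  · rw [if_pos hp, if_pos hp]
    have h1 : v = v.2 • ((v.1 / v.2, 1) : ℝ × ℝ) := by
      refine Prod.ext ?_ ?_
      · rw [Prod.smul_fst, smul_eq_mul, mul_div_cancel₀ _ hp.ne']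
      · rw [Prod.smul_snd, smul_eq_mul, mul_one]
    have h2 : ((v.1 / v.2, 1) : ℝ × ℝ) ≠ 0 := fun h3 => one_ne_zero (congrArg Prod.snd h3)
    have h3 : em s n (act h v) = (v.2 : ℂ) ^ (-(1 + s)) * em s n (act h (v.1 / v.2, 1)) := by
      have h4 : act h v = v.2 • act h (v.1 / v.2, 1) := by
        rw [← act_smul, ← h1]
      rw [h4, (Hm_em s n).hom _ hp _ (act_ne h h2)]
    obtain ⟨x, hx⟩ : ∃ x : ℝ, x = v.1 / v.2 := ⟨_, rfl⟩
    rw [h3, ← hx]
    rw [← hx] at h2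
    have h5 : act h (x, 1) = (h 0 0 * x + h 0 1, h 1 0 * x + h 1 1) := by
      unfold act
      simp only [mul_one]
    have h6 := Fo0_sq (act_ne h h2)
    rw [h5] at h6
    have h7 : em s n (act h (x, 1)) = ((Qh h x : ℝ) : ℂ) ^ (-(1 + s) / 2) * En h n x := by
      rw [h5]
      unfold em Qh En zt
      have h8 : ‖((h 0 0 * x + h 0 1 : ℝ) : ℂ) - ((h 1 0 * x + h 1 1 : ℝ) : ℂ) * Complex.I‖ =
          Real.sqrt ((h 0 0 * x + h 0 1) ^ 2 + (h 1 0 * x + h 1 1) ^ 2) := by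
        have h9 : ((h 0 0 * x + h 0 1 : ℝ) : ℂ) - ((h 1 0 * x + h 1 1 : ℝ) : ℂ) * Complex.I =
            ((h 0 0 * x + h 0 1 : ℝ) : ℂ) + ((-(h 1 0 * x + h 1 1) : ℝ) : ℂ) * Complex.I := by
          push_cast
          ring
        rw [h9, Complex.norm_add_mul_I, neg_sq]
      rw [h8, zpow_natCast, Fo0_sqrt_cpow h6]
    rw [h7]
    unfold vf
    ring
  · rw [if_neg hp, if_neg hp, zero_mul]

theorem Hm_smooth_circ {s : ℂ} {F : ℝ × ℝ → ℂ} (hF : Hm s F) : ContDiff ℝ ((⊤ : ℕ∞) : WithTop ℕ∞) fun θ : ℝ => F (circ θ) := by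

  exact hF.smooth.comp_contDiff Fo0_circ_smooth Fo0_circ_ne

/-- Uniform bounds for the derivatives on the circle along a one-parameter group. -/
theorem unif {s : ℂ} {F : ℝ × ℝ → ℂ} (hF : Hm s F) (k : ℕ) (t0 : ℝ) : ∃ b : ℝ, ∀ t : ℝ, |t| ≤ t0 → ∀ θ : ℝ,
    ‖iteratedDeriv k (fun θ => F (act (aa t) (circ θ))) θ‖ ≤ b := by

  have hper : ∀ t : ℝ, Function.Periodic (iteratedDeriv k fun θ => F (act (aa t) (circ θ))) (2 * Real.pi) := by
    intro t θ
    have h1 : (fun θ : ℝ => (fun θ => F (act (aa t) (circ θ))) (θ + 2 * Real.pi)) =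
        fun θ => F (act (aa t) (circ θ)) := by
      funext θ
      simp only [Fo0_circ_add]
    have h2 := congrFun (iteratedDeriv_comp_add_const k (fun θ => F (act (aa t) (circ θ))) (2 * Real.pi)) θ
    rw [h1] at h2
    exact h2.symm
  obtain ⟨D, hD1, hD2⟩ := Fo0_joint (Φ := fun z : ℝ × ℝ => F (act (aa z.1) (circ z.2))) (by
    refine hF.smooth.comp_contDiff ?_ fun z => act_ne _ (Fo0_circ_ne _)
    have e1 : (fun z : ℝ × ℝ => act (aa z.1) (circ z.2)) = fun z : ℝ × ℝ =>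
        (Real.exp (z.1 / 2) * Real.cos z.2 + 0 * Real.sin z.2, 0 * Real.cos z.2 + Real.exp (-(z.1 / 2)) * Real.sin z.2) := rfl
    rw [e1]
    have e2 : ContDiff ℝ ((⊤ : ℕ∞) : WithTop ℕ∞) (fun z : ℝ × ℝ => Real.cos z.2) := Real.contDiff_cos.comp contDiff_snd
    have e3 : ContDiff ℝ ((⊤ : ℕ∞) : WithTop ℕ∞) (fun z : ℝ × ℝ => Real.sin z.2) := Real.contDiff_sin.comp contDiff_snd
    have e4 : ContDiff ℝ ((⊤ : ℕ∞) : WithTop ℕ∞) (fun z : ℝ × ℝ => Real.exp (z.1 / 2)) :=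
      (contDiff_fst.div_const 2).exp
    have e5 : ContDiff ℝ ((⊤ : ℕ∞) : WithTop ℕ∞) (fun z : ℝ × ℝ => Real.exp (-(z.1 / 2))) :=
      (contDiff_fst.div_const 2).neg.exp
    exact ((e4.mul e2).add (contDiff_const.mul e3)).prodMk ((contDiff_const.mul e2).add (e5.mul e3))) k
  obtain ⟨b, hb⟩ := ((isCompact_Icc (a := -t0) (b := t0)).prod
    (isCompact_Icc (a := (0 : ℝ)) (b := 2 * Real.pi))).exists_bound_of_continuousOn hD1.continuous.continuousOn
  refine ⟨b, fun t ht θ => ?_⟩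
  obtain ⟨θ', hθ', hθ''⟩ := (hper t).exists_mem_Ico₀ Real.two_pi_pos θ
  rw [hθ'']
  have h1 := hb (t, θ') ⟨abs_le.1 ht, ⟨hθ'.1, hθ'.2.le⟩⟩
  have h2 := hD2 t θ'
  rw [← h2] at h1
  exact h1

/-- The derivatives on the circle of the homogeneous extension of a function on the line. -/
theorem Fw_circ_bound (s : ℂ) (K : ℕ) : ∃ C : ℝ, ∀ (w : ℝ → ℂ) (b : ℝ), TF w → (∀ x, 1 < |x| → w x = 0) →
    (∀ k ≤ K, ∀ x, ‖iteratedDeriv k w x‖ ≤ b) → ∀ k ≤ K, ∀ θ : ℝ, ‖iteratedDeriv k (fun θ => Fw s w (circ θ)) θ‖ ≤ C * b := by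

  choose a ha1 ha2 using Fo0_coef s
  have hcpt : IsCompact {θ : ℝ | θ ∈ Set.Icc 0 (2 * Real.pi) ∧ |Real.cos θ| ≤ Real.sin θ} := by
    refine isCompact_Icc.of_isClosed_subset ?_ fun θ hθ => hθ.1
    exact isClosed_Icc.inter (isClosed_le Real.continuous_cos.abs Real.continuous_sin)
  have hpos : ∀ θ ∈ {θ : ℝ | θ ∈ Set.Icc 0 (2 * Real.pi) ∧ |Real.cos θ| ≤ Real.sin θ}, 0 < Real.sin θ := by
    intro θ hθ
    have h1 : |Real.cos θ| ≤ Real.sin θ := hθ.2
    have h2 := Real.sin_sq_add_cos_sq θ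
    have h3 := abs_nonneg (Real.cos θ)
    have h4 := sq_abs (Real.cos θ)
    rcases lt_or_eq_of_le (h3.trans h1) with h5 | h5
    · exact h5
    · rw [← h5] at h1 h2
      have h6 : |Real.cos θ| = 0 := le_antisymm h1 h3
      rw [h6] at h4
      nlinarith
  have hbd : ∀ k j : ℕ, ∃ b : ℝ, ∀ θ ∈ {θ : ℝ | θ ∈ Set.Icc 0 (2 * Real.pi) ∧ |Real.cos θ| ≤ Real.sin θ},
      ‖a k j θ‖ ≤ b := fun k j =>
    hcpt.exists_bound_of_continuousOn fun θ hθ => ((ha1 k j θ (hpos θ hθ)).continuousAt).continuousWithinAt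
  choose c hc using hbd
  refine ⟨∑ k ∈ Finset.range (K + 1), ∑ j ∈ Finset.range (k + 1), |c k j|, ?_⟩
  intro w b hw hw1 hwb k hk θ
  have hb0 : 0 ≤ b := (norm_nonneg _).trans (hwb 0 (Nat.zero_le _) 0)
  have hCb : ∀ k ≤ K, ∑ j ∈ Finset.range (k + 1), |c k j| ≤
      ∑ k ∈ Finset.range (K + 1), ∑ j ∈ Finset.range (k + 1), |c k j| := fun k hk =>
    Finset.single_le_sum (f := fun k => ∑ j ∈ Finset.range (k + 1), |c k j|)
      (fun k _ => Finset.sum_nonneg fun j _ => abs_nonneg _) (Finset.mem_range.2 (by omega))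
  have hper : Function.Periodic (iteratedDeriv k fun θ => Fw s w (circ θ)) (2 * Real.pi) := by
    intro θ
    have h1 : (fun θ : ℝ => (fun θ => Fw s w (circ θ)) (θ + 2 * Real.pi)) = fun θ => Fw s w (circ θ) := by
      funext θ
      simp only [Fo0_circ_add]
    have h2 := congrFun (iteratedDeriv_comp_add_const k (fun θ => Fw s w (circ θ)) (2 * Real.pi)) θ
    rw [h1] at h2
    exact h2.symm
  obtain ⟨θ', hθ', hθ''⟩ := hper.exists_mem_Ico₀ Real.two_pi_pos θ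
  rw [hθ'']
  by_cases hcase : |Real.cos θ'| ≤ Real.sin θ'
  · have hmem : θ' ∈ {θ : ℝ | θ ∈ Set.Icc 0 (2 * Real.pi) ∧ |Real.cos θ| ≤ Real.sin θ} :=
      ⟨⟨hθ'.1, hθ'.2.le⟩, hcase⟩
    rw [ha2 k w hw.1 θ' (hpos _ hmem)]
    refine (norm_sum_le _ _).trans ?_
    have h1 : ∑ j ∈ Finset.range (k + 1), ‖a k j θ' * iteratedDeriv j w (Real.cos θ' / Real.sin θ')‖ ≤
        ∑ j ∈ Finset.range (k + 1), |c k j| * b := by
      refine Finset.sum_le_sum fun j hj => ?_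
      rw [norm_mul]
      exact mul_le_mul ((hc k j θ' hmem).trans (le_abs_self _))
        (hwb j (by rw [Finset.mem_range] at hj; omega) _) (norm_nonneg _) (abs_nonneg _)
    refine h1.trans ?_
    rw [← Finset.sum_mul]
    exact mul_le_mul_of_nonneg_right (hCb k hk) hb0
  · rw [not_le] at hcase
    have h1 : ∀ᶠ u in nhds θ', Real.sin u < |Real.cos u| :=
      (isOpen_lt Real.continuous_sin Real.continuous_cos.abs).mem_nhds hcase
    have h2 : (fun θ => Fw s w (circ θ)) =ᶠ[nhds θ'] fun _ => (0 : ℂ) := by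
      filter_upwards [h1] with u hu
      unfold Fw circ
      simp only []
      split_ifs with h3
      · rw [hw1, mul_zero]
        rw [abs_div, abs_of_pos h3, lt_div_iff₀ h3, one_mul]
        exact hu
      · rfl
    rw [h2.iteratedDeriv_eq, iteratedDeriv_const]
    have h3 : (0 : ℝ) ≤ (∑ k ∈ Finset.range (K + 1), ∑ j ∈ Finset.range (k + 1), |c k j|) * b :=
      mul_nonneg (Finset.sum_nonneg fun k _ => Finset.sum_nonneg fun j _ => abs_nonneg _) hb0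
    split_ifs
    · rw [norm_zero]
      exact h3
    · rw [norm_zero]
      exact h3

end MPku
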