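import Pool.Agent.Lib.MP_7b255b_ntU.Fo0

/-!
# Fo1: Fourier coefficients and the functional `TT`

JOB Fo1. `TT φ g F = ∑' n, fc F n * φ n g`, `‖φ n g‖ ≤ C (1 + |n|)^k` uniformly in `g`.
* `fc_decay`: `u θ = F (circ θ)` is smooth and `2π`-periodic; integration by parts `k` times: `n^k ∫_0^{2π} u e^{inθ} = (± i)^k ∫_0^{2π} u^{(k)} e^{inθ}` (the boundary terms cancel by periodicity of `u^{(j)}`), so
  `|n|^k ‖fc F n‖ ≤ sup ‖u^{(k)}‖`.
* `TT_summable`: `(1 + |n|)^(k+2) ‖fc F n‖ ≤ C`, `∑ (1 + |n|)^(-2) < ∞` over `ℤ`. `TT_bound`: the same with the bounds for the derivatives of order `≤ K = k + 2`.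
* `fc_em`: `∫_0^{2π} e^{i(n-m)θ} dθ = 2π` or `0`. `fc_kk`: substitution and periodicity. `TT_add`, `TT_smul`: linearity (`tsum_add`, summability).
* `TT_kk`: `φ n (g * kk β) = e^{inβ} φ n g` and `fc (F ∘ act (kk (-β))) n = e^{inβ} fc F n`.
-/

set_option autoImplicit false

namespace MPku

open MPkt

private theorem Fo1_per {F : ℝ × ℝ → ℂ} : Function.Periodic (fun θ => F (circ θ)) (2 * Real.pi) := by
  intro θ
  simp only [circ, Real.cos_add_two_pi, Real.sin_add_two_pi]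

private theorem Fo1_exp_per (n : ℤ) (θ : ℝ) : Complex.exp (n * ((θ + 2 * Real.pi : ℝ) : ℂ) * Complex.I) = Complex.exp (n * (θ : ℂ) * Complex.I) := by
  have h : (n : ℂ) * ((θ + 2 * Real.pi : ℝ) : ℂ) * Complex.I = n * (θ : ℂ) * Complex.I + n * (2 * Real.pi * Complex.I) := by
    push_cast
    ring
  rw [h, Complex.exp_add, Complex.exp_int_mul_two_pi_mul_I, mul_one]

private theorem Fo1_hasDeriv (n : ℤ) (θ : ℝ) : HasDerivAt (fun θ : ℝ => Complex.exp (n * (θ : ℂ) * Complex.I))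
    (n * Complex.I * Complex.exp (n * (θ : ℂ) * Complex.I)) θ := by
  have h1 : HasDerivAt (fun θ : ℝ => (n : ℂ) * (θ : ℂ) * Complex.I) (n * Complex.I) θ := by
    have h := ((Complex.ofRealCLM.hasDerivAt (x := θ)).const_mul (n : ℂ)).mul_const Complex.I
    simpa using h
  have h2 := h1.cexp
  rw [mul_comm] at h2
  exact h2

private theorem Fo1_ibp {u : ℝ → ℂ} (hu : ContDiff ℝ 1 u) (hp : u (2 * Real.pi) = u 0) (n : ℤ) :
    (n * Complex.I) * ∫ θ in (0 : ℝ)..(2 * Real.pi), u θ * Complex.exp (n * θ * Complex.I) =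
      -∫ θ in (0 : ℝ)..(2 * Real.pi), deriv u θ * Complex.exp (n * θ * Complex.I) := by
  have hd : Continuous (deriv u) := hu.continuous_deriv le_rfl
  have hc : Continuous fun θ : ℝ => Complex.exp (n * (θ : ℂ) * Complex.I) := by
    fun_prop
  have h1 : ∀ θ ∈ Set.uIcc (0 : ℝ) (2 * Real.pi), HasDerivAt (fun θ : ℝ => u θ * Complex.exp (n * (θ : ℂ) * Complex.I))
      (deriv u θ * Complex.exp (n * (θ : ℂ) * Complex.I) + u θ * (n * Complex.I * Complex.exp (n * (θ : ℂ) * Complex.I))) θ := fun θ _ =>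
    ((hu.differentiable one_ne_zero θ).hasDerivAt).mul (Fo1_hasDeriv n θ)
  have hi1 : IntervalIntegrable (fun θ : ℝ => deriv u θ * Complex.exp (n * (θ : ℂ) * Complex.I)) MeasureTheory.volume 0 (2 * Real.pi) :=
    (hd.mul hc).intervalIntegrable _ _
  have hi2 : IntervalIntegrable (fun θ : ℝ => u θ * (n * Complex.I * Complex.exp (n * (θ : ℂ) * Complex.I))) MeasureTheory.volume 0 (2 * Real.pi) :=
    (hu.continuous.mul (continuous_const.mul hc)).intervalIntegrable _ _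
  have h2 := intervalIntegral.integral_eq_sub_of_hasDerivAt h1 (hi1.add hi2)
  rw [intervalIntegral.integral_add hi1 hi2] at h2
  have h3 : Complex.exp (n * ((2 * Real.pi : ℝ) : ℂ) * Complex.I) = Complex.exp (n * ((0 : ℝ) : ℂ) * Complex.I) := by
    have h := Fo1_exp_per n 0
    rw [zero_add] at h
    exact h
  rw [hp, h3, sub_self] at h2
  have h4 : (∫ θ in (0 : ℝ)..(2 * Real.pi), u θ * (n * Complex.I * Complex.exp (n * (θ : ℂ) * Complex.I))) =
      (n * Complex.I) * ∫ θ in (0 : ℝ)..(2 * Real.pi), u θ * Complex.exp (n * θ * Complex.I) := by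
    rw [← intervalIntegral.integral_const_mul]
    congr 1
    funext θ
    ring
  rw [h4] at h2
  linear_combination h2

private theorem Fo1_iter (k : ℕ) : ∀ {u : ℝ → ℂ}, ContDiff ℝ ((⊤ : ℕ∞) : WithTop ℕ∞) u → Function.Periodic u (2 * Real.pi) → ∀ n : ℤ,
    ‖∫ θ in (0 : ℝ)..(2 * Real.pi), u θ * Complex.exp (n * θ * Complex.I)‖ * |(n : ℝ)| ^ k =
      ‖∫ θ in (0 : ℝ)..(2 * Real.pi), iteratedDeriv k u θ * Complex.exp (n * θ * Complex.I)‖ := by
  induction k with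
  | zero =>
    intro u _ _ n
    simp
  | succ k ih =>
    intro u hu hp n
    have hd : ContDiff ℝ ((⊤ : ℕ∞) : WithTop ℕ∞) (deriv u) := by
      have h := (contDiff_infty_iff_deriv.1 hu).2
      exact h
    have hpd : Function.Periodic (deriv u) (2 * Real.pi) := by
      intro θ
      have h : (fun x => u (x + 2 * Real.pi)) = u := funext hp
      rw [← deriv_comp_add_const, h]
    have h1 := Fo1_ibp (hu.of_le (by exact_mod_cast le_top)) (by simpa using hp 0) n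
    have h2 := congrArg (fun z => ‖z‖) h1
    simp only [norm_mul, norm_neg, Complex.norm_I, mul_one, Complex.norm_intCast] at h2
    rw [iteratedDeriv_succ', ← ih hd hpd n, ← h2]
    ring

theorem fc_decay {s : ℂ} {F : ℝ × ℝ → ℂ} (hF : Hm s F) (k : ℕ) (b : ℝ) (hb : ∀ θ : ℝ, ‖iteratedDeriv k (fun θ => F (circ θ)) θ‖ ≤ b)
    (n : ℤ) : ‖fc F n‖ * |(n : ℝ)| ^ k ≤ b := by
  have hpi : (0 : ℝ) < 2 * Real.pi := by positivity
  have h1 := Fo1_iter k (Hm_smooth_circ hF) Fo1_per n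
  have h2 : ‖∫ θ in (0 : ℝ)..(2 * Real.pi), iteratedDeriv k (fun θ => F (circ θ)) θ * Complex.exp (n * θ * Complex.I)‖ ≤ b * |2 * Real.pi - 0| := by
    refine intervalIntegral.norm_integral_le_of_norm_le_const fun θ _ => ?_
    rw [norm_mul]
    have h3 : ‖Complex.exp (n * (θ : ℂ) * Complex.I)‖ = 1 := by
      have h := Complex.norm_exp_ofReal_mul_I ((n : ℝ) * θ)
      push_cast at h
      exact h
    rw [h3, mul_one]
    exact hb θ
  rw [sub_zero, abs_of_pos hpi] at h2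
  unfold fc
  rw [norm_mul, norm_inv, mul_assoc, h1]
  have h4 : ‖(2 * Real.pi : ℂ)‖ = 2 * Real.pi := by
    have h : (2 * Real.pi : ℂ) = ((2 * Real.pi : ℝ) : ℂ) := by push_cast; rfl
    rw [h, Complex.norm_real, Real.norm_eq_abs, abs_of_pos hpi]
  rw [h4, inv_mul_le_iff₀ hpi]
  linarith

private theorem Fo1_int {s : ℂ} {F : ℝ × ℝ → ℂ} (hF : Hm s F) (n : ℤ) (a b : ℝ) :
    IntervalIntegrable (fun θ : ℝ => F (circ θ) * Complex.exp (n * θ * Complex.I)) MeasureTheory.volume a b := by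
  have hc : Continuous fun θ : ℝ => Complex.exp (n * (θ : ℂ) * Complex.I) := by
    fun_prop
  exact ((Hm_smooth_circ hF).continuous.mul hc).intervalIntegrable _ _

theorem fc_add {s : ℂ} {F F' : ℝ × ℝ → ℂ} (hF : Hm s F) (hF' : Hm s F') (n : ℤ) : fc (fun v => F v + F' v) n = fc F n + fc F' n := by
  unfold fc
  rw [← mul_add, ← intervalIntegral.integral_add (Fo1_int hF n _ _) (Fo1_int hF' n _ _)]
  congr 2
  funext θ
  ring

theorem fc_smul (c : ℂ) (F : ℝ × ℝ → ℂ) (n : ℤ) : fc (fun v => c * F v) n = c * fc F n := by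
  unfold fc
  have h : (∫ θ in (0 : ℝ)..(2 * Real.pi), c * F (circ θ) * Complex.exp (n * θ * Complex.I)) =
      c * ∫ θ in (0 : ℝ)..(2 * Real.pi), F (circ θ) * Complex.exp (n * θ * Complex.I) := by
    rw [← intervalIntegral.integral_const_mul]
    congr 1
    funext θ
    ring
  rw [h]
  ring

private theorem Fo1_circ_ne (θ : ℝ) : circ θ ≠ 0 := by
  intro h
  have h1 : Real.cos θ = 0 := congrArg Prod.fst h
  have h2 : Real.sin θ = 0 := congrArg Prod.snd h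
  have h3 := Real.sin_sq_add_cos_sq θ
  rw [h1, h2] at h3
  norm_num at h3

theorem fc_congr {F F' : ℝ × ℝ → ℂ} (h : ∀ v, v ≠ 0 → F v = F' v) (n : ℤ) : fc F n = fc F' n := by
  unfold fc
  have h1 : ∀ θ : ℝ, F (circ θ) = F' (circ θ) := fun θ => h _ (Fo1_circ_ne θ)
  simp only [h1]

theorem fc_em (s : ℂ) (m n : ℤ) : fc (em s m) n = if n = m then 1 else 0 := by
  have hpi : (2 * Real.pi : ℂ) ≠ 0 := by
    have h : (2 * Real.pi : ℂ) = ((2 * Real.pi : ℝ) : ℂ) := by push_cast; rfl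
    rw [h]
    exact_mod_cast (by positivity : (2 * Real.pi : ℝ) ≠ 0)
  unfold fc
  have h1 : ∀ θ : ℝ, em s m (circ θ) * Complex.exp (n * θ * Complex.I) = Complex.exp ((((n - m : ℤ) : ℂ) * Complex.I) * θ) := by
    intro θ
    rw [em_circ, ← Complex.exp_add]
    congr 1
    push_cast
    ring
  simp only [h1]
  split_ifs with h
  · subst h
    simp only [sub_self, Int.cast_zero, zero_mul, Complex.exp_zero]
    rw [intervalIntegral.integral_const, sub_zero, Complex.real_smul, mul_one]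
    push_cast
    exact inv_mul_cancel₀ hpi
  · have hc : (((n - m : ℤ) : ℂ) * Complex.I) ≠ 0 := by
      refine mul_ne_zero ?_ Complex.I_ne_zero
      exact_mod_cast sub_ne_zero.2 h
    rw [integral_exp_mul_complex hc]
    have h2 : Complex.exp ((((n - m : ℤ) : ℂ) * Complex.I) * ((2 * Real.pi : ℝ) : ℂ)) = 1 := by
      have h3 : (((n - m : ℤ) : ℂ) * Complex.I) * ((2 * Real.pi : ℝ) : ℂ) = ((n - m : ℤ) : ℂ) * (2 * Real.pi * Complex.I) := by
        push_cast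
        ring
      rw [h3, Complex.exp_int_mul_two_pi_mul_I]
    rw [h2]
    simp

theorem fc_kk {s : ℂ} {F : ℝ × ℝ → ℂ} (hF : Hm s F) (β : ℝ) (n : ℤ) :
    fc (fun v => F (act (kk (-β)) v)) n = Complex.exp (n * β * Complex.I) * fc F n := by
  unfold fc
  simp only [act_kk_circ]
  have h1 : ∀ θ : ℝ, F (circ (θ + -β)) * Complex.exp (n * θ * Complex.I) =
      Complex.exp (n * β * Complex.I) * (fun x : ℝ => F (circ x) * Complex.exp (n * x * Complex.I)) (θ + -β) := by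
    intro θ
    have h2 : Complex.exp (n * θ * Complex.I) = Complex.exp (n * β * Complex.I) * Complex.exp (n * ((θ + -β : ℝ) : ℂ) * Complex.I) := by
      rw [← Complex.exp_add]
      congr 1
      push_cast
      ring
    simp only
    rw [h2]
    ring
  simp only [h1]
  rw [intervalIntegral.integral_const_mul]
  have h2 : (∫ x in (0 : ℝ)..(2 * Real.pi), (fun x : ℝ => F (circ x) * Complex.exp (n * x * Complex.I)) (x + -β)) =
      ∫ x in (0 : ℝ)..(2 * Real.pi), F (circ x) * Complex.exp (n * x * Complex.I) := by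
    refine (intervalIntegral.integral_comp_add_right (fun x : ℝ => F (circ x) * Complex.exp (n * x * Complex.I)) (-β)).trans ?_
    have hp : Function.Periodic (fun x : ℝ => F (circ x) * Complex.exp (n * x * Complex.I)) (2 * Real.pi) := by
      intro x
      have h3 := Fo1_per (F := F) x
      simp only at h3 ⊢
      rw [h3, Fo1_exp_per]
    have h4 := hp.intervalIntegral_add_eq (0 + -β) 0
    rw [zero_add] at h4
    rw [zero_add, add_comm (2 * Real.pi) (-β)]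
    rw [zero_add] at h4
    exact h4
  rw [h2]
  ring

variable {s : ℂ} {φ : ℤ → G → ℂ}

private theorem Fo1_sum : Summable fun n : ℤ => ((1 + |(n : ℝ)|) ^ 2)⁻¹ := by
  have h : Summable fun n : ℕ => ((1 + (n : ℝ)) ^ 2)⁻¹ := by
    have h1 := (summable_nat_add_iff 1).2 (Real.summable_nat_pow_inv.2 (by norm_num : 1 < 2))
    refine h1.congr fun n => ?_
    push_cast
    rw [add_comm]
  refine Summable.of_nat_of_neg ?_ ?_
  · refine h.congr fun n => ?_
    simp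
  · refine h.congr fun n => ?_
    simp

private theorem Fo1_key {F : ℝ × ℝ → ℂ} (hF : Hm s F) (m : ℕ) (b : ℝ)
    (h0 : ∀ θ : ℝ, ‖iteratedDeriv 0 (fun θ => F (circ θ)) θ‖ ≤ b) (hm : ∀ θ : ℝ, ‖iteratedDeriv m (fun θ => F (circ θ)) θ‖ ≤ b) (n : ℤ) :
    ‖fc F n‖ * (1 + |(n : ℝ)|) ^ m ≤ 2 ^ m * b := by
  have h1 := fc_decay hF 0 b h0 n
  have h2 := fc_decay hF m b hm n
  rw [pow_zero, mul_one] at h1
  by_cases hn : n = 0
  · subst hn
    simp only [Int.cast_zero, abs_zero, add_zero, one_pow, mul_one]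
    have hb : 0 ≤ b := (norm_nonneg _).trans h1
    have h3 : (1 : ℝ) ≤ 2 ^ m := one_le_pow₀ (by norm_num)
    nlinarith
  · have h3 : (1 : ℝ) ≤ |(n : ℝ)| := by
      exact_mod_cast Int.one_le_abs hn
    have h4 : (1 + |(n : ℝ)|) ^ m ≤ 2 ^ m * |(n : ℝ)| ^ m := by
      rw [← mul_pow]
      exact pow_le_pow_left₀ (by positivity) (by linarith) m
    calc ‖fc F n‖ * (1 + |(n : ℝ)|) ^ m ≤ ‖fc F n‖ * (2 ^ m * |(n : ℝ)| ^ m) := mul_le_mul_of_nonneg_left h4 (norm_nonneg _)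
      _ = 2 ^ m * (‖fc F n‖ * |(n : ℝ)| ^ m) := by ring
      _ ≤ 2 ^ m * b := mul_le_mul_of_nonneg_left h2 (by positivity)

private theorem Fo1_term {F : ℝ × ℝ → ℂ} (hF : Hm s F) {C : ℝ} {k : ℕ} (hC : 0 ≤ C) (hk : ∀ n g, ‖φ n g‖ ≤ C * (1 + |(n : ℝ)|) ^ k) (b : ℝ)
    (h0 : ∀ θ : ℝ, ‖iteratedDeriv 0 (fun θ => F (circ θ)) θ‖ ≤ b) (hm : ∀ θ : ℝ, ‖iteratedDeriv (k + 2) (fun θ => F (circ θ)) θ‖ ≤ b)
    (g : G) (n : ℤ) : ‖fc F n * φ n g‖ ≤ C * (2 ^ (k + 2) * b) * ((1 + |(n : ℝ)|) ^ 2)⁻¹ := by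
  have h1 := Fo1_key hF (k + 2) b h0 hm n
  have hp : (0 : ℝ) < (1 + |(n : ℝ)|) ^ 2 := by positivity
  rw [norm_mul, ← div_eq_mul_inv, le_div_iff₀ hp]
  calc ‖fc F n‖ * ‖φ n g‖ * (1 + |(n : ℝ)|) ^ 2 ≤ ‖fc F n‖ * (C * (1 + |(n : ℝ)|) ^ k) * (1 + |(n : ℝ)|) ^ 2 := by
        have := hk n g
        gcongr
    _ = C * (‖fc F n‖ * (1 + |(n : ℝ)|) ^ (k + 2)) := by ring
    _ ≤ C * (2 ^ (k + 2) * b) := mul_le_mul_of_nonneg_left h1 hC

private theorem Fo1_cpt {F : ℝ × ℝ → ℂ} (hF : Hm s F) (k : ℕ) : ∃ b : ℝ, ∀ θ : ℝ, ‖iteratedDeriv k (fun θ => F (circ θ)) θ‖ ≤ b := by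
  obtain ⟨b, hb⟩ := unif hF k 0
  refine ⟨b, fun θ => ?_⟩
  have h := hb 0 (by simp) θ
  have h1 : aa 0 = 1 := by
    ext i j
    fin_cases i <;> fin_cases j <;> simp [aa]
  rw [h1] at h
  simp only [act_one] at h
  exact h

private theorem Fo1_cpt' {F : ℝ × ℝ → ℂ} (hF : Hm s F) (k : ℕ) : ∃ b : ℝ, (∀ θ : ℝ, ‖iteratedDeriv 0 (fun θ => F (circ θ)) θ‖ ≤ b) ∧
    ∀ θ : ℝ, ‖iteratedDeriv k (fun θ => F (circ θ)) θ‖ ≤ b := by
  obtain ⟨b, hb⟩ := Fo1_cpt hF 0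
  obtain ⟨b', hb'⟩ := Fo1_cpt hF k
  exact ⟨max b b', fun θ => (hb θ).trans (le_max_left _ _), fun θ => (hb' θ).trans (le_max_right _ _)⟩

private theorem Fo1_C {C : ℝ} {k : ℕ} (hk : ∀ n g, ‖φ n g‖ ≤ C * (1 + |(n : ℝ)|) ^ k) : 0 ≤ C := by
  have h := (norm_nonneg _).trans (hk 0 1)
  simpa using h

theorem TT_summable (hφ : Ladder s φ) {F : ℝ × ℝ → ℂ} (hF : Hm s F) (g : G) : Summable fun n : ℤ => fc F n * φ n g := by
  obtain ⟨C, k, hk⟩ := hφ.bd
  obtain ⟨b, h0, hm⟩ := Fo1_cpt' hF (k + 2)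
  exact Summable.of_norm_bounded (Fo1_sum.mul_left _) fun n => Fo1_term hF (Fo1_C hk) hk b h0 hm g n

theorem TT_congr {F F' : ℝ × ℝ → ℂ} (h : ∀ v, v ≠ 0 → F v = F' v) (g : G) : TT φ g F = TT φ g F' := by
  unfold TT
  simp only [fc_congr h]

theorem TT_add (hφ : Ladder s φ) {F F' : ℝ × ℝ → ℂ} (hF : Hm s F) (hF' : Hm s F') (g : G) :
    TT φ g (fun v => F v + F' v) = TT φ g F + TT φ g F' := by
  unfold TT
  rw [← (TT_summable hφ hF g).tsum_add (TT_summable hφ hF' g)]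
  congr 1
  funext n
  rw [fc_add hF hF']
  ring

theorem TT_smul (c : ℂ) (F : ℝ × ℝ → ℂ) (g : G) : TT φ g (fun v => c * F v) = c * TT φ g F := by
  unfold TT
  rw [← tsum_mul_left]
  congr 1
  funext n
  rw [fc_smul]
  ring

theorem TT_em (m : ℤ) (g : G) : TT φ g (em s m) = φ m g := by
  unfold TT
  rw [tsum_eq_single m]
  · rw [fc_em, if_pos rfl, one_mul]
  · intro n hn
    rw [fc_em, if_neg hn, zero_mul]

theorem TT_bound (hφ : Ladder s φ) : ∃ (C : ℝ) (K : ℕ), 0 ≤ C ∧ ∀ (g : G) (F : ℝ × ℝ → ℂ) (b : ℝ), Hm s F →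
    (∀ k ≤ K, ∀ θ : ℝ, ‖iteratedDeriv k (fun θ => F (circ θ)) θ‖ ≤ b) → ‖TT φ g F‖ ≤ C * b := by
  obtain ⟨C, k, hk⟩ := hφ.bd
  have hC := Fo1_C hk
  have hS : 0 ≤ ∑' n : ℤ, ((1 + |(n : ℝ)|) ^ 2)⁻¹ := tsum_nonneg fun n => by positivity
  refine ⟨C * 2 ^ (k + 2) * ∑' n : ℤ, ((1 + |(n : ℝ)|) ^ 2)⁻¹, k + 2, by positivity, fun g F b hF hb => ?_⟩
  have h1 := fun n => Fo1_term hF hC hk b (hb 0 (Nat.zero_le _)) (hb (k + 2) le_rfl) g n
  have h2 := tsum_of_norm_bounded ((Fo1_sum.mul_left (C * (2 ^ (k + 2) * b))).hasSum) h1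
  rw [tsum_mul_left] at h2
  unfold TT
  calc _ ≤ _ := h2
    _ = _ := by ring

theorem TT_kk (hφ : Ladder s φ) {F : ℝ × ℝ → ℂ} (hF : Hm s F) (g : G) (β : ℝ) :
    TT φ (g * kk β) F = TT φ g fun v => F (act (kk (-β)) v) := by
  unfold TT
  congr 1
  funext n
  rw [hφ.rot, fc_kk hF]
  ring

end MPku
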