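import Pool.Agent.Lib.MP_7b255b_ntU.Fo0

/-!
# Fo2: the derivative of the Fourier coefficients along the diagonal group

JOB Fo2. `u_t θ = F (act (aa (-t)) (circ θ)) = F (e^{-t/2} cos θ, e^{t/2} sin θ)`, smooth in `(t, θ)`, `2π`-periodic in `θ`.
* derivative in `t` at `0`: `½ (- v.1 ∂_1 F + v.2 ∂_2 F)` at `v = circ θ`. Euler: `v.1 ∂_1 F + v.2 ∂_2 F = -(1+s) F` (derivative of `F (r • v) = r^(-(1+s)) F v` at `r = 1`), and `-v.2 ∂_1 F + v.1 ∂_2 F = d/dθ F(circ θ)`. With
  `c = cos θ`, `σ = sin θ`: `∂_1 F = -(1+s) c F - σ F'`, `∂_2 F = -(1+s) σ F + c F'` (`F' = d/dθ F (circ θ)`), so `½ (-c ∂_1 F + σ ∂_2 F) = ½ ((1+s) cos 2θ F + sin 2θ F')`.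
* `d/dt ∫_0^{2π} u_t e^{inθ} = ∫ ½ ((1+s) cos 2θ F + sin 2θ F') e^{inθ}` (differentiation under the integral: `intervalIntegral.hasDerivAt_integral_of_dominated_loc_of_deriv_le`, the `t`-derivative is continuous in `(t, θ)`, so bounded on a
  compact set). Integration by parts (periodicity): `∫ sin 2θ F' e^{inθ} = - ∫ F (2 cos 2θ + i n sin 2θ) e^{inθ}`. With `cos 2θ = (e^{2iθ} + e^{-2iθ})/2`, `i sin 2θ = (e^{2iθ} - e^{-2iθ})/2`:
  `½ ∫ F e^{inθ} ((s - 1) cos 2θ - n i sin 2θ) = ¼ ∫ F ((s - 1 - n) e^{i(n+2)θ} + (s - 1 + n) e^{i(n-2)θ})`.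
* `fc_aa'` at a general `t0`: `aa (-(t0 + τ)) = aa (-τ) aa (-t0)`... the function `v ↦ F (act (aa (-t0)) v)` is again `Hm s`; `act (aa (-t)) v = act (aa (-t0)) (act (aa (-(t - t0))) v)` (diagonal matrices commute).
-/

set_option autoImplicit false

namespace MPku

open MPkt

private theorem Fo2_act_aa (t : ℝ) (v : ℝ × ℝ) :
    act (aa t) v = (Real.exp (t / 2) * v.1, Real.exp (-(t / 2)) * v.2) := by
  unfold act aa
  simp

private theorem Fo2_circ_ne (θ : ℝ) : circ θ ≠ 0 := by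
  intro h
  have h1 : Real.cos θ = 0 := congrArg Prod.fst h
  have h2 : Real.sin θ = 0 := congrArg Prod.snd h
  have h3 := Real.sin_sq_add_cos_sq θ
  rw [h1, h2] at h3
  norm_num at h3

private theorem Fo2_smooth {s : ℂ} {F : ℝ × ℝ → ℂ} (hF : Hm s F) :
    ContDiff ℝ ((⊤ : ℕ∞) : WithTop ℕ∞) (fun x : ℝ × ℝ => F (act (aa (-x.1)) (circ x.2))) := by
  have h1 : ContDiff ℝ ((⊤ : ℕ∞) : WithTop ℕ∞) (fun x : ℝ × ℝ => act (aa (-x.1)) (circ x.2)) := by
    have e : (fun x : ℝ × ℝ => act (aa (-x.1)) (circ x.2))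
        = fun x : ℝ × ℝ => (Real.exp (-x.1 / 2) * Real.cos x.2, Real.exp (-(-x.1 / 2)) * Real.sin x.2) := by
      funext x
      rw [Fo2_act_aa]
      rfl
    rw [e]
    apply ContDiff.prodMk
    · exact (Real.contDiff_exp.comp (contDiff_fst.neg.div_const 2)).mul
        (Real.contDiff_cos.comp contDiff_snd)
    · exact (Real.contDiff_exp.comp ((contDiff_fst.neg.div_const 2).neg)).mul
        (Real.contDiff_sin.comp contDiff_snd)
  exact hF.smooth.comp_contDiff h1 (fun x => act_ne _ (Fo2_circ_ne _))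

/-- differentiation under the integral for continuously differentiable functions of two variables -/
private theorem Fo2_diffint {Ψ : ℝ × ℝ → ℂ} (hΨ : ContDiff ℝ 1 Ψ) (a b t0 : ℝ) :
    HasDerivAt (fun t : ℝ => ∫ θ in a..b, Ψ (t, θ)) (∫ θ in a..b, fderiv ℝ Ψ (t0, θ) (1, 0)) t0 := by
  have hcont : Continuous Ψ := hΨ.continuous
  have hfd : Continuous (fun x : ℝ × ℝ => fderiv ℝ Ψ x (1, 0)) :=
    (hΨ.continuous_fderiv (by norm_num)).clm_apply continuous_const
  have hK : IsCompact (Set.Icc (t0 - 1) (t0 + 1) ×ˢ Set.uIcc a b) :=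
    isCompact_Icc.prod isCompact_uIcc
  obtain ⟨C, hC⟩ := hK.exists_bound_of_continuousOn hfd.continuousOn
  have hd : ∀ t θ : ℝ, HasDerivAt (fun t : ℝ => Ψ (t, θ)) (fderiv ℝ Ψ (t, θ) (1, 0)) t := by
    intro t θ
    have h1 : HasFDerivAt Ψ (fderiv ℝ Ψ (t, θ)) (t, θ) :=
      (hΨ.differentiable (by norm_num)).differentiableAt.hasFDerivAt
    have h2 : HasDerivAt (fun t : ℝ => (t, θ)) ((1 : ℝ), (0 : ℝ)) t :=
      (hasDerivAt_id t).prodMk (hasDerivAt_const t θ)
    exact h1.comp_hasDerivAt t h2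
  refine (intervalIntegral.hasDerivAt_integral_of_dominated_loc_of_deriv_le
    (F := fun t θ => Ψ (t, θ)) (F' := fun t θ => fderiv ℝ Ψ (t, θ) (1, 0)) (x₀ := t0)
    (s := Set.Icc (t0 - 1) (t0 + 1)) (bound := fun _ => C)
    (Icc_mem_nhds (by linarith) (by linarith)) ?_ ?_ ?_ ?_ ?_ ?_).2
  · refine Filter.Eventually.of_forall (fun t => ?_)
    exact (hcont.comp (continuous_const.prodMk continuous_id)).aestronglyMeasurable
  · exact (hcont.comp (continuous_const.prodMk continuous_id)).intervalIntegrable a b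
  · exact (hfd.comp (continuous_const.prodMk continuous_id)).aestronglyMeasurable
  · refine Filter.Eventually.of_forall (fun θ hθ t ht => ?_)
    exact hC (t, θ) ⟨ht, Set.uIoc_subset_uIcc hθ⟩
  · exact continuous_const.intervalIntegrable a b
  · refine Filter.Eventually.of_forall (fun θ _ t _ => hd t θ)

private theorem Fo2_fderivF {s : ℂ} {F : ℝ × ℝ → ℂ} (hF : Hm s F) (θ : ℝ) :
    HasFDerivAt F (fderiv ℝ F (circ θ)) (circ θ) := by
  have ho : IsOpen {v : ℝ × ℝ | v ≠ 0} := isOpen_ne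
  have h1 : ContDiffAt ℝ ((⊤ : ℕ∞) : WithTop ℕ∞) F (circ θ) :=
    hF.smooth.contDiffAt (ho.mem_nhds (Fo2_circ_ne θ))
  exact (h1.differentiableAt (by simp)).hasFDerivAt

private theorem Fo2_euler {s : ℂ} {F : ℝ × ℝ → ℂ} (hF : Hm s F) (θ : ℝ) :
    fderiv ℝ F (circ θ) (circ θ) = -(1 + s) * F (circ θ) := by
  have h1 : HasDerivAt (fun r : ℝ => F (r • circ θ)) (fderiv ℝ F (circ θ) (circ θ)) 1 := by
    have h2 : HasDerivAt (fun r : ℝ => r • circ θ) (circ θ) 1 := by
      have := (hasDerivAt_id (1 : ℝ)).smul_const (circ θ)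
      simpa using this
    have h3 : HasFDerivAt F (fderiv ℝ F (circ θ)) ((1 : ℝ) • circ θ) := by
      rw [one_smul]; exact Fo2_fderivF hF θ
    exact h3.comp_hasDerivAt (1 : ℝ) h2
  have h4 : HasDerivAt (fun r : ℝ => (r : ℂ) ^ (-(1 + s)) * F (circ θ))
      (-(1 + s) * F (circ θ)) 1 := by
    have h5 : HasDerivAt (fun z : ℂ => z ^ (-(1 + s))) (-(1 + s)) ((1 : ℝ) : ℂ) := by
      have h6 := (hasDerivAt_id ((1 : ℝ) : ℂ)).cpow_const (c := -(1 + s))
        (by simp)
      simpa using h6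
    exact (h5.comp_ofReal).mul_const _
  have h7 : (fun r : ℝ => F (r • circ θ)) =ᶠ[nhds 1]
      fun r : ℝ => (r : ℂ) ^ (-(1 + s)) * F (circ θ) := by
    filter_upwards [lt_mem_nhds (zero_lt_one : (0 : ℝ) < 1)] with r hr
    exact hF.hom r hr _ (Fo2_circ_ne θ)
  exact h1.unique (h4.congr_of_eventuallyEq h7)

private theorem Fo2_dcirc {s : ℂ} {F : ℝ × ℝ → ℂ} (hF : Hm s F) (θ : ℝ) :
    HasDerivAt (fun θ : ℝ => F (circ θ)) (fderiv ℝ F (circ θ) (-Real.sin θ, Real.cos θ)) θ := by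
  have h2 : HasDerivAt circ (-Real.sin θ, Real.cos θ) θ :=
    (Real.hasDerivAt_cos θ).prodMk (Real.hasDerivAt_sin θ)
  exact (Fo2_fderivF hF θ).comp_hasDerivAt θ h2

private theorem Fo2_dt {s : ℂ} {F : ℝ × ℝ → ℂ} (hF : Hm s F) (θ : ℝ) :
    HasDerivAt (fun t : ℝ => F (act (aa (-t)) (circ θ)))
      ((1 / 2 : ℂ) * ((1 + s) * Real.cos (2 * θ) * F (circ θ) +
        Real.sin (2 * θ) * fderiv ℝ F (circ θ) (-Real.sin θ, Real.cos θ))) 0 := by
  have h2 : HasDerivAt (fun t : ℝ => act (aa (-t)) (circ θ))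
      (-(1 / 2) * Real.cos θ, (1 / 2) * Real.sin θ) 0 := by
    have e : (fun t : ℝ => act (aa (-t)) (circ θ))
        = fun t : ℝ => (Real.exp (-t / 2) * Real.cos θ, Real.exp (-(-t / 2)) * Real.sin θ) := by
      funext t
      rw [Fo2_act_aa]
      rfl
    rw [e]
    apply HasDerivAt.prodMk
    · have h3 : HasDerivAt (fun t : ℝ => -t / 2) (-(1 / 2)) 0 := by
        have := ((hasDerivAt_id (0 : ℝ)).neg).div_const 2
        refine this.congr_deriv ?_
        norm_num
      have h4 := (h3.exp).mul_const (Real.cos θ)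
      refine h4.congr_deriv ?_
      simp
    · have h3 : HasDerivAt (fun t : ℝ => -(-t / 2)) (1 / 2) 0 := by
        have := (((hasDerivAt_id (0 : ℝ)).neg).div_const 2).neg
        refine this.congr_deriv ?_
        norm_num
      have h4 := (h3.exp).mul_const (Real.sin θ)
      refine h4.congr_deriv ?_
      simp
  have h5 : HasFDerivAt F (fderiv ℝ F (circ θ)) (act (aa (-0)) (circ θ)) := by
    have : act (aa (-0)) (circ θ) = circ θ := by
      rw [Fo2_act_aa]
      simp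
    rw [this]
    exact Fo2_fderivF hF θ
  have h6 := h5.comp_hasDerivAt (0 : ℝ) h2
  refine h6.congr_deriv ?_
  have h7 : ((-(1 / 2) * Real.cos θ, (1 / 2) * Real.sin θ) : ℝ × ℝ)
      = (-(1 / 2) * Real.cos (2 * θ)) • circ θ
        + ((1 / 2) * Real.sin (2 * θ)) • ((-Real.sin θ, Real.cos θ) : ℝ × ℝ) := by
    have hcs := Real.sin_sq_add_cos_sq θ
    have hc2 := Real.cos_two_mul θ
    have hs2 := Real.sin_two_mul θ
    unfold circ
    ext
    · simp only [Prod.smul_mk, smul_eq_mul, Prod.mk_add_mk]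
      rw [hc2, hs2]
      have : Real.sin θ * Real.sin θ = 1 - Real.cos θ ^ 2 := by linarith
      linear_combination (Real.cos θ) * this
    · simp only [Prod.smul_mk, smul_eq_mul, Prod.mk_add_mk]
      rw [hc2, hs2]
      ring
  rw [h7, map_add, map_smul, map_smul, Fo2_euler hF θ, Complex.real_smul, Complex.real_smul]
  push_cast
  ring

theorem fc_aa {s : ℂ} {F : ℝ × ℝ → ℂ} (hF : Hm s F) (n : ℤ) :
    HasDerivAt (fun t : ℝ => fc (fun v => F (act (aa (-t)) v)) n) (((s - 1 - n) * fc F (n + 2) + (s - 1 + n) * fc F (n - 2)) / 4) 0 := by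
  set Ψ : ℝ × ℝ → ℂ := fun x => F (act (aa (-x.1)) (circ x.2)) * Complex.exp (n * x.2 * Complex.I)
    with hΨdef
  have hexp : ContDiff ℝ ((⊤ : ℕ∞) : WithTop ℕ∞) (fun x : ℝ × ℝ => Complex.exp (n * x.2 * Complex.I)) := by
    apply ContDiff.cexp
    exact (contDiff_const.mul (Complex.ofRealCLM.contDiff.comp contDiff_snd)).mul contDiff_const
  have hΨ : ContDiff ℝ 1 Ψ := by
    have h := (Fo2_smooth hF).mul hexp
    exact h.of_le (by exact_mod_cast le_top)
  have hmain := (Fo2_diffint hΨ 0 (2 * Real.pi) 0).const_mul ((2 * Real.pi : ℂ)⁻¹)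
  have hfun : (fun t : ℝ => fc (fun v => F (act (aa (-t)) v)) n)
      = fun t : ℝ => (2 * Real.pi : ℂ)⁻¹ * ∫ θ in (0 : ℝ)..(2 * Real.pi), Ψ (t, θ) := by
    funext t
    rfl
  rw [hfun]
  refine hmain.congr_deriv ?_
  -- the derivative of the integrand
  set e : ℝ → ℂ := fun θ => Complex.exp (n * θ * Complex.I) with he
  set w : ℝ → ℂ := fun θ => F (circ θ) with hw
  set w' : ℝ → ℂ := fun θ => fderiv ℝ F (circ θ) (-Real.sin θ, Real.cos θ) with hw'
  have hder : ∀ θ : ℝ, fderiv ℝ Ψ (0, θ) (1, 0)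
      = (1 / 2 : ℂ) * ((1 + s) * Real.cos (2 * θ) * w θ + Real.sin (2 * θ) * w' θ) * e θ := by
    intro θ
    have h1 : HasFDerivAt Ψ (fderiv ℝ Ψ (0, θ)) (0, θ) :=
      (hΨ.differentiable (by norm_num)).differentiableAt.hasFDerivAt
    have h2 : HasDerivAt (fun t : ℝ => (t, θ)) ((1 : ℝ), (0 : ℝ)) 0 :=
      (hasDerivAt_id (0 : ℝ)).prodMk (hasDerivAt_const (0 : ℝ) θ)
    have h3 : HasDerivAt (fun t : ℝ => Ψ (t, θ)) (fderiv ℝ Ψ (0, θ) (1, 0)) 0 :=
      HasFDerivAt.comp_hasDerivAt (f := fun t : ℝ => (t, θ)) (0 : ℝ) h1 h2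
    have h4 : HasDerivAt (fun t : ℝ => Ψ (t, θ))
        ((1 / 2 : ℂ) * ((1 + s) * Real.cos (2 * θ) * w θ + Real.sin (2 * θ) * w' θ) * e θ) 0 :=
      (Fo2_dt hF θ).mul_const (e θ)
    exact h3.unique h4
  have hwd : ∀ θ, HasDerivAt w (w' θ) θ := fun θ => Fo2_dcirc hF θ
  have hed : ∀ θ, HasDerivAt e (n * Complex.I * e θ) θ := by
    intro θ
    have h1 : HasDerivAt (fun θ : ℝ => (n * θ * Complex.I : ℂ)) (n * Complex.I) θ := by
      have h2 : HasDerivAt (fun θ : ℝ => (θ : ℂ)) 1 θ := Complex.ofRealCLM.hasDerivAt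
      have h3 := (h2.const_mul (n : ℂ)).mul_const Complex.I
      refine h3.congr_deriv ?_
      ring
    refine h1.cexp.congr_deriv ?_
    rw [he]
    ring
  have hwc : Continuous w := continuous_iff_continuousAt.2 fun θ => (hwd θ).continuousAt
  have hec : Continuous e := continuous_iff_continuousAt.2 fun θ => (hed θ).continuousAt
  have hS : ∀ θ : ℝ, HasDerivAt (fun θ : ℝ => ((Real.sin (2 * θ) : ℝ) : ℂ))
      (((2 * Real.cos (2 * θ) : ℝ)) : ℂ) θ := by
    intro θ
    have h1 : HasDerivAt (fun θ : ℝ => Real.sin (2 * θ)) (2 * Real.cos (2 * θ)) θ := by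
      have h2 : HasDerivAt (fun θ : ℝ => 2 * θ) 2 θ := by
        have := (hasDerivAt_id θ).const_mul (2 : ℝ)
        simpa using this
      refine h2.sin.congr_deriv ?_
      ring
    exact h1.ofReal_comp
  have hW : ∀ θ, HasDerivAt (fun θ => w θ * ((Real.sin (2 * θ) : ℝ) : ℂ) * e θ)
      ((w' θ * ((Real.sin (2 * θ) : ℝ) : ℂ) + w θ * ((2 * Real.cos (2 * θ) : ℝ) : ℂ)) * e θ
        + w θ * ((Real.sin (2 * θ) : ℝ) : ℂ) * (n * Complex.I * e θ)) θ := by
    intro θ
    exact ((hwd θ).mul (hS θ)).mul (hed θ)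
  -- continuity of the derivative of the integrand
  have hcd : Continuous fun θ : ℝ => fderiv ℝ Ψ (0, θ) (1, 0) :=
    ((hΨ.continuous_fderiv (by norm_num)).clm_apply continuous_const).comp
      (continuous_const.prodMk continuous_id)
  have hcos : Continuous fun θ : ℝ => ((Real.cos (2 * θ) : ℝ) : ℂ) :=
    Complex.continuous_ofReal.comp (Real.continuous_cos.comp (continuous_const.mul continuous_id))
  have hsin : Continuous fun θ : ℝ => ((Real.sin (2 * θ) : ℝ) : ℂ) :=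
    Complex.continuous_ofReal.comp (Real.continuous_sin.comp (continuous_const.mul continuous_id))
  -- the remaining integrand
  set Q : ℝ → ℂ := fun θ => w θ * e θ * ((s - 1) * Real.cos (2 * θ) - n * Complex.I * Real.sin (2 * θ))
    with hQ
  have hQc : Continuous Q :=
    (hwc.mul hec).mul ((continuous_const.mul hcos).sub (continuous_const.mul hsin))
  have hW' : ∀ θ, HasDerivAt (fun θ => w θ * ((Real.sin (2 * θ) : ℝ) : ℂ) * e θ)
      (2 * fderiv ℝ Ψ (0, θ) (1, 0) - Q θ) θ := by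
    intro θ
    refine (hW θ).congr_deriv ?_
    rw [hder θ, hQ]
    push_cast
    ring
  have hint : ∫ θ in (0 : ℝ)..(2 * Real.pi), (2 * fderiv ℝ Ψ (0, θ) (1, 0) - Q θ) = 0 := by
    rw [intervalIntegral.integral_eq_sub_of_hasDerivAt (fun θ _ => hW' θ)
      (((continuous_const.mul hcd).sub hQc).intervalIntegrable _ _)]
    have h1 : Real.sin (2 * (2 * Real.pi)) = 0 := by
      have := Real.sin_nat_mul_pi 4
      push_cast at this
      rw [show (2 * (2 * Real.pi)) = 4 * Real.pi by ring]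
      exact this
    rw [h1, mul_zero, Real.sin_zero]
    simp
  have hcd2 : IntervalIntegrable (fun θ : ℝ => 2 * fderiv ℝ Ψ (0, θ) (1, 0))
      MeasureTheory.volume 0 (2 * Real.pi) :=
    (continuous_const.mul hcd).intervalIntegrable _ _
  rw [intervalIntegral.integral_sub hcd2
    (hQc.intervalIntegrable _ _), intervalIntegral.integral_const_mul] at hint
  -- the Fourier expansion
  set ep : ℝ → ℂ := fun θ => Complex.exp ((n + 2 : ℤ) * θ * Complex.I) with hep
  set em' : ℝ → ℂ := fun θ => Complex.exp ((n - 2 : ℤ) * θ * Complex.I) with hem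
  have hepc : Continuous ep := by
    rw [hep]
    exact Complex.continuous_exp.comp ((continuous_const.mul Complex.continuous_ofReal).mul continuous_const)
  have hemc : Continuous em' := by
    rw [hem]
    exact Complex.continuous_exp.comp ((continuous_const.mul Complex.continuous_ofReal).mul continuous_const)
  have hQ2 : ∀ θ, Q θ = (1 / 2 : ℂ) * ((s - 1 - n) * (w θ * ep θ) + (s - 1 + n) * (w θ * em' θ)) := by
    intro θ
    have h1 : ep θ = e θ * Complex.exp (2 * θ * Complex.I) := by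
      rw [hep, he]
      simp only
      rw [← Complex.exp_add]
      congr 1
      push_cast
      ring
    have h2 : em' θ = e θ * Complex.exp (-(2 * θ * Complex.I)) := by
      rw [hem, he]
      simp only
      rw [← Complex.exp_add]
      congr 1
      push_cast
      ring
    have h3 : Complex.exp (2 * θ * Complex.I) = Real.cos (2 * θ) + Real.sin (2 * θ) * Complex.I := by
      rw [Complex.exp_mul_I]
      push_cast
      ring
    have h4 : Complex.exp (-(2 * θ * Complex.I)) = Real.cos (2 * θ) - Real.sin (2 * θ) * Complex.I := by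
      rw [show (-(2 * (θ : ℂ) * Complex.I)) = (-(2 * (θ : ℂ))) * Complex.I by ring,
        Complex.exp_mul_I, Complex.cos_neg, Complex.sin_neg]
      push_cast
      ring
    rw [h1, h2, h3, h4, hQ]
    ring
  have hi1 : IntervalIntegrable (fun θ : ℝ => (s - 1 - n) * (w θ * ep θ))
      MeasureTheory.volume 0 (2 * Real.pi) :=
    (continuous_const.mul (hwc.mul hepc)).intervalIntegrable _ _
  have hi2 : IntervalIntegrable (fun θ : ℝ => (s - 1 + n) * (w θ * em' θ))
      MeasureTheory.volume 0 (2 * Real.pi) :=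
    (continuous_const.mul (hwc.mul hemc)).intervalIntegrable _ _
  have hQint : ∫ θ in (0 : ℝ)..(2 * Real.pi), Q θ = (1 / 2 : ℂ) * ((s - 1 - n) *
      (∫ θ in (0 : ℝ)..(2 * Real.pi), w θ * ep θ) + (s - 1 + n) *
      (∫ θ in (0 : ℝ)..(2 * Real.pi), w θ * em' θ)) := by
    rw [intervalIntegral.integral_congr (fun θ _ => hQ2 θ), intervalIntegral.integral_const_mul,
      intervalIntegral.integral_add hi1 hi2,
      intervalIntegral.integral_const_mul, intervalIntegral.integral_const_mul]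
  have hf1 : fc F (n + 2) = (2 * Real.pi : ℂ)⁻¹ * ∫ θ in (0 : ℝ)..(2 * Real.pi), w θ * ep θ := rfl
  have hf2 : fc F (n - 2) = (2 * Real.pi : ℂ)⁻¹ * ∫ θ in (0 : ℝ)..(2 * Real.pi), w θ * em' θ := rfl
  rw [hf1, hf2]
  have h9 : (∫ θ in (0 : ℝ)..(2 * Real.pi), fderiv ℝ Ψ (0, θ) (1, 0))
      = (1 / 2 : ℂ) * ∫ θ in (0 : ℝ)..(2 * Real.pi), Q θ := by
    linear_combination (1 / 2 : ℂ) * hint
  rw [h9, hQint]
  ring

theorem fc_aa' {s : ℂ} {F : ℝ × ℝ → ℂ} (hF : Hm s F) (n : ℤ) (t0 : ℝ) :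
    HasDerivAt (fun t : ℝ => fc (fun v => F (act (aa (-t)) v)) n)
      (((s - 1 - n) * fc (fun v => F (act (aa (-t0)) v)) (n + 2) + (s - 1 + n) * fc (fun v => F (act (aa (-t0)) v)) (n - 2)) / 4) t0 := by
  have h1 := fc_aa (Hm_act hF (aa (-t0))) n
  have h2 : HasDerivAt (fun t : ℝ => fc (fun v => F (act (aa (-t0)) (act (aa (-t)) v))) n)
      (((s - 1 - n) * fc (fun v => F (act (aa (-t0)) v)) (n + 2) +
        (s - 1 + n) * fc (fun v => F (act (aa (-t0)) v)) (n - 2)) / 4) (t0 - t0) := by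
    rw [sub_self]; exact h1
  have h3 := h2.comp_sub_const t0 t0
  have e : (fun t : ℝ => fc (fun v => F (act (aa (-t)) v)) n)
      = fun t : ℝ => fc (fun v => F (act (aa (-t0)) (act (aa (-(t - t0))) v))) n := by
    funext t
    congr 1
    funext v
    congr 1
    rw [Fo2_act_aa, Fo2_act_aa, Fo2_act_aa]
    simp only
    rw [← mul_assoc, ← mul_assoc, ← Real.exp_add, ← Real.exp_add]
    congr 3 <;> ring
  rw [e]
  exact h3

end MPku
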