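import Pool.Agent.Lib.MP_7b255b_nt.Mean
import Pool.Agent.Lib.MP_7b255b_ntU.Fo1
import Pool.Agent.Lib.MP_7b255b_ntU.Fo2

/-!
# Fo3: equivariance of the functional `TT`

JOB Fo3.
* `TT_aa`: `J t = ∑' n, fc (F_t) n * φ n (g * aa (-t))`, `F_t v = F (act (aa (-t)) v)`. Show `J' = 0`. Termwise derivative: `fc_aa'` and `lad` at the point `g * aa (-t)` (`aa_add`): the derivative of `t ↦ φ n (g * aa (-t))` is
  `-((1 + s + n) φ (n+2) (g aa(-t)) + (1 + s - n) φ (n-2) (g aa(-t))) / 4`. Uniform summable bounds for `|t| ≤ t0`: `unif` (with `act (aa (-t))`) and `fc_decay` give `‖fc (F_t) n‖ (1 + |n|)^j ≤ C_j`, and `‖φ n g‖ ≤ C (1 + |n|)^k`.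
  `hasDerivAt_tsum_of_isPreconnected` (or `hasDerivAt_tsum`) on `(-t0, t0)`. The sum of the derivatives: with `f n = fc (F_t) n`, `ψ n = φ n (g aa (-t))`
  `4 J' = ∑ (s-1-n) f(n+2) ψ n + ∑ (s-1+n) f(n-2) ψ n - ∑ (1+s+n) f n ψ(n+2) - ∑ (1+s-n) f n ψ(n-2) = 0`: substitute `n → n - 2` in the first sum (it becomes the fourth) and `n → n + 2` in the second (it becomes the third)
  (`Equiv.tsum_eq (Equiv.addRight ..)`). So `J t = J 0` (`is_const_of_deriv_eq_zero`), `TT φ (g * aa (-t)) F_t = TT φ g F`; replace `g` by `g * aa t`.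
* `TT_act`: `h = kk α * aa t * kk β` (`kak`), `TT_kk`, `TT_aa`, `act_mul`, `kk_inv`, `aa_inv`.
* `TT_act'`: apply `TT_act` to `F ∘ act h`.
-/

set_option autoImplicit false

namespace MPku

open MPkt

variable {s : ℂ} {φ : ℤ → G → ℂ}

/-- `1 + |n|`. -/
private noncomputable def Fo3_p (n : ℤ) : ℝ := 1 + |(n : ℝ)|

private theorem Fo3_p_ge (n : ℤ) : 1 ≤ Fo3_p n := by
  unfold Fo3_p
  have := abs_nonneg (n : ℝ)
  linarith

private theorem Fo3_p_shift (n e : ℤ) (he : |(e : ℝ)| ≤ 2) : Fo3_p n ≤ 3 * Fo3_p (n + e) := by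
  unfold Fo3_p
  push_cast
  have h1 : |(n : ℝ)| ≤ |(n : ℝ) + e| + |(e : ℝ)| := by
    have := abs_sub (n + e : ℝ) (e : ℝ)
    calc |(n : ℝ)| = |((n : ℝ) + e) - e| := by ring_nf
      _ ≤ |(n : ℝ) + e| + |(e : ℝ)| := abs_sub _ _
  have := abs_nonneg ((n : ℝ) + e)
  linarith

private theorem Fo3_p_shift' (n e : ℤ) (he : |(e : ℝ)| ≤ 2) : Fo3_p (n + e) ≤ 3 * Fo3_p n := by
  unfold Fo3_p
  push_cast
  have h1 : |(n : ℝ) + e| ≤ |(n : ℝ)| + |(e : ℝ)| := abs_add_le _ _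
  have := abs_nonneg (n : ℝ)
  linarith

private theorem Fo3_summable : Summable fun n : ℤ => ((Fo3_p n) ^ 2)⁻¹ := by
  have h1 : Summable fun n : ℕ => (((n : ℝ) + 1) ^ 2)⁻¹ := by
    have h2 : Summable fun n : ℕ => ((n : ℝ) ^ 2)⁻¹ := Real.summable_nat_pow_inv.2 (by norm_num)
    have h3 := (summable_nat_add_iff 1).2 h2
    refine h3.congr fun n => ?_
    push_cast
    rfl
  refine Summable.of_nat_of_neg ?_ ?_
  · refine h1.congr fun n => ?_
    unfold Fo3_p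
    rw [Int.cast_natCast, abs_of_nonneg (Nat.cast_nonneg n), add_comm]
  · refine h1.congr fun n => ?_
    unfold Fo3_p
    rw [Int.cast_neg, Int.cast_natCast, abs_neg, abs_of_nonneg (Nat.cast_nonneg n), add_comm]

/-- the general term -/
private theorem Fo3_term {f ψ c : ℤ → ℂ} {k : ℕ} {Cf Cψ Cc : ℝ} (hCψ : 0 ≤ Cψ)
    (hCc : 0 ≤ Cc) (hf : ∀ n, ‖f n‖ * Fo3_p n ^ (k + 3) ≤ Cf)
    (hψ : ∀ n, ‖ψ n‖ ≤ Cψ * Fo3_p n ^ k) (hc : ∀ n, ‖c n‖ ≤ Cc * Fo3_p n) (e e' : ℤ)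
    (he : |(e : ℝ)| ≤ 2) (he' : |(e' : ℝ)| ≤ 2) (n : ℤ) :
    ‖c n * f (n + e) * ψ (n + e')‖ ≤ (Cc * (3 ^ (k + 3) * Cf) * (Cψ * 3 ^ k)) * ((Fo3_p n) ^ 2)⁻¹ := by
  have hp := Fo3_p_ge n
  have hp0 : 0 < Fo3_p n := by linarith
  have hpe := Fo3_p_ge (n + e)
  have hCf : 0 ≤ Cf := le_trans (mul_nonneg (norm_nonneg _) (by positivity)) (hf n)
  have h1 : ‖f (n + e)‖ ≤ 3 ^ (k + 3) * Cf / Fo3_p n ^ (k + 3) := by
    rw [le_div_iff₀ (by positivity)]
    have h2 : Fo3_p n ^ (k + 3) ≤ (3 * Fo3_p (n + e)) ^ (k + 3) :=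
      pow_le_pow_left₀ hp0.le (Fo3_p_shift n e he) _
    calc ‖f (n + e)‖ * Fo3_p n ^ (k + 3) ≤ ‖f (n + e)‖ * (3 * Fo3_p (n + e)) ^ (k + 3) :=
          mul_le_mul_of_nonneg_left h2 (norm_nonneg _)
      _ = 3 ^ (k + 3) * (‖f (n + e)‖ * Fo3_p (n + e) ^ (k + 3)) := by rw [mul_pow]; ring
      _ ≤ 3 ^ (k + 3) * Cf := mul_le_mul_of_nonneg_left (hf _) (by positivity)
  have h3 : ‖ψ (n + e')‖ ≤ Cψ * 3 ^ k * Fo3_p n ^ k := by
    refine (hψ _).trans ?_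
    rw [mul_assoc, ← mul_pow]
    exact mul_le_mul_of_nonneg_left
      (pow_le_pow_left₀ (by linarith [Fo3_p_ge (n + e')]) (Fo3_p_shift' n e' he') _) hCψ
  rw [norm_mul, norm_mul]
  calc ‖c n‖ * ‖f (n + e)‖ * ‖ψ (n + e')‖
      ≤ (Cc * Fo3_p n) * (3 ^ (k + 3) * Cf / Fo3_p n ^ (k + 3)) * (Cψ * 3 ^ k * Fo3_p n ^ k) := by
        apply mul_le_mul _ h3 (norm_nonneg _) (by positivity)
        exact mul_le_mul (hc n) h1 (norm_nonneg _) (by positivity)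
    _ = _ := by
        field_simp
        ring

private theorem Fo3_coef (s : ℂ) (a b : ℂ) (ha : ‖a‖ ≤ ‖s‖ + 1) (hb : ‖b‖ ≤ 1) (n : ℤ) :
    ‖a + b * n‖ ≤ (‖s‖ + 2) * Fo3_p n := by
  unfold Fo3_p
  have h1 : ‖a + b * n‖ ≤ ‖a‖ + ‖b‖ * |(n : ℝ)| := by
    refine (norm_add_le _ _).trans ?_
    rw [norm_mul, Complex.norm_intCast]
  have h2 : ‖b‖ * |(n : ℝ)| ≤ 1 * |(n : ℝ)| := mul_le_mul_of_nonneg_right hb (abs_nonneg _)
  have h3 := norm_nonneg s
  have h4 := abs_nonneg (n : ℝ)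
  nlinarith

private theorem Fo3_aux (hφ : Ladder s φ) {F : ℝ × ℝ → ℂ} (hF : Hm s F) (g : G) (t : ℝ) :
    TT φ (g * aa (-t)) (fun v => F (act (aa (-t)) v)) = TT φ g F := by
  obtain ⟨C0, k, hbd⟩ := hφ.bd
  -- the constants
  have hC0 : 0 ≤ |C0| := abs_nonneg _
  have hψ : ∀ (g' : G) (n : ℤ), ‖φ n g'‖ ≤ |C0| * Fo3_p n ^ k := by
    intro g' n
    refine (hbd n g').trans ?_
    exact mul_le_mul_of_nonneg_right (le_abs_self _) (by positivity)
  have hfb : ∀ T : ℝ, ∃ Cf : ℝ, ∀ t : ℝ, |t| ≤ T → ∀ n : ℤ,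
      ‖fc (fun v => F (act (aa (-t)) v)) n‖ * Fo3_p n ^ (k + 3) ≤ Cf := by
    intro T
    obtain ⟨b0, hb0⟩ := unif hF 0 T
    obtain ⟨b1, hb1⟩ := unif hF (k + 3) T
    refine ⟨2 ^ (k + 3) * (b0 + b1), fun t ht n => ?_⟩
    have ht' : |(-t)| ≤ T := by rwa [abs_neg]
    have h0 := fc_decay (Hm_act hF (aa (-t))) 0 b0 (fun θ => hb0 (-t) ht' θ) n
    have h1 := fc_decay (Hm_act hF (aa (-t))) (k + 3) b1 (fun θ => hb1 (-t) ht' θ) n
    rw [pow_zero, mul_one] at h0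
    have h2 : Fo3_p n ^ (k + 3) ≤ 2 ^ (k + 3) * (1 + |(n : ℝ)| ^ (k + 3)) := by
      unfold Fo3_p
      rcases le_total |(n : ℝ)| 1 with h | h
      · calc (1 + |(n : ℝ)|) ^ (k + 3) ≤ 2 ^ (k + 3) :=
              pow_le_pow_left₀ (by positivity) (by linarith) _
          _ ≤ _ := by
              have : (0 : ℝ) ≤ |(n : ℝ)| ^ (k + 3) := by positivity
              nlinarith [pow_pos (two_pos : (0 : ℝ) < 2) (k + 3)]
      · calc (1 + |(n : ℝ)|) ^ (k + 3) ≤ (2 * |(n : ℝ)|) ^ (k + 3) :=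
              pow_le_pow_left₀ (by positivity) (by linarith) _
          _ = 2 ^ (k + 3) * |(n : ℝ)| ^ (k + 3) := by rw [mul_pow]
          _ ≤ _ := by
              apply mul_le_mul_of_nonneg_left _ (by positivity)
              linarith
    have h3 := norm_nonneg (fc (fun v => F (act (aa (-t)) v)) n)
    calc _ ≤ ‖fc (fun v => F (act (aa (-t)) v)) n‖ * (2 ^ (k + 3) * (1 + |(n : ℝ)| ^ (k + 3))) :=
          mul_le_mul_of_nonneg_left h2 h3
      _ = 2 ^ (k + 3) * (‖fc (fun v => F (act (aa (-t)) v)) n‖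
          + ‖fc (fun v => F (act (aa (-t)) v)) n‖ * |(n : ℝ)| ^ (k + 3)) := by ring
      _ ≤ _ := mul_le_mul_of_nonneg_left (by linarith) (by positivity)
  set u : ℤ → ℝ → ℂ := fun n t => fc (fun v => F (act (aa (-t)) v)) n * φ n (g * aa (-t)) with hu
  set f : ℝ → ℤ → ℂ := fun t n => fc (fun v => F (act (aa (-t)) v)) n with hf
  set ψ : ℝ → ℤ → ℂ := fun t n => φ n (g * aa (-t)) with hψd
  set u' : ℤ → ℝ → ℂ := fun n t =>
    ((s - 1 + (-1) * n) * f t (n + 2) * ψ t (n + 0) + (s - 1 + 1 * n) * f t (n + (-2)) * ψ t (n + 0)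
      - (1 + s + 1 * n) * f t (n + 0) * ψ t (n + 2) - (1 + s + (-1) * n) * f t (n + 0) * ψ t (n + (-2))) / 4
    with hu'
  have hder : ∀ n t0, HasDerivAt (u n) (u' n t0) t0 := by
    intro n t0
    have h1 := fc_aa' hF n t0
    have h2 : HasDerivAt (fun t : ℝ => φ n (g * aa (-t)))
        (-(((1 + s + n) * φ (n + 2) (g * aa (-t0)) + (1 + s - n) * φ (n - 2) (g * aa (-t0))) / 4)) t0 := by
      have h3 := hφ.lad n (g * aa (-t0))
      have h4 : HasDerivAt (fun t : ℝ => t0 - t) (-1) t0 := by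
        have := (hasDerivAt_const t0 t0).sub (hasDerivAt_id t0)
        refine this.congr_deriv ?_
        norm_num
      have h5 : HasDerivAt (fun t : ℝ => φ n (g * aa (-t0) * aa t))
          (((1 + s + n) * φ (n + 2) (g * aa (-t0)) + (1 + s - n) * φ (n - 2) (g * aa (-t0))) / 4)
          (t0 - t0) := by rw [sub_self]; exact h3
      have h6 := HasDerivAt.scomp (h := fun t : ℝ => t0 - t) t0 h5 h4
      have e : (fun t : ℝ => φ n (g * aa (-t)))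
          = (fun t : ℝ => φ n (g * aa (-t0) * aa t)) ∘ fun t : ℝ => t0 - t := by
        funext t
        simp only [Function.comp]
        rw [mul_assoc, ← aa_add]
        congr 3
        ring
      rw [e]
      refine h6.congr_deriv ?_
      rw [neg_one_smul]
    refine (h1.mul h2).congr_deriv ?_
    rw [hu', hf, hψd]
    simp only [add_zero, ← sub_eq_add_neg]
    ring
  have hcoA : ‖s - 1‖ ≤ ‖s‖ + 1 := (norm_sub_le _ _).trans (by rw [norm_one])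
  have hcoB : ‖1 + s‖ ≤ ‖s‖ + 1 := (norm_add_le _ _).trans (by rw [norm_one, add_comm])
  have h2abs : |((2 : ℤ) : ℝ)| ≤ 2 := by norm_num
  have hm2abs : |((-2 : ℤ) : ℝ)| ≤ 2 := by norm_num
  have h0abs : |((0 : ℤ) : ℝ)| ≤ 2 := by norm_num
  have hn1 : ‖(-1 : ℂ)‖ ≤ 1 := by rw [norm_neg, norm_one]
  have hp1 : ‖(1 : ℂ)‖ ≤ 1 := by rw [norm_one]
  -- the four terms
  have hterms : ∀ T : ℝ, ∃ M : ℝ, ∀ t : ℝ, |t| ≤ T → ∀ n : ℤ,
      ‖(s - 1 + (-1) * n) * f t (n + 2) * ψ t (n + 0)‖ ≤ M * ((Fo3_p n) ^ 2)⁻¹ ∧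
      ‖(s - 1 + 1 * n) * f t (n + (-2)) * ψ t (n + 0)‖ ≤ M * ((Fo3_p n) ^ 2)⁻¹ ∧
      ‖(1 + s + 1 * n) * f t (n + 0) * ψ t (n + 2)‖ ≤ M * ((Fo3_p n) ^ 2)⁻¹ ∧
      ‖(1 + s + (-1) * n) * f t (n + 0) * ψ t (n + (-2))‖ ≤ M * ((Fo3_p n) ^ 2)⁻¹ := by
    intro T
    obtain ⟨Cf, hCf⟩ := hfb T
    refine ⟨(‖s‖ + 2) * (3 ^ (k + 3) * Cf) * (|C0| * 3 ^ k), fun t ht n => ?_⟩
    have hs0 : 0 ≤ ‖s‖ + 2 := by positivity
    refine ⟨?_, ?_, ?_, ?_⟩
    · exact Fo3_term (f := f t) (ψ := ψ t) (c := fun n : ℤ => s - 1 + (-1) * n) hC0 hs0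
        (hCf t ht) (fun n => hψ _ n) (Fo3_coef s (s - 1) (-1) hcoA hn1) 2 0 h2abs h0abs n
    · exact Fo3_term (f := f t) (ψ := ψ t) (c := fun n : ℤ => s - 1 + 1 * n) hC0 hs0
        (hCf t ht) (fun n => hψ _ n) (Fo3_coef s (s - 1) 1 hcoA hp1) (-2) 0 hm2abs h0abs n
    · exact Fo3_term (f := f t) (ψ := ψ t) (c := fun n : ℤ => 1 + s + 1 * n) hC0 hs0
        (hCf t ht) (fun n => hψ _ n) (Fo3_coef s (1 + s) 1 hcoB hp1) 0 2 h0abs h2abs n
    · exact Fo3_term (f := f t) (ψ := ψ t) (c := fun n : ℤ => 1 + s + (-1) * n) hC0 hs0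
        (hCf t ht) (fun n => hψ _ n) (Fo3_coef s (1 + s) (-1) hcoB hn1) 0 (-2) h0abs hm2abs n
  have hsum0 : ∀ t, ∑' n, u' n t = 0 := by
    intro t
    obtain ⟨M, hM⟩ := hterms |t|
    have hS : Summable fun n : ℤ => M * ((Fo3_p n) ^ 2)⁻¹ := Fo3_summable.mul_left M
    have sA : Summable fun n : ℤ => (s - 1 + (-1) * n) * f t (n + 2) * ψ t (n + 0) :=
      Summable.of_norm_bounded hS fun n => (hM t le_rfl n).1
    have sB : Summable fun n : ℤ => (s - 1 + 1 * n) * f t (n + (-2)) * ψ t (n + 0) :=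
      Summable.of_norm_bounded hS fun n => (hM t le_rfl n).2.1
    have sC : Summable fun n : ℤ => (1 + s + 1 * n) * f t (n + 0) * ψ t (n + 2) :=
      Summable.of_norm_bounded hS fun n => (hM t le_rfl n).2.2.1
    have sD : Summable fun n : ℤ => (1 + s + (-1) * n) * f t (n + 0) * ψ t (n + (-2)) :=
      Summable.of_norm_bounded hS fun n => (hM t le_rfl n).2.2.2
    have eAD : ∑' n : ℤ, (s - 1 + (-1) * n) * f t (n + 2) * ψ t (n + 0)
        = ∑' n : ℤ, (1 + s + (-1) * n) * f t (n + 0) * ψ t (n + (-2)) := by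
      rw [← (Equiv.addRight (-2 : ℤ)).tsum_eq]
      refine tsum_congr fun n => ?_
      simp only [Equiv.coe_addRight]
      rw [add_zero, add_zero, show n + -2 + 2 = n by ring]
      push_cast
      ring
    have eBC : ∑' n : ℤ, (s - 1 + 1 * n) * f t (n + (-2)) * ψ t (n + 0)
        = ∑' n : ℤ, (1 + s + 1 * n) * f t (n + 0) * ψ t (n + 2) := by
      rw [← (Equiv.addRight (2 : ℤ)).tsum_eq]
      refine tsum_congr fun n => ?_
      simp only [Equiv.coe_addRight]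
      rw [add_zero, add_zero, show n + 2 + -2 = n by ring]
      push_cast
      ring
    rw [hu']
    simp only
    rw [tsum_div_const, ((sA.add sB).sub sC).tsum_sub sD, (sA.add sB).tsum_sub sC, sA.tsum_add sB,
      eAD, eBC]
    ring
  have hJ : ∀ t0, HasDerivAt (fun t => ∑' n, u n t) 0 t0 := by
    intro t0
    obtain ⟨M, hM⟩ := hterms (|t0| + 1)
    have hS : Summable fun n : ℤ => M * ((Fo3_p n) ^ 2)⁻¹ := Fo3_summable.mul_left M
    have hmem : ∀ t ∈ Set.Ioo (-(|t0| + 1)) (|t0| + 1), |t| ≤ |t0| + 1 := by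
      intro t ht
      exact (abs_lt.2 ⟨ht.1, ht.2⟩).le
    have ht0 : t0 ∈ Set.Ioo (-(|t0| + 1)) (|t0| + 1) := by
      constructor
      · have := neg_abs_le t0
        linarith
      · have := le_abs_self t0
        linarith
    have h := hasDerivAt_tsum_of_isPreconnected (u := fun n : ℤ => M * ((Fo3_p n) ^ 2)⁻¹)
      (g := u) (g' := u') (t := Set.Ioo (-(|t0| + 1)) (|t0| + 1)) (y₀ := t0) (y := t0)
      hS isOpen_Ioo isPreconnected_Ioo (fun n t _ => hder n t) ?_ ht0 ?_ ht0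
    · rw [hsum0] at h
      exact h
    · intro n t ht
      obtain ⟨b1, b2, b3, b4⟩ := hM t (hmem t ht) n
      rw [hu']
      simp only
      rw [norm_div]
      have h4 : ‖(4 : ℂ)‖ = 4 := by norm_num
      rw [h4, div_le_iff₀ (by norm_num)]
      refine (norm_sub_le _ _).trans ?_
      have h5 := norm_sub_le ((s - 1 + (-1) * n) * f t (n + 2) * ψ t (n + 0) +
        (s - 1 + 1 * n) * f t (n + (-2)) * ψ t (n + 0)) ((1 + s + 1 * n) * f t (n + 0) * ψ t (n + 2))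
      have h6 := norm_add_le ((s - 1 + (-1) * n) * f t (n + 2) * ψ t (n + 0))
        ((s - 1 + 1 * n) * f t (n + (-2)) * ψ t (n + 0))
      linarith
    · exact TT_summable hφ (Hm_act hF (aa (-t0))) (g * aa (-t0))
  have hconst : ∀ t, ∑' n, u n t = ∑' n, u n 0 := by
    intro t
    have hdiff : Differentiable ℝ fun t => ∑' n, u n t := fun t => (hJ t).differentiableAt
    exact is_const_of_deriv_eq_zero hdiff (fun t => (hJ t).deriv) t 0
  have key : ∀ t, TT φ (g * aa (-t)) (fun v => F (act (aa (-t)) v)) = TT φ g F := by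
    intro t
    have h1 := hconst t
    have h2 : ∑' n, u n 0 = TT φ g F := by
      rw [hu]
      simp only
      rw [neg_zero, aa_zero, mul_one]
      unfold TT
      refine tsum_congr fun n => ?_
      congr 2
      funext v
      rw [act_one]
    rw [← h2, ← h1]
    rfl
  exact key t

theorem TT_aa (hφ : Ladder s φ) {F : ℝ × ℝ → ℂ} (hF : Hm s F) (g : G) (t : ℝ) :
    TT φ (g * aa t) F = TT φ g fun v => F (act (aa (-t)) v) := by
  have h := Fo3_aux hφ hF (g * aa t) t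
  rw [mul_assoc, ← aa_add, add_neg_cancel, aa_zero, mul_one] at h
  exact h.symm

theorem TT_act (hφ : Ladder s φ) {F : ℝ × ℝ → ℂ} (hF : Hm s F) (g h : G) : TT φ (g * h) F = TT φ g fun v => F (act h⁻¹ v) := by
  obtain ⟨α, t, β, _, hh, _⟩ := kak h
  have e1 : g * h = g * kk α * aa t * kk β := by
    rw [hh]
    simp only [mul_assoc]
  rw [e1, TT_kk hφ hF, TT_aa hφ (Hm_act hF _), TT_kk hφ (Hm_act (Hm_act hF _) _)]
  congr 1
  funext v
  rw [← act_mul, ← act_mul]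
  congr 2
  rw [hh, mul_inv_rev, mul_inv_rev, kk_inv, kk_inv, aa_inv, mul_assoc]

theorem TT_act' (hφ : Ladder s φ) {F : ℝ × ℝ → ℂ} (hF : Hm s F) (g h : G) : TT φ (g * h) (fun v => F (act h v)) = TT φ g F := by
  rw [TT_act hφ (Hm_act hF h)]
  congr 1
  funext v
  rw [← act_mul, mul_inv_cancel, act_one]

end MPku
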