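import Pool.Agent.Lib.MP_7b255b_ntU.D

/-!
# K1: rich and poor cells (counting lemma)

JOB K1. `B` a finite set, `E` a symmetric relation on `B`, `k s a = k a s` the cell of the pair; `far`: `2 ≤ |k s a - k s b|`. `hQ`: there are at most `|B| D^3` quadruples `(s, a1, a2, a3)` with `E s a_i` and pairwise
far cells `k s a_i`. Let `d c s = #{a ∈ B | E s a ∧ k s a = c}` and `R c = {s ∈ B | D ≤ d c s}`.
* For `s ∈ B` let `κ s = #{c | D ≤ d c s}` (a finite set, contained in the image of `k s` on `B`). Triples of rich cells `c1, c2, c3` of `s` with pairwise distances `≥ 2`: at least `κ (κ - 3)^+ (κ - 6)^+` (each `c` excludes the three cells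
  `c - 1, c, c + 1`), and each gives at least `D^3` triples `(a1, a2, a3)`; different `(c1, c2, c3)` give different `(a1, a2, a3)`. So `D^3 ∑_s κ (κ - 3)^+ (κ - 6)^+ ≤ |B| D^3`.
  For real `x ≥ 0`: `x ≤ 12 + x (x - 3)^+ (x - 6)^+ / 54` (for `x ≥ 12`: `x (x-3)(x-6) ≥ 54 x`). So `∑_s κ s ≤ 12 |B| + |B| / 54 ≤ 13 |B|`, and `∑_{c ∈ K} |R c| ≤ ∑_s κ s` (double counting).
* Let `p s = #{a ∈ B | E s a, d (k s a) s < D}` (poor neighbours). Triples of poor neighbours in pairwise far cells: choose `a1`; the `a2` in the three cells around `k s a1` are fewer than `3 D`: at least `p - 3 D`; at least `p - 6 D` choices of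
  `a3`. So `∑_s p (p - 3 D)^+ (p - 6 D)^+ ≤ |B| D^3`, `p ≤ 12 D + p (p - 3D)^+ (p - 6D)^+ / (54 D^2)`, `∑_s p s ≤ 12 |B| D + |B| D / 54 ≤ 13 |B| D`.
* A pair `(s, a)` with `E s a` and not (`s ∈ R (k s a)` and `a ∈ R (k s a)`) is poor seen from `s` or (by the symmetry) from `a`: at most `26 |B| D` pairs.
-/

set_option autoImplicit false

namespace MPku

open Finset
open scoped Classical

private theorem K1_tr {α : Type*} (S : Finset α) (f : α → ℤ) (m : ℝ)
    (hm : ∀ x ∈ S, (((S.filter fun y => |f x - f y| < 2).card : ℕ) : ℝ) ≤ m) :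
    (S.card : ℝ) * (max (S.card - m) 0 * max (S.card - 2 * m) 0) ≤
      (((S ×ˢ S ×ˢ S).filter fun q => 2 ≤ |f q.1 - f q.2.1| ∧ 2 ≤ |f q.1 - f q.2.2| ∧
        2 ≤ |f q.2.1 - f q.2.2|).card : ℝ) := by
  have hc : (((S ×ˢ S ×ˢ S).filter fun q => 2 ≤ |f q.1 - f q.2.1| ∧ 2 ≤ |f q.1 - f q.2.2| ∧
        2 ≤ |f q.2.1 - f q.2.2|).card : ℝ) =
      ∑ x ∈ S, ∑ y ∈ S.filter (fun y => 2 ≤ |f x - f y|),
        (((S.filter fun z => 2 ≤ |f x - f z| ∧ 2 ≤ |f y - f z|).card : ℕ) : ℝ) := by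
    rw [Finset.card_filter, Finset.sum_product]
    push_cast
    refine Finset.sum_congr rfl fun x _ => ?_
    rw [Finset.sum_product, Finset.sum_filter]
    refine Finset.sum_congr rfl fun y _ => ?_
    by_cases h : 2 ≤ |f x - f y|
    · rw [if_pos h, Finset.card_filter]
      push_cast
      refine Finset.sum_congr rfl fun z _ => ?_
      simp [h]
    · rw [if_neg h]
      refine Finset.sum_eq_zero fun z _ => ?_
      simp [h]
  rw [hc]
  have hfar : ∀ x ∈ S, (S.card : ℝ) - m ≤ ((S.filter fun y => 2 ≤ |f x - f y|).card : ℝ) := by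
    intro x hx
    have h1 := Finset.card_filter_add_card_filter_not (s := S) (fun y => |f x - f y| < 2)
    have h2 : (S.filter fun y => ¬ |f x - f y| < 2) = S.filter fun y => 2 ≤ |f x - f y| :=
      Finset.filter_congr fun y _ => by rw [not_lt]
    rw [h2] at h1
    have h3 : ((S.filter fun y => |f x - f y| < 2).card : ℝ) + ((S.filter fun y => 2 ≤ |f x - f y|).card : ℝ) = S.card := by
      exact_mod_cast h1
    linarith [hm x hx]
  have hfar2 : ∀ x ∈ S, ∀ y ∈ S, (S.card : ℝ) - 2 * m ≤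
      ((S.filter fun z => 2 ≤ |f x - f z| ∧ 2 ≤ |f y - f z|).card : ℝ) := by
    intro x hx y hy
    have h1 : S.card ≤ (S.filter fun z => |f x - f z| < 2).card + (S.filter fun z => |f y - f z| < 2).card +
        (S.filter fun z => 2 ≤ |f x - f z| ∧ 2 ≤ |f y - f z|).card := by
      refine le_trans (Finset.card_le_card (t := ((S.filter fun z => |f x - f z| < 2) ∪ (S.filter fun z => |f y - f z| < 2)) ∪
        (S.filter fun z => 2 ≤ |f x - f z| ∧ 2 ≤ |f y - f z|)) fun z hz => ?_) ((Finset.card_union_le _ _).trans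
          (Nat.add_le_add_right (Finset.card_union_le _ _) _))
      simp only [Finset.mem_union, Finset.mem_filter, hz, true_and]
      omega
    have h3 : (S.card : ℝ) ≤ ((S.filter fun z => |f x - f z| < 2).card : ℝ) + ((S.filter fun z => |f y - f z| < 2).card : ℝ) +
        ((S.filter fun z => 2 ≤ |f x - f z| ∧ 2 ≤ |f y - f z|).card : ℝ) := by exact_mod_cast h1
    linarith [hm x hx, hm y hy]
  calc (S.card : ℝ) * (max (S.card - m) 0 * max (S.card - 2 * m) 0)
      = ∑ x ∈ S, max (S.card - m) 0 * max (S.card - 2 * m) 0 := by rw [Finset.sum_const, nsmul_eq_mul]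
    _ ≤ _ := by
        refine Finset.sum_le_sum fun x hx => ?_
        calc max ((S.card : ℝ) - m) 0 * max (S.card - 2 * m) 0
            ≤ ((S.filter fun y => 2 ≤ |f x - f y|).card : ℝ) * max (S.card - 2 * m) 0 :=
              mul_le_mul_of_nonneg_right (max_le (hfar x hx) (Nat.cast_nonneg _)) (le_max_right _ _)
          _ = ∑ y ∈ S.filter (fun y => 2 ≤ |f x - f y|), max (S.card - 2 * m) 0 := by
              rw [Finset.sum_const, nsmul_eq_mul]
          _ ≤ _ := Finset.sum_le_sum fun y hy =>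
              max_le (hfar2 x hx y (Finset.mem_filter.1 hy).1) (Nat.cast_nonneg _)

private theorem K1_real (x D : ℝ) (hD : 0 < D) : x ≤ 12 * D + x * (max (x - 3 * D) 0 * max (x - 6 * D) 0) / (54 * D ^ 2) ∨ x < 0 := by
  by_cases h0 : x < 0
  · exact Or.inr h0
  left
  push Not at h0
  have h1 : 0 ≤ max (x - 3 * D) 0 * max (x - 6 * D) 0 := mul_nonneg (le_max_right _ _) (le_max_right _ _)
  by_cases h : x ≤ 12 * D
  · have : 0 ≤ x * (max (x - 3 * D) 0 * max (x - 6 * D) 0) / (54 * D ^ 2) := by positivity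
    linarith
  · push Not at h
    have h2 : 9 * D ≤ max (x - 3 * D) 0 := le_trans (by linarith) (le_max_left _ _)
    have h3 : 6 * D ≤ max (x - 6 * D) 0 := le_trans (by linarith) (le_max_left _ _)
    have h4 : (9 * D) * (6 * D) ≤ max (x - 3 * D) 0 * max (x - 6 * D) 0 :=
      mul_le_mul h2 h3 (by positivity) (le_max_right _ _)
    have h5 : x ≤ x * (max (x - 3 * D) 0 * max (x - 6 * D) 0) / (54 * D ^ 2) := by
      rw [le_div_iff₀ (by positivity)]
      nlinarith
    linarith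

/-- the far triples of neighbours of `s` -/
private noncomputable def K1_T (B : Finset ℕ) (E : ℕ → ℕ → Prop) (k : ℕ → ℕ → ℤ) (s : ℕ) : Finset (ℕ × ℕ × ℕ) :=
  (B ×ˢ B ×ˢ B).filter fun q => E s q.1 ∧ E s q.2.1 ∧ E s q.2.2 ∧ 2 ≤ |k s q.1 - k s q.2.1| ∧
      2 ≤ |k s q.1 - k s q.2.2| ∧ 2 ≤ |k s q.2.1 - k s q.2.2|

private theorem K1_sum (B : Finset ℕ) (E : ℕ → ℕ → Prop) (k : ℕ → ℕ → ℤ) :
    (((B ×ˢ B ×ˢ B ×ˢ B).filter fun q => E q.1 q.2.1 ∧ E q.1 q.2.2.1 ∧ E q.1 q.2.2.2 ∧ 2 ≤ |k q.1 q.2.1 - k q.1 q.2.2.1| ∧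
      2 ≤ |k q.1 q.2.1 - k q.1 q.2.2.2| ∧ 2 ≤ |k q.1 q.2.2.1 - k q.1 q.2.2.2|).card : ℝ) =
    ∑ s ∈ B, ((K1_T B E k s).card : ℝ) := by
  rw [Finset.card_filter, Finset.sum_product]
  push_cast
  refine Finset.sum_congr rfl fun s _ => ?_
  rw [K1_T, Finset.card_filter]
  push_cast
  rfl

/-- the number of neighbours of `s` in the cell `c` -/
private noncomputable def K1_d (B : Finset ℕ) (E : ℕ → ℕ → Prop) (k : ℕ → ℕ → ℤ) (c : ℤ) (s : ℕ) : ℝ :=
  ((B.filter fun a => E s a ∧ k s a = c).card : ℝ)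

/-- the rich cells of `s` -/
private noncomputable def K1_C (B : Finset ℕ) (E : ℕ → ℕ → Prop) (k : ℕ → ℕ → ℤ) (D : ℝ) (s : ℕ) : Finset ℤ :=
  (B.image (k s)).filter fun c => D ≤ K1_d B E k c s

private theorem K1_mem_C (B : Finset ℕ) (E : ℕ → ℕ → Prop) (k : ℕ → ℕ → ℤ) (D : ℝ) (hD : 1 ≤ D) (s : ℕ) (c : ℤ) :
    c ∈ K1_C B E k D s ↔ D ≤ K1_d B E k c s := by
  rw [K1_C, Finset.mem_filter, and_iff_right_iff_imp]
  intro h
  have h1 : (0 : ℝ) < K1_d B E k c s := by linarith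
  rw [K1_d, Nat.cast_pos, Finset.card_pos] at h1
  obtain ⟨a, ha⟩ := h1
  rw [Finset.mem_filter] at ha
  exact Finset.mem_image.2 ⟨a, ha.1, ha.2.2⟩

private theorem K1_rich (B : Finset ℕ) (E : ℕ → ℕ → Prop) (k : ℕ → ℕ → ℤ) (D : ℝ) (hD : 1 ≤ D) (s : ℕ) :
    D ^ 3 * (((K1_C B E k D s).card : ℝ) * (max (((K1_C B E k D s).card : ℝ) - 3) 0 * max (((K1_C B E k D s).card : ℝ) - 6) 0)) ≤
      ((K1_T B E k s).card : ℝ) := by
  have h1 := K1_tr (K1_C B E k D s) (fun c => c) 3 fun x _ => by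
    have h2 : ((K1_C B E k D s).filter fun y => |x - y| < 2) ⊆ {x - 1, x, x + 1} := by
      intro y hy
      rw [Finset.mem_filter, abs_lt] at hy
      simp only [Finset.mem_insert, Finset.mem_singleton]
      omega
    have h3 := (Finset.card_le_card h2).trans Finset.card_le_three
    exact_mod_cast h3
  have h6 : (2 : ℝ) * 3 = 6 := by norm_num
  rw [h6] at h1
  obtain ⟨C3, hC3⟩ : ∃ C3 : Finset (ℤ × ℤ × ℤ), C3 = ((K1_C B E k D s) ×ˢ (K1_C B E k D s) ×ˢ (K1_C B E k D s)).filter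
    fun q => 2 ≤ |q.1 - q.2.1| ∧ 2 ≤ |q.1 - q.2.2| ∧ 2 ≤ |q.2.1 - q.2.2| := ⟨_, rfl⟩
  have h1' : ((K1_C B E k D s).card : ℝ) * (max (((K1_C B E k D s).card : ℝ) - 3) 0 * max (((K1_C B E k D s).card : ℝ) - 6) 0) ≤
      (C3.card : ℝ) := by rw [hC3]; exact h1
  refine (mul_le_mul_of_nonneg_left h1' (by positivity)).trans ?_
  obtain ⟨F, hF⟩ : ∃ F : ℤ × ℤ × ℤ → Finset (ℕ × ℕ × ℕ), ∀ c, F c =
      (B.filter fun a => E s a ∧ k s a = c.1) ×ˢ (B.filter fun a => E s a ∧ k s a = c.2.1) ×ˢ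
        (B.filter fun a => E s a ∧ k s a = c.2.2) := ⟨_, fun _ => rfl⟩
  have hsub : C3.biUnion F ⊆ K1_T B E k s := by
    intro q hq
    rw [Finset.mem_biUnion] at hq
    obtain ⟨c, hc, hq⟩ := hq
    rw [hC3, Finset.mem_filter] at hc
    rw [hF, Finset.mem_product, Finset.mem_product, Finset.mem_filter, Finset.mem_filter, Finset.mem_filter] at hq
    obtain ⟨⟨q1, q2, q3⟩, ⟨q4, q5, q6⟩, q7, q8, q9⟩ := hq
    rw [K1_T, Finset.mem_filter, Finset.mem_product, Finset.mem_product]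
    rw [q3, q6, q9]
    exact ⟨⟨q1, q4, q7⟩, q2, q5, q8, hc.2⟩
  have hdis : Set.PairwiseDisjoint (C3 : Set (ℤ × ℤ × ℤ)) F := by
    intro c _ c' _ hcc
    rw [Function.onFun, Finset.disjoint_left]
    intro q hq hq'
    apply hcc
    rw [hF, Finset.mem_product, Finset.mem_product, Finset.mem_filter, Finset.mem_filter, Finset.mem_filter] at hq hq'
    refine Prod.ext (hq.1.2.2.symm.trans hq'.1.2.2) (Prod.ext (hq.2.1.2.2.symm.trans hq'.2.1.2.2)
      (hq.2.2.2.2.symm.trans hq'.2.2.2.2))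
  have h2 := Finset.card_le_card hsub
  rw [Finset.card_biUnion fun c hc c' hc' h => hdis hc hc' h] at h2
  have h3 : D ^ 3 * (C3.card : ℝ) ≤ ∑ c ∈ C3, ((F c).card : ℝ) := by
    rw [mul_comm, ← nsmul_eq_mul, ← Finset.sum_const]
    refine Finset.sum_le_sum fun c hc => ?_
    rw [hC3, Finset.mem_filter, Finset.mem_product, Finset.mem_product, K1_mem_C B E k D hD, K1_mem_C B E k D hD,
      K1_mem_C B E k D hD] at hc
    obtain ⟨⟨c1, c2, c3⟩, -⟩ := hc
    rw [hF, Finset.card_product, Finset.card_product]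
    push_cast
    have e : D ^ 3 = D * (D * D) := by ring
    rw [e]
    have hD0 : 0 ≤ D := by linarith
    exact mul_le_mul c1 (mul_le_mul c2 c3 hD0 (hD0.trans c2)) (by positivity) (hD0.trans c1)
  have h4 : (∑ c ∈ C3, ((F c).card : ℝ)) ≤ ((K1_T B E k s).card : ℝ) := by exact_mod_cast h2
  exact h3.trans h4

/-- the neighbours of `s` in poor cells -/
private noncomputable def K1_P (B : Finset ℕ) (E : ℕ → ℕ → Prop) (k : ℕ → ℕ → ℤ) (D : ℝ) (s : ℕ) : Finset ℕ :=
  B.filter fun a => E s a ∧ K1_d B E k (k s a) s < D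

private theorem K1_poor (B : Finset ℕ) (E : ℕ → ℕ → Prop) (k : ℕ → ℕ → ℤ) (D : ℝ) (hD : 1 ≤ D) (s : ℕ) :
    ((K1_P B E k D s).card : ℝ) * (max (((K1_P B E k D s).card : ℝ) - 3 * D) 0 * max (((K1_P B E k D s).card : ℝ) - 6 * D) 0) ≤
      ((K1_T B E k s).card : ℝ) := by
  have hcell : ∀ c : ℤ, (((K1_P B E k D s).filter fun y => k s y = c).card : ℝ) ≤ D := by
    intro c
    by_cases hne : ((K1_P B E k D s).filter fun y => k s y = c) = ∅
    · rw [hne, Finset.card_empty]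
      push_cast
      linarith
    · obtain ⟨a, ha⟩ := Finset.nonempty_iff_ne_empty.2 hne
      rw [Finset.mem_filter, K1_P, Finset.mem_filter] at ha
      obtain ⟨⟨-, -, h1⟩, h2⟩ := ha
      rw [h2] at h1
      refine le_trans ?_ h1.le
      rw [K1_d, Nat.cast_le]
      refine Finset.card_le_card fun y hy => ?_
      rw [Finset.mem_filter, K1_P, Finset.mem_filter] at hy
      exact Finset.mem_filter.2 ⟨hy.1.1, hy.1.2.1, hy.2⟩
  have h1 := K1_tr (K1_P B E k D s) (k s) (3 * D) fun x _ => by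
    have h2 : ((K1_P B E k D s).filter fun y => |k s x - k s y| < 2) ⊆
        (((K1_P B E k D s).filter fun y => k s y = k s x - 1) ∪ ((K1_P B E k D s).filter fun y => k s y = k s x)) ∪
          ((K1_P B E k D s).filter fun y => k s y = k s x + 1) := by
      intro y hy
      rw [Finset.mem_filter, abs_lt] at hy
      simp only [Finset.mem_union, Finset.mem_filter, hy.1, true_and]
      omega
    have h3 := ((Finset.card_le_card h2).trans (Finset.card_union_le _ _)).trans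
      (Nat.add_le_add_right (Finset.card_union_le _ _) _)
    have h4 : (((K1_P B E k D s).filter fun y => |k s x - k s y| < 2).card : ℝ) ≤
        (((K1_P B E k D s).filter fun y => k s y = k s x - 1).card : ℝ) +
        (((K1_P B E k D s).filter fun y => k s y = k s x).card : ℝ) +
        (((K1_P B E k D s).filter fun y => k s y = k s x + 1).card : ℝ) := by exact_mod_cast h3
    linarith [hcell (k s x - 1), hcell (k s x), hcell (k s x + 1)]
  have h6 : 2 * (3 * D) = 6 * D := by ring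
  rw [h6] at h1
  refine h1.trans ?_
  rw [Nat.cast_le]
  refine Finset.card_le_card fun q hq => ?_
  rw [Finset.mem_filter, Finset.mem_product, Finset.mem_product, K1_P, Finset.mem_filter, Finset.mem_filter,
    Finset.mem_filter] at hq
  rw [K1_T, Finset.mem_filter, Finset.mem_product, Finset.mem_product]
  obtain ⟨⟨q1, q2, q3⟩, q4⟩ := hq
  exact ⟨⟨q1.1, q2.1, q3.1⟩, q1.2.1, q2.2.1, q3.2.1, q4⟩

theorem rich_poor (B : Finset ℕ) (E : ℕ → ℕ → Prop) (k : ℕ → ℕ → ℤ) (D : ℝ) (hE : ∀ s a, E s a → E a s) (hk : ∀ s a, k s a = k a s)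
    (hD : 1 ≤ D)
    (hQ : (((B ×ˢ B ×ˢ B ×ˢ B).filter fun q => E q.1 q.2.1 ∧ E q.1 q.2.2.1 ∧ E q.1 q.2.2.2 ∧ 2 ≤ |k q.1 q.2.1 - k q.1 q.2.2.1| ∧
      2 ≤ |k q.1 q.2.1 - k q.1 q.2.2.2| ∧ 2 ≤ |k q.1 q.2.2.1 - k q.1 q.2.2.2|).card : ℝ) ≤ B.card * D ^ 3) :
    ∃ R : ℤ → Finset ℕ, (∀ c, R c ⊆ B) ∧ (∀ K : Finset ℤ, (∑ c ∈ K, ((R c).card : ℝ)) ≤ 13 * B.card) ∧
      (((B ×ˢ B).filter fun q => E q.1 q.2 ∧ ¬(q.1 ∈ R (k q.1 q.2) ∧ q.2 ∈ R (k q.1 q.2))).card : ℝ) ≤ 26 * B.card * D := by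
  have hD0 : 0 < D := by linarith
  rw [K1_sum] at hQ
  have hB0 : (0 : ℝ) ≤ B.card := Nat.cast_nonneg _
  -- rich cells
  have hrich : ∑ s ∈ B, ((K1_C B E k D s).card : ℝ) ≤ 13 * B.card := by
    have h1 : ∑ s ∈ B, ((K1_C B E k D s).card : ℝ) ≤ ∑ s ∈ B, (12 + ((K1_T B E k s).card : ℝ) / (54 * D ^ 3)) := by
      refine Finset.sum_le_sum fun s _ => ?_
      rcases K1_real ((K1_C B E k D s).card : ℝ) 1 one_pos with h | h
      · have h2 := K1_rich B E k D hD s
        rw [mul_one, mul_one, mul_one, one_pow, mul_one] at h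
        refine h.trans (add_le_add_right ?_ _)
        rw [div_le_div_iff₀ (by norm_num) (by positivity)]
        linarith
      · exact absurd h (not_lt.2 (Nat.cast_nonneg _))
    rw [Finset.sum_add_distrib, Finset.sum_const, nsmul_eq_mul, ← Finset.sum_div] at h1
    have h2 : (∑ s ∈ B, ((K1_T B E k s).card : ℝ)) / (54 * D ^ 3) ≤ B.card / 54 := by
      rw [div_le_div_iff₀ (by positivity) (by norm_num)]
      nlinarith
    linarith
  have hpoor : ∑ s ∈ B, ((K1_P B E k D s).card : ℝ) ≤ 13 * B.card * D := by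
    have h1 : ∑ s ∈ B, ((K1_P B E k D s).card : ℝ) ≤ ∑ s ∈ B, (12 * D + ((K1_T B E k s).card : ℝ) / (54 * D ^ 2)) := by
      refine Finset.sum_le_sum fun s _ => ?_
      rcases K1_real ((K1_P B E k D s).card : ℝ) D hD0 with h | h
      · have h2 := K1_poor B E k D hD s
        refine h.trans (add_le_add_right ?_ _)
        exact div_le_div_of_nonneg_right h2 (by positivity)
      · exact absurd h (not_lt.2 (Nat.cast_nonneg _))
    rw [Finset.sum_add_distrib, Finset.sum_const, nsmul_eq_mul, ← Finset.sum_div] at h1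
    have h2 : (∑ s ∈ B, ((K1_T B E k s).card : ℝ)) / (54 * D ^ 2) ≤ B.card * D / 54 := by
      rw [div_le_div_iff₀ (by positivity) (by norm_num)]
      nlinarith
    nlinarith
  refine ⟨fun c => B.filter fun s => D ≤ K1_d B E k c s, fun c => Finset.filter_subset _ _, fun K => ?_, ?_⟩
  · refine le_trans ?_ hrich
    have h1 : ∀ c, ((B.filter fun s => D ≤ K1_d B E k c s).card : ℝ) = ∑ s ∈ B, if D ≤ K1_d B E k c s then (1 : ℝ) else 0 := by
      intro c
      rw [Finset.card_filter]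
      push_cast
      rfl
    rw [Finset.sum_congr rfl fun c _ => h1 c, Finset.sum_comm]
    refine Finset.sum_le_sum fun s _ => ?_
    rw [← Finset.sum_filter, Finset.sum_const, nsmul_eq_mul, mul_one, Nat.cast_le]
    refine Finset.card_le_card fun c hc => ?_
    exact (K1_mem_C B E k D hD s c).2 (Finset.mem_filter.1 hc).2
  · have h1 : ((B ×ˢ B).filter fun q => E q.1 q.2 ∧ ¬(q.1 ∈ (B.filter fun s => D ≤ K1_d B E k (k q.1 q.2) s) ∧
        q.2 ∈ (B.filter fun s => D ≤ K1_d B E k (k q.1 q.2) s))) ⊆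
        ((B ×ˢ B).filter fun q => q.2 ∈ K1_P B E k D q.1) ∪ ((B ×ˢ B).filter fun q => q.1 ∈ K1_P B E k D q.2) := by
      intro q hq
      rw [Finset.mem_filter, Finset.mem_product] at hq
      obtain ⟨⟨hq1, hq2⟩, hqE, hq3⟩ := hq
      rw [Finset.mem_union, Finset.mem_filter, Finset.mem_filter, Finset.mem_product]
      rw [Finset.mem_filter, Finset.mem_filter, not_and_or, not_and_or, not_and_or] at hq3
      rw [K1_P, K1_P, Finset.mem_filter, Finset.mem_filter]
      rcases hq3 with (h | h) | (h | h)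
      · exact absurd hq1 h
      · exact Or.inl ⟨⟨hq1, hq2⟩, hq2, hqE, not_le.1 h⟩
      · exact absurd hq2 h
      · refine Or.inr ⟨⟨hq1, hq2⟩, hq1, hE _ _ hqE, ?_⟩
        rw [hk q.2 q.1]
        exact not_le.1 h
    have h2 := (Finset.card_le_card h1).trans (Finset.card_union_le _ _)
    have h3 : (((B ×ˢ B).filter fun q => q.2 ∈ K1_P B E k D q.1).card : ℝ) = ∑ s ∈ B, ((K1_P B E k D s).card : ℝ) := by
      rw [Finset.card_filter, Finset.sum_product]
      push_cast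
      refine Finset.sum_congr rfl fun s _ => ?_
      rw [← Finset.sum_filter, Finset.sum_const, nsmul_eq_mul, mul_one]
      congr 2
      ext a
      rw [Finset.mem_filter, and_iff_right_iff_imp]
      exact fun h => (Finset.mem_filter.1 h).1
    have h4 : (((B ×ˢ B).filter fun q => q.1 ∈ K1_P B E k D q.2).card : ℝ) = ∑ s ∈ B, ((K1_P B E k D s).card : ℝ) := by
      rw [Finset.card_filter, Finset.sum_product_right]
      push_cast
      refine Finset.sum_congr rfl fun s _ => ?_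
      rw [← Finset.sum_filter, Finset.sum_const, nsmul_eq_mul, mul_one]
      congr 2
      ext a
      rw [Finset.mem_filter, and_iff_right_iff_imp]
      exact fun h => (Finset.mem_filter.1 h).1
    have h5 : (((B ×ˢ B).filter fun q => E q.1 q.2 ∧ ¬(q.1 ∈ (B.filter fun s => D ≤ K1_d B E k (k q.1 q.2) s) ∧
        q.2 ∈ (B.filter fun s => D ≤ K1_d B E k (k q.1 q.2) s))).card : ℝ) ≤
        (((B ×ˢ B).filter fun q => q.2 ∈ K1_P B E k D q.1).card : ℝ) +
        (((B ×ˢ B).filter fun q => q.1 ∈ K1_P B E k D q.2).card : ℝ) := by exact_mod_cast h2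
    rw [h3, h4] at h5
    linarith

end MPku
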