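import Pool.Agent.Lib.MP_7b255b_ntU.Q2

/-!
# K2q: the number of the quadruples with three tangencies in different cells

`B` a finite set of integers, `y n` points with `|n - m| ≤ C1 N ‖y n - y m‖`. Let `C2` be the constant of `two_balls`.
* balls: a set of `n ∈ B` whose points `y n` have pairwise distances `≤ r` has at most `C1 N r + 1` elements (integers with differences `≤ C1 N r`; `B ⊂ ℕ`).
* for a fixed triple let `S` be the set of the `s` with `Rel t ε (y s - y a_i)` and pairwise far cells; cells with `2 ≤ |cell - cell'|` have `|qc - qc'| ≥ ρ` (`cell ρ z = ⌊qc z / ρ⌋`). If `S` is not empty take `s0 ∈ S` and apply `two_balls`: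
  `S` is contained in the union of two balls of radius `r = C2 ε t / ρ^2`, so `|S| ≤ 2 (2 C1 N r + 1)`.
-/

set_option autoImplicit false

namespace MPku

open Finset
open scoped Classical

/-- Natural numbers with differences at most `R`. -/
private theorem K2q_int (A : Finset ℕ) (R : ℝ) (hR : 0 ≤ R) (h : ∀ n ∈ A, ∀ m ∈ A, |(n : ℝ) - m| ≤ R) : (A.card : ℝ) ≤ R + 1 := by
  rcases A.eq_empty_or_nonempty with rfl | hA
  · simp only [Finset.card_empty, Nat.cast_zero]
    linarith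
  · have hm := Finset.min'_mem A hA
    have hsub : A ⊆ Finset.Icc (A.min' hA) (A.min' hA + ⌊R⌋₊) := by
      intro n hn
      rw [Finset.mem_Icc]
      refine ⟨Finset.min'_le A n hn, ?_⟩
      have h1 := (abs_le.1 (h n hn _ hm)).2
      have h2 : ((n - A.min' hA : ℕ) : ℝ) ≤ R := by
        rw [Nat.cast_sub (Finset.min'_le A n hn)]
        exact h1
      have h3 : n - A.min' hA ≤ ⌊R⌋₊ := Nat.le_floor h2
      omega
    have h1 := Finset.card_le_card hsub
    rw [Nat.card_Icc] at h1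
    have h2 : A.card ≤ ⌊R⌋₊ + 1 := by omega
    have h3 : (A.card : ℝ) ≤ (⌊R⌋₊ : ℝ) + 1 := by exact_mod_cast h2
    have h4 := Nat.floor_le hR
    linarith

/-- The points in a ball. -/
private theorem K2q_ball {K N : ℝ} (hK : 0 ≤ K) (hN : 0 ≤ N) (B : Finset ℕ) (y : ℕ → T3)
    (hy : ∀ n ∈ B, ∀ m ∈ B, |(n : ℝ) - m| ≤ K * (N * ‖y n - y m‖)) (p : T3) (r : ℝ) (hr : 0 ≤ r) :
    ((B.filter fun n => ‖y n - p‖ ≤ r).card : ℝ) ≤ 2 * K * (N * r) + 1 := by
  apply K2q_int _ _ (by positivity)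
  intro n hn m hm
  rw [Finset.mem_filter] at hn hm
  have h1 : ‖y n - y m‖ ≤ 2 * r := by
    calc ‖y n - y m‖ = ‖(y n - p) - (y m - p)‖ := by rw [sub_sub_sub_cancel_right]
      _ ≤ ‖y n - p‖ + ‖y m - p‖ := norm_sub_le _ _
      _ ≤ 2 * r := by linarith [hn.2, hm.2]
  calc |(n : ℝ) - m| ≤ K * (N * ‖y n - y m‖) := hy n hn.1 m hm.1
    _ ≤ K * (N * (2 * r)) := by gcongr
    _ = 2 * K * (N * r) := by ring

private theorem K2q_cell {ρ : ℝ} (hρ : 0 < ρ) {z w : T3} (h : 2 ≤ |cell ρ z - cell ρ w|) : ρ ≤ |qc z - qc w| := by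
  unfold cell at h
  have h1 := Int.floor_le (qc z / ρ)
  have h2 := Int.lt_floor_add_one (qc z / ρ)
  have h3 := Int.floor_le (qc w / ρ)
  have h4 := Int.lt_floor_add_one (qc w / ρ)
  have h5 : 1 ≤ |qc z / ρ - qc w / ρ| := by
    rcases le_abs.1 h with h6 | h6
    · have h7 : (2 : ℝ) ≤ (⌊qc z / ρ⌋ : ℝ) - ⌊qc w / ρ⌋ := by exact_mod_cast h6
      exact le_abs.2 (Or.inl (by linarith))
    · have h7 : (2 : ℝ) ≤ -((⌊qc z / ρ⌋ : ℝ) - ⌊qc w / ρ⌋) := by exact_mod_cast h6
      exact le_abs.2 (Or.inr (by linarith))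
  rw [← sub_div, abs_div, abs_of_pos hρ, one_le_div hρ] at h5
  exact h5

theorem quad_count3 (C1 : ℝ) : ∃ C : ℝ, 1 ≤ C ∧ ∀ (N : ℝ) (B : Finset ℕ) (y : ℕ → T3), 1 ≤ N →
    (∀ n ∈ B, ∀ m ∈ B, |(n : ℝ) - m| ≤ C1 * (N * ‖y n - y m‖)) → ∀ (t ε ρ : ℝ), 0 < t → 0 ≤ ε → 0 < ρ → C * ε ≤ ρ ^ 2 →
    (((B ×ˢ B ×ˢ B ×ˢ B).filter fun q => Rel t ε (y q.1 - y q.2.1) ∧ Rel t ε (y q.1 - y q.2.2.1) ∧ Rel t ε (y q.1 - y q.2.2.2) ∧
      2 ≤ |cell ρ (y q.1 - y q.2.1) - cell ρ (y q.1 - y q.2.2.1)| ∧ 2 ≤ |cell ρ (y q.1 - y q.2.1) - cell ρ (y q.1 - y q.2.2.2)| ∧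
      2 ≤ |cell ρ (y q.1 - y q.2.2.1) - cell ρ (y q.1 - y q.2.2.2)|).card : ℝ) ≤
      C * (B.card : ℝ) ^ 3 * (N * (ε * t / ρ ^ 2) + 1) := by
  obtain ⟨C2, hC2, hball⟩ := two_balls
  set K : ℝ := max C1 1 with hKdef
  have hK1 : 1 ≤ K := le_max_right _ _
  have hK0 : 0 ≤ K := zero_le_one.trans hK1
  have hKC : 1 ≤ K * C2 := one_le_mul_of_one_le_of_one_le hK1 hC2
  refine ⟨4 * K * C2, ?_, ?_⟩
  · nlinarith
  intro N B y hN hy t ε ρ ht hε hρ hCε
  have hN0 : 0 ≤ N := zero_le_one.trans hN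
  have hy' : ∀ n ∈ B, ∀ m ∈ B, |(n : ℝ) - m| ≤ K * (N * ‖y n - y m‖) := fun n hn m hm =>
    (hy n hn m hm).trans (mul_le_mul_of_nonneg_right (le_max_left _ _) (by positivity))
  have hC2ε : C2 * ε ≤ ρ ^ 2 := by
    refine le_trans ?_ hCε
    have h2 : 0 ≤ C2 * ε := mul_nonneg (by linarith) hε
    have h3 : 4 * K * C2 * ε = (4 * K) * (C2 * ε) := by ring
    rw [h3]
    exact le_mul_of_one_le_left h2 (by linarith)
  set κ : ℝ := ε * t / ρ ^ 2 with hκdef
  have hκ : 0 ≤ κ := by positivity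
  -- the relation
  set P : T3 → T3 → T3 → T3 → Prop := fun s a b c => Rel t ε (s - a) ∧ Rel t ε (s - b) ∧ Rel t ε (s - c) ∧
      2 ≤ |cell ρ (s - a) - cell ρ (s - b)| ∧ 2 ≤ |cell ρ (s - a) - cell ρ (s - c)| ∧
      2 ≤ |cell ρ (s - b) - cell ρ (s - c)| with hP
  -- one triple
  have hone : ∀ a b c : T3, ((B.filter fun s => P (y s) a b c).card : ℝ) ≤ 2 * (2 * K * (N * (C2 * κ)) + 1) := by
    intro a b c
    rcases (B.filter fun s => P (y s) a b c).eq_empty_or_nonempty with h0 | ⟨s0, hs0⟩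
    · rw [h0, Finset.card_empty, Nat.cast_zero]
      have : 0 ≤ 2 * K * (N * (C2 * κ)) := by
        have : 0 ≤ C2 := by linarith
        positivity
      linarith
    · rw [Finset.mem_filter] at hs0
      obtain ⟨hs0B, r1, r2, r3, c1, c2, c3⟩ := hs0
      have d1 := K2q_cell hρ c1
      have d2 := K2q_cell hρ c2
      have d3 := K2q_cell hρ c3
      obtain ⟨p, hp⟩ := hball t ε ρ ht hε hρ hC2ε ![a, b, c] (y s0) (by
        intro i
        fin_cases i
        · exact r1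
        · exact r2
        · exact r3) (by
        intro i j hij
        fin_cases i <;> fin_cases j
        · exact absurd rfl hij
        · exact d1
        · exact d2
        · rw [abs_sub_comm]
          exact d1
        · exact absurd rfl hij
        · exact d3
        · rw [abs_sub_comm]
          exact d2
        · rw [abs_sub_comm]
          exact d3
        · exact absurd rfl hij)
      have hsub : (B.filter fun s => P (y s) a b c) ⊆
          (B.filter fun n => ‖y n - y s0‖ ≤ C2 * κ) ∪ (B.filter fun n => ‖y n - p‖ ≤ C2 * κ) := by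
        intro s hs
        rw [Finset.mem_filter] at hs
        obtain ⟨hsB, q1, q2, q3, -⟩ := hs
        rw [Finset.mem_union, Finset.mem_filter, Finset.mem_filter]
        rcases hp (y s) (by
          intro i
          fin_cases i
          · exact q1
          · exact q2
          · exact q3) with h | h
        · exact Or.inl ⟨hsB, h⟩
        · exact Or.inr ⟨hsB, h⟩
      have hr : 0 ≤ C2 * κ := mul_nonneg (by linarith) hκ
      have h1 := K2q_ball hK0 hN0 B y hy' (y s0) (C2 * κ) hr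
      have h2 := K2q_ball hK0 hN0 B y hy' p (C2 * κ) hr
      have h3 : ((B.filter fun s => P (y s) a b c).card : ℝ) ≤
          (((B.filter fun n => ‖y n - y s0‖ ≤ C2 * κ).card + (B.filter fun n => ‖y n - p‖ ≤ C2 * κ).card : ℕ) : ℝ) := by
        exact_mod_cast (Finset.card_le_card hsub).trans (Finset.card_union_le _ _)
      rw [Nat.cast_add] at h3
      linarith
  -- the triples
  set T : Finset (ℕ × ℕ × ℕ) := B ×ˢ B ×ˢ B with hT
  have hTcard : (T.card : ℝ) = (B.card : ℝ) ^ 3 := by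
    rw [hT, Finset.card_product, Finset.card_product]
    push_cast
    ring
  -- all quadruples
  set F : Finset (ℕ × ℕ × ℕ × ℕ) := (B ×ˢ B ×ˢ B ×ˢ B).filter fun q =>
    Rel t ε (y q.1 - y q.2.1) ∧ Rel t ε (y q.1 - y q.2.2.1) ∧ Rel t ε (y q.1 - y q.2.2.2) ∧
      2 ≤ |cell ρ (y q.1 - y q.2.1) - cell ρ (y q.1 - y q.2.2.1)| ∧ 2 ≤ |cell ρ (y q.1 - y q.2.1) - cell ρ (y q.1 - y q.2.2.2)| ∧
      2 ≤ |cell ρ (y q.1 - y q.2.2.1) - cell ρ (y q.1 - y q.2.2.2)| with hF
  have hFcard : (F.card : ℝ) ≤ T.card * (2 * (2 * K * (N * (C2 * κ)) + 1)) := by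
    have h1 : F.card = ∑ a ∈ T, (F.filter fun q => q.2 = a).card := by
      apply Finset.card_eq_sum_card_fiberwise
      intro q hq
      have hq' : q ∈ F := hq
      rw [hF, Finset.mem_filter, Finset.mem_product] at hq'
      exact hq'.1.2
    rw [h1, Nat.cast_sum, ← nsmul_eq_mul, ← Finset.sum_const]
    apply Finset.sum_le_sum
    intro a _
    refine le_trans ?_ (hone (y a.1) (y a.2.1) (y a.2.2))
    rw [Nat.cast_le]
    apply Finset.card_le_card_of_injOn (fun q : ℕ × ℕ × ℕ × ℕ => q.1)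
    · intro q hq
      have hq' : q ∈ F.filter fun q => q.2 = a := hq
      rw [Finset.mem_filter, hF, Finset.mem_filter, Finset.mem_product] at hq'
      obtain ⟨⟨⟨hqB, _⟩, h3⟩, rfl⟩ := hq'
      rw [Finset.mem_coe, Finset.mem_filter]
      exact ⟨hqB, h3⟩
    · intro q hq q' hq' h
      have h3 : q ∈ F.filter fun q => q.2 = a := hq
      have h4 : q' ∈ F.filter fun q => q.2 = a := hq'
      rw [Finset.mem_filter] at h3 h4
      exact Prod.ext h (h3.2.trans h4.2.symm)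
  -- the final estimate
  have e2 : 2 * (2 * K * (N * (C2 * κ)) + 1) ≤ 4 * K * C2 * (N * κ + 1) := by
    have h5 : 2 * (2 * K * (N * (C2 * κ)) + 1) = 4 * K * C2 * (N * κ) + 2 := by ring
    have h6 : 4 * K * C2 * (N * κ + 1) = 4 * K * C2 * (N * κ) + 4 * (K * C2) := by ring
    rw [h5, h6]
    linarith
  calc (F.card : ℝ) ≤ T.card * (2 * (2 * K * (N * (C2 * κ)) + 1)) := hFcard
    _ ≤ (B.card : ℝ) ^ 3 * (4 * K * C2 * (N * κ + 1)) := by
      rw [hTcard]
      exact mul_le_mul_of_nonneg_left e2 (by positivity)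
    _ = 4 * K * C2 * (B.card : ℝ) ^ 3 * (N * κ + 1) := by ring

end MPku
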