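import Pool.Agent.Lib.MP_7b255b_ntU.D

/-!
# L1a: dyadic levels

JOB L1a.
* `i = Int.log 2 ‖z‖` (`Int.zpow_log_le_self`, `Int.lt_zpow_succ_log_self`). From `1 / (Cy N) ≤ ‖z‖ ≤ Cy`: `2^i ≤ Cy` and `2^(i+1) > 1 / (Cy N)`, so `|i| ≤ (|log Cy| + log N) / log 2 + 1`.
* `Lev N z w` is monotone in `w > 0`. It holds for `w = 2^j` as soon as `2^(3 j) N ‖z‖ ≥ 1`, for example if `2^j ≥ Cy` and `Cy ≥ 1`. It fails if `w^3 N Cy < 1` and `w^4 N^2 2 Cy^2 < 1` (`|qD z| ≤ 2 ‖z‖^2`), for example for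
  `w < 1 / (2 Cy N)`. The least `j` with `Lev N z (2^j)` (`Int.exists_least_of_bdd`) has `|j| ≤ (log (2 Cy N)) / log 2 + 2`. (`Cy ≥ 1` follows from the hypotheses up to replacing `Cy`: `1 / (Cy N) ≤ Cy` and `0 < Cy`
  give `Cy^2 N ≥ 1` only; use `max Cy 1` in the estimates.)
* `rec_sum`: `∑_{m ∈ B, m ≠ n} 1 / |n - m| ≤ 2 (1 + log N)` for `B ⊆ [N, 2 N)`: on each side the sum is at most the harmonic number `H_{N-1} ≤ 1 + log N`.
-/

set_option autoImplicit false

namespace MPku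

open Finset

private theorem L1a_log_le {i : ℤ} {x : ℝ} (h : (2 : ℝ) ^ i ≤ x) : (i : ℝ) ≤ Real.log x / Real.log 2 := by
  have h2 : 0 < Real.log 2 := Real.log_pos (by norm_num)
  have h3 : (0 : ℝ) < (2 : ℝ) ^ i := zpow_pos (by norm_num) i
  rw [le_div_iff₀ h2, ← Real.log_zpow]
  exact Real.log_le_log h3 h

private theorem L1a_le_log {i : ℤ} {x : ℝ} (hx : 0 < x) (h : x ≤ (2 : ℝ) ^ i) : Real.log x / Real.log 2 ≤ (i : ℝ) := by
  have h2 : 0 < Real.log 2 := Real.log_pos (by norm_num)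
  rw [div_le_iff₀ h2, ← Real.log_zpow]
  exact Real.log_le_log hx h

private theorem L1a_qD (z : T3) : |qD z| ≤ 2 * ‖z‖ ^ 2 := by
  have h0 : |z 0| ≤ ‖z‖ := norm_le_pi_norm z 0
  have h1 : |z 1| ≤ ‖z‖ := norm_le_pi_norm z 1
  have h2 : |z 2| ≤ ‖z‖ := norm_le_pi_norm z 2
  have h3 : |z 1 ^ 2| ≤ ‖z‖ ^ 2 := by
    rw [abs_pow]
    exact pow_le_pow_left₀ (abs_nonneg _) h1 2
  have h4 : |z 0 * z 2| ≤ ‖z‖ ^ 2 := by
    rw [abs_mul, sq]
    exact mul_le_mul h0 h2 (abs_nonneg _) (norm_nonneg _)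
  unfold qD
  calc |z 1 ^ 2 - z 0 * z 2| ≤ |z 1 ^ 2| + |z 0 * z 2| := abs_sub _ _
    _ ≤ 2 * ‖z‖ ^ 2 := by linarith

theorem Lev.mono {N : ℝ} {z : T3} {w w' : ℝ} (hN : 0 ≤ N) (hw : 0 ≤ w) (h : Lev N z w) (hww : w ≤ w') : Lev N z w' := by
  rcases h with h | h
  · left
    refine h.trans (mul_le_mul_of_nonneg_right (pow_le_pow_left₀ hw hww 3) ?_)
    positivity
  · right
    refine h.trans (mul_le_mul_of_nonneg_right (pow_le_pow_left₀ hw hww 4) ?_)
    positivity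

theorem level (Cy : ℝ) (hCy : 0 < Cy) : ∃ K0 : ℝ, 1 ≤ K0 ∧ ∀ (N : ℝ) (z : T3), 1 ≤ N → z ≠ 0 → 1 / (Cy * N) ≤ ‖z‖ → ‖z‖ ≤ Cy →
    ∃ i j : ℤ, |(i : ℝ)| ≤ K0 * (1 + Real.log N) ∧ |(j : ℝ)| ≤ K0 * (1 + Real.log N) ∧ (2 : ℝ) ^ i ≤ ‖z‖ ∧ ‖z‖ < 2 ^ (i + 1) ∧
      Lev N z (2 ^ j) ∧ ¬Lev N z (2 ^ (j - 1)) := by
  obtain ⟨C, hC⟩ : ∃ C : ℝ, C = max Cy 1 := ⟨_, rfl⟩
  have hC1 : 1 ≤ C := by rw [hC]; exact le_max_right _ _
  have hCC : Cy ≤ C := by rw [hC]; exact le_max_left _ _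
  have hC0 : 0 < C := by linarith
  have hl2 : 0 < Real.log 2 := Real.log_pos (by norm_num)
  have hlC : 0 ≤ Real.log C := Real.log_nonneg hC1
  have hd1 : 0 ≤ Real.log C / Real.log 2 := by positivity
  have hd2 : 0 ≤ 1 / Real.log 2 := by positivity
  refine ⟨Real.log C / Real.log 2 + 1 / Real.log 2 + 2, by linarith, ?_⟩
  intro N z hN hz hzl hzu
  have hN0 : 0 < N := by linarith
  have hlN : 0 ≤ Real.log N := Real.log_nonneg hN
  have hzp : 0 < ‖z‖ := norm_pos_iff.2 hz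
  have hzu' : ‖z‖ ≤ C := hzu.trans hCC
  have hzl' : 1 / (C * N) ≤ ‖z‖ := by
    refine le_trans ?_ hzl
    apply one_div_le_one_div_of_le (by positivity)
    exact mul_le_mul_of_nonneg_right hCC hN0.le
  obtain ⟨K, hK⟩ : ∃ K : ℝ, K = Real.log C / Real.log 2 + 1 / Real.log 2 + 2 := ⟨_, rfl⟩
  have hbnd : Real.log C / Real.log 2 + 1 + Real.log N / Real.log 2 ≤ K * (1 + Real.log N) := by
    have h1 : 0 ≤ (Real.log C / Real.log 2 + 2) * Real.log N := by positivity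
    have h2 : Real.log N / Real.log 2 = 1 / Real.log 2 * Real.log N := by ring
    rw [hK, h2]
    linarith
  have hbnd2 : Real.log C / Real.log 2 + 1 ≤ K * (1 + Real.log N) := by
    have h1 : 0 ≤ Real.log N / Real.log 2 := by positivity
    linarith
  rw [← hK]
  -- the integer `i`
  have hi1 : (2 : ℝ) ^ (Int.log 2 ‖z‖) ≤ ‖z‖ := by
    have := Int.zpow_log_le_self (b := 2) (by norm_num) hzp
    exact_mod_cast this
  have hi2 : ‖z‖ < (2 : ℝ) ^ (Int.log 2 ‖z‖ + 1) := by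
    have := Int.lt_zpow_succ_log_self (b := 2) (by norm_num) ‖z‖
    exact_mod_cast this
  have hiu : ((Int.log 2 ‖z‖ : ℤ) : ℝ) ≤ Real.log C / Real.log 2 := L1a_log_le (hi1.trans hzu')
  have hil : -(Real.log C / Real.log 2 + Real.log N / Real.log 2) ≤ ((Int.log 2 ‖z‖ + 1 : ℤ) : ℝ) := by
    have h1 := L1a_le_log (x := 1 / (C * N)) (by positivity) (hzl'.trans hi2.le)
    rw [Real.log_div one_ne_zero (by positivity), Real.log_one, Real.log_mul hC0.ne' hN0.ne'] at h1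
    refine le_trans (le_of_eq ?_) h1
    ring
  rw [Int.cast_add, Int.cast_one] at hil
  -- the integer `j`
  have hex : Lev N z (2 ^ (Int.log 2 C + 1)) := by
    left
    have h1 : C < (2 : ℝ) ^ (Int.log 2 C + 1) := by
      have := Int.lt_zpow_succ_log_self (b := 2) (by norm_num) C
      exact_mod_cast this
    have h2 : C ^ 3 ≤ ((2 : ℝ) ^ (Int.log 2 C + 1)) ^ 3 := pow_le_pow_left₀ hC0.le h1.le 3
    have h3 : 1 / C ≤ N * ‖z‖ := by
      have h4 := mul_le_mul_of_nonneg_left hzl' hN0.le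
      refine le_trans (le_of_eq ?_) h4
      field_simp
    have h5 : (1 : ℝ) ≤ C ^ 3 * (1 / C) := by
      have h6 : C ^ 3 * (1 / C) = C ^ 2 := by
        field_simp
      rw [h6]
      exact one_le_pow₀ hC1
    calc (1 : ℝ) ≤ C ^ 3 * (1 / C) := h5
      _ ≤ ((2 : ℝ) ^ (Int.log 2 C + 1)) ^ 3 * (N * ‖z‖) := mul_le_mul h2 h3 (by positivity) (by positivity)
  have hlow : ∀ j : ℤ, Lev N z (2 ^ j) → 1 / (2 * C * N) ≤ (2 : ℝ) ^ j := by
    intro j hj
    by_contra hcon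
    rw [not_le] at hcon
    obtain ⟨w, hw⟩ : ∃ w : ℝ, w = (2 : ℝ) ^ j := ⟨_, rfl⟩
    have hw0 : 0 < w := by rw [hw]; positivity
    rw [← hw] at hj hcon
    have hu : w * (2 * C * N) < 1 := by
      rwa [lt_div_iff₀ (by positivity)] at hcon
    have hu0 : 0 < w * (2 * C * N) := by positivity
    have hw1 : w < 1 := by
      have h1 : (1 : ℝ) ≤ 2 * C * N := by
        have := mul_le_mul hC1 hN zero_le_one hC0.le
        linarith
      calc w = w * 1 := by ring
        _ ≤ w * (2 * C * N) := mul_le_mul_of_nonneg_left h1 hw0.le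
        _ < 1 := hu
    rcases hj with hj | hj
    · have h1 : w ^ 3 * (N * ‖z‖) ≤ w ^ 3 * (N * C) := by
        refine mul_le_mul_of_nonneg_left (mul_le_mul_of_nonneg_left hzu' hN0.le) (by positivity)
      have h2 : w ^ 3 * (N * C) ≤ w * (N * C) := by
        refine mul_le_mul_of_nonneg_right ?_ (by positivity)
        calc w ^ 3 ≤ w ^ 1 := pow_le_pow_of_le_one hw0.le hw1.le (by norm_num)
          _ = w := pow_one w
      have h3 : w * (N * C) = (w * (2 * C * N)) / 2 := by ring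
      linarith
    · have h0 := L1a_qD z
      have h00 : ‖z‖ ^ 2 ≤ C ^ 2 := pow_le_pow_left₀ (norm_nonneg _) hzu' 2
      have h1 : w ^ 4 * (N ^ 2 * |qD z|) ≤ w ^ 4 * (N ^ 2 * (2 * C ^ 2)) := by
        refine mul_le_mul_of_nonneg_left (mul_le_mul_of_nonneg_left ?_ (by positivity)) (by positivity)
        linarith
      have h2 : w ^ 4 * (N ^ 2 * (2 * C ^ 2)) ≤ w ^ 2 * (N ^ 2 * (2 * C ^ 2)) := by
        refine mul_le_mul_of_nonneg_right ?_ (by positivity)
        exact pow_le_pow_of_le_one hw0.le hw1.le (by norm_num)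
      have h3 : w ^ 2 * (N ^ 2 * (2 * C ^ 2)) = (w * (2 * C * N)) ^ 2 / 2 := by ring
      have h4 : (w * (2 * C * N)) ^ 2 < 1 := by
        rw [sq_lt_one_iff₀ hu0.le]
        exact hu
      linarith
  obtain ⟨j, hj, hjmin⟩ := Int.exists_least_of_bdd (P := fun j : ℤ => Lev N z (2 ^ j))
    ⟨⌊-(1 + Real.log C / Real.log 2 + Real.log N / Real.log 2)⌋, fun j hj => by
      rw [← Int.cast_le (R := ℝ)]
      have h1 := L1a_le_log (x := 1 / (2 * C * N)) (by positivity) (hlow j hj)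
      rw [Real.log_div one_ne_zero (by positivity), Real.log_one, Real.log_mul (by positivity) hN0.ne',
        Real.log_mul (by norm_num) hC0.ne'] at h1
      refine (Int.floor_le _).trans (le_trans (le_of_eq ?_) h1)
      field_simp
      ring⟩ ⟨_, hex⟩
  have hju : (j : ℝ) ≤ Real.log C / Real.log 2 + 1 := by
    have h1 := hjmin _ hex
    have h2 : (j : ℝ) ≤ ((Int.log 2 C + 1 : ℤ) : ℝ) := Int.cast_le.2 h1
    have h3 : (2 : ℝ) ^ (Int.log 2 C) ≤ C := by
      have := Int.zpow_log_le_self (b := 2) (by norm_num) hC0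
      exact_mod_cast this
    have h4 := L1a_log_le h3
    rw [Int.cast_add, Int.cast_one] at h2
    linarith
  have hjl : -(1 + Real.log C / Real.log 2 + Real.log N / Real.log 2) ≤ (j : ℝ) := by
    have h1 := L1a_le_log (x := 1 / (2 * C * N)) (by positivity) (hlow j hj)
    rw [Real.log_div one_ne_zero (by positivity), Real.log_one, Real.log_mul (by positivity) hN0.ne',
      Real.log_mul (by norm_num) hC0.ne'] at h1
    refine le_trans (le_of_eq ?_) h1
    field_simp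
    ring
  refine ⟨Int.log 2 ‖z‖, j, ?_, ?_, hi1, hi2, hj, ?_⟩
  · rw [abs_le]
    constructor
    · linarith
    · linarith
  · rw [abs_le]
    constructor
    · linarith
    · linarith
  · intro hcon
    have := hjmin _ hcon
    omega

theorem rec_sum (N : ℕ) (hN : 1 ≤ N) (B : Finset ℕ) (hB : ∀ n ∈ B, N ≤ n ∧ n < 2 * N) (n : ℕ) (hn : n ∈ B) :
    ∑ m ∈ B.erase n, 1 / |(n : ℝ) - m| ≤ 2 * (1 + Real.log N) := by
  classical
  have hH : ∑ d ∈ Finset.Icc 1 N, ((d : ℕ) : ℝ)⁻¹ ≤ 1 + Real.log N := by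
    have h1 := harmonic_le_one_add_log N
    rw [harmonic_eq_sum_Icc, Rat.cast_sum] at h1
    refine le_trans (le_of_eq ?_) h1
    exact Finset.sum_congr rfl fun d _ => by rw [Rat.cast_inv, Rat.cast_natCast]
  have hside : ∀ (S : Finset ℕ) (f : ℕ → ℕ), (∀ m ∈ S, f m ∈ Finset.Icc 1 N) → Set.InjOn f S →
      (∀ m ∈ S, 1 / |(n : ℝ) - m| = ((f m : ℕ) : ℝ)⁻¹) → ∑ m ∈ S, 1 / |(n : ℝ) - m| ≤ 1 + Real.log N := by
    intro S f h1 h2 h3
    rw [Finset.sum_congr rfl h3, ← Finset.sum_image (f := fun d : ℕ => (d : ℝ)⁻¹) h2]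
    refine le_trans (Finset.sum_le_sum_of_subset_of_nonneg ?_ ?_) hH
    · intro d hd
      rw [Finset.mem_image] at hd
      obtain ⟨m, hm, rfl⟩ := hd
      exact h1 m hm
    · intro d _ _
      positivity
  rw [← Finset.sum_filter_add_sum_filter_not (B.erase n) (fun m => m < n)]
  have hnB := hB n hn
  have hA : ∑ m ∈ (B.erase n).filter (fun m => m < n), 1 / |(n : ℝ) - m| ≤ 1 + Real.log N := by
    refine hside _ (fun m => n - m) ?_ ?_ ?_
    · intro m hm
      rw [Finset.mem_filter, Finset.mem_erase] at hm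
      have := hB m hm.1.2
      rw [Finset.mem_Icc]
      omega
    · intro a ha b hb hab
      rw [Finset.mem_coe, Finset.mem_filter, Finset.mem_erase] at ha hb
      simp only at hab
      omega
    · intro m hm
      rw [Finset.mem_filter, Finset.mem_erase] at hm
      have h1 : (m : ℝ) < n := Nat.cast_lt.2 hm.2
      rw [abs_of_pos (by linarith), Nat.cast_sub hm.2.le, one_div]
  have hA' : ∑ m ∈ (B.erase n).filter (fun m => ¬ m < n), 1 / |(n : ℝ) - m| ≤ 1 + Real.log N := by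
    refine hside _ (fun m => m - n) ?_ ?_ ?_
    · intro m hm
      rw [Finset.mem_filter, Finset.mem_erase] at hm
      have := hB m hm.1.2
      rw [Finset.mem_Icc]
      omega
    · intro a ha b hb hab
      rw [Finset.mem_coe, Finset.mem_filter, Finset.mem_erase] at ha hb
      simp only at hab
      omega
    · intro m hm
      rw [Finset.mem_filter, Finset.mem_erase] at hm
      have h0 : n < m := by omega
      have h1 : (n : ℝ) < m := Nat.cast_lt.2 h0
      rw [abs_of_neg (by linarith), Nat.cast_sub h0.le, one_div, neg_sub]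
  linarith

end MPku
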