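import Pool.Agent.Lib.MP_7b255b_ntU.Fo3
import Pool.Agent.Lib.MP_7b255b_ntU.F3

/-!
# Lad: large values of a ladder

JOB Lad.
* `scal_TT`: `T w = TT φ g (Fw s w)`. Additivity: `Fw s (u + v) = Fw s u + Fw s v` pointwise, `TT_add` with `Hm_Fw`. Scaling: `Fw_scale` with a matrix `g'`: `T (w (lam (· - x0))) = lam^(-(1+s)/2) TT φ g (Fw s w ∘ act g') = lam^(-(1+s)/2)
  TT φ (g * g'⁻¹) (Fw s w)` (`TT_act` with `h = g'⁻¹`), `|lam^(-(1+s)/2)| = lam^(-(1+σ)/2)` (`Complex.norm_cpow_eq_rpow_re_of_pos`), `TT_bound` and `Fw_circ_bound`. The constants do not depend on `g`.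
* `ladder_large`: `φ n g = TT φ g (em s n)` (`TT_em`); and `TT φ (1 * g) (em s n) = TT φ 1 (em s n ∘ act g⁻¹)`. By `part` the function `em s n ∘ act g⁻¹` is the sum over `j < 4` of `v ↦ cut χ (act (kk (-(j π/2))) v) em s n (act g⁻¹ v)`, which is
  `F_j ∘ act (kk (-(j π/2)))` with `F_j v = cut χ v * em s n (act (g⁻¹ * kk (j π/2)) v) = Fw s (vf χ s (g⁻¹ * kk (j π/2)) n) v` (`Fw_vf`, `act_mul`, `kk_add`). So
  `φ n g = ∑_j TT φ (kk (j π/2)) (Fw s (vf χ s (g⁻¹ kk (j π/2)) n))` (`TT_kk` with `g = 1`, `vf_TF`, `Hm_Fw`). The entries of `g⁻¹ * kk (..)` are at most `2 R`.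
  For each `n ∈ B` there is a `j < 4` with `lam / 4 ≤ ‖T_j (vf ..)‖`; let `B_j` be the set of these `n`; apply `chart_large` (with `2 R`, `lam / 4`) to each `B_j` (`scal_TT`), monotone in `|B_j| ≤ |B|`, and add: `|B| ≤ ∑ |B_j|`.
  (For `lam < 0` the claim is trivial; for `lam ≥ 0` as above.)
-/

set_option autoImplicit false

namespace MPku

open MPkt Finset

variable {s : ℂ} {φ : ℤ → G → ℂ}

private theorem Lad_Fw_add (s : ℂ) (u v : ℝ → ℂ) : Fw s (u + v) = fun x => Fw s u x + Fw s v x := by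
  funext x
  unfold Fw
  by_cases h : 0 < x.2
  · rw [if_pos h, if_pos h, if_pos h, Pi.add_apply, mul_add]
  · rw [if_neg h, if_neg h, if_neg h, add_zero]

private theorem Lad_Fw_smul (s c : ℂ) (u : ℝ → ℂ) : Fw s (c • u) = fun x => c * Fw s u x := by
  funext x
  unfold Fw
  by_cases h : 0 < x.2
  · rw [if_pos h, if_pos h, Pi.smul_apply, smul_eq_mul]
    ring
  · rw [if_neg h, if_neg h, mul_zero]

theorem scal_TT (hφ : Ladder s φ) : ∃ (C : ℝ) (K : ℕ), ∀ g : G, Scal (fun w => TT φ g (Fw s w)) C K s.re := by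
  obtain ⟨C1, K, hC1, hT⟩ := TT_bound hφ
  obtain ⟨C2, hF⟩ := Fw_circ_bound s K
  refine ⟨C1 * C2, K, fun g => ⟨?_, ?_, ?_⟩⟩
  · intro u v hu hv
    show TT φ g (Fw s (u + v)) = TT φ g (Fw s u) + TT φ g (Fw s v)
    rw [Lad_Fw_add]
    exact TT_add hφ (Hm_Fw s hu) (Hm_Fw s hv) g
  · intro c u hu
    show TT φ g (Fw s (c • u)) = c * TT φ g (Fw s u)
    rw [Lad_Fw_smul]
    exact TT_smul c _ g
  · intro w b lam x0 hw hw0 hb hlam _
    have hl : 0 < lam := zero_lt_one.trans_le hlam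
    obtain ⟨g', hg'⟩ := Fw_scale s w hl x0
    have h1 : Fw s (fun x => w (lam * (x - x0))) = fun v => (lam : ℂ) ^ (-(1 + s) / 2) * Fw s w (act g' v) := funext hg'
    have h2 : TT φ g (fun v => Fw s w (act g' v)) = TT φ (g * g'⁻¹) (Fw s w) := by
      have h := TT_act hφ (Hm_Fw s hw) g g'⁻¹
      rw [inv_inv] at h
      exact h.symm
    have h3 : ‖TT φ (g * g'⁻¹) (Fw s w)‖ ≤ C1 * (C2 * b) := hT _ _ _ (Hm_Fw s hw) (hF w b hw hw0 hb)
    show ‖TT φ g (Fw s (fun x => w (lam * (x - x0))))‖ ≤ C1 * C2 * lam ^ (-(1 + s.re) / 2) * b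
    rw [h1, TT_smul, h2, norm_mul, Complex.norm_cpow_eq_rpow_re_of_pos hl]
    have h4 : (-(1 + s) / 2 : ℂ).re = -(1 + s.re) / 2 := by
      rw [show (-(1 + s) / 2 : ℂ) = (-(1 + s)) / ((2 : ℝ) : ℂ) by norm_num, Complex.div_ofReal_re]
      simp
    rw [h4]
    calc lam ^ (-(1 + s.re) / 2) * ‖TT φ (g * g'⁻¹) (Fw s w)‖ ≤ lam ^ (-(1 + s.re) / 2) * (C1 * (C2 * b)) :=
          mul_le_mul_of_nonneg_left h3 (Real.rpow_nonneg hl.le _)
      _ = C1 * C2 * lam ^ (-(1 + s.re) / 2) * b := by ring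

/-- The entries of `g⁻¹ * kk θ`. -/
private theorem Lad_Ent {R : ℝ} {g : G} (h : Ent R g) (θ : ℝ) : Ent (2 * R) (g⁻¹ * kk θ) := by
  have hc := Real.abs_cos_le_one θ
  have hs := Real.abs_sin_le_one θ
  have h00 := h 0 0
  have h01 := h 0 1
  have h10 := h 1 0
  have h11 := h 1 1
  have hR : 0 ≤ R := (abs_nonneg _).trans h00
  have key : ∀ p q c t : ℝ, |p| ≤ R → |q| ≤ R → |c| ≤ 1 → |t| ≤ 1 → |p * c + q * t| ≤ 2 * R := by
    intro p q c t hp hq hc ht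
    calc |p * c + q * t| ≤ |p * c| + |q * t| := abs_add_le _ _
      _ = |p| * |c| + |q| * |t| := by rw [abs_mul, abs_mul]
      _ ≤ R * 1 + R * 1 := add_le_add (mul_le_mul hp hc (abs_nonneg _) hR) (mul_le_mul hq ht (abs_nonneg _) hR)
      _ = 2 * R := by ring
  have hm : ((g⁻¹ * kk θ : G) : Matrix (Fin 2) (Fin 2) ℝ) =
      !![g 1 1 * Real.cos θ + (-(g 0 1)) * Real.sin θ, g 1 1 * (-Real.sin θ) + (-(g 0 1)) * Real.cos θ;
        (-(g 1 0)) * Real.cos θ + g 0 0 * Real.sin θ, (-(g 1 0)) * (-Real.sin θ) + g 0 0 * Real.cos θ] := by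
    rw [Matrix.SpecialLinearGroup.coe_mul, Matrix.SpecialLinearGroup.coe_inv, Matrix.adjugate_fin_two]
    unfold kk
    rw [Matrix.mul_fin_two]
  intro i j
  have hns : |-Real.sin θ| ≤ 1 := by rw [abs_neg]; exact hs
  have hn01 : |-(g 0 1)| ≤ R := by rw [abs_neg]; exact h01
  have hn10 : |-(g 1 0)| ≤ R := by rw [abs_neg]; exact h10
  have hij : (g⁻¹ * kk θ : G) i j = ((g⁻¹ * kk θ : G) : Matrix (Fin 2) (Fin 2) ℝ) i j := rfl
  rw [hij, hm]
  fin_cases i <;> fin_cases j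
  · exact key _ _ _ _ h11 hn01 hc hs
  · exact key _ _ _ _ h11 hn01 hns hc
  · exact key _ _ _ _ hn10 h00 hc hs
  · exact key _ _ _ _ hn10 h00 hns hc

/-- Decomposition of `φ n g` into four charts. -/
private theorem Lad_split (hφ : Ladder s φ) {χ : ℝ → ℂ} (hχ : TF χ)
    (hp : ∀ v : ℝ × ℝ, v ≠ 0 → ∑ j ∈ range 4, cut χ (act (kk (-(j * (Real.pi / 2)))) v) = 1) (n : ℕ) (g : G) :
    φ n g = ∑ j ∈ range 4, TT φ (kk (j * (Real.pi / 2))) (Fw s (vf χ s (g⁻¹ * kk (j * (Real.pi / 2))) n)) := by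
  set β : ℕ → ℝ := fun j => j * (Real.pi / 2) with hβ
  set F : ℕ → ℝ × ℝ → ℂ := fun j => Fw s (vf χ s (g⁻¹ * kk (β j)) n) with hF
  have hFH : ∀ j, Hm s (F j) := fun j => Hm_Fw s (vf_TF hχ s _ n)
  have h1 : φ n g = TT φ 1 (fun v => em s n (act g⁻¹ v)) := by
    have h := TT_act hφ (Hm_em s (n : ℤ)) 1 g
    rw [one_mul, TT_em] at h
    exact h
  have h2 : TT φ 1 (fun v => em s n (act g⁻¹ v)) =
      TT φ 1 (fun v => ((F 0 (act (kk (-β 0)) v) + F 1 (act (kk (-β 1)) v)) + F 2 (act (kk (-β 2)) v)) + F 3 (act (kk (-β 3)) v)) := by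
    apply TT_congr
    intro v hv
    have h3 : ∀ j, F j (act (kk (-β j)) v) = cut χ (act (kk (-β j)) v) * em s n (act g⁻¹ v) := by
      intro j
      rw [hF]
      show Fw s (vf χ s (g⁻¹ * kk (β j)) n) (act (kk (-β j)) v) = _
      rw [Fw_vf χ s _ n (act_ne _ hv), ← act_mul, ← kk_inv, mul_assoc, mul_inv_cancel, mul_one]
    have h4 := hp v hv
    rw [Finset.sum_range_succ, Finset.sum_range_succ, Finset.sum_range_succ, Finset.sum_range_succ, Finset.sum_range_zero, zero_add] at h4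
    show em s n (act g⁻¹ v) = ((F 0 (act (kk (-β 0)) v) + F 1 (act (kk (-β 1)) v)) + F 2 (act (kk (-β 2)) v)) + F 3 (act (kk (-β 3)) v)
    rw [h3, h3, h3, h3, ← add_mul, ← add_mul, ← add_mul]
    have h5 : cut χ (act (kk (-β 0)) v) + cut χ (act (kk (-β 1)) v) + cut χ (act (kk (-β 2)) v) + cut χ (act (kk (-β 3)) v) = 1 := h4
    rw [h5, one_mul]
  have hA : ∀ j, Hm s (fun v => F j (act (kk (-β j)) v)) := fun j => Hm_act (hFH j) _
  have h3 : ∀ j, TT φ 1 (fun v => F j (act (kk (-β j)) v)) = TT φ (kk (β j)) (F j) := by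
    intro j
    have h := TT_kk hφ (hFH j) 1 (β j)
    rw [one_mul] at h
    exact h.symm
  rw [h1, h2, TT_add hφ (Hm_add (Hm_add (hA 0) (hA 1)) (hA 2)) (hA 3), TT_add hφ (Hm_add (hA 0) (hA 1)) (hA 2),
    TT_add hφ (hA 0) (hA 1), h3, h3, h3, h3]
  rw [Finset.sum_range_succ, Finset.sum_range_succ, Finset.sum_range_succ, Finset.sum_range_succ, Finset.sum_range_zero, zero_add]

theorem ladder_large (hφ : Ladder s φ) (R α : ℝ) (hα : 1 / 4 < α) : ∃ C : ℝ, 1 ≤ C ∧ ∀ (N : ℕ) (B : Finset ℕ) (g : ℕ → G) (lam : ℝ), 1 ≤ N →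
    (∀ n ∈ B, N ≤ n ∧ n < 2 * N) → (∀ n ∈ B, Ent R (g n)) → (∀ n ∈ B, lam ≤ ‖φ n (g n)‖) →
    B.card * lam ≤ C * (1 + Real.log N) ^ 2 * (N : ℝ) ^ (-s.re / 2) *
      (Real.sqrt B.card * (N : ℝ) ^ (1 / 2 + α) + B.card * (N : ℝ) ^ α) := by
  obtain ⟨χ, hχ, hs, hp⟩ := part
  obtain ⟨C1, K, hT⟩ := scal_TT hφ
  obtain ⟨C, hC, hlarge⟩ := chart_large hχ hs s (2 * R) K C1 α hα
  refine ⟨16 * C, by linarith, ?_⟩
  intro N B g lam hN hB hE hl
  have hN1 : (1 : ℝ) ≤ N := by exact_mod_cast hN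
  have hN0 : (0 : ℝ) ≤ N := by linarith
  have hlog : 0 ≤ Real.log N := Real.log_nonneg hN1
  set Lg : ℝ := C * (1 + Real.log N) ^ 2 * (N : ℝ) ^ (-s.re / 2) with hLg
  have hLg0 : 0 ≤ Lg := by
    have h1 : 0 ≤ (N : ℝ) ^ (-s.re / 2) := Real.rpow_nonneg hN0 _
    positivity
  have hr1 : 0 ≤ (N : ℝ) ^ (1 / 2 + α) := Real.rpow_nonneg hN0 _
  have hr2 : 0 ≤ (N : ℝ) ^ α := Real.rpow_nonneg hN0 _
  have hfin : 16 * C * (1 + Real.log N) ^ 2 * (N : ℝ) ^ (-s.re / 2) *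
      (Real.sqrt B.card * (N : ℝ) ^ (1 / 2 + α) + B.card * (N : ℝ) ^ α) =
      16 * (Lg * (Real.sqrt B.card * (N : ℝ) ^ (1 / 2 + α) + B.card * (N : ℝ) ^ α)) := by
    rw [hLg]
    ring
  rw [hfin]
  have hR0 : 0 ≤ Lg * (Real.sqrt B.card * (N : ℝ) ^ (1 / 2 + α) + B.card * (N : ℝ) ^ α) := by positivity
  rcases le_or_gt lam 0 with hlam | hlam
  · have h1 : (B.card : ℝ) * lam ≤ 0 := mul_nonpos_of_nonneg_of_nonpos (Nat.cast_nonneg _) hlam
    linarith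
  -- the sets `B j`
  set Bj : ℕ → Finset ℕ := fun j => B.filter fun n =>
    lam / 4 ≤ ‖TT φ (kk (j * (Real.pi / 2))) (Fw s (vf χ s ((g n)⁻¹ * kk (j * (Real.pi / 2))) n))‖ with hBj
  have hcov : B ⊆ (range 4).biUnion Bj := by
    intro n hn
    by_contra hcon
    have h1 : ∀ j ∈ range 4, ‖TT φ (kk (j * (Real.pi / 2))) (Fw s (vf χ s ((g n)⁻¹ * kk (j * (Real.pi / 2))) n))‖ < lam / 4 := by
      intro j hj
      by_contra h2
      rw [not_lt] at h2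
      exact hcon (Finset.mem_biUnion.2 ⟨j, hj, Finset.mem_filter.2 ⟨hn, h2⟩⟩)
    have h2 : ‖φ n (g n)‖ < lam := by
      rw [Lad_split hφ hχ hp n (g n)]
      calc _ ≤ ∑ j ∈ range 4, ‖TT φ (kk (j * (Real.pi / 2))) (Fw s (vf χ s ((g n)⁻¹ * kk (j * (Real.pi / 2))) n))‖ := norm_sum_le _ _
        _ < ∑ _j ∈ range 4, lam / 4 := Finset.sum_lt_sum_of_nonempty (by simp) h1
        _ = lam := by
          rw [Finset.sum_const, Finset.card_range, nsmul_eq_mul]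
          push_cast
          ring
    exact absurd (hl n hn) (not_le.2 h2)
  have hcard : (B.card : ℝ) ≤ ∑ j ∈ range 4, ((Bj j).card : ℝ) := by
    have h1 := (Finset.card_le_card hcov).trans Finset.card_biUnion_le
    exact_mod_cast h1
  have hone : ∀ j ∈ range 4, ((Bj j).card : ℝ) * (lam / 4) ≤
      Lg * (Real.sqrt B.card * (N : ℝ) ^ (1 / 2 + α) + B.card * (N : ℝ) ^ α) := by
    intro j _
    have hsub : Bj j ⊆ B := Finset.filter_subset _ _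
    have h1 := hlarge (fun w => TT φ (kk (j * (Real.pi / 2))) (Fw s w)) N (Bj j) (fun n => (g n)⁻¹ * kk (j * (Real.pi / 2)))
      (lam / 4) (hT _) hN (fun n hn => hB n (hsub hn)) (fun n hn => Lad_Ent (hE n (hsub hn)) _)
      (fun n hn => (Finset.mem_filter.1 hn).2)
    refine h1.trans ?_
    have h2 : ((Bj j).card : ℝ) ≤ B.card := by exact_mod_cast Finset.card_le_card hsub
    apply mul_le_mul_of_nonneg_left _ hLg0
    exact add_le_add (mul_le_mul_of_nonneg_right (Real.sqrt_le_sqrt h2) hr1) (mul_le_mul_of_nonneg_right h2 hr2)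
  have hsum := Finset.sum_le_sum hone
  rw [Finset.sum_const, Finset.card_range, nsmul_eq_mul, ← Finset.sum_mul] at hsum
  have h3 : (B.card : ℝ) * (lam / 4) ≤ (∑ j ∈ range 4, ((Bj j).card : ℝ)) * (lam / 4) :=
    mul_le_mul_of_nonneg_right hcard (by linarith)
  push_cast at hsum
  linarith

end MPku
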