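import Mathlib

/-!
# MS: from large values to the mean square (elementary)

JOB MS. `p n ≥ 0` for `n ∈ [N, 2N)`; `p n ≤ C0 N^k`; and the large values inequality `hB` with the constant `C0`.
* `L = 1 + log N`, `λ0 = 2 C0 L^2 N^(-σ/2) N^α`. The `n` with `p n ≤ λ0` contribute at most `N λ0^2`. For `i ≥ 0` let `B_i = {n | 2^i λ0 < p n ≤ 2^(i+1) λ0}`, `lam = 2^i λ0`: `hB` gives
  `|B| lam ≤ C0 L^2 N^(-σ/2) √|B| N^(1/2+α) + |B| lam / 2`, so `√|B| lam ≤ 2 C0 L^2 N^(-σ/2) N^(1/2 + α)` and `∑_{B_i} p^2 ≤ 4 |B| lam^2 ≤ 16 C0^2 L^4 N^(1 - σ + 2 α)`. `B_i` is empty if `2^i λ0 > C0 N^k`: so `i ≤ C L`.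
  Total `≤ C L^5 N^(1 - σ + 2 α)`, and `L^5 ≤ C_ε N^ε` (`Real.log_le_rpow_div` or `isLittleO_log_rpow_atTop`).
-/

set_option autoImplicit false

namespace MPku

open Finset

theorem MS_class {x lam A D F : ℝ} (hx : 0 ≤ x) (hlam : 0 ≤ lam)
    (hl : 2 * A * F ≤ lam) (h : x * lam ≤ A * (Real.sqrt x * D + x * F)) :
    x * lam ^ 2 ≤ 4 * A ^ 2 * D ^ 2 := by
  rcases hx.eq_or_lt with h0 | h0
  · rw [← h0, zero_mul]
    positivity
  · have hs : 0 < Real.sqrt x := Real.sqrt_pos.2 h0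
    have hx2 : Real.sqrt x ^ 2 = x := Real.sq_sqrt hx
    have h1 : Real.sqrt x * (Real.sqrt x * lam) ≤ Real.sqrt x * (2 * A * D) := by
      have h2 : x * (2 * A * F) ≤ x * lam := mul_le_mul_of_nonneg_left hl hx
      have h3 : Real.sqrt x * (Real.sqrt x * lam) = x * lam := by
        rw [← mul_assoc, Real.mul_self_sqrt hx]
      rw [h3]
      nlinarith
    have h2 : Real.sqrt x * lam ≤ 2 * A * D := le_of_mul_le_mul_left h1 hs
    have h3 : (Real.sqrt x * lam) ^ 2 ≤ (2 * A * D) ^ 2 :=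
      pow_le_pow_left₀ (by positivity) h2 2
    have h4 : (Real.sqrt x * lam) ^ 2 = x * lam ^ 2 := by
      rw [mul_pow, hx2]
    rw [h4] at h3
    calc x * lam ^ 2 ≤ (2 * A * D) ^ 2 := h3
      _ = 4 * A ^ 2 * D ^ 2 := by ring

theorem MS_log {x ε : ℝ} (hx : 1 ≤ x) (hε : 0 < ε) :
    (1 + Real.log x) ^ 5 ≤ (1 + 5 / ε) ^ 5 * x ^ ε := by
  have hx0 : 0 < x := lt_of_lt_of_le one_pos hx
  have h1 : Real.log x ≤ x ^ (ε / 5) / (ε / 5) := Real.log_le_rpow_div hx0.le (by positivity)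
  have h2 : 1 ≤ x ^ (ε / 5) := Real.one_le_rpow hx (by positivity)
  have h3 : 1 + Real.log x ≤ (1 + 5 / ε) * x ^ (ε / 5) := by
    have h4 : x ^ (ε / 5) / (ε / 5) = 5 / ε * x ^ (ε / 5) := by
      field_simp
    rw [h4] at h1
    linarith
  have h4 : 0 ≤ 1 + Real.log x := by
    have := Real.log_nonneg hx
    linarith
  calc (1 + Real.log x) ^ 5 ≤ ((1 + 5 / ε) * x ^ (ε / 5)) ^ 5 := pow_le_pow_left₀ h4 h3 5
    _ = (1 + 5 / ε) ^ 5 * (x ^ (ε / 5)) ^ 5 := by rw [mul_pow]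
    _ = (1 + 5 / ε) ^ 5 * x ^ ε := by
      rw [← Real.rpow_natCast (x ^ (ε / 5)) 5, ← Real.rpow_mul hx0.le]
      congr 2
      push_cast
      ring

theorem MS_count {x c σ α L : ℝ} {k i : ℕ} (hα : 0 ≤ α) (hx : 1 ≤ x) (hc : 1 ≤ c) (hL : L = 1 + Real.log x)
    (h : (2 : ℝ) ^ i * (2 * (c * L ^ 2 * x ^ (-σ / 2)) * x ^ α) ≤ c * x ^ k) :
    i < ⌊2 * ((k : ℝ) + |σ|) * L⌋₊ + 1 := by
  have hx0 : 0 < x := lt_of_lt_of_le one_pos hx
  have hlog : 0 ≤ Real.log x := Real.log_nonneg hx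
  have hL1 : 1 ≤ L := by linarith
  have h1 : c * x ^ (-|σ|) ≤ 2 * (c * L ^ 2 * x ^ (-σ / 2)) * x ^ α := by
    have e1 : x ^ (-|σ|) ≤ x ^ (-σ / 2) := by
      apply Real.rpow_le_rpow_of_exponent_le hx
      have := abs_nonneg σ
      have := le_abs_self σ
      linarith
    have e2 : 1 ≤ x ^ α := Real.one_le_rpow hx hα
    have e3 : 1 ≤ L ^ 2 := one_le_pow₀ hL1
    have e4 : 0 < x ^ (-σ / 2) := Real.rpow_pos_of_pos hx0 _
    calc c * x ^ (-|σ|) ≤ c * x ^ (-σ / 2) := mul_le_mul_of_nonneg_left e1 (by linarith)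
      _ ≤ (c * x ^ (-σ / 2)) * (2 * L ^ 2 * x ^ α) := by
        apply le_mul_of_one_le_right (by positivity)
        nlinarith
      _ = 2 * (c * L ^ 2 * x ^ (-σ / 2)) * x ^ α := by ring
  have h2 : (2 : ℝ) ^ i * (c * x ^ (-|σ|)) ≤ c * x ^ k :=
    (mul_le_mul_of_nonneg_left h1 (by positivity)).trans h
  have h3 : (2 : ℝ) ^ i ≤ x ^ ((k : ℝ) + |σ|) := by
    have e1 : x ^ (-|σ|) * x ^ |σ| = 1 := by
      rw [← Real.rpow_add hx0]
      simp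
    have e2 : (2 : ℝ) ^ i * x ^ (-|σ|) ≤ x ^ k := by
      have e3 : c * ((2 : ℝ) ^ i * x ^ (-|σ|)) ≤ c * x ^ k := by
        calc c * ((2 : ℝ) ^ i * x ^ (-|σ|)) = (2 : ℝ) ^ i * (c * x ^ (-|σ|)) := by ring
          _ ≤ c * x ^ k := h2
      exact le_of_mul_le_mul_left e3 (by linarith)
    calc (2 : ℝ) ^ i = (2 : ℝ) ^ i * x ^ (-|σ|) * x ^ |σ| := by rw [mul_assoc, e1, mul_one]
      _ ≤ x ^ k * x ^ |σ| := mul_le_mul_of_nonneg_right e2 (Real.rpow_nonneg hx0.le _)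
      _ = x ^ ((k : ℝ) + |σ|) := by rw [Real.rpow_add hx0, Real.rpow_natCast]
  have h4 : (i : ℝ) * Real.log 2 ≤ ((k : ℝ) + |σ|) * Real.log x := by
    have e1 := Real.log_le_log (by positivity) h3
    rw [Real.log_pow, Real.log_rpow hx0] at e1
    exact e1
  have h5 : (1 : ℝ) / 2 < Real.log 2 := by
    have := Real.log_two_gt_d9
    linarith
  have hK : 0 ≤ (k : ℝ) + |σ| := by positivity
  have h6 : (i : ℝ) ≤ 2 * ((k : ℝ) + |σ|) * L := by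
    have e1 : (i : ℝ) * (1 / 2) ≤ (i : ℝ) * Real.log 2 := mul_le_mul_of_nonneg_left h5.le (by positivity)
    have e2 : ((k : ℝ) + |σ|) * Real.log x ≤ ((k : ℝ) + |σ|) * L :=
      mul_le_mul_of_nonneg_left (by linarith) hK
    linarith
  have h7 : i ≤ ⌊2 * ((k : ℝ) + |σ|) * L⌋₊ := Nat.le_floor h6
  omega

theorem MS_point {x lam0 : ℝ} (hx : 0 ≤ x) (h0 : 0 < lam0) (I : ℕ)
    (hI : ∀ i : ℕ, (2 : ℝ) ^ i * lam0 ≤ x → i < I) :
    x ^ 2 ≤ lam0 ^ 2 + ∑ i ∈ range I, (if (2 : ℝ) ^ i * lam0 ≤ x then 4 * ((2 : ℝ) ^ i * lam0) ^ 2 else 0) := by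
  have hnn : ∀ i ∈ range I, 0 ≤ (if (2 : ℝ) ^ i * lam0 ≤ x then 4 * ((2 : ℝ) ^ i * lam0) ^ 2 else 0) := by
    intro i _
    split_ifs
    · positivity
    · exact le_rfl
  rcases le_or_gt x lam0 with h1 | h1
  · have h2 := Finset.sum_nonneg hnn
    have h3 : x ^ 2 ≤ lam0 ^ 2 := pow_le_pow_left₀ hx h1 2
    linarith
  · have h2 : 1 ≤ x / lam0 := by
      rw [le_div_iff₀ h0]
      linarith
    obtain ⟨i, hi1, hi2⟩ := exists_nat_pow_near h2 (one_lt_two)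
    rw [le_div_iff₀ h0] at hi1
    rw [div_lt_iff₀ h0] at hi2
    have h3 := Finset.single_le_sum hnn (mem_range.2 (hI i hi1))
    rw [if_pos hi1] at h3
    have h4 : x ^ 2 ≤ (2 * ((2 : ℝ) ^ i * lam0)) ^ 2 := by
      apply pow_le_pow_left₀ hx
      calc x ≤ 2 ^ (i + 1) * lam0 := hi2.le
        _ = 2 * ((2 : ℝ) ^ i * lam0) := by ring
    have h5 : (2 * ((2 : ℝ) ^ i * lam0)) ^ 2 = 4 * ((2 : ℝ) ^ i * lam0) ^ 2 := by ring
    have h6 : 0 ≤ lam0 ^ 2 := by positivity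
    linarith

theorem mean_of_large (C0 σ ε α : ℝ) (k : ℕ) (hε : 0 < ε) (hα : 0 ≤ α) : ∃ C : ℝ, 1 ≤ C ∧ ∀ (N : ℕ) (p : ℕ → ℝ), 1 ≤ N → (∀ n, 0 ≤ p n) →
    (∀ n, N ≤ n → n < 2 * N → p n ≤ C0 * (N : ℝ) ^ k) →
    (∀ (B : Finset ℕ) (lam : ℝ), (∀ n ∈ B, N ≤ n ∧ n < 2 * N) → (∀ n ∈ B, lam ≤ p n) →
      B.card * lam ≤ C0 * (1 + Real.log N) ^ 2 * (N : ℝ) ^ (-σ / 2) *
        (Real.sqrt B.card * (N : ℝ) ^ (1 / 2 + α) + B.card * (N : ℝ) ^ α)) →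
    ∑ n ∈ Ico N (2 * N), p n ^ 2 ≤ C * (N : ℝ) ^ (1 - σ + 2 * α + ε) := by
  have hc1 : (1 : ℝ) ≤ max C0 1 := le_max_right _ _
  have hK : 0 ≤ (k : ℝ) + |σ| := by positivity
  have h5e : 0 < 5 / ε := by positivity
  refine ⟨(36 + 32 * ((k : ℝ) + |σ|)) * (max C0 1) ^ 2 * (1 + 5 / ε) ^ 5, ?_, ?_⟩
  · have e1 : (1 : ℝ) ≤ (max C0 1) ^ 2 := one_le_pow₀ hc1
    have e2 : (1 : ℝ) ≤ (1 + 5 / ε) ^ 5 := one_le_pow₀ (by linarith)
    have e3 : (1 : ℝ) ≤ 36 + 32 * ((k : ℝ) + |σ|) := by linarith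
    exact one_le_mul_of_one_le_of_one_le (one_le_mul_of_one_le_of_one_le e3 e1) e2
  · intro N p hN hp hk hB
    generalize hcd : max C0 1 = c at hc1 ⊢
    have hCc : C0 ≤ c := by
      rw [← hcd]
      exact le_max_left _ _
    have hx : (1 : ℝ) ≤ (N : ℝ) := by exact_mod_cast hN
    have hx0 : (0 : ℝ) < (N : ℝ) := lt_of_lt_of_le one_pos hx
    have hlog : 0 ≤ Real.log (N : ℝ) := Real.log_nonneg hx
    obtain ⟨L, hL⟩ : ∃ L : ℝ, L = 1 + Real.log (N : ℝ) := ⟨_, rfl⟩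
    have hL1 : 1 ≤ L := by linarith
    obtain ⟨A, hA⟩ : ∃ A : ℝ, A = c * L ^ 2 * (N : ℝ) ^ (-σ / 2) := ⟨_, rfl⟩
    obtain ⟨D, hD⟩ : ∃ D : ℝ, D = (N : ℝ) ^ (1 / 2 + α) := ⟨_, rfl⟩
    obtain ⟨F, hF⟩ : ∃ F : ℝ, F = (N : ℝ) ^ α := ⟨_, rfl⟩
    have hc0 : 0 < c := lt_of_lt_of_le one_pos hc1
    have hA0 : 0 < A := by
      rw [hA]
      have := Real.rpow_pos_of_pos hx0 (-σ / 2)
      have : 0 < L := by linarith
      positivity
    have hD0 : 0 < D := by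
      rw [hD]
      exact Real.rpow_pos_of_pos hx0 _
    have hF0 : 0 < F := by
      rw [hF]
      exact Real.rpow_pos_of_pos hx0 _
    have hFD : (N : ℝ) * F ^ 2 = D ^ 2 := by
      rw [hF, hD, ← Real.rpow_natCast ((N : ℝ) ^ α) 2, ← Real.rpow_mul hx0.le,
        ← Real.rpow_natCast ((N : ℝ) ^ (1 / 2 + α)) 2, ← Real.rpow_mul hx0.le]
      nth_rewrite 1 [← Real.rpow_one (N : ℝ)]
      rw [← Real.rpow_add hx0]
      congr 1
      push_cast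
      ring
    have hAD : A ^ 2 * D ^ 2 = c ^ 2 * L ^ 4 * (N : ℝ) ^ (1 - σ + 2 * α) := by
      have e1 : ((N : ℝ) ^ (-σ / 2)) ^ 2 * ((N : ℝ) ^ (1 / 2 + α)) ^ 2 =
          (N : ℝ) ^ (1 - σ + 2 * α) := by
        rw [← Real.rpow_natCast ((N : ℝ) ^ (-σ / 2)) 2, ← Real.rpow_mul hx0.le,
          ← Real.rpow_natCast ((N : ℝ) ^ (1 / 2 + α)) 2, ← Real.rpow_mul hx0.le,
          ← Real.rpow_add hx0]
        congr 1
        push_cast
        ring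
      rw [hA, hD, ← e1]
      ring
    have hB' : ∀ (B : Finset ℕ) (lam : ℝ), (∀ n ∈ B, N ≤ n ∧ n < 2 * N) → (∀ n ∈ B, lam ≤ p n) →
        (B.card : ℝ) * lam ≤ A * (Real.sqrt B.card * D + B.card * F) := by
      intro B lam h1 h2
      have h3 := hB B lam h1 h2
      have e1 : C0 * (1 + Real.log (N : ℝ)) ^ 2 * (N : ℝ) ^ (-σ / 2) ≤ A := by
        rw [hA, ← hL]
        apply mul_le_mul_of_nonneg_right _ (Real.rpow_nonneg hx0.le _)
        exact mul_le_mul_of_nonneg_right hCc (by positivity)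
      rw [← hD, ← hF] at h3
      exact h3.trans (mul_le_mul_of_nonneg_right e1 (by positivity))
    obtain ⟨lam0, hlam0⟩ : ∃ lam0 : ℝ, lam0 = 2 * A * F := ⟨_, rfl⟩
    have hl0 : 0 < lam0 := by
      rw [hlam0]
      positivity
    obtain ⟨I, hI⟩ : ∃ I : ℕ, I = ⌊2 * ((k : ℝ) + |σ|) * L⌋₊ + 1 := ⟨_, rfl⟩
    have hcount : ∀ n ∈ Ico N (2 * N), ∀ i : ℕ, (2 : ℝ) ^ i * lam0 ≤ p n → i < I := by
      intro n hn i hi
      obtain ⟨hn1, hn2⟩ := mem_Ico.1 hn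
      rw [hI]
      apply MS_count hα hx hc1 hL
      rw [← hA, ← hF, ← hlam0]
      calc (2 : ℝ) ^ i * lam0 ≤ p n := hi
        _ ≤ C0 * (N : ℝ) ^ k := hk n hn1 hn2
        _ ≤ c * (N : ℝ) ^ k := mul_le_mul_of_nonneg_right hCc (by positivity)
    have hclass : ∀ i : ℕ, (((Ico N (2 * N)).filter (fun n => (2 : ℝ) ^ i * lam0 ≤ p n)).card : ℝ) *
        (4 * ((2 : ℝ) ^ i * lam0) ^ 2) ≤ 16 * (A ^ 2 * D ^ 2) := by
      intro i
      have h1 := hB' ((Ico N (2 * N)).filter (fun n => (2 : ℝ) ^ i * lam0 ≤ p n)) ((2 : ℝ) ^ i * lam0)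
        (fun n hn => mem_Ico.1 (mem_filter.1 hn).1) (fun n hn => (mem_filter.1 hn).2)
      have h2 : 2 * A * F ≤ (2 : ℝ) ^ i * lam0 := by
        rw [← hlam0]
        exact le_mul_of_one_le_left hl0.le (one_le_pow₀ (by norm_num))
      have h3 := MS_class (Nat.cast_nonneg _) (by positivity) h2 h1
      linarith
    have hsum : ∑ n ∈ Ico N (2 * N), p n ^ 2 ≤ (N : ℝ) * lam0 ^ 2 + (I : ℝ) * (16 * (A ^ 2 * D ^ 2)) := by
      calc ∑ n ∈ Ico N (2 * N), p n ^ 2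
          ≤ ∑ n ∈ Ico N (2 * N), (lam0 ^ 2 + ∑ i ∈ range I,
              (if (2 : ℝ) ^ i * lam0 ≤ p n then 4 * ((2 : ℝ) ^ i * lam0) ^ 2 else 0)) := by
            apply Finset.sum_le_sum
            intro n hn
            exact MS_point (hp n) hl0 I (hcount n hn)
        _ = (N : ℝ) * lam0 ^ 2 + ∑ i ∈ range I,
              (((Ico N (2 * N)).filter (fun n => (2 : ℝ) ^ i * lam0 ≤ p n)).card : ℝ) *
                (4 * ((2 : ℝ) ^ i * lam0) ^ 2) := by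
            rw [Finset.sum_add_distrib, Finset.sum_comm, Finset.sum_const, Nat.card_Ico, nsmul_eq_mul]
            congr 1
            · congr 2
              omega
            · apply Finset.sum_congr rfl
              intro i _
              rw [← Finset.sum_filter, Finset.sum_const, nsmul_eq_mul]
        _ ≤ (N : ℝ) * lam0 ^ 2 + ∑ i ∈ range I, 16 * (A ^ 2 * D ^ 2) := by
            exact add_le_add le_rfl (Finset.sum_le_sum fun i _ => hclass i)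
        _ = (N : ℝ) * lam0 ^ 2 + (I : ℝ) * (16 * (A ^ 2 * D ^ 2)) := by
            rw [Finset.sum_const, card_range, nsmul_eq_mul]
    have hIle : (I : ℝ) ≤ 2 * ((k : ℝ) + |σ|) * L + 1 := by
      rw [hI]
      push_cast
      have := Nat.floor_le (show 0 ≤ 2 * ((k : ℝ) + |σ|) * L by positivity)
      linarith
    have hNl : (N : ℝ) * lam0 ^ 2 = 4 * (A ^ 2 * D ^ 2) := by
      rw [hlam0, ← hFD]
      ring
    have hAD0 : 0 ≤ A ^ 2 * D ^ 2 := by positivity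
    have hlogp := MS_log hx hε
    rw [← hL] at hlogp
    calc ∑ n ∈ Ico N (2 * N), p n ^ 2 ≤ (N : ℝ) * lam0 ^ 2 + (I : ℝ) * (16 * (A ^ 2 * D ^ 2)) := hsum
      _ = (4 + 16 * (I : ℝ)) * (A ^ 2 * D ^ 2) := by
        rw [hNl]
        ring
      _ ≤ ((36 + 32 * ((k : ℝ) + |σ|)) * L) * (A ^ 2 * D ^ 2) := by
        apply mul_le_mul_of_nonneg_right _ hAD0
        nlinarith
      _ = (36 + 32 * ((k : ℝ) + |σ|)) * c ^ 2 * (N : ℝ) ^ (1 - σ + 2 * α) * L ^ 5 := by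
        rw [hAD]
        ring
      _ ≤ (36 + 32 * ((k : ℝ) + |σ|)) * c ^ 2 * (N : ℝ) ^ (1 - σ + 2 * α) *
          ((1 + 5 / ε) ^ 5 * (N : ℝ) ^ ε) := by
        apply mul_le_mul_of_nonneg_left hlogp
        have := Real.rpow_nonneg hx0.le (1 - σ + 2 * α)
        positivity
      _ = (36 + 32 * ((k : ℝ) + |σ|)) * c ^ 2 * (1 + 5 / ε) ^ 5 *
          ((N : ℝ) ^ (1 - σ + 2 * α) * (N : ℝ) ^ ε) := by ring
      _ = (36 + 32 * ((k : ℝ) + |σ|)) * c ^ 2 * (1 + 5 / ε) ^ 5 * (N : ℝ) ^ (1 - σ + 2 * α + ε) := by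
        rw [← Real.rpow_add hx0]

end MPku
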