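import Pool.Agent.Lib.MP_7b255b_ntU.R1
import Pool.Agent.Lib.MP_7b255b_nt.SmI

/-!
# R4: derivatives of automorphic functions

JOB R4. `t ↦ η (π.r (g * aa t) v)` has the derivative `η (π.r g (dX π mH v))` at `0`, for a continuous linear functional `η` on the smooth vectors.
* Let `𝒥 v = (iteratedFDeriv ℝ j (orb π v) e1)_{j ≤ l}`. It is enough that `(1/t) jet π l (π.r (aa t) v - v - t • dX π mH v) → 0` for `t → 0` (replace `η` by `η ∘ π.r g`, `IsLin.r`; `IsLin.sub`, `IsLin.smul`, `IsLin.bound`).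
* On `pos` (near `e1`): `orb π (π.r (aa t) v) A = F (A aa_t)` with `F = orb π v`, `aa_t = diag(e^{t/2}, e^{-t/2})`, and `orb π (dX π mH v) A = fderiv F A (A mH)` (`fderiv_orb`), which is the derivative in `t` at `0` of `F (A aa_t)`.
* General lemma, by induction on `j` for all normed spaces `E'` (over `ℝ`): if `F : (Fin 2 → Fin 2 → ℝ) → E'` is `C^∞` on the open set `pos`, then for `A ∈ pos` the function `t ↦ iteratedFDeriv ℝ j (fun A => F (A aa_t)) A` has at `t = 0` the derivative
  `iteratedFDeriv ℝ j (fun A => fderiv F A (A mH)) A`. Better: for a smooth function `P (A, t)` of `(A, t)` near `(A0, 0)`: `t ↦ iteratedFDeriv ℝ j (fun A => P (A, t)) A0` has the derivative `iteratedFDeriv ℝ j (fun A => ∂_t P (A, 0)) A0` at `0`;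
  step: `iteratedFDeriv (j+1)` is `iteratedFDeriv j` of `A ↦ fderiv (P (·, t)) A` up to a fixed linear isometry (`iteratedFDeriv_succ_eq_comp_right`), and `∂_t ∂_A P = ∂_A ∂_t P` (symmetry of the second derivative of the `C^2` function `P`).
-/

set_option autoImplicit false

namespace MPku

open MPkt

variable {H : Type*} [NormedAddCommGroup H] [InnerProductSpace ℂ H] [CompleteSpace H] (π : URep H)

private theorem r4_deriv {v : H} (hv : Smooth π v) (s : ℝ) : HasDerivAt (fun t : ℝ => π.r (aa t) v) (π.r (aa s) (dX π mH v)) s := by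
  have h1 := dX_aa π hv (aa s)
  have h2 : HasDerivAt (fun t : ℝ => π.r (aa s * aa t) v) (π.r (aa s) (dX π mH v)) (s - s) := by
    rw [sub_self]
    exact h1
  have h3 := h2.comp_sub_const s s
  have h4 : (fun t : ℝ => π.r (aa s * aa (t - s)) v) = fun t : ℝ => π.r (aa t) v := by
    funext t
    rw [← aa_add, add_sub_cancel]
  rw [h4] at h3
  exact h3

private theorem r4_ind {E : Type*} [AddCommGroup E] [Module ℂ E] (a b : ℝ) (f : ℝ → E) :
    (fun s => Set.indicator (Set.Ioc a b) (fun _ : ℝ => (1 : ℂ)) s • f s) = Set.indicator (Set.Ioc a b) f := by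
  funext s
  by_cases hs : s ∈ Set.Ioc a b
  · rw [Set.indicator_of_mem hs, Set.indicator_of_mem hs, one_smul]
  · rw [Set.indicator_of_notMem hs, Set.indicator_of_notMem hs, zero_smul]

omit [CompleteSpace H] in
private theorem r4_cont (v : H) : Continuous fun s : ℝ => π.r (aa s) v := (π.cont v).comp cont_aa

private theorem r4_int {η : H → ℂ} (hη : IsLin π η) {w : H} (hw : Smooth π w) (a b : ℝ) :
    Smooth π (∫ s in Set.Ioc a b, π.r (aa s) w) ∧
    η (∫ s in Set.Ioc a b, π.r (aa s) w) = ∫ s in Set.Ioc a b, η (π.r (aa s) w) := by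
  have hc : MeasureTheory.Integrable (Set.indicator (Set.Ioc a b) fun _ : ℝ => (1 : ℂ)) MeasureTheory.volume :=
    (MeasureTheory.integrable_indicator_iff measurableSet_Ioc).2 (MeasureTheory.integrableOn_const (by simp))
  have hM : TopologicalSpace.PseudoMetrizableSpace (Matrix (Fin 2) (Fin 2) ℝ) :=
    inferInstanceAs (TopologicalSpace.PseudoMetrizableSpace (Fin 2 → Fin 2 → ℝ))
  have hG : TopologicalSpace.PseudoMetrizableSpace G := Topology.IsInducing.pseudoMetrizableSpace
    (f := fun g : G => (g : Matrix (Fin 2) (Fin 2) ℝ)) Topology.IsInducing.subtypeVal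
  have hg : MeasureTheory.StronglyMeasurable aa := cont_aa.stronglyMeasurable
  have hK : IsCompact (aa '' Set.Icc a b) := isCompact_Icc.image cont_aa
  have hgK : ∀ s : ℝ, Set.indicator (Set.Ioc a b) (fun _ : ℝ => (1 : ℂ)) s ≠ 0 → aa s ∈ aa '' Set.Icc a b := by
    intro s hs
    exact ⟨s, Set.Ioc_subset_Icc_self (Set.mem_of_indicator_ne_zero hs), rfl⟩
  have h1 := int_smooth π MeasureTheory.volume hc hg hK hgK hw
  have h2 := int_eta π MeasureTheory.volume hc hg hK hgK hw hη
  have h3 := r4_ind a b fun s => π.r (aa s) w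
  have h4 := r4_ind a b fun s => η (π.r (aa s) w)
  simp only [smul_eq_mul] at h4
  rw [h3, MeasureTheory.integral_indicator measurableSet_Ioc] at h1
  rw [h3, h4, MeasureTheory.integral_indicator measurableSet_Ioc, MeasureTheory.integral_indicator measurableSet_Ioc] at h2
  exact ⟨h1, h2⟩

theorem eta_aa {η : H → ℂ} (hη : IsLin π η) {v : H} (hv : Smooth π v) (g : G) :
    HasDerivAt (fun t : ℝ => η (π.r (g * aa t) v)) (η (π.r g (dX π mH v))) 0 := by
  have hX : Smooth π (dX π mH v) := smooth_dX π mH hv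
  have hη' := hη.r π g
  have hF : Continuous fun s : ℝ => η (π.r g (π.r (aa s) (dX π mH v))) := (eta_cont π hη' hX).comp cont_aa
  have hmain : ∀ t : ℝ, -1 ≤ t → η (π.r (g * aa t) v) = η (π.r g (π.r (aa (-1)) v)) +
      ∫ s in (-1 : ℝ)..t, η (π.r g (π.r (aa s) (dX π mH v))) := by
    intro t ht
    have h1 := intervalIntegral.integral_eq_sub_of_hasDerivAt (fun s _ => r4_deriv π hv s)
      ((r4_cont π (dX π mH v)).intervalIntegrable (-1) t)
    rw [intervalIntegral.integral_of_le ht] at h1
    obtain ⟨h2, h3⟩ := r4_int π hη' hX (-1) t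
    have h4 : π.r (aa t) v = π.r (aa (-1)) v + ∫ s in Set.Ioc (-1) t, π.r (aa s) (dX π mH v) := by
      rw [h1]
      abel
    rw [map_mul, intervalIntegral.integral_of_le ht, ← h3]
    change η (π.r g (π.r (aa t) v)) = _
    rw [h4]
    exact hη'.add _ _ (smooth_r π _ hv) h2
  have h5 := ((hF.integral_hasStrictDerivAt (-1) 0).hasDerivAt).const_add (η (π.r g (π.r (aa (-1)) v)))
  rw [aa_zero, map_one] at h5
  refine h5.congr_of_eventuallyEq ?_
  filter_upwards [Ioi_mem_nhds (show (-1 : ℝ) < 0 by norm_num)] with t ht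
  exact hmain t (le_of_lt ht)

end MPku
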