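import Pool.Agent.Lib.MP_7b255b_ntU.R1

/-!
# R2: raising and lowering operators

JOB R2. `up v = ½ (dX mH v - i dX mV v)`, `dn v = ½ (dX mH v + i dX mV v)`.
* `smooth_up`, `smooth_dn`: `smooth_dX`, `smooth_add`, `smooth_smul`.
* weights: `kk θ mH kk(-θ) = cos 2θ mH + sin 2θ mV`, `kk θ mV kk(-θ) = - sin 2θ mH + cos 2θ mV`; with `dX_conj`, `dX_add`, `dX_smul`, `dX_vsmul`: `π(kk θ)(dX mH v - i dX mV v) = e^{inθ} ((cos 2θ + i sin 2θ) dX mH v +
  (sin 2θ - i cos 2θ) dX mV v) = e^{inθ} e^{2iθ} (dX mH v - i dX mV v)`; similarly `dn`.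
* `up_dn_skew`: `dX_skew` (`inner` is conjugate linear in the first argument).
* `comm`: `up (dn v) - dn (up v) = (i/2) (dX mH (dX mV v) - dX mV (dX mH v)) = (i/2)(-1/2) dX mK v = (n/4) v`.
* `mH_eq`, `mV_eq`: solve for `dX mH v`, `dX mV v`.
-/

set_option autoImplicit false

namespace MPku

open MPkt

variable {H : Type*} [NormedAddCommGroup H] [InnerProductSpace ℂ H] [CompleteSpace H] (π : URep H)

private theorem R2_up (v : H) : up π v = (1 / 2 : ℂ) • (dX π mH v + (-Complex.I) • dX π mV v) := by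
  unfold up
  module

theorem smooth_up {v : H} (hv : Smooth π v) : Smooth π (up π v) := by
  rw [R2_up]
  exact smooth_smul π _ (smooth_add π (smooth_dX π mH hv) (smooth_smul π _ (smooth_dX π mV hv)))

theorem smooth_dn {v : H} (hv : Smooth π v) : Smooth π (dn π v) := by
  unfold dn
  exact smooth_smul π _ (smooth_add π (smooth_dX π mH hv) (smooth_smul π _ (smooth_dX π mV hv)))

theorem up_smul (c : ℂ) {v : H} (hv : Smooth π v) : up π (c • v) = c • up π v := by
  unfold up
  rw [dX_vsmul π mH c hv, dX_vsmul π mV c hv]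
  module

theorem dn_smul (c : ℂ) {v : H} (hv : Smooth π v) : dn π (c • v) = c • dn π v := by
  unfold dn
  rw [dX_vsmul π mH c hv, dX_vsmul π mV c hv]
  module

private theorem R2_kk_inv (θ : ℝ) : (kk θ)⁻¹ = kk (-θ) := by
  apply Subtype.ext
  rw [Matrix.SpecialLinearGroup.coe_inv]
  simp only [kk]
  rw [Matrix.adjugate_fin_two_of, Real.cos_neg, Real.sin_neg, neg_neg]

private theorem R2_k00 (θ : ℝ) : kk θ 0 0 = Real.cos θ := rfl
private theorem R2_k01 (θ : ℝ) : kk θ 0 1 = -Real.sin θ := rfl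
private theorem R2_k10 (θ : ℝ) : kk θ 1 0 = Real.sin θ := rfl
private theorem R2_k11 (θ : ℝ) : kk θ 1 1 = Real.cos θ := rfl

private theorem R2_H (θ : ℝ) : (fun i j => ∑ k, ∑ l, kk θ i k * mH k l * (kk θ)⁻¹ l j) =
    Real.cos (2 * θ) • mH + Real.sin (2 * θ) • mV := by
  have h := Real.sin_sq_add_cos_sq θ
  rw [R2_kk_inv, Real.cos_two_mul, Real.sin_two_mul]
  funext i j
  simp only [Fin.sum_univ_two, Pi.add_apply, Pi.smul_apply, smul_eq_mul]
  fin_cases i <;> fin_cases j
  · simp only [Fin.zero_eta, Fin.isValue, R2_k00, R2_k01, R2_k10, R2_k11, mH, mV, Matrix.cons_val_zero,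
      Matrix.cons_val_one, Real.cos_neg, Real.sin_neg]
    linear_combination -(1 / 2) * h
  · simp only [Fin.zero_eta, Fin.mk_one, Fin.isValue, R2_k00, R2_k01, R2_k10, R2_k11, mH, mV, Matrix.cons_val_zero,
      Matrix.cons_val_one, Real.cos_neg, Real.sin_neg]
    ring
  · simp only [Fin.zero_eta, Fin.mk_one, Fin.isValue, R2_k00, R2_k01, R2_k10, R2_k11, mH, mV, Matrix.cons_val_zero,
      Matrix.cons_val_one, Real.cos_neg, Real.sin_neg]
    ring
  · simp only [Fin.zero_eta, Fin.mk_one, Fin.isValue, R2_k00, R2_k01, R2_k10, R2_k11, mH, mV, Matrix.cons_val_zero,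
      Matrix.cons_val_one, Real.cos_neg, Real.sin_neg]
    linear_combination (1 / 2) * h

private theorem R2_V (θ : ℝ) : (fun i j => ∑ k, ∑ l, kk θ i k * mV k l * (kk θ)⁻¹ l j) =
    (-Real.sin (2 * θ)) • mH + Real.cos (2 * θ) • mV := by
  have h := Real.sin_sq_add_cos_sq θ
  rw [R2_kk_inv, Real.cos_two_mul, Real.sin_two_mul]
  funext i j
  simp only [Fin.sum_univ_two, Pi.add_apply, Pi.smul_apply, smul_eq_mul]
  fin_cases i <;> fin_cases j
  · simp only [Fin.zero_eta, Fin.isValue, R2_k00, R2_k01, R2_k10, R2_k11, mH, mV, Matrix.cons_val_zero,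
      Matrix.cons_val_one, Real.cos_neg, Real.sin_neg]
    ring
  · simp only [Fin.zero_eta, Fin.mk_one, Fin.isValue, R2_k00, R2_k01, R2_k10, R2_k11, mH, mV, Matrix.cons_val_zero,
      Matrix.cons_val_one, Real.cos_neg, Real.sin_neg]
    linear_combination -(1 / 2) * h
  · simp only [Fin.zero_eta, Fin.mk_one, Fin.isValue, R2_k00, R2_k01, R2_k10, R2_k11, mH, mV, Matrix.cons_val_zero,
      Matrix.cons_val_one, Real.cos_neg, Real.sin_neg]
    linear_combination -(1 / 2) * h
  · simp only [Fin.zero_eta, Fin.mk_one, Fin.isValue, R2_k00, R2_k01, R2_k10, R2_k11, mH, mV, Matrix.cons_val_zero,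
      Matrix.cons_val_one, Real.cos_neg, Real.sin_neg]
    ring

private theorem R2_rH {n : ℤ} {v : H} (hv : Smooth π v) (hn : IsWeight π n v) (θ : ℝ) :
    π.r (kk θ) (dX π mH v) = Complex.exp ((n : ℂ) * θ * Complex.I) •
      (((Real.cos (2 * θ) : ℝ) : ℂ) • dX π mH v + ((Real.sin (2 * θ) : ℝ) : ℂ) • dX π mV v) := by
  rw [dX_conj π mH hv, R2_H, hn θ, dX_add, dX_smul, dX_smul, dX_vsmul π _ _ hv, dX_vsmul π _ _ hv]
  module

private theorem R2_rV {n : ℤ} {v : H} (hv : Smooth π v) (hn : IsWeight π n v) (θ : ℝ) :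
    π.r (kk θ) (dX π mV v) = Complex.exp ((n : ℂ) * θ * Complex.I) •
      ((-((Real.sin (2 * θ) : ℝ) : ℂ)) • dX π mH v + ((Real.cos (2 * θ) : ℝ) : ℂ) • dX π mV v) := by
  rw [dX_conj π mV hv, R2_V, hn θ, dX_add, dX_smul, dX_smul, dX_vsmul π _ _ hv, dX_vsmul π _ _ hv,
    Complex.ofReal_neg]
  module

theorem weight_up {n : ℤ} {v : H} (hv : Smooth π v) (hn : IsWeight π n v) : IsWeight π (n + 2) (up π v) := by
  intro θ
  have e1 : Complex.exp (((n + 2 : ℤ) : ℂ) * θ * Complex.I) = Complex.exp ((n : ℂ) * θ * Complex.I) *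
      (((Real.cos (2 * θ) : ℝ) : ℂ) + ((Real.sin (2 * θ) : ℝ) : ℂ) * Complex.I) := by
    rw [Complex.ofReal_cos, Complex.ofReal_sin, ← Complex.exp_mul_I, ← Complex.exp_add]
    refine congrArg Complex.exp ?_
    push_cast
    ring
  rw [e1]
  unfold up
  rw [map_smul, map_sub, map_smul, R2_rH π hv hn, R2_rV π hv hn]
  have hI := Complex.I_mul_I
  match_scalars
  · ring
  · push_cast
    linear_combination (1 / 2 * Complex.exp ((n : ℂ) * θ * Complex.I) * Complex.sin (2 * θ)) * hI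

theorem weight_dn {n : ℤ} {v : H} (hv : Smooth π v) (hn : IsWeight π n v) : IsWeight π (n - 2) (dn π v) := by
  intro θ
  have e1 : Complex.exp (((n - 2 : ℤ) : ℂ) * θ * Complex.I) = Complex.exp ((n : ℂ) * θ * Complex.I) *
      (((Real.cos (2 * θ) : ℝ) : ℂ) - ((Real.sin (2 * θ) : ℝ) : ℂ) * Complex.I) := by
    have e2 : ((Real.cos (2 * θ) : ℝ) : ℂ) - ((Real.sin (2 * θ) : ℝ) : ℂ) * Complex.I =
        Complex.cos (-(2 * θ)) + Complex.sin (-(2 * θ)) * Complex.I := by
      rw [Complex.cos_neg, Complex.sin_neg]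
      push_cast
      ring
    rw [e2, ← Complex.exp_mul_I, ← Complex.exp_add]
    refine congrArg Complex.exp ?_
    push_cast
    ring
  rw [e1]
  unfold dn
  rw [map_smul, map_add, map_smul, R2_rH π hv hn, R2_rV π hv hn]
  have hI := Complex.I_mul_I
  match_scalars
  · ring
  · push_cast
    linear_combination (1 / 2 * Complex.exp ((n : ℂ) * θ * Complex.I) * Complex.sin (2 * θ)) * hI

theorem up_dn_skew {v w : H} (hv : Smooth π v) (hw : Smooth π w) : inner ℂ (up π v) w = -inner ℂ v (dn π w) := by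
  have tH : mH 0 0 + mH 1 1 = 0 := by
    simp [mH]
  have tV : mV 0 0 + mV 1 1 = 0 := by
    simp [mV]
  have hH := dX_skew π tH hv hw
  have hV := dX_skew π tV hv hw
  unfold up dn
  rw [inner_smul_left, inner_sub_left, inner_smul_left, hH, hV, inner_smul_right, inner_add_right,
    inner_smul_right, Complex.conj_I, map_div₀, map_one, Complex.conj_ofNat]
  ring

private theorem R2_lin (X : Fin 2 → Fin 2 → ℝ) {a b : H} (ha : Smooth π a) (hb : Smooth π b) (c d : ℂ) :
    dX π X (d • (a + c • b)) = d • (dX π X a + c • dX π X b) := by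
  rw [dX_vsmul π X d (smooth_add π ha (smooth_smul π c hb)), dX_vadd π X ha (smooth_smul π c hb),
    dX_vsmul π X c hb]

theorem up_dn_comm {n : ℤ} {v : H} (hv : Smooth π v) (hn : IsWeight π n v) :
    up π (dn π v) - dn π (up π v) = ((n : ℂ) / 4) • v := by
  have ha := smooth_dX π mH hv
  have hb := smooth_dX π mV hv
  have h1 := dX_comm π hv
  rw [dX_mK π hv hn, sub_eq_iff_eq_add] at h1
  have e1 : up π (dn π v) = (1 / 2 : ℂ) • ((1 / 2 : ℂ) • (dX π mH (dX π mH v) + Complex.I • dX π mH (dX π mV v)) -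
      Complex.I • (1 / 2 : ℂ) • (dX π mV (dX π mH v) + Complex.I • dX π mV (dX π mV v))) := by
    rw [← R2_lin π mH ha hb, ← R2_lin π mV ha hb]
    rfl
  have e2 : dn π (up π v) = (1 / 2 : ℂ) • ((1 / 2 : ℂ) • (dX π mH (dX π mH v) + (-Complex.I) • dX π mH (dX π mV v)) +
      Complex.I • (1 / 2 : ℂ) • (dX π mV (dX π mH v) + (-Complex.I) • dX π mV (dX π mV v))) := by
    rw [← R2_lin π mH ha hb, ← R2_lin π mV ha hb, ← R2_up]
    rfl
  rw [e1, e2, h1]
  have hI := Complex.I_mul_I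
  match_scalars
  · ring
  · linear_combination (-(n : ℂ) / 4) * hI
  · ring
  · ring

theorem mH_eq (v : H) : dX π mH v = up π v + dn π v := by
  unfold up dn
  module

theorem mV_eq (v : H) : dX π mV v = Complex.I • (up π v - dn π v) := by
  unfold up dn
  have hI := Complex.I_mul_I
  match_scalars
  · linear_combination hI
  · ring

end MPku
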