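import Mathlib

/-!
# R5: the normalising constants of a string of weights (elementary)

JOB R5. `Str S s p q`: `S` is a set of integers of one parity, closed under `n ↦ n + 2`; `p n`, `q n` are the coefficients of the raising and lowering operators.
* sequences on `ℤ`: for `a : ℤ → ℂ` without zeros there is `f : ℤ → ℂ` with `f 0 = 1`, `f (j + 1) = a j * f j` for all `j` (products over `range`; for negative `j` inverse products). If `S = ∅` take `c = 0`. Otherwise fix `n0 ∈ S` and let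
  `a j = p (n0 + 2j) * 4 / (1 + s + (n0 + 2 j))` if `n0 + 2j ∈ S`, `1` otherwise; `c (n0 + 2j) = f j` if `n0 + 2j ∈ S`, and `c n = 0` for `n ∉ S`. For `n ∈ S` the number `1 + s + n` is not `0`: `‖p n‖^2 = ((n+1)^2 - s^2)/16 ≠ 0`.
  So `c (n+2) (1 + s + n) / 4 = c n p n` for `n ∈ S`; for `n ∉ S`: `c n = 0` and either `n + 2 ∉ S` or (`low` for `n + 2`) `1 + s + n = 0`.
* the relation with `q`: for `n ∈ S`, `n - 2 ∈ S`: `q n = -star (p (n-2))`, `c n = c (n-2) p (n-2) 4 / (s + n - 1)`, `c n q n = - c (n-2) ‖p (n-2)‖^2 4 / (s + n - 1) = - c (n-2) ((n-1)^2 - s^2) / (4 (s + n - 1)) = c (n-2) (1 + s - n)/4`.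
  For `n ∈ S`, `n - 2 ∉ S`: `q n = 0`, `c (n-2) = 0`. For `n ∉ S`: `n - 2 ∉ S` because `S` is closed upwards.
* `‖c (n+2)‖^2 / ‖c n‖^2 = 16 ‖p n‖^2 / |1 + s + n|^2 = ((n+1)^2 - s^2) / |n + 1 + s|^2`. If `s.re = 0`: it is `1`, `‖c n‖` is constant on `S`. If `s` is real, `s = -τ ≤ 0`, `m = n + 1`: it is `(m + τ)/(m - τ)` (positive).
  Lower bound for `n ≥ 1`: here `m ≥ 2 > 0`, and `m > τ` (since `m^2 > τ^2`), `(m + τ)/(m - τ) ≥ ((m + 2)/m)^τ` (`log ((1+x)/(1-x)) ≥ 2 x` for `0 ≤ x < 1`, `log (1 + 2/m) ≤ 2/m`), so `‖c n‖^2 / (n + 1)^τ` is nondecreasing along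
  `n, n + 2, ...` for `n ≥ 1`: `‖c n‖^2 ≥ κ (n+1)^τ ≥ κ n^τ` with `κ` from the smallest element `≥ 1` of `S`.
  Upper bound (polynomial) in both directions: for `m ≥ 2 τ + 2`: `(m + τ)/(m - τ) ≤ 1 + 4 τ / m ≤ (1 + 2/m)^r`, `r = max 1 (2τ)` (Bernoulli) so `‖c n‖^2 / (n+1)^r` is nonincreasing for large `n`; for `m ≤ -(2 τ + 2)`, `M = |m|`:
  `‖c n‖^2 / ‖c (n+2)‖^2 = (m - τ)/(m + τ) = (M + τ)/(M - τ) ≤ (1 + 2/M)^r`, the same for `n → -∞`.
* `‖p n‖ ≤ C (1 + |n|)` from `sq`, `‖q n‖` from `adj` (for `n - 2 ∉ S`: `q n = 0`).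
-/

set_option autoImplicit false

namespace MPku

/-- The coefficients of the raising and lowering operators on a string of weights. -/
structure Str (S : Set ℤ) (s : ℂ) (p q : ℤ → ℂ) : Prop where
  closed : ∀ n ∈ S, n + 2 ∈ S
  parity : ∀ n ∈ S, ∀ m ∈ S, Even (n - m)
  ne : ∀ n ∈ S, p n ≠ 0
  sq : ∀ n ∈ S, ((‖p n‖ ^ 2 : ℝ) : ℂ) = (((n : ℂ) + 1) ^ 2 - s ^ 2) / 16
  adj : ∀ n ∈ S, q (n + 2) = -star (p n)
  zero : ∀ n, n ∉ S → p n = 0 ∧ q n = 0
  low : ∀ n ∈ S, n - 2 ∉ S → q n = 0 ∧ 1 + s + ((n : ℂ) - 2) = 0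
  sgn : (s.im = 0 ∧ s.re ≤ 0) ∨ s.re = 0

private theorem r5_seq (a : ℤ → ℂ) (ha : ∀ j, a j ≠ 0) :
    ∃ f : ℤ → ℂ, (∀ j, f j ≠ 0) ∧ ∀ j, f (j + 1) = a j * f j := by
  obtain ⟨f, hf⟩ : ∃ f : ℤ → ℂ, ∀ j, f j = if 0 ≤ j then ∏ i ∈ Finset.range j.toNat, a (i : ℤ) else
      ∏ i ∈ Finset.range (-j).toNat, (a (-((i : ℤ) + 1)))⁻¹ := ⟨_, fun _ => rfl⟩
  have hp : ∀ m : ℕ, f m = ∏ i ∈ Finset.range m, a (i : ℤ) := fun m => by
    rw [hf, if_pos (by omega), Int.toNat_natCast]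
  have hn : ∀ m : ℕ, f (-(m : ℤ)) = ∏ i ∈ Finset.range m, (a (-((i : ℤ) + 1)))⁻¹ := fun m => by
    rcases Nat.eq_zero_or_pos m with h0 | h0
    · rw [h0, hf, if_pos (by norm_num)]
      simp
    · rw [hf, if_neg (by omega), neg_neg, Int.toNat_natCast]
  refine ⟨f, fun j => ?_, fun j => ?_⟩
  · rw [hf]
    split_ifs
    · exact Finset.prod_ne_zero_iff.2 fun i _ => ha _
    · exact Finset.prod_ne_zero_iff.2 fun i _ => inv_ne_zero (ha _)
  · rcases lt_or_ge j 0 with hj | hj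
    · obtain ⟨m, rfl⟩ : ∃ m : ℕ, j = -((m + 1 : ℕ) : ℤ) := ⟨(-j - 1).toNat, by omega⟩
      have e1 : -((m + 1 : ℕ) : ℤ) + 1 = -(m : ℤ) := by omega
      have e2 : -((m + 1 : ℕ) : ℤ) = -((m : ℤ) + 1) := by omega
      rw [e1, hn, hn, Finset.prod_range_succ, e2, mul_comm (∏ i ∈ Finset.range m, (a (-((i : ℤ) + 1)))⁻¹),
        mul_inv_cancel_left₀ (ha _)]
    · obtain ⟨m, rfl⟩ := Int.eq_ofNat_of_zero_le hj
      have e1 : (m : ℤ) + 1 = ((m + 1 : ℕ) : ℤ) := by omega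
      rw [e1, hp, hp, Finset.prod_range_succ, mul_comm]

private theorem r5_sq {S : Set ℤ} {s : ℂ} {p q : ℤ → ℂ} (h : Str S s p q) {n : ℤ} (hn : n ∈ S) :
    16 * ((‖p n‖ ^ 2 : ℝ) : ℂ) = ((n : ℂ) + 1 - s) * (1 + s + n) := by
  rw [h.sq n hn]
  ring

private theorem r5_ne {S : Set ℤ} {s : ℂ} {p q : ℤ → ℂ} (h : Str S s p q) {n : ℤ} (hn : n ∈ S) :
    1 + s + (n : ℂ) ≠ 0 := by
  intro h0
  have h1 := r5_sq h hn
  rw [h0, mul_zero] at h1
  have h2 : ((‖p n‖ ^ 2 : ℝ) : ℂ) = 0 := by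
    linear_combination (1 / 16 : ℂ) * h1
  have h3 : ‖p n‖ ^ 2 = 0 := by exact_mod_cast h2
  have h4 : ‖p n‖ = 0 := by
    rwa [sq_eq_zero_iff] at h3
  exact h.ne n hn (norm_eq_zero.1 h4)

private theorem r5_c {S : Set ℤ} {s : ℂ} {p q : ℤ → ℂ} (h : Str S s p q) (n0 : ℤ) (hn0 : n0 ∈ S) :
    ∃ c : ℤ → ℂ, (∀ n ∈ S, c n ≠ 0) ∧ (∀ n, n ∉ S → c n = 0) ∧ (∀ n, c n * p n = (1 + s + n) / 4 * c (n + 2)) ∧
      ∀ n, c n * q n = (1 + s - n) / 4 * c (n - 2) := by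
  classical
  obtain ⟨f, hf0, hf⟩ := r5_seq (fun j => if n0 + 2 * j ∈ S then p (n0 + 2 * j) * 4 / (1 + s + ((n0 + 2 * j : ℤ) : ℂ)) else 1) (by
    intro j
    split_ifs with hj
    · exact div_ne_zero (mul_ne_zero (h.ne _ hj) (by norm_num)) (r5_ne h hj)
    · exact one_ne_zero)
  obtain ⟨c, hc⟩ : ∃ c : ℤ → ℂ, ∀ n, c n = if n ∈ S then f ((n - n0) / 2) else 0 := ⟨_, fun _ => rfl⟩
  have hcS : ∀ n ∈ S, c n = f ((n - n0) / 2) := fun n hn => by rw [hc, if_pos hn]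
  have hcN : ∀ n, n ∉ S → c n = 0 := fun n hn => by rw [hc, if_neg hn]
  have h2 : ∀ n, c n * p n = (1 + s + n) / 4 * c (n + 2) := by
    intro n
    by_cases hn : n ∈ S
    · have hn2 := h.closed n hn
      obtain ⟨t, ht⟩ := h.parity n hn n0 hn0
      have e0 : n = n0 + 2 * t := by omega
      have e1 : (n - n0) / 2 = t := by omega
      have e2 : (n + 2 - n0) / 2 = t + 1 := by omega
      have hne := r5_ne h hn
      rw [hcS n hn, hcS _ hn2, e1, e2, hf, if_pos (by rw [← e0]; exact hn), ← e0]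
      field_simp
    · rw [hcN n hn, zero_mul]
      by_cases hn2 : n + 2 ∈ S
      · have h3 := (h.low (n + 2) hn2 (by rw [add_sub_cancel_right]; exact hn)).2
        have h4 : 1 + s + (n : ℂ) = 0 := by
          rw [← h3]
          push_cast
          ring
        rw [h4, zero_div, zero_mul]
      · rw [hcN _ hn2, mul_zero]
  refine ⟨c, fun n hn => ?_, hcN, h2, ?_⟩
  · rw [hcS n hn]
    exact hf0 _
  · intro n
    by_cases hn : n ∈ S
    · by_cases hn2 : n - 2 ∈ S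
      · have h3 := h2 (n - 2)
        have h4 := r5_ne h hn2
        have h5 := r5_sq h hn2
        have h6 := h.adj (n - 2) hn2
        rw [sub_add_cancel] at h3 h6
        rw [h6]
        have h7 : p (n - 2) * star (p (n - 2)) = ((‖p (n - 2)‖ ^ 2 : ℝ) : ℂ) := by
          rw [Complex.star_def, Complex.mul_conj, Complex.normSq_eq_norm_sq]
        rw [← h7] at h5
        push_cast at h3 h4 h5
        refine mul_left_cancel₀ h4 ?_
        linear_combination (-4 * star (p (n - 2))) * (-1 * h3) + (-1 / 4 * c (n - 2)) * h5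
      · rw [(h.low n hn hn2).1, hcN _ hn2, mul_zero, mul_zero]
    · have hn2 : n - 2 ∉ S := fun h3 => hn (by
        have h4 := h.closed _ h3
        rwa [sub_add_cancel] at h4)
      rw [hcN n hn, hcN _ hn2, mul_zero, zero_mul]

/-- The relation between the norms. -/
private theorem r5_rel {S : Set ℤ} {s : ℂ} {p q : ℤ → ℂ} (h : Str S s p q) {c : ℤ → ℂ}
    (h2 : ∀ n, c n * p n = (1 + s + n) / 4 * c (n + 2)) {n : ℤ} (hn : n ∈ S) :
    ‖c (n + 2)‖ ^ 2 * ((n : ℝ) + 1 - -s.re) = ‖c n‖ ^ 2 * ((n : ℝ) + 1 + -s.re) := by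
  have h3 := congrArg (fun z : ℂ => ‖z‖ ^ 2) (h2 n)
  simp only [norm_mul, norm_div, mul_pow, div_pow] at h3
  have h4 := r5_ne h hn
  have h5 : ‖1 + s + (n : ℂ)‖ ^ 2 = ((n : ℝ) + 1 + s.re) ^ 2 + s.im ^ 2 := by
    rw [← Complex.normSq_eq_norm_sq, Complex.normSq_apply]
    simp only [Complex.add_re, Complex.one_re, Complex.intCast_re, Complex.add_im, Complex.one_im, Complex.intCast_im]
    ring
  have h6 : 16 * ‖p n‖ ^ 2 = ((n : ℝ) + 1) ^ 2 - s.re ^ 2 + s.im ^ 2 := by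
    have h7 := congrArg Complex.re (h.sq n hn)
    rw [Complex.ofReal_re] at h7
    have h8 : ((((n : ℂ) + 1) ^ 2 - s ^ 2) / 16).re = (((n : ℝ) + 1) ^ 2 - (s.re ^ 2 - s.im ^ 2)) / 16 := by
      have h9 : (((n : ℂ) + 1) ^ 2 - s ^ 2) / 16 = (((n : ℂ) + 1) ^ 2 - s ^ 2) * ((1 / 16 : ℝ) : ℂ) := by
        push_cast
        ring
      rw [h9, Complex.re_mul_ofReal]
      simp only [sq, Complex.sub_re, Complex.mul_re, Complex.add_re, Complex.add_im, Complex.one_re, Complex.one_im,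
        Complex.intCast_re, Complex.intCast_im]
      ring
    rw [h8] at h7
    linarith
  have h7 : ‖(4 : ℂ)‖ ^ 2 = 16 := by norm_num
  rw [h7, h5] at h3
  rcases h.sgn with ⟨hi, -⟩ | hr
  · have h8 : (n : ℝ) + 1 + s.re ≠ 0 := by
      intro h9
      apply h4
      apply Complex.ext
      · simp only [Complex.add_re, Complex.one_re, Complex.intCast_re, Complex.zero_re]
        linarith
      · simp only [Complex.add_im, Complex.one_im, Complex.intCast_im, Complex.zero_im]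
        linarith
    rw [hi] at h3 h6
    refine mul_right_cancel₀ h8 ?_
    linear_combination 16 * (-1 * h3) + ‖c n‖ ^ 2 * h6
  · have h8 : 0 < ‖1 + s + (n : ℂ)‖ ^ 2 := by positivity
    rw [h5, hr] at h8
    rw [hr] at h3 h6 ⊢
    have h9 : ‖c (n + 2)‖ ^ 2 = ‖c n‖ ^ 2 := by
      refine mul_right_cancel₀ h8.ne' ?_
      linear_combination 16 * (-1 * h3) + ‖c n‖ ^ 2 * h6
    rw [h9]
    ring

private theorem r5_pos {S : Set ℤ} {s : ℂ} {p q : ℤ → ℂ} (h : Str S s p q) {n : ℤ} (hn : n ∈ S) (h1 : 1 ≤ n) :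
    -s.re < (n : ℝ) + 1 := by
  have hn1 : (1 : ℝ) ≤ n := by exact_mod_cast h1
  rcases h.sgn with ⟨hi, hr⟩ | hr
  · have h7 := congrArg Complex.re (h.sq n hn)
    rw [Complex.ofReal_re] at h7
    have h8 : ((((n : ℂ) + 1) ^ 2 - s ^ 2) / 16).re = (((n : ℝ) + 1) ^ 2 - (s.re ^ 2 - s.im ^ 2)) / 16 := by
      have h9 : (((n : ℂ) + 1) ^ 2 - s ^ 2) / 16 = (((n : ℂ) + 1) ^ 2 - s ^ 2) * ((1 / 16 : ℝ) : ℂ) := by
        push_cast
        ring
      rw [h9, Complex.re_mul_ofReal]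
      simp only [sq, Complex.sub_re, Complex.mul_re, Complex.add_re, Complex.add_im, Complex.one_re, Complex.one_im,
        Complex.intCast_re, Complex.intCast_im]
      ring
    rw [h8, hi] at h7
    have h9 : 0 < ‖p n‖ ^ 2 := by
      have := norm_pos_iff.2 (h.ne n hn)
      positivity
    by_contra h10
    push Not at h10
    have h11 : ((n : ℝ) + 1) ^ 2 ≤ (-s.re) ^ 2 := pow_le_pow_left₀ (by linarith) h10 2
    have h12 : (-s.re) ^ 2 = s.re ^ 2 := by ring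
    rw [h12] at h11
    linarith
  · rw [hr]
    linarith

private theorem r5_low {S : Set ℤ} {s : ℂ} {p q : ℤ → ℂ} (h : Str S s p q) {n : ℤ} (hn : n ∉ S) (h2 : n + 2 ∈ S) :
    (n : ℝ) + 1 = -s.re := by
  have h3 := (h.low (n + 2) h2 (by rw [add_sub_cancel_right]; exact hn)).2
  have h4 := congrArg Complex.re h3
  simp only [Complex.add_re, Complex.one_re, Complex.intCast_re, Complex.zero_re, Complex.sub_re, Complex.re_ofNat] at h4
  push_cast at h4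
  linarith

/-- `(m + τ) / (m - τ) ≥ ((m + 2) / m) ^ τ`. -/
private theorem r5_log {m τ : ℝ} (hm : 0 < m) (h0 : 0 ≤ τ) (h1 : τ < m) :
    (m + 2) ^ τ * (m - τ) ≤ m ^ τ * (m + τ) := by
  have hx0 : 0 ≤ τ / m := by positivity
  have hx1 : τ / m < 1 := (div_lt_one hm).2 h1
  have h2 : 2 * (τ / m) ≤ Real.log (1 + τ / m) - Real.log (1 - τ / m) := by
    have h3 := Real.hasSum_log_sub_log_of_abs_lt_one (x := τ / m) (by rw [abs_of_nonneg hx0]; exact hx1)
    have h4 := sum_le_hasSum {0} (fun i _ => by positivity) h3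
    simp only [Finset.sum_singleton] at h4
    norm_num at h4
    linarith
  have h5 : Real.log ((m + 2) / m) ≤ 2 / m := by
    have h6 := Real.log_le_sub_one_of_pos (show 0 < (m + 2) / m by positivity)
    have h7 : (m + 2) / m - 1 = 2 / m := by
      field_simp
      ring
    linarith
  have h8 : τ * Real.log ((m + 2) / m) ≤ Real.log (1 + τ / m) - Real.log (1 - τ / m) := by
    refine (mul_le_mul_of_nonneg_left h5 h0).trans (le_trans (le_of_eq ?_) h2)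
    ring
  rw [← Real.log_div (by linarith) (by linarith), ← Real.log_rpow (by positivity)] at h8
  have h9 : (0 : ℝ) < 1 - τ / m := by linarith
  have h10 : ((m + 2) / m) ^ τ ≤ (1 + τ / m) / (1 - τ / m) :=
    (Real.log_le_log_iff (by positivity) (by positivity)).1 h8
  rw [Real.div_rpow (by linarith) hm.le, le_div_iff₀ h9] at h10
  have hmt : 0 < m ^ τ := Real.rpow_pos_of_pos hm τ
  have h11 := mul_le_mul_of_nonneg_left h10 (show 0 ≤ m * m ^ τ by positivity)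
  have e1 : m * m ^ τ * ((m + 2) ^ τ / m ^ τ * (1 - τ / m)) = (m + 2) ^ τ * (m - τ) := by
    field_simp
  have e2 : m * m ^ τ * (1 + τ / m) = m ^ τ * (m + τ) := by
    field_simp
  rw [e1, e2] at h11
  exact h11

/-- Polynomial growth. -/
private theorem r5_grow (u : ℕ → ℝ) (hu : ∀ n, 0 ≤ u n) {τ : ℝ} (hτ : 0 ≤ τ) (N r : ℕ) (hN : 2 * τ ≤ N) (hr : 2 * τ ≤ r)
    (h : ∀ n, N ≤ n → u (n + 2) * ((n : ℝ) + 1 - τ) ≤ u n * ((n : ℝ) + 1 + τ)) :
    ∃ D : ℝ, 0 ≤ D ∧ ∀ n, u n ≤ D * ((n : ℝ) + 1) ^ r := by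
  have hD0 : 0 ≤ ∑ i ∈ Finset.range (N + 2), u i := Finset.sum_nonneg fun i _ => hu i
  refine ⟨∑ i ∈ Finset.range (N + 2), u i, hD0, ?_⟩
  intro n
  induction n using Nat.strong_induction_on with
  | _ n ih =>
    rcases Nat.lt_or_ge n (N + 2) with hn | hn
    · have h1 : u n ≤ ∑ i ∈ Finset.range (N + 2), u i :=
        Finset.single_le_sum (f := u) (fun i _ => hu i) (Finset.mem_range.2 hn)
      have h2 : (1 : ℝ) ≤ ((n : ℝ) + 1) ^ r := one_le_pow₀ (by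
        have : (0 : ℝ) ≤ n := Nat.cast_nonneg n
        linarith)
      calc u n ≤ (∑ i ∈ Finset.range (N + 2), u i) * 1 := by rw [mul_one]; exact h1
        _ ≤ _ := mul_le_mul_of_nonneg_left h2 hD0
    · obtain ⟨m, rfl⟩ := Nat.exists_eq_add_of_le' (show 2 ≤ n by omega)
      have h3 := ih m (by omega)
      have h4 := h m (by omega)
      have h5 : (N : ℝ) ≤ m := by exact_mod_cast (by omega : N ≤ m)
      have hM : (0 : ℝ) < (m : ℝ) + 1 - τ := by linarith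
      have hM0 : (0 : ℝ) < (m : ℝ) + 1 := by linarith
      -- Bernoulli
      have h6 : ((m : ℝ) + 1) ^ r * ((m : ℝ) + 1 + τ) ≤ ((m : ℝ) + 1 + 2) ^ r * ((m : ℝ) + 1 - τ) := by
        have h7 : 1 + (r : ℝ) * (2 / ((m : ℝ) + 1)) ≤ (1 + 2 / ((m : ℝ) + 1)) ^ r :=
          one_add_mul_le_pow (by have : 0 < 2 / ((m : ℝ) + 1) := by positivity
                                 linarith) r
        have h8 : (1 + 2 / ((m : ℝ) + 1)) ^ r = ((m : ℝ) + 1 + 2) ^ r / ((m : ℝ) + 1) ^ r := by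
          rw [← div_pow]
          congr 1
          field_simp
        rw [h8, le_div_iff₀ (by positivity)] at h7
        have h9 : (m : ℝ) + 1 + τ ≤ (1 + (r : ℝ) * (2 / ((m : ℝ) + 1))) * ((m : ℝ) + 1 - τ) := by
          have h10 : 2 * τ / ((m : ℝ) + 1) * (2 * ((m : ℝ) + 1 - τ)) ≤ (r : ℝ) * (2 / ((m : ℝ) + 1)) * ((m : ℝ) + 1 - τ) := by
            have h11 : 2 * τ / ((m : ℝ) + 1) * (2 * ((m : ℝ) + 1 - τ)) = 2 * τ * (2 / ((m : ℝ) + 1) * ((m : ℝ) + 1 - τ)) := by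
              ring
            rw [h11]
            calc 2 * τ * (2 / ((m : ℝ) + 1) * ((m : ℝ) + 1 - τ)) ≤ (r : ℝ) * (2 / ((m : ℝ) + 1) * ((m : ℝ) + 1 - τ)) :=
                  mul_le_mul_of_nonneg_right hr (mul_nonneg (by positivity) hM.le)
              _ = _ := by ring
          have h12 : 2 * τ ≤ 2 * τ / ((m : ℝ) + 1) * (2 * ((m : ℝ) + 1 - τ)) := by
            rw [div_mul_eq_mul_div, le_div_iff₀ hM0]
            exact mul_le_mul_of_nonneg_left (by linarith) (by linarith)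
          linarith
        calc ((m : ℝ) + 1) ^ r * ((m : ℝ) + 1 + τ) ≤
            ((m : ℝ) + 1) ^ r * ((1 + (r : ℝ) * (2 / ((m : ℝ) + 1))) * ((m : ℝ) + 1 - τ)) :=
              mul_le_mul_of_nonneg_left h9 (by positivity)
          _ = ((1 + (r : ℝ) * (2 / ((m : ℝ) + 1))) * ((m : ℝ) + 1) ^ r) * ((m : ℝ) + 1 - τ) := by ring
          _ ≤ _ := mul_le_mul_of_nonneg_right h7 hM.le
      have h13 : u (m + 2) * ((m : ℝ) + 1 - τ) ≤
          ((∑ i ∈ Finset.range (N + 2), u i) * ((m : ℝ) + 1 + 2) ^ r) * ((m : ℝ) + 1 - τ) := by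
        calc u (m + 2) * ((m : ℝ) + 1 - τ) ≤ u m * ((m : ℝ) + 1 + τ) := h4
          _ ≤ ((∑ i ∈ Finset.range (N + 2), u i) * ((m : ℝ) + 1) ^ r) * ((m : ℝ) + 1 + τ) :=
            mul_le_mul_of_nonneg_right h3 (by linarith)
          _ = (∑ i ∈ Finset.range (N + 2), u i) * (((m : ℝ) + 1) ^ r * ((m : ℝ) + 1 + τ)) := by ring
          _ ≤ (∑ i ∈ Finset.range (N + 2), u i) * (((m : ℝ) + 1 + 2) ^ r * ((m : ℝ) + 1 - τ)) :=
            mul_le_mul_of_nonneg_left h6 hD0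
          _ = _ := by ring
      have h14 := le_of_mul_le_mul_right h13 hM
      refine h14.trans (le_of_eq ?_)
      push_cast
      ring

/-- Lower bound. -/
private theorem r5_inf (w : ℕ → ℝ) (hw : ∀ n, 0 < w n) (N : ℕ) (h : ∀ n, N ≤ n → w n ≤ w (n + 2)) :
    ∃ κ : ℝ, 0 < κ ∧ ∀ n, κ ≤ w n := by
  have h1 : ∀ K : ℕ, ∃ κ : ℝ, 0 < κ ∧ ∀ n, n < K → κ ≤ w n := by
    intro K
    induction K with
    | zero => exact ⟨1, one_pos, fun n hn => absurd hn (by omega)⟩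
    | succ K ih =>
      obtain ⟨κ, hκ, h2⟩ := ih
      refine ⟨min κ (w K), lt_min hκ (hw K), fun n hn => ?_⟩
      rcases Nat.lt_or_ge n K with h3 | h3
      · exact (min_le_left _ _).trans (h2 n h3)
      · have h4 : n = K := by omega
        rw [h4]
        exact min_le_right _ _
  obtain ⟨κ, hκ, h2⟩ := h1 (N + 2)
  refine ⟨κ, hκ, fun n => ?_⟩
  induction n using Nat.strong_induction_on with
  | _ n ih =>
    rcases Nat.lt_or_ge n (N + 2) with hn | hn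
    · exact h2 n hn
    · obtain ⟨m, rfl⟩ := Nat.exists_eq_add_of_le' (show 2 ≤ n by omega)
      exact (ih m (by omega)).trans (h m (by omega))

private theorem r5_p {S : Set ℤ} {s : ℂ} {p q : ℤ → ℂ} (h : Str S s p q) (n : ℤ) :
    ‖p n‖ ≤ (1 + ‖s‖) * (1 + |(n : ℝ)|) := by
  have hs := norm_nonneg s
  have hn := abs_nonneg (n : ℝ)
  by_cases hS : n ∈ S
  · have h1 := congrArg (fun z : ℂ => ‖z‖) (h.sq n hS)
    simp only [Complex.norm_real, norm_div, Real.norm_eq_abs, abs_pow, abs_norm] at h1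
    have h2 : ‖((n : ℂ) + 1) ^ 2 - s ^ 2‖ ≤ (|(n : ℝ)| + 1) ^ 2 + ‖s‖ ^ 2 := by
      refine (norm_sub_le _ _).trans (add_le_add ?_ (le_of_eq (norm_pow s 2)))
      rw [norm_pow]
      refine pow_le_pow_left₀ (norm_nonneg _) ?_ 2
      refine (norm_add_le _ _).trans (le_of_eq ?_)
      rw [norm_one, Complex.norm_intCast]
    have h3 : ‖(16 : ℂ)‖ = 16 := by norm_num
    rw [h3] at h1
    have h4 : ‖p n‖ ^ 2 ≤ ((1 + ‖s‖) * (1 + |(n : ℝ)|)) ^ 2 := by
      have h5 : ‖p n‖ ^ 2 ≤ (|(n : ℝ)| + 1) ^ 2 + ‖s‖ ^ 2 := by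
        have h6 := norm_nonneg (((n : ℂ) + 1) ^ 2 - s ^ 2)
        linarith
      refine h5.trans ?_
      have h7 : ((1 + ‖s‖) * (1 + |(n : ℝ)|)) ^ 2 = (|(n : ℝ)| + 1) ^ 2 + ‖s‖ ^ 2 +
          (2 * ‖s‖ * (|(n : ℝ)| + 1) ^ 2 + ‖s‖ ^ 2 * (|(n : ℝ)| ^ 2 + 2 * |(n : ℝ)|)) := by ring
      rw [h7]
      have h8 : 0 ≤ 2 * ‖s‖ * (|(n : ℝ)| + 1) ^ 2 + ‖s‖ ^ 2 * (|(n : ℝ)| ^ 2 + 2 * |(n : ℝ)|) := by positivity
      linarith
    exact (pow_le_pow_iff_left₀ (norm_nonneg _) (by positivity) two_ne_zero).1 h4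
  · rw [(h.zero n hS).1, norm_zero]
    positivity

theorem Str.exists_c {S : Set ℤ} {s : ℂ} {p q : ℤ → ℂ} (h : Str S s p q) : ∃ (c : ℤ → ℂ) (κ C : ℝ) (k : ℕ), 0 < κ ∧
    (∀ n, n ∉ S → c n = 0) ∧ (∀ n, c n * p n = (1 + s + n) / 4 * c (n + 2)) ∧ (∀ n, c n * q n = (1 + s - n) / 4 * c (n - 2)) ∧
    (∀ n ∈ S, 1 ≤ n → κ * (n : ℝ) ^ (-s.re / 2) ≤ ‖c n‖) ∧ (∀ n, ‖c n‖ ≤ C * (1 + |(n : ℝ)|) ^ k) ∧
    (∀ n, ‖p n‖ ≤ C * (1 + |(n : ℝ)|)) ∧ (∀ n, ‖q n‖ ≤ C * (1 + |(n : ℝ)|)) := by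
  have hs := norm_nonneg s
  have hq : ∀ n : ℤ, ‖q n‖ ≤ 3 * (1 + ‖s‖) * (1 + |(n : ℝ)|) := by
    intro n
    have hn := abs_nonneg (n : ℝ)
    by_cases hS : n ∈ S
    · by_cases hS2 : n - 2 ∈ S
      · have h1 := h.adj (n - 2) hS2
        rw [sub_add_cancel] at h1
        rw [h1, norm_neg, norm_star]
        refine (r5_p h (n - 2)).trans ?_
        have h2 : |((n - 2 : ℤ) : ℝ)| ≤ |(n : ℝ)| + 2 := by
          push_cast
          refine (abs_sub _ _).trans (le_of_eq ?_)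
          norm_num
        have h3 : (1 + ‖s‖) * (1 + |((n - 2 : ℤ) : ℝ)|) ≤ (1 + ‖s‖) * (3 * (1 + |(n : ℝ)|)) :=
          mul_le_mul_of_nonneg_left (by linarith) (by positivity)
        linarith
      · rw [(h.low n hS hS2).1, norm_zero]
        positivity
    · rw [(h.zero n hS).2, norm_zero]
      positivity
  rcases Set.eq_empty_or_nonempty S with hS | ⟨n0, hn0⟩
  · refine ⟨fun _ => 0, 1, 3 * (1 + ‖s‖), 0, one_pos, fun _ _ => rfl, fun n => by rw [zero_mul, mul_zero],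
      fun n => by rw [zero_mul, mul_zero], fun n hn => ?_, fun n => ?_, fun n => ?_, hq⟩
    · rw [hS] at hn
      exact absurd hn (Set.notMem_empty n)
    · rw [norm_zero]
      positivity
    · rw [(h.zero n (by rw [hS]; exact Set.notMem_empty n)).1, norm_zero]
      positivity
  obtain ⟨c, hc0, hcN, h2, h3⟩ := r5_c h n0 hn0
  obtain ⟨τ, hτe⟩ : ∃ τ : ℝ, τ = -s.re := ⟨_, rfl⟩
  have hτ : 0 ≤ τ := by
    rcases h.sgn with ⟨-, h4⟩ | h4
    · rw [hτe]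
      linarith
    · rw [hτe, h4]
      norm_num
  have hrel : ∀ n ∈ S, ‖c (n + 2)‖ ^ 2 * ((n : ℝ) + 1 - τ) = ‖c n‖ ^ 2 * ((n : ℝ) + 1 + τ) := fun n hn => by
    rw [hτe]
    exact r5_rel h h2 hn
  have hlow : ∀ n : ℤ, n ∉ S → n + 2 ∈ S → (n : ℝ) + 1 = τ := fun n hn hn2 => by
    rw [hτe]
    exact r5_low h hn hn2
  obtain ⟨N, hN⟩ := exists_nat_ge (2 * τ)
  -- growth to the right
  obtain ⟨D1, hD1, hg1⟩ := r5_grow (fun n : ℕ => ‖c (n : ℤ)‖ ^ 2) (fun n => by positivity) hτ N N hN hN (by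
    intro n hn
    have hnN : (N : ℝ) ≤ n := by exact_mod_cast hn
    by_cases hS : (n : ℤ) ∈ S
    · have h4 := hrel n hS
      rw [Int.cast_natCast] at h4
      have e1 : ((n + 2 : ℕ) : ℤ) = (n : ℤ) + 2 := by push_cast; ring
      rw [e1]
      exact h4.le
    · have hS2 : ((n : ℤ) + 2) ∉ S := fun h5 => by
        have h6 := hlow n hS h5
        rw [Int.cast_natCast] at h6
        linarith
      have e1 : ((n + 2 : ℕ) : ℤ) = (n : ℤ) + 2 := by push_cast; ring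
      rw [e1, hcN _ hS2, norm_zero, hcN _ hS, norm_zero]
      norm_num)
  -- growth to the left
  obtain ⟨D2, hD2, hg2⟩ := r5_grow (fun n : ℕ => ‖c (-(n : ℤ))‖ ^ 2) (fun n => by positivity) hτ N N hN hN (by
    intro n hn
    have hnN : (N : ℝ) ≤ n := by exact_mod_cast hn
    by_cases hS : -((n + 2 : ℕ) : ℤ) ∈ S
    · have h4 := hrel _ hS
      have e1 : -((n + 2 : ℕ) : ℤ) + 2 = -(n : ℤ) := by push_cast; ring
      rw [e1] at h4
      push_cast at h4 ⊢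
      linarith
    · rw [hcN _ hS, norm_zero]
      have h5 : 0 ≤ ‖c (-(n : ℤ))‖ ^ 2 * ((n : ℝ) + 1 + τ) := by positivity
      linarith)
  -- lower bound
  have hw1 : ∀ n : ℕ, 0 < (n : ℝ) + 1 := fun n => by positivity
  obtain ⟨κ, hκ, hlb⟩ := r5_inf (fun n : ℕ => by
      classical
      exact if (n : ℤ) ∈ S then ‖c (n : ℤ)‖ ^ 2 / ((n : ℝ) + 1) ^ τ else 1) (by
    intro n
    split_ifs with hS
    · have h4 := norm_pos_iff.2 (hc0 _ hS)
      have h5 := Real.rpow_pos_of_pos (hw1 n) τ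
      positivity
    · exact one_pos) (N + 1) (by
    intro n hn
    have hnN : (N : ℝ) + 1 ≤ n := by exact_mod_cast hn
    have e1 : ((n + 2 : ℕ) : ℤ) = (n : ℤ) + 2 := by push_cast; ring
    by_cases hS : (n : ℤ) ∈ S
    · have hS2 := h.closed _ hS
      rw [if_pos hS, if_pos (by rw [e1]; exact hS2), e1]
      have h4 := hrel n hS
      rw [Int.cast_natCast] at h4
      have hlt : τ < (n : ℝ) + 1 := by linarith
      have h5 := r5_log (hw1 n) hτ hlt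
      have hp1 := Real.rpow_pos_of_pos (hw1 n) τ
      have hp2 : 0 < ((n : ℝ) + 1 + 2) ^ τ := Real.rpow_pos_of_pos (by positivity) τ
      have e2 : ((n + 2 : ℕ) : ℝ) + 1 = (n : ℝ) + 1 + 2 := by push_cast; ring
      rw [e2, div_le_div_iff₀ hp1 hp2]
      have hpos : 0 < (n : ℝ) + 1 - τ := by linarith
      refine le_of_mul_le_mul_right ?_ hpos
      calc ‖c (n : ℤ)‖ ^ 2 * ((n : ℝ) + 1 + 2) ^ τ * ((n : ℝ) + 1 - τ) =
          ‖c (n : ℤ)‖ ^ 2 * (((n : ℝ) + 1 + 2) ^ τ * ((n : ℝ) + 1 - τ)) := by ring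
        _ ≤ ‖c (n : ℤ)‖ ^ 2 * (((n : ℝ) + 1) ^ τ * ((n : ℝ) + 1 + τ)) :=
          mul_le_mul_of_nonneg_left h5 (by positivity)
        _ = (‖c (n : ℤ)‖ ^ 2 * ((n : ℝ) + 1 + τ)) * ((n : ℝ) + 1) ^ τ := by ring
        _ = _ := by
          rw [← h4]
          ring
    · have hS2 : ((n : ℤ) + 2) ∉ S := fun h5 => by
        have h6 := hlow n hS h5
        rw [Int.cast_natCast] at h6
        linarith
      rw [if_neg hS, if_neg (by rw [e1]; exact hS2)])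
  refine ⟨c, Real.sqrt κ, D1 + D2 + 1 + 3 * (1 + ‖s‖), N, Real.sqrt_pos.2 hκ, hcN, h2, h3, ?_, ?_, ?_, ?_⟩
  · intro n hn h1
    obtain ⟨m, rfl⟩ := Int.eq_ofNat_of_zero_le (show 0 ≤ n by omega)
    have hm1 : (1 : ℝ) ≤ m := by exact_mod_cast h1
    have h4 := hlb m
    rw [if_pos hn, le_div_iff₀ (Real.rpow_pos_of_pos (hw1 m) τ)] at h4
    rw [Int.cast_natCast]
    have h5 : (Real.sqrt κ * (m : ℝ) ^ (-s.re / 2)) ^ 2 ≤ ‖c (m : ℤ)‖ ^ 2 := by
      rw [mul_pow, Real.sq_sqrt hκ.le, ← Real.rpow_natCast, ← Real.rpow_mul (by linarith), ← hτe]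
      have e3 : τ / 2 * ((2 : ℕ) : ℝ) = τ := by push_cast; ring
      rw [e3]
      refine le_trans (mul_le_mul_of_nonneg_left ?_ hκ.le) h4
      exact Real.rpow_le_rpow (by linarith) (by linarith) hτ
    exact (pow_le_pow_iff_left₀ (by positivity) (norm_nonneg _) two_ne_zero).1 h5
  · intro n
    have hn := abs_nonneg (n : ℝ)
    have h4 : ‖c n‖ ^ 2 ≤ (D1 + D2) * (1 + |(n : ℝ)|) ^ N := by
      rcases le_total 0 n with h5 | h5
      · obtain ⟨m, rfl⟩ := Int.eq_ofNat_of_zero_le h5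
        have h6 := hg1 m
        rw [Int.cast_natCast, abs_of_nonneg (Nat.cast_nonneg m), add_comm 1 (m : ℝ)]
        refine h6.trans (mul_le_mul_of_nonneg_right (by linarith) (by positivity))
      · obtain ⟨m, hm⟩ := Int.eq_ofNat_of_zero_le (show 0 ≤ -n by omega)
        have hm' : n = -(m : ℤ) := by omega
        have h6 := hg2 m
        rw [hm']
        push_cast
        rw [abs_neg, abs_of_nonneg (Nat.cast_nonneg m), add_comm 1 (m : ℝ)]
        refine h6.trans (mul_le_mul_of_nonneg_right (by linarith) (by positivity))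
    have hy : (1 : ℝ) ≤ (1 + |(n : ℝ)|) ^ N := one_le_pow₀ (by linarith)
    have h5 : ‖c n‖ ^ 2 ≤ ((D1 + D2 + 1) * (1 + |(n : ℝ)|) ^ N) ^ 2 := by
      refine h4.trans ?_
      have h6 : (D1 + D2) * (1 + |(n : ℝ)|) ^ N ≤ (D1 + D2 + 1) * (1 + |(n : ℝ)|) ^ N :=
        mul_le_mul_of_nonneg_right (by linarith) (by positivity)
      have h7 : (1 : ℝ) ≤ (D1 + D2 + 1) * (1 + |(n : ℝ)|) ^ N := by
        calc (1 : ℝ) = 1 * 1 := (one_mul 1).symm
          _ ≤ _ := mul_le_mul (by linarith) hy zero_le_one (by linarith)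
      rw [pow_two]
      calc (D1 + D2) * (1 + |(n : ℝ)|) ^ N ≤ (D1 + D2 + 1) * (1 + |(n : ℝ)|) ^ N := h6
        _ = 1 * ((D1 + D2 + 1) * (1 + |(n : ℝ)|) ^ N) := (one_mul _).symm
        _ ≤ _ := mul_le_mul_of_nonneg_right h7 (by positivity)
    have h6 := (pow_le_pow_iff_left₀ (norm_nonneg _) (by positivity) two_ne_zero).1 h5
    exact h6.trans (mul_le_mul_of_nonneg_right (by linarith) (by positivity))
  · intro n
    have hn := abs_nonneg (n : ℝ)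
    exact (r5_p h n).trans (mul_le_mul_of_nonneg_right (by linarith) (by positivity))
  · intro n
    have hn := abs_nonneg (n : ℝ)
    exact (hq n).trans (mul_le_mul_of_nonneg_right (by linarith) (by positivity))

end MPku
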