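import Pool.Agent.Lib.MP_7b255b_nt.Mult
import Pool.Agent.Lib.MP_7b255b_ntU.R2
import Pool.Agent.Lib.MP_7b255b_ntU.R5

/-!
# R6: the strings of weights of an irreducible representation

JOB R6. `hI : Irred π`, `multOne hI : MultOne π`. `par` a parity.
* For every `n` choose `u n` : a smooth unit vector of weight `n` if `n ∈ wts π`, `0` otherwise. `multOne` + `weight_up`: `up (u n) = a n • u (n+2)` for a number `a n` (for `n + 2 ∉ wts` the vector `up (u n)` of weight `n + 2` is `0`; put `a n = 0`);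
  `dn (u n) = b n • u (n-2)`. `up_dn_skew` with `v = u n`, `w = u (n+2)`: `conj (a n) = - b (n+2)` (if both are in `wts`; if one is not then both sides are `0`). `up_dn_comm`: `b n a (n-2) - a n b (n+2) = n/4`, so
  `‖a n‖^2 - ‖a (n-2)‖^2 = n/4` for `n ∈ wts`.
* So for `n ∈ wts`, `n ≥ 1`: `a n ≠ 0`, `n + 2 ∈ wts`. Let `S` = the set of the `n ∈ wts`, `n ≡ par mod 2` such that all `m ≥ n`, `m ≡ n mod 2` are in `wts` with `a m ≠ 0`. `S` is closed upwards, and contains all `n ∈ wts` with `n ≥ 1`,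
  `Even (n - par)` (induction). `p = a` on `S`, `0` outside; `q = b` on `S`, but `q n = 0` if `n - 2 ∉ S`: in this case either `n - 2 ∉ wts` or `a (n - 2) = 0`, so `b n = - conj (a (n-2)) = 0` anyway; `q n = 0` outside `S`. `e = u` on `S`, `0` outside.
* `16 ‖a n‖^2 - (n+1)^2` does not depend on `n ∈ S` (`16 · n/4 = 4 n = (n+1)^2 - (n-1)^2`): call it `-s2`. If `S = ∅` take `s = 0`. `s = -√s2` if `s2 ≥ 0`, `s = i √(-s2)` otherwise: `s^2 = s2`.
* `low`: `n ∈ S`, `n - 2 ∉ S`: `b n = 0`, so `‖a n‖^2 = n/4` (with `a (n-2)` replaced by `0`), hence `s2 = (n+1)^2 - 4 n = (n-1)^2` and `n > 0` (`a n ≠ 0`), so `s = -|n - 1| = 1 - n` and `1 + s + (n - 2) = 0`.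
* the formulas for `dX mH (e n)`, `dX mV (e n)`: `mH_eq`, `mV_eq`; for `n ∈ S` with `n - 2 ∉ S` the term `q n • e (n-2)` is `0` and `dn (u n) = b n • u (n-2) = 0`. For `n ∉ S` `e n = 0` (`dX_vsmul` with `c = 0`).
-/

set_option autoImplicit false

namespace MPku

open MPkt

variable {H : Type*} [NormedAddCommGroup H] [InnerProductSpace ℂ H] [CompleteSpace H] {π : URep H}

private theorem r6_sqrt (s2 : ℝ) : ∃ s : ℂ, s ^ 2 = (s2 : ℂ) ∧ ((s.im = 0 ∧ s.re ≤ 0) ∨ s.re = 0) ∧
    (0 ≤ s2 → s = -((Real.sqrt s2 : ℝ) : ℂ)) := by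
  rcases le_or_gt 0 s2 with h | h
  · refine ⟨-((Real.sqrt s2 : ℝ) : ℂ), ?_, Or.inl ⟨?_, ?_⟩, fun _ => rfl⟩
    · rw [neg_sq, ← Complex.ofReal_pow, Real.sq_sqrt h]
    · rw [Complex.neg_im, Complex.ofReal_im, neg_zero]
    · rw [Complex.neg_re, Complex.ofReal_re]
      exact neg_nonpos.2 (Real.sqrt_nonneg _)
  · refine ⟨Complex.I * ((Real.sqrt (-s2) : ℝ) : ℂ), ?_, Or.inr ?_, fun h' => absurd h' (not_le.2 h)⟩
    · rw [mul_pow, Complex.I_sq, ← Complex.ofReal_pow, Real.sq_sqrt (by linarith)]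
      push_cast
      ring
    · simp

theorem strings (hI : Irred π) (par : ℤ) : ∃ (S : Set ℤ) (s : ℂ) (p q : ℤ → ℂ) (e : ℤ → H), Str S s p q ∧
    (∀ n ∈ S, Smooth π (e n) ∧ IsWeight π n (e n) ∧ ‖e n‖ = 1) ∧ (∀ n, n ∉ S → e n = 0) ∧
    (∀ n, dX π mH (e n) = p n • e (n + 2) + q n • e (n - 2)) ∧
    (∀ n, dX π mV (e n) = Complex.I • (p n • e (n + 2) - q n • e (n - 2))) ∧
    (∀ n ∈ wts π, 1 ≤ n → Even (n - par) → n ∈ S) := by
  have hM := multOne hI
  classical
  -- the choice of the vectors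
  have hex : ∀ n : ℤ, ∃ u : H, Smooth π u ∧ IsWeight π n u ∧ (n ∈ wts π → ‖u‖ = 1) ∧ (n ∉ wts π → u = 0) := by
    intro n
    by_cases hn : n ∈ wts π
    · obtain ⟨v, hv, hw, h0⟩ := hn
      refine ⟨((‖v‖⁻¹ : ℝ) : ℂ) • v, smooth_smul π _ hv, ?_, ?_, ?_⟩
      · intro θ
        rw [map_smul, hw θ, smul_comm]
      · intro _
        rw [norm_smul, Complex.norm_real, norm_inv, norm_norm, inv_mul_cancel₀ (norm_ne_zero_iff.2 h0)]
      · intro h
        exact absurd ⟨v, hv, hw, h0⟩ h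
    · refine ⟨0, smooth_zero π, ?_, fun h => absurd h hn, fun _ => rfl⟩
      intro θ
      rw [map_zero, smul_zero]
  choose u hus huw hu1 hu0 using hex
  have hune : ∀ n, u n ≠ 0 → n ∈ wts π := by
    intro n h
    by_contra hn
    exact h (hu0 n hn)
  have hwne : ∀ n, n ∈ wts π → u n ≠ 0 := by
    intro n hn h
    have h1 := hu1 n hn
    rw [h, norm_zero] at h1
    exact zero_ne_one h1
  have hin : ∀ n, n ∈ wts π → inner ℂ (u n) (u n) = (1 : ℂ) := by
    intro n hn
    rw [inner_self_eq_norm_sq_to_K, hu1 n hn]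
    simp
  -- one step
  have hstep : ∀ (n : ℤ) (w : H), Smooth π w → IsWeight π n w → w = inner ℂ (u n) w • u n := by
    intro n w hw hwn
    by_cases hn : n ∈ wts π
    · obtain ⟨c, hc⟩ := hM n (u n) w (hus n) hw (huw n) hwn (hwne n hn)
      rw [hc, inner_smul_right, hin n hn, mul_one]
    · have h1 : w = 0 := by
        by_contra h2
        exact hn ⟨w, hw, hwn, h2⟩
      rw [h1, inner_zero_right, zero_smul]
  let a : ℤ → ℂ := fun n => inner ℂ (u (n + 2)) (up π (u n))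
  let b : ℤ → ℂ := fun n => inner ℂ (u (n - 2)) (dn π (u n))
  have hup : ∀ n, up π (u n) = a n • u (n + 2) := fun n => hstep (n + 2) _ (smooth_up π (hus n)) (weight_up π (hus n) (huw n))
  have hdn : ∀ n, dn π (u n) = b n • u (n - 2) := fun n => hstep (n - 2) _ (smooth_dn π (hus n)) (weight_dn π (hus n) (huw n))
  have hup0 : up π (0 : H) = 0 := by
    have h1 := up_smul π 0 (smooth_zero π)
    rw [zero_smul, zero_smul] at h1
    exact h1
  have hab : ∀ n, b (n + 2) = -star (a n) := by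
    intro n
    have h1 := up_dn_skew π (hus n) (hus (n + 2))
    have h2 : b (n + 2) = inner ℂ (u n) (dn π (u (n + 2))) := by
      change inner ℂ (u (n + 2 - 2)) (dn π (u (n + 2))) = _
      rw [show n + 2 - 2 = n from by ring]
    have h3 : star (a n) = inner ℂ (up π (u n)) (u (n + 2)) := inner_conj_symm _ _
    rw [h2, h3, h1, neg_neg]
  have hawt : ∀ n, a n ≠ 0 → n ∈ wts π ∧ n + 2 ∈ wts π := by
    intro n h
    refine ⟨?_, ?_⟩
    · by_contra hn
      apply h
      change inner ℂ (u (n + 2)) (up π (u n)) = 0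
      rw [hu0 n hn, hup0, inner_zero_right]
    · by_contra hn
      apply h
      change inner ℂ (u (n + 2)) (up π (u n)) = 0
      rw [hu0 _ hn, inner_zero_left]
  have hA : ∀ n, n ∈ wts π → ‖a n‖ ^ 2 - ‖a (n - 2)‖ ^ 2 = (n : ℝ) / 4 := by
    intro n hn
    have h1 := up_dn_comm π (hus n) (huw n)
    rw [hdn n, hup n, up_smul π _ (hus _), dn_smul π _ (hus _), hup (n - 2), hdn (n + 2),
      show n - 2 + 2 = n from by ring, show n + 2 - 2 = n from by ring, smul_smul, smul_smul, ← sub_smul] at h1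
    have h2 := smul_left_injective ℂ (hwne n hn) h1
    have h3 : b n = -star (a (n - 2)) := by
      have h4 := hab (n - 2)
      rw [show n - 2 + 2 = n from by ring] at h4
      exact h4
    have h2' : b n * a (n - 2) - a n * b (n + 2) = (n : ℂ) / 4 := h2
    rw [hab n, h3] at h2'
    have h5 : ∀ z : ℂ, star z * z = ((‖z‖ ^ 2 : ℝ) : ℂ) := by
      intro z
      have h6 := Complex.conj_mul' z
      push_cast
      exact h6
    have h7 : ((‖a n‖ ^ 2 - ‖a (n - 2)‖ ^ 2 : ℝ) : ℂ) = (((n : ℝ) / 4 : ℝ) : ℂ) := by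
      push_cast
      have h8 := h5 (a n)
      have h9 := h5 (a (n - 2))
      push_cast at h8 h9
      linear_combination h2' - h8 + h9
    exact_mod_cast h7
  -- the string
  let S : Set ℤ := {n | n ∈ wts π ∧ Even (n - par) ∧ ∀ k : ℕ, n + 2 * k ∈ wts π ∧ a (n + 2 * k) ≠ 0}
  have hScl : ∀ n ∈ S, n + 2 ∈ S := by
    rintro n ⟨h1, h2, h3⟩
    have h4 := h3 1
    rw [Nat.cast_one, mul_one] at h4
    refine ⟨h4.1, ?_, fun k => ?_⟩
    · have h5 : n + 2 - par = n - par + 2 := by ring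
      rw [h5]
      exact h2.add even_two
    · have h5 := h3 (k + 1)
      have h6 : n + 2 + 2 * (k : ℤ) = n + 2 * ((k + 1 : ℕ) : ℤ) := by
        push_cast
        ring
      rw [h6]
      exact h5
  have hSa : ∀ n ∈ S, a n ≠ 0 := by
    rintro n ⟨h1, h2, h3⟩
    have h4 := (h3 0).2
    rw [Nat.cast_zero, mul_zero, add_zero] at h4
    exact h4
  have hSb : ∀ n ∈ S, n - 2 ∉ S → a (n - 2) = 0 := by
    rintro n hn h
    by_contra h0
    apply h
    obtain ⟨h1, h2, h3⟩ := hn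
    refine ⟨(hawt _ h0).1, ?_, fun k => ?_⟩
    · have h5 : n - 2 - par = n - par - 2 := by ring
      rw [h5]
      exact h2.sub even_two
    · rcases k with _ | k
      · rw [Nat.cast_zero, mul_zero, add_zero]
        exact ⟨(hawt _ h0).1, h0⟩
      · have h5 := h3 k
        have h6 : n - 2 + 2 * ((k + 1 : ℕ) : ℤ) = n + 2 * (k : ℤ) := by
          push_cast
          ring
        rw [h6]
        exact h5
  have hbn : ∀ n, b n = -star (a (n - 2)) := by
    intro n
    have h4 := hab (n - 2)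
    rw [show n - 2 + 2 = n from by ring] at h4
    exact h4
  -- the invariant
  have hF : ∀ n ∈ S, ∀ k : ℕ, n + 2 * k ∈ S ∧
      16 * ‖a (n + 2 * k)‖ ^ 2 - (((n + 2 * k : ℤ) : ℝ) + 1) ^ 2 = 16 * ‖a n‖ ^ 2 - ((n : ℝ) + 1) ^ 2 := by
    intro n hn k
    induction k with
    | zero =>
      rw [Nat.cast_zero, mul_zero, add_zero]
      exact ⟨hn, rfl⟩
    | succ k ih =>
      have h1 : n + 2 * ((k + 1 : ℕ) : ℤ) = n + 2 * (k : ℤ) + 2 := by
        push_cast
        ring
      rw [h1]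
      refine ⟨hScl _ ih.1, ?_⟩
      rw [← ih.2]
      have h2 := hA _ (hScl _ ih.1).1
      rw [show n + 2 * (k : ℤ) + 2 - 2 = n + 2 * (k : ℤ) from by ring] at h2
      push_cast at h2 ⊢
      linarith
  have hF2 : ∀ n ∈ S, ∀ m ∈ S, 16 * ‖a m‖ ^ 2 - ((m : ℝ) + 1) ^ 2 = 16 * ‖a n‖ ^ 2 - ((n : ℝ) + 1) ^ 2 := by
    have h1 : ∀ n ∈ S, ∀ m ∈ S, n ≤ m → 16 * ‖a m‖ ^ 2 - ((m : ℝ) + 1) ^ 2 = 16 * ‖a n‖ ^ 2 - ((n : ℝ) + 1) ^ 2 := by
      intro n hn m hm hnm
      have h2 : Even (m - n) := by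
        have h3 : m - n = (m - par) - (n - par) := by ring
        rw [h3]
        exact hm.2.1.sub hn.2.1
      obtain ⟨j, hj⟩ := h2
      obtain ⟨k, hk⟩ := Int.eq_ofNat_of_zero_le (show 0 ≤ j by omega)
      have h4 := (hF n hn k).2
      rw [show n + 2 * (k : ℤ) = m from by omega] at h4
      exact h4
    intro n hn m hm
    rcases le_total n m with h | h
    · exact h1 n hn m hm h
    · exact (h1 m hm n hn h).symm
  obtain ⟨s2, hs2⟩ : ∃ s2 : ℝ, ∀ n ∈ S, 16 * ‖a n‖ ^ 2 - ((n : ℝ) + 1) ^ 2 = -s2 := by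
    by_cases hS : ∃ n0, n0 ∈ S
    · obtain ⟨n0, hn0⟩ := hS
      refine ⟨-(16 * ‖a n0‖ ^ 2 - ((n0 : ℝ) + 1) ^ 2), fun n hn => ?_⟩
      rw [neg_neg]
      exact hF2 n0 hn0 n hn
    · refine ⟨0, fun n hn => absurd ⟨n, hn⟩ hS⟩
  obtain ⟨s, hss, hsgn, hsneg⟩ := r6_sqrt s2
  refine ⟨S, s, fun n => if n ∈ S then a n else 0, fun n => if n ∈ S then b n else 0, fun n => if n ∈ S then u n else 0,
    ⟨hScl, ?_, ?_, ?_, ?_, ?_, ?_, hsgn⟩, ?_, ?_, ?_, ?_, ?_⟩
  · intro n hn m hm
    have h3 : n - m = (n - par) - (m - par) := by ring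
    rw [h3]
    exact hn.2.1.sub hm.2.1
  · intro n hn
    change (if n ∈ S then a n else 0) ≠ 0
    rw [if_pos hn]
    exact hSa n hn
  · intro n hn
    change ((‖(if n ∈ S then a n else 0)‖ ^ 2 : ℝ) : ℂ) = _
    rw [if_pos hn, hss]
    have h1 : ‖a n‖ ^ 2 = (((n : ℝ) + 1) ^ 2 - s2) / 16 := by
      have h2 := hs2 n hn
      linarith
    rw [h1]
    push_cast
    ring
  · intro n hn
    change (if n + 2 ∈ S then b (n + 2) else 0) = -star (if n ∈ S then a n else 0)
    rw [if_pos hn, if_pos (hScl n hn)]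
    exact hab n
  · intro n hn
    exact ⟨if_neg hn, if_neg hn⟩
  · intro n hn hn2
    have h0 := hSb n hn hn2
    refine ⟨?_, ?_⟩
    · change (if n ∈ S then b n else 0) = 0
      rw [if_pos hn, hbn n, h0, star_zero, neg_zero]
    · have h1 := hA n hn.1
      rw [h0, norm_zero] at h1
      have h2 := hs2 n hn
      have h3 : s2 = ((n : ℝ) - 1) ^ 2 := by linarith
      have h4 : 0 < ‖a n‖ ^ 2 := by
        have h5 := norm_pos_iff.2 (hSa n hn)
        positivity
      have h5 : (0 : ℝ) < n := by linarith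
      have h6 : 1 ≤ n := by
        have h7 : (0 : ℤ) < n := by exact_mod_cast h5
        omega
      have h7 : (1 : ℝ) ≤ n := by exact_mod_cast h6
      have h8 := hsneg (by rw [h3]; positivity)
      rw [h3, Real.sqrt_sq (by linarith)] at h8
      rw [h8]
      push_cast
      ring
  · intro n hn
    change Smooth π (if n ∈ S then u n else 0) ∧ IsWeight π n (if n ∈ S then u n else 0) ∧ ‖(if n ∈ S then u n else 0)‖ = 1
    rw [if_pos hn]
    exact ⟨hus n, huw n, hu1 n hn.1⟩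
  · intro n hn
    exact if_neg hn
  · intro n
    change dX π mH (if n ∈ S then u n else 0) = (if n ∈ S then a n else 0) • (if n + 2 ∈ S then u (n + 2) else 0) +
      (if n ∈ S then b n else 0) • (if n - 2 ∈ S then u (n - 2) else 0)
    by_cases hn : n ∈ S
    · rw [if_pos hn, if_pos hn, if_pos hn, if_pos (hScl n hn), mH_eq, hup, hdn]
      by_cases h2 : n - 2 ∈ S
      · rw [if_pos h2]
      · rw [if_neg h2, hbn n, hSb n hn h2, star_zero, neg_zero, zero_smul, zero_smul]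
    · rw [if_neg hn, if_neg hn, if_neg hn, zero_smul, zero_smul, add_zero]
      have h1 := dX_vsmul π mH 0 (smooth_zero π)
      rw [zero_smul, zero_smul] at h1
      exact h1
  · intro n
    change dX π mV (if n ∈ S then u n else 0) = Complex.I • ((if n ∈ S then a n else 0) • (if n + 2 ∈ S then u (n + 2) else 0) -
      (if n ∈ S then b n else 0) • (if n - 2 ∈ S then u (n - 2) else 0))
    by_cases hn : n ∈ S
    · rw [if_pos hn, if_pos hn, if_pos hn, if_pos (hScl n hn), mV_eq, hup, hdn]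
      by_cases h2 : n - 2 ∈ S
      · rw [if_pos h2]
      · rw [if_neg h2, hbn n, hSb n hn h2, star_zero, neg_zero, zero_smul, zero_smul]
    · rw [if_neg hn, if_neg hn, if_neg hn, zero_smul, zero_smul, sub_zero, smul_zero]
      have h1 := dX_vsmul π mV 0 (smooth_zero π)
      rw [zero_smul, zero_smul] at h1
      exact h1
  · intro n hn h1 h2
    have h3 : ∀ m, m ∈ wts π → 1 ≤ m → a m ≠ 0 := by
      intro m hm hm1 h0
      have h4 := hA m hm
      rw [h0, norm_zero] at h4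
      have h5 : (1 : ℝ) ≤ m := by exact_mod_cast hm1
      have h6 : 0 ≤ ‖a (m - 2)‖ ^ 2 := by positivity
      linarith
    refine ⟨hn, h2, fun k => ?_⟩
    induction k with
    | zero =>
      rw [Nat.cast_zero, mul_zero, add_zero]
      exact ⟨hn, h3 n hn h1⟩
    | succ k ih =>
      have h4 : n + 2 * ((k + 1 : ℕ) : ℤ) = n + 2 * (k : ℤ) + 2 := by
        push_cast
        ring
      rw [h4]
      have h5 := (hawt _ ih.2).2
      exact ⟨h5, h3 _ h5 (by omega)⟩

end MPku
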