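import Pool.Agent.Lib.MP_7b255b_ntU.R3
import Pool.Agent.Lib.MP_7b255b_ntU.R4
import Pool.Agent.Lib.MP_7b255b_ntU.R6

/-!
# R7: the ladder of an automorphic functional

JOB R7. `strings` gives `S, s, p, q, e`, `Str.exists_c` gives `c`. Put `φ n g = c n * η (π.r g (e n))`.
* `rot`: `π.r (g * kk θ) (e n) = exp(i n θ) • π.r g (e n)` for `n ∈ S`, `IsLin.smul`; for `n ∉ S` everything is `0` (`IsLin.zero`).
* `lad`: `eta_aa`: the derivative is `c n * η (π.r g (dX mH (e n))) = c n * (p n η(π g e(n+2)) + q n η(π g e(n-2)))` (linearity of `π.r g` and of `η` on smooth vectors, `smooth_r`, `e n` is smooth for all `n` (`smooth_zero`)), and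
  `c n p n = (1+s+n)/4 c (n+2)`, `c n q n = (1+s-n)/4 c (n-2)`.
* `bd`: let `Ω` be the compact set of `IsCocpt`. For `g : G` there is `γ ∈ Γ` with `γ g ∈ Ω`, and `η (π.r g v) = η (π.r γ (π.r g v)) = η (π.r (γ g) v)`. So `‖η (π.r g (e n))‖ ≤ C jet l (π.r (γ g) (e n)) ≤ C' wn l (e n)` (`IsLin.bound`, `jet_le`).
  `wn_le`: `wn π l (e n) ≤ C_l (1 + |n|)^l`: induction on `l` with `dX mK (e n) = i n e n` (`dX_mK`), the formulas for `dX mH (e n)`, `dX mV (e n)` and `‖p n‖, ‖q n‖ ≤ C (1 + |n|)`; one needs `wn l (x • v + y • w) ≤ |x| wn l v + |y| wn l w` for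
  smooth `v, w` (induction, `dX_vadd`, `dX_vsmul`).
* the comparison with an arbitrary smooth unit vector `v` of weight `n ∈ S`: `v = a • e n` with `|a| = 1` (`multOne`), `‖η (π.r g v)‖ = ‖η (π.r g (e n))‖ = ‖φ n g‖ / ‖c n‖`, and `κ n^(-s.re/2) ≤ ‖c n‖`.
-/

set_option autoImplicit false

namespace MPku

open MPkt

variable {H : Type*} [NormedAddCommGroup H] [InnerProductSpace ℂ H] [CompleteSpace H] {π : URep H}

private theorem R7_wn_add (l : ℕ) : ∀ v w : H, Smooth π v → Smooth π w → wn π l (v + w) ≤ wn π l v + wn π l w := by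
  induction l with
  | zero => intro v w _ _; exact norm_add_le v w
  | succ l ih =>
    intro v w hv hw
    have h1 := ih _ _ (smooth_dX π mH hv) (smooth_dX π mH hw)
    have h2 := ih _ _ (smooth_dX π mV hv) (smooth_dX π mV hw)
    have h3 := ih _ _ (smooth_dX π mK hv) (smooth_dX π mK hw)
    rw [← dX_vadd π mH hv hw] at h1
    rw [← dX_vadd π mV hv hw] at h2
    rw [← dX_vadd π mK hv hw] at h3
    have h0 := norm_add_le v w
    change ‖v + w‖ + (wn π l (dX π mH (v + w)) + wn π l (dX π mV (v + w)) + wn π l (dX π mK (v + w))) ≤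
      (‖v‖ + (wn π l (dX π mH v) + wn π l (dX π mV v) + wn π l (dX π mK v))) +
      (‖w‖ + (wn π l (dX π mH w) + wn π l (dX π mV w) + wn π l (dX π mK w)))
    linarith

private theorem R7_wn_smul (l : ℕ) : ∀ (c : ℂ) (v : H), Smooth π v → wn π l (c • v) = ‖c‖ * wn π l v := by
  induction l with
  | zero => intro c v _; exact norm_smul c v
  | succ l ih =>
    intro c v hv
    have h1 := ih c _ (smooth_dX π mH hv)
    have h2 := ih c _ (smooth_dX π mV hv)
    have h3 := ih c _ (smooth_dX π mK hv)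
    rw [← dX_vsmul π mH c hv] at h1
    rw [← dX_vsmul π mV c hv] at h2
    rw [← dX_vsmul π mK c hv] at h3
    have h0 := norm_smul c v
    change ‖c • v‖ + (wn π l (dX π mH (c • v)) + wn π l (dX π mV (c • v)) + wn π l (dX π mK (c • v))) =
      ‖c‖ * (‖v‖ + (wn π l (dX π mH v) + wn π l (dX π mV v) + wn π l (dX π mK v)))
    rw [h0, h1, h2, h3]
    ring

private theorem R7_wn_comb (l : ℕ) (a b : ℂ) (v w : H) (hv : Smooth π v) (hw : Smooth π w) :
    wn π l (a • v + b • w) ≤ ‖a‖ * wn π l v + ‖b‖ * wn π l w := by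
  have h := R7_wn_add (π := π) l (a • v) (b • w) (smooth_smul π a hv) (smooth_smul π b hw)
  rw [R7_wn_smul l a v hv, R7_wn_smul l b w hw] at h
  exact h

omit [CompleteSpace H] in
private theorem R7_wn_nonneg (l : ℕ) : ∀ v : H, 0 ≤ wn π l v := by
  induction l with
  | zero => intro v; exact norm_nonneg v
  | succ l ih =>
    intro v
    change 0 ≤ ‖v‖ + (wn π l (dX π mH v) + wn π l (dX π mV v) + wn π l (dX π mK v))
    have h1 := ih (dX π mH v)
    have h2 := ih (dX π mV v)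
    have h3 := ih (dX π mK v)
    have h0 := norm_nonneg v
    linarith

private theorem R7_shift (x : ℝ) (l : ℕ) (d : ℝ) (hd : |d| ≤ 2) : (1 + |x + d|) ^ l ≤ 3 ^ l * (1 + |x|) ^ l := by
  rw [← mul_pow]
  apply pow_le_pow_left₀
  · have := abs_nonneg (x + d); linarith
  · have h := abs_add_le x d
    have := abs_nonneg x
    linarith

private theorem R7_wn_le {p q : ℤ → ℂ} {e : ℤ → H} (C : ℝ) (hC : 0 ≤ C)
    (hsm : ∀ n, Smooth π (e n)) (hw : ∀ n, IsWeight π n (e n)) (hn1 : ∀ n, ‖e n‖ ≤ 1)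
    (hH : ∀ n, dX π mH (e n) = p n • e (n + 2) + q n • e (n - 2))
    (hV : ∀ n, dX π mV (e n) = Complex.I • (p n • e (n + 2) - q n • e (n - 2)))
    (hp : ∀ n, ‖p n‖ ≤ C * (1 + |(n : ℝ)|)) (hq : ∀ n, ‖q n‖ ≤ C * (1 + |(n : ℝ)|)) (l : ℕ) :
    ∃ D : ℝ, 0 ≤ D ∧ ∀ n : ℤ, wn π l (e n) ≤ D * (1 + |(n : ℝ)|) ^ l := by
  induction l with
  | zero =>
    refine ⟨1, zero_le_one, fun n => ?_⟩
    rw [pow_zero, mul_one]
    exact hn1 n
  | succ l ih =>
    obtain ⟨D, hD, ih⟩ := ih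
    refine ⟨1 + 4 * C * D * 3 ^ l + D, by positivity, fun n => ?_⟩
    have hx : 0 ≤ |(n : ℝ)| := abs_nonneg _
    have e1' : wn π l (e (n + 2)) ≤ D * (3 ^ l * (1 + |(n : ℝ)|) ^ l) := by
      refine (ih (n + 2)).trans (mul_le_mul_of_nonneg_left ?_ hD)
      have := R7_shift (n : ℝ) l 2 (by norm_num)
      push_cast
      exact this
    have e2' : wn π l (e (n - 2)) ≤ D * (3 ^ l * (1 + |(n : ℝ)|) ^ l) := by
      refine (ih (n - 2)).trans (mul_le_mul_of_nonneg_left ?_ hD)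
      have := R7_shift (n : ℝ) l (-2) (by norm_num)
      push_cast
      exact this
    have hP : 0 ≤ D * (3 ^ l * (1 + |(n : ℝ)|) ^ l) := by positivity
    have f1 : ‖p n‖ * wn π l (e (n + 2)) ≤ (C * (1 + |(n : ℝ)|)) * (D * (3 ^ l * (1 + |(n : ℝ)|) ^ l)) :=
      mul_le_mul (hp n) e1' (R7_wn_nonneg l _) (by positivity)
    have f2 : ‖q n‖ * wn π l (e (n - 2)) ≤ (C * (1 + |(n : ℝ)|)) * (D * (3 ^ l * (1 + |(n : ℝ)|) ^ l)) :=
      mul_le_mul (hq n) e2' (R7_wn_nonneg l _) (by positivity)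
    have g1 : wn π l (dX π mH (e n)) ≤ 2 * ((C * (1 + |(n : ℝ)|)) * (D * (3 ^ l * (1 + |(n : ℝ)|) ^ l))) := by
      rw [hH n]
      have := R7_wn_comb l (p n) (q n) _ _ (hsm (n + 2)) (hsm (n - 2))
      linarith
    have g2 : wn π l (dX π mV (e n)) ≤ 2 * ((C * (1 + |(n : ℝ)|)) * (D * (3 ^ l * (1 + |(n : ℝ)|) ^ l))) := by
      have e3 : p n • e (n + 2) - q n • e (n - 2) = p n • e (n + 2) + (-q n) • e (n - 2) := by
        rw [neg_smul, sub_eq_add_neg]
      rw [hV n, e3, R7_wn_smul l Complex.I _ (smooth_add π (smooth_smul π _ (hsm _)) (smooth_smul π _ (hsm _))),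
        Complex.norm_I, one_mul]
      have := R7_wn_comb l (p n) (-q n) _ _ (hsm (n + 2)) (hsm (n - 2))
      rw [norm_neg] at this
      linarith
    have g3 : wn π l (dX π mK (e n)) ≤ D * (1 + |(n : ℝ)|) ^ (l + 1) := by
      rw [dX_mK π (hsm n) (hw n), R7_wn_smul l _ _ (hsm n), norm_mul, Complex.norm_I, mul_one, Complex.norm_intCast]
      have h1 : |(n : ℝ)| * wn π l (e n) ≤ (1 + |(n : ℝ)|) * (D * (1 + |(n : ℝ)|) ^ l) :=
        mul_le_mul (by linarith) (ih n) (R7_wn_nonneg l _) (by positivity)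
      calc |(n : ℝ)| * wn π l (e n) ≤ (1 + |(n : ℝ)|) * (D * (1 + |(n : ℝ)|) ^ l) := h1
        _ = D * (1 + |(n : ℝ)|) ^ (l + 1) := by ring
    have g0 : ‖e n‖ ≤ (1 + |(n : ℝ)|) ^ (l + 1) := (hn1 n).trans (one_le_pow₀ (by linarith))
    change ‖e n‖ + (wn π l (dX π mH (e n)) + wn π l (dX π mV (e n)) + wn π l (dX π mK (e n))) ≤ _
    have : (1 + 4 * C * D * 3 ^ l + D) * (1 + |(n : ℝ)|) ^ (l + 1) =
        (1 + |(n : ℝ)|) ^ (l + 1) + 4 * ((C * (1 + |(n : ℝ)|)) * (D * (3 ^ l * (1 + |(n : ℝ)|) ^ l))) +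
          D * (1 + |(n : ℝ)|) ^ (l + 1) := by ring
    rw [this]
    linarith

omit [CompleteSpace H] in
private theorem R7_r_mul (g h : G) (v : H) : π.r (g * h) v = π.r g (π.r h v) := by
  rw [map_mul]; rfl

theorem exists_ladder (hI : Irred π) {Γ : Subgroup G} (hΓ : IsCocpt Γ) {η : H → ℂ} (hη : IsAut π Γ η) (par : ℤ) :
    ∃ (s : ℂ) (φ : ℤ → G → ℂ) (κ : ℝ), 0 < κ ∧ Ladder s φ ∧ (∀ γ ∈ Γ, ∀ n g, φ n (γ * g) = φ n g) ∧
      ∀ n : ℤ, 1 ≤ n → Even (n - par) → ∀ v : H, Smooth π v → IsWeight π n v → ‖v‖ = 1 → ∀ g : G,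
        κ * (n : ℝ) ^ (-s.re / 2) * ‖η (π.r g v)‖ ≤ ‖φ n g‖ := by
  obtain ⟨S, s, p, q, e, hS, he1, he0, hH, hV, hpar⟩ := strings hI par
  obtain ⟨c, κ, C, k, hκ, hc0, hcp, hcq, hlow, hup, hp, hq⟩ := hS.exists_c
  have hC : 0 ≤ C := by
    have h := hp 0
    have h0 := norm_nonneg (p 0)
    simp only [Int.cast_zero, abs_zero, add_zero, mul_one] at h
    linarith
  have hsm : ∀ n, Smooth π (e n) := by
    intro n
    by_cases hn : n ∈ S
    · exact (he1 n hn).1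
    · rw [he0 n hn]; exact smooth_zero π
  have hw : ∀ n, IsWeight π n (e n) := by
    intro n
    by_cases hn : n ∈ S
    · exact (he1 n hn).2.1
    · rw [he0 n hn]
      intro θ
      rw [map_zero, smul_zero]
  have hn1 : ∀ n, ‖e n‖ ≤ 1 := by
    intro n
    by_cases hn : n ∈ S
    · exact (he1 n hn).2.2.le
    · rw [he0 n hn, norm_zero]; exact zero_le_one
  have hinv : ∀ γ ∈ Γ, ∀ (g : G) (v : H), Smooth π v → η (π.r (γ * g) v) = η (π.r g v) := by
    intro γ hγ g v hv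
    rw [R7_r_mul]
    exact hη.inv γ hγ _ (smooth_r π g hv)
  refine ⟨s, fun n g => c n * η (π.r g (e n)), κ, hκ, ⟨?_, ?_, ?_⟩, ?_, ?_⟩
  · intro n g θ
    rw [R7_r_mul, hw n θ, map_smul, hη.lin.smul _ _ (smooth_r π g (hsm n))]
    ring
  · intro n g
    have h := (eta_aa π hη.lin (hsm n) g).const_mul (c n)
    have hL := IsLin.r π hη.lin g
    have e1' : η (π.r g (dX π mH (e n))) = p n * η (π.r g (e (n + 2))) + q n * η (π.r g (e (n - 2))) := by
      rw [hH n]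
      have h1 := hL.add (p n • e (n + 2)) (q n • e (n - 2)) (smooth_smul π _ (hsm _)) (smooth_smul π _ (hsm _))
      have h2 := hL.smul (p n) (e (n + 2)) (hsm _)
      have h3 := hL.smul (q n) (e (n - 2)) (hsm _)
      rw [h1, h2, h3]
    have e2' : c n * η (π.r g (dX π mH (e n))) =
        ((1 + s + n) * (c (n + 2) * η (π.r g (e (n + 2)))) + (1 + s - n) * (c (n - 2) * η (π.r g (e (n - 2))))) / 4 := by
      rw [e1']
      have h1 := hcp n
      have h2 := hcq n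
      calc c n * (p n * η (π.r g (e (n + 2))) + q n * η (π.r g (e (n - 2))))
          = (c n * p n) * η (π.r g (e (n + 2))) + (c n * q n) * η (π.r g (e (n - 2))) := by ring
        _ = _ := by rw [h1, h2]; ring
    rw [e2'] at h
    exact h
  · obtain ⟨hd, Ω, hΩ, hcov⟩ := hΓ
    obtain ⟨l, C1, hC1⟩ := hη.lin.bound
    obtain ⟨C2, hC2, hjet⟩ := jet_le π l hΩ
    obtain ⟨D, hD, hwn⟩ := R7_wn_le C hC hsm hw hn1 hH hV hp hq l
    refine ⟨C * (|C1| * (C2 * D)), k + l, fun n g => ?_⟩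
    obtain ⟨γ, hγ, hγg⟩ := hcov g
    have h1 : ‖η (π.r g (e n))‖ ≤ |C1| * (C2 * (D * (1 + |(n : ℝ)|) ^ l)) := by
      rw [← hinv γ hγ g (e n) (hsm n)]
      have a1 := hC1 _ (smooth_r π (γ * g) (hsm n))
      have hj0 : 0 ≤ jet π l (π.r (γ * g) (e n)) := Finset.sum_nonneg fun _ _ => norm_nonneg _
      have a2 : C1 * jet π l (π.r (γ * g) (e n)) ≤ |C1| * jet π l (π.r (γ * g) (e n)) :=
        mul_le_mul_of_nonneg_right (le_abs_self C1) hj0
      have a3 : |C1| * jet π l (π.r (γ * g) (e n)) ≤ |C1| * (C2 * wn π l (e n)) :=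
        mul_le_mul_of_nonneg_left (hjet _ hγg _ (hsm n)) (abs_nonneg _)
      have a4 : |C1| * (C2 * wn π l (e n)) ≤ |C1| * (C2 * (D * (1 + |(n : ℝ)|) ^ l)) :=
        mul_le_mul_of_nonneg_left (mul_le_mul_of_nonneg_left (hwn n) hC2) (abs_nonneg _)
      linarith
    change ‖c n * η (π.r g (e n))‖ ≤ _
    rw [norm_mul]
    have hx : 0 ≤ |(n : ℝ)| := abs_nonneg _
    calc ‖c n‖ * ‖η (π.r g (e n))‖ ≤ (C * (1 + |(n : ℝ)|) ^ k) * (|C1| * (C2 * (D * (1 + |(n : ℝ)|) ^ l))) :=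
          mul_le_mul (hup n) h1 (norm_nonneg _) (by positivity)
      _ = C * (|C1| * (C2 * D)) * (1 + |(n : ℝ)|) ^ (k + l) := by rw [pow_add]; ring
  · intro γ hγ n g
    change c n * η (π.r (γ * g) (e n)) = c n * η (π.r g (e n))
    rw [hinv γ hγ g (e n) (hsm n)]
  · intro n hn hev v hv hwv hv1 g
    have hv0 : v ≠ 0 := by
      intro h0
      rw [h0, norm_zero] at hv1
      exact zero_ne_one hv1
    have hnS : n ∈ S := hpar n ⟨v, hv, hwv, hv0⟩ hn hev
    obtain ⟨s1, s2, s3⟩ := he1 n hnS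
    have hen0 : e n ≠ 0 := by
      intro h0
      rw [h0, norm_zero] at s3
      exact zero_ne_one s3
    obtain ⟨a, ha⟩ := multOne hI n (e n) v s1 hv s2 hwv hen0
    have ha1 : ‖a‖ = 1 := by
      have := hv1
      rw [ha, norm_smul, s3, mul_one] at this
      exact this
    have h1 : ‖η (π.r g v)‖ = ‖η (π.r g (e n))‖ := by
      rw [ha, map_smul, hη.lin.smul _ _ (smooth_r π g s1), norm_mul, ha1, one_mul]
    change _ ≤ ‖c n * η (π.r g (e n))‖
    rw [h1, norm_mul]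
    exact mul_le_mul_of_nonneg_right (hlow n hnS hn) (norm_nonneg _)

end MPku
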