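import Pool.Agent.Lib.MP_7b255b_nt.Smo
import Pool.Agent.Lib.MP_7b255b_ntU.D

/-!
# Tw: conjugation with `diag(1, -1)`

JOB Tw. `dl g = w g w`, `w = diag(1, -1)`: `[[a, b], [c, d]] ↦ [[a, -b], [-c, d]]`, an automorphism of `G` of order two, continuous, `dl (kk θ) = kk (-θ)`. `π'.r g = π.r (dl g)`.
* `Smooth π' v ↔ Smooth π v`: `orb π' v A = orb π v (w A w)` (`nrm (w A w) = dl (nrm A)`, `w A w ∈ pos ↔ A ∈ pos`), `A ↦ w A w` is linear; `jet π' l v ≤ C jet π l v` and conversely (composition with a linear isomorphism fixing `e1`).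
* `IsWeight π' n v ↔ IsWeight π (-n) v`. Invariant subspaces are the same. `Γ' = Γ.map dl` (or `comap`): `IsCocpt` is preserved (homeomorphism; the compact set `dl '' Ω`), `IsAut π' Γ' η`.
-/

set_option autoImplicit false
set_option linter.unusedSectionVars false

namespace MPku

open MPkt

universe u

private def Tw_s : Fin 2 → ℝ := ![1, -1]

private theorem Tw_ss (i : Fin 2) : Tw_s i * Tw_s i = 1 := by
  fin_cases i <;> simp [Tw_s]

private theorem Tw_abs (i : Fin 2) : |Tw_s i| = 1 := by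
  fin_cases i <;> simp [Tw_s]

/-- Conjugation with `diag (1, -1)` on the matrices. -/
private noncomputable def Tw_li : (Fin 2 → Fin 2 → ℝ) ≃ₗᵢ[ℝ] (Fin 2 → Fin 2 → ℝ) where
  toFun A i j := Tw_s i * Tw_s j * A i j
  invFun A i j := Tw_s i * Tw_s j * A i j
  map_add' A B := by
    funext i j
    simp only [Pi.add_apply]
    ring
  map_smul' c A := by
    funext i j
    simp only [Pi.smul_apply, smul_eq_mul, RingHom.id_apply]
    ring
  left_inv A := by
    funext i j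
    show Tw_s i * Tw_s j * (Tw_s i * Tw_s j * A i j) = A i j
    linear_combination (Tw_s j * Tw_s j * A i j) * Tw_ss i + A i j * Tw_ss j
  right_inv A := by
    funext i j
    show Tw_s i * Tw_s j * (Tw_s i * Tw_s j * A i j) = A i j
    linear_combination (Tw_s j * Tw_s j * A i j) * Tw_ss i + A i j * Tw_ss j
  norm_map' A := by
    show ‖(fun i j => Tw_s i * Tw_s j * A i j : Fin 2 → Fin 2 → ℝ)‖ = ‖A‖
    have h1 : ∀ i j, ‖Tw_s i * Tw_s j * A i j‖ = ‖A i j‖ := by
      intro i j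
      rw [norm_mul, norm_mul, Real.norm_eq_abs, Real.norm_eq_abs, Tw_abs, Tw_abs, one_mul, one_mul]
    have h2 : ∀ i, ‖(fun j => Tw_s i * Tw_s j * A i j : Fin 2 → ℝ)‖ = ‖A i‖ := by
      intro i
      refine le_antisymm ((pi_norm_le_iff_of_nonneg (norm_nonneg _)).2 fun j => ?_)
        ((pi_norm_le_iff_of_nonneg (norm_nonneg _)).2 fun j => ?_)
      · rw [h1]
        exact norm_le_pi_norm (A i) j
      · rw [← h1]
        exact norm_le_pi_norm (fun j => Tw_s i * Tw_s j * A i j : Fin 2 → ℝ) j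
    refine le_antisymm ((pi_norm_le_iff_of_nonneg (norm_nonneg _)).2 fun i => ?_)
      ((pi_norm_le_iff_of_nonneg (norm_nonneg _)).2 fun i => ?_)
    · exact (h2 i).le.trans (norm_le_pi_norm A i)
    · exact (h2 i).symm.le.trans (norm_le_pi_norm (fun i j => Tw_s i * Tw_s j * A i j : Fin 2 → Fin 2 → ℝ) i)

private theorem Tw_apply (A : Fin 2 → Fin 2 → ℝ) (i j : Fin 2) : Tw_li A i j = Tw_s i * Tw_s j * A i j := rfl

private theorem Tw_invol (A : Fin 2 → Fin 2 → ℝ) : Tw_li (Tw_li A) = A := Tw_li.left_inv A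

private theorem Tw_det (A : Fin 2 → Fin 2 → ℝ) : (Matrix.of (Tw_li A)).det = (Matrix.of A).det := by
  rw [Matrix.det_fin_two, Matrix.det_fin_two]
  simp only [Matrix.of_apply, Tw_apply]
  linear_combination (Tw_s 1 * Tw_s 1 * (A 0 0 * A 1 1 - A 0 1 * A 1 0)) * Tw_ss 0 +
    (A 0 0 * A 1 1 - A 0 1 * A 1 0) * Tw_ss 1

private theorem Tw_mul (A B : Matrix (Fin 2) (Fin 2) ℝ) :
    Matrix.of (Tw_li (A * B : Matrix (Fin 2) (Fin 2) ℝ)) = Matrix.of (Tw_li A) * Matrix.of (Tw_li B) := by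
  ext i j
  rw [Matrix.mul_apply]
  simp only [Matrix.of_apply, Tw_apply]
  rw [Matrix.mul_apply, Finset.mul_sum]
  refine Finset.sum_congr rfl fun l _ => ?_
  linear_combination (-(Tw_s i * Tw_s j * A i l * B l j)) * Tw_ss l

private theorem Tw_one : Tw_li (1 : Matrix (Fin 2) (Fin 2) ℝ) = (1 : Matrix (Fin 2) (Fin 2) ℝ) := by
  funext i j
  rw [Tw_apply]
  by_cases h : i = j
  · rw [h, Tw_ss, one_mul]
  · rw [Matrix.one_apply_ne h, mul_zero]

/-- Conjugation with `diag (1, -1)` on the group. -/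
private noncomputable def Tw_dl : G ≃* G where
  toFun g := ⟨Matrix.of (Tw_li g.1), (Tw_det g.1).trans g.2⟩
  invFun g := ⟨Matrix.of (Tw_li g.1), (Tw_det g.1).trans g.2⟩
  left_inv g := Subtype.ext (Tw_invol g.1)
  right_inv g := Subtype.ext (Tw_invol g.1)
  map_mul' g h := Subtype.ext (Tw_mul g.1 h.1)

private theorem Tw_dl2 (g : G) : Tw_dl (Tw_dl g) = g := Tw_dl.left_inv g

private theorem Tw_cont : Continuous (Tw_dl : G → G) :=
  Continuous.subtype_mk (Tw_li.continuous.comp continuous_subtype_val) _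

private theorem Tw_nrm (A : Fin 2 → Fin 2 → ℝ) : nrm (Tw_li A) = Tw_dl (nrm A) := by
  by_cases h : 0 < (Matrix.of A).det
  · have h' : 0 < (Matrix.of (Tw_li A)).det := by rwa [Tw_det]
    apply Subtype.ext
    unfold nrm
    rw [dif_pos h, dif_pos h']
    show (Real.sqrt (Matrix.of (Tw_li A)).det)⁻¹ • Matrix.of (Tw_li A) =
      Matrix.of (Tw_li ((Real.sqrt (Matrix.of A).det)⁻¹ • A))
    rw [Tw_det, map_smul]
    rfl
  · have h' : ¬ 0 < (Matrix.of (Tw_li A)).det := by rwa [Tw_det]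
    unfold nrm
    rw [dif_neg h, dif_neg h', map_one]

private theorem Tw_kk (θ : ℝ) : Tw_dl (kk θ) = kk (-θ) := by
  apply Subtype.ext
  ext i j
  show Tw_s i * Tw_s j * (!![Real.cos θ, -Real.sin θ; Real.sin θ, Real.cos θ] : Matrix (Fin 2) (Fin 2) ℝ) i j =
    (!![Real.cos (-θ), -Real.sin (-θ); Real.sin (-θ), Real.cos (-θ)] : Matrix (Fin 2) (Fin 2) ℝ) i j
  rw [Real.cos_neg, Real.sin_neg]
  fin_cases i <;> fin_cases j <;> simp [Tw_s]

variable {H : Type u} [NormedAddCommGroup H] [InnerProductSpace ℂ H] [CompleteSpace H]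

theorem twist (π : URep H) (Γ : Subgroup G) (η : H → ℂ) : ∃ (π' : URep H) (Γ' : Subgroup G) (dl : G ≃* G),
    (∀ g v, π'.r g v = π.r (dl g) v) ∧ (∀ v, Smooth π' v ↔ Smooth π v) ∧ (∀ (n : ℤ) (v), IsWeight π' n v ↔ IsWeight π (-n) v) ∧
    (Irred π → Irred π') ∧ (IsCocpt Γ → IsCocpt Γ') ∧ (IsAut π Γ η → IsAut π' Γ' η) := by
  let π' : URep H := ⟨π.r.comp Tw_dl.toMonoidHom, fun v => (π.cont v).comp Tw_cont⟩
  have hr : ∀ g v, π'.r g v = π.r (Tw_dl g) v := fun _ _ => rfl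
  have horb : ∀ v, orb π' v = orb π v ∘ Tw_li := by
    intro v
    funext A
    show π.r (Tw_dl (nrm A)) v = π.r (nrm (Tw_li A)) v
    rw [Tw_nrm]
  have horb' : ∀ v, orb π v = orb π' v ∘ Tw_li := by
    intro v
    rw [horb]
    funext A
    show orb π v A = orb π v (Tw_li (Tw_li A))
    rw [Tw_invol]
  have hpos : Set.MapsTo Tw_li pos pos := by
    intro A hA
    show 0 < (Matrix.of (Tw_li A)).det
    rw [Tw_det]
    exact hA
  have hsm : ∀ v, Smooth π' v ↔ Smooth π v := by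
    intro v
    constructor
    · intro h
      show ContDiffOn ℝ ((⊤ : ℕ∞) : WithTop ℕ∞) (orb π v) pos
      rw [horb']
      exact ContDiffOn.comp h Tw_li.contDiff.contDiffOn hpos
    · intro h
      show ContDiffOn ℝ ((⊤ : ℕ∞) : WithTop ℕ∞) (orb π' v) pos
      rw [horb]
      exact ContDiffOn.comp h Tw_li.contDiff.contDiffOn hpos
  have hjet : ∀ l v, jet π' l v = jet π l v := by
    intro l v
    unfold jet
    refine Finset.sum_congr rfl fun j _ => ?_
    rw [horb, LinearIsometryEquiv.norm_iteratedFDeriv_comp_right]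
    have h1 : Tw_li e1 = e1 := Tw_one
    rw [h1]
  refine ⟨π', Γ.comap Tw_dl.toMonoidHom, Tw_dl, hr, hsm, ?_, ?_, ?_, ?_⟩
  · intro n v
    constructor
    · intro h θ
      have h1 := h (-θ)
      rw [hr, Tw_kk, neg_neg] at h1
      rw [h1]
      congr 2
      push_cast
      ring
    · intro h θ
      rw [hr, Tw_kk, h (-θ)]
      congr 2
      push_cast
      ring
  · intro h
    refine ⟨h.nontriv, fun W hW hinv => h.irr W hW fun g w hw => ?_⟩
    have h1 := hinv (Tw_dl g) w hw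
    rwa [hr, Tw_dl2] at h1
  · rintro ⟨hd, Ω, hΩ, hcov⟩
    refine ⟨?_, Tw_dl '' Ω, hΩ.image Tw_cont, fun g => ?_⟩
    · have hf : Continuous (fun γ : ↥(Γ.comap Tw_dl.toMonoidHom) => (⟨Tw_dl γ.1, γ.2⟩ : ↥Γ)) :=
        Continuous.subtype_mk (Tw_cont.comp continuous_subtype_val) _
      refine DiscreteTopology.of_continuous_injective hf fun a b hab => ?_
      exact Subtype.ext (Tw_dl.injective (congrArg Subtype.val hab))
    · obtain ⟨γ, hγ, h1⟩ := hcov (Tw_dl g)
      refine ⟨Tw_dl γ, ?_, γ * Tw_dl g, h1, ?_⟩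
      · show Tw_dl (Tw_dl γ) ∈ Γ
        rwa [Tw_dl2]
      · rw [map_mul, Tw_dl2]
  · intro h
    refine ⟨⟨fun v w hv hw => h.lin.add v w ((hsm v).1 hv) ((hsm w).1 hw),
      fun c v hv => h.lin.smul c v ((hsm v).1 hv), ?_⟩, ?_, ?_⟩
    · obtain ⟨l, C, hb⟩ := h.lin.bound
      refine ⟨l, C, fun v hv => ?_⟩
      rw [hjet]
      exact hb v ((hsm v).1 hv)
    · intro γ hγ v hv
      exact h.inv (Tw_dl γ) hγ v ((hsm v).1 hv)
    · obtain ⟨v, hv, hne⟩ := h.ne
      exact ⟨v, (hsm v).2 hv, hne⟩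

end MPku
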