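import Pool.Agent.Lib.MP_7b255b_ntU.Lad
import Pool.Agent.Lib.MP_7b255b_ntU.MS
import Pool.Agent.Lib.MP_7b255b_ntU.R7
import Pool.Agent.Lib.MP_7b255b_ntU.Tw

/-!
# Mn: the mean square of the sup norms of the K-types
-/

set_option autoImplicit false

namespace MPku

open MPkt Finset

universe u

variable {H : Type u} [NormedAddCommGroup H] [InnerProductSpace ℂ H] [CompleteSpace H] {π : URep H}

omit [CompleteSpace H] in
private theorem r_mul (g h : G) (v : H) : π.r (g * h) v = π.r g (π.r h v) := by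
  rw [map_mul]
  rfl

/-- The values of the automorphic functions on the compact set. -/
private theorem eta_inv {Γ : Subgroup G} {η : H → ℂ} (hη : IsAut π Γ η) {v : H} (hv : Smooth π v) {γ : G} (hγ : γ ∈ Γ) (g : G) :
    η (π.r (γ * g) v) = η (π.r g v) := by
  rw [r_mul]
  exact hη.inv γ hγ _ (smooth_r π g hv)

/-- The automorphic functions are bounded. -/
theorem paut_bdd {Γ : Subgroup G} (hΓ : IsCocpt Γ) {η : H → ℂ} (hη : IsAut π Γ η) {v : H} (hv : Smooth π v) :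
    BddAbove (Set.range fun g : G => ‖η (π.r g v)‖) := by
  obtain ⟨_, Ω, hΩ, hc⟩ := hΓ
  have h1 : BddAbove ((fun g : G => ‖η (π.r g v)‖) '' Ω) := hΩ.bddAbove_image (eta_cont π hη.lin hv).norm.continuousOn
  obtain ⟨M, hM⟩ := h1
  refine ⟨M, ?_⟩
  rintro _ ⟨g, rfl⟩
  obtain ⟨γ, hγ, hg⟩ := hc g
  have h2 := hM ⟨γ * g, hg, rfl⟩
  change ‖η (π.r (γ * g) v)‖ ≤ M at h2
  rw [eta_inv hη hv hγ g] at h2
  exact h2

/-- A point of the compact set where the automorphic function is at least half of its sup norm. -/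
private theorem paut_half {Γ : Subgroup G} {η : H → ℂ} (hη : IsAut π Γ η) {Ω : Set G}
    (hc : ∀ g : G, ∃ γ ∈ Γ, γ * g ∈ Ω) {v : H} (hv : Smooth π v) : ∃ g ∈ Ω, paut π η v ≤ 2 * ‖η (π.r g v)‖ := by
  rcases le_or_gt (paut π η v) 0 with h0 | h0
  · obtain ⟨γ, _, hg⟩ := hc 1
    exact ⟨γ * 1, hg, h0.trans (by positivity)⟩
  · have h1 : paut π η v / 2 < paut π η v := by linarith
    obtain ⟨g, hg⟩ := exists_lt_of_lt_ciSup (h1 : paut π η v / 2 < ⨆ g : G, ‖η (π.r g v)‖)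
    obtain ⟨γ, hγ, hg'⟩ := hc g
    refine ⟨γ * g, hg', ?_⟩
    rw [eta_inv hη hv hγ g]
    linarith

private theorem compact_ent {Ω : Set G} (hΩ : IsCompact Ω) : ∃ R : ℝ, ∀ g ∈ Ω, Ent R g := by
  have h1 : ∀ i j : Fin 2, ∃ M : ℝ, ∀ g ∈ Ω, |g i j| ≤ M := by
    intro i j
    have h2 : Continuous fun g : G => |g i j| := by
      have h3 : Continuous fun g : G => (g : Matrix (Fin 2) (Fin 2) ℝ) i j :=
        (continuous_apply j).comp ((continuous_apply i).comp continuous_subtype_val)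
      exact h3.abs
    obtain ⟨M, hM⟩ := hΩ.bddAbove_image h2.continuousOn
    exact ⟨M, fun g hg => hM ⟨g, hg, rfl⟩⟩
  choose M hM using h1
  refine ⟨∑ i, ∑ j, |M i j|, fun g hg i j => ?_⟩
  have h2 : |M i j| ≤ ∑ j, |M i j| := single_le_sum (f := fun j => |M i j|) (fun _ _ => abs_nonneg _) (mem_univ j)
  have h3 : ∑ j, |M i j| ≤ ∑ i, ∑ j, |M i j| :=
    single_le_sum (f := fun i => ∑ j, |M i j|) (fun _ _ => sum_nonneg fun _ _ => abs_nonneg _) (mem_univ i)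
  exact (((hM i j g hg).trans (le_abs_self _)).trans h2).trans h3

/-- Positive weights of one parity. -/
theorem mean_pos (hI : Irred π) {Γ : Subgroup G} (hΓ : IsCocpt Γ) {η : H → ℂ} (hη : IsAut π Γ η) (ε : ℝ) (hε : 0 < ε) (par : ℤ) :
    ∃ C : ℝ, 1 ≤ C ∧ ∀ (N : ℕ) (v : ℕ → H) (B : Finset ℕ), 1 ≤ N → (∀ n ∈ B, N ≤ n ∧ n < 2 * N ∧ Even ((n : ℤ) - par)) →
      (∀ n ∈ B, Smooth π (v n) ∧ IsWeight π n (v n) ∧ ‖v n‖ = 1) →
      ∑ n ∈ B, paut π η (v n) ^ 2 ≤ C * (N : ℝ) ^ (3 / 2 + ε) := by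
  obtain ⟨s, φ, κ, hκ, hφ, -, hcomp⟩ := exists_ladder hI hΓ hη par
  obtain ⟨_, Ω, hΩ, hc⟩ := hΓ
  obtain ⟨R, hR⟩ := compact_ent hΩ
  obtain ⟨C1, hC1, hlarge⟩ := ladder_large hφ R (1 / 4 + ε / 4) (by linarith)
  obtain ⟨Cb, k, hbd⟩ := hφ.bd
  obtain ⟨C0, hC0⟩ : ∃ C0 : ℝ, C0 = max C1 (|Cb| * 2 ^ k) := ⟨_, rfl⟩
  obtain ⟨C2, hC2, hms⟩ := mean_of_large C0 s.re (ε / 2) (1 / 4 + ε / 4) k (by linarith) (by linarith)
  obtain ⟨D, hD⟩ : ∃ D : ℝ, D = 4 * (κ ^ 2)⁻¹ * 2 ^ |s.re| * C2 := ⟨_, rfl⟩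
  refine ⟨max D 1, le_max_right _ _, ?_⟩
  intro N v B hN hB hv
  have hN' : (1 : ℝ) ≤ N := by exact_mod_cast hN
  have hN0 : (0 : ℝ) < N := by linarith
  have hg : ∀ n : ℕ, ∃ g : G, n ∈ B → (g ∈ Ω ∧ paut π η (v n) ≤ 2 * ‖η (π.r g (v n))‖) := by
    intro n
    by_cases hn : n ∈ B
    · obtain ⟨g, h1, h2⟩ := paut_half hη hc (hv n hn).1
      exact ⟨g, fun _ => ⟨h1, h2⟩⟩
    · exact ⟨1, fun h => absurd h hn⟩
  choose g hg using hg
  obtain ⟨p, hp1, hp2⟩ : ∃ p : ℕ → ℝ, (∀ n ∈ B, p n = ‖φ n (g n)‖) ∧ ∀ n, n ∉ B → p n = 0 := by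
    classical
    exact ⟨fun n => if n ∈ B then ‖φ n (g n)‖ else 0, fun n hn => if_pos hn, fun n hn => if_neg hn⟩
  have hp0 : ∀ n, 0 ≤ p n := by
    intro n
    by_cases hn : n ∈ B
    · rw [hp1 n hn]
      exact norm_nonneg _
    · rw [hp2 n hn]
  have hbound : ∑ n ∈ Ico N (2 * N), p n ^ 2 ≤ C2 * (N : ℝ) ^ (1 - s.re + 2 * (1 / 4 + ε / 4) + ε / 2) := by
    refine hms N p hN hp0 ?_ ?_
    · intro n hn1 hn2
      have h1 : p n ≤ |Cb| * (1 + (n : ℝ)) ^ k := by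
        by_cases hn : n ∈ B
        · rw [hp1 n hn]
          refine (hbd n (g n)).trans ?_
          have h2 : |((n : ℤ) : ℝ)| = n := by
            rw [Int.cast_natCast, abs_of_nonneg (Nat.cast_nonneg n)]
          rw [h2]
          exact mul_le_mul_of_nonneg_right (le_abs_self _) (by positivity)
        · rw [hp2 n hn]
          positivity
      have h3 : (1 + (n : ℝ)) ^ k ≤ (2 * N) ^ k := by
        refine pow_le_pow_left₀ (by positivity) ?_ k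
        have h4 : (n : ℝ) + 1 ≤ 2 * N := by exact_mod_cast hn2
        linarith
      refine h1.trans ((mul_le_mul_of_nonneg_left h3 (abs_nonneg _)).trans ?_)
      rw [mul_pow, ← mul_assoc, hC0]
      exact mul_le_mul_of_nonneg_right (le_max_right _ _) (by positivity)
    · intro B' lam hB' hlam
      have hlog : 0 ≤ Real.log N := Real.log_nonneg hN'
      have hrhs : 0 ≤ (1 + Real.log N) ^ 2 * (N : ℝ) ^ (-s.re / 2) *
          (Real.sqrt B'.card * (N : ℝ) ^ (1 / 2 + (1 / 4 + ε / 4)) + B'.card * (N : ℝ) ^ (1 / 4 + ε / 4)) := by positivity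
      rcases le_or_gt lam 0 with h0 | h0
      · have h1 : (B'.card : ℝ) * lam ≤ 0 := mul_nonpos_of_nonneg_of_nonpos (Nat.cast_nonneg _) h0
        refine h1.trans ?_
        have h2 : 0 ≤ C0 := by
          rw [hC0]
          exact le_trans (by linarith) (le_max_left _ _)
        calc (0 : ℝ) ≤ C0 * ((1 + Real.log N) ^ 2 * (N : ℝ) ^ (-s.re / 2) *
              (Real.sqrt B'.card * (N : ℝ) ^ (1 / 2 + (1 / 4 + ε / 4)) + B'.card * (N : ℝ) ^ (1 / 4 + ε / 4))) := mul_nonneg h2 hrhs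
          _ = _ := by ring
      · have hsub : ∀ n ∈ B', n ∈ B := by
          intro n hn
          by_contra h1
          have h2 := hlam n hn
          rw [hp2 n h1] at h2
          linarith
        have h1 := hlarge N B' g lam hN hB' (fun n hn => hR _ (hg n (hsub n hn)).1) (fun n hn => by
          have h2 := hlam n hn
          rw [hp1 n (hsub n hn)] at h2
          exact h2)
        refine h1.trans ?_
        calc C1 * (1 + Real.log N) ^ 2 * (N : ℝ) ^ (-s.re / 2) *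
              (Real.sqrt B'.card * (N : ℝ) ^ (1 / 2 + (1 / 4 + ε / 4)) + B'.card * (N : ℝ) ^ (1 / 4 + ε / 4)) =
            C1 * ((1 + Real.log N) ^ 2 * (N : ℝ) ^ (-s.re / 2) *
              (Real.sqrt B'.card * (N : ℝ) ^ (1 / 2 + (1 / 4 + ε / 4)) + B'.card * (N : ℝ) ^ (1 / 4 + ε / 4))) := by ring
          _ ≤ C0 * ((1 + Real.log N) ^ 2 * (N : ℝ) ^ (-s.re / 2) *
              (Real.sqrt B'.card * (N : ℝ) ^ (1 / 2 + (1 / 4 + ε / 4)) + B'.card * (N : ℝ) ^ (1 / 4 + ε / 4))) := by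
            refine mul_le_mul_of_nonneg_right ?_ hrhs
            rw [hC0]
            exact le_max_left _ _
          _ = _ := by ring
  -- comparison
  have hterm : ∀ n ∈ B, paut π η (v n) ^ 2 ≤ (4 * (κ ^ 2)⁻¹ * 2 ^ |s.re| * (N : ℝ) ^ s.re) * p n ^ 2 := by
    intro n hn
    have hn1 : 1 ≤ n := hN.trans (hB n hn).1
    have hn0 : (0 : ℝ) < n := by exact_mod_cast hn1
    have h1 := hcomp n (by exact_mod_cast hn1) (hB n hn).2.2 (v n) (hv n hn).1 (hv n hn).2.1 (hv n hn).2.2 (g n)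
    rw [← hp1 n hn, Int.cast_natCast] at h1
    have h2 := (hg n hn).2
    have h3 : 0 ≤ paut π η (v n) := Real.iSup_nonneg fun _ => norm_nonneg _
    have h4 : 0 < κ * (n : ℝ) ^ (-s.re / 2) := mul_pos hκ (Real.rpow_pos_of_pos hn0 _)
    have h5 : κ * (n : ℝ) ^ (-s.re / 2) * paut π η (v n) ≤ 2 * p n := by
      calc κ * (n : ℝ) ^ (-s.re / 2) * paut π η (v n) ≤ κ * (n : ℝ) ^ (-s.re / 2) * (2 * ‖η (π.r (g n) (v n))‖) :=
            mul_le_mul_of_nonneg_left h2 h4.le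
        _ = 2 * (κ * (n : ℝ) ^ (-s.re / 2) * ‖η (π.r (g n) (v n))‖) := by ring
        _ ≤ 2 * p n := mul_le_mul_of_nonneg_left h1 zero_le_two
    have h6 : (κ * (n : ℝ) ^ (-s.re / 2) * paut π η (v n)) ^ 2 ≤ (2 * p n) ^ 2 :=
      pow_le_pow_left₀ (mul_nonneg h4.le h3) h5 2
    have h7 : ((n : ℝ) ^ (-s.re / 2)) ^ 2 = (n : ℝ) ^ (-s.re) := by
      rw [← Real.rpow_natCast, ← Real.rpow_mul hn0.le]
      congr 1
      push_cast
      ring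
    have h8 : κ ^ 2 * (n : ℝ) ^ (-s.re) * paut π η (v n) ^ 2 ≤ 4 * p n ^ 2 := by
      calc κ ^ 2 * (n : ℝ) ^ (-s.re) * paut π η (v n) ^ 2 = (κ * (n : ℝ) ^ (-s.re / 2) * paut π η (v n)) ^ 2 := by
            rw [← h7]
            ring
        _ ≤ (2 * p n) ^ 2 := h6
        _ = 4 * p n ^ 2 := by ring
    have h9 : (n : ℝ) ^ s.re * (n : ℝ) ^ (-s.re) = 1 := by
      rw [← Real.rpow_add hn0, add_neg_cancel, Real.rpow_zero]
    have h10 : paut π η (v n) ^ 2 ≤ 4 * (κ ^ 2)⁻¹ * (n : ℝ) ^ s.re * p n ^ 2 := by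
      have e1 : 0 ≤ (κ ^ 2)⁻¹ * (n : ℝ) ^ s.re := by positivity
      have e2 := mul_le_mul_of_nonneg_left h8 e1
      have e3 : (κ ^ 2)⁻¹ * (n : ℝ) ^ s.re * (κ ^ 2 * (n : ℝ) ^ (-s.re) * paut π η (v n) ^ 2) = paut π η (v n) ^ 2 := by
        have e4 : (κ ^ 2)⁻¹ * κ ^ 2 = 1 := inv_mul_cancel₀ (by positivity)
        calc (κ ^ 2)⁻¹ * (n : ℝ) ^ s.re * (κ ^ 2 * (n : ℝ) ^ (-s.re) * paut π η (v n) ^ 2) =
            ((κ ^ 2)⁻¹ * κ ^ 2) * ((n : ℝ) ^ s.re * (n : ℝ) ^ (-s.re)) * paut π η (v n) ^ 2 := by ring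
          _ = _ := by rw [e4, h9, one_mul, one_mul]
      rw [e3] at e2
      calc paut π η (v n) ^ 2 ≤ (κ ^ 2)⁻¹ * (n : ℝ) ^ s.re * (4 * p n ^ 2) := e2
        _ = 4 * (κ ^ 2)⁻¹ * (n : ℝ) ^ s.re * p n ^ 2 := by ring
    have h11 : (n : ℝ) ^ s.re ≤ 2 ^ |s.re| * (N : ℝ) ^ s.re := by
      have e1 : (n : ℝ) = (n / N) * N := by field_simp
      have e2 : (1 : ℝ) ≤ n / N := by
        rw [one_le_div hN0]
        exact_mod_cast (hB n hn).1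
      have e3 : (n : ℝ) / N ≤ 2 := by
        rw [div_le_iff₀ hN0]
        exact_mod_cast (hB n hn).2.1.le
      have e4 : ((n : ℝ) / N) ^ s.re ≤ 2 ^ |s.re| := by
        calc ((n : ℝ) / N) ^ s.re ≤ ((n : ℝ) / N) ^ |s.re| := Real.rpow_le_rpow_of_exponent_le e2 (le_abs_self _)
          _ ≤ 2 ^ |s.re| := Real.rpow_le_rpow (by linarith) e3 (abs_nonneg _)
      have e5 : (n : ℝ) ^ s.re = ((n : ℝ) / N) ^ s.re * (N : ℝ) ^ s.re := by
        rw [← Real.mul_rpow (by linarith) hN0.le, ← e1]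
      rw [e5]
      exact mul_le_mul_of_nonneg_right e4 (by positivity)
    refine h10.trans ?_
    refine mul_le_mul_of_nonneg_right ?_ (sq_nonneg _)
    calc 4 * (κ ^ 2)⁻¹ * (n : ℝ) ^ s.re ≤ 4 * (κ ^ 2)⁻¹ * (2 ^ |s.re| * (N : ℝ) ^ s.re) :=
          mul_le_mul_of_nonneg_left h11 (by positivity)
      _ = _ := by ring
  have hsub : B ⊆ Ico N (2 * N) := fun n hn => mem_Ico.2 ⟨(hB n hn).1, (hB n hn).2.1⟩
  have hsum : ∑ n ∈ B, p n ^ 2 ≤ C2 * (N : ℝ) ^ (1 - s.re + 2 * (1 / 4 + ε / 4) + ε / 2) :=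
    (sum_le_sum_of_subset_of_nonneg hsub fun _ _ _ => sq_nonneg _).trans hbound
  have hexp : (N : ℝ) ^ s.re * (N : ℝ) ^ (1 - s.re + 2 * (1 / 4 + ε / 4) + ε / 2) = (N : ℝ) ^ (3 / 2 + ε) := by
    rw [← Real.rpow_add hN0]
    congr 1
    ring
  calc ∑ n ∈ B, paut π η (v n) ^ 2 ≤ ∑ n ∈ B, (4 * (κ ^ 2)⁻¹ * 2 ^ |s.re| * (N : ℝ) ^ s.re) * p n ^ 2 := sum_le_sum hterm
    _ = (4 * (κ ^ 2)⁻¹ * 2 ^ |s.re| * (N : ℝ) ^ s.re) * ∑ n ∈ B, p n ^ 2 := by rw [mul_sum]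
    _ ≤ (4 * (κ ^ 2)⁻¹ * 2 ^ |s.re| * (N : ℝ) ^ s.re) * (C2 * (N : ℝ) ^ (1 - s.re + 2 * (1 / 4 + ε / 4) + ε / 2)) :=
        mul_le_mul_of_nonneg_left hsum (by positivity)
    _ = (4 * (κ ^ 2)⁻¹ * 2 ^ |s.re| * C2) * ((N : ℝ) ^ s.re * (N : ℝ) ^ (1 - s.re + 2 * (1 / 4 + ε / 4) + ε / 2)) := by ring
    _ = D * (N : ℝ) ^ (3 / 2 + ε) := by rw [hexp, hD]
    _ ≤ max D 1 * (N : ℝ) ^ (3 / 2 + ε) := mul_le_mul_of_nonneg_right (le_max_left _ _) (by positivity)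

/-- Positive weights. -/
private theorem mean_p (hI : Irred π) {Γ : Subgroup G} (hΓ : IsCocpt Γ) {η : H → ℂ} (hη : IsAut π Γ η) (ε : ℝ) (hε : 0 < ε) :
    ∃ C : ℝ, 1 ≤ C ∧ ∀ (N : ℕ) (v : ℤ → H) (B : Finset ℤ), 1 ≤ N → (∀ n ∈ B, (N : ℤ) ≤ n ∧ n < 2 * N) →
      (∀ n ∈ B, Smooth π (v n) ∧ IsWeight π n (v n) ∧ ‖v n‖ = 1) →
      ∑ n ∈ B, paut π η (v n) ^ 2 ≤ C * (N : ℝ) ^ (3 / 2 + ε) := by
  obtain ⟨Ca, hCa, ha⟩ := mean_pos hI hΓ hη ε hε 0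
  obtain ⟨Cb, hCb, hb⟩ := mean_pos hI hΓ hη ε hε 1
  refine ⟨Ca + Cb, by linarith, ?_⟩
  intro N v B hN hB hv
  have key : ∀ (par : ℤ) (C : ℝ), (∀ (N : ℕ) (v : ℕ → H) (B : Finset ℕ), 1 ≤ N → (∀ n ∈ B, N ≤ n ∧ n < 2 * N ∧
      Even ((n : ℤ) - par)) → (∀ n ∈ B, Smooth π (v n) ∧ IsWeight π n (v n) ∧ ‖v n‖ = 1) →
      ∑ n ∈ B, paut π η (v n) ^ 2 ≤ C * (N : ℝ) ^ (3 / 2 + ε)) → ∀ B' : Finset ℤ, B' ⊆ B → (∀ n ∈ B', Even (n - par)) →
      ∑ n ∈ B', paut π η (v n) ^ 2 ≤ C * (N : ℝ) ^ (3 / 2 + ε) := by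
    intro par C hC B' hB' hpar
    have hnn : ∀ n ∈ B', ((n.toNat : ℕ) : ℤ) = n := by
      intro n hn
      have h1 := (hB n (hB' hn)).1
      omega
    have h1 := hC N (fun n => v n) (B'.image Int.toNat) hN ?_ ?_
    · refine le_trans (le_of_eq ?_) h1
      rw [sum_image]
      · refine sum_congr rfl fun n hn => ?_
        rw [hnn n hn]
      · intro x hx y hy hxy
        have h2 : ((x.toNat : ℕ) : ℤ) = ((y.toNat : ℕ) : ℤ) := by rw [hxy]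
        rw [hnn x hx, hnn y hy] at h2
        exact h2
    · intro n hn
      obtain ⟨m, hm, rfl⟩ := mem_image.1 hn
      have h2 := hB m (hB' hm)
      refine ⟨by omega, by omega, ?_⟩
      rw [hnn m hm]
      exact hpar m hm
    · intro n hn
      obtain ⟨m, hm, rfl⟩ := mem_image.1 hn
      rw [hnn m hm]
      exact hv m (hB' hm)
  have h1 := key 0 Ca ha (B.filter fun n => Even n) (filter_subset _ _) (fun n hn => by
    rw [sub_zero]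
    exact (mem_filter.1 hn).2)
  have h2 := key 1 Cb hb (B.filter fun n => ¬Even n) (filter_subset _ _) (fun n hn => by
    have h3 := (mem_filter.1 hn).2
    rw [Int.not_even_iff_odd] at h3
    exact h3.sub_odd odd_one)
  rw [← sum_filter_add_sum_filter_not B (fun n => Even n)]
  calc ∑ n ∈ B.filter (fun n => Even n), paut π η (v n) ^ 2 + ∑ n ∈ B.filter (fun n => ¬Even n), paut π η (v n) ^ 2 ≤
      Ca * (N : ℝ) ^ (3 / 2 + ε) + Cb * (N : ℝ) ^ (3 / 2 + ε) := add_le_add h1 h2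
    _ = (Ca + Cb) * (N : ℝ) ^ (3 / 2 + ε) := by ring

theorem main (hI : Irred π) {Γ : Subgroup G} (hΓ : IsCocpt Γ) {η : H → ℂ} (hη : IsAut π Γ η) (ε : ℝ) (hε : 0 < ε) :
    ∃ C : ℝ, ∀ (N : ℕ) (v : ℤ → H) (B : Finset ℤ), 1 ≤ N → (∀ n ∈ B, (N : ℤ) ≤ |n| ∧ |n| < 2 * N) →
      (∀ n ∈ B, Smooth π (v n) ∧ IsWeight π n (v n) ∧ ‖v n‖ = 1) →
      ∑ n ∈ B, paut π η (v n) ^ 2 ≤ C * (N : ℝ) ^ (3 / 2 + ε) := by
  obtain ⟨Ca, hCa, ha⟩ := mean_p hI hΓ hη ε hε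
  obtain ⟨π', Γ', dl, h1, h2, h3, h4, h5, h6⟩ := twist π Γ η
  obtain ⟨Cb, hCb, hb⟩ := mean_p (h4 hI) (h5 hΓ) (h6 hη) ε hε
  have hpaut : ∀ v, paut π' η v = paut π η v := by
    intro v
    unfold paut
    have e1 : (fun g : G => ‖η (π'.r g v)‖) = (fun g : G => ‖η (π.r g v)‖) ∘ dl := by
      ext g
      rw [h1]
      rfl
    rw [e1]
    exact dl.surjective.iSup_comp (fun g : G => ‖η (π.r g v)‖)
  refine ⟨Ca + Cb, ?_⟩
  intro N v B hN hB hv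
  have hN0 : (0 : ℤ) < N := by exact_mod_cast hN
  have e1 := ha N v (B.filter fun n => 0 < n) hN (fun n hn => by
    obtain ⟨a1, a2⟩ := mem_filter.1 hn
    have a3 := hB n a1
    rw [abs_of_pos a2] at a3
    exact a3) (fun n hn => hv n (mem_filter.1 hn).1)
  have e2 := hb N (fun n => v (-n)) ((B.filter fun n => ¬0 < n).image fun n => -n) hN (fun n hn => by
    obtain ⟨m, hm, rfl⟩ := mem_image.1 hn
    obtain ⟨a1, a2⟩ := mem_filter.1 hm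
    have a3 := hB m a1
    rw [abs_of_nonpos (not_lt.1 a2)] at a3
    exact a3) (fun n hn => by
    obtain ⟨m, hm, rfl⟩ := mem_image.1 hn
    obtain ⟨a1, a2⟩ := mem_filter.1 hm
    rw [neg_neg]
    have a3 := hv m a1
    refine ⟨(h2 _).2 a3.1, ?_, a3.2.2⟩
    rw [h3, neg_neg]
    exact a3.2.1)
  rw [sum_image (fun x _ y _ h => neg_injective h)] at e2
  have e3 : ∑ n ∈ B.filter (fun n => ¬0 < n), paut π' η (v (- -n)) ^ 2 =
      ∑ n ∈ B.filter (fun n => ¬0 < n), paut π η (v n) ^ 2 := by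
    refine sum_congr rfl fun n _ => ?_
    rw [hpaut, neg_neg]
  rw [e3] at e2
  rw [← sum_filter_add_sum_filter_not B (fun n => 0 < n)]
  calc ∑ n ∈ B.filter (fun n => 0 < n), paut π η (v n) ^ 2 + ∑ n ∈ B.filter (fun n => ¬0 < n), paut π η (v n) ^ 2 ≤
      Ca * (N : ℝ) ^ (3 / 2 + ε) + Cb * (N : ℝ) ^ (3 / 2 + ε) := add_le_add e1 e2
    _ = (Ca + Cb) * (N : ℝ) ^ (3 / 2 + ε) := by ring

end MPku
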