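import Pool.Agent.Lib.MP_7b255b_ntU.K1
import Pool.Agent.Lib.MP_7b255b_ntU.K2q
import Pool.Agent.Lib.MP_7b255b_ntU.Cv

/-!
# Mu: the recursion over the scales

`V` a set of points, `E` a symmetric relation of tangency on `V`, all tangencies in an interval of the length `ρ = ρf M^(k+1)`. `rich_poor` with the cells of the length `ρ' = ρf M^k` and
`D^3 = A |V|^2 (16 / (w^4 a ρ'^2) + 1)` gives the poor pairs, at most `26 |V| D`, and for every cell `c` the set `R c`, `∑ |R c| ≤ 13 |V|`.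
* `dich`: `w D ≤ Y^2` or `ρ D w ≤ |V| / Y^2`. In the first case the total weight of the poor pairs is `≤ 26 |V| Y^2`; in the second case the poor pairs are put into a set `Q` with the arcs near the interval of the length `ρ`:
  `√(ρ · 26 |V| D w) ≤ 6 |V| / Y`.
* the other pairs are in the cells `c`, `E' = E` restricted to `R c` and to the cell: induction.
* `k = 0`: the whole set, `√(ρf w) |V| = |V| / Y`.
-/

set_option autoImplicit false

namespace MPku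

open Finset
open scoped Classical

/-- The dichotomy. -/
private theorem Mu_dich (A Y M w a r ρ D : ℝ) (hA : 1 ≤ A) (hY : 1 ≤ Y) (hM : 1 ≤ M) (hw : 0 < w) (ha : 0 < a) (hr : 0 < r)
    (hρ : 0 < ρ) (hD : 0 < D) (hD3 : D ^ 3 = A * r ^ 2 * (16 / (w ^ 4 * a * ρ ^ 2) + 1)) (hrY : r ≤ Y ^ 4)
    (haw : 32 * A * (Y ^ 2 * M ^ 2) < a * w) (h3 : w ^ 3 * a < 8) (h : Y ^ 2 < w * D) :
    M * ρ * D * w ≤ r / Y ^ 2 := by
  have hY0 : 0 < Y := by linarith
  have hM0 : 0 < M := by linarith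
  have hM2 : 1 ≤ M ^ 2 := one_le_pow₀ hM
  -- `(w Y)^2 < 1 / (4 A)`
  have hwY : 4 * A * (w * Y) ^ 2 ≤ 1 := by
    have e1 : w ^ 2 * (a * w) < 8 := by
      have : w ^ 2 * (a * w) = w ^ 3 * a := by ring
      rw [this]
      exact h3
    have e2 : w ^ 2 * (32 * A * (Y ^ 2 * M ^ 2)) ≤ w ^ 2 * (a * w) := mul_le_mul_of_nonneg_left haw.le (by positivity)
    have e3 : w ^ 2 * (32 * A * (Y ^ 2 * 1)) ≤ w ^ 2 * (32 * A * (Y ^ 2 * M ^ 2)) := by
      refine mul_le_mul_of_nonneg_left ?_ (by positivity)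
      refine mul_le_mul_of_nonneg_left ?_ (by positivity)
      exact mul_le_mul_of_nonneg_left hM2 (by positivity)
    have e4 : w ^ 2 * (32 * A * (Y ^ 2 * 1)) = 8 * (4 * A * (w * Y) ^ 2) := by ring
    rw [e4] at e3
    linarith
  have hwY1 : w * Y ≤ 1 := by
    have e1 : (w * Y) ^ 2 ≤ 1 ^ 2 := by
      have e2 : 1 * (w * Y) ^ 2 ≤ 4 * A * (w * Y) ^ 2 := mul_le_mul_of_nonneg_right (by linarith) (sq_nonneg _)
      linarith
    exact le_of_pow_le_pow_left₀ two_ne_zero zero_le_one e1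
  obtain ⟨s, hs⟩ : ∃ s : ℝ, s = 16 / (w * a) := ⟨_, rfl⟩
  have hs0 : 0 < s := by
    rw [hs]
    positivity
  have hs1 : 2 * A * s * M ^ 2 * Y ^ 2 ≤ 1 := by
    have e1 : s * (w * a) = 16 := by
      rw [hs]
      exact div_mul_cancel₀ _ (by positivity)
    have e2 : s * (32 * A * (Y ^ 2 * M ^ 2)) ≤ s * (a * w) := mul_le_mul_of_nonneg_left haw.le hs0.le
    have e3 : s * (a * w) = 16 := by
      rw [← e1]
      ring
    have e4 : s * (32 * A * (Y ^ 2 * M ^ 2)) = 16 * (2 * A * s * M ^ 2 * Y ^ 2) := by ring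
    rw [e3, e4] at e2
    linarith
  -- `(w D)^3`
  have hwD : (w * D) ^ 3 = A * r ^ 2 * s / ρ ^ 2 + A * r ^ 2 * w ^ 3 := by
    rw [mul_pow, hD3, hs]
    field_simp
  have hsmall : A * r ^ 2 * w ^ 3 ≤ Y ^ 6 / 2 := by
    have e1 : A * r ^ 2 * w ^ 3 ≤ A * (Y ^ 4) ^ 2 * w ^ 3 := by
      refine mul_le_mul_of_nonneg_right ?_ (by positivity)
      exact mul_le_mul_of_nonneg_left (pow_le_pow_left₀ hr.le hrY 2) (by linarith)
    have e2 : A * (Y ^ 4) ^ 2 * w ^ 3 = A * (w * Y) ^ 2 * (w * Y) * Y ^ 5 := by ring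
    have e3 : A * (w * Y) ^ 2 * (w * Y) ≤ 1 / 4 * 1 := by
      refine mul_le_mul ?_ hwY1 (by positivity) (by norm_num)
      linarith
    have e4 : A * (w * Y) ^ 2 * (w * Y) * Y ^ 5 ≤ 1 / 4 * 1 * Y ^ 5 := mul_le_mul_of_nonneg_right e3 (by positivity)
    have e5 : Y ^ 5 ≤ Y ^ 6 := pow_le_pow_right₀ hY (by norm_num)
    have e6 : 0 ≤ Y ^ 6 := by positivity
    rw [e2] at e1
    linarith
  have hbig : Y ^ 6 / 2 ≤ A * r ^ 2 * s / ρ ^ 2 := by
    have e1 : (Y ^ 2) ^ 3 ≤ (w * D) ^ 3 := pow_le_pow_left₀ (by positivity) h.le 3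
    rw [hwD] at e1
    have e2 : (Y ^ 2) ^ 3 = Y ^ 6 := by ring
    linarith
  have hup : (w * D) ^ 3 ≤ 2 * (A * r ^ 2 * s / ρ ^ 2) := by
    rw [hwD]
    linarith
  -- the lower bound for `r`
  have hr1 : Y ^ 6 * ρ ^ 2 ≤ 2 * A * s * r ^ 2 := by
    have e1 : Y ^ 6 / 2 * ρ ^ 2 ≤ A * r ^ 2 * s / ρ ^ 2 * ρ ^ 2 := mul_le_mul_of_nonneg_right hbig (by positivity)
    have e2 : A * r ^ 2 * s / ρ ^ 2 * ρ ^ 2 = A * r ^ 2 * s := div_mul_cancel₀ _ (by positivity)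
    rw [e2] at e1
    linarith
  have hr2 : 2 * A * M ^ 3 * ρ * s * Y ^ 6 ≤ r := by
    refine le_of_pow_le_pow_left₀ two_ne_zero hr.le ?_
    -- `(2 A M^3 ρ s Y^6)^2 = (2 A s M^2 Y^2)^2 M^2 Y^8 ρ^2 ...`
    have e1 : (2 * A * s * M ^ 2 * Y ^ 2) ^ 3 ≤ 1 := pow_le_one₀ (by positivity) hs1
    have e2 : (2 * A * s) * (2 * A * M ^ 3 * ρ * s * Y ^ 6) ^ 2 = (2 * A * s * M ^ 2 * Y ^ 2) ^ 3 * (Y ^ 6 * ρ ^ 2) := by ring
    have e3 : (2 * A * s) * (2 * A * M ^ 3 * ρ * s * Y ^ 6) ^ 2 ≤ (2 * A * s) * r ^ 2 := by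
      rw [e2]
      calc (2 * A * s * M ^ 2 * Y ^ 2) ^ 3 * (Y ^ 6 * ρ ^ 2) ≤ 1 * (Y ^ 6 * ρ ^ 2) := mul_le_mul_of_nonneg_right e1 (by positivity)
        _ ≤ 2 * A * s * r ^ 2 := by
          rw [one_mul]
          exact hr1
    exact le_of_mul_le_mul_left e3 (by positivity)
  -- conclusion
  have hfin : (M * ρ * D * w) ^ 3 ≤ (r / Y ^ 2) ^ 3 := by
    have e1 : (M * ρ * D * w) ^ 3 = M ^ 3 * ρ ^ 3 * (w * D) ^ 3 := by ring
    have e2 : M ^ 3 * ρ ^ 3 * (w * D) ^ 3 ≤ M ^ 3 * ρ ^ 3 * (2 * (A * r ^ 2 * s / ρ ^ 2)) :=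
      mul_le_mul_of_nonneg_left hup (by positivity)
    have e3 : M ^ 3 * ρ ^ 3 * (2 * (A * r ^ 2 * s / ρ ^ 2)) = (2 * A * M ^ 3 * ρ * s * Y ^ 6) * (r ^ 2 / Y ^ 6) := by
      field_simp
    have e4 : (2 * A * M ^ 3 * ρ * s * Y ^ 6) * (r ^ 2 / Y ^ 6) ≤ r * (r ^ 2 / Y ^ 6) :=
      mul_le_mul_of_nonneg_right hr2 (by positivity)
    have e5 : r * (r ^ 2 / Y ^ 6) = (r / Y ^ 2) ^ 3 := by
      rw [div_pow]
      ring
    rw [e1]
    rw [e3] at e2
    rw [e5] at e4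
    exact e2.trans e4
  exact le_of_pow_le_pow_left₀ (by norm_num) (by positivity) hfin

private theorem Mu_root (Q : ℝ) (hQ : 1 ≤ Q) : ∃ D : ℝ, 1 ≤ D ∧ D ^ 3 = Q := by
  refine ⟨Q ^ ((1 : ℝ) / 3), Real.one_le_rpow hQ (by norm_num), ?_⟩
  rw [← Real.rpow_natCast, ← Real.rpow_mul (by linarith)]
  norm_num

private theorem Mu_card (S : Finset ℕ) (u r : ℝ) (hr : 0 ≤ r)
    (h : ∀ j ∈ S, u ≤ (j : ℝ) ∧ (j : ℝ) ≤ u + r) : (S.card : ℝ) ≤ r + 1 := by
  rcases S.eq_empty_or_nonempty with h0 | h0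
  · rw [h0, card_empty, Nat.cast_zero]
    linarith
  · have h1 : S ⊆ Icc (S.min' h0) (S.max' h0) := fun j hj =>
      mem_Icc.2 ⟨S.min'_le j hj, S.le_max' j hj⟩
    have h2 := card_le_card h1
    rw [Nat.card_Icc] at h2
    have h3 : S.min' h0 ≤ S.max' h0 := S.min'_le _ (S.max'_mem h0)
    have h4 := (h _ (S.min'_mem h0)).1
    have h5 := (h _ (S.max'_mem h0)).2
    have h6 : S.card + S.min' h0 ≤ S.max' h0 + 1 := by omega
    have h7 := (Nat.cast_le (α := ℝ)).2 h6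
    push_cast at h7
    linarith

/-- The number of the arcs near an interval. -/
private theorem Mu_near (J : ℕ) (hJ : 0 < J) (x L : ℝ) (hL : 0 ≤ L) :
    (((range J).filter fun j => |arc J j - x| ≤ L).card : ℝ) ≤ L * J / 2 + 1 := by
  have hJ' : (0 : ℝ) < J := Nat.cast_pos.2 hJ
  refine Mu_card _ ((x + 2 - L) * J / 4) (L * J / 2) (by positivity) fun j hj => ?_
  rw [mem_filter] at hj
  have h1 := abs_le.1 hj.2
  unfold arc at h1
  have h2 : 4 * (j : ℝ) / J * J = 4 * j := by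
    field_simp
  have h3 : (x + 2 - L) * J ≤ 4 * j := by
    rw [← h2]
    exact mul_le_mul_of_nonneg_right (by linarith [h1.1]) hJ'.le
  have h4 : 4 * (j : ℝ) ≤ (x + 2 + L) * J := by
    rw [← h2]
    exact mul_le_mul_of_nonneg_right (by linarith [h1.2]) hJ'.le
  constructor
  · linarith
  · linarith

/-- The cost of one cell of the length `ρ` with the total weight `≤ W`. -/
private theorem Mu_cost (c' : ℝ) (hc' : 0 ≤ c') (J : ℕ) (hJ : 0 < J) (wt : ℕ → ℕ → ℝ) (Q : Finset (ℕ × ℕ)) (x0 ρ W K : ℝ)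
    (hρ : 0 < ρ) (hρJ : 1 ≤ ρ * J) (hQ : ∑ q ∈ Q, wt q.1 q.2 ≤ W) (hK : 0 ≤ K) (hW : ρ * W ≤ K ^ 2) :
    cst J wt (Q, (range J).filter fun j => |arc J j - x0| ≤ (2 * c' + 1) * ρ) ≤ 2 * Real.sqrt (c' + 2) * K := by
  have hJr : (0 : ℝ) < J := Nat.cast_pos.2 hJ
  have h4 := Mu_near J hJ x0 ((2 * c' + 1) * ρ) (by positivity)
  have h5 : (((range J).filter fun j => |arc J j - x0| ≤ (2 * c' + 1) * ρ).card : ℝ) ≤ (c' + 2) * (ρ * J) := by
    have h6 : (2 * c' + 1) * ρ * J / 2 = (c' + 1 / 2) * (ρ * J) := by ring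
    have h7 : (c' + 2) * (ρ * J) = (c' + 1 / 2) * (ρ * J) + 3 / 2 * (ρ * J) := by ring
    rw [h6] at h4
    rw [h7]
    linarith
  have h6 : 4 * (((range J).filter fun j => |arc J j - x0| ≤ (2 * c' + 1) * ρ).card : ℝ) / J ≤ 4 * (c' + 2) * ρ := by
    rw [div_le_iff₀ hJr]
    calc 4 * (((range J).filter fun j => |arc J j - x0| ≤ (2 * c' + 1) * ρ).card : ℝ) ≤ 4 * ((c' + 2) * (ρ * J)) :=
          mul_le_mul_of_nonneg_left h5 (by norm_num)
      _ = 4 * (c' + 2) * ρ * J := by ring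
  unfold cst
  calc Real.sqrt (4 * (((range J).filter fun j => |arc J j - x0| ≤ (2 * c' + 1) * ρ).card : ℝ) / J) *
        Real.sqrt (∑ q ∈ Q, wt q.1 q.2) ≤ Real.sqrt (4 * (c' + 2) * ρ) * Real.sqrt W :=
        mul_le_mul (Real.sqrt_le_sqrt h6) (Real.sqrt_le_sqrt hQ) (Real.sqrt_nonneg _) (Real.sqrt_nonneg _)
    _ = Real.sqrt (4 * (c' + 2) * (ρ * W)) := by
        rw [← Real.sqrt_mul (by positivity), mul_assoc]
    _ ≤ Real.sqrt (4 * (c' + 2) * K ^ 2) := Real.sqrt_le_sqrt (mul_le_mul_of_nonneg_left hW (by positivity))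
    _ = Real.sqrt ((2 * Real.sqrt (c' + 2) * K) ^ 2) := by
        congr 1
        rw [mul_pow, mul_pow, Real.sq_sqrt (by linarith)]
        ring
    _ = 2 * Real.sqrt (c' + 2) * K := Real.sqrt_sq (by positivity)

private theorem Mu_qD_neg (z : T3) : qD (-z) = qD z := by
  unfold qD
  simp only [Pi.neg_apply]
  ring

private theorem Mu_qc_neg (z : T3) : qc (-z) = qc z := by
  unfold qc
  simp only [Pi.neg_apply, neg_div_neg_eq]

/-- The recursion. -/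
theorem multi (A c' : ℝ) (hA : 1 ≤ A) (hc' : 0 ≤ c') (Y M w a t ε ρf : ℝ) (hY : 1 ≤ Y) (hM : 1 ≤ M) (hw : 0 < w) (ha : 0 < a)
    (hρf : 0 < ρf) (hρw : ρf * w = 1 / Y ^ 2) (haw : 32 * A * (Y ^ 2 * M ^ 2) < a * w) (h3 : w ^ 3 * a < 8) (V0 : Finset ℕ)
    (hV0 : (V0.card : ℝ) ≤ Y ^ 4) (y : ℕ → T3) (J : ℕ) (hJ : 0 < J) (hρJ : 1 ≤ ρf * J) (NJ : ℕ → ℕ → Finset ℕ)
    (wt : ℕ → ℕ → ℝ) (hwt : ∀ n m, 0 ≤ wt n m)
    (hquad : ∀ V ⊆ V0, ∀ ρ : ℝ, ρf ≤ ρ → (((V ×ˢ V ×ˢ V ×ˢ V).filter fun q => Rel t ε (y q.1 - y q.2.1) ∧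
      Rel t ε (y q.1 - y q.2.2.1) ∧ Rel t ε (y q.1 - y q.2.2.2) ∧
      2 ≤ |cell ρ (y q.1 - y q.2.1) - cell ρ (y q.1 - y q.2.2.1)| ∧ 2 ≤ |cell ρ (y q.1 - y q.2.1) - cell ρ (y q.1 - y q.2.2.2)| ∧
      2 ≤ |cell ρ (y q.1 - y q.2.2.1) - cell ρ (y q.1 - y q.2.2.2)|).card : ℝ) ≤
      A * (V.card : ℝ) ^ 3 * (16 / (w ^ 4 * a * ρ ^ 2) + 1)) (k : ℕ) :
    ∀ (V : Finset ℕ) (E : ℕ → ℕ → Prop) (x0 : ℝ), V ⊆ V0 → (∀ s b, E s b → E b s) →
      (∀ s b, E s b → s ∈ V ∧ b ∈ V ∧ Rel t ε (y s - y b) ∧ |qc (y s - y b) - x0| ≤ ρf * M ^ k ∧ wt s b ≤ w ∧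
        ∀ j ∈ NJ s b, j < J ∧ |arc J j - qc (y s - y b)| ≤ 2 * c' * ρf) →
      Cov J NJ wt E (40 ^ k * (26 + 12 * Real.sqrt (c' + 2)) * V.card * Y ^ 2)
        (40 ^ k * (26 + 12 * Real.sqrt (c' + 2)) * V.card / Y) := by
  obtain ⟨g, hg⟩ : ∃ g : ℝ, g = 26 + 12 * Real.sqrt (c' + 2) := ⟨_, rfl⟩
  have hsq : 0 ≤ Real.sqrt (c' + 2) := Real.sqrt_nonneg _
  have hg26 : 26 ≤ g := by
    rw [hg]
    linarith
  have hg12 : 12 * Real.sqrt (c' + 2) ≤ g := by
    rw [hg]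
    linarith
  have hY0 : 0 < Y := by linarith
  have hM0 : 0 < M := by linarith
  rw [← hg]
  -- the arcs near the pairs
  have hnear : ∀ (ρ x0 : ℝ) (s b : ℕ), ρf ≤ ρ → |qc (y s - y b) - x0| ≤ ρ →
      (∀ j ∈ NJ s b, j < J ∧ |arc J j - qc (y s - y b)| ≤ 2 * c' * ρf) →
      NJ s b ⊆ (range J).filter fun j => |arc J j - x0| ≤ (2 * c' + 1) * ρ := by
    intro ρ x0 s b hρ hx hj j hjm
    obtain ⟨h1, h2⟩ := hj j hjm
    refine mem_filter.2 ⟨mem_range.2 h1, ?_⟩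
    have h4 := abs_sub_le (arc J j) (qc (y s - y b)) x0
    have h5 : 2 * c' * ρf ≤ 2 * c' * ρ := mul_le_mul_of_nonneg_left hρ (by linarith)
    linarith
  induction k with
  | zero =>
    intro V E x0 hV hsym hE
    rw [pow_zero, one_mul]
    refine (Cov.one ((V ×ˢ V).filter fun q => E q.1 q.2, (range J).filter fun j => |arc J j - x0| ≤ (2 * c' + 1) * ρf)
      (β := 2 * Real.sqrt (c' + 2) * (V.card / Y)) ?_ ?_).mono (fun _ _ h => h) ?_ ?_
    · intro n m h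
      obtain ⟨h1, h2, _, h4, _, h6⟩ := hE n m h
      rw [pow_zero, mul_one] at h4
      exact ⟨mem_filter.2 ⟨mem_product.2 ⟨h1, h2⟩, h⟩, hnear ρf x0 n m le_rfl h4 h6⟩
    · refine Mu_cost c' hc' J hJ wt _ x0 ρf (w * (V.card : ℝ) ^ 2) (V.card / Y) hρf hρJ ?_ (by positivity) ?_
      · have h1 : ∑ q ∈ (V ×ˢ V).filter (fun q => E q.1 q.2), wt q.1 q.2 ≤
            ((V ×ˢ V).filter (fun q => E q.1 q.2)).card • w :=
          sum_le_card_nsmul _ _ _ fun q hq => (hE _ _ (mem_filter.1 hq).2).2.2.2.2.1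
        rw [nsmul_eq_mul] at h1
        refine h1.trans ?_
        have h2 : (((V ×ˢ V).filter (fun q => E q.1 q.2)).card : ℝ) ≤ (V.card : ℝ) ^ 2 := by
          have h4 := card_le_card (filter_subset (fun q : ℕ × ℕ => E q.1 q.2) (V ×ˢ V))
          rw [card_product] at h4
          rw [pow_two]
          exact_mod_cast h4
        calc (((V ×ˢ V).filter (fun q => E q.1 q.2)).card : ℝ) * w ≤ (V.card : ℝ) ^ 2 * w := mul_le_mul_of_nonneg_right h2 hw.le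
          _ = w * (V.card : ℝ) ^ 2 := by ring
      · refine le_of_eq ?_
        calc ρf * (w * (V.card : ℝ) ^ 2) = ρf * w * (V.card : ℝ) ^ 2 := by ring
          _ = (V.card / Y) ^ 2 := by
            rw [hρw, div_pow]
            ring
    · positivity
    · have h1 : 2 * Real.sqrt (c' + 2) ≤ g := by linarith
      calc 2 * Real.sqrt (c' + 2) * (V.card / Y) ≤ g * (V.card / Y) := mul_le_mul_of_nonneg_right h1 (by positivity)
        _ = g * V.card / Y := by ring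
  | succ k ih =>
    intro V E x0 hV hsym hE
    rcases V.eq_empty_or_nonempty with hV1 | hV1
    · refine (Cov.flat ∅ ?_ (le_of_eq sum_empty)).mono (fun _ _ h => h) (by positivity) (by positivity)
      intro n m h
      have h1 := (hE n m h).1
      rw [hV1] at h1
      exact absurd h1 (notMem_empty n)
    obtain ⟨r, hr⟩ : ∃ r : ℝ, r = V.card := ⟨_, rfl⟩
    have hr1 : 1 ≤ r := by
      rw [hr]
      exact_mod_cast hV1.card_pos
    have hrY : r ≤ Y ^ 4 := by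
      rw [hr]
      refine le_trans ?_ hV0
      exact_mod_cast card_le_card hV
    obtain ⟨ρ, hρ⟩ : ∃ ρ : ℝ, ρ = ρf * M ^ k := ⟨_, rfl⟩
    have hρρ : ρf ≤ ρ := by
      rw [hρ]
      exact le_mul_of_one_le_right hρf.le (one_le_pow₀ hM)
    have hρ0 : 0 < ρ := by linarith
    have hρM : ρf * M ^ (k + 1) = M * ρ := by
      rw [hρ]
      ring
    have hρM0 : ρf ≤ M * ρ := hρρ.trans (le_mul_of_one_le_left hρ0.le hM)
    obtain ⟨Q, hQ⟩ : ∃ Q : ℝ, Q = A * r ^ 2 * (16 / (w ^ 4 * a * ρ ^ 2) + 1) := ⟨_, rfl⟩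
    have hQ1 : 1 ≤ Q := by
      rw [hQ]
      have h4 : 0 ≤ 16 / (w ^ 4 * a * ρ ^ 2) := by positivity
      have h5 : 1 ≤ r ^ 2 := one_le_pow₀ hr1
      exact one_le_mul_of_one_le_of_one_le (one_le_mul_of_one_le_of_one_le hA h5) (by linarith)
    obtain ⟨D, hD1, hD3⟩ := Mu_root Q hQ1
    have hcount : (((V ×ˢ V ×ˢ V ×ˢ V).filter fun q => E q.1 q.2.1 ∧ E q.1 q.2.2.1 ∧ E q.1 q.2.2.2 ∧
        2 ≤ |cell ρ (y q.1 - y q.2.1) - cell ρ (y q.1 - y q.2.2.1)| ∧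
        2 ≤ |cell ρ (y q.1 - y q.2.1) - cell ρ (y q.1 - y q.2.2.2)| ∧
        2 ≤ |cell ρ (y q.1 - y q.2.2.1) - cell ρ (y q.1 - y q.2.2.2)|).card : ℝ) ≤ V.card * D ^ 3 := by
      have h4 := hquad V hV ρ hρρ
      refine le_trans ?_ (h4.trans (le_of_eq ?_))
      · rw [Nat.cast_le]
        refine card_le_card fun q hq => ?_
        obtain ⟨h5, h6, h7, h8, h9⟩ := mem_filter.1 hq
        exact mem_filter.2 ⟨h5, (hE _ _ h6).2.2.1, (hE _ _ h7).2.2.1, (hE _ _ h8).2.2.1, h9⟩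
      · rw [hD3, hQ, hr]
        ring
    obtain ⟨R, hRV, hRs, hRp⟩ := rich_poor V E (fun s b => cell ρ (y s - y b)) D hsym
      (fun s b => by
        have h4 := Mu_qc_neg (y s - y b)
        rw [neg_sub] at h4
        unfold cell
        rw [h4]) hD1 hcount
    -- the poor pairs
    obtain ⟨Pp, hPp⟩ : ∃ Pp : Finset (ℕ × ℕ), Pp = (V ×ˢ V).filter fun q => E q.1 q.2 ∧
        ¬(q.1 ∈ R (cell ρ (y q.1 - y q.2)) ∧ q.2 ∈ R (cell ρ (y q.1 - y q.2))) := ⟨_, rfl⟩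
    rw [← hPp, ← hr] at hRp
    have hPw : ∑ q ∈ Pp, wt q.1 q.2 ≤ 26 * r * D * w := by
      have h1 : ∑ q ∈ Pp, wt q.1 q.2 ≤ Pp.card • w := sum_le_card_nsmul _ _ _ fun q hq => by
        rw [hPp] at hq
        exact (hE _ _ (mem_filter.1 hq).2.1).2.2.2.2.1
      rw [nsmul_eq_mul] at h1
      exact h1.trans (mul_le_mul_of_nonneg_right hRp hw.le)
    have hpoor : Cov J NJ wt (fun n m => (n, m) ∈ Pp) (26 * r * Y ^ 2) (12 * Real.sqrt (c' + 2) * (r / Y)) := by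
      rcases le_or_gt (w * D) (Y ^ 2) with h4 | h4
      · refine (Cov.flat Pp (fun _ _ h => h) hPw).mono (fun _ _ h => h) ?_ (by positivity)
        calc 26 * r * D * w = 26 * r * (w * D) := by ring
          _ ≤ 26 * r * Y ^ 2 := mul_le_mul_of_nonneg_left h4 (by positivity)
      · have h5 := Mu_dich A Y M w a r ρ D hA hY hM hw ha (by linarith) hρ0 (by linarith) (by rw [hD3, hQ]) hrY haw h3 h4
        refine (Cov.one (Pp, (range J).filter fun j => |arc J j - x0| ≤ (2 * c' + 1) * (M * ρ))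
          (β := 2 * Real.sqrt (c' + 2) * (6 * r / Y)) ?_ ?_).mono (fun _ _ h => h) (by positivity) (le_of_eq (by ring))
        · intro n m h
          refine ⟨h, ?_⟩
          rw [hPp] at h
          obtain ⟨_, _, _, h6, _, h7⟩ := hE n m (mem_filter.1 h).2.1
          rw [hρM] at h6
          exact hnear (M * ρ) x0 n m hρM0 h6 h7
        · refine Mu_cost c' hc' J hJ wt Pp x0 (M * ρ) (26 * r * D * w) (6 * r / Y) (by positivity) ?_ hPw (by positivity) ?_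
          · exact hρJ.trans (mul_le_mul_of_nonneg_right hρM0 (Nat.cast_nonneg _))
          · calc M * ρ * (26 * r * D * w) = 26 * r * (M * ρ * D * w) := by ring
              _ ≤ 26 * r * (r / Y ^ 2) := mul_le_mul_of_nonneg_left h5 (by positivity)
              _ = 26 * (r / Y) ^ 2 := by
                rw [div_pow]
                ring
              _ ≤ 36 * (r / Y) ^ 2 := mul_le_mul_of_nonneg_right (by norm_num) (by positivity)
              _ = (6 * r / Y) ^ 2 := by ring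
    -- the rich pairs
    obtain ⟨K, hK⟩ : ∃ K : Finset ℤ, K = (V ×ˢ V).image fun q => cell ρ (y q.1 - y q.2) := ⟨_, rfl⟩
    have hrich := Cov.sum (J := J) (NJ := NJ) (wt := wt) hwt K
      (fun c s b => E s b ∧ cell ρ (y s - y b) = c ∧ s ∈ R c ∧ b ∈ R c)
      (fun c => 40 ^ k * g * (R c).card * Y ^ 2) (fun c => 40 ^ k * g * (R c).card / Y) (by
        intro c _
        refine ih (R c) _ (c * ρ) ((hRV c).trans hV) ?_ ?_
        · rintro s b ⟨h4, h5, h6, h7⟩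
          refine ⟨hsym s b h4, ?_, h7, h6⟩
          rw [← h5]
          have h8 := Mu_qc_neg (y s - y b)
          rw [neg_sub] at h8
          unfold cell
          rw [h8]
        · rintro s b ⟨h4, h5, h6, h7⟩
          obtain ⟨_, _, h8, _, h10, h11⟩ := hE s b h4
          refine ⟨h6, h7, h8, ?_, h10, h11⟩
          rw [← hρ, ← h5]
          have e1 := Int.floor_le (qc (y s - y b) / ρ)
          have e2 := Int.lt_floor_add_one (qc (y s - y b) / ρ)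
          have e3 : qc (y s - y b) / ρ * ρ = qc (y s - y b) := div_mul_cancel₀ _ hρ0.ne'
          unfold cell
          rw [abs_le]
          constructor
          · have e4 := mul_le_mul_of_nonneg_right e1 hρ0.le
            rw [e3] at e4
            linarith
          · have e4 := mul_le_mul_of_nonneg_right e2.le hρ0.le
            rw [e3] at e4
            linarith)
    have hsumR := hRs K
    rw [← hr] at hsumR
    have h40 : (0 : ℝ) < 40 ^ k := by positivity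
    have h401 : (1 : ℝ) ≤ 40 ^ k := one_le_pow₀ (by norm_num)
    have hg0 : 0 < g := by linarith
    have hα : ∑ c ∈ K, 40 ^ k * g * ((R c).card : ℝ) * Y ^ 2 ≤ 13 * (40 ^ k * g * r * Y ^ 2) := by
      rw [← sum_mul, ← mul_sum]
      calc 40 ^ k * g * (∑ c ∈ K, ((R c).card : ℝ)) * Y ^ 2 ≤ 40 ^ k * g * (13 * r) * Y ^ 2 :=
            mul_le_mul_of_nonneg_right (mul_le_mul_of_nonneg_left hsumR (by positivity)) (by positivity)
        _ = 13 * (40 ^ k * g * r * Y ^ 2) := by ring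
    have hβ : ∑ c ∈ K, 40 ^ k * g * ((R c).card : ℝ) / Y ≤ 13 * (40 ^ k * g * r / Y) := by
      rw [← sum_div, ← mul_sum]
      calc 40 ^ k * g * (∑ c ∈ K, ((R c).card : ℝ)) / Y ≤ 40 ^ k * g * (13 * r) / Y :=
            div_le_div_of_nonneg_right (mul_le_mul_of_nonneg_left hsumR (by positivity)) hY0.le
        _ = 13 * (40 ^ k * g * r / Y) := by ring
    refine (Cov.union hwt hpoor hrich).mono ?_ ?_ ?_
    · intro n m h
      by_cases h4 : n ∈ R (cell ρ (y n - y m)) ∧ m ∈ R (cell ρ (y n - y m))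
      · refine Or.inr ⟨cell ρ (y n - y m), ?_, h, rfl, h4.1, h4.2⟩
        rw [hK]
        exact mem_image.2 ⟨(n, m), mem_product.2 ⟨(hE n m h).1, (hE n m h).2.1⟩, rfl⟩
      · refine Or.inl ?_
        rw [hPp]
        exact mem_filter.2 ⟨mem_product.2 ⟨(hE n m h).1, (hE n m h).2.1⟩, h, h4⟩
    · have e1 : 26 * r * Y ^ 2 ≤ 40 ^ k * g * r * Y ^ 2 := by
        refine mul_le_mul_of_nonneg_right ?_ (by positivity)
        refine mul_le_mul_of_nonneg_right ?_ (by linarith)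
        calc (26 : ℝ) ≤ 1 * g := by linarith
          _ ≤ 40 ^ k * g := mul_le_mul_of_nonneg_right h401 hg0.le
      have e2 : 0 ≤ 40 ^ k * g * r * Y ^ 2 := by positivity
      rw [← hr]
      have e3 : 40 ^ (k + 1) * g * r * Y ^ 2 = 40 * (40 ^ k * g * r * Y ^ 2) := by ring
      rw [e3]
      linarith
    · have e1 : 12 * Real.sqrt (c' + 2) * (r / Y) ≤ 40 ^ k * g * r / Y := by
        have e0 : 40 ^ k * g * r / Y = 40 ^ k * g * (r / Y) := by ring
        rw [e0]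
        refine mul_le_mul_of_nonneg_right ?_ (by positivity)
        calc 12 * Real.sqrt (c' + 2) ≤ 1 * g := by linarith
          _ ≤ 40 ^ k * g := mul_le_mul_of_nonneg_right h401 hg0.le
      have e2 : 0 ≤ 40 ^ k * g * r / Y := by positivity
      rw [← hr]
      have e3 : 40 ^ (k + 1) * g * r / Y = 40 * (40 ^ k * g * r / Y) := by ring
      rw [e3]
      linarith

end MPku
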