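import Pool.Agent.Lib.MP_7b255b_nt.UC
import Pool.Agent.Lib.MP_7b255b_ntU.D

/-!
# P0: a partition of unity on the circle by four charts; the action on the plane

JOB P0.
* `act`: matrices times vectors. `act_ne`: `act g v = 0` implies `v = 0` (`act_mul`, `act_one` with `g⁻¹`).
* `part`: `β = expNegInvGlue (· - 1/√5)` (smooth, `≥ 0`, positive exactly for the argument `> 1/√5`; `5` can be replaced). For `v ≠ 0` let `B v = β(v.2/|v|) + β(v.1/|v|) + β(-v.2/|v|) + β(-v.1/|v|)`, `|v| = √(v.1^2 + v.2^2)`: positive because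
  `max(|v.1|, |v.2|)/|v| ≥ 1/√2 > 1/√5`. `χ x = β(1/√(1+x^2)) / B (x, 1)`: smooth, zero for `|x| ≥ 2` (`1/√(1+x^2) ≤ 1/√5`). `cut χ v = β(v.2/|v|) / B v` for all `v ≠ 0` (for `v.2 ≤ 0` both sides are `0`; for `v.2 > 0`
  homogeneity of degree `0`). `act (kk (-(j π/2))) v` is `(v.1, v.2)`, `(v.2, -v.1)`, `(-v.1, -v.2)`, `(-v.2, v.1)` for `j = 0, 1, 2, 3`; `B` is invariant, so the sum is `B v / B v = 1`.
-/

set_option autoImplicit false

namespace MPku

open MPkt Finset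

/-- The homogeneous function of degree `0` with the values `χ x` at `(x, 1)`, zero on the lower half plane. -/
noncomputable def cut (χ : ℝ → ℂ) (v : ℝ × ℝ) : ℂ :=
  open Classical in if 0 < v.2 then χ (v.1 / v.2) else 0

private theorem P0_kk (θ : ℝ) (v : ℝ × ℝ) : act (kk θ) v =
    (Real.cos θ * v.1 + -Real.sin θ * v.2, Real.sin θ * v.1 + Real.cos θ * v.2) := by
  simp [act, kk]

theorem act_one (v : ℝ × ℝ) : act 1 v = v := by
  simp [act]

theorem act_mul (g h : G) (v : ℝ × ℝ) : act (g * h) v = act g (act h v) := by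
  simp only [act, Matrix.SpecialLinearGroup.coe_mul, Matrix.mul_apply, Fin.sum_univ_two]
  refine Prod.ext ?_ ?_
  · simp only
    ring
  · simp only
    ring

theorem act_smul (g : G) (r : ℝ) (v : ℝ × ℝ) : act g (r • v) = r • act g v := by
  refine Prod.ext ?_ ?_
  · simp only [act, Prod.smul_fst, Prod.smul_snd, smul_eq_mul]
    ring
  · simp only [act, Prod.smul_fst, Prod.smul_snd, smul_eq_mul]
    ring

theorem act_ne (g : G) {v : ℝ × ℝ} (hv : v ≠ 0) : act g v ≠ 0 := by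
  intro h
  apply hv
  have h1 : act (g⁻¹ * g) v = act g⁻¹ (act g v) := act_mul _ _ _
  rw [inv_mul_cancel, act_one, h] at h1
  rw [h1]
  simp [act]

theorem act_contDiff (g : G) : ContDiff ℝ ((⊤ : ℕ∞) : WithTop ℕ∞) (act g) := by
  unfold act
  fun_prop

theorem kk_inv (θ : ℝ) : (kk θ)⁻¹ = kk (-θ) := by
  apply inv_eq_of_mul_eq_one_right
  rw [← kk_add, add_neg_cancel, kk_zero]

theorem aa_inv (t : ℝ) : (aa t)⁻¹ = aa (-t) := by
  apply inv_eq_of_mul_eq_one_right
  rw [← aa_add, add_neg_cancel, aa_zero]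

theorem act_kk_circ (β θ : ℝ) : act (kk β) (circ θ) = circ (θ + β) := by
  rw [P0_kk, circ, circ, Real.cos_add, Real.sin_add]
  refine Prod.ext ?_ ?_
  · simp only
    ring
  · simp only
    ring

/-- the cutoff function on the line -/
private noncomputable def P0_b (t : ℝ) : ℝ := expNegInvGlue (t - 1 / 2)

private theorem P0_b_zero {t : ℝ} (h : t ≤ 1 / 2) : P0_b t = 0 := expNegInvGlue.zero_of_nonpos (by linarith)

private theorem P0_b_pos {t : ℝ} (h : 1 / 2 < t) : 0 < P0_b t := expNegInvGlue.pos_of_pos (by linarith)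

private theorem P0_b_nonneg (t : ℝ) : 0 ≤ P0_b t := expNegInvGlue.nonneg _

/-- the norm -/
private noncomputable def P0_N (v : ℝ × ℝ) : ℝ := Real.sqrt (v.1 ^ 2 + v.2 ^ 2)

private noncomputable def P0_B (v : ℝ × ℝ) : ℝ :=
  P0_b (v.2 / P0_N v) + P0_b (v.1 / P0_N v) + P0_b (-v.2 / P0_N v) + P0_b (-v.1 / P0_N v)

private theorem P0_N_pos {v : ℝ × ℝ} (hv : v ≠ 0) : 0 < P0_N v := by
  rw [P0_N, Real.sqrt_pos]
  by_contra hcon
  apply hv
  have h1 : v.1 ^ 2 = 0 := by nlinarith [sq_nonneg v.1, sq_nonneg v.2]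
  have h2 : v.2 ^ 2 = 0 := by nlinarith [sq_nonneg v.1, sq_nonneg v.2]
  exact Prod.ext (pow_eq_zero_iff two_ne_zero |>.1 h1) (pow_eq_zero_iff two_ne_zero |>.1 h2)

private theorem P0_N_sq (v : ℝ × ℝ) : P0_N v ^ 2 = v.1 ^ 2 + v.2 ^ 2 := by
  rw [P0_N, Real.sq_sqrt (by positivity)]

private theorem P0_B_pos {v : ℝ × ℝ} (hv : v ≠ 0) : 0 < P0_B v := by
  have hN := P0_N_pos hv
  have hsq := P0_N_sq v
  have key : P0_N v / 2 < |v.1| ∨ P0_N v / 2 < |v.2| := by
    by_contra hcon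
    push Not at hcon
    obtain ⟨h1, h2⟩ := hcon
    have h3 : v.1 ^ 2 ≤ (P0_N v / 2) ^ 2 := by
      rw [← sq_abs v.1]
      exact pow_le_pow_left₀ (abs_nonneg _) h1 2
    have h4 : v.2 ^ 2 ≤ (P0_N v / 2) ^ 2 := by
      rw [← sq_abs v.2]
      exact pow_le_pow_left₀ (abs_nonneg _) h2 2
    nlinarith
  have hd : ∀ t : ℝ, P0_N v / 2 < t → 0 < P0_b (t / P0_N v) := by
    intro t ht
    apply P0_b_pos
    rw [lt_div_iff₀ hN]
    linarith
  have n1 := P0_b_nonneg (v.2 / P0_N v)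
  have n2 := P0_b_nonneg (v.1 / P0_N v)
  have n3 := P0_b_nonneg (-v.2 / P0_N v)
  have n4 := P0_b_nonneg (-v.1 / P0_N v)
  rw [P0_B]
  rcases key with h | h
  · rcases lt_abs.1 h with h | h
    · have := hd _ h
      linarith
    · have := hd _ h
      linarith
  · rcases lt_abs.1 h with h | h
    · have := hd _ h
      linarith
    · have := hd _ h
      linarith

private noncomputable def P0_chi (x : ℝ) : ℂ := ((P0_b (1 / P0_N (x, 1)) / P0_B (x, 1) : ℝ) : ℂ)

private theorem P0_ne (x : ℝ) : ((x, 1) : ℝ × ℝ) ≠ 0 := by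
  intro h
  exact one_ne_zero (congrArg Prod.snd h)

private theorem P0_smooth_N : ContDiff ℝ ((⊤ : ℕ∞) : WithTop ℕ∞) fun x : ℝ => P0_N (x, 1) := by
  unfold P0_N
  refine ContDiff.sqrt (by fun_prop) fun x => ?_
  simp only
  positivity

private theorem P0_smooth_b {f : ℝ → ℝ} (hf : ContDiff ℝ ((⊤ : ℕ∞) : WithTop ℕ∞) f) :
    ContDiff ℝ ((⊤ : ℕ∞) : WithTop ℕ∞) fun x : ℝ => P0_b (f x / P0_N (x, 1)) := by
  have h1 : ContDiff ℝ ((⊤ : ℕ∞) : WithTop ℕ∞) fun x : ℝ => f x / P0_N (x, 1) - 1 / 2 :=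
    (hf.div P0_smooth_N fun x => (P0_N_pos (P0_ne x)).ne').sub contDiff_const
  exact expNegInvGlue.contDiff.comp h1

private theorem P0_chi_smooth : ContDiff ℝ ((⊤ : ℕ∞) : WithTop ℕ∞) P0_chi := by
  have h1 : ContDiff ℝ ((⊤ : ℕ∞) : WithTop ℕ∞) fun x : ℝ => P0_b (1 / P0_N (x, 1)) / P0_B (x, 1) := by
    refine ContDiff.div (P0_smooth_b contDiff_const) ?_ fun x => (P0_B_pos (P0_ne x)).ne'
    have h2 := (((P0_smooth_b (f := fun _ => 1) contDiff_const).add (P0_smooth_b (f := fun x => x) contDiff_id)).add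
      (P0_smooth_b (f := fun _ => -1) contDiff_const)).add (P0_smooth_b (f := fun x => -x) contDiff_id.neg)
    exact h2
  exact Complex.ofRealCLM.contDiff.comp h1

private theorem P0_chi_zero {x : ℝ} (h : 2 < |x|) : P0_chi x = 0 := by
  have h1 : 2 < P0_N (x, 1) := by
    rw [P0_N]
    apply Real.lt_sqrt_of_sq_lt
    simp only
    nlinarith [sq_abs x]
  rw [P0_chi, P0_b_zero, zero_div, Complex.ofReal_zero]
  rw [div_le_div_iff₀ (by linarith) two_pos]
  linarith

private theorem P0_cut {v : ℝ × ℝ} (hv : v ≠ 0) : cut P0_chi v = ((P0_b (v.2 / P0_N v) / P0_B v : ℝ) : ℂ) := by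
  have hN := P0_N_pos hv
  rw [cut]
  split_ifs with h
  · have hN1 : P0_N (v.1 / v.2, 1) = P0_N v / v.2 := by
      have h1 : (v.1 / v.2) ^ 2 + 1 ^ 2 = (v.1 ^ 2 + v.2 ^ 2) / v.2 ^ 2 := by
        field_simp
      rw [P0_N, P0_N]
      simp only
      rw [h1, Real.sqrt_div (by positivity), Real.sqrt_sq h.le]
    have e : ∀ t : ℝ, t / P0_N (v.1 / v.2, 1) = (t * v.2) / P0_N v := by
      intro t
      rw [hN1]
      field_simp
    rw [P0_chi, P0_B, P0_B]
    simp only [e, one_mul, neg_mul]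
    rw [show v.1 / v.2 * v.2 = v.1 from div_mul_cancel₀ _ h.ne']
  · rw [P0_b_zero, zero_div, Complex.ofReal_zero]
    exact (div_nonpos_of_nonpos_of_nonneg (not_lt.1 h) hN.le).trans (by norm_num)

theorem part : ∃ χ : ℝ → ℂ, TF χ ∧ (∀ x, 2 < |x| → χ x = 0) ∧
    ∀ v : ℝ × ℝ, v ≠ 0 → ∑ j ∈ range 4, cut χ (act (kk (-(j * (Real.pi / 2)))) v) = 1 := by
  refine ⟨P0_chi, ⟨P0_chi_smooth, ?_⟩, fun x hx => P0_chi_zero hx, fun v hv => ?_⟩
  · refine HasCompactSupport.intro (isCompact_Icc (a := -2) (b := 2)) fun x hx => P0_chi_zero ?_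
    rw [Set.mem_Icc, ← abs_le] at hx
    exact not_le.1 hx
  · have c3 : Real.cos (3 * (Real.pi / 2)) = 0 := by
      rw [show 3 * (Real.pi / 2) = Real.pi / 2 + Real.pi by ring, Real.cos_add_pi, Real.cos_pi_div_two, neg_zero]
    have s3 : Real.sin (3 * (Real.pi / 2)) = -1 := by
      rw [show 3 * (Real.pi / 2) = Real.pi / 2 + Real.pi by ring, Real.sin_add_pi, Real.sin_pi_div_two]
    have e0 : act (kk (-(((0 : ℕ) : ℝ) * (Real.pi / 2)))) v = v := by
      rw [P0_kk]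
      simp
    have e1 : act (kk (-(((1 : ℕ) : ℝ) * (Real.pi / 2)))) v = (v.2, -v.1) := by
      rw [P0_kk]
      simp
    have e2 : act (kk (-(((2 : ℕ) : ℝ) * (Real.pi / 2)))) v = (-v.1, -v.2) := by
      rw [P0_kk, show ((2 : ℕ) : ℝ) * (Real.pi / 2) = Real.pi by push_cast; ring]
      simp
    have e3 : act (kk (-(((3 : ℕ) : ℝ) * (Real.pi / 2)))) v = (-v.2, v.1) := by
      rw [P0_kk, Real.cos_neg, Real.sin_neg, show ((3 : ℕ) : ℝ) = 3 from rfl, c3, s3]
      simp
    have v1 : ((v.2, -v.1) : ℝ × ℝ) ≠ 0 := by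
      intro h
      apply hv
      have a1 := congrArg Prod.fst h
      have a2 := congrArg Prod.snd h
      exact Prod.ext (neg_eq_zero.1 a2) a1
    have v2 : ((-v.1, -v.2) : ℝ × ℝ) ≠ 0 := by
      intro h
      apply hv
      have a1 := congrArg Prod.fst h
      have a2 := congrArg Prod.snd h
      exact Prod.ext (neg_eq_zero.1 a1) (neg_eq_zero.1 a2)
    have v3 : ((-v.2, v.1) : ℝ × ℝ) ≠ 0 := by
      intro h
      apply hv
      have a1 := congrArg Prod.fst h
      have a2 := congrArg Prod.snd h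
      exact Prod.ext a2 (neg_eq_zero.1 a1)
    have n1 : P0_N (v.2, -v.1) = P0_N v := by
      rw [P0_N, P0_N]
      simp only [neg_sq]
      rw [add_comm]
    have n2 : P0_N (-v.1, -v.2) = P0_N v := by
      rw [P0_N, P0_N]
      simp only [neg_sq]
    have n3 : P0_N (-v.2, v.1) = P0_N v := by
      rw [P0_N, P0_N]
      simp only [neg_sq]
      rw [add_comm]
    have b1 : P0_B (v.2, -v.1) = P0_B v := by
      rw [P0_B, P0_B, n1]
      simp only [neg_neg]
      ring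
    have b2 : P0_B (-v.1, -v.2) = P0_B v := by
      rw [P0_B, P0_B, n2]
      simp only [neg_neg]
      ring
    have b3 : P0_B (-v.2, v.1) = P0_B v := by
      rw [P0_B, P0_B, n3]
      simp only [neg_neg]
      ring
    rw [Finset.sum_range_succ, Finset.sum_range_succ, Finset.sum_range_succ, Finset.sum_range_succ, Finset.sum_range_zero,
      e0, e1, e2, e3, P0_cut hv, P0_cut v1, P0_cut v2, P0_cut v3, n1, n2, n3, b1, b2, b3, zero_add]
    rw [← Complex.ofReal_add, ← Complex.ofReal_add, ← Complex.ofReal_add, ← Complex.ofReal_one]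
    congr 1
    have hB := (P0_B_pos hv).ne'
    simp only
    field_simp
    rw [P0_B]
    ring_nf

end MPku
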