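import Pool.Agent.Lib.MP_7b255b_ntU.Q1

/-!
# Ph: the phase functions

JOB Ph. `h : G` has determinant `1`: `h 0 0 * h 1 1 - h 0 1 * h 1 0 = 1` (`Matrix.det_fin_two`, `h.det_coe`). `zt h x = (a x + b) - i (c x + d)`, `‖zt h x‖^2 = Qh h x`.
* `Qh_pos`: `zt h x = 0` would give `a x + b = c x + d = 0`, so `a d - b c = 0`. On `[-2, 2]` with entries at most `R`: `Qh h x ≤ 18 R^2`, and `Qh h x ≥ 1 / (10 R^2)`: `1 = a (c x + d) - c (a x + b)`, so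
  `1 ≤ R (|c x + d| + |a x + b|) ≤ R √2 √(Qh)`.
* `En_deriv`: `zt' = a - i c` and `d/dx (zt / ‖zt‖)`: write `En h n x = (zt h x)^n / (Qh h x)^(n/2)`, or differentiate `u = zt / ‖zt‖` directly: `‖zt‖ = √Qh`, `u' = (zt' Qh - zt Qh'/2) / Qh^{3/2}`, `Qh' = zt' conj zt + zt conj zt'`,
  `u' = (zt' conj zt - zt conj zt') zt / (2 Qh^{3/2}) = i Im(zt' conj zt) / Qh * u`, and `Im(zt' conj zt) = Im((a - i c)((a x + b) + i (c x + d))) = a (c x + d) - c (a x + b) = a d - b c = 1`.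
* `yv_qv`: `qv (yv N h n) x = N / n * Qh h x`; `yv_qD`: `qD (yv N h n) = -(N / n)^2` (determinant).
* `sep`: `qD y - qD y' = qP (y + y') (y - y')`, so `|(N/n)^2 - (N/m)^2| ≤ 2 ‖y + y'‖ ‖y - y'‖ ≤ C ‖y - y'‖` (`‖yv N h n‖ ≤ 2 R^2`), and `|(N/n)^2 - (N/m)^2| = N^2 |n - m| (n + m) / (n m)^2 ≥ |n - m| / (8 N)`
  for `N ≤ n, m ≤ 2 N`.
-/

set_option autoImplicit false

namespace MPku

open MPkt

theorem det_eq (h : G) : h 0 0 * h 1 1 - h 0 1 * h 1 0 = 1 := by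
  have h1 := h.det_coe
  rw [Matrix.det_fin_two] at h1
  exact h1

theorem zt_sq (h : G) (x : ℝ) : ‖zt h x‖ ^ 2 = Qh h x := by
  have e : ‖zt h x‖ ^ 2 = Complex.normSq (zt h x) := (Complex.normSq_eq_norm_sq _).symm
  rw [e, Complex.normSq_apply]
  have e1 : (zt h x).re = h 0 0 * x + h 0 1 := by
    simp only [zt, Complex.sub_re, Complex.ofReal_re, Complex.re_ofReal_mul, Complex.I_re, mul_zero, sub_zero]
  have e2 : (zt h x).im = -(h 1 0 * x + h 1 1) := by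
    simp only [zt, Complex.sub_im, Complex.ofReal_im, Complex.im_ofReal_mul, Complex.I_im, mul_one, zero_sub]
  rw [e1, e2]
  unfold Qh
  ring

theorem Qh_pos (h : G) (x : ℝ) : 0 < Qh h x := by
  have hd := det_eq h
  unfold Qh
  by_contra hc
  have h0 : (h 0 0 * x + h 0 1) ^ 2 + (h 1 0 * x + h 1 1) ^ 2 ≤ 0 := not_lt.mp hc
  have h1 : h 0 0 * x + h 0 1 = 0 := by
    have : (h 0 0 * x + h 0 1) ^ 2 = 0 := le_antisymm (by nlinarith [sq_nonneg (h 1 0 * x + h 1 1)]) (sq_nonneg _)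
    exact pow_eq_zero_iff (two_ne_zero) |>.mp this
  have h2 : h 1 0 * x + h 1 1 = 0 := by
    have : (h 1 0 * x + h 1 1) ^ 2 = 0 := le_antisymm (by nlinarith [sq_nonneg (h 0 0 * x + h 0 1)]) (sq_nonneg _)
    exact pow_eq_zero_iff (two_ne_zero) |>.mp this
  have h3 : h 0 0 * (h 1 0 * x + h 1 1) - h 1 0 * (h 0 0 * x + h 0 1) = 1 := by
    linear_combination hd
  rw [h1, h2, mul_zero, mul_zero, sub_zero] at h3
  exact zero_ne_one h3

theorem Qh_le {R : ℝ} {h : G} (hh : Ent R h) {x : ℝ} (hx : x ∈ Set.Icc (-2 : ℝ) 2) : Qh h x ≤ 18 * R ^ 2 := by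
  have hx2 : |x| ≤ 2 := abs_le.mpr ⟨hx.1, hx.2⟩
  have hR : 0 ≤ R := le_trans (abs_nonneg _) (hh 0 0)
  have key : ∀ a b : ℝ, |a| ≤ R → |b| ≤ R → (a * x + b) ^ 2 ≤ 9 * R ^ 2 := by
    intro a b ha hb
    have h1 : |a * x + b| ≤ 3 * R := by
      calc |a * x + b| ≤ |a * x| + |b| := abs_add_le _ _
        _ = |a| * |x| + |b| := by rw [abs_mul]
        _ ≤ R * 2 + R := add_le_add (mul_le_mul ha hx2 (abs_nonneg _) hR) hb
        _ = 3 * R := by ring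
    calc (a * x + b) ^ 2 = |a * x + b| ^ 2 := (sq_abs _).symm
      _ ≤ (3 * R) ^ 2 := pow_le_pow_left₀ (abs_nonneg _) h1 2
      _ = 9 * R ^ 2 := by ring
  have k1 := key (h 0 0) (h 0 1) (hh 0 0) (hh 0 1)
  have k2 := key (h 1 0) (h 1 1) (hh 1 0) (hh 1 1)
  unfold Qh
  linarith

theorem Ent_pos {R : ℝ} {h : G} (hh : Ent R h) : 1 / 2 < R := by
  have hR : 0 ≤ R := le_trans (abs_nonneg _) (hh 0 0)
  have hd := det_eq h
  have h1 : 1 ≤ 2 * R ^ 2 := by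
    calc (1 : ℝ) = |h 0 0 * h 1 1 - h 0 1 * h 1 0| := by rw [hd, abs_one]
      _ ≤ |h 0 0 * h 1 1| + |h 0 1 * h 1 0| := abs_sub _ _
      _ = |h 0 0| * |h 1 1| + |h 0 1| * |h 1 0| := by rw [abs_mul, abs_mul]
      _ ≤ R * R + R * R := add_le_add (mul_le_mul (hh 0 0) (hh 1 1) (abs_nonneg _) hR)
          (mul_le_mul (hh 0 1) (hh 1 0) (abs_nonneg _) hR)
      _ = 2 * R ^ 2 := by ring
  by_contra hc
  have hc' : R ≤ 1 / 2 := not_lt.mp hc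
  nlinarith

theorem Qh_ge {R : ℝ} {h : G} (hh : Ent R h) (x : ℝ) : 1 / (2 * R ^ 2) ≤ Qh h x := by
  have hR : 0 < R := lt_trans (by norm_num) (Ent_pos hh)
  have hd := det_eq h
  have h3 : h 0 0 * (h 1 0 * x + h 1 1) - h 1 0 * (h 0 0 * x + h 0 1) = 1 := by
    linear_combination hd
  rw [div_le_iff₀ (by positivity)]
  unfold Qh
  have ha : h 0 0 ^ 2 ≤ R ^ 2 := by
    rw [← sq_abs]; exact pow_le_pow_left₀ (abs_nonneg _) (hh 0 0) 2
  have hc : h 1 0 ^ 2 ≤ R ^ 2 := by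
    rw [← sq_abs]; exact pow_le_pow_left₀ (abs_nonneg _) (hh 1 0) 2
  have hcs : (h 0 0 * (h 1 0 * x + h 1 1) - h 1 0 * (h 0 0 * x + h 0 1)) ^ 2 ≤
      (h 0 0 ^ 2 + h 1 0 ^ 2) * ((h 0 0 * x + h 0 1) ^ 2 + (h 1 0 * x + h 1 1) ^ 2) := by
    nlinarith [sq_nonneg (h 0 0 * (h 0 0 * x + h 0 1) + h 1 0 * (h 1 0 * x + h 1 1))]
  rw [h3, one_pow] at hcs
  have hq : 0 ≤ (h 0 0 * x + h 0 1) ^ 2 + (h 1 0 * x + h 1 1) ^ 2 := by positivity
  nlinarith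

theorem Ph_norm_pos (h : G) (x : ℝ) : 0 < ‖zt h x‖ := by
  by_contra hc
  have h0 : ‖zt h x‖ = 0 := le_antisymm (not_lt.mp hc) (norm_nonneg _)
  have h1 := Qh_pos h x
  rw [← zt_sq, h0] at h1
  norm_num at h1

theorem En_norm (h : G) (n : ℕ) (x : ℝ) : ‖En h n x‖ = 1 := by
  have h0 := Ph_norm_pos h x
  unfold En
  rw [norm_pow, norm_div, Complex.norm_real, norm_norm, div_self h0.ne', one_pow]

theorem Ph_zt_deriv (h : G) (x : ℝ) : HasDerivAt (zt h) (((h 0 0 : ℝ) : ℂ) - ((h 1 0 : ℝ) : ℂ) * Complex.I) x := by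
  have h1 : HasDerivAt (fun x : ℝ => h 0 0 * x + h 0 1) (h 0 0) x := by
    have := ((hasDerivAt_id x).const_mul (h 0 0)).add_const (h 0 1)
    rw [mul_one] at this
    exact this
  have h2 : HasDerivAt (fun x : ℝ => h 1 0 * x + h 1 1) (h 1 0) x := by
    have := ((hasDerivAt_id x).const_mul (h 1 0)).add_const (h 1 1)
    rw [mul_one] at this
    exact this
  exact h1.ofReal_comp.sub (h2.ofReal_comp.mul_const Complex.I)

theorem Ph_Q_deriv (h : G) (x : ℝ) :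
    HasDerivAt (Qh h) (2 * h 0 0 * (h 0 0 * x + h 0 1) + 2 * h 1 0 * (h 1 0 * x + h 1 1)) x := by
  have h1 : HasDerivAt (fun x : ℝ => h 0 0 * x + h 0 1) (h 0 0) x := by
    have := ((hasDerivAt_id x).const_mul (h 0 0)).add_const (h 0 1)
    rw [mul_one] at this
    exact this
  have h2 : HasDerivAt (fun x : ℝ => h 1 0 * x + h 1 1) (h 1 0) x := by
    have := ((hasDerivAt_id x).const_mul (h 1 0)).add_const (h 1 1)
    rw [mul_one] at this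
    exact this
  have h3 := (h1.pow 2).add (h2.pow 2)
  refine HasDerivAt.congr_deriv (f := Qh h) h3 ?_
  simp only [Nat.cast_ofNat, Nat.add_one_sub_one, pow_one]
  ring

theorem Ph_norm_deriv (h : G) (x : ℝ) :
    HasDerivAt (fun x => ‖zt h x‖) ((2 * h 0 0 * (h 0 0 * x + h 0 1) + 2 * h 1 0 * (h 1 0 * x + h 1 1)) / (2 * ‖zt h x‖)) x := by
  have e : ∀ y, ‖zt h y‖ = Real.sqrt (Qh h y) := by
    intro y
    rw [← zt_sq, Real.sqrt_sq (norm_nonneg _)]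
  have h1 := (Ph_Q_deriv h x).sqrt (Qh_pos h x).ne'
  rw [← e x] at h1
  exact h1.congr_of_eventuallyEq (Filter.Eventually.of_forall e)

theorem Ph_u_deriv (h : G) (x : ℝ) :
    HasDerivAt (fun x => zt h x / (‖zt h x‖ : ℂ)) (Complex.I / ((Qh h x : ℝ) : ℂ) * (zt h x / (‖zt h x‖ : ℂ))) x := by
  have hs := Ph_norm_pos h x
  have hsC : (‖zt h x‖ : ℂ) ≠ 0 := Complex.ofReal_ne_zero.mpr hs.ne'
  have h1 := (Ph_zt_deriv h x).div (Ph_norm_deriv h x).ofReal_comp hsC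
  refine HasDerivAt.congr_deriv h1 ?_
  have hQ : ((Qh h x : ℝ) : ℂ) = (‖zt h x‖ : ℂ) ^ 2 := by rw [← zt_sq, Complex.ofReal_pow]
  have hQ2 : (‖zt h x‖ : ℂ) ^ 2 = ((h 0 0 : ℂ) * x + (h 0 1 : ℂ)) ^ 2 + ((h 1 0 : ℂ) * x + (h 1 1 : ℂ)) ^ 2 := by
    rw [← hQ]; unfold Qh; push_cast; ring
  have hz : zt h x = ((h 0 0 : ℂ) * x + (h 0 1 : ℂ)) - ((h 1 0 : ℂ) * x + (h 1 1 : ℂ)) * Complex.I := by
    unfold zt; push_cast; ring
  have hd : (h 0 0 : ℂ) * ((h 1 0 : ℂ) * x + (h 1 1 : ℂ)) - (h 1 0 : ℂ) * ((h 0 0 : ℂ) * x + (h 0 1 : ℂ)) = 1 := by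
    have h3 : h 0 0 * (h 1 0 * x + h 1 1) - h 1 0 * (h 0 0 * x + h 0 1) = 1 := by
      linear_combination det_eq h
    have h4 := congrArg (fun r : ℝ => (r : ℂ)) h3
    push_cast at h4
    exact h4
  rw [hQ]
  have hpush : (((2 * h 0 0 * (h 0 0 * x + h 0 1) + 2 * h 1 0 * (h 1 0 * x + h 1 1)) / (2 * ‖zt h x‖) : ℝ) : ℂ) =
      (2 * (h 0 0 : ℂ) * ((h 0 0 : ℂ) * x + (h 0 1 : ℂ)) + 2 * (h 1 0 : ℂ) * ((h 1 0 : ℂ) * x + (h 1 1 : ℂ))) / (2 * (‖zt h x‖ : ℂ)) := by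
    push_cast; ring
  rw [hpush]
  generalize hse : (‖zt h x‖ : ℂ) = s at hsC hQ2 ⊢
  rw [hz]
  generalize (h 0 0 : ℂ) * x + (h 0 1 : ℂ) = A at hQ2 hd ⊢
  generalize (h 1 0 : ℂ) * x + (h 1 1 : ℂ) = B at hQ2 hd ⊢
  generalize (h 0 0 : ℂ) = a at hd ⊢
  generalize (h 1 0 : ℂ) = c at hd ⊢
  have hI : 1 + Complex.I ^ 2 = 0 := by rw [Complex.I_sq]; ring
  have key : 2 * (a - c * Complex.I) * s ^ 2 - (A - B * Complex.I) * (2 * a * A + 2 * c * B) =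
      2 * Complex.I * (A - B * Complex.I) := by
    rw [hQ2]
    linear_combination (2 * Complex.I * (A - B * Complex.I)) * hd +
      (2 * (a - c * Complex.I) * B ^ 2 - 2 * c * B * (A - B * Complex.I)) * hI
  have e1 : ((a - c * Complex.I) * s - (A - B * Complex.I) * ((2 * a * A + 2 * c * B) / (2 * s))) / s ^ 2 =
      (2 * (a - c * Complex.I) * s ^ 2 - (A - B * Complex.I) * (2 * a * A + 2 * c * B)) / (2 * s ^ 3) := by
    field_simp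
  have e2 : Complex.I / s ^ 2 * ((A - B * Complex.I) / s) = (2 * Complex.I * (A - B * Complex.I)) / (2 * s ^ 3) := by
    field_simp
  rw [e2, ← key, ← e1]

theorem En_deriv (h : G) (n : ℕ) (x : ℝ) : HasDerivAt (En h n) (Complex.I * ((n : ℝ) / Qh h x : ℝ) * En h n x) x := by
  have h1 := (Ph_u_deriv h x).pow n
  refine HasDerivAt.congr_deriv (f := En h n) h1 ?_
  unfold En
  rcases Nat.eq_zero_or_pos n with h0 | h0
  · subst h0
    simp only [Nat.cast_zero, zero_mul, zero_div, Complex.ofReal_zero, mul_zero]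
  · obtain ⟨m, rfl⟩ : ∃ m, n = m + 1 := ⟨n - 1, by omega⟩
    rw [Nat.add_sub_cancel]
    push_cast
    ring

theorem yv_qv (N : ℝ) (h : G) (n : ℕ) (x : ℝ) : qv (yv N h n) x = N / n * Qh h x := by
  have e0 : yv N h n 0 = N / n * (h 0 0 ^ 2 + h 1 0 ^ 2) := rfl
  have e1 : yv N h n 1 = N / n * (h 0 0 * h 0 1 + h 1 0 * h 1 1) := rfl
  have e2 : yv N h n 2 = N / n * (h 0 1 ^ 2 + h 1 1 ^ 2) := rfl
  unfold qv Qh
  rw [e0, e1, e2]
  ring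

theorem yv_qD (N : ℝ) (h : G) (n : ℕ) : qD (yv N h n) = -(N / n) ^ 2 := by
  have e0 : yv N h n 0 = N / n * (h 0 0 ^ 2 + h 1 0 ^ 2) := rfl
  have e1 : yv N h n 1 = N / n * (h 0 0 * h 0 1 + h 1 0 * h 1 1) := rfl
  have e2 : yv N h n 2 = N / n * (h 0 1 ^ 2 + h 1 1 ^ 2) := rfl
  have hd := det_eq h
  unfold qD
  rw [e0, e1, e2]
  linear_combination (-(N / n) ^ 2 * (h 0 0 * h 1 1 - h 0 1 * h 1 0 + 1)) * hd

theorem yv_le {R : ℝ} {h : G} (hh : Ent R h) {N : ℝ} (hN : 1 ≤ N) {n : ℕ} (hn : N ≤ n) : ‖yv N h n‖ ≤ 2 * R ^ 2 := by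
  have hR : 0 ≤ R := le_trans (abs_nonneg _) (hh 0 0)
  have hN0 : 0 < N := lt_of_lt_of_le one_pos hN
  have hn0 : (0 : ℝ) < n := lt_of_lt_of_le hN0 hn
  have hq0 : 0 ≤ N / n := (div_pos hN0 hn0).le
  have hq1 : N / n ≤ 1 := (div_le_one hn0).mpr hn
  have hp : ∀ i j k l, |h i j * h k l| ≤ R ^ 2 := by
    intro i j k l
    rw [abs_mul, sq]
    exact mul_le_mul (hh i j) (hh k l) (abs_nonneg _) hR
  have key : ∀ u v : ℝ, |u| ≤ R ^ 2 → |v| ≤ R ^ 2 → |N / n * (u + v)| ≤ 2 * R ^ 2 := by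
    intro u v hu hv
    rw [abs_mul, abs_of_nonneg hq0]
    have h1 : |u + v| ≤ 2 * R ^ 2 := le_trans (abs_add_le _ _) (by linarith)
    calc N / n * |u + v| ≤ 1 * |u + v| := mul_le_mul_of_nonneg_right hq1 (abs_nonneg _)
      _ ≤ 2 * R ^ 2 := by rw [one_mul]; exact h1
  rw [pi_norm_le_iff_of_nonneg (by positivity)]
  intro i
  fin_cases i
  · have e0 : yv N h n 0 = N / n * (h 0 0 * h 0 0 + h 1 0 * h 1 0) := by
      show N / n * (h 0 0 ^ 2 + h 1 0 ^ 2) = _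
      ring
    show ‖yv N h n 0‖ ≤ _
    rw [e0, Real.norm_eq_abs]
    exact key _ _ (hp _ _ _ _) (hp _ _ _ _)
  · have e1 : yv N h n 1 = N / n * (h 0 0 * h 0 1 + h 1 0 * h 1 1) := rfl
    show ‖yv N h n 1‖ ≤ _
    rw [e1, Real.norm_eq_abs]
    exact key _ _ (hp _ _ _ _) (hp _ _ _ _)
  · have e2 : yv N h n 2 = N / n * (h 0 1 * h 0 1 + h 1 1 * h 1 1) := by
      show N / n * (h 0 1 ^ 2 + h 1 1 ^ 2) = _
      ring
    show ‖yv N h n 2‖ ≤ _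
    rw [e2, Real.norm_eq_abs]
    exact key _ _ (hp _ _ _ _) (hp _ _ _ _)

theorem Ph_qD_diff (y y' : T3) {K : ℝ} (hy : ‖y‖ ≤ K) (hy' : ‖y'‖ ≤ K) : |qD y - qD y'| ≤ 4 * K * ‖y - y'‖ := by
  have hK : 0 ≤ K := le_trans (norm_nonneg _) hy
  have b : ∀ i, |y i| ≤ K := fun i => le_trans (by rw [← Real.norm_eq_abs]; exact norm_le_pi_norm y i) hy
  have b' : ∀ i, |y' i| ≤ K := fun i => le_trans (by rw [← Real.norm_eq_abs]; exact norm_le_pi_norm y' i) hy'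
  have d : ∀ i, |y i - y' i| ≤ ‖y - y'‖ := by
    intro i
    have := norm_le_pi_norm (y - y') i
    rw [Pi.sub_apply, Real.norm_eq_abs] at this
    exact this
  have e : qD y - qD y' = (y 1 - y' 1) * (y 1 + y' 1) + (-((y 0 - y' 0) * y 2) + -(y' 0 * (y 2 - y' 2))) := by
    unfold qD; ring
  have n0 : 0 ≤ ‖y - y'‖ := norm_nonneg _
  have t1 : |(y 1 - y' 1) * (y 1 + y' 1)| ≤ ‖y - y'‖ * (2 * K) := by
    rw [abs_mul]
    have : |y 1 + y' 1| ≤ 2 * K := le_trans (abs_add_le _ _) (by linarith [b 1, b' 1])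
    exact mul_le_mul (d 1) this (abs_nonneg _) n0
  have t2 : |-((y 0 - y' 0) * y 2)| ≤ ‖y - y'‖ * K := by
    rw [abs_neg, abs_mul]
    exact mul_le_mul (d 0) (b 2) (abs_nonneg _) n0
  have t3 : |-(y' 0 * (y 2 - y' 2))| ≤ K * ‖y - y'‖ := by
    rw [abs_neg, abs_mul]
    exact mul_le_mul (b' 0) (d 2) (abs_nonneg _) hK
  rw [e]
  refine le_trans (abs_add_le _ _) ?_
  have t4 := abs_add_le (-((y 0 - y' 0) * y 2)) (-(y' 0 * (y 2 - y' 2)))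
  linarith

theorem sep (R : ℝ) : ∃ C1 : ℝ, 1 ≤ C1 ∧ ∀ (N : ℝ) (n m : ℕ) (h h' : G), 1 ≤ N → N ≤ n → (n : ℝ) ≤ 2 * N → N ≤ m → (m : ℝ) ≤ 2 * N →
    Ent R h → Ent R h' → |(n : ℝ) - m| ≤ C1 * (N * ‖yv N h n - yv N h' m‖) := by
  refine ⟨64 * R ^ 2 + 1, by nlinarith [sq_nonneg R], ?_⟩
  intro N n m h h' hN hn hn2 hm hm2 hh hh'
  have hN0 : 0 < N := lt_of_lt_of_le one_pos hN
  have hn0 : (0 : ℝ) < n := lt_of_lt_of_le hN0 hn
  have hm0 : (0 : ℝ) < m := lt_of_lt_of_le hN0 hm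
  have h1 := Ph_qD_diff (yv N h n) (yv N h' m) (yv_le hh hN hn) (yv_le hh' hN hm)
  rw [yv_qD, yv_qD] at h1
  have hD' : 0 ≤ ‖yv N h n - yv N h' m‖ := norm_nonneg _
  generalize ‖yv N h n - yv N h' m‖ = D at h1 hD' ⊢
  generalize hn' : (n : ℝ) = a at hn hn2 hn0 h1 ⊢
  generalize hm' : (m : ℝ) = b at hm hm2 hm0 h1 ⊢
  have e : -(N / a) ^ 2 - -(N / b) ^ 2 = (a - b) * (N ^ 2 * (a + b) / (a * b) ^ 2) := by
    field_simp
    ring
  have hpos : 1 / (8 * N) ≤ N ^ 2 * (a + b) / (a * b) ^ 2 := by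
    rw [div_le_div_iff₀ (by positivity) (by positivity), one_mul]
    have h2 : a * b ≤ 4 * N ^ 2 := by nlinarith
    have h3 : (a * b) ^ 2 ≤ 16 * N ^ 4 := by
      calc (a * b) ^ 2 ≤ (4 * N ^ 2) ^ 2 := pow_le_pow_left₀ (by positivity) h2 2
        _ = 16 * N ^ 4 := by ring
    have h4 : 2 * N ≤ a + b := by linarith
    have h5 : N ^ 2 * (2 * N) * (8 * N) ≤ N ^ 2 * (a + b) * (8 * N) := by
      have : N ^ 2 * (2 * N) ≤ N ^ 2 * (a + b) := mul_le_mul_of_nonneg_left h4 (by positivity)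
      exact mul_le_mul_of_nonneg_right this (by positivity)
    nlinarith
  rw [e, abs_mul] at h1
  have h6 : |a - b| * (1 / (8 * N)) ≤ 4 * (2 * R ^ 2) * D := by
    refine le_trans ?_ h1
    refine mul_le_mul_of_nonneg_left ?_ (abs_nonneg _)
    exact le_trans hpos (le_abs_self _)
  have h7 : |a - b| ≤ 4 * (2 * R ^ 2) * D * (8 * N) := by
    rw [mul_one_div, div_le_iff₀ (by positivity)] at h6
    exact h6
  have hD0 : 0 ≤ N * D := by positivity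
  nlinarith

end MPku
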