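import Pool.Agent.Lib.MP_7b255b_ntU.D

/-!
# Q1: Lagrange interpolation of quadratic polynomials

JOB Q1. `T3 = Fin 3 → ℝ` with the maximum norm, `qv z x = z 0 x^2 + 2 z 1 x + z 2`, `qD z = z 1^2 - z 0 z 2`, `qP` the polar form.
* `qv_add` etc.: unfold, `Pi.add_apply`, `ring`.
* `interp`: for pairwise different `x 0, x 1, x 2` put `ℓ_0 = (1, -(x 1 + x 2)/2, x 1 x 2) / ((x 0 - x 1)(x 0 - x 2))` (so `qv ℓ_0 X = (X - x 1)(X - x 2)/((x 0 - x 1)(x 0 - x 2))`), `ℓ_1`, `ℓ_2` similarly; `z = ∑ v i • ℓ_i`.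
* `lag_eq`: every `z` equals `∑ qv z (x i) • ℓ_i` (compare the coefficients: `field_simp`, `ring`; or: a quadratic polynomial with three zeros is zero). `‖ℓ_i‖ ≤ X0 ^ 2 / ρ ^ 2` because `|x i| ≤ X0`, `1 ≤ X0`.
  So `‖z‖ ≤ 3 X0^2 b / ρ^2` (`lag_norm`).
* `lag_polar`: `qP z w = ∑_{i,j} qv z (x i) qv w (x j) qP ℓ_i ℓ_j` (bilinear); `qP ℓ_0 ℓ_0 = ((x 1 - x 2) / (2 (x 0 - x 1)(x 0 - x 2)))^2`, which is at most `1 / ρ^2` because `|x 1 - x 2| ≤ |x 0 - x 1| + |x 0 - x 2|`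
  and `1 / |x 0 - x 1| + 1 / |x 0 - x 2| ≤ 2 / ρ`; `qP ℓ_0 ℓ_1 = - 1 / (4 (x 0 - x 1)^2)`, at most `1 / (4 ρ^2)` in absolute value. The sum of the absolute values is `≤ (3 + 6/4) b b' / ρ^2 ≤ 5 b b' / ρ^2`.
-/

set_option autoImplicit false

namespace MPku

theorem qv_add (z w : T3) (x : ℝ) : qv (z + w) x = qv z x + qv w x := by
  simp only [qv, Pi.add_apply]
  ring

theorem qv_smul (c : ℝ) (z : T3) (x : ℝ) : qv (c • z) x = c * qv z x := by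
  simp only [qv, Pi.smul_apply, smul_eq_mul]
  ring

theorem qv_sub (z w : T3) (x : ℝ) : qv (z - w) x = qv z x - qv w x := by
  simp only [qv, Pi.sub_apply]
  ring

theorem qD_neg (z : T3) : qD (-z) = qD z := by
  simp only [qD, Pi.neg_apply]
  ring

theorem qD_smul (c : ℝ) (z : T3) : qD (c • z) = c ^ 2 * qD z := by
  simp only [qD, Pi.smul_apply, smul_eq_mul]
  ring

theorem qD_add (z w : T3) : qD (z + w) = qD z + 2 * qP z w + qD w := by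
  simp only [qD, qP, Pi.add_apply]
  ring

theorem qP_self (z : T3) : qP z z = qD z := by
  simp only [qD, qP]
  ring

theorem qP_smul (c : ℝ) (z w : T3) : qP (c • z) w = c * qP z w := by
  simp only [qP, Pi.smul_apply, smul_eq_mul]
  ring

theorem qD_le (z : T3) : |qD z| ≤ 2 * ‖z‖ ^ 2 := by
  have h0 : |z 0| ≤ ‖z‖ := norm_le_pi_norm z 0
  have h1 : |z 1| ≤ ‖z‖ := norm_le_pi_norm z 1
  have h2 : |z 2| ≤ ‖z‖ := norm_le_pi_norm z 2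
  unfold qD
  calc |z 1 ^ 2 - z 0 * z 2| ≤ |z 1 ^ 2| + |z 0 * z 2| := abs_sub _ _
    _ = |z 1| ^ 2 + |z 0| * |z 2| := by rw [abs_pow, abs_mul]
    _ ≤ ‖z‖ ^ 2 + ‖z‖ * ‖z‖ := by gcongr
    _ = 2 * ‖z‖ ^ 2 := by ring

theorem qv_le (z : T3) {x : ℝ} (hx : x ∈ Set.Icc (-2 : ℝ) 2) : |qv z x| ≤ 9 * ‖z‖ := by
  have h0 : |z 0| ≤ ‖z‖ := norm_le_pi_norm z 0
  have h1 : |z 1| ≤ ‖z‖ := norm_le_pi_norm z 1
  have h2 : |z 2| ≤ ‖z‖ := norm_le_pi_norm z 2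
  have hx' : |x| ≤ 2 := abs_le.2 ⟨hx.1, hx.2⟩
  unfold qv
  calc |z 0 * x ^ 2 + 2 * z 1 * x + z 2| ≤ |z 0 * x ^ 2| + |2 * z 1 * x| + |z 2| := abs_add_three _ _ _
    _ = |z 0| * |x| ^ 2 + 2 * |z 1| * |x| + |z 2| := by
      rw [abs_mul, abs_pow, abs_mul, abs_mul, abs_of_pos (by norm_num : (0 : ℝ) < 2)]
    _ ≤ ‖z‖ * 2 ^ 2 + 2 * ‖z‖ * 2 + ‖z‖ := by gcongr
    _ = 9 * ‖z‖ := by ring

variable {x : Fin 3 → ℝ} {ρ X0 : ℝ}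

private theorem Q1_ne (hρ : 0 < ρ) (hx : ∀ i j, i ≠ j → ρ ≤ |x i - x j|) :
    x 0 - x 1 ≠ 0 ∧ x 0 - x 2 ≠ 0 ∧ x 1 - x 2 ≠ 0 := by
  refine ⟨abs_pos.1 (hρ.trans_le (hx 0 1 (by decide))), abs_pos.1 (hρ.trans_le (hx 0 2 (by decide))),
    abs_pos.1 (hρ.trans_le (hx 1 2 (by decide)))⟩

/-- Lagrange interpolation. -/
private theorem Q1_lag (h01 : x 0 - x 1 ≠ 0) (h02 : x 0 - x 2 ≠ 0) (h12 : x 1 - x 2 ≠ 0) (z : T3) :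
    z 0 = qv z (x 0) * 1 / ((x 0 - x 1) * (x 0 - x 2)) + qv z (x 1) * 1 / ((x 1 - x 0) * (x 1 - x 2)) +
        qv z (x 2) * 1 / ((x 2 - x 0) * (x 2 - x 1)) ∧
    z 1 = qv z (x 0) * (-((x 1 + x 2) / 2)) / ((x 0 - x 1) * (x 0 - x 2)) +
        qv z (x 1) * (-((x 0 + x 2) / 2)) / ((x 1 - x 0) * (x 1 - x 2)) +
        qv z (x 2) * (-((x 0 + x 1) / 2)) / ((x 2 - x 0) * (x 2 - x 1)) ∧
    z 2 = qv z (x 0) * (x 1 * x 2) / ((x 0 - x 1) * (x 0 - x 2)) + qv z (x 1) * (x 0 * x 2) / ((x 1 - x 0) * (x 1 - x 2)) +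
        qv z (x 2) * (x 0 * x 1) / ((x 2 - x 0) * (x 2 - x 1)) := by
  have h10 : x 1 - x 0 ≠ 0 := by
    rw [← neg_sub]
    exact neg_ne_zero.2 h01
  have h20 : x 2 - x 0 ≠ 0 := by
    rw [← neg_sub]
    exact neg_ne_zero.2 h02
  have h21 : x 2 - x 1 ≠ 0 := by
    rw [← neg_sub]
    exact neg_ne_zero.2 h12
  unfold qv
  refine ⟨?_, ?_, ?_⟩
  · field_simp
    ring
  · field_simp
    ring
  · field_simp
    ring

private theorem Q1_polar (h01 : x 0 - x 1 ≠ 0) (h02 : x 0 - x 2 ≠ 0) (h12 : x 1 - x 2 ≠ 0) (z w : T3) :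
    qP z w = qv z (x 0) * qv w (x 0) * ((x 1 - x 2) / (2 * ((x 0 - x 1) * (x 0 - x 2)))) ^ 2 +
      qv z (x 1) * qv w (x 1) * ((x 0 - x 2) / (2 * ((x 0 - x 1) * (x 1 - x 2)))) ^ 2 +
      qv z (x 2) * qv w (x 2) * ((x 0 - x 1) / (2 * ((x 0 - x 2) * (x 1 - x 2)))) ^ 2 -
      (qv z (x 0) * qv w (x 1) * (1 / (x 0 - x 1) ^ 2) + qv z (x 1) * qv w (x 0) * (1 / (x 0 - x 1) ^ 2)) / 4 -
      (qv z (x 0) * qv w (x 2) * (1 / (x 0 - x 2) ^ 2) + qv z (x 2) * qv w (x 0) * (1 / (x 0 - x 2) ^ 2)) / 4 -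
      (qv z (x 1) * qv w (x 2) * (1 / (x 1 - x 2) ^ 2) + qv z (x 2) * qv w (x 1) * (1 / (x 1 - x 2) ^ 2)) / 4 := by
  unfold qv qP
  field_simp
  ring

private theorem Q1_term {b X ρ v c u w : ℝ} (hρ : 0 < ρ) (hv : |v| ≤ b) (hc : |c| ≤ X) (hu : ρ ≤ |u|) (hw : ρ ≤ |w|) :
    |v * c / (u * w)| ≤ b * X / ρ ^ 2 := by
  rw [abs_div, abs_mul, abs_mul, pow_two]
  have h1 : ρ * ρ ≤ |u| * |w| := mul_le_mul hu hw hρ.le (hρ.le.trans hu)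
  have h2 : |v| * |c| ≤ b * X := mul_le_mul hv hc (abs_nonneg _) ((abs_nonneg _).trans hv)
  exact div_le_div₀ ((mul_nonneg (abs_nonneg _) (abs_nonneg _)).trans h2) h2 (mul_pos hρ hρ) h1

private theorem Q1_sq {ρ u v w : ℝ} (hρ : 0 < ρ) (hu : ρ ≤ |u|) (hv : ρ ≤ |v|) (hw : |w| ≤ |u| + |v|) :
    (w / (2 * (u * v))) ^ 2 ≤ 1 / ρ ^ 2 := by
  have hu0 : 0 < |u| := hρ.trans_le hu
  have hv0 : 0 < |v| := hρ.trans_le hv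
  have h1 : |w / (2 * (u * v))| ≤ 1 / ρ := by
    rw [abs_div, abs_mul, abs_mul, abs_of_pos (by norm_num : (0 : ℝ) < 2), div_le_div_iff₀ (by positivity) hρ, one_mul]
    calc |w| * ρ ≤ (|u| + |v|) * ρ := mul_le_mul_of_nonneg_right hw hρ.le
      _ = |u| * ρ + |v| * ρ := by ring
      _ ≤ |u| * |v| + |v| * |u| := add_le_add (mul_le_mul_of_nonneg_left hv hu0.le) (mul_le_mul_of_nonneg_left hu hv0.le)
      _ = 2 * (|u| * |v|) := by ring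
  rw [← sq_abs (w / (2 * (u * v)))]
  calc |w / (2 * (u * v))| ^ 2 ≤ (1 / ρ) ^ 2 := pow_le_pow_left₀ (abs_nonneg _) h1 2
    _ = 1 / ρ ^ 2 := by rw [div_pow, one_pow]

theorem interp (hρ : 0 < ρ) (hx : ∀ i j, i ≠ j → ρ ≤ |x i - x j|) (v : Fin 3 → ℝ) : ∃ z : T3, ∀ i, qv z (x i) = v i := by
  obtain ⟨h01, h02, h12⟩ := Q1_ne hρ hx
  refine ⟨![v 0 / ((x 0 - x 1) * (x 0 - x 2)) + v 1 / ((x 1 - x 0) * (x 1 - x 2)) + v 2 / ((x 2 - x 0) * (x 2 - x 1)),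
    -(v 0 * (x 1 + x 2) / (2 * ((x 0 - x 1) * (x 0 - x 2))) + v 1 * (x 0 + x 2) / (2 * ((x 1 - x 0) * (x 1 - x 2))) +
      v 2 * (x 0 + x 1) / (2 * ((x 2 - x 0) * (x 2 - x 1)))),
    v 0 * (x 1 * x 2) / ((x 0 - x 1) * (x 0 - x 2)) + v 1 * (x 0 * x 2) / ((x 1 - x 0) * (x 1 - x 2)) +
      v 2 * (x 0 * x 1) / ((x 2 - x 0) * (x 2 - x 1))], ?_⟩
  have h10 : x 1 - x 0 ≠ 0 := by
    rw [← neg_sub]
    exact neg_ne_zero.2 h01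
  have h20 : x 2 - x 0 ≠ 0 := by
    rw [← neg_sub]
    exact neg_ne_zero.2 h02
  have h21 : x 2 - x 1 ≠ 0 := by
    rw [← neg_sub]
    exact neg_ne_zero.2 h12
  intro i
  fin_cases i
  · simp [qv]
    field_simp
    ring
  · simp [qv]
    field_simp
    ring
  · simp [qv]
    field_simp
    ring

theorem lag_norm (hρ : 0 < ρ) (hX : 1 ≤ X0) (hx0 : ∀ i, |x i| ≤ X0) (hx : ∀ i j, i ≠ j → ρ ≤ |x i - x j|) {z : T3} {b : ℝ}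
    (hb : ∀ i, |qv z (x i)| ≤ b) : ‖z‖ ≤ 3 * X0 ^ 2 * b / ρ ^ 2 := by
  obtain ⟨h01, h02, h12⟩ := Q1_ne hρ hx
  have hb0 : 0 ≤ b := (abs_nonneg _).trans (hb 0)
  obtain ⟨e0, e1, e2⟩ := Q1_lag h01 h02 h12 z
  have hq0 : ∀ c : ℝ, |c| ≤ X0 ^ 2 → |qv z (x 0) * c / ((x 0 - x 1) * (x 0 - x 2))| ≤ b * X0 ^ 2 / ρ ^ 2 := fun c hc =>
    Q1_term hρ (hb 0) hc (hx 0 1 (by decide)) (hx 0 2 (by decide))
  have hq1 : ∀ c : ℝ, |c| ≤ X0 ^ 2 → |qv z (x 1) * c / ((x 1 - x 0) * (x 1 - x 2))| ≤ b * X0 ^ 2 / ρ ^ 2 := fun c hc =>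
    Q1_term hρ (hb 1) hc (hx 1 0 (by decide)) (hx 1 2 (by decide))
  have hq2 : ∀ c : ℝ, |c| ≤ X0 ^ 2 → |qv z (x 2) * c / ((x 2 - x 0) * (x 2 - x 1))| ≤ b * X0 ^ 2 / ρ ^ 2 := fun c hc =>
    Q1_term hρ (hb 2) hc (hx 2 0 (by decide)) (hx 2 1 (by decide))
  have hX1 : |(1 : ℝ)| ≤ X0 ^ 2 := by
    rw [abs_one]
    exact one_le_pow₀ hX
  have hXs : ∀ i j : Fin 3, |-((x i + x j) / 2)| ≤ X0 ^ 2 := by
    intro i j
    have h1 := abs_le.1 (hx0 i)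
    have h2 := abs_le.1 (hx0 j)
    have h3 : X0 ≤ X0 ^ 2 := by nlinarith
    rw [abs_neg, abs_le]
    constructor <;> linarith
  have hXp : ∀ i j : Fin 3, |x i * x j| ≤ X0 ^ 2 := by
    intro i j
    rw [abs_mul, pow_two]
    exact mul_le_mul (hx0 i) (hx0 j) (abs_nonneg _) (by linarith)
  have hs : 3 * X0 ^ 2 * b / ρ ^ 2 = b * X0 ^ 2 / ρ ^ 2 + b * X0 ^ 2 / ρ ^ 2 + b * X0 ^ 2 / ρ ^ 2 := by ring
  rw [hs]
  refine (pi_norm_le_iff_of_nonneg (by positivity)).2 fun i => ?_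
  rw [Real.norm_eq_abs]
  fin_cases i
  · show |z 0| ≤ _
    rw [e0]
    exact (abs_add_three _ _ _).trans (add_le_add (add_le_add (hq0 _ hX1) (hq1 _ hX1)) (hq2 _ hX1))
  · show |z 1| ≤ _
    rw [e1]
    exact (abs_add_three _ _ _).trans (add_le_add (add_le_add (hq0 _ (hXs 1 2)) (hq1 _ (hXs 0 2))) (hq2 _ (hXs 0 1)))
  · show |z 2| ≤ _
    rw [e2]
    exact (abs_add_three _ _ _).trans (add_le_add (add_le_add (hq0 _ (hXp 1 2)) (hq1 _ (hXp 0 2))) (hq2 _ (hXp 0 1)))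

theorem lag_polar (hρ : 0 < ρ) (hx : ∀ i j, i ≠ j → ρ ≤ |x i - x j|) {z w : T3} {b b' : ℝ}
    (hb : ∀ i, |qv z (x i)| ≤ b) (hb' : ∀ i, |qv w (x i)| ≤ b') : |qP z w| ≤ 5 * b * b' / ρ ^ 2 := by
  obtain ⟨h01, h02, h12⟩ := Q1_ne hρ hx
  have hb0 : 0 ≤ b := (abs_nonneg _).trans (hb 0)
  have hb0' : 0 ≤ b' := (abs_nonneg _).trans (hb' 0)
  rw [Q1_polar h01 h02 h12 z w]
  have hvw : ∀ i j : Fin 3, |qv z (x i) * qv w (x j)| ≤ b * b' := by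
    intro i j
    rw [abs_mul]
    exact mul_le_mul (hb i) (hb' j) (abs_nonneg _) hb0
  have hbb : 0 ≤ b * b' := mul_nonneg hb0 hb0'
  have r01 := hx 0 1 (by decide)
  have r02 := hx 0 2 (by decide)
  have r12 := hx 1 2 (by decide)
  have d0 : ((x 1 - x 2) / (2 * ((x 0 - x 1) * (x 0 - x 2)))) ^ 2 ≤ 1 / ρ ^ 2 := by
    refine Q1_sq hρ r01 r02 ?_
    calc |x 1 - x 2| = |(x 0 - x 2) - (x 0 - x 1)| := by ring_nf
      _ ≤ |x 0 - x 2| + |x 0 - x 1| := abs_sub _ _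
      _ = |x 0 - x 1| + |x 0 - x 2| := add_comm _ _
  have d1 : ((x 0 - x 2) / (2 * ((x 0 - x 1) * (x 1 - x 2)))) ^ 2 ≤ 1 / ρ ^ 2 := by
    refine Q1_sq hρ r01 r12 ?_
    calc |x 0 - x 2| = |(x 0 - x 1) + (x 1 - x 2)| := by ring_nf
      _ ≤ |x 0 - x 1| + |x 1 - x 2| := abs_add_le _ _
  have d2 : ((x 0 - x 1) / (2 * ((x 0 - x 2) * (x 1 - x 2)))) ^ 2 ≤ 1 / ρ ^ 2 := by
    refine Q1_sq hρ r02 r12 ?_
    calc |x 0 - x 1| = |(x 0 - x 2) - (x 1 - x 2)| := by ring_nf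
      _ ≤ |x 0 - x 2| + |x 1 - x 2| := abs_sub _ _
  have o : ∀ y : ℝ, ρ ≤ |y| → 1 / y ^ 2 ≤ 1 / ρ ^ 2 := by
    intro y hy
    rw [← sq_abs y]
    exact one_div_le_one_div_of_le (by positivity) (pow_le_pow_left₀ hρ.le hy 2)
  have hR : 0 ≤ 1 / ρ ^ 2 := by positivity
  have A : ∀ p s : ℝ, |p| ≤ b * b' → 0 ≤ s → s ≤ 1 / ρ ^ 2 → |p * s| ≤ b * b' * (1 / ρ ^ 2) := by
    intro p s hp hs hs'
    rw [abs_mul, abs_of_nonneg hs]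
    exact mul_le_mul hp hs' hs hbb
  have t0 := A _ _ (hvw 0 0) (sq_nonneg _) d0
  have t1 := A _ _ (hvw 1 1) (sq_nonneg _) d1
  have t2 := A _ _ (hvw 2 2) (sq_nonneg _) d2
  have s01 := A _ _ (hvw 0 1) (by positivity) (o _ r01)
  have s10 := A _ _ (hvw 1 0) (by positivity) (o _ r01)
  have s02 := A _ _ (hvw 0 2) (by positivity) (o _ r02)
  have s20 := A _ _ (hvw 2 0) (by positivity) (o _ r02)
  have s12 := A _ _ (hvw 1 2) (by positivity) (o _ r12)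
  have s21 := A _ _ (hvw 2 1) (by positivity) (o _ r12)
  have hfin : 5 * b * b' / ρ ^ 2 = 5 * (b * b' * (1 / ρ ^ 2)) := by ring
  rw [hfin]
  have hpos : 0 ≤ b * b' * (1 / ρ ^ 2) := mul_nonneg hbb hR
  rw [abs_le] at t0 t1 t2 s01 s10 s02 s20 s12 s21 ⊢
  constructor
  · linarith
  · linarith

end MPku
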