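import Pool.Agent.Lib.MP_7b255b_ntU.Q1

/-!
# Q2: three tangencies determine two balls

JOB Q2. `qc z = -(z 1 / z 0)`. Let `c1 = 1/256`, `z_i = s - a i`, `A_i = z_i 0` (`|A_i| ≥ c1 ‖z_i‖ ≥ c1 t > 0`), `x_i = qc z_i` (`|x_i| ≤ 256`), `D_i = qD z_i` (`|D_i| ≤ ε t^2`), and let `s'` be another point,
`d = s' - s`, `‖d‖ ≤ 4 t`, `Δ = qD d`.
* Identity (`ring` after unfolding): `2 qP z_i d = - A_i qv d x_i + (D_i / A_i) d 0`, because `z_i = A_i (1, -x_i, x_i^2) + (0, 0, -D_i / A_i)`. And `qD (s' - a i) = qD (z_i + d) = D_i + 2 qP z_i d + Δ`. So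
  `qv d x_i = Δ / A_i + e_i` with `e_i = ((D_i / A_i) d 0 + D_i - qD (s' - a i)) / A_i`, `|e_i| ≤ 6 ε t / c1^2`.
* Let `L` be the quadratic polynomial with the values `1 / A_i` at `x_i` (`interp`; it does not depend on `s'`), `E = d - Δ • L` (values `e_i` at `x_i`). `lag_norm` (`X0 = 256`), `lag_polar`:
  `‖L‖ ≤ C/(t ρ^2)`, `‖E‖ ≤ C ε t/ρ^2`, `|qP L E| ≤ C ε/ρ^2`, `|qD E| ≤ C ε^2 t^2/ρ^2`, `|qD L| ≤ C/(t^2 ρ^2)`.
* `Δ = qD (Δ • L + E) = Δ^2 qD L + 2 Δ qP L E + qD E`. If the constant of the theorem is large, `|2 qP L E| ≤ 1/4` and `κ = ε/ρ^2 ≤ 1`.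
  Case `|Δ qD L| ≤ 1/4`: `|Δ|/2 ≤ |qD E|`, so `‖d‖ ≤ |Δ| ‖L‖ + ‖E‖ ≤ C κ t`.
  Case `|Δ qD L| > 1/4`: `qD L ≠ 0`, `|Δ| ≥ 1/(4 |qD L|) ≥ c t^2 ρ^2`, `|Δ qD L - 1| ≤ 2 |qP L E| + |qD E / Δ| ≤ C κ`, and with `p = s + (qD L)⁻¹ • L`:
  `d - (qD L)⁻¹ • L = (Δ qD L - 1) • ((qD L)⁻¹ • L) + E`, `‖(qD L)⁻¹ • L‖ = ‖Δ • L‖ / |Δ qD L| ≤ 4 (‖d‖ + ‖E‖) ≤ C t`, so `‖s' - p‖ ≤ C κ t`. (If `qD L = 0` take `p = s`.)
-/

set_option autoImplicit false

namespace MPku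

private theorem Q2_id (z d : T3) (h : z 0 ≠ 0) :
    qv d (qc z) = ((qD z / z 0) * d 0 + qD z - qD (z + d) + qD d) / z 0 := by
  simp only [qv, qc, qD, Pi.add_apply]
  field_simp
  ring

private theorem Q2_case1 {Δ q P D nL nE nd t R κ : ℝ} (ht : 0 < t) (hR : 0 < R) (hκ0 : 0 ≤ κ) (hκ1 : 10 ^ 30 * κ ≤ 1)
    (hnL : 0 ≤ nL) (hL : nL ≤ 50331648 / (t * R)) (hE : nE ≤ 51640270848 * (κ * t))
    (hP : |P| ≤ 336199680 * κ) (hD : |D| ≤ 344940871680 * (κ ^ 2 * R * t ^ 2))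
    (hΔ : Δ = Δ ^ 2 * q + 2 * Δ * P + D) (hc : |Δ * q| ≤ 1 / 4) (hd : nd ≤ |Δ| * nL + nE) :
    nd ≤ 10 ^ 30 * (κ * t) := by
  have h1 : |Δ| ≤ |Δ| * |Δ * q| + 2 * |Δ| * |P| + |D| := by
    calc |Δ| = |Δ * (Δ * q) + 2 * Δ * P + D| := by
          rw [show Δ * (Δ * q) + 2 * Δ * P + D = Δ by rw [← mul_assoc, ← pow_two]; exact hΔ.symm]
      _ ≤ |Δ * (Δ * q) + 2 * Δ * P| + |D| := abs_add_le _ _
      _ ≤ |Δ * (Δ * q)| + |2 * Δ * P| + |D| := by gcongr; exact abs_add_le _ _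
      _ = |Δ| * |Δ * q| + 2 * |Δ| * |P| + |D| := by
          rw [abs_mul Δ (Δ * q), abs_mul (2 * Δ) P, abs_mul 2 Δ, abs_two]
  have hP4 : 2 * |P| ≤ 1 / 4 := by linarith
  have h2 : |Δ| * |Δ * q| ≤ |Δ| * (1 / 4) := mul_le_mul_of_nonneg_left hc (abs_nonneg _)
  have h3 : 2 * |Δ| * |P| ≤ |Δ| * (1 / 4) := by
    calc 2 * |Δ| * |P| = |Δ| * (2 * |P|) := by ring
      _ ≤ |Δ| * (1 / 4) := mul_le_mul_of_nonneg_left hP4 (abs_nonneg _)
  have h4 : |Δ| ≤ 689881743360 * (κ ^ 2 * R * t ^ 2) := by linarith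
  have h5 : |Δ| * nL ≤ 689881743360 * (κ ^ 2 * R * t ^ 2) * (50331648 / (t * R)) :=
    mul_le_mul h4 hL hnL (by positivity)
  have h6 : 689881743360 * (κ ^ 2 * R * t ^ 2) * (50331648 / (t * R)) = 689881743360 * 50331648 * (κ * (κ * t)) := by
    field_simp
  have hκt : 0 ≤ κ * t := by positivity
  have h7 : κ * (κ * t) ≤ 1 * (κ * t) := mul_le_mul_of_nonneg_right (by linarith) hκt
  rw [h6] at h5
  linarith

private theorem Q2_case2 {Δ q P D nL nE nd t R κ x : ℝ} (ht : 0 < t) (hR : 0 < R) (hκ0 : 0 ≤ κ) (hκ1 : 10 ^ 30 * κ ≤ 1)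
    (hnL : 0 ≤ nL) (hE : nE ≤ 51640270848 * (κ * t))
    (hP : |P| ≤ 336199680 * κ) (hD : |D| ≤ 344940871680 * (κ ^ 2 * R * t ^ 2)) (hq : |q| ≤ 327680 / (t ^ 2 * R))
    (hΔ : Δ = Δ ^ 2 * q + 2 * Δ * P + D) (hc : 1 / 4 < |Δ * q|) (hd : nd ≤ 4 * t) (hdL : |Δ| * nL ≤ nd + nE)
    (hx : x ≤ |Δ * q - 1| * (|q|⁻¹ * nL) + nE) :
    x ≤ 10 ^ 30 * (κ * t) := by
  have hq0 : 0 < |q| := by
    rcases eq_or_ne q 0 with h | h
    · rw [h] at hc; norm_num at hc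
    · exact abs_pos.2 h
  have hΔ0 : 0 < |Δ| := by
    rcases eq_or_ne Δ 0 with h | h
    · rw [h] at hc; norm_num at hc
    · exact abs_pos.2 h
  rw [abs_mul] at hc
  have h1 : t ^ 2 * R ≤ 4 * 327680 * |Δ| := by
    have h := mul_le_mul_of_nonneg_left hq hΔ0.le
    have h' : 1 / 4 ≤ |Δ| * (327680 / (t ^ 2 * R)) := hc.le.trans h
    rw [mul_div_assoc', le_div_iff₀ (by positivity)] at h'
    linarith
  have h2 : |D| ≤ 344940871680 * (4 * 327680) * κ ^ 2 * |Δ| := by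
    calc |D| ≤ 344940871680 * (κ ^ 2 * R * t ^ 2) := hD
      _ = 344940871680 * κ ^ 2 * (t ^ 2 * R) := by ring
      _ ≤ 344940871680 * κ ^ 2 * (4 * 327680 * |Δ|) := mul_le_mul_of_nonneg_left h1 (by positivity)
      _ = _ := by ring
  have hκ2 : κ ^ 2 ≤ κ := by
    rw [pow_two]
    calc κ * κ ≤ 1 * κ := mul_le_mul_of_nonneg_right (by linarith) hκ0
      _ = κ := one_mul _
  have h3 : |Δ * q - 1| ≤ 10 ^ 18 * κ := by
    have h : |Δ| * |Δ * q - 1| ≤ |Δ| * (10 ^ 18 * κ) := by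
      calc |Δ| * |Δ * q - 1| = |-(2 * Δ * P + D)| := by
            rw [← abs_mul]; congr 1; linarith
        _ = |2 * Δ * P + D| := abs_neg _
        _ ≤ |2 * Δ * P| + |D| := abs_add_le _ _
        _ = 2 * |Δ| * |P| + |D| := by rw [abs_mul (2 * Δ) P, abs_mul 2 Δ, abs_two]
        _ ≤ 2 * |Δ| * (336199680 * κ) + 344940871680 * (4 * 327680) * κ ^ 2 * |Δ| := by gcongr
        _ ≤ 2 * |Δ| * (336199680 * κ) + 344940871680 * (4 * 327680) * κ * |Δ| := by gcongr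
        _ = |Δ| * ((2 * 336199680 + 344940871680 * (4 * 327680)) * κ) := by ring
        _ ≤ |Δ| * (10 ^ 18 * κ) := by gcongr; norm_num
    exact le_of_mul_le_mul_left h hΔ0
  have hκt : 0 ≤ κ * t := by positivity
  have hκt1 : κ * t ≤ 1 * t := mul_le_mul_of_nonneg_right (by linarith) ht.le
  have h4 : |q|⁻¹ * nL ≤ 4 * (|Δ| * nL) := by
    have h : |q|⁻¹ ≤ 4 * |Δ| := by
      rw [inv_le_iff_one_le_mul₀ hq0]
      linarith
    calc |q|⁻¹ * nL ≤ 4 * |Δ| * nL := mul_le_mul_of_nonneg_right h hnL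
      _ = _ := by ring
  have h5 : |q|⁻¹ * nL ≤ 10 ^ 11 * 3 * t := by linarith
  have h6 : |Δ * q - 1| * (|q|⁻¹ * nL) ≤ 10 ^ 18 * κ * (10 ^ 11 * 3 * t) :=
    mul_le_mul h3 h5 (mul_nonneg (inv_nonneg.2 hq0.le) hnL) (by positivity)
  have h7 : 10 ^ 18 * κ * (10 ^ 11 * 3 * t) = 10 ^ 29 * 3 * (κ * t) := by ring
  rw [h7] at h6
  linarith

theorem two_balls : ∃ C : ℝ, 1 ≤ C ∧ ∀ (t ε ρ : ℝ), 0 < t → 0 ≤ ε → 0 < ρ → C * ε ≤ ρ ^ 2 → ∀ (a : Fin 3 → T3) (s : T3),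
    (∀ i, Rel t ε (s - a i)) → (∀ i j, i ≠ j → ρ ≤ |qc (s - a i) - qc (s - a j)|) →
    ∃ p : T3, ∀ s' : T3, (∀ i, Rel t ε (s' - a i)) → ‖s' - s‖ ≤ C * (ε * t / ρ ^ 2) ∨ ‖s' - p‖ ≤ C * (ε * t / ρ ^ 2) := by
  refine ⟨10 ^ 30, by norm_num, fun t ε ρ ht hε hρ hC a s hs hx => ?_⟩
  obtain ⟨κ, hκ⟩ : ∃ κ, κ = ε / ρ ^ 2 := ⟨_, rfl⟩
  have hR : 0 < ρ ^ 2 := by positivity
  have hεκ : ε = κ * ρ ^ 2 := by rw [hκ]; field_simp
  have hκ0 : 0 ≤ κ := by rw [hκ]; positivity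
  have hκ1 : 10 ^ 30 * κ ≤ 1 := by
    rw [hεκ] at hC
    have : (10 ^ 30 * κ) * ρ ^ 2 ≤ 1 * ρ ^ 2 := by linarith
    exact le_of_mul_le_mul_right this hR
  have hA : ∀ i, t / 256 ≤ |(s - a i) 0| := fun i => by
    have h := (hs i).2.2.2
    have h' := (hs i).1
    linarith
  have hA0 : ∀ i, 0 < |(s - a i) 0| := fun i => lt_of_lt_of_le (by positivity) (hA i)
  have hA00 : ∀ i, (s - a i) 0 ≠ 0 := fun i => abs_pos.1 (hA0 i)
  have hinv : ∀ i, |(s - a i) 0|⁻¹ ≤ 256 / t := fun i => by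
    rw [inv_le_iff_one_le_mul₀ (hA0 i), div_mul_eq_mul_div, le_div_iff₀ ht]
    have := hA i
    linarith
  have hx0 : ∀ i, |qc (s - a i)| ≤ 256 := fun i => by
    rw [qc, abs_neg, abs_div, div_le_iff₀ (hA0 i)]
    have h := (hs i).2.2.2
    have h' : |(s - a i) 1| ≤ ‖s - a i‖ := norm_le_pi_norm (s - a i) 1
    linarith
  obtain ⟨L, hL⟩ := interp (x := fun i => qc (s - a i)) hρ hx (fun i => 1 / (s - a i) 0)
  have hLb : ∀ i, |qv L (qc (s - a i))| ≤ 256 / t := fun i => by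
    have := hL i
    rw [this, one_div, abs_inv]
    exact hinv i
  have hLn : ‖L‖ ≤ 50331648 / (t * ρ ^ 2) := by
    refine (lag_norm (X0 := 256) (x := fun i => qc (s - a i)) hρ (by norm_num) hx0 hx hLb).trans (le_of_eq ?_)
    field_simp
    norm_num
  have hLD : |qD L| ≤ 327680 / (t ^ 2 * ρ ^ 2) := by
    rw [← qP_self]
    refine (lag_polar (x := fun i => qc (s - a i)) hρ hx hLb hLb).trans (le_of_eq ?_)
    field_simp
    norm_num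
  refine ⟨s + (qD L)⁻¹ • L, fun s' hs' => ?_⟩
  obtain ⟨d, hd⟩ : ∃ d, d = s' - s := ⟨_, rfl⟩
  have hdn : ‖d‖ ≤ 4 * t := by
    have h : d = (s' - a 0) - (s - a 0) := by rw [hd]; abel
    rw [h]
    have h1 := norm_sub_le (s' - a 0) (s - a 0)
    have h2 := (hs 0).2.1
    have h3 := (hs' 0).2.1
    linarith
  have hd0 : |d 0| ≤ 4 * t := (norm_le_pi_norm d 0).trans hdn
  obtain ⟨E, hE⟩ : ∃ E, E = d - qD d • L := ⟨_, rfl⟩
  have hdE : d = qD d • L + E := by rw [hE]; abel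
  have hEb : ∀ i, |qv E (qc (s - a i))| ≤ 262656 * (ε * t) := fun i => by
    have hi := hL i
    have h1 : qv E (qc (s - a i)) =
        ((qD (s - a i) / (s - a i) 0) * d 0 + qD (s - a i) - qD (s' - a i)) / (s - a i) 0 := by
      rw [hE, qv_sub, qv_smul, hi, Q2_id _ d (hA00 i), show s - a i + d = s' - a i by rw [hd]; abel]
      field_simp
      ring
    have hD1 := (hs i).2.2.1
    have hD2 := (hs' i).2.2.1
    have h2 : |(qD (s - a i) / (s - a i) 0) * d 0| ≤ 1024 * (ε * t ^ 2) := by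
      rw [abs_mul, abs_div, div_eq_mul_inv]
      calc |qD (s - a i)| * |(s - a i) 0|⁻¹ * |d 0| ≤ ε * t ^ 2 * (256 / t) * (4 * t) := by
            have := hinv i
            gcongr
        _ = 1024 * (ε * t ^ 2) := by field_simp; ring
    have h3 : |(qD (s - a i) / (s - a i) 0) * d 0 + qD (s - a i) - qD (s' - a i)| ≤ 1026 * (ε * t ^ 2) := by
      have h4 := abs_sub (((qD (s - a i) / (s - a i) 0) * d 0 + qD (s - a i))) (qD (s' - a i))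
      have h5 := abs_add_le ((qD (s - a i) / (s - a i) 0) * d 0) (qD (s - a i))
      linarith
    rw [h1, abs_div, div_eq_mul_inv]
    calc |(qD (s - a i) / (s - a i) 0) * d 0 + qD (s - a i) - qD (s' - a i)| * |(s - a i) 0|⁻¹
          ≤ 1026 * (ε * t ^ 2) * (256 / t) := by
          have := hinv i
          gcongr
      _ = 262656 * (ε * t) := by field_simp; ring
  have hEn : ‖E‖ ≤ 51640270848 * (κ * t) := by
    refine (lag_norm (X0 := 256) (x := fun i => qc (s - a i)) hρ (by norm_num) hx0 hx hEb).trans (le_of_eq ?_)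
    rw [hκ]
    field_simp
    ring
  have hPLE : |qP L E| ≤ 336199680 * κ := by
    refine (lag_polar (x := fun i => qc (s - a i)) hρ hx hLb hEb).trans (le_of_eq ?_)
    rw [hκ]
    field_simp
    ring
  have hDE : |qD E| ≤ 344940871680 * (κ ^ 2 * ρ ^ 2 * t ^ 2) := by
    rw [← qP_self]
    refine (lag_polar (x := fun i => qc (s - a i)) hρ hx hEb hEb).trans (le_of_eq ?_)
    rw [hκ]
    field_simp
    ring
  have hΔ : qD d = qD d ^ 2 * qD L + 2 * qD d * qP L E + qD E := by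
    have h : qD d = qD (qD d • L + E) := by rw [← hdE]
    rw [qD_add, qD_smul, qP_smul] at h
    linarith
  have hgoal : 10 ^ 30 * (ε * t / ρ ^ 2) = 10 ^ 30 * (κ * t) := by rw [hκ]; ring
  rw [hgoal]
  rcases le_or_gt |qD d * qD L| (1 / 4) with hc | hc
  · left
    rw [← hd]
    refine Q2_case1 ht hR hκ0 hκ1 (norm_nonneg L) hLn hEn hPLE hDE hΔ hc ?_
    calc ‖d‖ = ‖qD d • L + E‖ := by rw [← hdE]
      _ ≤ ‖qD d • L‖ + ‖E‖ := norm_add_le _ _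
      _ = |qD d| * ‖L‖ + ‖E‖ := by rw [norm_smul, Real.norm_eq_abs]
  · right
    have hL0 : qD L ≠ 0 := by
      intro h
      rw [h] at hc
      norm_num at hc
    refine Q2_case2 ht hR hκ0 hκ1 (norm_nonneg L) hEn hPLE hDE hLD hΔ hc hdn ?_ ?_
    · calc |qD d| * ‖L‖ = ‖qD d • L‖ := by rw [norm_smul, Real.norm_eq_abs]
        _ = ‖d - E‖ := by rw [hE]; congr 1; abel
        _ ≤ ‖d‖ + ‖E‖ := norm_sub_le _ _
    · have h : s' - (s + (qD L)⁻¹ • L) = (qD d * qD L - 1) • ((qD L)⁻¹ • L) + E := by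
        rw [hE, hd, smul_smul, sub_mul, mul_assoc, mul_inv_cancel₀ hL0, mul_one, one_mul, sub_smul]
        abel
      rw [h]
      refine (norm_add_le _ _).trans (le_of_eq ?_)
      rw [norm_smul, norm_smul, norm_inv, Real.norm_eq_abs, Real.norm_eq_abs]

end MPku
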