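import Pool.Agent.Lib.MP_7b255b_ntU.Q1

/-!
# Q3: roots of quadratic polynomials

JOB Q3. `D = qD z`. Choose: if `z 0 ≠ 0` and `D > 0`: `r1, r2 = qc z ± √D / z 0` (then `qv z x = z 0 (x - r1)(x - r2)`, `|z 0| |r1 - r2| = 2 √D`); if `z 0 ≠ 0` and `D ≤ 0`: `r1 = r2 = qc z`
(`|qv z x| = |z 0| (x - qc z)^2 + |D| / |z 0|`); if `z 0 = 0`, `z 1 ≠ 0`: `r1 = r2 = - z 2 / (2 z 1)` (`qv z x = 2 z 1 (x - r1)`, `D = z 1^2`); otherwise `r1 = r2 = 0`. Put `d = min |x - r1| |x - r2|`.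
* first: `D > 0`, `z 0 ≠ 0`: if `|x - r1| ≤ |x - r2|` then `|x - r2| ≥ |r1 - r2| / 2`, so `|qv| ≥ √D d`; `D < 0`: arithmetic-geometric mean; `z 0 = 0`: `2 |z 1| d ≥ √D d`; `D = 0`: trivial.
* second: case `|z 0| ≥ ‖z‖/256`: `|qv| ≥ |z 0| d^2` in both cases `D > 0`, `D ≤ 0`. Case `|z 0| < ‖z‖/256`, `D ≥ ‖z‖^2/256`: `|qv| ≥ √D d ≥ ‖z‖/16 d`, and `d ≥ (min 1 d)^2`. Case `|z 0| < ‖z‖/256` and `|D| < ‖z‖^2/256`
  (if `D < 0` then `|D| ≤ |z 0| |z 2| ≤ ‖z‖^2/256` automatically): `z 1^2 ≤ |D| + |z 0||z 2| ≤ ‖z‖^2/128`, so `|z 1| < ‖z‖/11`, `|z 2| = ‖z‖` and `|qv z x| ≥ ‖z‖ - 4 ‖z‖/256 - 4 ‖z‖/11 ≥ ‖z‖/2` on `[-2, 2]` (`off`).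
* third: `z 0 ≠ 0`, `|r_i - qc z| = √D/|z 0| ≤ ε ‖z‖ / (‖z‖/256)` if `D > 0`, `0` otherwise.
-/

set_option autoImplicit false

namespace MPku

private theorem Q3_sq (z : T3) (h0 : z 0 ≠ 0) (x : ℝ) : qv z x = z 0 * (x - qc z) ^ 2 - qD z / z 0 := by
  unfold qv qc qD
  field_simp
  ring

private theorem Q3_ne (z : T3) (h0 : z 0 ≠ 0) : ∃ r1 r2 : ℝ,
    (∀ x : ℝ, Real.sqrt |qD z| * min |x - r1| |x - r2| ≤ |qv z x|) ∧
    (∀ x : ℝ, |z 0| * (min |x - r1| |x - r2|) ^ 2 ≤ |qv z x|) ∧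
    |r1 - qc z| ≤ Real.sqrt |qD z| / |z 0| ∧ |r2 - qc z| ≤ Real.sqrt |qD z| / |z 0| := by
  have hz : 0 < |z 0| := abs_pos.2 h0
  set s : ℝ := Real.sqrt |qD z| with hs
  have hs0 : 0 ≤ s := Real.sqrt_nonneg _
  have hs2 : s ^ 2 = |qD z| := Real.sq_sqrt (abs_nonneg _)
  rcases le_or_gt (qD z) 0 with hD | hD
  · refine ⟨qc z, qc z, ?_, ?_, ?_, ?_⟩
    · intro x
      rw [min_self, Q3_sq z h0 x]
      rw [abs_of_nonpos hD] at hs2
      have h1 : |z 0 * (x - qc z) ^ 2 - qD z / z 0| = (|z 0| ^ 2 * |x - qc z| ^ 2 + s ^ 2) / |z 0| := by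
        have h2 : z 0 * (x - qc z) ^ 2 - qD z / z 0 = (z 0 ^ 2 * (x - qc z) ^ 2 + s ^ 2) / z 0 := by
          rw [hs2]
          field_simp
          ring
        rw [h2, abs_div, sq_abs, sq_abs, abs_of_nonneg (by positivity)]
      rw [h1, le_div_iff₀ hz]
      nlinarith [sq_nonneg (|z 0| * |x - qc z| - s), mul_nonneg (mul_nonneg hz.le (abs_nonneg (x - qc z))) hs0]
    · intro x
      rw [min_self, Q3_sq z h0 x]
      have h2 : z 0 * (x - qc z) ^ 2 - qD z / z 0 = (z 0 ^ 2 * (x - qc z) ^ 2 + -qD z) / z 0 := by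
        field_simp
        ring
      have h3 : (0 : ℝ) ≤ -qD z := by linarith
      have h5 : 0 ≤ z 0 ^ 2 * (x - qc z) ^ 2 + -qD z := add_nonneg (by positivity) h3
      rw [h2, abs_div, abs_of_nonneg h5, le_div_iff₀ hz]
      have h4 : |z 0| * |x - qc z| ^ 2 * |z 0| = |z 0| ^ 2 * |x - qc z| ^ 2 := by ring
      rw [h4, sq_abs, sq_abs]
      linarith
    · rw [sub_self, abs_zero]
      positivity
    · rw [sub_self, abs_zero]
      positivity
  · rw [abs_of_pos hD] at hs2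
    have key : ∀ x : ℝ, |qv z x| = |z 0| * (min |x - (qc z + s / z 0)| |x - (qc z - s / z 0)| *
        max |x - (qc z + s / z 0)| |x - (qc z - s / z 0)|) := by
      intro x
      rw [min_mul_max, ← abs_mul, ← abs_mul, Q3_sq z h0 x, ← hs2]
      congr 1
      field_simp
      ring
    have hmax : ∀ x : ℝ, s / |z 0| ≤ max |x - (qc z + s / z 0)| |x - (qc z - s / z 0)| := by
      intro x
      have h1 : |2 * (s / z 0)| ≤ |x - (qc z + s / z 0)| + |x - (qc z - s / z 0)| := by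
        have h2 : 2 * (s / z 0) = -(x - (qc z + s / z 0)) + (x - (qc z - s / z 0)) := by ring
        rw [h2]
        refine (abs_add_le _ _).trans ?_
        rw [abs_neg]
      rw [abs_mul, abs_div, abs_of_nonneg hs0, abs_of_pos (by norm_num : (0 : ℝ) < 2)] at h1
      have h3 := le_max_left |x - (qc z + s / z 0)| |x - (qc z - s / z 0)|
      have h4 := le_max_right |x - (qc z + s / z 0)| |x - (qc z - s / z 0)|
      linarith
    have hmin : ∀ x : ℝ, 0 ≤ min |x - (qc z + s / z 0)| |x - (qc z - s / z 0)| :=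
      fun x => le_min (abs_nonneg _) (abs_nonneg _)
    refine ⟨qc z + s / z 0, qc z - s / z 0, ?_, ?_, ?_, ?_⟩
    · intro x
      rw [key x]
      have h1 := mul_le_mul_of_nonneg_left (hmax x) (mul_nonneg hz.le (hmin x))
      have h2 : |z 0| * min |x - (qc z + s / z 0)| |x - (qc z - s / z 0)| * (s / |z 0|) =
          s * min |x - (qc z + s / z 0)| |x - (qc z - s / z 0)| := by
        field_simp
      rw [h2] at h1
      linarith
    · intro x
      rw [key x, sq]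
      exact mul_le_mul_of_nonneg_left (mul_le_mul_of_nonneg_left min_le_max (hmin x)) hz.le
    · rw [add_sub_cancel_left, abs_div, abs_of_nonneg hs0]
    · rw [sub_sub_cancel_left, abs_neg, abs_div, abs_of_nonneg hs0]

private theorem Q3_eq (z : T3) (h0 : z 0 = 0) : ∃ r : ℝ,
    ∀ x : ℝ, Real.sqrt |qD z| * |x - r| ≤ |qv z x| := by
  have hD : qD z = z 1 ^ 2 := by unfold qD; rw [h0]; ring
  have hs : Real.sqrt |qD z| = |z 1| := by rw [hD, abs_of_nonneg (sq_nonneg _), Real.sqrt_sq_eq_abs]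
  rw [hs]
  by_cases h1 : z 1 = 0
  · refine ⟨0, fun x => ?_⟩
    rw [h1, abs_zero, zero_mul]
    exact abs_nonneg _
  · refine ⟨-(z 2 / (2 * z 1)), fun x => ?_⟩
    have h2 : qv z x = 2 * (z 1 * (x - -(z 2 / (2 * z 1)))) := by
      unfold qv
      rw [h0]
      field_simp
      ring
    rw [h2, abs_mul, abs_mul, abs_of_pos (by norm_num : (0 : ℝ) < 2)]
    have := mul_nonneg (abs_nonneg (z 1)) (abs_nonneg (x - -(z 2 / (2 * z 1))))
    linarith

theorem off {z : T3} (h0 : |z 0| < ‖z‖ / 256) (hD : |qD z| ≤ ‖z‖ ^ 2 / 256) {x : ℝ} (hx : x ∈ Set.Icc (-2 : ℝ) 2) :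
    ‖z‖ / 2 ≤ |qv z x| := by
  have hn : 0 < ‖z‖ := by
    have := abs_nonneg (z 0)
    linarith
  have hi : ∀ i, |z i| ≤ ‖z‖ := fun i => norm_le_pi_norm z i
  have h1 : z 1 ^ 2 ≤ ‖z‖ ^ 2 / 128 := by
    have e : z 1 ^ 2 = qD z + z 0 * z 2 := by unfold qD; ring
    have h2 : z 0 * z 2 ≤ ‖z‖ / 256 * ‖z‖ := by
      refine (le_abs_self _).trans ?_
      rw [abs_mul]
      exact mul_le_mul h0.le (hi 2) (abs_nonneg _) (by positivity)
    have h3 := (abs_le.1 hD).2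
    rw [e]
    nlinarith
  have h2 : |z 1| ≤ ‖z‖ / 11 := by
    refine abs_le_of_sq_le_sq ?_ (by positivity)
    have : (‖z‖ / 11) ^ 2 = ‖z‖ ^ 2 / 121 := by ring
    rw [this]
    have h4 : 0 ≤ ‖z‖ ^ 2 := by positivity
    linarith
  have h3 : ‖z‖ ≤ |z 2| := by
    by_contra hc
    rw [not_le] at hc
    have h4 : ‖z‖ < ‖z‖ := by
      refine (pi_norm_lt_iff hn).2 ?_
      intro i
      rw [Real.norm_eq_abs]
      fin_cases i
      · show |z 0| < ‖z‖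
        linarith
      · show |z 1| < ‖z‖
        linarith
      · exact hc
    exact lt_irrefl _ h4
  have h4 : |z 0 * x ^ 2| ≤ ‖z‖ / 256 * 4 := by
    rw [abs_mul]
    have h5 : |x ^ 2| ≤ 4 := by
      rw [abs_of_nonneg (sq_nonneg x)]
      nlinarith [hx.1, hx.2]
    exact mul_le_mul h0.le h5 (abs_nonneg _) (by positivity)
  have h5 : |2 * z 1 * x| ≤ 2 * (‖z‖ / 11) * 2 := by
    rw [abs_mul, abs_mul, abs_of_pos (by norm_num : (0 : ℝ) < 2)]
    have h6 : |x| ≤ 2 := abs_le.2 ⟨hx.1, hx.2⟩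
    exact mul_le_mul (mul_le_mul_of_nonneg_left h2 (by norm_num)) h6 (abs_nonneg _) (by positivity)
  have h6 : |z 2| ≤ |qv z x| + |z 0 * x ^ 2| + |2 * z 1 * x| := by
    have e : z 2 = qv z x + -(z 0 * x ^ 2) + -(2 * z 1 * x) := by unfold qv; ring
    rw [e]
    refine (abs_add_le _ _).trans (add_le_add ((abs_add_le _ _).trans (add_le_add ?_ ?_)) ?_)
    · exact le_of_eq rfl
    · rw [abs_neg]
    · rw [abs_neg]
  linarith

theorem roots (z : T3) : ∃ r1 r2 : ℝ, (∀ x : ℝ, Real.sqrt |qD z| * min |x - r1| |x - r2| ≤ |qv z x|) ∧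
    (∀ x ∈ Set.Icc (-2 : ℝ) 2, ‖z‖ / 256 * (min 1 (min |x - r1| |x - r2|)) ^ 2 ≤ |qv z x|) ∧
    (∀ ε : ℝ, 0 ≤ ε → z ≠ 0 → ‖z‖ / 256 ≤ |z 0| → |qD z| ≤ ε ^ 2 * ‖z‖ ^ 2 → |r1 - qc z| ≤ 256 * ε ∧ |r2 - qc z| ≤ 256 * ε) := by
  -- the second statement when the leading coefficient is small
  have second : ∀ r1 r2 : ℝ, (∀ x : ℝ, Real.sqrt |qD z| * min |x - r1| |x - r2| ≤ |qv z x|) → |z 0| < ‖z‖ / 256 →
      ∀ x ∈ Set.Icc (-2 : ℝ) 2, ‖z‖ / 256 * (min 1 (min |x - r1| |x - r2|)) ^ 2 ≤ |qv z x| := by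
    intro r1 r2 h1 h2 x hx
    have hd0 : 0 ≤ min |x - r1| |x - r2| := le_min (abs_nonneg _) (abs_nonneg _)
    set d := min |x - r1| |x - r2| with hd
    have hm0 : 0 ≤ min 1 d := le_min zero_le_one hd0
    have hm1 : min 1 d ≤ 1 := min_le_left _ _
    have hmd : min 1 d ≤ d := min_le_right _ _
    have hn0 : 0 ≤ ‖z‖ := norm_nonneg z
    rcases le_or_gt |qD z| (‖z‖ ^ 2 / 256) with hD | hD
    · have h3 := off h2 hD hx
      have h4 : (min 1 d) ^ 2 ≤ 1 := pow_le_one₀ hm0 hm1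
      have h5 := mul_le_mul_of_nonneg_left h4 (by positivity : 0 ≤ ‖z‖ / 256)
      linarith
    · have h3 : ‖z‖ / 16 ≤ Real.sqrt |qD z| := by
        apply Real.le_sqrt_of_sq_le
        have : (‖z‖ / 16) ^ 2 = ‖z‖ ^ 2 / 256 := by ring
        rw [this]
        exact hD.le
      have h4 : ‖z‖ / 16 * min 1 d ≤ Real.sqrt |qD z| * d := mul_le_mul h3 hmd hm0 (Real.sqrt_nonneg _)
      have h5 : (min 1 d) ^ 2 ≤ min 1 d := by
        rw [sq]
        exact mul_le_of_le_one_left hm0 hm1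
      have h6 := mul_le_mul_of_nonneg_left h5 (by positivity : 0 ≤ ‖z‖ / 256)
      have h7 := mul_nonneg hn0 hm0
      have h8 := h1 x
      linarith
  by_cases h0 : z 0 = 0
  · obtain ⟨r, hr⟩ := Q3_eq z h0
    have hr' : ∀ x : ℝ, Real.sqrt |qD z| * min |x - r| |x - r| ≤ |qv z x| := fun x => by rw [min_self]; exact hr x
    refine ⟨r, r, hr', ?_, ?_⟩
    · intro x hx
      rcases lt_or_ge |z 0| (‖z‖ / 256) with h1 | h1
      · exact second r r hr' h1 x hx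
      · rw [h0, abs_zero] at h1
        have h2 : ‖z‖ = 0 := le_antisymm (by linarith) (norm_nonneg z)
        rw [h2]
        simp
    · intro ε _ hz h1 _
      exfalso
      rw [h0, abs_zero] at h1
      have := norm_pos_iff.2 hz
      linarith
  · obtain ⟨r1, r2, h1, h2, h3, h4⟩ := Q3_ne z h0
    have hz : 0 < |z 0| := abs_pos.2 h0
    refine ⟨r1, r2, h1, ?_, ?_⟩
    · intro x hx
      rcases lt_or_ge |z 0| (‖z‖ / 256) with h5 | h5
      · exact second r1 r2 h1 h5 x hx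
      · refine le_trans ?_ (h2 x)
        have hd0 : 0 ≤ min |x - r1| |x - r2| := le_min (abs_nonneg _) (abs_nonneg _)
        exact mul_le_mul h5 (pow_le_pow_left₀ (le_min zero_le_one hd0) (min_le_right _ _) 2) (by positivity) hz.le
    · intro ε hε hz0 h5 h6
      have hn : 0 < ‖z‖ := norm_pos_iff.2 hz0
      have h7 : Real.sqrt |qD z| / |z 0| ≤ 256 * ε := by
        rw [div_le_iff₀ hz]
        have h8 : Real.sqrt |qD z| ≤ ε * ‖z‖ := by
          apply Real.sqrt_le_iff.2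
          exact ⟨by positivity, by rw [mul_pow]; exact h6⟩
        have h9 := mul_le_mul_of_nonneg_left h5 (by positivity : 0 ≤ 256 * ε)
        linarith
      exact ⟨h3.trans h7, h4.trans h7⟩

end MPku
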