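import Pool.Agent.Lib.MP_7b255b_nt.Smo
import Pool.Agent.Lib.MP_7b255b_ntU.D

/-!
# R1: the derivatives of a unitary representation

JOB R1. `orb π v A = π.r (nrm A) v` on the open set `pos`; `dX π X v = fderiv ℝ (orb π v) e1 X`. (`pos`, `nrm` are in Defs; `nrm_mul`-like facts: `nrm (A * B) = nrm A * nrm B` for `A, B ∈ pos`, `nrm (c • A) = nrm A` for `c > 0`,
`nrm g = g` for `g : G`; look into Smo for lemmas.)
* `orb_mul`: `orb π (π.r g v) A = orb π v (A g)`, `π.r g (orb π v A) = orb π v (g A)` for `A ∈ pos` (products of matrices).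
* `fderiv_orb`: for `A ∈ pos`, `X` a matrix: `fderiv ℝ (orb π v) A (A X) = π.r (nrm A) (dX π X v)`: `orb π v (A B) = π.r (nrm A) (orb π v B)` for `B` near `e1`; differentiate in `B` at `e1`.
* `smooth_dX`: `orb π (dX π X v) A = π.r (nrm A) (dX π X v) = fderiv ℝ (orb π v) A (A X)`, a smooth function of `A ∈ pos`.
* `dX_conj`: `π.r g (dX π X v) = dX π (g X g⁻¹) (π.r g v)`: `orb π (π.r g v) A = orb π v (A g)` and `orb π v (g B) = π.r g (orb π v B)` with `A g = g B`, `B = g⁻¹ A g`.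
* `dX_skew`: differentiate `⟪π.r (nrm A) v, w⟫ = ⟪v, π.r (nrm A)⁻¹ w⟫` at `e1` in the direction `X`: `(nrm (1 + tX))⁻¹ = nrm (adj (1 + t X))`; for a matrix `X` of trace `0` `adj (1 + t X) = 1 - t X`. So
  `⟪dX X v, w⟫ = - ⟪v, dX X w⟫`.
* `dX_comm`: second derivative: `dX Y (dX X v) = d/dB [π.r (nrm B) (dX X v)] (Y) = d/dB [fderiv (orb π v) B (B X)] (Y) = fderiv^2 (orb π v) e1 (Y, X) + dX (Y X) v` (product of matrices); the second derivative is symmetric
  (`second_derivative_symmetric`-like for `C^2`), so `dX Y (dX X v) - dX X (dX Y v) = dX (Y X - X Y) v`. With `Y = mH`, `X = mV`: `mH mV - mV mH = -(1/2) mK`.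
* `dX_mK`: `θ ↦ π.r (kk θ) v = e^{inθ} v`, `kk θ = nrm` of the matrix `kk θ`, derivative at `0` is `mK`; so `dX mK v = i n v`.
* `dX_aa`: chain rule: the derivative of `t ↦ aa t` (as a matrix) at `0` is `mH`: `HasDerivAt (fun t => π.r (g * aa t) v) (π.r g (dX π mH v)) 0`.
-/

set_option autoImplicit false

namespace MPku

open MPkt

variable {H : Type*} [NormedAddCommGroup H] [InnerProductSpace ℂ H] [CompleteSpace H] (π : URep H)

private theorem R1_det (A : Fin 2 → Fin 2 → ℝ) : (Matrix.of A).det = A 0 0 * A 1 1 - A 0 1 * A 1 0 := by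
  rw [Matrix.det_fin_two]
  rfl

private theorem R1_e1 : e1 ∈ pos := by
  have h : (Matrix.of e1).det = 1 := Matrix.det_one
  change 0 < (Matrix.of e1).det
  rw [h]
  exact one_pos

private theorem R1_nhds {A : Fin 2 → Fin 2 → ℝ} (hA : A ∈ pos) : pos ∈ nhds A := isOpen_pos.mem_nhds hA

/-- `B ↦ A B` -/
private noncomputable def R1L (A : Fin 2 → Fin 2 → ℝ) : (Fin 2 → Fin 2 → ℝ) →L[ℝ] (Fin 2 → Fin 2 → ℝ) :=
  LinearMap.toContinuousLinearMap
    { toFun := fun B i j => ∑ k, A i k * B k j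
      map_add' := fun B C => by
        funext i j
        simp only [Fin.sum_univ_two, Pi.add_apply]
        ring
      map_smul' := fun c B => by
        funext i j
        simp only [Fin.sum_univ_two, Pi.smul_apply, smul_eq_mul, RingHom.id_apply]
        ring }

/-- `A ↦ A B` -/
private noncomputable def R1R (B : Fin 2 → Fin 2 → ℝ) : (Fin 2 → Fin 2 → ℝ) →L[ℝ] (Fin 2 → Fin 2 → ℝ) :=
  LinearMap.toContinuousLinearMap
    { toFun := fun A i j => ∑ k, A i k * B k j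
      map_add' := fun B C => by
        funext i j
        simp only [Fin.sum_univ_two, Pi.add_apply]
        ring
      map_smul' := fun c B => by
        funext i j
        simp only [Fin.sum_univ_two, Pi.smul_apply, smul_eq_mul, RingHom.id_apply]
        ring }

/-- the adjugate -/
private noncomputable def R1J : (Fin 2 → Fin 2 → ℝ) →L[ℝ] (Fin 2 → Fin 2 → ℝ) :=
  LinearMap.toContinuousLinearMap
    { toFun := fun A => ![![A 1 1, -A 0 1], ![-A 1 0, A 0 0]]
      map_add' := fun B C => by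
        funext i j
        fin_cases i <;> fin_cases j <;> simp <;> ring
      map_smul' := fun c B => by
        funext i j
        fin_cases i <;> fin_cases j <;> simp }

private theorem R1L_apply (A B : Fin 2 → Fin 2 → ℝ) : R1L A B = fun i j => ∑ k, A i k * B k j := rfl

private theorem R1R_apply (A B : Fin 2 → Fin 2 → ℝ) : R1R B A = fun i j => ∑ k, A i k * B k j := rfl

private theorem R1J_apply (A : Fin 2 → Fin 2 → ℝ) : R1J A = ![![A 1 1, -A 0 1], ![-A 1 0, A 0 0]] := rfl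

private theorem R1_mul (A B : Fin 2 → Fin 2 → ℝ) :
    Matrix.of (fun i j => ∑ k, A i k * B k j) = Matrix.of A * Matrix.of B := by
  ext i j
  rw [Matrix.mul_apply]
  rfl

private theorem R1_mul_pos {A B : Fin 2 → Fin 2 → ℝ} (hA : A ∈ pos) (hB : B ∈ pos) :
    (fun i j => ∑ k, A i k * B k j) ∈ pos := by
  change 0 < (Matrix.of (fun i j => ∑ k, A i k * B k j)).det
  rw [R1_mul, Matrix.det_mul]
  exact mul_pos hA hB

private theorem R1_nrm_mul {A B : Fin 2 → Fin 2 → ℝ} (hA : A ∈ pos) (hB : B ∈ pos) :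
    nrm (fun i j => ∑ k, A i k * B k j) = nrm A * nrm B :=
  nrm_mul hA hB (R1_mul A B)

private theorem R1L_one (A : Fin 2 → Fin 2 → ℝ) : R1L A e1 = A := by
  rw [R1L_apply]
  funext i j
  change (Matrix.of A * (1 : Matrix (Fin 2) (Fin 2) ℝ)) i j = A i j
  rw [mul_one]
  rfl

private theorem R1R_one (A : Fin 2 → Fin 2 → ℝ) : R1R A e1 = A := by
  rw [R1R_apply]
  funext i j
  change ((1 : Matrix (Fin 2) (Fin 2) ℝ) * Matrix.of A) i j = A i j
  rw [one_mul]
  rfl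

private theorem R1_gpos (g : G) : (g : Matrix (Fin 2) (Fin 2) ℝ) ∈ pos := by
  change 0 < Matrix.det (g : Matrix (Fin 2) (Fin 2) ℝ)
  rw [g.2]
  exact one_pos

private theorem R1_nrm_coe (g : G) : nrm (g : Matrix (Fin 2) (Fin 2) ℝ) = g := nrm_coe g

private theorem R1_r_mul (g h : G) (v : H) : π.r (g * h) v = π.r g (π.r h v) := by
  rw [map_mul]
  rfl

/-- the operator as a real continuous linear map -/
private noncomputable def R1I (g : G) : H →L[ℝ] H :=
  ((π.r g).toContinuousLinearEquiv : H →L[ℂ] H).restrictScalars ℝ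

private theorem R1I_apply (g : G) (v : H) : R1I π g v = π.r g v := rfl

private theorem R1_diff {v : H} (hv : Smooth π v) {A : Fin 2 → Fin 2 → ℝ} (hA : A ∈ pos) :
    DifferentiableAt ℝ (orb π v) A :=
  (ContDiffOn.contDiffAt hv (R1_nhds hA)).differentiableAt (by simp)

private theorem R1_add (v w : H) : orb π (v + w) = orb π v + orb π w := by
  funext A
  exact map_add (π.r (nrm A)) v w

private theorem R1_smul (c : ℂ) (v : H) : orb π (c • v) = c • orb π v := by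
  funext A
  exact map_smul (π.r (nrm A)) c v

theorem dX_vadd (X : Fin 2 → Fin 2 → ℝ) {v w : H} (hv : Smooth π v) (hw : Smooth π w) : dX π X (v + w) = dX π X v + dX π X w := by
  unfold dX
  rw [R1_add, fderiv_add (R1_diff π hv R1_e1) (R1_diff π hw R1_e1)]
  rfl

theorem dX_vsmul (X : Fin 2 → Fin 2 → ℝ) (c : ℂ) {v : H} (hv : Smooth π v) : dX π X (c • v) = c • dX π X v := by
  unfold dX
  rw [R1_smul, fderiv_const_smul (R1_diff π hv R1_e1)]
  rfl

theorem dX_add (X Y : Fin 2 → Fin 2 → ℝ) (v : H) : dX π (X + Y) v = dX π X v + dX π Y v := by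
  unfold dX
  exact map_add _ X Y

theorem dX_smul (c : ℝ) (X : Fin 2 → Fin 2 → ℝ) (v : H) : dX π (c • X) v = (c : ℂ) • dX π X v := by
  unfold dX
  rw [map_smul]
  exact (Complex.coe_smul c _).symm

theorem dX_one (v : H) : dX π e1 v = 0 := by
  unfold dX
  by_cases h : DifferentiableAt ℝ (orb π v) e1
  · have h1 : HasDerivAt (fun t : ℝ => t • e1) e1 (1 : ℝ) := by
      have h2 := (hasDerivAt_id (1 : ℝ)).smul_const e1
      rwa [one_smul] at h2
    have h3 : HasFDerivAt (orb π v) (fderiv ℝ (orb π v) e1) ((1 : ℝ) • e1) := by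
      rw [one_smul]
      exact h.hasFDerivAt
    have h4 := h3.comp_hasDerivAt (1 : ℝ) h1
    have h5 : (orb π v ∘ fun t : ℝ => t • e1) =ᶠ[nhds (1 : ℝ)] fun _ => orb π v e1 := by
      filter_upwards [lt_mem_nhds (show (0 : ℝ) < 1 from one_pos)] with t ht
      change π.r (nrm (t • e1)) v = π.r (nrm e1) v
      rw [nrm_smul (A := e1) (B := t • e1) ht R1_e1 rfl]
    exact (h4.congr_of_eventuallyEq h5.symm).unique (hasDerivAt_const (1 : ℝ) (orb π v e1))
  · rw [fderiv_zero_of_not_differentiableAt h]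
    rfl

/-- The derivative of the orbit map at a general point. -/
theorem fderiv_orb {v : H} (hv : Smooth π v) {A : Fin 2 → Fin 2 → ℝ} (hA : A ∈ pos) (X : Fin 2 → Fin 2 → ℝ) :
    fderiv ℝ (orb π v) A (fun i j => ∑ k, A i k * X k j) = orb π (dX π X v) A := by
  have h1 : HasFDerivAt (orb π v) (fderiv ℝ (orb π v) A) (R1L A e1) := by
    rw [R1L_one]
    exact (R1_diff π hv hA).hasFDerivAt
  have h2 := h1.comp e1 (R1L A).hasFDerivAt
  have h3 := (R1I π (nrm A)).hasFDerivAt.comp e1 (R1_diff π hv R1_e1).hasFDerivAt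
  have h4 : (orb π v ∘ R1L A) =ᶠ[nhds e1] (R1I π (nrm A) ∘ orb π v) := by
    filter_upwards [R1_nhds R1_e1] with B hB
    change π.r (nrm (fun i j => ∑ k, A i k * B k j)) v = π.r (nrm A) (π.r (nrm B) v)
    rw [R1_nrm_mul hA hB, R1_r_mul]
  have h5 := (h2.congr_of_eventuallyEq h4.symm).unique h3
  have h6 := congrArg (fun T : (Fin 2 → Fin 2 → ℝ) →L[ℝ] H => T X) h5
  exact h6

theorem smooth_dX (X : Fin 2 → Fin 2 → ℝ) {v : H} (hv : Smooth π v) : Smooth π (dX π X v) := by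
  unfold Smooth
  have h1 : ContDiffOn ℝ ((⊤ : ℕ∞) : WithTop ℕ∞) (fderiv ℝ (orb π v)) pos :=
    ContDiffOn.fderiv_of_isOpen hv isOpen_pos (by simp)
  have h2 : ContDiffOn ℝ ((⊤ : ℕ∞) : WithTop ℕ∞) (fun A => fderiv ℝ (orb π v) A (R1R X A)) pos :=
    h1.clm_apply (R1R X).contDiff.contDiffOn
  exact h2.congr fun A hA => (fderiv_orb π hv hA X).symm

theorem dX_conj (X : Fin 2 → Fin 2 → ℝ) {v : H} (hv : Smooth π v) (g : G) :
    π.r g (dX π X v) = dX π (fun i j => ∑ k, ∑ l, g i k * X k l * (g⁻¹) l j) (π.r g v) := by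
  have e0 : R1L (g⁻¹ : G) (R1R (g : Matrix (Fin 2) (Fin 2) ℝ) e1) = e1 := by
    rw [R1R_one, R1L_apply]
    funext i j
    change (((g⁻¹ : G) : Matrix (Fin 2) (Fin 2) ℝ) * (g : Matrix (Fin 2) (Fin 2) ℝ)) i j = (1 : Matrix (Fin 2) (Fin 2) ℝ) i j
    rw [← Matrix.SpecialLinearGroup.coe_mul, inv_mul_cancel]
    rfl
  have e2 : R1L (g⁻¹ : G) (R1R (g : Matrix (Fin 2) (Fin 2) ℝ) (fun i j => ∑ k, ∑ l, g i k * X k l * (g⁻¹) l j)) = X := by
    have k1 : (Matrix.of fun i j => ∑ k, ∑ l, g i k * X k l * (g⁻¹) l j) =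
        (g : Matrix (Fin 2) (Fin 2) ℝ) * (Matrix.of X * ((g⁻¹ : G) : Matrix (Fin 2) (Fin 2) ℝ)) := by
      ext i j
      rw [Matrix.mul_apply]
      change (∑ k, ∑ l, g i k * X k l * (g⁻¹) l j) = _
      refine Finset.sum_congr rfl fun k _ => ?_
      rw [Matrix.mul_apply, Finset.mul_sum]
      refine Finset.sum_congr rfl fun l _ => ?_
      rw [mul_assoc]
      rfl
    have k2 : Matrix.of (R1L (g⁻¹ : G) (R1R (g : Matrix (Fin 2) (Fin 2) ℝ) (fun i j => ∑ k, ∑ l, g i k * X k l * (g⁻¹) l j))) =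
        ((g⁻¹ : G) : Matrix (Fin 2) (Fin 2) ℝ) * (((g : Matrix (Fin 2) (Fin 2) ℝ) * (Matrix.of X * ((g⁻¹ : G) : Matrix (Fin 2) (Fin 2) ℝ))) *
          (g : Matrix (Fin 2) (Fin 2) ℝ)) := by
      rw [R1L_apply, R1R_apply, R1_mul, R1_mul, k1]
      rfl
    have k3 : ((g⁻¹ : G) : Matrix (Fin 2) (Fin 2) ℝ) * (g : Matrix (Fin 2) (Fin 2) ℝ) = 1 := by
      rw [← Matrix.SpecialLinearGroup.coe_mul, inv_mul_cancel]
      rfl
    have k4 : ((g⁻¹ : G) : Matrix (Fin 2) (Fin 2) ℝ) * (((g : Matrix (Fin 2) (Fin 2) ℝ) * (Matrix.of X * ((g⁻¹ : G) : Matrix (Fin 2) (Fin 2) ℝ))) *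
          (g : Matrix (Fin 2) (Fin 2) ℝ)) = Matrix.of X := by
      rw [Matrix.mul_assoc, Matrix.mul_assoc, k3, Matrix.mul_one, ← Matrix.mul_assoc, k3, Matrix.one_mul]
    exact k2.trans k4
  have h1 : HasFDerivAt (orb π v) (fderiv ℝ (orb π v) e1) (R1L (g⁻¹ : G) (R1R (g : Matrix (Fin 2) (Fin 2) ℝ) e1)) := by
    rw [e0]
    exact (R1_diff π hv R1_e1).hasFDerivAt
  have h2 := (R1I π g).hasFDerivAt.comp e1 (h1.comp e1 ((R1L (g⁻¹ : G)).hasFDerivAt.comp e1 (R1R (g : Matrix (Fin 2) (Fin 2) ℝ)).hasFDerivAt))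
  have h3 := (R1_diff π (smooth_r π g hv) R1_e1).hasFDerivAt
  have h4 : orb π (π.r g v) =ᶠ[nhds e1] (R1I π g ∘ (orb π v ∘ (R1L (g⁻¹ : G) ∘ R1R (g : Matrix (Fin 2) (Fin 2) ℝ)))) := by
    filter_upwards [R1_nhds R1_e1] with B hB
    have m1 : (fun i j => ∑ k, B i k * (g : Matrix (Fin 2) (Fin 2) ℝ) k j) ∈ pos := R1_mul_pos hB (R1_gpos g)
    change π.r (nrm B) (π.r g v) = π.r g (π.r (nrm (fun i j => ∑ k, ((g⁻¹ : G) : Matrix (Fin 2) (Fin 2) ℝ) i k *
      (fun i j => ∑ k, B i k * (g : Matrix (Fin 2) (Fin 2) ℝ) k j) k j)) v)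
    rw [R1_nrm_mul (R1_gpos g⁻¹) m1, R1_nrm_mul hB (R1_gpos g), R1_nrm_coe, R1_nrm_coe, ← R1_r_mul, ← R1_r_mul]
    congr 1
    group
  have h5 := (h3.congr_of_eventuallyEq h4.symm).unique h2
  have h6 := congrArg (fun T : (Fin 2 → Fin 2 → ℝ) →L[ℝ] H => T (fun i j => ∑ k, ∑ l, g i k * X k l * (g⁻¹) l j)) h5
  have h7 : dX π (fun i j => ∑ k, ∑ l, g i k * X k l * (g⁻¹) l j) (π.r g v) =
      π.r g (fderiv ℝ (orb π v) e1 (R1L (g⁻¹ : G) (R1R (g : Matrix (Fin 2) (Fin 2) ℝ) (fun i j => ∑ k, ∑ l, g i k * X k l * (g⁻¹) l j)))) := h6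
  rw [h7, e2]
  rfl

private theorem R1J_pos {A : Fin 2 → Fin 2 → ℝ} (hA : A ∈ pos) : R1J A ∈ pos := by
  have h1 : 0 < (Matrix.of A).det := hA
  change 0 < (Matrix.of (R1J A)).det
  rw [R1_det] at h1 ⊢
  rw [R1J_apply]
  simp only [Matrix.cons_val_zero, Matrix.cons_val_one]
  linarith

private theorem R1J_nrm {A : Fin 2 → Fin 2 → ℝ} (hA : A ∈ pos) : nrm (R1J A) = (nrm A)⁻¹ := by
  have h1 : 0 < (Matrix.of A).det := hA
  have h2 : nrm (R1J A) * nrm A = 1 := by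
    have h3 : Matrix.of ((Matrix.of A).det • e1) = Matrix.of (R1J A) * Matrix.of A := by
      rw [R1J_apply, R1_det]
      ext i j
      rw [Matrix.mul_apply, Fin.sum_univ_two]
      fin_cases i <;> fin_cases j <;> simp [e1] <;> ring
    rw [← nrm_mul (R1J_pos hA) hA h3, nrm_smul (A := e1) (B := (Matrix.of A).det • e1) h1 R1_e1 rfl]
    exact nrm_coe 1
  exact eq_inv_of_mul_eq_one_left h2

private theorem R1_inner (g : G) (v w : H) : inner ℂ (π.r g v) w = inner ℂ v (π.r g⁻¹ w) := by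
  have h1 : π.r g (π.r g⁻¹ w) = w := by
    rw [← R1_r_mul, mul_inv_cancel, map_one]
    rfl
  have h2 := (π.r g).inner_map_map v (π.r g⁻¹ w)
  rw [h1] at h2
  exact h2

theorem dX_skew {X : Fin 2 → Fin 2 → ℝ} (hX : X 0 0 + X 1 1 = 0) {v w : H} (hv : Smooth π v) (hw : Smooth π w) :
    inner ℂ (dX π X v) w = -inner ℂ v (dX π X w) := by
  have e0 : R1J e1 = e1 := by
    rw [R1J_apply]
    funext i j
    fin_cases i <;> fin_cases j <;> simp [e1]
  have e2 : R1J X = -X := by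
    rw [R1J_apply]
    funext i j
    fin_cases i <;> fin_cases j <;> simp
    · linarith
    · linarith
  have h1 := (R1_diff π hv R1_e1).hasFDerivAt
  have h2 : HasFDerivAt (orb π w) (fderiv ℝ (orb π w) e1) (R1J e1) := by
    rw [e0]
    exact (R1_diff π hw R1_e1).hasFDerivAt
  have h3 := h2.comp e1 R1J.hasFDerivAt
  have k1 := h1.inner ℂ (hasFDerivAt_const w e1)
  have k2 := (hasFDerivAt_const v e1).inner ℂ h3
  have h4 : (fun A => inner ℂ (orb π v A) w) =ᶠ[nhds e1] fun A => inner ℂ v ((orb π w ∘ R1J) A) := by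
    filter_upwards [R1_nhds R1_e1] with B hB
    change inner ℂ (π.r (nrm B) v) w = inner ℂ v (π.r (nrm (R1J B)) w)
    rw [R1J_nrm hB, R1_inner]
  have h5 := (k2.congr_of_eventuallyEq h4).unique k1
  have h6 := congrArg (fun T : (Fin 2 → Fin 2 → ℝ) →L[ℝ] ℂ => T X) h5
  simp [fderivInnerCLM_apply, e2] at h6
  unfold dX
  exact h6.symm

private theorem R1_second {v : H} (hv : Smooth π v) (X Y : Fin 2 → Fin 2 → ℝ) :
    dX π Y (dX π X v) = fderiv ℝ (fderiv ℝ (orb π v)) e1 Y X + dX π (fun i j => ∑ k, Y i k * X k j) v := by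
  have h1 : orb π (dX π X v) =ᶠ[nhds e1] fun A => fderiv ℝ (orb π v) A (R1R X A) := by
    filter_upwards [R1_nhds R1_e1] with A hA
    exact (fderiv_orb π hv hA X).symm
  have h2 : DifferentiableAt ℝ (fderiv ℝ (orb π v)) e1 := by
    have h3 : ContDiffOn ℝ ((⊤ : ℕ∞) : WithTop ℕ∞) (fderiv ℝ (orb π v)) pos :=
      ContDiffOn.fderiv_of_isOpen hv isOpen_pos (by simp)
    exact (h3.contDiffAt (R1_nhds R1_e1)).differentiableAt (by simp)
  have h4 := h2.hasFDerivAt.clm_apply ((R1R X).hasFDerivAt (x := e1))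
  have h5 := (h4.congr_of_eventuallyEq h1).fderiv
  have h6 := congrArg (fun T : (Fin 2 → Fin 2 → ℝ) →L[ℝ] H => T Y) h5
  have h7 : dX π Y (dX π X v) = fderiv ℝ (orb π v) e1 (R1R X Y) + fderiv ℝ (fderiv ℝ (orb π v)) e1 Y (R1R X e1) := h6
  rw [h7, R1R_one, add_comm]
  rfl

theorem dX_comm {v : H} (hv : Smooth π v) : dX π mH (dX π mV v) - dX π mV (dX π mH v) = -(1 / 2 : ℂ) • dX π mK v := by
  rw [R1_second π hv mV mH, R1_second π hv mH mV]
  have h1 : IsSymmSndFDerivAt ℝ (orb π v) e1 :=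
    (ContDiffOn.contDiffAt hv (R1_nhds R1_e1)).isSymmSndFDerivAt (by
      rw [minSmoothness_of_isRCLikeNormedField]
      exact WithTop.coe_le_coe.2 (le_top : (2 : ℕ∞) ≤ ⊤))
  have h2 : fderiv ℝ (fderiv ℝ (orb π v)) e1 mH mV = fderiv ℝ (fderiv ℝ (orb π v)) e1 mV mH := h1 mH mV
  have h3 : (fun i j => ∑ k, mH i k * mV k j : Fin 2 → Fin 2 → ℝ) =
      (-(1 / 2) : ℝ) • mK + (fun i j => ∑ k, mV i k * mH k j) := by
    funext i j
    fin_cases i <;> fin_cases j <;> simp [mH, mV, mK, Fin.sum_univ_two] <;> norm_num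
  rw [h3, dX_add, dX_smul, h2]
  push_cast
  module

theorem dX_mK {n : ℤ} {v : H} (hv : Smooth π v) (hn : IsWeight π n v) : dX π mK v = ((n : ℂ) * Complex.I) • v := by
  have e0 : (kk 0 : Matrix (Fin 2) (Fin 2) ℝ) = e1 := by
    simp only [kk]
    rw [Real.cos_zero, Real.sin_zero, neg_zero, ← Matrix.one_fin_two]
    rfl
  have h1 : HasDerivAt (fun (θ : ℝ) (i j : Fin 2) => (kk θ : Matrix (Fin 2) (Fin 2) ℝ) i j) mK 0 := by
    rw [hasDerivAt_pi]
    intro i
    rw [hasDerivAt_pi]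
    intro j
    have c0 := Real.hasDerivAt_cos 0
    have s0 := Real.hasDerivAt_sin 0
    rw [Real.sin_zero, neg_zero] at c0
    rw [Real.cos_zero] at s0
    fin_cases i <;> fin_cases j
    · exact c0
    · exact s0.neg
    · exact s0
    · exact c0
  have h2 : HasFDerivAt (orb π v) (fderiv ℝ (orb π v) e1) (fun (i j : Fin 2) => (kk 0 : Matrix (Fin 2) (Fin 2) ℝ) i j) := by
    have e3 : (fun (i j : Fin 2) => (kk 0 : Matrix (Fin 2) (Fin 2) ℝ) i j) = e1 := e0
    rw [e3]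
    exact (R1_diff π hv R1_e1).hasFDerivAt
  have h3 := h2.comp_hasDerivAt (0 : ℝ) h1
  have h4 : (orb π v ∘ fun (θ : ℝ) (i j : Fin 2) => (kk θ : Matrix (Fin 2) (Fin 2) ℝ) i j) =
      fun θ : ℝ => Complex.exp ((n : ℂ) * θ * Complex.I) • v := by
    funext θ
    change π.r (nrm (kk θ : Matrix (Fin 2) (Fin 2) ℝ)) v = _
    rw [R1_nrm_coe]
    exact hn θ
  rw [h4] at h3
  have h5 : HasDerivAt (fun θ : ℝ => Complex.exp ((n : ℂ) * θ * Complex.I) • v) (((n : ℂ) * Complex.I) • v) 0 := by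
    have k1 : HasDerivAt (fun θ : ℝ => (n : ℂ) * θ * Complex.I) ((n : ℂ) * Complex.I) 0 := by
      have k2 : HasDerivAt (fun θ : ℝ => (θ : ℂ)) 1 0 := Complex.ofRealCLM.hasDerivAt
      have k3 := (k2.const_mul (n : ℂ)).mul_const Complex.I
      rwa [mul_one] at k3
    have k4 := k1.cexp.smul_const v
    simp at k4
    exact k4
  exact h3.unique h5

theorem dX_aa {v : H} (hv : Smooth π v) (g : G) : HasDerivAt (fun t : ℝ => π.r (g * aa t) v) (π.r g (dX π mH v)) 0 := by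
  have e0 : (aa 0 : Matrix (Fin 2) (Fin 2) ℝ) = e1 := by
    rw [aa_zero]
    rfl
  have h1 : HasDerivAt (fun (t : ℝ) (i j : Fin 2) => (aa t : Matrix (Fin 2) (Fin 2) ℝ) i j) mH 0 := by
    rw [hasDerivAt_pi]
    intro i
    rw [hasDerivAt_pi]
    intro j
    have c0 : HasDerivAt (fun t : ℝ => Real.exp (t / 2)) (1 / 2) 0 := by
      have k := ((hasDerivAt_id (0 : ℝ)).div_const 2).exp
      simp at k
      rw [one_div]
      exact k
    have c1 : HasDerivAt (fun t : ℝ => Real.exp (-(t / 2))) (-(1 / 2)) 0 := by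
      have k := ((hasDerivAt_id (0 : ℝ)).div_const 2).neg.exp
      simp at k
      rw [one_div]
      exact k
    fin_cases i <;> fin_cases j
    · exact c0
    · exact hasDerivAt_const (0 : ℝ) (0 : ℝ)
    · exact hasDerivAt_const (0 : ℝ) (0 : ℝ)
    · exact c1
  have h2 : HasFDerivAt (orb π v) (fderiv ℝ (orb π v) e1) (fun (i j : Fin 2) => (aa 0 : Matrix (Fin 2) (Fin 2) ℝ) i j) := by
    have e3 : (fun (i j : Fin 2) => (aa 0 : Matrix (Fin 2) (Fin 2) ℝ) i j) = e1 := e0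
    rw [e3]
    exact (R1_diff π hv R1_e1).hasFDerivAt
  have h3 := (R1I π g).hasFDerivAt.comp_hasDerivAt (0 : ℝ) (h2.comp_hasDerivAt (0 : ℝ) h1)
  have h4 : (fun t : ℝ => π.r (g * aa t) v) =
      (R1I π g ∘ (orb π v ∘ fun (t : ℝ) (i j : Fin 2) => (aa t : Matrix (Fin 2) (Fin 2) ℝ) i j)) := by
    funext t
    change _ = π.r g (π.r (nrm (aa t : Matrix (Fin 2) (Fin 2) ℝ)) v)
    rw [R1_nrm_coe, R1_r_mul]
  rw [h4]
  exact h3

end MPku
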