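import Pool.Agent.Lib.MP_7b255b_ntU.R1

/-!
# R3: jets and words

JOB R3. `wn π l v` = the sum of the norms of the words of length `≤ l` in `mH, mV, mK` applied to `v`.
* General claim, by induction on `j`: for every compact `L ⊆ pos` there is `C` with `‖iteratedFDeriv ℝ j (orb π v) A‖ ≤ C * wn π j v` for all `A ∈ L` and all smooth `v`. `j = 0`: `‖π.r (nrm A) v‖ = ‖v‖`. Step: on the open set `pos`
  `fderiv ℝ (orb π v) A Y = π.r (nrm A) (dX π (A⁻¹ Y) v) = ∑_a l_a(A)(Y) • orb π (dX π X_a v) A` (`fderiv_orb` with `X = A⁻¹ Y`; `X_a` runs over the basis `e1, mH, mV, mK` of the matrices, `l_a(A)(Y)` = the coordinates of `A⁻¹ Y`, smooth in `A`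
  with values in the linear forms; the term of `e1` is zero by `dX_one`), so `iteratedFDeriv (j+1) (orb π v) A` has the norm of `iteratedFDeriv j (fderiv (orb π v)) A` (`norm_iteratedFDeriv_fderiv`) and the Leibniz rule
  (`ContinuousLinearMap.norm_iteratedFDeriv_le_of_bilinear` for `(l, x) ↦ (Y ↦ l Y • x)`, everything within the open set `pos`: `iteratedFDerivWithin` on `pos` = `iteratedFDeriv`) bounds it by
  `C ∑_{i ≤ j} sup_L ‖D^i l_a‖ ‖D^{j-i} (orb π (dX X_a v)) A‖ ≤ C ∑_a wn j (dX X_a v) ≤ C wn (j+1) v`.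
* `jet_le`: `jet π l (π.r g v)`: `orb π (π.r g v) B = orb π v (B g)` near `e1`, so `‖iteratedFDeriv ℝ j (orb π (π.r g v)) e1‖ ≤ ‖R_g‖^j ‖iteratedFDeriv ℝ j (orb π v) g‖` (`g` as a matrix, in a compact subset of `pos`), and the claim. (For compact
  `Ω ⊆ G` the set of the matrices of `g ∈ Ω` is compact.)
-/

set_option autoImplicit false

namespace MPku

open MPkt

variable {H : Type*} [NormedAddCommGroup H] [InnerProductSpace ℂ H] [CompleteSpace H] (π : URep H)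

/-- The sum of the norms of the words of length at most `l` applied to `v`. -/
noncomputable def wn : ℕ → H → ℝ
  | 0, v => ‖v‖
  | l + 1, v => ‖v‖ + (wn l (dX π mH v) + wn l (dX π mV v) + wn l (dX π mK v))

open Filter Topology

private theorem R3_det (A : Fin 2 → Fin 2 → ℝ) : (Matrix.of A).det = A 0 0 * A 1 1 - A 0 1 * A 1 0 := by
  rw [Matrix.det_fin_two]
  rfl

private theorem R3_e1 : e1 ∈ pos := by
  have h : (Matrix.of e1).det = 1 := Matrix.det_one
  change 0 < (Matrix.of e1).det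
  rw [h]
  exact one_pos

/-- `A ↦ A g` -/
private noncomputable def R3M (b : G) : (Fin 2 → Fin 2 → ℝ) →L[ℝ] (Fin 2 → Fin 2 → ℝ) :=
  LinearMap.toContinuousLinearMap
    { toFun := fun A => Matrix.of.symm (Matrix.of A * (b : Matrix (Fin 2) (Fin 2) ℝ))
      map_add' := fun A B => by
        have h : Matrix.of (A + B) = Matrix.of A + Matrix.of B := rfl
        rw [h, Matrix.add_mul]
        rfl
      map_smul' := fun c A => by
        have h : Matrix.of (c • A) = c • Matrix.of A := rfl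
        rw [h, Matrix.smul_mul]
        rfl }

private theorem R3M_of (b : G) (A : Fin 2 → Fin 2 → ℝ) : Matrix.of (R3M b A) =
    Matrix.of A * (b : Matrix (Fin 2) (Fin 2) ℝ) := rfl

private theorem R3M_det (b : G) (A : Fin 2 → Fin 2 → ℝ) : (Matrix.of (R3M b A)).det = (Matrix.of A).det := by
  rw [R3M_of, Matrix.det_mul, b.2, mul_one]

private theorem R3M_pos (b : G) : R3M b ⁻¹' pos = pos := by
  ext A
  change 0 < (Matrix.of (R3M b A)).det ↔ 0 < (Matrix.of A).det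
  rw [R3M_det]

private theorem R3M_nrm (b : G) {A : Fin 2 → Fin 2 → ℝ} (hA : A ∈ pos) : nrm (R3M b A) = nrm A * b := by
  have h1 : 0 < (Matrix.of A).det := hA
  have h2 : 0 < (Matrix.of (R3M b A)).det := by rwa [R3M_det]
  apply Subtype.ext
  rw [nrm_val h2, R3M_det, R3M_of, Matrix.SpecialLinearGroup.coe_mul, nrm_val h1, Matrix.smul_mul]

private theorem R3M_mem (b : G) {A : Fin 2 → Fin 2 → ℝ} (hA : A ∈ pos) : R3M b A ∈ pos := by
  have h : A ∈ R3M b ⁻¹' pos := by rwa [R3M_pos]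
  exact h

private theorem R3_orb_r (g : G) (v : H) : Set.EqOn (orb π (π.r g v)) (orb π v ∘ R3M g) pos := by
  intro A hA
  change π.r (nrm A) (π.r g v) = π.r (nrm (R3M g A)) v
  rw [R3M_nrm g hA, map_mul]
  rfl

private theorem R3_it {v : H} (hv : Smooth π v) (b : G) (j : ℕ) {A : Fin 2 → Fin 2 → ℝ} (hA : A ∈ pos) :
    iteratedFDerivWithin ℝ j (orb π v ∘ R3M b) pos A =
      (iteratedFDerivWithin ℝ j (orb π v) pos (R3M b A)).compContinuousLinearMap fun _ => R3M b := by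
  have h1 := (R3M b).iteratedFDerivWithin_comp_right (n := ((⊤ : ℕ∞) : WithTop ℕ∞)) (s := pos) (f := orb π v) hv
    isOpen_pos.uniqueDiffOn (by rw [R3M_pos]; exact isOpen_pos.uniqueDiffOn) (x := A) (R3M_mem b hA) (i := j)
    (by exact_mod_cast le_top)
  rwa [R3M_pos] at h1

private theorem R3M_cont : Continuous fun g : G => R3M g := by
  rw [continuous_clm_apply]
  intro A
  have h1 : Continuous fun g : G => Matrix.of A * (g : Matrix (Fin 2) (Fin 2) ℝ) :=
    Continuous.matrix_mul continuous_const continuous_subtype_val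
  exact h1

private theorem wn_nonneg (l : ℕ) (v : H) : 0 ≤ wn π l v := by
  induction l generalizing v with
  | zero => exact norm_nonneg v
  | succ l ih =>
    show 0 ≤ ‖v‖ + (wn π l (dX π mH v) + wn π l (dX π mV v) + wn π l (dX π mK v))
    have h1 := ih (dX π mH v)
    have h2 := ih (dX π mV v)
    have h3 := ih (dX π mK v)
    positivity

private theorem wn_succ (l : ℕ) (v : H) : wn π l v ≤ wn π (l + 1) v := by
  induction l generalizing v with
  | zero =>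
    show ‖v‖ ≤ ‖v‖ + (‖dX π mH v‖ + ‖dX π mV v‖ + ‖dX π mK v‖)
    have h1 := norm_nonneg (dX π mH v)
    have h2 := norm_nonneg (dX π mV v)
    have h3 := norm_nonneg (dX π mK v)
    linarith
  | succ l ih =>
    show ‖v‖ + (wn π l (dX π mH v) + wn π l (dX π mV v) + wn π l (dX π mK v)) ≤
      ‖v‖ + (wn π (l + 1) (dX π mH v) + wn π (l + 1) (dX π mV v) + wn π (l + 1) (dX π mK v))
    have h1 := ih (dX π mH v)
    have h2 := ih (dX π mV v)
    have h3 := ih (dX π mK v)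
    linarith

/-- the coordinate functionals -/
private noncomputable def R3P (i j : Fin 2) : (Fin 2 → Fin 2 → ℝ) →L[ℝ] ℝ :=
  (ContinuousLinearMap.proj j).comp (ContinuousLinearMap.proj i : (Fin 2 → Fin 2 → ℝ) →L[ℝ] (Fin 2 → ℝ))

private theorem R3P_apply (i j : Fin 2) (Y : Fin 2 → Fin 2 → ℝ) : R3P i j Y = Y i j := rfl

private noncomputable def R3dt (A : Fin 2 → Fin 2 → ℝ) : ℝ := (A 0 0 * A 1 1 - A 0 1 * A 1 0)⁻¹

private noncomputable def R3H (A : Fin 2 → Fin 2 → ℝ) : (Fin 2 → Fin 2 → ℝ) →L[ℝ] ℝ :=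
  R3dt A • (A 1 1 • R3P 0 0 - A 0 1 • R3P 1 0 + A 1 0 • R3P 0 1 - A 0 0 • R3P 1 1)

private noncomputable def R3V (A : Fin 2 → Fin 2 → ℝ) : (Fin 2 → Fin 2 → ℝ) →L[ℝ] ℝ :=
  R3dt A • (A 1 1 • R3P 0 1 - A 0 1 • R3P 1 1 - A 1 0 • R3P 0 0 + A 0 0 • R3P 1 0)

private noncomputable def R3K (A : Fin 2 → Fin 2 → ℝ) : (Fin 2 → Fin 2 → ℝ) →L[ℝ] ℝ :=
  R3dt A • ((1 / 2 : ℝ) • (A 0 0 • R3P 1 0 - A 1 0 • R3P 0 0 - A 1 1 • R3P 0 1 + A 0 1 • R3P 1 1))

private theorem R3_ne {A : Fin 2 → Fin 2 → ℝ} (hA : A ∈ pos) : A 0 0 * A 1 1 - A 0 1 * A 1 0 ≠ 0 := by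
  have h1 : 0 < (Matrix.of A).det := hA
  rw [R3_det] at h1
  exact h1.ne'

private theorem R3dt_smooth : ContDiffOn ℝ ((⊤ : ℕ∞) : WithTop ℕ∞) R3dt pos := by
  have h1 : ContDiff ℝ ((⊤ : ℕ∞) : WithTop ℕ∞) fun A : Fin 2 → Fin 2 → ℝ => A 0 0 * A 1 1 - A 0 1 * A 1 0 := by
    fun_prop
  exact h1.contDiffOn.inv fun A hA => R3_ne hA

private theorem R3H_smooth : ContDiffOn ℝ ((⊤ : ℕ∞) : WithTop ℕ∞) R3H pos := by
  refine R3dt_smooth.smul (ContDiff.contDiffOn ?_)
  fun_prop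

private theorem R3V_smooth : ContDiffOn ℝ ((⊤ : ℕ∞) : WithTop ℕ∞) R3V pos := by
  refine R3dt_smooth.smul (ContDiff.contDiffOn ?_)
  fun_prop

private theorem R3K_smooth : ContDiffOn ℝ ((⊤ : ℕ∞) : WithTop ℕ∞) R3K pos := by
  refine R3dt_smooth.smul (ContDiff.contDiffOn ?_)
  fun_prop

/-- the derivative of the orbit map -/
private theorem R3_fd {v : H} (hv : Smooth π v) {A : Fin 2 → Fin 2 → ℝ} (hA : A ∈ pos) :
    fderivWithin ℝ (orb π v) pos A = (R3H A).smulRight (orb π (dX π mH v) A) + (R3V A).smulRight (orb π (dX π mV v) A) +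
      (R3K A).smulRight (orb π (dX π mK v) A) := by
  rw [fderivWithin_of_isOpen isOpen_pos hA]
  refine ContinuousLinearMap.ext fun Y => ?_
  have hdt : R3dt A * (A 0 0 * A 1 1 - A 0 1 * A 1 0) = 1 := inv_mul_cancel₀ (R3_ne hA)
  obtain ⟨X, hX⟩ : ∃ X : Fin 2 → Fin 2 → ℝ, X = ![![R3dt A * (A 1 1 * Y 0 0 - A 0 1 * Y 1 0), R3dt A * (A 1 1 * Y 0 1 - A 0 1 * Y 1 1)],
      ![R3dt A * (A 0 0 * Y 1 0 - A 1 0 * Y 0 0), R3dt A * (A 0 0 * Y 1 1 - A 1 0 * Y 0 1)]] := ⟨_, rfl⟩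
  have hXY : (fun i j => ∑ k, A i k * X k j) = Y := by
    funext i j
    rw [Fin.sum_univ_two, hX]
    fin_cases i <;> fin_cases j
    · simp
      linear_combination Y 0 0 * hdt
    · simp
      linear_combination Y 0 1 * hdt
    · simp
      linear_combination Y 1 0 * hdt
    · simp
      linear_combination Y 1 1 * hdt
  have hX2 : X = ((X 0 0 + X 1 1) / 2) • e1 + R3H A Y • mH + R3V A Y • mV + R3K A Y • mK := by
    have he : e1 = ![![1, 0], ![0, 1]] := by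
      funext i j
      fin_cases i <;> fin_cases j <;> simp [e1]
    have h1 : R3H A Y = X 0 0 - X 1 1 := by
      rw [hX]
      simp [R3H, R3P_apply]
      ring
    have h2 : R3V A Y = X 0 1 + X 1 0 := by
      rw [hX]
      simp [R3V, R3P_apply]
      ring
    have h3 : R3K A Y = (X 1 0 - X 0 1) / 2 := by
      rw [hX]
      simp [R3K, R3P_apply]
      ring
    rw [h1, h2, h3, he]
    funext i j
    fin_cases i <;> fin_cases j <;> simp [mH, mV, mK] <;> ring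
  have h1 := fderiv_orb π hv hA X
  rw [hXY] at h1
  rw [h1]
  have h2 : dX π X v = ((R3H A Y : ℝ) : ℂ) • dX π mH v + ((R3V A Y : ℝ) : ℂ) • dX π mV v + ((R3K A Y : ℝ) : ℂ) • dX π mK v := by
    conv_lhs => rw [hX2]
    rw [dX_add, dX_add, dX_add, dX_smul, dX_smul, dX_smul, dX_smul, dX_one, smul_zero, zero_add]
  rw [h2]
  show π.r (nrm A) _ = (R3H A Y) • π.r (nrm A) (dX π mH v) + (R3V A Y) • π.r (nrm A) (dX π mV v) +
      (R3K A Y) • π.r (nrm A) (dX π mK v)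
  rw [map_add, map_add, map_smul, map_smul, map_smul, Complex.coe_smul, Complex.coe_smul, Complex.coe_smul]

/-- bounds for the derivatives of a smooth function on a compact set -/
private theorem R3_bd {E : Type*} [NormedAddCommGroup E] [NormedSpace ℝ E] {f : (Fin 2 → Fin 2 → ℝ) → E}
    (hf : ContDiffOn ℝ ((⊤ : ℕ∞) : WithTop ℕ∞) f pos) {L : Set (Fin 2 → Fin 2 → ℝ)} (hL : IsCompact L) (hLp : L ⊆ pos) (j : ℕ) :
    ∃ K : ℝ, 0 ≤ K ∧ ∀ i ≤ j, ∀ A ∈ L, ‖iteratedFDerivWithin ℝ i f pos A‖ ≤ K := by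
  have h1 : ∀ i : ℕ, ∃ K : ℝ, ∀ A ∈ L, ‖iteratedFDerivWithin ℝ i f pos A‖ ≤ K := by
    intro i
    have h2 : ContinuousOn (iteratedFDerivWithin ℝ i f pos) pos :=
      hf.continuousOn_iteratedFDerivWithin (by exact_mod_cast le_top) isOpen_pos.uniqueDiffOn
    exact hL.exists_bound_of_continuousOn (h2.mono hLp)
  choose K hK using h1
  refine ⟨∑ i ∈ Finset.range (j + 1), |K i|, Finset.sum_nonneg fun _ _ => abs_nonneg _, fun i hi A hA => ?_⟩
  refine (hK i A hA).trans ((le_abs_self _).trans ?_)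
  exact Finset.single_le_sum (f := fun i => |K i|) (fun _ _ => abs_nonneg _) (Finset.mem_range.2 (by omega))

set_option maxSynthPendingDepth 3 in
private theorem R3_leib0 (M F : Type*) [NormedAddCommGroup M] [NormedSpace ℝ M] [NormedAddCommGroup F] [NormedSpace ℝ F] :
    ∃ c : ℝ, 0 ≤ c ∧ ∀ (l : M → (M →L[ℝ] ℝ)) (g : M → F) (s : Set M) (x : M), ContDiffOn ℝ ((⊤ : ℕ∞) : WithTop ℕ∞) l s →
      ContDiffOn ℝ ((⊤ : ℕ∞) : WithTop ℕ∞) g s → UniqueDiffOn ℝ s → x ∈ s → ∀ n : ℕ,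
      ‖iteratedFDerivWithin ℝ n (fun y => (l y).smulRight (g y)) s x‖ ≤ c * ∑ i ∈ Finset.range (n + 1), (n.choose i : ℝ) *
        ‖iteratedFDerivWithin ℝ i l s x‖ * ‖iteratedFDerivWithin ℝ (n - i) g s x‖ := by
  refine ⟨‖ContinuousLinearMap.smulRightL ℝ M F‖, norm_nonneg _, fun l g s x hl hg hs hx n => ?_⟩
  exact ContinuousLinearMap.norm_iteratedFDerivWithin_le_of_bilinear (𝕜 := ℝ)
    (ContinuousLinearMap.smulRightL ℝ M F) (f := l) (g := g) hl hg hs hx (n := n) (by exact_mod_cast le_top)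

private theorem R3_smul_smooth {M F : Type*} [NormedAddCommGroup M] [NormedSpace ℝ M] [NormedAddCommGroup F] [NormedSpace ℝ F]
    {l : M → (M →L[ℝ] ℝ)} {g : M → F} {s : Set M} (hl : ContDiffOn ℝ ((⊤ : ℕ∞) : WithTop ℕ∞) l s)
    (hg : ContDiffOn ℝ ((⊤ : ℕ∞) : WithTop ℕ∞) g s) :
    ContDiffOn ℝ ((⊤ : ℕ∞) : WithTop ℕ∞) (fun A => (l A).smulRight (g A)) s :=
  ((ContinuousLinearMap.smulRightL ℝ M F).isBoundedBilinearMap.contDiff.comp_contDiffOn (hl.prodMk hg))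

private theorem R3_add3 {M F : Type*} [NormedAddCommGroup M] [NormedSpace ℝ M] [NormedAddCommGroup F] [NormedSpace ℝ F]
    {f g h : M → F} {s : Set M} {x : M} (n : ℕ) (hf : ContDiffOn ℝ ((⊤ : ℕ∞) : WithTop ℕ∞) f s)
    (hg : ContDiffOn ℝ ((⊤ : ℕ∞) : WithTop ℕ∞) g s) (hh : ContDiffOn ℝ ((⊤ : ℕ∞) : WithTop ℕ∞) h s) (hs : UniqueDiffOn ℝ s)
    (hx : x ∈ s) : ‖iteratedFDerivWithin ℝ n (f + g + h) s x‖ ≤ ‖iteratedFDerivWithin ℝ n f s x‖ +
      ‖iteratedFDerivWithin ℝ n g s x‖ + ‖iteratedFDerivWithin ℝ n h s x‖ := by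
  have hn : ((n : ℕ) : WithTop ℕ∞) ≤ ((⊤ : ℕ∞) : WithTop ℕ∞) := by exact_mod_cast le_top
  have sf : ContDiffWithinAt ℝ n f s x := (hf.contDiffWithinAt hx).of_le hn
  have sg : ContDiffWithinAt ℝ n g s x := (hg.contDiffWithinAt hx).of_le hn
  have sh : ContDiffWithinAt ℝ n h s x := (hh.contDiffWithinAt hx).of_le hn
  have sfg : ContDiffWithinAt ℝ n (f + g) s x := sf.add sg
  rw [iteratedFDerivWithin_add_apply sfg sh hs hx, iteratedFDerivWithin_add_apply sf sg hs hx]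
  exact (norm_add_le _ _).trans (add_le_add_left (norm_add_le _ _) _)

/-- the Leibniz rule for one term -/
private theorem R3_leib {l : (Fin 2 → Fin 2 → ℝ) → ((Fin 2 → Fin 2 → ℝ) →L[ℝ] ℝ)}
    (hl : ContDiffOn ℝ ((⊤ : ℕ∞) : WithTop ℕ∞) l pos) {L : Set (Fin 2 → Fin 2 → ℝ)} (hL : IsCompact L) (hLp : L ⊆ pos) (j : ℕ) {C : ℝ}
    (hC : 0 ≤ C) (h : ∀ i ≤ j, ∀ A ∈ L, ∀ v : H, Smooth π v → ‖iteratedFDerivWithin ℝ i (orb π v) pos A‖ ≤ C * wn π j v) :
    ∃ C' : ℝ, 0 ≤ C' ∧ ∀ A ∈ L, ∀ v : H, Smooth π v →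
      ‖iteratedFDerivWithin ℝ j (fun A => (l A).smulRight (orb π v A)) pos A‖ ≤ C' * wn π j v := by
  obtain ⟨K, hK0, hK⟩ := R3_bd hl hL hLp j
  obtain ⟨c, hc0, hc⟩ := R3_leib0 (Fin 2 → Fin 2 → ℝ) H
  refine ⟨c * ∑ i ∈ Finset.range (j + 1), (j.choose i : ℝ) * K * C, by positivity, fun A hA v hv => ?_⟩
  refine (hc l (orb π v) pos A hl hv isOpen_pos.uniqueDiffOn (hLp hA) j).trans ?_
  rw [mul_assoc]
  refine mul_le_mul_of_nonneg_left ?_ hc0
  rw [Finset.sum_mul]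
  refine Finset.sum_le_sum fun i hi => ?_
  rw [Finset.mem_range] at hi
  calc (j.choose i : ℝ) * ‖iteratedFDerivWithin ℝ i l pos A‖ * ‖iteratedFDerivWithin ℝ (j - i) (orb π v) pos A‖
      ≤ (j.choose i : ℝ) * K * (C * wn π j v) := by
        refine mul_le_mul ?_ (h (j - i) (by omega) A hA v hv) (norm_nonneg _) (by positivity)
        exact mul_le_mul_of_nonneg_left (hK i (by omega) A hA) (by positivity)
    _ = _ := by ring

private theorem R3_term_smooth {l : (Fin 2 → Fin 2 → ℝ) → ((Fin 2 → Fin 2 → ℝ) →L[ℝ] ℝ)}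
    (hl : ContDiffOn ℝ ((⊤ : ℕ∞) : WithTop ℕ∞) l pos) {v : H} (hv : Smooth π v) :
    ContDiffOn ℝ ((⊤ : ℕ∞) : WithTop ℕ∞) (fun A => (l A).smulRight (orb π v A)) pos :=
  R3_smul_smooth hl hv

private theorem R3_claim (j : ℕ) {L : Set (Fin 2 → Fin 2 → ℝ)} (hL : IsCompact L) (hLp : L ⊆ pos) :
    ∃ C : ℝ, 0 ≤ C ∧ ∀ i ≤ j, ∀ A ∈ L, ∀ v : H, Smooth π v → ‖iteratedFDerivWithin ℝ i (orb π v) pos A‖ ≤ C * wn π j v := by
  induction j with
  | zero =>
    refine ⟨1, zero_le_one, fun i hi A hA v hv => ?_⟩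
    obtain rfl : i = 0 := by omega
    rw [norm_iteratedFDerivWithin_zero, one_mul]
    exact ((π.r (nrm A)).norm_map v).le
  | succ j ih =>
    obtain ⟨C, hC0, hC⟩ := ih
    obtain ⟨C1, hC10, hC1⟩ := R3_leib π R3H_smooth hL hLp j hC0 hC
    obtain ⟨C2, hC20, hC2⟩ := R3_leib π R3V_smooth hL hLp j hC0 hC
    obtain ⟨C3, hC30, hC3⟩ := R3_leib π R3K_smooth hL hLp j hC0 hC
    refine ⟨C + (C1 + C2 + C3), by positivity, fun i hi A hA v hv => ?_⟩
    have hw : 0 ≤ wn π (j + 1) v := wn_nonneg π _ _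
    rcases Nat.lt_or_ge i (j + 1) with hij | hij
    · refine (hC i (by omega) A hA v hv).trans ?_
      calc C * wn π j v ≤ C * wn π (j + 1) v := mul_le_mul_of_nonneg_left (wn_succ π j v) hC0
        _ ≤ _ := mul_le_mul_of_nonneg_right (by linarith) hw
    · obtain rfl : i = j + 1 := by omega
      have hAp := hLp hA
      rw [← norm_iteratedFDerivWithin_fderivWithin isOpen_pos.uniqueDiffOn hAp]
      have hH := smooth_dX π mH hv
      have hV := smooth_dX π mV hv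
      have hK := smooth_dX π mK hv
      have h1 : Set.EqOn (fderivWithin ℝ (orb π v) pos)
          (((fun A => (R3H A).smulRight (orb π (dX π mH v) A)) + fun A => (R3V A).smulRight (orb π (dX π mV v) A)) +
            fun A => (R3K A).smulRight (orb π (dX π mK v) A)) pos := fun B hB => R3_fd π hv hB
      rw [iteratedFDerivWithin_congr h1 hAp j]
      refine (R3_add3 j (R3_term_smooth π R3H_smooth hH) (R3_term_smooth π R3V_smooth hV) (R3_term_smooth π R3K_smooth hK)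
        isOpen_pos.uniqueDiffOn hAp).trans ?_
      have b1 := hC1 A hA _ hH
      have b2 := hC2 A hA _ hV
      have b3 := hC3 A hA _ hK
      have n1 := wn_nonneg π j (dX π mH v)
      have n2 := wn_nonneg π j (dX π mV v)
      have n3 := wn_nonneg π j (dX π mK v)
      have hwd : wn π (j + 1) v = ‖v‖ + (wn π j (dX π mH v) + wn π j (dX π mV v) + wn π j (dX π mK v)) := rfl
      have m1 : C1 * wn π j (dX π mH v) ≤ C1 * wn π (j + 1) v :=
        mul_le_mul_of_nonneg_left (by rw [hwd]; linarith [norm_nonneg v]) hC10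
      have m2 : C2 * wn π j (dX π mV v) ≤ C2 * wn π (j + 1) v :=
        mul_le_mul_of_nonneg_left (by rw [hwd]; linarith [norm_nonneg v]) hC20
      have m3 : C3 * wn π j (dX π mK v) ≤ C3 * wn π (j + 1) v :=
        mul_le_mul_of_nonneg_left (by rw [hwd]; linarith [norm_nonneg v]) hC30
      have m4 : 0 ≤ C * wn π (j + 1) v := mul_nonneg hC0 hw
      calc _ ≤ C1 * wn π j (dX π mH v) + C2 * wn π j (dX π mV v) + C3 * wn π j (dX π mK v) := by linarith
        _ ≤ C * wn π (j + 1) v + (C1 * wn π (j + 1) v + C2 * wn π (j + 1) v + C3 * wn π (j + 1) v) := by linarith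
        _ = _ := by ring

theorem jet_le (l : ℕ) {Ω : Set G} (hΩ : IsCompact Ω) : ∃ C : ℝ, 0 ≤ C ∧ ∀ g ∈ Ω, ∀ v : H, Smooth π v →
    jet π l (π.r g v) ≤ C * wn π l v := by
  obtain ⟨K, hK⟩ := hΩ.exists_bound_of_continuousOn R3M_cont.continuousOn
  have hLc : IsCompact ((fun g : G => R3M g e1) '' Ω) :=
    hΩ.image (R3M_cont.clm_apply continuous_const)
  have hLp : (fun g : G => R3M g e1) '' Ω ⊆ pos := by
    rintro _ ⟨g, _, rfl⟩
    exact R3M_mem g R3_e1
  obtain ⟨C, hC0, hC⟩ := R3_claim π l hLc hLp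
  refine ⟨∑ j ∈ Finset.range (l + 1), C * (1 + |K|) ^ j, by positivity, fun g hg v hv => ?_⟩
  unfold jet
  rw [Finset.sum_mul]
  refine Finset.sum_le_sum fun j hj => ?_
  rw [Finset.mem_range] at hj
  rw [← iteratedFDerivWithin_of_isOpen j isOpen_pos R3_e1, iteratedFDerivWithin_congr (R3_orb_r π g v) R3_e1 j,
    R3_it π hv g j R3_e1]
  refine (ContinuousMultilinearMap.norm_compContinuousLinearMap_le _ _).trans ?_
  rw [Finset.prod_const, Finset.card_univ, Fintype.card_fin]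
  have h1 : ‖R3M g‖ ≤ 1 + |K| := (hK g hg).trans (by linarith [le_abs_self K])
  have h2 := hC j (by omega) _ (Set.mem_image_of_mem (fun g : G => R3M g e1) hg) v hv
  have h3 : 0 ≤ C * wn π l v := mul_nonneg hC0 (wn_nonneg π l v)
  calc ‖iteratedFDerivWithin ℝ j (orb π v) pos (R3M g e1)‖ * ‖R3M g‖ ^ j
      ≤ (C * wn π l v) * (1 + |K|) ^ j :=
        mul_le_mul h2 (pow_le_pow_left₀ (norm_nonneg _) h1 j) (by positivity) h3
    _ = _ := by ring

end MPku
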